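import Pool.Agent.H5T.DifB

/-!
Additivity of the difference map.
-/

namespace SelAvg.FF.T3

open WeierstrassCurve Matrix
open scoped Classical

section Perm

variable {R : Type*} [CommRing R]

lemma difc_subst_swap (f : Model R) : f.subst !![0, 0, 1; 0, 1, 0; 1, 0, 0] =
    ⟨f.c, f.b, f.a, f.c2, f.c1, f.b3, f.b1, f.a3, f.a2, f.m⟩ := by
  ext <;> simp [Model.subst, Model.F, Model.pol, Model.tri, Model.Fx, Model.Fy, Model.Fz]
  ring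

lemma difc_subst_cyc (f : Model R) : f.subst !![0, 1, 0; 0, 0, 1; 1, 0, 0] =
    ⟨f.b, f.c, f.a, f.b3, f.b1, f.c2, f.c1, f.a2, f.a3, f.m⟩ := by
  ext <;> simp [Model.subst, Model.F, Model.pol, Model.tri, Model.Fx, Model.Fy, Model.Fz]
  ring

lemma difc_sh_swap (f : Model R) :
    f.sh !![0, 0, 1; 0, 1, 0; 1, 0, 0] = wsh 0 f.jac.a₁ f.jac.a₃ := by
  have key : ∀ f : Model (Free R),
      f.sh !![0, 0, 1; 0, 1, 0; 1, 0, 0] = wsh 0 f.jac.a₁ f.jac.a₃ := by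
    intro f
    apply Model.sh_unique
    have hd : (!![0, 0, 1; 0, 1, 0; 1, 0, 0] : Matrix (Fin 3) (Fin 3) (Free R)).det = -1 := by
      simp [det_fin_three]
    rw [difc_subst_swap, hd]
    ext1 <;> simp only [Model.jac, wsc, wsh, variableChange_a₁, variableChange_a₂,
      variableChange_a₃, variableChange_a₄, variableChange_a₆, inv_one, Units.val_one] <;> ring
  have h := congrArg (fun C => C.map (freeEv R)) (key (liftF f))
  have e : (!![0, 0, 1; 0, 1, 0; 1, 0, 0] : Matrix (Fin 3) (Fin 3) (Free R)).map (freeEv R) =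
      !![0, 0, 1; 0, 1, 0; 1, 0, 0] := by
    ext i j; fin_cases i <;> fin_cases j <;> simp
  simpa only [← Model.sh_map, e, wsh_map, map_zero, ← map_a₁, ← map_a₃, ← Model.jac_map,
    liftF_map] using h

lemma difc_sh_cyc (f : Model R) : f.sh !![0, 1, 0; 0, 0, 1; 1, 0, 0] = wsh 0 0 0 := by
  have key : ∀ f : Model (Free R), f.sh !![0, 1, 0; 0, 0, 1; 1, 0, 0] = wsh 0 0 0 := by
    intro f
    apply Model.sh_unique
    have hd : (!![0, 1, 0; 0, 0, 1; 1, 0, 0] : Matrix (Fin 3) (Fin 3) (Free R)).det = 1 := by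
      simp [det_fin_three]
    rw [difc_subst_cyc, hd]
    ext1 <;> simp only [Model.jac, wsc, wsh, variableChange_a₁, variableChange_a₂,
      variableChange_a₃, variableChange_a₄, variableChange_a₆, inv_one, Units.val_one] <;> ring
  have h := congrArg (fun C => C.map (freeEv R)) (key (liftF f))
  have e : (!![0, 1, 0; 0, 0, 1; 1, 0, 0] : Matrix (Fin 3) (Fin 3) (Free R)).map (freeEv R) =
      !![0, 1, 0; 0, 0, 1; 1, 0, 0] := by
    ext i j; fin_cases i <;> fin_cases j <;> simp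
  simpa only [← Model.sh_map, e, wsh_map, map_zero, liftF_map] using h

end Perm

variable {L L' : Type*} [Field L] [Field L']

/-- the group element with a given invertible matrix -/
noncomputable def difcG (M : Matrix (Fin 3) (Fin 3) L) (h : M.det ≠ 0) : G L :=
  ⟨GeneralLinearGroup.mkOfDetNeZero M h, 1⟩

lemma difcG_e (M : Matrix (Fin 3) (Fin 3) L) (h : M.det ≠ 0) : (difcG M h).e = M := rfl

lemma difcG_smul (M : Matrix (Fin 3) (Fin 3) L) (h : M.det ≠ 0) (f : Model L) :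
    difcG M h • f = f.subst M := by
  rw [G.smul_def, difcG_e]; simp [difcG]

/-- the exchange of `x` and `z` -/
noncomputable def difcS : G L := difcG !![0, 0, 1; 0, 1, 0; 1, 0, 0] (by simp [det_fin_three])

/-- the cyclic permutation -/
noncomputable def difcC : G L := difcG !![0, 1, 0; 0, 0, 1; 1, 0, 0] (by simp [det_fin_three])

lemma difcS_pt (x y z : L) : (difcS : G L).pt ![x, y, z] = ![z, y, x] := by
  funext j; fin_cases j <;> simp [G.pt_apply, difcS, difcG_e]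

lemma difcC_pt (x y z : L) : (difcC : G L).pt ![x, y, z] = ![z, x, y] := by
  funext j; fin_cases j <;> simp [G.pt_apply, difcC, difcG_e]

lemma difcS_Gam (f : Model L) : (difcS : G L).Gam f = ⟨-1, 0, -f.jac.a₁, -f.jac.a₃⟩ := by
  have hd : (difcS : G L).det = -1 := by
    ext; simp [G.det_val, difcS, difcG_e, det_fin_three]
  rw [G.Gam, hd, difcS, difcG_e, difc_sh_swap]
  ext <;> simp [wdiag, wsh, difcG, VariableChange.mul_def]
  ring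

lemma difcC_Gam (f : Model L) : (difcC : G L).Gam f = 1 := by
  have hd : (difcC : G L).det = 1 := by
    ext; simp [G.det_val, difcC, difcG_e, det_fin_three]
  rw [G.Gam, hd, difcC, difcG_e, difc_sh_cyc]
  ext <;> simp [wdiag, wsh, difcG, VariableChange.mul_def, VariableChange.one_def]

lemma difc_over (f : Model L) : (⟨f, 1⟩ : Obj L).Over f.jac := (one_smul _ _).symm

variable {W : WeierstrassCurve L} {z : Obj L}

/-- the coordinates of `D` -/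
theorem toRaw_D (hW : W.Δ ≠ 0) (hz : z.Over W) {Q Q' : Pt L} (hQ : z.f.On Q) (hQ' : z.f.On Q')
    (g : G L) (hg : (g.pt Pt.std).Eqv Q) (h2 : (g • z.f).a2 = 0) :
    toRaw (D W z Q Q') = vcRaw (g.Gam z.f * z.γ)
      ((g • z.f).red.stdDiff ((g • z.f).phi (g⁻¹.pt Q'))) := by
  have hs : (g • z.f).Std :=
    ⟨Model.on_std.1 ((Model.on_pt g z.f _).1 (hQ.eqv hg.symm)), h2⟩
  have ho : (g • z.f).On (g⁻¹.pt Q') := (Model.on_pt g z.f _).1 (by rwa [G.pt_inv_pt])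
  rw [D_eq hW hz hQ hQ' g hg h2,
    SelAvg.toRaw_D_std hW ((Obj.over_red hs).2 (hz.smul g)) rfl (Model.on_phi hs ho)]
  rfl

/-- reduction to `γ = 1` -/
lemma D_eq_vcPt (hW : W.Δ ≠ 0) (hz : z.Over W) {Q Q' : Pt L} (hQ : z.f.On Q) (hQ' : z.f.On Q') :
    D W z Q Q' = vcPt z.γ hz (D z.f.jac ⟨z.f, 1⟩ Q Q') := by
  obtain ⟨hg, hs⟩ := mover_spec (hz.jac_Delta hW) hQ
  have hg' : ((mover z.f Q).pt Pt.std).Eqv Q := by rw [hg]; exact Pt.Eqv.refl _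
  apply toRaw_injective
  rw [toRaw_vcPt, toRaw_D hW hz hQ hQ' _ hg' hs.a2,
    toRaw_D (z := ⟨z.f, 1⟩) (hz.jac_Delta hW) (difc_over z.f) hQ hQ' _ hg' hs.a2]
  simp only [mul_one, vcRaw_mul]

lemma difc_std_eqv : ((1 : G L).pt Pt.std).Eqv Pt.std := by
  rw [G.one_pt]; exact Pt.Eqv.refl _

lemma difc_raw_std {f : Model L} (hΔ : f.jac.Δ ≠ 0) (h : f.Std) {x y z : L} (hz : z ≠ 0)
    (hQ : f.On ![x, y, z]) : toRaw (D f.jac ⟨f, 1⟩ Pt.std ![x, y, z]) =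
      some (f.red.NX (f.phi0 ![x, y, z]) / z ^ 2, f.red.NY (f.phi0 ![x, y, z]) / z ^ 3) := by
  rw [toRaw_D hΔ (difc_over f) (Model.on_std.2 h.a) hQ 1 difc_std_eqv (by simpa using h.a2)]
  simp only [one_smul, G.Gam_one, mul_one, vcRaw_one, inv_one, G.one_pt]
  rw [Model.phi_of_ne _ (by simp [hz]), SelAvg.Model.stdDiff, if_neg (by simpa [Model.phi0] using hz)]
  rfl

/-- first normal form: the points `(1, 0, 0)`, `(0, 0, 1)` with tangents `z = 0`, `x = 0` -/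
lemma difc_nf1 {f : Model L} (hΔ : f.jac.Δ ≠ 0) (h : f.Std) (hc : f.c = 0) (hc2 : f.c2 = 0)
    {x y z : L} (hx : x ≠ 0) (hz : z ≠ 0) (hQ : f.On ![x, y, z])
    (hne : D f.jac ⟨f, 1⟩ ![0, 0, 1] ![x, y, z] ≠ D f.jac ⟨f, 1⟩ Pt.std ![0, 0, 1])
    (hne' : D f.jac ⟨f, 1⟩ ![0, 0, 1] ![x, y, z] ≠ -D f.jac ⟨f, 1⟩ Pt.std ![0, 0, 1]) :
    D f.jac ⟨f, 1⟩ Pt.std ![0, 0, 1] + D f.jac ⟨f, 1⟩ ![0, 0, 1] ![x, y, z] =
      D f.jac ⟨f, 1⟩ Pt.std ![x, y, z] := by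
  have h2 : f.On ![0, 0, 1] := ⟨Pt.prim_iff.2 ⟨2, by simp⟩, by simp [Model.F, hc]⟩
  have hF := hQ.eq
  have r1 := difc_raw_std hΔ h one_ne_zero h2
  have r3 := difc_raw_std hΔ h hz hQ
  have es : (difcS : G L) • f = ⟨f.c, f.b, f.a, f.c2, f.c1, f.b3, f.b1, f.a3, f.a2, f.m⟩ := by
    rw [difcS, difcG_smul, difc_subst_swap]
  have r2 := toRaw_D hΔ (difc_over f) h2 hQ difcS
    (by rw [show (Pt.std : Pt L) = ![1, 0, 0] from rfl, difcS_pt]; exact Pt.Eqv.refl _)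
    (by rw [es]; exact hc2)
  have e1 : (difcS : G L)⁻¹.pt ![x, y, z] = ![z, y, x] := by
    rw [← difcS_pt z y x, G.inv_pt_pt]
  rw [e1, mul_one, es, difcS_Gam, Model.phi_of_ne _ (by simp [hx]), SelAvg.Model.stdDiff,
    if_neg (by simpa [Model.phi0] using hx), vcRaw_some] at r2
  have hxne := add0_x_ne r2 r1 hne hne'
  obtain ⟨a, b, c, a2, a3, b1, b3, c1, c2, m⟩ := f
  obtain ⟨ha, ha2⟩ := h
  simp only at ha ha2 hc hc2
  subst ha ha2 hc hc2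
  simp only [Model.F, Matrix.cons_val_zero, Matrix.cons_val_one, Matrix.cons_val] at hF
  refine add0_add_raw (s := -(b * y ^ 2 + b1 * x * y + b3 * y * z + m * x * z) / (x * z))
    r1 r2 r3 hxne.symm
    (sub_eq_zero.1 (Eq.trans ?_ (mul_eq_zero_of_right (b * c1 / (x ^ 2 * z)) hF)))
    (sub_eq_zero.1 (Eq.trans ?_
      (mul_eq_zero_of_right ((b * y + b1 * x + b3 * z) / (x ^ 2 * z ^ 2)) hF)))
    (sub_eq_zero.1 (Eq.trans ?_ (mul_eq_zero_of_right (-a3 * b / (x * z ^ 2)) hF)))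
  all_goals
    clear r1 r2 r3 hxne es hne hne' h2 hQ hΔ e1 hF
    simp only [SelAvg.Model.NX, SelAvg.Model.NY, SelAvg.Model.q, Model.phi0, Model.red, Model.jac,
      Units.val_neg, Units.val_one, Matrix.cons_val_zero, Matrix.cons_val_one, Matrix.cons_val]
    field_simp
    ring

lemma difc_raw_tangent {f : Model L} (hΔ : f.jac.Δ ≠ 0) (h : f.Std) (hb : f.b = 0)
    (hb3 : f.b3 = 0) : toRaw (D f.jac ⟨f, 1⟩ Pt.std ![0, 1, 0]) = some (0, -f.jac.a₃) := by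
  have h2 : f.On ![0, 1, 0] := ⟨Pt.prim_iff.2 ⟨1, by simp⟩, by simp [Model.F, hb]⟩
  have h1 : f.b1 ≠ 0 := (Model.b1_or_b hΔ h).resolve_right (not_not.2 hb)
  rw [toRaw_D hΔ (difc_over f) (Model.on_std.2 h.a) h2 1 difc_std_eqv (by simpa using h.a2)]
  simp only [one_smul, G.Gam_one, mul_one, vcRaw_one, inv_one, G.one_pt]
  rw [Model.phi_of_ne _ (by simp), SelAvg.Model.stdDiff, if_pos (by simp [Model.phi0]),
    if_neg (by simpa [Model.phi0, SelAvg.Model.q] using h1), SelAvg.Model.piStd,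
    if_neg (by simpa [Model.red] using h1)]
  simp only [SelAvg.Model.PX, SelAvg.Model.PY, Model.red, Model.jac, h.a, h.a2, hb, hb3]
  congr 2
  · simp
  · field_simp
    ring

lemma difc_raw_cyc {f : Model L} (hΔ : f.jac.Δ ≠ 0) (hb : f.b = 0) (hb3 : f.b3 = 0)
    {x y z : L} (hx : x ≠ 0) (hQ : f.On ![x, y, z]) :
    toRaw (D f.jac ⟨f, 1⟩ ![0, 1, 0] ![x, y, z]) =
      some ((f.subst !![0, 1, 0; 0, 0, 1; 1, 0, 0]).red.NX
          ((f.subst !![0, 1, 0; 0, 0, 1; 1, 0, 0]).phi0 ![y, z, x]) / x ^ 2,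
        (f.subst !![0, 1, 0; 0, 0, 1; 1, 0, 0]).red.NY
          ((f.subst !![0, 1, 0; 0, 0, 1; 1, 0, 0]).phi0 ![y, z, x]) / x ^ 3) := by
  have h2 : f.On ![0, 1, 0] := ⟨Pt.prim_iff.2 ⟨1, by simp⟩, by simp [Model.F, hb]⟩
  have es : (difcC : G L) • f = f.subst !![0, 1, 0; 0, 0, 1; 1, 0, 0] := difcG_smul _ _ _
  have e1 : (difcC : G L)⁻¹.pt ![x, y, z] = ![y, z, x] := by
    rw [← difcC_pt y z x, G.inv_pt_pt]
  rw [toRaw_D hΔ (difc_over f) h2 hQ difcC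
    (by rw [show (Pt.std : Pt L) = ![1, 0, 0] from rfl, difcC_pt]; exact Pt.Eqv.refl _)
    (by rw [es, difc_subst_cyc]; exact hb3), e1, mul_one, es, difcC_Gam, vcRaw_one,
    Model.phi_of_ne _ (by simp [hx]), SelAvg.Model.stdDiff,
    if_neg (by simpa [Model.phi0] using hx)]
  rfl

/-- second normal form: the points `(1, 0, 0)`, `(0, 1, 0)` with tangents `z = 0`, `x = 0` -/
lemma difc_nf2 {f : Model L} (hΔ : f.jac.Δ ≠ 0) (h : f.Std) (hb : f.b = 0) (hb3 : f.b3 = 0)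
    {x y z : L} (hx : x ≠ 0) (hz : z ≠ 0) (hQ : f.On ![x, y, z])
    (hne : D f.jac ⟨f, 1⟩ ![0, 1, 0] ![x, y, z] ≠ D f.jac ⟨f, 1⟩ Pt.std ![0, 1, 0])
    (hne' : D f.jac ⟨f, 1⟩ ![0, 1, 0] ![x, y, z] ≠ -D f.jac ⟨f, 1⟩ Pt.std ![0, 1, 0]) :
    D f.jac ⟨f, 1⟩ Pt.std ![0, 1, 0] + D f.jac ⟨f, 1⟩ ![0, 1, 0] ![x, y, z] =
      D f.jac ⟨f, 1⟩ Pt.std ![x, y, z] := by
  have hF := hQ.eq
  have r1 := difc_raw_tangent hΔ h hb hb3
  have r3 := difc_raw_std hΔ h hz hQ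
  have r2 := difc_raw_cyc hΔ hb hb3 hx hQ
  rw [difc_subst_cyc] at r2
  have hxne := add0_x_ne r2 r1 hne hne'
  obtain ⟨a, b, c, a2, a3, b1, b3, c1, c2, m⟩ := f
  obtain ⟨ha, ha2⟩ := h
  simp only at ha ha2 hb hb3
  subst ha ha2 hb hb3
  simp only [Model.F, Matrix.cons_val_zero, Matrix.cons_val_one, Matrix.cons_val] at hF
  refine add0_add_raw (s := -(b1 * y + m * z) / z) r1 r2 r3 hxne.symm
    (sub_eq_zero.1 (Eq.trans ?_ (mul_eq_zero_of_right (b1 * c2 / (x ^ 2 * z)) hF)))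
    (sub_eq_zero.1 (Eq.trans ?_ (mul_eq_zero_of_right (b1 / (x * z ^ 2)) hF)))
    (sub_eq_zero.1 (Eq.trans ?_ (mul_eq_zero_of_right 0 hF)))
  all_goals
    clear r1 r2 r3 hxne hne hne' hQ hΔ hF
    simp only [SelAvg.Model.NX, SelAvg.Model.NY, SelAvg.Model.q, Model.phi0, Model.red, Model.jac,
      Matrix.cons_val_zero, Matrix.cons_val_one, Matrix.cons_val]
    field_simp
    ring

lemma difc_nf2_anti {f : Model L} (hΔ : f.jac.Δ ≠ 0) (h : f.Std) (hb : f.b = 0)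
    (hb3 : f.b3 = 0) :
    D f.jac ⟨f, 1⟩ Pt.std ![0, 1, 0] + D f.jac ⟨f, 1⟩ ![0, 1, 0] Pt.std = 0 := by
  have r1 := difc_raw_tangent hΔ h hb hb3
  have r2 := difc_raw_cyc hΔ hb hb3 (y := 0) (z := 0) one_ne_zero (Model.on_std.2 h.a)
  rw [difc_subst_cyc] at r2
  refine add0_add_zero r1 r2 ?_ ?_ <;>
    simp [SelAvg.Model.NX, SelAvg.Model.NY, SelAvg.Model.q, Model.phi0, Model.red, h.a, h.a2]

/-- the third point of the line through `Q` and `Q'` -/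
def Model.third {R : Type*} [CommRing R] (f : Model R) (Q Q' : Pt R) : Pt R :=
  f.pol Q' Q • Q - f.pol Q Q' • Q'

lemma Model.third_symm {R : Type*} [CommRing R] (f : Model R) (Q Q' : Pt R) :
    f.third Q' Q = (f.third Q Q').sc (-1) := by
  simp [Model.third]

lemma Model.third_pt {R : Type*} [CommRing R] (g : G R) (f : Model R) (Q Q' : Pt R) :
    f.third (g.pt Q) (g.pt Q') = (g.pt ((g • f).third Q Q')).sc (g.μ : R) := by
  rw [Model.third, G.pol_pt, G.pol_pt]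
  simp only [Model.third, G.pt, sub_vecMul, smul_vecMul, smul_sub, smul_smul]

lemma difc_D_inv {z : SelAvg.Obj L} (hW : W.Δ ≠ 0) (hz : z.Over W) {Q P : SelAvg.Pt L}
    (hQ : z.f.On Q) (hP : z.f.On P) :
    SelAvg.D W z Q P + SelAvg.D W z Q (z.f.inv P) = SelAvg.piP W z Q := by
  rw [← SelAvg.D_add hW hz hQ hQ.inv hP.inv, SelAvg.D_inv hW hz hQ hP, SelAvg.piP]
  abel

lemma difc_third_std {f : Model L} (hΔ : f.jac.Δ ≠ 0) (h : f.Std) {Q : Pt L} (hQ : f.On Q)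
    (hne : ¬(Pt.std : Pt L).Eqv Q) :
    f.On (f.third Pt.std Q) ∧ (f.red.inv (f.phi Q)).Eqv (f.phi (f.third Pt.std Q)) := by
  have h3 := Model.a3_ne hΔ h
  rw [Pt.std_eqv_iff hQ.prim] at hne
  have p1 : f.pol Pt.std Q = Q 2 * f.a3 := by simp [Model.pol, h.a, h.a2]
  have p2 : f.pol Q Pt.std = f.Fx Q := by simp [Model.pol]
  have t0 : f.third Pt.std Q 0 = f.Fx Q - Q 2 * f.a3 * Q 0 := by simp [Model.third, p1, p2]
  have t1 : f.third Pt.std Q 1 = -(Q 2 * f.a3 * Q 1) := by simp [Model.third, p1, p2]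
  have t2 : f.third Pt.std Q 2 = -(Q 2 * f.a3 * Q 2) := by simp [Model.third, p1, p2]
  have hF : f.F (f.third Pt.std Q) = 0 := by
    rw [Model.third, sub_eq_add_neg, ← neg_smul, Model.F_add, hQ.eq, Model.F_std, h.a]
    ring
  rw [Model.phi_of_ne _ hne]
  by_cases hz : Q 2 = 0
  · have hy : Q 1 ≠ 0 := fun h1 => hne ⟨h1, hz⟩
    have hF0 := hQ.eq
    simp only [Model.F, hz, h.a, h.a2] at hF0
    have h1 : f.b1 ≠ 0 := by
      intro h1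
      have hb := (Model.b1_or_b hΔ h).resolve_left (not_not.2 h1)
      rw [h1] at hF0
      exact mul_ne_zero hb (pow_ne_zero 3 hy) (by linear_combination hF0)
    have hx : f.third Pt.std Q 0 ≠ 0 := by
      rw [t0]
      simpa [Model.Fx, hz, h.a, h.a2, h1] using hy
    refine ⟨⟨Pt.prim_iff.2 ⟨0, hx⟩, hF⟩, ?_⟩
    rw [Model.phi, if_pos ⟨by simp [t1, hz], by simp [t2, hz]⟩]
    refine ⟨(Q 1)⁻¹, inv_ne_zero hy, ?_⟩
    ext <;> simp [SelAvg.Model.inv, Model.phi0, hz, hy]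
  · have hz' : f.third Pt.std Q 2 ≠ 0 := by rw [t2]; simp [hz, h3]
    refine ⟨⟨Pt.prim_iff.2 ⟨2, hz'⟩, hF⟩, ?_⟩
    rw [Model.phi_of_ne _ (fun hh => hz' hh.2)]
    refine ⟨-(Q 2 * f.a3), by simp [hz, h3], ?_⟩
    ext <;> simp only [SelAvg.Model.inv, Model.phi0, SelAvg.Pt.sc_x, SelAvg.Pt.sc_y,
      SelAvg.Pt.sc_z, t0, t1, t2, SelAvg.Model.q, Model.red, Model.Fx, h.a, h.a2] <;> ring

/-- collinear points -/
theorem D_third (hW : W.Δ ≠ 0) (hz : z.Over W) {Q Q' : Pt L} (hQ : z.f.On Q) (hQ' : z.f.On Q')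
    (hne : ¬Q.Eqv Q') :
    z.f.On (z.f.third Q Q') ∧ D W z Q Q' + D W z Q (z.f.third Q Q') = piP W z Q := by
  obtain ⟨g, rfl, hs⟩ : ∃ g : G L, g.pt Pt.std = Q ∧ (g • z.f).Std :=
    ⟨_, mover_spec (hz.jac_Delta hW) hQ⟩
  obtain ⟨Q', rfl⟩ : ∃ Q'' : Pt L, g.pt Q'' = Q' := ⟨g⁻¹.pt Q', G.pt_inv_pt _ _⟩
  have h0 : (g • z).f.On Pt.std := (Model.on_pt g z.f _).1 hQ
  have h1 : (g • z).f.On Q' := (Model.on_pt g z.f _).1 hQ'
  have hz' := hz.smul g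
  obtain ⟨k1, k2⟩ := difc_third_std (hz'.jac_Delta hW) hs h1 (fun e => hne (e.pt g))
  have e : (g.pt ((g • z).f.third Pt.std Q')).Eqv (z.f.third (g.pt Pt.std) (g.pt Q')) := by
    rw [Model.third_pt]; exact Pt.eqv_sc _ g.μ.ne_zero
  have k3 := (Model.on_pt g z.f _).2 k1
  refine ⟨k3.eqv e, ?_⟩
  have hr := (Obj.over_red hs).2 hz'
  have o0 : (g • z).red.f.On SelAvg.Pt.std := SelAvg.Model.on_std.2 rfl
  have o1 : (g • z).red.f.On ((g • z).f.phi Q') := Model.on_phi hs h1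
  rw [← D_eqv hW hz hQ k3 (Pt.Eqv.refl _) e, ← D_smul hW hz g h0 h1, ← D_smul hW hz g h0 k1,
    ← piP_smul hW hz g h0, D_std hW hz' hs h1, D_std hW hz' hs k1, piP_std hW hz' hs,
    ← SelAvg.D_eqv hW hr o0 o1.inv (SelAvg.Pt.Eqv.refl _) k2]
  exact difc_D_inv hW hr o0 o1

/-- a point on the tangent line at `Q` -/
lemma D_of_pol_eq_zero (hW : W.Δ ≠ 0) (hz : z.Over W) {Q Q' : Pt L} (hQ : z.f.On Q)
    (hQ' : z.f.On Q') (hne : ¬Q.Eqv Q') (h : z.f.pol Q Q' = 0) : D W z Q Q' = piP W z Q := by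
  obtain ⟨k1, k2⟩ := D_third hW hz hQ hQ' hne
  have e : z.f.third Q Q' = Q.sc (z.f.pol Q' Q) := by simp [Model.third, h]
  have h0 : z.f.pol Q' Q ≠ 0 := by
    intro h0
    apply k1.prim
    rw [e, h0]
    exact zero_smul _ _
  rwa [(D_eq_zero_iff hW hz hQ k1).2 (by rw [e]; exact Pt.eqv_sc _ h0), add_zero] at k2

lemma difc_vec {R : Type*} (Q : Pt R) : Q = ![Q 0, Q 1, Q 2] := by
  funext i; fin_cases i <;> rfl

/-- additivity when neither point lies on the tangent at the other -/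
lemma difc_add1 (hW : W.Δ ≠ 0) (hz : z.Over W) {Q₁ Q₂ Q : Pt L} (h₁ : z.f.On Q₁)
    (h₂ : z.f.On Q₂) (hQ : z.f.On Q) (h12 : z.f.pol Q₁ Q₂ ≠ 0) (h21 : z.f.pol Q₂ Q₁ ≠ 0)
    (h1 : z.f.pol Q₁ Q ≠ 0) (h2 : z.f.pol Q₂ Q ≠ 0) (hne : D W z Q₂ Q ≠ D W z Q₁ Q₂)
    (hne' : D W z Q₂ Q ≠ -D W z Q₁ Q₂) : D W z Q₁ Q₂ + D W z Q₂ Q = D W z Q₁ Q := by
  obtain ⟨g, rfl, rfl, p1, p2⟩ : ∃ g : G L, g.pt Pt.std = Q₁ ∧ g.pt ![0, 0, 1] = Q₂ ∧
      z.f.pol Q₁ (g.pt ![0, 1, 0]) = 0 ∧ z.f.pol Q₂ (g.pt ![0, 1, 0]) = 0 := by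
    have e1 := z.f.euler Q₁
    have e2 := z.f.euler Q₂
    rw [h₁.eq] at e1
    rw [h₂.eq] at e2
    simp only [Model.pol] at e1 e2 h12 h21 ⊢
    generalize z.f.Fx Q₁ = u0 at *
    generalize z.f.Fy Q₁ = u1 at *
    generalize z.f.Fz Q₁ = u2 at *
    generalize z.f.Fx Q₂ = w0 at *
    generalize z.f.Fy Q₂ = w1 at *
    generalize z.f.Fz Q₂ = w2 at *
    refine ⟨difcG !![Q₁ 0, Q₁ 1, Q₁ 2; u1 * w2 - u2 * w1, u2 * w0 - u0 * w2, u0 * w1 - u1 * w0;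
      Q₂ 0, Q₂ 1, Q₂ 2] ?_, ?_, ?_, ?_, ?_⟩
    · intro hd
      apply mul_ne_zero h12 h21
      simp [det_fin_three] at hd
      linear_combination hd + (Q₂ 0 * w0 + Q₂ 1 * w1 + Q₂ 2 * w2) * e1
    · funext j; fin_cases j <;> simp [G.pt_apply, difcG_e]
    · funext j; fin_cases j <;> simp [G.pt_apply, difcG_e]
    · simp [G.pt_apply, difcG_e]; ring
    · simp [G.pt_apply, difcG_e]; ring
  obtain ⟨Q, rfl⟩ : ∃ Q' : Pt L, g.pt Q' = Q := ⟨g⁻¹.pt Q, G.pt_inv_pt _ _⟩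
  have k1 : (g • z).f.On Pt.std := (Model.on_pt g z.f _).1 h₁
  have k2 : (g • z).f.On ![0, 0, 1] := (Model.on_pt g z.f _).1 h₂
  have k : (g • z).f.On Q := (Model.on_pt g z.f _).1 hQ
  have hz' := hz.smul g
  rw [G.pol_pt, ← Obj.smul_f, mul_eq_zero, or_iff_right g.μ.ne_zero] at p1 p2
  rw [G.pol_pt, ← Obj.smul_f, mul_ne_zero_iff] at h1 h2
  replace h1 := h1.2
  replace h2 := h2.2
  rw [← D_smul hW hz g k1 k2, ← D_smul hW hz g k2 k] at hne hne' ⊢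
  rw [← D_smul hW hz g k1 k]
  generalize g • z = w at k1 k2 k hz' hne hne' p1 p2 h1 h2 ⊢
  have hs : w.f.Std := ⟨Model.on_std.1 k1, by simpa [Model.pol] using p1⟩
  have hc : w.f.c = 0 := by simpa [Model.F] using k2.eq
  have hc2 : w.f.c2 = 0 := by simpa [Model.pol, Model.Fy] using p2
  have hx : Q 0 ≠ 0 := by
    intro h; apply h2; simp [Model.pol, Model.Fx, Model.Fy, Model.Fz, h, hc, hc2]
  have hzz : Q 2 ≠ 0 := by
    intro h; apply h1; simp [Model.pol, h, hs.a, hs.a2]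
  rw [D_eq_vcPt hW hz' k1 k2, D_eq_vcPt hW hz' k2 k] at hne hne' ⊢
  rw [D_eq_vcPt hW hz' k1 k, ← map_add]
  congr 1
  rw [difc_vec Q] at k hne hne' ⊢
  exact difc_nf1 (hz'.jac_Delta hW) hs hc hc2 hx hzz k (fun h => hne (by rw [h]))
    (fun h => hne' (by rw [h, map_neg]))

/-- the normal form when `Q₂` lies on the tangent at `Q₁` -/
lemma difc_exists_nf2 {f : Model L} (hΔ : f.jac.Δ ≠ 0) {Q₁ Q₂ : Pt L} (h₁ : f.On Q₁)
    (h₂ : f.On Q₂) (hne : ¬Q₁.Eqv Q₂) (h12 : f.pol Q₁ Q₂ = 0) :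
    ∃ g : G L, g.pt Pt.std = Q₁ ∧ g.pt ![0, 1, 0] = Q₂ ∧ (g • f).Std ∧ (g • f).b = 0 ∧
      (g • f).b3 = 0 := by
  obtain ⟨g, rfl, hs⟩ : ∃ g : G L, g.pt Pt.std = Q₁ ∧ (g • f).Std := ⟨_, mover_spec hΔ h₁⟩
  obtain ⟨Q, rfl⟩ : ∃ Q' : Pt L, g.pt Q' = Q₂ := ⟨g⁻¹.pt Q₂, G.pt_inv_pt _ _⟩
  have k : (g • f).On Q := (Model.on_pt g f _).1 h₂
  have hΔ' := (Model.jac_Delta_smul g f).2 hΔ
  rw [G.pol_pt, mul_eq_zero, or_iff_right g.μ.ne_zero] at h12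
  have hne' : ¬(Q 1 = 0 ∧ Q 2 = 0) := fun e => hne (((Pt.std_eqv_iff k.prim).2 e).pt g)
  suffices h : ∃ g' : G L, g'.pt Pt.std = Pt.std ∧ g'.pt ![0, 1, 0] = Q ∧ (g' • g • f).Std ∧
      (g' • g • f).b = 0 ∧ (g' • g • f).b3 = 0 by
    obtain ⟨g', a1, a2, a3⟩ := h
    exact ⟨g' * g, by rw [G.mul_pt, a1], by rw [G.mul_pt, a2], by rwa [mul_smul]⟩
  generalize g • f = w at hs k hΔ' h12
  have hz : Q 2 = 0 := by
    simpa [Model.pol, hs.a, hs.a2, Model.a3_ne hΔ' hs] using h12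
  have hy : Q 1 ≠ 0 := fun h => hne' ⟨h, hz⟩
  have hF := k.eq
  simp only [Model.F, hz, hs.a, hs.a2] at hF
  have h1 : w.b1 ≠ 0 := by
    intro h1
    have hb := (Model.b1_or_b hΔ' hs).resolve_left (not_not.2 h1)
    rw [h1] at hF
    exact mul_ne_zero hb (pow_ne_zero 3 hy) (by linear_combination hF)
  refine ⟨difcG !![1, 0, 0; Q 0, Q 1, 0; -w.Fz Q, 0, w.b1 * Q 1 ^ 2]
    (by simp [det_fin_three, hy, h1]), ?_, ?_, ⟨?_, ?_⟩, ?_, ?_⟩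
  · funext j; fin_cases j <;> simp [G.pt_apply, difcG_e]
  · funext j; fin_cases j <;> simp [G.pt_apply, difcG_e, hz]
  · simp [difcG_smul, Model.subst_a, Model.F, hs.a]
  · simp [difcG_smul, Model.subst_a2, Model.pol, Model.Fx, Model.Fy, hs.a, hs.a2]
  · simp [difcG_smul, Model.subst_b, Model.F, hs.a, hs.a2]
    linear_combination hF
  · simp [difcG_smul, Model.subst_b3, Model.pol, Model.Fx, Model.Fz, hs.a, hs.a2, hz]
    ring

/-- additivity when `Q₂` lies on the tangent at `Q₁` -/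
lemma difc_add2 (hW : W.Δ ≠ 0) (hz : z.Over W) {Q₁ Q₂ : Pt L} (h₁ : z.f.On Q₁)
    (h₂ : z.f.On Q₂) (hne : ¬Q₁.Eqv Q₂) (h12 : z.f.pol Q₁ Q₂ = 0) :
    D W z Q₁ Q₂ + D W z Q₂ Q₁ = 0 ∧ ∀ Q, z.f.On Q → z.f.pol Q₁ Q ≠ 0 → z.f.pol Q₂ Q ≠ 0 →
      D W z Q₂ Q ≠ D W z Q₁ Q₂ → D W z Q₂ Q ≠ -D W z Q₁ Q₂ →
      D W z Q₁ Q₂ + D W z Q₂ Q = D W z Q₁ Q := by
  obtain ⟨g, rfl, rfl, hs, hb, hb3⟩ := difc_exists_nf2 (hz.jac_Delta hW) h₁ h₂ hne h12
  have k1 : (g • z).f.On Pt.std := (Model.on_pt g z.f _).1 h₁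
  have k2 : (g • z).f.On ![0, 1, 0] := (Model.on_pt g z.f _).1 h₂
  have hz' := hz.smul g
  rw [← Obj.smul_f] at hs hb hb3
  refine ⟨?_, fun Q hQ h1 h2 hne hne' => ?_⟩
  · rw [← D_smul hW hz g k1 k2, ← D_smul hW hz g k2 k1, D_eq_vcPt hW hz' k1 k2,
      D_eq_vcPt hW hz' k2 k1, ← map_add, difc_nf2_anti (hz'.jac_Delta hW) hs hb hb3, map_zero]
  obtain ⟨Q, rfl⟩ : ∃ Q' : Pt L, g.pt Q' = Q := ⟨g⁻¹.pt Q, G.pt_inv_pt _ _⟩
  have k : (g • z).f.On Q := (Model.on_pt g z.f _).1 hQ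
  rw [G.pol_pt, ← Obj.smul_f, mul_ne_zero_iff] at h1 h2
  replace h1 := h1.2
  replace h2 := h2.2
  rw [← D_smul hW hz g k1 k2, ← D_smul hW hz g k2 k] at hne hne' ⊢
  rw [← D_smul hW hz g k1 k]
  generalize g • z = w at k1 k2 k hz' hne hne' hs hb hb3 h1 h2 ⊢
  have hx : Q 0 ≠ 0 := by
    intro h; apply h2; simp [Model.pol, Model.Fx, Model.Fy, Model.Fz, h, hb, hb3]
  have hzz : Q 2 ≠ 0 := by
    intro h; apply h1; simp [Model.pol, h, hs.a, hs.a2]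
  rw [D_eq_vcPt hW hz' k1 k2, D_eq_vcPt hW hz' k2 k] at hne hne' ⊢
  rw [D_eq_vcPt hW hz' k1 k, ← map_add]
  congr 1
  rw [difc_vec Q] at k hne hne' ⊢
  exact difc_nf2 (hz'.jac_Delta hW) hs hb hb3 hx hzz k (fun h => hne (by rw [h]))
    (fun h => hne' (by rw [h, map_neg]))

/-- finitely many exceptions, seen from the base point `Q₀` -/
lemma difc_avoid (hW : W.Δ ≠ 0) (hz : z.Over W) {Q₀ : Pt L} (h₀ : z.f.On Q₀)
    (P : W.toAffine.Point) : ∃ s : Finset (Pt L), (∀ A ∈ s, z.f.On A) ∧ ∀ Q, z.f.On Q →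
      (∀ A ∈ s, ¬A.Eqv Q) → z.f.pol Q₀ Q ≠ 0 ∧ D W z Q₀ Q ≠ P ∧ D W z Q₀ Q ≠ -P := by
  obtain ⟨A, hA, eA⟩ := D_surjective hW hz h₀ P
  obtain ⟨B, hB, eB⟩ := D_surjective hW hz h₀ (-P)
  obtain ⟨C, hC, eC⟩ := D_surjective hW hz h₀ (piP W z Q₀)
  refine ⟨{Q₀, A, B, C}, ?_, fun Q hQ hd => ⟨fun h => ?_, fun h => ?_, fun h => ?_⟩⟩
  · intro Q' hQ'
    simp only [Finset.mem_insert, Finset.mem_singleton] at hQ'
    rcases hQ' with rfl | rfl | rfl | rfl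
    exacts [h₀, hA, hB, hC]
  · exact hd C (by simp) (D_injective hW hz h₀ hC hQ
      (eC.trans (D_of_pol_eq_zero hW hz h₀ hQ (hd Q₀ (by simp)) h).symm))
  · exact hd A (by simp) (D_injective hW hz h₀ hA hQ (eA.trans h.symm))
  · exact hd B (by simp) (D_injective hW hz h₀ hB hQ (eB.trans h.symm))

lemma difc_pair (hW : W.Δ ≠ 0) (hz : z.Over W) {Q₁ Q₂ : Pt L} (h₁ : z.f.On Q₁)
    (h₂ : z.f.On Q₂) : ∃ s : Finset (Pt L), (∀ A ∈ s, z.f.On A) ∧ ∀ Q, z.f.On Q →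
      (∀ A ∈ s, ¬A.Eqv Q) → D W z Q₁ Q₂ + D W z Q₂ Q = D W z Q₁ Q := by
  by_cases e : Q₁.Eqv Q₂
  · refine ⟨∅, by simp, fun Q hQ _ => ?_⟩
    rw [(D_eq_zero_iff hW hz h₁ h₂).2 e, zero_add]
    exact (D_eqv hW hz h₁ hQ e (Pt.Eqv.refl Q)).symm
  obtain ⟨s₁, p₁, a₁⟩ := difc_avoid hW hz h₁ (D W z Q₂ Q₁)
  obtain ⟨s₂, p₂, a₂⟩ := difc_avoid hW hz h₂ (D W z Q₁ Q₂)
  refine ⟨s₁ ∪ s₂, fun A hA => (Finset.mem_union.1 hA).elim (p₁ A) (p₂ A), fun Q hQ hd => ?_⟩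
  obtain ⟨b1, b2, b3⟩ := a₁ Q hQ fun A hA => hd A (Finset.mem_union_left _ hA)
  obtain ⟨c1, c2, c3⟩ := a₂ Q hQ fun A hA => hd A (Finset.mem_union_right _ hA)
  by_cases h12 : z.f.pol Q₁ Q₂ = 0
  · exact (difc_add2 hW hz h₁ h₂ e h12).2 Q hQ b1 c1 c2 c3
  by_cases h21 : z.f.pol Q₂ Q₁ = 0
  · obtain ⟨k1, k2⟩ := difc_add2 hW hz h₂ h₁ (fun e' => e e'.symm) h21
    rw [← k2 Q hQ c1 b1 b2 b3, ← add_assoc, add_comm (D W z Q₁ Q₂), k1, zero_add]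
  exact difc_add1 hW hz h₁ h₂ hQ h12 h21 b1 c1 c2 c3

lemma difc_infinite [IsAlgClosed L] (hW : W.Δ ≠ 0) : Infinite W.toAffine.Point := by
  have h : ∀ x : L, ∃ P : W.toAffine.Point, ∃ y, toRaw P = some (x, y) := by
    intro x
    obtain ⟨y, hy⟩ := IsAlgClosed.exists_root
      (Polynomial.C 1 * Polynomial.X ^ 2 + Polynomial.C (W.a₁ * x + W.a₃) * Polynomial.X
        + Polynomial.C (-(x ^ 3 + W.a₂ * x ^ 2 + W.a₄ * x + W.a₆)) : Polynomial L)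
      (by rw [Polynomial.degree_quadratic one_ne_zero]; norm_num)
    have he : W.toAffine.Equation x y := by
      have := hy.eq_zero
      simp only [Polynomial.eval_add, Polynomial.eval_mul, Polynomial.eval_C, Polynomial.eval_pow,
        Polynomial.eval_X] at this
      rw [equation_iff_wF, wF]
      linear_combination this
    exact ⟨ofRaw W (some (x, y)), y, toRaw_ofRaw hW he⟩
  choose P y hP using h
  refine Infinite.of_injective P fun x x' e => ?_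
  have := (hP x).symm.trans ((congrArg toRaw e).trans (hP x'))
  simp only [Option.some.injEq, Prod.mk.injEq] at this
  exact this.1

lemma difc_closed [IsAlgClosed L] (hW : W.Δ ≠ 0) (hz : z.Over W) {Q₁ Q₂ Q₃ : Pt L}
    (h₁ : z.f.On Q₁) (h₂ : z.f.On Q₂) (h₃ : z.f.On Q₃) :
    D W z Q₁ Q₂ + D W z Q₂ Q₃ = D W z Q₁ Q₃ := by
  obtain ⟨s₁, p₁, a₁⟩ := difc_pair hW hz h₁ h₂
  obtain ⟨s₂, p₂, a₂⟩ := difc_pair hW hz h₂ h₃
  obtain ⟨s₃, p₃, a₃⟩ := difc_pair hW hz h₁ h₃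
  have := difc_infinite hW
  obtain ⟨P, hP⟩ := Infinite.exists_notMem_finset ((s₁ ∪ s₂ ∪ s₃).image (D W z Q₁))
  obtain ⟨Q, hQ, rfl⟩ := D_surjective hW hz h₁ P
  have hd : ∀ A ∈ s₁ ∪ s₂ ∪ s₃, z.f.On A → ¬A.Eqv Q := fun A hA ho e =>
    hP (Finset.mem_image.2 ⟨A, hA, D_eqv hW hz h₁ ho (Pt.Eqv.refl _) e⟩)
  have b₁ := a₁ Q hQ fun A h => hd A (by simp [h]) (p₁ A h)
  have b₂ := a₂ Q hQ fun A h => hd A (by simp [h]) (p₂ A h)
  have b₃ := a₃ Q hQ fun A h => hd A (by simp [h]) (p₃ A h)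
  apply add_right_cancel (b := D W z Q₃ Q)
  rw [add_assoc, b₂, b₁, b₃]

lemma pmap_D (φ : L →+* L') (hW : W.Δ ≠ 0) (hz : z.Over W) {Q Q' : Pt L} (hQ : z.f.On Q)
    (hQ' : z.f.On Q') : pmap φ (rfl : W.map φ = W.map φ) (D W z Q Q') =
      D (W.map φ) (z.map φ) (Q.map φ) (Q'.map φ) := by
  apply toRaw_injective
  rw [toRaw_pmap, toRaw_D_map φ hW hz hQ hQ']

theorem D_add (hW : W.Δ ≠ 0) (hz : z.Over W) {Q₁ Q₂ Q₃ : Pt L} (h₁ : z.f.On Q₁)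
    (h₂ : z.f.On Q₂) (h₃ : z.f.On Q₃) : D W z Q₁ Q₂ + D W z Q₂ Q₃ = D W z Q₁ Q₃ := by
  let φ : L →+* AlgebraicClosure L := algebraMap L (AlgebraicClosure L)
  have hW' : (W.map φ).Δ ≠ 0 := by
    rw [map_Δ]
    exact (map_ne_zero φ).2 hW
  apply pmap_injective φ (rfl : W.map φ = W.map φ)
  rw [map_add, pmap_D φ hW hz h₁ h₂, pmap_D φ hW hz h₂ h₃, pmap_D φ hW hz h₁ h₃]
  exact difc_closed hW' (hz.map φ) ((Model.on_map φ _ _).2 h₁) ((Model.on_map φ _ _).2 h₂)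
    ((Model.on_map φ _ _).2 h₃)

lemma D_symm (hW : W.Δ ≠ 0) (hz : z.Over W) {Q Q' : Pt L} (hQ : z.f.On Q) (hQ' : z.f.On Q') :
    D W z Q' Q = -D W z Q Q' := by
  have h := D_add hW hz hQ hQ' hQ
  rw [D_self hW hz hQ] at h
  exact eq_neg_of_add_eq_zero_right h

theorem three_smul_D (hW : W.Δ ≠ 0) (hz : z.Over W) {Q Q' : Pt L} (hQ : z.f.On Q)
    (hQ' : z.f.On Q') : 3 • D W z Q Q' = piP W z Q - piP W z Q' := by
  by_cases e : Q.Eqv Q'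
  · rw [(D_eq_zero_iff hW hz hQ hQ').2 e, piP_eqv hW hz hQ e, sub_self, smul_zero]
  obtain ⟨k1, k2⟩ := D_third hW hz hQ hQ' e
  obtain ⟨-, k3⟩ := D_third hW hz hQ' hQ (fun e' => e e'.symm)
  rw [Model.third_symm, ← D_eqv hW hz hQ' k1 (Pt.Eqv.refl _) (Pt.eqv_sc _ (by simp)),
    D_symm hW hz hQ hQ'] at k3
  rw [← k2, ← k3, ← D_add hW hz hQ hQ' k1]
  abel

/-- An automorphism `g` moves every point by the same 3-torsion point. -/
theorem aut_translation (hW : W.Δ ≠ 0) (hz : z.Over W) {g : G L} (hg : g • z = z) {Q Q' : Pt L}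
    (hQ : z.f.On Q) (hQ' : z.f.On Q') :
    D W z Q (g.pt Q) = D W z Q' (g.pt Q') ∧ 3 • D W z Q (g.pt Q) = 0 := by
  have hf : g • z.f = z.f := by rw [← Obj.smul_f, hg]
  have hgQ : z.f.On (g.pt Q) := (Model.on_pt g z.f Q).2 (by rw [hf]; exact hQ)
  have hgQ' : z.f.On (g.pt Q') := (Model.on_pt g z.f Q').2 (by rw [hf]; exact hQ')
  have h1 := D_smul hW hz g (Q := Q) (Q' := Q') (by rw [hg]; exact hQ) (by rw [hg]; exact hQ')
  have h2 := piP_smul hW hz g (Q := Q) (by rw [hg]; exact hQ)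
  rw [hg] at h1 h2
  refine ⟨?_, ?_⟩
  · have h3 := D_add hW hz hQ hgQ hgQ'
    have h4 := D_add hW hz hQ hQ' hgQ'
    rw [← h1, ← h4, add_comm] at h3
    exact add_left_cancel h3
  · rw [three_smul_D hW hz hQ hgQ, h2, sub_self]

end SelAvg.FF.T3
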