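import Pool.Agent.H5T.Sieg3

/-! The weight that dominates the cusp in rank three, and dominated convergence with a weight. -/

namespace SelAvg.FF

open WeierstrassCurve WithZero Filter Topology Matrix
open scoped Classical ENNReal

/-- dominated convergence with a weight, upper form -/
theorem tsum_eventually_le_wt {X : Type} {r w : X → ℝ} (hr : Summable r)
    (hw : Summable fun x => r x * w x) (hr0 : ∀ x, 0 ≤ r x) (u : ℕ → X → ℝ)
    {C L : ℝ} (hL : 0 ≤ L) (hC : ∀ᶠ m in atTop, ∀ x, 0 ≤ u m x ∧ u m x ≤ C * w x)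
    (h : ∀ x, ∀ᶠ m in atTop, u m x ≤ L) {ε : ℝ} (hε : 0 < ε) :
    ∀ᶠ m in atTop, ∑' x, r x * u m x ≤ L * ∑' x, r x + ε := by
  have hs : Summable fun x => C * (r x * w x) + r x * L := (hw.mul_left C).add (hr.mul_right L)
  have hb : ∀ᶠ m in atTop, ∀ x, r x * max (u m x) L ≤ C * (r x * w x) + r x * L :=
    hC.mono fun m hm x => by
      have h1 : max (u m x) L ≤ C * w x + L :=
        max_le ((hm x).2.trans (le_add_of_nonneg_right hL))
          (le_add_of_nonneg_left ((hm x).1.trans (hm x).2))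
      exact (mul_le_mul_of_nonneg_left h1 (hr0 x)).trans_eq (by ring)
  have h0 : ∀ m x, 0 ≤ r x * max (u m x) L := fun m x => mul_nonneg (hr0 x) (le_max_of_le_right hL)
  have ht := tendsto_tsum_of_dominated_convergence (𝓕 := atTop)
    (f := fun m x => r x * max (u m x) L) (g := fun x => r x * L) hs
    (fun x => tendsto_const_nhds.congr' ((h x).mono fun m hm => by simp only [max_eq_right hm]))
    (hb.mono fun m hm x => by rw [Real.norm_of_nonneg (h0 m x)]; exact hm x)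
  rw [tsum_mul_right, mul_comm] at ht
  filter_upwards [hC, hb, ht.eventually (ge_mem_nhds (lt_add_of_pos_right _ hε))] with m hm h1 h2
  have h3 : ∀ x, r x * u m x ≤ r x * max (u m x) L := fun x =>
    mul_le_mul_of_nonneg_left (le_max_left _ _) (hr0 x)
  have h4 : Summable fun x => r x * max (u m x) L := Summable.of_nonneg_of_le (h0 m) h1 hs
  exact (Summable.tsum_le_tsum h3
    (Summable.of_nonneg_of_le (fun x => mul_nonneg (hr0 x) (hm x).1) h3 h4) h4).trans h2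

lemma wt3_geom {s : ℝ≥0∞} (hs : s < 1) (K : Finset ℤ) :
    ∑' p : ℤ × ℕ × ℕ, (if p.1 ∈ K then 1 else 0 : ℝ≥0∞) * (s ^ p.2.1 * s ^ p.2.2) ≠ ⊤ := by
  have h1 : ∑' k : ℤ, (if k ∈ K then 1 else 0 : ℝ≥0∞) = K.card := by
    rw [tsum_eq_sum (s := K) fun k hk => if_neg hk, Finset.sum_congr rfl fun k hk => if_pos hk]
    simp
  have h2 : (1 - s)⁻¹ ≠ ⊤ := ENNReal.inv_ne_top.2 (tsub_pos_of_lt hs).ne'
  have h3 : ∑' p : ℕ × ℕ, s ^ p.1 * s ^ p.2 = (1 - s)⁻¹ * (1 - s)⁻¹ := by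
    rw [ENNReal.tsum_prod']
    simp_rw [ENNReal.tsum_mul_left]
    rw [ENNReal.tsum_mul_right, ENNReal.tsum_geometric]
  have h4 : ∀ k : ℤ, ∑' p : ℕ × ℕ, (if k ∈ K then 1 else 0 : ℝ≥0∞) * (s ^ p.1 * s ^ p.2) =
      (if k ∈ K then 1 else 0 : ℝ≥0∞) * ((1 - s)⁻¹ * (1 - s)⁻¹) := fun k => by
    rw [ENNReal.tsum_mul_left, h3]
  rw [ENNReal.tsum_prod', tsum_congr h4, ENNReal.tsum_mul_right, h1]
  exact ENNReal.mul_ne_top (ENNReal.natCast_ne_top _) (ENNReal.mul_ne_top h2 h2)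

lemma wt3_pow {q : ℝ} (hq : 1 < q) (i j : ℕ) :
    q ^ (-max (i : ℤ) j) ≤ √q⁻¹ ^ i * √q⁻¹ ^ j := by
  have h0 : 0 ≤ q⁻¹ := inv_nonneg.2 (zero_le_one.trans hq.le)
  have h1 : √q⁻¹ ≤ 1 := Real.sqrt_le_one.2 (inv_le_one_of_one_le₀ hq.le)
  rw [← Nat.cast_max, _root_.zpow_neg, zpow_natCast, ← inv_pow, ← pow_add]
  nth_rewrite 1 [← Real.sq_sqrt h0]
  rw [← pow_mul]
  exact pow_le_pow_of_le_one (Real.sqrt_nonneg _) h1 (by omega)

variable {F : Type} [Field F] [Cv F]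

variable (F) in
/-- the bound in the reduction theorem -/
noncomputable def rb3 : ℕ := (exists_reduced3 (F := F)).choose

lemma exists_st3 (x : X3 F) : ∃ d : ℤ × ℤ × ℤ, Strat3 d.1 d.2.1 d.2.2 x ∧
    -(rb3 F : ℤ) ≤ d.2.1 - d.1 ∧ -(rb3 F : ℤ) ≤ d.2.2 - d.2.1 := by
  obtain ⟨γ, B, C, Z, η₁, η₂, η₃, h, h1, h2⟩ := (exists_reduced3 (F := F)).choose_spec x
  rw [map_sub] at h1 h2
  exact ⟨(deg B, deg C, deg Z), ⟨γ, B, C, Z, η₁, η₂, η₃, h, rfl, rfl, rfl⟩, h1, h2⟩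

/-- the degrees of a chosen reduced flag -/
noncomputable def st3 (x : X3 F) : ℤ × ℤ × ℤ := (exists_st3 x).choose

variable (F) in
/-- the weight of a stratum -/
noncomputable def wd3 (d : ℤ × ℤ × ℤ) : ℝ :=
  qq F ^ (d.2.1 - d.1 + (d.2.2 - d.2.1) + min (d.2.1 - d.1) (d.2.2 - d.2.1) + 3 * rb3 F)

/-- the weight of a bundle -/
noncomputable def wt3 (x : X3 F) : ℝ := wd3 F (st3 x)

lemma one_le_wt3 (x : X3 F) : 1 ≤ wt3 x := by
  obtain ⟨-, h1, h2⟩ := (exists_st3 x).choose_spec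
  refine one_le_zpow₀ one_lt_qq.le ?_
  change -(rb3 F : ℤ) ≤ (st3 x).2.1 - (st3 x).1 at h1
  change -(rb3 F : ℤ) ≤ (st3 x).2.2 - (st3 x).2.1 at h2
  omega

lemma wt3_pos (x : X3 F) : 0 < wt3 x := zero_lt_one.trans_le (one_le_wt3 x)

/-- every bundle has a reduced form whose cusp factor is at most the weight -/
theorem exists_wt3 (x : X3 F) : ∃ (γ : GL (Fin 3) F) (B C Z : Div F) (η₁ η₂ η₃ : A F),
    act3 F γ x = RC.mk (K3 F) (tri3 B C Z η₁ η₂ η₃) ∧ -(rb3 F : ℤ) ≤ deg (C - B) ∧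
      -(rb3 F : ℤ) ≤ deg (Z - C) ∧
      qq F ^ (deg (C - B) + deg (Z - C) + min (deg (C - B)) (deg (Z - C))) ≤ wt3 x := by
  obtain ⟨⟨γ, B, C, Z, η₁, η₂, η₃, h, e1, e2, e3⟩, h1, h2⟩ := (exists_st3 x).choose_spec
  refine ⟨γ, B, C, Z, η₁, η₂, η₃, h, ?_, ?_, ?_⟩
  · rw [map_sub, e1, e2]; exact h1
  · rw [map_sub, e2, e3]; exact h2
  · rw [map_sub, map_sub, e1, e2, e3]
    exact zpow_le_zpow_right₀ one_lt_qq.le (le_add_of_nonneg_right (by positivity))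

lemma Strat3.deg_sum {a b c : ℤ} {x : X3 F} (h : Strat3 a b c x) : deg3 x = a + b + c := by
  obtain ⟨γ, B, C, Z, η₁, η₂, η₃, h, rfl, rfl, rfl⟩ := h
  rw [← deg3_act γ, h, deg3_tri3]

/-- the weight is summable over finitely many degrees -/
theorem tsum_wt3_ne_top {ρ : X3 F → ℝ≥0∞} (hρ : IsBru (act3 F) ρ) (K : Finset ℤ) :
    ∑' x, ρ x * (if deg3 x ∈ K then ENNReal.ofReal (wt3 x) else 0) ≠ ⊤ := by
  have hq := one_lt_qq (F := F)
  have hq0 : 0 < qq F := zero_lt_one.trans hq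
  obtain ⟨T, hT⟩ : ∃ T : Set (ℤ × ℤ × ℤ), ∀ d, d ∈ T ↔ d.1 + d.2.1 + d.2.2 ∈ K ∧
    -(rb3 F : ℤ) ≤ d.2.1 - d.1 ∧ -(rb3 F : ℤ) ≤ d.2.2 - d.2.1 := ⟨_, fun _ => Iff.rfl⟩
  have h1 := tsum_le_strat3 hρ (fun x => if deg3 x ∈ K then ENNReal.ofReal (wt3 x) else 0)
    (fun d => if d ∈ T then ENNReal.ofReal (wd3 F d) else 0) fun x hx => by
      have hk : deg3 x ∈ K := by
        by_contra hk
        exact hx (if_neg hk)
      obtain ⟨h0, h1, h2⟩ := (exists_st3 x).choose_spec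
      refine ⟨st3 x, h0, ?_⟩
      rw [if_pos hk, if_pos (show st3 x ∈ T from (hT _).2 ⟨h0.deg_sum ▸ hk, h1, h2⟩)]
      rfl
  refine ne_top_of_le_ne_top (ENNReal.mul_ne_top (ENNReal.pow_ne_top kap_ne_top) ?_) h1
  obtain ⟨s, hs⟩ : ∃ s, s = ENNReal.ofReal √(qq F)⁻¹ := ⟨_, rfl⟩
  have hs1 : s < 1 := by
    rw [hs, ENNReal.ofReal_lt_one, Real.sqrt_lt' one_pos, one_pow]
    exact inv_lt_one_of_one_lt₀ hq
  let φ : T → ℤ × ℕ × ℕ := fun d => (d.1.1 + d.1.2.1 + d.1.2.2,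
    (d.1.2.1 - d.1.1 + rb3 F).toNat, (d.1.2.2 - d.1.2.1 + rb3 F).toNat)
  have hφ : Function.Injective φ := by
    rintro ⟨⟨a, b, c⟩, h⟩ ⟨⟨a', b', c'⟩, h'⟩ e
    obtain ⟨-, h2, h3⟩ := (hT _).1 h
    obtain ⟨-, h2', h3'⟩ := (hT _).1 h'
    simp only [φ, Prod.mk.injEq] at e h2 h3 h2' h3'
    simp only [Subtype.mk.injEq, Prod.mk.injEq]
    omega
  have h2 := ENNReal.tsum_comp_le_tsum_of_injective hφ
    fun p => (if p.1 ∈ K then 1 else 0 : ℝ≥0∞) * (s ^ p.2.1 * s ^ p.2.2)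
  refine ne_top_of_le_ne_top (ENNReal.mul_ne_top
    (ENNReal.ofReal_ne_top (r := qq F ^ (4 * rb3 F - 3 * cc F))) (wt3_geom hs1 K)) ?_
  refine le_trans ?_ (mul_le_mul_right h2 _)
  rw [← ENNReal.tsum_mul_left, ← tsum_subtype_eq_of_support_subset (s := T) fun d hd => by
    by_contra h
    exact hd (by simp only [if_neg h, zero_mul])]
  refine ENNReal.tsum_le_tsum fun d => ?_
  obtain ⟨h3, h4, h5⟩ := (hT _).1 d.2
  have h6 := wt3_pow hq (φ d).2.1 (φ d).2.2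
  have h7 : wd3 F d.1 * qq F ^ (-(2 * (d.1.2.2 - d.1.1) + 3 * cc F)) =
      qq F ^ (4 * rb3 F - 3 * cc F) * qq F ^ (-max ((φ d).2.1 : ℤ) (φ d).2.2) := by
    rw [wd3, ← zpow_add₀ hq0.ne', ← zpow_add₀ hq0.ne']
    congr 1
    simp only [φ]
    omega
  have h8 : 0 ≤ √(qq F)⁻¹ := Real.sqrt_nonneg _
  rw [if_pos d.2, if_pos (show (φ d).1 ∈ K from h3), one_mul, hs, ← ENNReal.ofReal_pow h8,
    ← ENNReal.ofReal_pow h8, ← ENNReal.ofReal_mul (pow_nonneg h8 _),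
    ← ENNReal.ofReal_mul (zpow_pos hq0 _).le, ← ENNReal.ofReal_mul' (zpow_pos hq0 _).le, h7]
  exact ENNReal.ofReal_le_ofReal (mul_le_mul_of_nonneg_left h6 (zpow_pos hq0 _).le)

theorem tsum_par_wt3_ne_top {ρ : X3 F → ℝ≥0∞} (hρ : IsBru (act3 F) ρ) :
    ∑' x, ρ x * (if par3 x then ENNReal.ofReal (wt3 x) else 0) ≠ ⊤ := by
  convert tsum_wt3_ne_top hρ {0, (dl F : ℤ), 2 * (dl F : ℤ)} using 4 with x
  simp [par3]

/-- the real masses of the bundles of the three allowed degrees -/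
theorem sum3_mass {ρ : X3 F → ℝ≥0∞} (hρ : IsBru (act3 F) ρ) : ∃ r : X3 F → ℝ, Summable r ∧
    Summable (fun y => r y * wt3 y) ∧ (∀ y, 0 ≤ r y) ∧
    ∑' y, r y = 3 * kapR F * (qq F ^ (-8 * cc F) * (zt F * zt3 F)) ∧
    ∀ (u : X3 F → ℝ) (C Q : ℝ), (∀ y, 0 ≤ u y ∧ u y ≤ C * wt3 y) → 0 ≤ Q →
      ∑' y, ρ y * (if par3 y then ENNReal.ofReal (u y * Q) else 0) =
        ENNReal.ofReal ((∑' y, r y * u y) * Q) := by
  have hfin : ∀ y, (if par3 y then ρ y else 0) ≠ ⊤ := fun y => by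
    split_ifs
    · exact ne_top_of_le_ne_top ENNReal.one_ne_top (hρ.le_one y)
    · exact ENNReal.zero_ne_top
  have hs : Summable fun y => (if par3 y then ρ y else 0).toReal :=
    ENNReal.summable_toReal (by rw [siegel_par3 hρ]; exact ENNReal.ofReal_ne_top)
  have hw : Summable fun y => (if par3 y then ρ y else 0).toReal * wt3 y := by
    refine (ENNReal.summable_toReal (tsum_par_wt3_ne_top hρ)).congr fun y => ?_
    split_ifs
    · rw [ENNReal.toReal_mul, ENNReal.toReal_ofReal (wt3_pos y).le]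
    · simp
  refine ⟨fun y => (if par3 y then ρ y else 0).toReal, hs, hw, fun y => ENNReal.toReal_nonneg,
    ?_, ?_⟩
  · have h1 : 0 < qq F := zero_lt_one.trans one_lt_qq
    have h2 : 0 < kapR F := kapR_pos
    have h3 : 0 < zt F := zero_lt_one.trans_le one_le_zt
    have h4 : 0 < zt3 F := zero_lt_one.trans_le one_le_zt3
    rw [← ENNReal.tsum_toReal_eq hfin, siegel_par3 hρ, ENNReal.toReal_ofReal (by positivity)]
  · intro u C Q hu hQ
    have hs' : Summable fun y => (if par3 y then ρ y else 0).toReal * u y :=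
      (hw.mul_left C).of_nonneg_of_le (fun y => mul_nonneg ENNReal.toReal_nonneg (hu y).1)
        fun y => (mul_le_mul_of_nonneg_left (hu y).2 ENNReal.toReal_nonneg).trans_eq (by ring)
    rw [← tsum_mul_right, ENNReal.ofReal_tsum_of_nonneg
      (fun y => mul_nonneg (mul_nonneg ENNReal.toReal_nonneg (hu y).1) hQ) (hs'.mul_right Q)]
    refine tsum_congr fun y => ?_
    rw [mul_assoc, ENNReal.ofReal_mul ENNReal.toReal_nonneg, ENNReal.ofReal_toReal (hfin y)]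
    split_ifs <;> simp

end SelAvg.FF
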