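import Mathlib

/-!
# Two integer witnesses: the discriminant of the Jacobian of a ternary cubic, as a polynomial in the
coefficient of `xyz`, is separable of degree 9 in every characteristic.
-/

namespace H5T
open Polynomial

/-- the Weierstrass curve over `R[X]` with `a₁ = X`, constant `a₂, a₃, a₄` and cubic `a₆`. -/
noncomputable def wP {R : Type*} [CommRing R] (s2 s3 s4 t0 t1 t2 t3 : R) : WeierstrassCurve R[X] :=
  ⟨X, C s2, C s3, C s4, C t3 * X ^ 3 + C t2 * X ^ 2 + C t1 * X + C t0⟩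

/-- its discriminant, a polynomial of degree at most 9. -/
noncomputable def dP {R : Type*} [CommRing R] (s2 s3 s4 t0 t1 t2 t3 : R) : R[X] :=
  (wP s2 s3 s4 t0 t1 t2 t3).Δ

theorem sep_of_bezout {F : Type*} [Field F] (P U V : F[X]) (N : F) (hN : N ≠ 0)
    (h : U * P + V * derivative P = C N) : P.Separable := by
  refine ⟨C N⁻¹ * U, C N⁻¹ * V, ?_⟩
  rw [mul_assoc, mul_assoc, ← mul_add, h, ← C_mul, inv_mul_cancel₀ hN, C_1]

theorem dP_w1 {R : Type*} [CommRing R] :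
    dP (0 : R) 9 0 (-26) 0 0 1 = -14283 - 2727 * X ^ 3 - 82 * X ^ 6 - X ^ 9 := by
  simp only [dP, wP, WeierstrassCurve.Δ, WeierstrassCurve.b₂, WeierstrassCurve.b₄,
    WeierstrassCurve.b₆, WeierstrassCurve.b₈, map_zero, map_one, map_neg, map_ofNat]
  ring

theorem dP_w2 {R : Type*} [CommRing R] :
    dP (1 : R) 8 4 (-28) 4 1 1 = -79104 + 20224 * X - 5632 * X ^ 2 + 2816 * X ^ 3 - 1056 * X ^ 4
      - 352 * X ^ 5 - 128 * X ^ 6 - 16 * X ^ 7 - X ^ 8 - X ^ 9 := by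
  simp only [dP, wP, WeierstrassCurve.Δ, WeierstrassCurve.b₂, WeierstrassCurve.b₄,
    WeierstrassCurve.b₆, WeierstrassCurve.b₈, map_one, map_neg, map_ofNat]
  ring

theorem dP_w1_sep {F : Type*} [Field F] (h : (16875343232613 : F) ≠ 0) :
    (dP (0 : F) 9 0 (-26) 0 0 1).Separable := by
  refine sep_of_bezout _ (-1181498511 - 130011846 * X ^ 3 - 2632050 * X ^ 6)
    (620817215 * X + 22439394 * X ^ 4 + 292450 * X ^ 7) _ h ?_
  have hd : derivative (-14283 - 2727 * X ^ 3 - 82 * X ^ 6 - X ^ 9 : F[X])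
      = -8181 * X ^ 2 - 492 * X ^ 5 - 9 * X ^ 8 := by
    simp only [derivative_sub, derivative_neg, derivative_mul, derivative_X_pow, derivative_ofNat,
      map_natCast]
    push_cast
    ring
  rw [dP_w1, hd, map_ofNat]
  ring

theorem dP_w2_sep {F : Type*} [Field F] (h : (9937469750367771393261568 : F) ≠ 0) :
    (dP (1 : F) 8 4 (-28) 4 1 1).Separable := by
  refine sep_of_bezout _ (-123430323031808701344 - 25846488534387694960 * X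
      - 241636165804998176 * X ^ 2 - 411017733306467688 * X ^ 3 - 792496041367240562 * X ^ 4
      - 41672145015730495 * X ^ 5 + 10319752478459477 * X ^ 6 - 6901501022286948 * X ^ 7)
    (8585713867660991008 + 27116480665369281872 * X + 2044765872487692848 * X ^ 2
      + 227667067708117736 * X ^ 3 + 81306466821559314 * X ^ 4 + 113907558929141881 * X ^ 5
      + 7153616269147298 * X ^ 6 - 1061435447948745 * X ^ 7 + 766833446920772 * X ^ 8) _ h ?_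
  have hd : derivative (-79104 + 20224 * X - 5632 * X ^ 2 + 2816 * X ^ 3 - 1056 * X ^ 4
      - 352 * X ^ 5 - 128 * X ^ 6 - 16 * X ^ 7 - X ^ 8 - X ^ 9 : F[X])
      = 20224 - 11264 * X + 8448 * X ^ 2 - 4224 * X ^ 3 - 1760 * X ^ 4 - 768 * X ^ 5
        - 112 * X ^ 6 - 8 * X ^ 7 - 9 * X ^ 8 := by
    simp only [derivative_sub, derivative_add, derivative_neg, derivative_mul, derivative_X_pow,
      derivative_X, derivative_ofNat, map_natCast]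
    push_cast
    ring
  rw [dP_w2, hd, map_ofNat]
  ring

theorem wit_ne {F : Type*} [Field F] :
    (16875343232613 : F) ≠ 0 ∨ (9937469750367771393261568 : F) ≠ 0 := by
  by_contra hc
  rw [not_or, not_not, not_not] at hc
  have : (1 : F) = 0 := by
    linear_combination 429090268408215156999021 * hc.1 - 728660890454 * hc.2
  exact one_ne_zero this

theorem dP_eq {R : Type*} [CommRing R] (s2 s3 s4 t0 t1 t2 t3 : R) :
    dP s2 s3 s4 t0 t1 t2 t3 = C (-t3) * X ^ 9 + C (-t2) * X ^ 8 + C (-t1 - 12 * s2 * t3) * X ^ 7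
      + C (-(432 * t3 ^ 2) - t0 + 36 * s3 * t3 - 12 * s2 * t2) * X ^ 6
      + C (-(864 * t2 * t3) + 72 * s4 * t3 + 36 * s3 * t2 + s3 * s4 - 12 * s2 * t1
          - 48 * s2 ^ 2 * t3) * X ^ 5
      + C (-(432 * t2 ^ 2) - 864 * t1 * t3 + 72 * s4 * t2 + s4 ^ 2 + 36 * s3 * t1 - 12 * s2 * t0
          + 144 * s2 * s3 * t3 - s2 * s3 ^ 2 - 48 * s2 ^ 2 * t2) * X ^ 4
      + C (-(864 * t1 * t2) - 864 * t0 * t3 + 72 * s4 * t1 + 36 * s3 * t0 - 216 * s3 ^ 2 * t3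
          + s3 ^ 3 + 288 * s2 * s4 * t3 + 144 * s2 * s3 * t2 + 8 * s2 * s3 * s4 - 48 * s2 ^ 2 * t1
          - 64 * s2 ^ 3 * t3) * X ^ 3
      + C (-(432 * t1 ^ 2) - 864 * t0 * t2 + 72 * s4 * t0 - 216 * s3 ^ 2 * t2 - 30 * s3 ^ 2 * s4
          + 288 * s2 * s4 * t2 + 8 * s2 * s4 ^ 2 + 144 * s2 * s3 * t1 - 48 * s2 ^ 2 * t0
          - 8 * s2 ^ 2 * s3 ^ 2 - 64 * s2 ^ 3 * t2) * X ^ 2
      + C (-(864 * t0 * t1) - 96 * s3 * s4 ^ 2 - 216 * s3 ^ 2 * t1 + 288 * s2 * s4 * t1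
          + 144 * s2 * s3 * t0 + 36 * s2 * s3 ^ 3 + 16 * s2 ^ 2 * s3 * s4 - 64 * s2 ^ 3 * t1) * X
      + C (-(432 * t0 ^ 2) - 64 * s4 ^ 3 - 216 * s3 ^ 2 * t0 - 27 * s3 ^ 4 + 288 * s2 * s4 * t0
          + 72 * s2 * s3 ^ 2 * s4 + 16 * s2 ^ 2 * s4 ^ 2 - 64 * s2 ^ 3 * t0
          - 16 * s2 ^ 3 * s3 ^ 2) := by
  simp only [dP, wP, WeierstrassCurve.Δ, WeierstrassCurve.b₂, WeierstrassCurve.b₄,
    WeierstrassCurve.b₆, WeierstrassCurve.b₈, map_add, map_sub, map_mul, map_pow, map_neg,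
    map_ofNat]
  ring

theorem dP_natDegree_le {R : Type*} [CommRing R] (s2 s3 s4 t0 t1 t2 t3 : R) :
    (dP s2 s3 s4 t0 t1 t2 t3).natDegree ≤ 9 := by
  rw [dP_eq]
  compute_degree

theorem dP_coeff_nine {R : Type*} [CommRing R] (s2 s3 s4 t0 t1 t2 t3 : R) :
    (dP s2 s3 s4 t0 t1 t2 t3).coeff 9 = -t3 := by
  rw [dP_eq]
  simp only [coeff_add, coeff_C_mul, coeff_X_pow, coeff_X, coeff_C]
  simp

theorem dP_coeff_eight {R : Type*} [CommRing R] (s2 s3 s4 t0 t1 t2 t3 : R) :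
    (dP s2 s3 s4 t0 t1 t2 t3).coeff 8 = -t2 := by
  rw [dP_eq]
  simp only [coeff_add, coeff_C_mul, coeff_X_pow, coeff_X, coeff_C]
  simp

theorem dP_natDegree {R : Type*} [CommRing R] (s2 s3 s4 t0 t1 t2 t3 : R) (h : t3 ≠ 0) :
    (dP s2 s3 s4 t0 t1 t2 t3).natDegree = 9 :=
  natDegree_eq_of_le_of_coeff_ne_zero (dP_natDegree_le ..)
    (by rw [dP_coeff_nine]; exact neg_ne_zero.mpr h)

theorem dP_eval {R : Type*} [CommRing R] (s2 s3 s4 t0 t1 t2 t3 m : R) :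
    (dP s2 s3 s4 t0 t1 t2 t3).eval m
      = (⟨m, s2, s3, s4, t3 * m ^ 3 + t2 * m ^ 2 + t1 * m + t0⟩ : WeierstrassCurve R).Δ := by
  have h := (wP s2 s3 s4 t0 t1 t2 t3).map_Δ (evalRingHom m)
  rw [coe_evalRingHom] at h
  rw [dP, ← h]
  congr 1
  ext <;> simp [wP]

theorem dP_map {R S : Type*} [CommRing R] [CommRing S] (φ : R →+* S) (s2 s3 s4 t0 t1 t2 t3 : R) :
    (dP s2 s3 s4 t0 t1 t2 t3).map φ
      = dP (φ s2) (φ s3) (φ s4) (φ t0) (φ t1) (φ t2) (φ t3) := by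
  have h := (wP s2 s3 s4 t0 t1 t2 t3).map_Δ (mapRingHom φ)
  rw [coe_mapRingHom] at h
  rw [dP, ← h, dP]
  congr 1
  ext : 1 <;> simp [wP]

/-- a₂ of the Jacobian (order a,b,c,a2,a3,b1,b3,c1,c2,m). -/
def jS2 {R : Type*} [CommRing R] (x : Fin 10 → R) : R :=
  -(x 5 * x 7) - x 4 * x 6 - x 3 * x 8

/-- a₃ of the Jacobian (order a,b,c,a2,a3,b1,b3,c1,c2,m). -/
def jS3 {R : Type*} [CommRing R] (x : Fin 10 → R) : R :=
  -(x 4 * x 5 * x 8) - x 3 * x 6 * x 7 - x 2 * x 3 * x 5 - x 1 * x 4 * x 7 - x 0 * x 6 * x 8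
    + 9 * x 0 * x 1 * x 2

/-- a₄ of the Jacobian (order a,b,c,a2,a3,b1,b3,c1,c2,m). -/
def jS4 {R : Type*} [CommRing R] (x : Fin 10 → R) : R :=
  x 4 * x 5 * x 6 * x 7 + x 3 * x 5 * x 7 * x 8 + x 3 * x 4 * x 6 * x 8 + x 2 * x 4 * x 5 ^ 2
    + x 2 * x 3 ^ 2 * x 6 + x 1 * x 4 ^ 2 * x 8 + x 1 * x 3 * x 7 ^ 2
    - 3 * x 1 * x 2 * x 3 * x 4 + x 0 * x 6 ^ 2 * x 7 + x 0 * x 5 * x 8 ^ 2
    - 3 * x 0 * x 2 * x 5 * x 6 - 3 * x 0 * x 1 * x 7 * x 8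

/-- coefficient of m^0 in a₆ of the Jacobian (order a,b,c,a2,a3,b1,b3,c1,c2,m). -/
def jT0 {R : Type*} [CommRing R] (x : Fin 10 → R) : R :=
  -(x 3 * x 4 * x 5 * x 6 * x 7 * x 8) - x 2 * x 4 ^ 2 * x 5 ^ 2 * x 6
    - x 2 * x 3 * x 4 * x 5 ^ 2 * x 8 - x 2 * x 3 ^ 2 * x 5 * x 6 * x 7
    - x 2 * x 3 ^ 2 * x 4 * x 6 ^ 2 - x 1 * x 4 ^ 2 * x 5 * x 7 * x 8
    - x 1 * x 3 * x 4 * x 6 * x 7 ^ 2 - x 1 * x 3 * x 4 ^ 2 * x 8 ^ 2
    - x 1 * x 3 ^ 2 * x 7 ^ 2 * x 8 - x 1 * x 2 * x 3 * x 4 * x 5 * x 7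
    + 2 * x 1 * x 2 * x 3 * x 4 ^ 2 * x 6 + 2 * x 1 * x 2 * x 3 ^ 2 * x 4 * x 8
    - x 1 * x 2 ^ 2 * x 3 ^ 3 - x 1 ^ 2 * x 2 * x 4 ^ 3 - x 0 * x 5 * x 6 ^ 2 * x 7 ^ 2
    - x 0 * x 5 ^ 2 * x 7 * x 8 ^ 2 - x 0 * x 4 * x 5 * x 6 * x 8 ^ 2
    - x 0 * x 3 * x 6 ^ 2 * x 7 * x 8 + 2 * x 0 * x 2 * x 5 ^ 2 * x 6 * x 7
    + 2 * x 0 * x 2 * x 4 * x 5 * x 6 ^ 2 - x 0 * x 2 * x 3 * x 5 * x 6 * x 8
    - x 0 * x 2 ^ 2 * x 5 ^ 3 + 2 * x 0 * x 1 * x 5 * x 7 ^ 2 * x 8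
    - x 0 * x 1 * x 4 * x 6 * x 7 * x 8 + 2 * x 0 * x 1 * x 3 * x 7 * x 8 ^ 2
    + 3 * x 0 * x 1 * x 2 * x 4 * x 5 * x 8 + 3 * x 0 * x 1 * x 2 * x 3 * x 6 * x 7
    + 9 * x 0 * x 1 * x 2 ^ 2 * x 3 * x 5 - x 0 * x 1 ^ 2 * x 7 ^ 3
    + 9 * x 0 * x 1 ^ 2 * x 2 * x 4 * x 7 - x 0 ^ 2 * x 2 * x 6 ^ 3 - x 0 ^ 2 * x 1 * x 8 ^ 3
    + 9 * x 0 ^ 2 * x 1 * x 2 * x 6 * x 8 - 27 * x 0 ^ 2 * x 1 ^ 2 * x 2 ^ 2

/-- coefficient of m^1 in a₆ of the Jacobian (order a,b,c,a2,a3,b1,b3,c1,c2,m). -/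
def jT1 {R : Type*} [CommRing R] (x : Fin 10 → R) : R :=
  x 2 * x 3 * x 4 * x 5 * x 6 + x 1 * x 3 * x 4 * x 7 * x 8 + x 1 * x 2 * x 4 ^ 2 * x 5
    + x 1 * x 2 * x 3 ^ 2 * x 7 + x 0 * x 5 * x 6 * x 7 * x 8 + x 0 * x 2 * x 5 ^ 2 * x 8
    + x 0 * x 2 * x 3 * x 6 ^ 2 + x 0 * x 1 * x 6 * x 7 ^ 2 + x 0 * x 1 * x 4 * x 8 ^ 2
    - 3 * x 0 * x 1 * x 2 * x 5 * x 7 - 3 * x 0 * x 1 * x 2 * x 4 * x 6
    - 3 * x 0 * x 1 * x 2 * x 3 * x 8

/-- coefficient of m^2 in a₆ of the Jacobian (order a,b,c,a2,a3,b1,b3,c1,c2,m). -/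
def jT2 {R : Type*} [CommRing R] (x : Fin 10 → R) : R :=
  -(x 1 * x 2 * x 3 * x 4) - x 0 * x 2 * x 5 * x 6 - x 0 * x 1 * x 7 * x 8

/-- coefficient of m^3 in a₆ of the Jacobian (order a,b,c,a2,a3,b1,b3,c1,c2,m). -/
def jT3 {R : Type*} [CommRing R] (x : Fin 10 → R) : R :=
  x 0 * x 1 * x 2

/-- the Jacobian of Artin, Rodriguez-Villegas and Tate, in vector coordinates. -/
def jW {R : Type*} [CommRing R] (x : Fin 10 → R) : WeierstrassCurve R :=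
  ⟨x 9, jS2 x, jS3 x, jS4 x, jT3 x * x 9 ^ 3 + jT2 x * x 9 ^ 2 + jT1 x * x 9 + jT0 x⟩

/-- the discriminant of the Jacobian as a polynomial in the last coordinate. -/
noncomputable def PD {R : Type*} [CommRing R] (x : Fin 10 → R) : R[X] :=
  dP (jS2 x) (jS3 x) (jS4 x) (jT0 x) (jT1 x) (jT2 x) (jT3 x)

theorem PD_eval {R : Type*} [CommRing R] (x : Fin 10 → R) : (PD x).eval (x 9) = (jW x).Δ :=
  dP_eval ..

theorem PD_congr {R : Type*} [CommRing R] {x y : Fin 10 → R} (h : ∀ i, i ≠ 9 → x i = y i) :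
    PD x = PD y := by
  simp only [PD, jS2, jS3, jS4, jT0, jT1, jT2, jT3, h 0 (by decide), h 1 (by decide),
    h 2 (by decide), h 3 (by decide), h 4 (by decide), h 5 (by decide), h 6 (by decide),
    h 7 (by decide), h 8 (by decide)]

theorem PD_update {R : Type*} [CommRing R] (x : Fin 10 → R) (m : R) :
    PD (Function.update x 9 m) = PD x :=
  PD_congr fun _ hi => Function.update_of_ne hi _ _

theorem PD_eval_update {R : Type*} [CommRing R] (x : Fin 10 → R) (m : R) :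
    (PD x).eval m = (jW (Function.update x 9 m)).Δ := by
  rw [← PD_eval, PD_update, Function.update_self]

theorem PD_map {R S : Type*} [CommRing R] [CommRing S] (φ : R →+* S) (x : Fin 10 → R) :
    (PD x).map φ = PD (fun i => φ (x i)) := by
  rw [PD, dP_map]
  simp only [PD, jS2, jS3, jS4, jT0, jT1, jT2, jT3, map_add, map_sub, map_mul, map_pow, map_neg,
    map_ofNat]

theorem jW_map {R S : Type*} [CommRing R] [CommRing S] (φ : R →+* S) (x : Fin 10 → R) :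
    (jW x).map φ = jW (fun i => φ (x i)) := by
  ext <;> simp only [jW, WeierstrassCurve.map, jS2, jS3, jS4, jT0, jT1, jT2, jT3, map_add, map_sub,
    map_mul, map_pow, map_neg, map_ofNat]

theorem PD_natDegree_le {R : Type*} [CommRing R] (x : Fin 10 → R) : (PD x).natDegree ≤ 9 :=
  dP_natDegree_le ..

theorem PD_coeff_nine {R : Type*} [CommRing R] (x : Fin 10 → R) :
    (PD x).coeff 9 = -(x 0 * x 1 * x 2) := dP_coeff_nine ..

theorem PD_coeff_eight {R : Type*} [CommRing R] (x : Fin 10 → R) :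
    (PD x).coeff 8 = x 1 * x 2 * x 3 * x 4 + x 0 * x 2 * x 5 * x 6 + x 0 * x 1 * x 7 * x 8 := by
  rw [PD, dP_coeff_eight, jT2]
  ring

/-- over a domain, if the two top coefficients vanish then two distinct coordinates vanish. -/
theorem two_zero {R : Type*} [CommRing R] [IsDomain R] (x : Fin 10 → R)
    (h9 : (PD x).coeff 9 = 0) (h8 : (PD x).coeff 8 = 0) :
    ∃ i j : Fin 10, i < j ∧ x i = 0 ∧ x j = 0 := by
  rw [PD_coeff_nine, neg_eq_zero, mul_eq_zero, mul_eq_zero] at h9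
  rw [PD_coeff_eight] at h8
  rcases h9 with (h | h) | h
  · rw [h] at h8
    simp only [zero_mul, add_zero, mul_eq_zero] at h8
    rcases h8 with ((h' | h') | h') | h'
    exacts [⟨0, 1, by decide, h, h'⟩, ⟨0, 2, by decide, h, h'⟩, ⟨0, 3, by decide, h, h'⟩,
      ⟨0, 4, by decide, h, h'⟩]
  · rw [h] at h8
    simp only [zero_mul, mul_zero, add_zero, zero_add, mul_eq_zero] at h8
    rcases h8 with ((h' | h') | h') | h'
    exacts [⟨0, 1, by decide, h', h⟩, ⟨1, 2, by decide, h, h'⟩, ⟨1, 5, by decide, h, h'⟩,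
      ⟨1, 6, by decide, h, h'⟩]
  · rw [h] at h8
    simp only [zero_mul, mul_zero, add_zero, zero_add, mul_eq_zero] at h8
    rcases h8 with ((h' | h') | h') | h'
    exacts [⟨0, 2, by decide, h', h⟩, ⟨1, 2, by decide, h', h⟩, ⟨2, 7, by decide, h, h'⟩,
      ⟨2, 8, by decide, h, h'⟩]

/-- first witness `x³ + y³ + z³ - x²y`. -/
def wit1 : Fin 10 → ℤ := ![1, 1, 1, -1, 0, 0, 0, 0, 0, 0]

/-- second witness. -/
def wit2 : Fin 10 → ℤ := ![1, 1, 1, -1, 1, 1, 1, -1, 1, 0]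

theorem PD_wit1 {R : Type*} [CommRing R] :
    PD (fun i => ((wit1 i : ℤ) : R)) = dP (0 : R) 9 0 (-26) 0 0 1 := by
  have h := PD_map (Int.castRingHom R) wit1
  simp only [eq_intCast] at h
  have h2 : PD wit1 = dP (0 : ℤ) 9 0 (-26) 0 0 1 := by
    rw [PD]
    congr 1
  rw [← h, h2, dP_map]
  simp

theorem PD_wit2 {R : Type*} [CommRing R] :
    PD (fun i => ((wit2 i : ℤ) : R)) = dP (1 : R) 8 4 (-28) 4 1 1 := by
  have h := PD_map (Int.castRingHom R) wit2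
  simp only [eq_intCast] at h
  have h2 : PD wit2 = dP (1 : ℤ) 8 4 (-28) 4 1 1 := by
    rw [PD]
    congr 1
  rw [← h, h2, dP_map]
  simp

/-- (W): in every field one of two integer witnesses has a separable discriminant of degree 9. -/
theorem exists_witness (F : Type*) [Field F] :
    ∃ w : Fin 10 → ℤ, w 0 = 1 ∧ w 1 = 1 ∧ w 2 = 1 ∧
      (PD (fun i => (w i : F))).Separable ∧ (PD (fun i => (w i : F))).natDegree = 9 := by
  rcases wit_ne (F := F) with h | h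
  · refine ⟨wit1, rfl, rfl, rfl, ?_, ?_⟩
    · rw [PD_wit1]; exact dP_w1_sep h
    · rw [PD_wit1]; exact dP_natDegree _ _ _ _ _ _ _ one_ne_zero
  · refine ⟨wit2, rfl, rfl, rfl, ?_, ?_⟩
    · rw [PD_wit2]; exact dP_w2_sep h
    · rw [PD_wit2]; exact dP_natDegree _ _ _ _ _ _ _ one_ne_zero

theorem exists_witness' (F : Type*) [Field F] :
    ∃ x : Fin 10 → F, (PD x).Separable ∧ (PD x).natDegree = 9 := by
  obtain ⟨w, -, -, -, h1, h2⟩ := exists_witness F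
  exact ⟨_, h1, h2⟩

end H5T
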