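import Pool.Agent.H81Sel.Tail

/-! Block TAIL3: Weierstrass equations with an affine rational flex (a point of order three). -/

namespace SelAvg.FF

open WeierstrassCurve
open scoped Classical

section Ring

variable {R S : Type} [CommRing R] [CommRing S]

/-- the curve has an affine point whose tangent meets the curve three times -/
def Flex3 (W : WeierstrassCurve R) : Prop :=
  ∃ r s t : R, (wsh r s t • W).a₂ = 0 ∧ (wsh r s t • W).a₄ = 0 ∧ (wsh r s t • W).a₆ = 0

lemma flex3_iff {W : WeierstrassCurve R} : Flex3 W ↔ ∃ r s t : R,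
    W.a₂ - s * W.a₁ + 3 * r - s ^ 2 = 0 ∧
    W.a₄ - s * W.a₃ + 2 * r * W.a₂ - (t + r * s) * W.a₁ + 3 * r ^ 2 - 2 * s * t = 0 ∧
    W.a₆ + r * W.a₄ + r ^ 2 * W.a₂ + r ^ 3 - t * W.a₃ - t ^ 2 - r * t * W.a₁ = 0 := by
  simp only [Flex3, wsh, variableChange_a₂, variableChange_a₄, variableChange_a₆, inv_one,
    Units.val_one, one_pow, one_mul]

lemma Flex3.map {W : WeierstrassCurve R} (h : Flex3 W) (φ : R →+* S) : Flex3 (W.map φ) := by
  obtain ⟨r, s, t, h1, h2, h3⟩ := flex3_iff.1 h
  refine flex3_iff.2 ⟨φ r, φ s, φ t, ?_, ?_, ?_⟩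
  · simpa [map_ofNat] using congrArg φ h1
  · simpa [map_ofNat] using congrArg φ h2
  · simpa [map_ofNat] using congrArg φ h3

lemma flex3_smul_of (C : VariableChange R) (W : WeierstrassCurve R) (h : Flex3 W) :
    Flex3 (C • W) := by
  obtain ⟨r, s, t, h2, h4, h6⟩ := h
  have h1 : (wsh r s t * C⁻¹) • (C • W) = wsh r s t • W := by rw [mul_smul, inv_smul_smul]
  refine ⟨(wsh r s t * C⁻¹).r, (wsh r s t * C⁻¹).s, (wsh r s t * C⁻¹).t, ?_⟩
  rw [vcint_wsh_smul h1, ← wsc_unit]
  simp only [wsc, h2, h4, h6, mul_zero, and_self]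

lemma flex3_smul (C : VariableChange R) (W : WeierstrassCurve R) : Flex3 (C • W) ↔ Flex3 W := by
  refine ⟨fun h => ?_, flex3_smul_of C W⟩
  have := flex3_smul_of C⁻¹ _ h
  rwa [inv_smul_smul] at this

end Ring

/-- a point of order three -/
theorem flex3_of_point {K : Type} [Field K] {W : WeierstrassCurve K} {P : W.toAffine.Point}
    (h0 : P ≠ 0) (h3 : 3 • P = 0) : Flex3 W := by
  rcases P with _ | ⟨x, y, hP⟩
  · exact absurd rfl h0
  have h2 : Affine.Point.some x y hP + Affine.Point.some x y hP = -Affine.Point.some x y hP := by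
    rw [eq_neg_iff_add_eq_zero, ← h3]
    abel
  have hy : y ≠ W.toAffine.negY x y := by
    intro hy
    rw [Affine.Point.add_self_of_Y_eq hy] at h2
    exact h0 (neg_eq_zero.1 h2.symm)
  rw [Affine.Point.add_self_of_Y_ne hy, Affine.Point.neg_some, Affine.Point.some.injEq] at h2
  have hx := h2.1
  have he := (Affine.equation_iff _ _).1 hP.1
  have hs := Affine.slope_of_Y_ne (W := W.toAffine) (rfl : x = x) hy
  rw [eq_div_iff (sub_ne_zero.2 hy)] at hs
  generalize W.toAffine.slope x x y y = s at hx hs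
  simp only [Affine.addX, Affine.negY] at hx hs he
  refine flex3_iff.2 ⟨x, s, y, ?_, ?_, ?_⟩
  · linear_combination -hx
  · linear_combination -hs
  · linear_combination -he

/-- the coordinates of a flex are integral -/
theorem flex3_int {R K : Type} [CommRing R] [IsDomain R] [Field K] [Algebra R K]
    [IsFractionRing R K] [IsIntegrallyClosed R] {W : WeierstrassCurve R}
    (hu : IsUnit (3 : R) ∨ ((3 : R) = 0 ∧ IsUnit W.b₂)) (h : Flex3 (W.map (algebraMap R K))) :
    Flex3 W := by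
  obtain ⟨r, s, t, h2, h4, h6⟩ := flex3_iff.1 h
  simp only [map_a₁, map_a₂, map_a₃, map_a₄, map_a₆] at h2 h4 h6
  have hb : 3 * r ^ 4 + algebraMap R K W.b₂ * r ^ 3 + 3 * algebraMap R K W.b₄ * r ^ 2 +
      3 * algebraMap R K W.b₆ * r + algebraMap R K W.b₈ = 0 := by
    simp only [b₂, b₄, b₆, b₈, map_add, map_sub, map_mul, map_pow, map_ofNat]
    generalize algebraMap R K W.a₁ = a₁ at *
    generalize algebraMap R K W.a₂ = a₂ at *
    generalize algebraMap R K W.a₃ = a₃ at *
    generalize algebraMap R K W.a₄ = a₄ at *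
    generalize algebraMap R K W.a₆ = a₆ at *
    linear_combination ((a₁ + 2 * s) ^ 2 + 4 * (a₂ - s * a₁ + 3 * r - s ^ 2)) * h6 +
      (a₃ + r * a₁ + 2 * t) ^ 2 * h2 - ((a₁ + 2 * s) * (a₃ + r * a₁ + 2 * t) +
        (a₄ - s * a₃ + 2 * r * a₂ - (t + r * s) * a₁ + 3 * r ^ 2 - 2 * s * t)) * h4
  obtain ⟨r₀, rfl⟩ : ∃ r₀, algebraMap R K r₀ = r := by
    rcases hu with hu | ⟨h3, hu⟩
    · obtain ⟨u, hu⟩ := hu.exists_left_inv
      have hu' : algebraMap R K u * 3 = 1 := by
        rw [← map_ofNat (algebraMap R K) 3, ← map_mul, hu, map_one]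
      refine IsIntegrallyClosed.isIntegral_iff.1 ⟨Polynomial.X ^ 4 +
        (Polynomial.C (u * W.b₂) * Polynomial.X ^ 3 + Polynomial.C W.b₄ * Polynomial.X ^ 2 +
        Polynomial.C W.b₆ * Polynomial.X + Polynomial.C (u * W.b₈)), ?_, ?_⟩
      · monicity!
      · simp only [Polynomial.eval₂_add, Polynomial.eval₂_mul, Polynomial.eval₂_pow,
          Polynomial.eval₂_X, Polynomial.eval₂_C, map_mul]
        linear_combination algebraMap R K u * hb - (r ^ 4 + algebraMap R K W.b₄ * r ^ 2 +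
          algebraMap R K W.b₆ * r) * hu'
    · obtain ⟨u, hu⟩ := hu.exists_left_inv
      have hu' : algebraMap R K u * algebraMap R K W.b₂ = 1 := by rw [← map_mul, hu, map_one]
      have h3' : (3 : K) = 0 := by rw [← map_ofNat (algebraMap R K) 3, h3, map_zero]
      refine IsIntegrallyClosed.isIntegral_iff.1 ⟨Polynomial.X ^ 3 + Polynomial.C (u * W.b₈),
        Polynomial.monic_X_pow_add_C _ (by norm_num), ?_⟩
      simp only [Polynomial.eval₂_add, Polynomial.eval₂_pow, Polynomial.eval₂_X,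
        Polynomial.eval₂_C]
      rw [map_mul]
      linear_combination algebraMap R K u * hb - r ^ 3 * hu' - algebraMap R K u *
        (r ^ 4 + algebraMap R K W.b₄ * r ^ 2 + algebraMap R K W.b₆ * r) * h3'
  obtain ⟨s₀, rfl⟩ : ∃ s₀, algebraMap R K s₀ = s := by
    refine IsIntegrallyClosed.isIntegral_iff.1 ⟨Polynomial.X ^ 2 +
      (Polynomial.C W.a₁ * Polynomial.X + Polynomial.C (-(W.a₂ + 3 * r₀))), ?_, ?_⟩
    · monicity!
    · simp only [Polynomial.eval₂_add, Polynomial.eval₂_mul, Polynomial.eval₂_pow,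
        Polynomial.eval₂_X, Polynomial.eval₂_C]
      simp only [map_mul, map_add, map_neg, map_ofNat]
      linear_combination -h2
  obtain ⟨t₀, rfl⟩ : ∃ t₀, algebraMap R K t₀ = t := by
    refine IsIntegrallyClosed.isIntegral_iff.1 ⟨Polynomial.X ^ 2 +
      (Polynomial.C (W.a₃ + r₀ * W.a₁) * Polynomial.X +
        Polynomial.C (-(W.a₆ + r₀ * W.a₄ + r₀ ^ 2 * W.a₂ + r₀ ^ 3))), ?_, ?_⟩
    · monicity!
    · simp only [Polynomial.eval₂_add, Polynomial.eval₂_mul, Polynomial.eval₂_pow,
        Polynomial.eval₂_X, Polynomial.eval₂_C]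
      simp only [map_mul, map_add, map_neg, map_pow]
      linear_combination -h6
  refine flex3_iff.2 ⟨r₀, s₀, t₀, ?_, ?_, ?_⟩ <;> apply IsFractionRing.injective R K
  · simpa only [map_add, map_sub, map_mul, map_pow, map_ofNat, map_zero] using h2
  · simpa only [map_add, map_sub, map_mul, map_pow, map_ofNat, map_zero] using h4
  · simpa only [map_add, map_sub, map_mul, map_pow, map_ofNat, map_zero] using h6

section Finite

variable {κ : Type} [Field κ] [Fintype κ]

omit [Fintype κ] in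
/-- the curves with a marked flex -/
noncomputable def t3fl (p : κ × κ × κ × κ × κ) : WeierstrassCurve κ :=
  (wsh p.2.2.1 p.2.2.2.1 p.2.2.2.2)⁻¹ • ⟨p.1, 0, p.2.1, 0, 0⟩

omit [Fintype κ] in
lemma t3fl_neg (a b r s t : κ) : t3fl (-a, -b, r, s - a, t - b) = t3fl (a, b, r, s, t) := by
  have h1 : wsh r (s - a) (t - b) = wsh 0 (-a) (-b) * wsh r s t := by
    rw [wsh_mul]
    congr 1 <;> ring
  have h2 : (⟨-a, 0, -b, 0, 0⟩ : WeierstrassCurve κ) = wsh 0 (-a) (-b) • ⟨a, 0, b, 0, 0⟩ := by
    ext <;> simp [wsh, variableChange_def] <;> ring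
  simp only [t3fl]
  rw [h1, h2, mul_inv_rev, mul_smul, inv_smul_smul]

/-- a point of order three comes with its negative -/
theorem card_flex3_le : 2 * (Finset.univ.filter fun W : WeierstrassCurve κ => Flex3 W).card ≤
    Fintype.card κ ^ 5 + 2 * Fintype.card κ ^ 3 := by
  set S : Finset (κ × κ × κ × κ × κ) := Finset.univ.filter fun p => ¬(p.1 = 0 ∧ p.2.1 = 0) with hS
  have h1 : (Finset.univ.filter fun W : WeierstrassCurve κ => Flex3 W) ⊆ S.image t3fl ∪
      Finset.univ.image fun p : κ × κ × κ => t3fl (0, 0, p) := by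
    intro W hW
    obtain ⟨r, s, t, h2, h4, h6⟩ := (Finset.mem_filter.1 hW).2
    have e : t3fl ((wsh r s t • W).a₁, (wsh r s t • W).a₃, r, s, t) = W := by
      simp only [t3fl]
      rw [inv_smul_eq_iff]
      exact WeierstrassCurve.ext rfl h2.symm rfl h4.symm h6.symm
    by_cases h : (wsh r s t • W).a₁ = 0 ∧ (wsh r s t • W).a₃ = 0
    · rw [h.1, h.2] at e
      exact Finset.mem_union_right _ (Finset.mem_image.2 ⟨(r, s, t), Finset.mem_univ _, e⟩)
    · exact Finset.mem_union_left _ (Finset.mem_image.2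
        ⟨_, Finset.mem_filter.2 ⟨Finset.mem_univ _, h⟩, e⟩)
  have h2 : 2 * (S.image t3fl).card ≤ S.card := by
    refine Finset.mul_card_image_le_card S 2 fun W hW => ?_
    obtain ⟨⟨a, b, r, s, t⟩, hp, rfl⟩ := Finset.mem_image.1 hW
    have hp' : ¬(a = 0 ∧ b = 0) := (Finset.mem_filter.1 hp).2
    refine Finset.one_lt_card.2 ⟨_, Finset.mem_filter.2 ⟨hp, rfl⟩, (-a, -b, r, s - a, t - b),
      Finset.mem_filter.2 ⟨Finset.mem_filter.2 ⟨Finset.mem_univ _, ?_⟩, t3fl_neg a b r s t⟩, ?_⟩
    · simpa using hp'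
    · intro e
      simp only [Prod.mk.injEq] at e
      exact hp' ⟨by linear_combination e.2.2.2.1, by linear_combination e.2.2.2.2⟩
  have h3 : S.card ≤ Fintype.card κ ^ 5 := by
    refine (Finset.card_le_univ _).trans (le_of_eq ?_)
    simp only [Fintype.card_prod]
    ring
  have h4 : (Finset.univ.image fun p : κ × κ × κ => t3fl (0, 0, p)).card ≤ Fintype.card κ ^ 3 := by
    refine Finset.card_image_le.trans (le_of_eq ?_)
    simp only [Finset.card_univ, Fintype.card_prod]
    ring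
  have h5 := (Finset.card_le_card h1).trans (Finset.card_union_le _ _)
  omega

lemma t3_card_W : Fintype.card (WeierstrassCurve κ) = Fintype.card κ ^ 5 := by
  rw [Fintype.card_congr wEquivVec, Fintype.card_fun, Fintype.card_fin]

theorem card_not_flex3 : Fintype.card κ ^ 5 ≤
    4 * (Finset.univ.filter fun W : WeierstrassCurve κ => ¬Flex3 W).card := by
  have h1 := card_flex3_le (κ := κ)
  have h2 := Finset.card_filter_add_card_filter_not (s := Finset.univ)
    fun W : WeierstrassCurve κ => Flex3 W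
  rw [Finset.card_univ, t3_card_W] at h2
  have h3 : 4 * Fintype.card κ ^ 3 ≤ Fintype.card κ ^ 5 := by
    have h4 : 2 ^ 2 ≤ Fintype.card κ ^ 2 := Nat.pow_le_pow_left Fintype.one_lt_card 2
    calc 4 * Fintype.card κ ^ 3 ≤ Fintype.card κ ^ 2 * Fintype.card κ ^ 3 :=
        Nat.mul_le_mul_right _ h4
      _ = _ := by ring
  omega

end Finite

/-- double counting for a group action -/
theorem t3_orbit_count {G X : Type} [Group G] [Fintype G] [MulAction G X] (S T : Finset X)
    (hT : ∀ g : G, ∀ x ∈ T, g • x ∈ S) (B : Finset G)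
    (hB : ∀ x ∈ T, ∀ g : G, g • x ∈ T → g ∈ B) : Fintype.card G * T.card ≤ B.card * S.card := by
  rw [← Finset.card_univ, ← Finset.card_product]
  refine Finset.card_le_mul_card_image_of_maps_to (f := fun p : G × X => p.1 • p.2)
    (fun p hp => hT _ _ (Finset.mem_product.1 hp).2) _ fun y _ => ?_
  rcases (Finset.filter (fun p : G × X => p.1 • p.2 = y) (Finset.univ ×ˢ T)).eq_empty_or_nonempty
    with h | ⟨p₀, hp₀⟩
  · rw [h]; exact Nat.zero_le _
  obtain ⟨h1, h2⟩ := Finset.mem_filter.1 hp₀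
  refine Finset.card_le_card_of_injOn (fun p => p.1⁻¹ * p₀.1) (fun p hp => ?_) fun p hp p' hp' e => ?_
  · obtain ⟨h3, h4⟩ := Finset.mem_filter.1 hp
    refine hB p₀.2 (Finset.mem_product.1 h1).2 _ ?_
    rw [mul_smul, h2, ← h4, inv_smul_smul]
    exact (Finset.mem_product.1 h3).2
  · have e1 : p.1 = p'.1 := inv_injective (mul_right_cancel e)
    have e2 := (Finset.mem_filter.1 hp).2.trans (Finset.mem_filter.1 hp').2.symm
    rw [← e1] at e2
    exact Prod.ext e1 (MulAction.injective _ e2)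

end SelAvg.FF
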