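import Pool.Agent.H5T.Mod
import Pool.Agent.H5T.Tail3B

/-! Block TAIL3: flags, Weierstrass cubics, the local density of cubics whose Jacobian has no
affine rational flex. -/

namespace SelAvg.FF.T3

open WeierstrassCurve Matrix
open scoped Classical

section Ring

variable {R S : Type} [CommRing R] [CommRing S]

/-- the coefficients of `s^3`, `s^2 t`, `s t^2` in `f (s p + t q)` vanish -/
def Fl (f : Model R) (p q : Pt R) : Prop := f.F p = 0 ∧ f.pol p q = 0 ∧ f.pol q p = 0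

lemma Fl.smul {f : Model R} {p q : Pt R} (h : Fl f p q) (s t : R) : Fl f (s • p) (t • q) := by
  simp only [Fl, Model.F_smul, Model.pol_smul, h.1, h.2.1, h.2.2, mul_zero, and_self]

lemma Fl.shift {f : Model R} {p q : Pt R} (h : Fl f p q) (l : R) :
    Fl f p (q + l • p) ∧ f.F (q + l • p) = f.F q := by
  obtain ⟨h0, h1, h2⟩ := h
  simp only [Fl, Model.F, Model.pol, Model.Fx, Model.Fy, Model.Fz, Pi.add_apply, Pi.smul_apply,
    smul_eq_mul] at h0 h1 h2 ⊢
  refine ⟨⟨h0, ?_, ?_⟩, ?_⟩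
  · linear_combination h1 + 3 * l * h0
  · linear_combination h2 + 2 * l * h1 + 3 * l ^ 2 * h0
  · linear_combination l * h2 + l ^ 2 * h1 + l ^ 3 * h0

lemma Fl.map {f : Model R} {p q : Pt R} (h : Fl f p q) (φ : R →+* S) :
    Fl (f.map φ) (p.map φ) (q.map φ) := by
  simp only [Fl, Model.map_F, Model.map_pol, h.1, h.2.1, h.2.2, map_zero, and_self]

lemma Fl.of_map {f : Model R} {p q : Pt R} {φ : R →+* S} (hφ : Function.Injective φ)
    (h : Fl (f.map φ) (p.map φ) (q.map φ)) : Fl f p q := by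
  simpa only [Fl, Model.map_F, Model.map_pol, map_eq_zero_iff φ hφ] using h

lemma t3_coeffs (g : G R) (f : Model R) : f.F (g.e 0) = g.μ * (g • f).a ∧
    f.F (g.e 1) = g.μ * (g • f).b ∧ f.pol (g.e 0) (g.e 1) = g.μ * (g • f).a2 ∧
    f.pol (g.e 1) (g.e 0) = g.μ * (g • f).b1 ∧ f.pol (g.e 0) (g.e 2) = g.μ * (g • f).a3 := by
  have h := g.scale_smul f
  exact ⟨(congrArg Model.a h).symm, (congrArg Model.b h).symm, (congrArg Model.a2 h).symm,
    (congrArg Model.b1 h).symm, (congrArg Model.a3 h).symm⟩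

/-- the Weierstrass cubic, with the flex at `(1 : 0 : 0)` -/
def wcub (W : WeierstrassCurve R) : Model R :=
  ⟨0, -1, -W.a₆, 0, 1, 0, -W.a₂, W.a₃, -W.a₄, W.a₁⟩

lemma jac_wcub (W : WeierstrassCurve R) : (wcub W).jac = W := by
  ext <;> simp only [Model.jac, wcub] <;> ring

lemma wcub_injective : Function.Injective (wcub : WeierstrassCurve R → Model R) :=
  Function.LeftInverse.injective jac_wcub

end Ring

section Field

variable {K : Type} [Field K]

lemma flex3_of_fl {W : WeierstrassCurve K} {p q : Pt K} (h : Fl (wcub W) p q) (hp : p 2 ≠ 0)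
    (hq : (wcub W).F q ≠ 0) : Flex3 W := by
  have h1 := h.smul (p 2)⁻¹ 1
  rw [one_smul] at h1
  obtain ⟨h2, h3⟩ := h1.shift (-q 2)
  rw [← h3] at hq
  have e1 : ((p 2)⁻¹ • p) 2 = 1 := inv_mul_cancel₀ hp
  have e2 : (q + -q 2 • (p 2)⁻¹ • p) 2 = 0 := by
    rw [Pi.add_apply, Pi.smul_apply, e1, smul_eq_mul, mul_one, add_neg_cancel]
  generalize q + -q 2 • (p 2)⁻¹ • p = q' at h2 hq e2
  generalize (p 2)⁻¹ • p = p' at h2 e1
  obtain ⟨a0, a1, a2⟩ := h2
  simp only [Model.F, Model.pol, Model.Fx, Model.Fy, Model.Fz, wcub, e1, e2] at a0 a1 a2 hq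
  have hα : q' 1 ≠ 0 := fun h0 => hq (by rw [h0]; ring)
  obtain ⟨s, hs⟩ : ∃ s, q' 0 = s * q' 1 := ⟨q' 0 / q' 1, (div_mul_cancel₀ _ hα).symm⟩
  rw [hs] at a1 a2
  refine flex3_iff.2 ⟨p' 1, s, p' 0, ?_, ?_, ?_⟩
  · refine mul_left_cancel₀ (pow_ne_zero 2 hα) ?_
    linear_combination -a2
  · refine mul_left_cancel₀ hα ?_
    linear_combination -a1
  · linear_combination -a0

/-- the elements that can map a Weierstrass cubic without affine flex to a Weierstrass cubic -/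
lemma t3_stab {W W' : WeierstrassCurve K} (hW : ¬Flex3 W) {g : G K} (h : g • wcub W = wcub W') :
    g.e 0 1 = 0 ∧ g.e 0 2 = 0 ∧ g.e 1 2 = 0 ∧ (g.μ : K) = g.e 1 1 ^ 3 ∧
      g.e 0 0 ^ 2 * g.e 2 2 = g.μ := by
  obtain ⟨c1, c2, c3, c4, c5⟩ := t3_coeffs g (wcub W)
  rw [h] at c1 c2 c3 c4 c5
  have hμ := g.μ.ne_zero
  have d1 : (wcub W).F (g.e 0) = 0 := c1.trans (mul_zero _)
  have d3 : (wcub W).pol (g.e 0) (g.e 1) = 0 := c3.trans (mul_zero _)
  have d2 : (wcub W).F (g.e 1) = g.μ * -1 := c2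
  have d5 : (wcub W).pol (g.e 0) (g.e 2) = g.μ * 1 := c5
  have z0 : g.e 0 2 = 0 := by
    by_contra hz
    exact hW (flex3_of_fl ⟨d1, d3, c4.trans (mul_zero _)⟩ hz
      (by rw [d2]; exact mul_ne_zero hμ (neg_ne_zero.2 one_ne_zero)))
  simp only [Model.F, Model.pol, Model.Fx, Model.Fy, Model.Fz, wcub, z0] at d1 d2 d3 d5
  have y0 : g.e 0 1 = 0 := pow_eq_zero_iff (three_ne_zero) |>.1 (by linear_combination -d1)
  rw [y0] at d3 d5
  have e5 : g.e 0 0 ^ 2 * g.e 2 2 = g.μ := by linear_combination d5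
  have z1 : g.e 1 2 = 0 := by
    refine mul_left_cancel₀ (left_ne_zero_of_mul (e5 ▸ hμ)) ?_
    linear_combination d3
  rw [z1] at d2
  exact ⟨y0, z0, z1, by linear_combination d2, e5⟩

/-- two independent vectors can be completed to a basis -/
lemma t3_complete {p q : Pt K} {i j : Fin 3} (hij : i ≠ j) (h1 : p i = 1) (h2 : q i = 0)
    (h3 : q j = 1) : ∃ M : GL (Fin 3) K, M.1 0 = p ∧ M.1 1 = q := by
  have h : ∃ r : Pt K, (Matrix.of ![p, q, r]).det ≠ 0 := by
    by_contra hc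
    rw [not_exists] at hc
    have a0 := not_not.1 (hc ![1, 0, 0])
    have a1 := not_not.1 (hc ![0, 1, 0])
    have a2 := not_not.1 (hc ![0, 0, 1])
    simp only [det_fin_three, of_apply, cons_val_zero, cons_val_one, cons_val, mul_zero, mul_one,
      sub_zero, add_zero, zero_add, zero_sub, sub_self] at a0 a1 a2
    fin_cases i <;> fin_cases j <;> simp_all
  obtain ⟨r, hr⟩ := h
  exact ⟨GeneralLinearGroup.mkOfDetNeZero _ hr, rfl, rfl⟩

end Field

section Finite

variable {κ : Type} [Field κ] [Fintype κ]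

lemma t3_card_G : Fintype.card κ ^ 10 ≤ 16 * Nat.card (G κ) := by
  let e : G κ ≃ GL (Fin 3) κ × κˣ :=
    ⟨fun g => (g.M, g.μ), fun p => ⟨p.1, p.2⟩, fun _ => rfl, fun _ => rfl⟩
  rw [Nat.card_congr e, Nat.card_prod, card_GL_field, Nat.card_units, Nat.card_eq_fintype_card,
    Fin.prod_univ_three]
  have hq : 2 ≤ Fintype.card κ := Fintype.one_lt_card
  generalize Fintype.card κ = q at hq
  have h : ∀ i < 3, q ^ 3 ≤ 2 * (q ^ 3 - q ^ i) := fun i hi => by
    have h1 : q ^ i ≤ q ^ 2 := Nat.pow_le_pow_right (by omega) (by omega)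
    have h2 : 2 * q ^ 2 ≤ q ^ 3 := by
      rw [pow_succ' q 2]
      exact Nat.mul_le_mul_right _ hq
    omega
  have h4 : q ≤ 2 * (q - 1) := by omega
  calc q ^ 10 = q ^ 3 * q ^ 3 * q ^ 3 * q := by ring
    _ ≤ _ := Nat.mul_le_mul (Nat.mul_le_mul (Nat.mul_le_mul (h 0 (by norm_num)) (h 1 (by norm_num)))
      (h 2 (by norm_num))) h4
    _ = _ := by
      simp only [Fin.val_zero, Fin.val_one, Fin.val_two]
      ring

theorem dens_flex3_le : dens Finset.univ (fun f : Model κ => Flex3 f.jac) ≤ 1 - 1 / 64 := by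
  have hq : 0 < Fintype.card κ := Fintype.card_pos
  have hG := t3_card_G (κ := κ)
  have : Finite (G κ) := Nat.finite_of_card_ne_zero fun h => by
    rw [h] at hG
    exact absurd hG (not_le.2 (by positivity))
  let _ := Fintype.ofFinite (G κ)
  rw [Nat.card_eq_fintype_card] at hG
  have h1 := t3_orbit_count (G := G κ) (Finset.univ.filter fun f : Model κ => ¬Flex3 f.jac)
    ((Finset.univ.filter fun W : WeierstrassCurve κ => ¬Flex3 W).image wcub) ?_
    (Finset.univ.filter fun g : G κ => g.e 0 1 = 0 ∧ g.e 0 2 = 0 ∧ g.e 1 2 = 0 ∧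
      (g.μ : κ) = g.e 1 1 ^ 3 ∧ g.e 0 0 ^ 2 * g.e 2 2 = g.μ) ?_
  rotate_left
  · intro g x hx
    obtain ⟨W, hW, rfl⟩ := Finset.mem_image.1 hx
    refine Finset.mem_filter.2 ⟨Finset.mem_univ _, ?_⟩
    rw [G.jac_smul, flex3_smul, jac_wcub]
    exact (Finset.mem_filter.1 hW).2
  · intro x hx g hg
    obtain ⟨W, hW, rfl⟩ := Finset.mem_image.1 hx
    obtain ⟨W', -, e⟩ := Finset.mem_image.1 hg
    exact Finset.mem_filter.2 ⟨Finset.mem_univ _, t3_stab (Finset.mem_filter.1 hW).2 e.symm⟩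
  have h2 : (Finset.univ.filter fun g : G κ => g.e 0 1 = 0 ∧ g.e 0 2 = 0 ∧ g.e 1 2 = 0 ∧
      (g.μ : κ) = g.e 1 1 ^ 3 ∧ g.e 0 0 ^ 2 * g.e 2 2 = g.μ).card ≤ Fintype.card κ ^ 5 := by
    refine (Finset.card_le_card_of_injOn (t := Finset.univ)
      (fun g => (g.e 0 0, g.e 1 0, g.e 1 1, g.e 2 0, g.e 2 1)) (fun _ _ => Finset.mem_univ _)
      fun g hg g' hg' e => ?_).trans (le_of_eq ?_)
    · obtain ⟨a1, a2, a3, a4, a5⟩ := (Finset.mem_filter.1 hg).2
      obtain ⟨b1, b2, b3, b4, b5⟩ := (Finset.mem_filter.1 hg').2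
      simp only [Prod.mk.injEq] at e
      obtain ⟨e1, e2, e3, e4, e5⟩ := e
      have hμ : (g.μ : κ) = g'.μ := by rw [a4, b4, e3]
      have e6 : g.e 2 2 = g'.e 2 2 := by
        refine mul_left_cancel₀ (left_ne_zero_of_mul (a5 ▸ g.μ.ne_zero)) ?_
        rw [a5, hμ, ← b5, e1]
      refine G.ext (Units.ext ?_) (Units.ext hμ)
      ext i j
      fin_cases i <;> fin_cases j
      exacts [e1, a1.trans b1.symm, a2.trans b2.symm, e2, e3, a3.trans b3.symm, e4, e5, e6]
    · simp only [Finset.card_univ, Fintype.card_prod]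
      ring
  rw [Finset.card_image_of_injective _ wcub_injective] at h1
  have h3 := card_not_flex3 (κ := κ)
  have h4 : Fintype.card κ ^ 10 ≤
      64 * (Finset.univ.filter fun f : Model κ => ¬Flex3 f.jac).card := by
    refine Nat.le_of_mul_le_mul_left ?_ (pow_pos hq 5)
    calc _ ≤ _ := Nat.mul_le_mul h3 hG
      _ = 64 * (Fintype.card (G κ) * (Finset.univ.filter
          fun W : WeierstrassCurve κ => ¬Flex3 W).card) := by ring
      _ ≤ _ := Nat.mul_le_mul_left _ (h1.trans (Nat.mul_le_mul_right _ h2))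
      _ = _ := by ring
  have h5 := Finset.card_filter_add_card_filter_not (s := Finset.univ)
    fun f : Model κ => Flex3 f.jac
  rw [Finset.card_univ, card_model] at h5
  refine dens_le_of_card_le ?_ (by norm_num)
  rw [Finset.card_univ, card_model]
  have h6 := (Nat.cast_le (α := ℝ)).2 h4
  have h7 := congrArg (Nat.cast : ℕ → ℝ) h5
  push_cast at h6 h7 ⊢
  linarith

end Finite

end SelAvg.FF.T3
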