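import Pool.Agent.H38Sel.AlgB

/-! The theorem of Lang for classes killed by two, three or four on a Weierstrass curve. -/

namespace H5T

open SelAvg WeierstrassCurve Polynomial
open scoped Classical

theorem lang_abstract {A : Type*} [AddCommGroup A] (φ : A →+ A) (n : ℕ)
    (hs : ∀ a : A, ∃ b, n • b = a) (hT : {a : A | n • a = 0}.Finite)
    (hF : {a : A | φ a = a}.Finite) {ξ R : A} (h : n • ξ = φ R - R) : ∃ S, ξ = φ S - S := by
  obtain ⟨R', rfl⟩ := hs R
  let ψ : A →+ A := φ - AddMonoidHom.id A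
  let ν : A →+ A := nsmulAddMonoidHom n
  have hc : ∀ a, ν (ψ a) = ψ (ν a) := fun a => (map_nsmul ψ n a).symm
  let B : AddSubgroup A := ψ.ker.comap ν
  let f : B →+ ν.ker := (ψ.comp B.subtype).codRestrict _ fun y => (hc y).trans y.2
  let g : B →+ ψ.ker := (ν.comp B.subtype).codRestrict _ fun y => y.2
  have : Finite ν.ker := hT
  have : Finite ψ.ker := hF.subset fun a ha => sub_eq_zero.1 ha
  have hg : g.range = ⊤ := AddMonoidHom.range_eq_top.2 fun x => by
    obtain ⟨y, hy⟩ := hs x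
    exact ⟨⟨y, show ψ (n • y) = 0 from hy ▸ x.2⟩, Subtype.ext hy⟩
  have e1 : Nat.card g.ker = Nat.card ν.ker := Nat.card_congr
    { toFun := fun y => ⟨y.1.1, congrArg Subtype.val y.2⟩
      invFun := fun t => ⟨⟨t.1, show ψ (ν t) = 0 by rw [t.2, map_zero]⟩, Subtype.ext t.2⟩
      left_inv := fun _ => rfl
      right_inv := fun _ => rfl }
  have e2 : Nat.card f.ker = Nat.card ψ.ker := Nat.card_congr
    { toFun := fun y => ⟨y.1.1, congrArg Subtype.val y.2⟩
      invFun := fun t => ⟨⟨t.1, show ψ (ν t) = 0 by rw [← hc, t.2, map_zero]⟩, Subtype.ext t.2⟩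
      left_inv := fun _ => rfl
      right_inv := fun _ => rfl }
  have e3 := g.ker.card_mul_index
  have e4 := f.ker.card_mul_index
  rw [AddSubgroup.index_ker, hg, AddSubgroup.card_top, e1] at e3
  rw [AddSubgroup.index_ker, e2, ← e3, mul_comm] at e4
  have hf : f.range = ⊤ := AddSubgroup.eq_top_of_card_eq _
    (Nat.eq_of_mul_eq_mul_right Nat.card_pos e4)
  obtain ⟨y, hy⟩ := AddMonoidHom.range_eq_top.1 hf ⟨ξ - ψ R', by
    show ν (ξ - ψ R') = 0
    rw [map_sub, hc]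
    exact sub_eq_zero.2 h⟩
  have hy' : ψ y = ξ - ψ R' := congrArg Subtype.val hy
  refine ⟨y + R', ?_⟩
  show ξ = ψ (y + R')
  rw [map_add, hy', sub_add_cancel]

variable {L : Type*} [Field L] {W : WeierstrassCurve L}

lemma lw_finite {s : Set W.toAffine.Point} {X : Set L} (hX : X.Finite)
    (h : ∀ x y (k : W.toAffine.Nonsingular x y), Affine.Point.some x y k ∈ s → x ∈ X) :
    s.Finite := by
  have h1 : ∀ x : L, {y | W.toAffine.Equation x y}.Finite := fun x => by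
    refine (W.toAffine.polynomial.map (evalRingHom x)).roots.toFinset.finite_toSet.subset
      fun y hy => ?_
    rw [Finset.mem_coe, Multiset.mem_toFinset,
      mem_roots (W.toAffine.monic_polynomial.map _).ne_zero, IsRoot, map_evalRingHom_eval]
    exact hy
  refine Set.Finite.of_finite_image ?_ toRaw_injective.injOn
  refine (((hX.biUnion fun x _ => (h1 x).image fun y => some (x, y))).insert none).subset ?_
  rintro _ ⟨_ | ⟨x, y, k⟩, hP, rfl⟩
  · exact Set.mem_insert _ _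
  · exact Set.mem_insert_of_mem _ (Set.mem_biUnion (h x y k hP) ⟨y, k.1, rfl⟩)

lemma lw_exists_y [IsAlgClosed L] (hW : W.Δ ≠ 0) (x : L) : ∃ y, W.toAffine.Nonsingular x y := by
  obtain ⟨y, hy⟩ := IsAlgClosed.exists_root (W.toAffine.polynomial.map (evalRingHom x)) (by
    rw [W.toAffine.monic_polynomial.degree_map, Affine.degree_polynomial]; norm_num)
  rw [IsRoot, map_evalRingHom_eval] at hy
  exact ⟨y, (W.toAffine.equation_iff_nonsingular_of_Δ_ne_zero hW).1 hy⟩

lemma lw_pm {n : ℕ} {P : W.toAffine.Point} {x y y' : L} {k : W.toAffine.Nonsingular x y}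
    {k' : W.toAffine.Nonsingular x y'} (h : n • P = .some x y' k') :
    ∃ Q, n • Q = Affine.Point.some x y k := by
  rcases Affine.Y_eq_of_X_eq k.1 k'.1 rfl with rfl | e
  · exact ⟨P, h⟩
  · refine ⟨-P, ?_⟩
    rw [smul_neg, h, Affine.Point.neg_some, Affine.Point.some.injEq]
    exact ⟨rfl, e.symm⟩

/-- the double of a point that is not of order two -/
lemma lw_double {x y : L} (k : W.toAffine.Nonsingular x y) (h : 2 * y + W.a₁ * x + W.a₃ ≠ 0) :
    ∃ (l : L) (k' : W.toAffine.Nonsingular (W.toAffine.addX x x l) (W.toAffine.addY x x y l)),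
      l * (2 * y + W.a₁ * x + W.a₃) = 3 * x ^ 2 + 2 * W.a₂ * x + W.a₄ - W.a₁ * y ∧
      2 • Affine.Point.some x y k = .some _ _ k' := by
  have e : y - W.toAffine.negY x y = 2 * y + W.a₁ * x + W.a₃ := by rw [Affine.negY]; ring
  have hy : y ≠ W.toAffine.negY x y := fun h0 => h (by rw [← e]; exact sub_eq_zero.2 h0)
  refine ⟨W.toAffine.slope x x y y, _, ?_, by rw [two_nsmul, Affine.Point.add_self_of_Y_ne hy]⟩
  rw [Affine.slope_of_Y_ne rfl hy, e, div_mul_cancel₀ _ h]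

theorem two_surj [IsAlgClosed L] (hW : W.Δ ≠ 0) (R : W.toAffine.Point) : ∃ Q, 2 • Q = R := by
  rcases R with _ | ⟨u, v, k⟩
  · exact ⟨0, smul_zero _⟩
  obtain ⟨x, hx⟩ := IsAlgClosed.exists_root (X ^ 4 - C W.b₄ * X ^ 2 - C (2 * W.b₆) * X - C W.b₈ -
    C u * (C 4 * X ^ 3 + C W.b₂ * X ^ 2 + C (2 * W.b₄) * X + C W.b₆) : L[X]) (by
      have : (X ^ 4 - C W.b₄ * X ^ 2 - C (2 * W.b₆) * X - C W.b₈ - C u * (C 4 * X ^ 3 +
        C W.b₂ * X ^ 2 + C (2 * W.b₄) * X + C W.b₆) : L[X]).degree = 4 := by compute_degree!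
      rw [this]; norm_num)
  simp only [IsRoot, eval_sub, eval_add, eval_mul, eval_pow, eval_X, eval_C, b₂, b₄, b₆, b₈] at hx
  obtain ⟨y, k₀⟩ := lw_exists_y hW x
  have e := (Affine.equation_iff _ _).1 k₀.1
  obtain ⟨s, hs⟩ : ∃ s, s = 2 * y + W.a₁ * x + W.a₃ := ⟨_, rfl⟩
  obtain ⟨t, ht⟩ : ∃ t, t = 3 * x ^ 2 + 2 * W.a₂ * x + W.a₄ - W.a₁ * y := ⟨_, rfl⟩
  have key : t ^ 2 + W.a₁ * s * t - (W.a₂ + 2 * x + u) * s ^ 2 = 0 := by
    rw [hs, ht]
    linear_combination hx + (-4 * u - 8 * x - W.a₁ ^ 2 - 4 * W.a₂) * e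
  have h0 : s ≠ 0 := fun h0 => by
    rw [h0] at key
    have h1 : t = 0 := pow_eq_zero_iff two_ne_zero |>.1 (by linear_combination key)
    rcases ((Affine.nonsingular_iff' _ _).1 k₀).2 with h | h
    · exact h (by linear_combination ht - h1)
    · exact h (hs ▸ h0)
  obtain ⟨l, k', hl, h2⟩ := lw_double k₀ (hs ▸ h0)
  rw [← hs, ← ht] at hl
  have hu : W.toAffine.addX x x l = u := by
    refine mul_right_cancel₀ (pow_ne_zero 2 h0) ?_
    rw [Affine.addX]
    linear_combination key + (l * s + t + W.a₁ * s) * hl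
  subst hu
  exact lw_pm h2

theorem three_surj [IsAlgClosed L] (hW : W.Δ ≠ 0) (R : W.toAffine.Point) : ∃ Q, 3 • Q = R := by
  rcases R with _ | ⟨u, v, k⟩
  · exact ⟨0, smul_zero _⟩
  obtain ⟨x, hx⟩ := IsAlgClosed.exists_root (W.Φ 3 - C u * W.Ψ₃ ^ 2) (by
    have h1 : (C u * W.Ψ₃ ^ 2).natDegree < (W.Φ 3).natDegree := by
      rw [natDegree_Φ]
      refine (natDegree_C_mul_le _ _).trans_lt (natDegree_pow_le.trans_lt ?_)
      have := W.natDegree_Ψ₃_le
      norm_num
      omega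
    intro h0
    have h2 := natDegree_sub_eq_left_of_natDegree_lt h1
    rw [natDegree_eq_of_degree_eq_some h0, natDegree_Φ] at h2
    norm_num at h2)
  obtain ⟨y, k₀⟩ := lw_exists_y hW x
  have e := (Affine.equation_iff _ _).1 k₀.1
  obtain ⟨s, hs⟩ : ∃ s, s = 2 * y + W.a₁ * x + W.a₃ := ⟨_, rfl⟩
  obtain ⟨t, ht⟩ : ∃ t, t = 3 * x ^ 2 + 2 * W.a₂ * x + W.a₄ - W.a₁ * y := ⟨_, rfl⟩
  obtain ⟨p, hp⟩ : ∃ p, p = (3 * x + W.a₂) * s ^ 2 - W.a₁ * s * t - t ^ 2 := ⟨_, rfl⟩
  have e2 : W.Ψ₂Sq.eval x = s ^ 2 := by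
    simp only [Ψ₂Sq, eval_add, eval_mul, eval_pow, eval_X, eval_C, b₂, b₄, b₆, hs]
    linear_combination -4 * e
  have e3 : W.Ψ₃.eval x = p := by
    simp only [Ψ₃, eval_add, eval_mul, eval_pow, eval_X, eval_C, eval_ofNat, b₂, b₄, b₆, b₈, hp,
      hs, ht]
    linear_combination -(12 * x + W.a₁ ^ 2 + 4 * W.a₂) * e
  have e4 : W.preΨ₄.eval x = (6 * x ^ 2 + W.b₂ * x + W.b₄) *
      W.Ψ₃.eval x - W.Ψ₂Sq.eval x ^ 2 := by
    simp only [preΨ₄, Ψ₃, Ψ₂Sq, eval_add, eval_mul, eval_pow, eval_X, eval_C, eval_ofNat]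
    linear_combination x ^ 2 * W.b_relation
  have e5 : 6 * x ^ 2 + W.b₂ * x + W.b₄ = 2 * t + W.a₁ * s := by
    simp only [b₂, b₄, hs, ht]; ring
  rw [IsRoot, Φ_three] at hx
  simp only [eval_sub, eval_mul, eval_pow, eval_X, eval_C, e4, e2, e3, e5] at hx
  have hst : s ≠ 0 ∨ t ≠ 0 := by
    rcases ((Affine.nonsingular_iff' _ _).1 k₀).2 with h | h
    · exact Or.inr fun h1 => h (by linear_combination ht - h1)
    · exact Or.inl (hs ▸ h)
  by_cases h0 : s = 0
  · have ht0 := hst.resolve_left (not_not.2 h0)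
    have hxu : x = u := by
      refine mul_right_cancel₀ (pow_ne_zero 4 ht0) ?_
      rw [hp, h0] at hx
      linear_combination hx
    subst hxu
    refine lw_pm (P := .some x y k₀) (k' := k₀) ?_
    rw [succ_nsmul, (two_smul_eq_zero_iff k₀).2 (hs ▸ h0), zero_add]
  have hp0 : p ≠ 0 := fun h => pow_ne_zero 6 h0 (by rw [h] at hx; linear_combination hx)
  obtain ⟨l, k', hl, h2⟩ := lw_double k₀ (hs ▸ h0)
  rw [← hs, ← ht] at hl
  have hd : (W.toAffine.addX x x l - x) * s ^ 2 = -p := by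
    rw [Affine.addX, hp]
    linear_combination (l * s + t + W.a₁ * s) * hl
  have hne : W.toAffine.addX x x l ≠ x := fun h => hp0 (by
    rw [h] at hd; linear_combination hd)
  have h3 := succ_nsmul (Affine.Point.some x y k₀) 2
  rw [h2, Affine.Point.add_of_X_ne hne] at h3
  have hu : W.toAffine.addX (W.toAffine.addX x x l) x
      (W.toAffine.slope (W.toAffine.addX x x l) x (W.toAffine.addY x x y l) y) = u := by
    have hm := div_mul_cancel₀ (W.toAffine.addY x x y l - y) (sub_ne_zero.2 hne)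
    rw [Affine.slope_of_X_ne hne]
    generalize (W.toAffine.addY x x y l - y) / (W.toAffine.addX x x l - x) = m at hm ⊢
    rw [Affine.addY, Affine.negY, Affine.negAddY] at hm
    obtain ⟨d, hd'⟩ : ∃ d, d = W.toAffine.addX x x l - x := ⟨_, rfl⟩
    have hd0 : d ≠ 0 := hd' ▸ sub_ne_zero.2 hne
    have hm' : (m + l + W.a₁) * d = -s := by rw [hd', hs]; linear_combination hm
    have hd2 : d = l ^ 2 + W.a₁ * l - W.a₂ - 3 * x := by rw [hd', Affine.addX]; ring
    rw [← hd'] at hd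
    have hx2 : (x - u) * d ^ 2 + (2 * l + W.a₁) * s * d + s ^ 2 = 0 := by
      refine mul_right_cancel₀ (pow_ne_zero 4 h0) ?_
      have hp' : p = -(d * s ^ 2) := by linear_combination hd
      rw [hp', ← hl] at hx
      linear_combination hx
    refine mul_right_cancel₀ (pow_ne_zero 2 hd0) ?_
    rw [Affine.addX, show W.toAffine.addX x x l = x + d by rw [hd']; ring]
    linear_combination hx2 + (m * d - s - (l + W.a₁) * d + W.a₁ * d) * hm' - d ^ 2 * hd2
  subst hu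
  exact lw_pm h3

theorem finite_two_torsion (hW : W.Δ ≠ 0) : {P : W.toAffine.Point | 2 • P = 0}.Finite := by
  by_contra h
  obtain ⟨s, hs, hc⟩ := Set.Infinite.exists_subset_card_eq h 5
  have := two_torsion_le hW s fun P hP => hs hP
  omega

theorem finite_three_torsion (hW : W.Δ ≠ 0) : {P : W.toAffine.Point | 3 • P = 0}.Finite := by
  have h0 : W.Ψ₃ ≠ 0 := fun h => hW (by
    have c4 := congrArg (coeff · 4) h
    have c3 := congrArg (coeff · 3) h
    have c0 := congrArg (coeff · 0) h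
    simp [Ψ₃, coeff_X, mul_assoc] at c4 c3 c0
    have r := W.b_relation
    rw [Δ, c3]
    rw [c3, c0] at r
    linear_combination -8 * W.b₄ * r - 9 * W.b₆ ^ 2 * c4)
  refine lw_finite W.Ψ₃.roots.toFinset.finite_toSet fun x y k hP => ?_
  rw [Finset.mem_coe, Multiset.mem_toFinset, mem_roots h0, IsRoot]
  have h3 : 2 • Affine.Point.some x y k = -Affine.Point.some x y k :=
    eq_neg_of_add_eq_zero_left (by rw [← succ_nsmul]; exact hP)
  have hs : 2 * y + W.a₁ * x + W.a₃ ≠ 0 := fun h => by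
    rw [(two_smul_eq_zero_iff k).2 h, Affine.Point.neg_some] at h3
    cases h3
  obtain ⟨l, k', hl, h2⟩ := lw_double k hs
  rw [h2, Affine.Point.neg_some, Affine.Point.some.injEq, Affine.addX] at h3
  have e := (Affine.equation_iff _ _).1 k.1
  simp only [Ψ₃, eval_add, eval_mul, eval_pow, eval_X, eval_C, eval_ofNat, b₂, b₄, b₆, b₈]
  linear_combination -(12 * x + W.a₁ ^ 2 + 4 * W.a₂) * e - (2 * y + W.a₁ * x + W.a₃) ^ 2 * h3.1 +
    (l * (2 * y + W.a₁ * x + W.a₃) + (3 * x ^ 2 + 2 * W.a₂ * x + W.a₄ - W.a₁ * y) +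
      W.a₁ * (2 * y + W.a₁ * x + W.a₃)) * hl

theorem finite_fixed (φ : L →+* L) (hφ : {x | φ x = x}.Finite) (h : W = W.map φ) :
    {P : W.toAffine.Point | pmap φ h P = P}.Finite := by
  refine lw_finite hφ fun x y k hP => ?_
  have := toRaw_pmap φ h (.some x y k)
  rw [show pmap φ h (.some x y k) = .some x y k from hP] at this
  exact (congrArg Prod.fst (Option.some.inj this)).symm

variable [IsAlgClosed L]

theorem lang_two (hW : W.Δ ≠ 0) (φ : L →+* L) (hφ : {x | φ x = x}.Finite) (h : W = W.map φ)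
    {ξ R : W.toAffine.Point} (e : 2 • ξ = pmap φ h R - R) : ∃ S, ξ = pmap φ h S - S :=
  lang_abstract _ 2 (two_surj hW) (finite_two_torsion hW) (finite_fixed φ hφ h) e

theorem lang_three (hW : W.Δ ≠ 0) (φ : L →+* L) (hφ : {x | φ x = x}.Finite) (h : W = W.map φ)
    {ξ R : W.toAffine.Point} (e : 3 • ξ = pmap φ h R - R) : ∃ S, ξ = pmap φ h S - S :=
  lang_abstract _ 3 (three_surj hW) (finite_three_torsion hW) (finite_fixed φ hφ h) e

theorem lang_four (hW : W.Δ ≠ 0) (φ : L →+* L) (hφ : {x | φ x = x}.Finite) (h : W = W.map φ)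
    {ξ R : W.toAffine.Point} (e : 4 • ξ = pmap φ h R - R) : ∃ S, ξ = pmap φ h S - S := by
  obtain ⟨S, hS⟩ := lang_two hW φ hφ h (ξ := 2 • ξ) (by rw [smul_smul]; exact e)
  exact lang_two hW φ hφ h hS

end H5T
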