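import Pool.Agent.H5T.LangA
import Pool.Agent.H5T.LangW
import Pool.Agent.H5T.DifC
import Pool.Agent.H38Sel.LocA

/-!
A ternary cubic whose discriminant is not divisible by the square of the uniformiser has a smooth
point over the finite residue field.
-/

namespace SelAvg.FF.T3

open WeierstrassCurve Matrix Polynomial

section Frob

variable {κ K : Type*} [Field κ] [Fintype κ] [Field K] [Algebra κ K]

/-- the Frobenius of an extension of a finite field -/
noncomputable abbrev lgFr (κ K : Type*) [Field κ] [Fintype κ] [Field K] [Algebra κ K] : K →+* K :=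
  (FiniteField.frobeniusAlgHom κ K : K →+* K)

lemma lg_fixed {x : K} (h : lgFr κ K x = x) : ∃ y, algebraMap κ K y = x := by
  classical
  have h1 : 1 < Fintype.card κ := Fintype.one_lt_card
  have hm : (X ^ Fintype.card κ - X : κ[X]).Monic :=
    monic_X_pow_sub (by rw [degree_X]; exact_mod_cast h1)
  have e := prod_multiset_X_sub_C_of_monic_of_roots_card_eq hm (by
    rw [FiniteField.roots_X_pow_card_sub_X, FiniteField.X_pow_card_sub_X_natDegree_eq κ h1]; rfl)
  rw [FiniteField.roots_X_pow_card_sub_X] at e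
  have e2 := congrArg (aeval x) e
  have hx : x ^ Fintype.card κ = x := h
  rw [map_multiset_prod, map_sub, map_pow, aeval_X, hx, sub_self, Multiset.prod_eq_zero_iff,
    Multiset.map_map, Multiset.mem_map] at e2
  obtain ⟨y, -, hy⟩ := e2
  exact ⟨y, (sub_eq_zero.1 (by simpa using hy)).symm⟩

lemma lg_fixed_finite : {x : K | lgFr κ K x = x}.Finite :=
  (Set.finite_range (algebraMap κ K)).subset fun _ h => lg_fixed h

lemma lg_comp : (lgFr κ K).comp (algebraMap κ K) = algebraMap κ K :=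
  (FiniteField.frobeniusAlgHom κ K).comp_algebraMap

lemma lg_map_fr (f : Model κ) :
    (f.map (algebraMap κ K)).map (lgFr κ K) = f.map (algebraMap κ K) := by
  rw [Model.map_map, lg_comp]

/-- a point proportional to its conjugate comes from a rational point -/
lemma lg_rat {f : Model κ} {Q : Pt K} (hQ : (f.map (algebraMap κ K)).On Q)
    (h : ∀ i j, Q i * lgFr κ K (Q j) = Q j * lgFr κ K (Q i)) : ∃ Q₀, f.On Q₀ := by
  obtain ⟨i, hi⟩ : ∃ i, Q i ≠ 0 := Function.ne_iff.1 hQ.prim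
  have hi' : lgFr κ K (Q i) ≠ 0 := (_root_.map_ne_zero _).2 hi
  choose Q₀ h₀ using fun j => lg_fixed (κ := κ) (x := (Q i)⁻¹ * Q j) (by
    rw [map_mul, map_inv₀]
    field_simp
    linear_combination h i j)
  have e : Pt.map (algebraMap κ K) Q₀ = (Q i)⁻¹ • Q := funext fun j => h₀ j
  refine ⟨Q₀, fun e0 => ?_, (algebraMap κ K).injective ?_⟩
  · have := h₀ i
    rw [e0, inv_mul_cancel₀ hi] at this
    simp at this
  · rw [← Model.map_F, e, Model.F_smul, hQ.eq, mul_zero, map_zero]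

variable [IsAlgClosed K]

/-- the theorem of Lang for nonsingular plane cubics -/
theorem exists_on_of_ne {f : Model κ} (hΔ : (f.map (algebraMap κ K)).jac.Δ ≠ 0) :
    ∃ Q₀, f.On Q₀ := by
  classical
  set φ := lgFr κ K
  set z : Obj K := ⟨f.map (algebraMap κ K), 1⟩ with hzd
  set W := (f.map (algebraMap κ K)).jac
  have hz : z.Over W := (one_smul _ _).symm
  have hf : z.f.map φ = z.f := lg_map_fr f
  have hzφ : z.map φ = z := Obj.ext hf (VariableChange.mapHom φ).map_one
  have hW : W = W.map φ := by rw [← Model.jac_map, lg_map_fr]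
  have on : ∀ {Q}, z.f.On Q → z.f.On (Q.map φ) := fun {Q} h => by
    rw [← hf]; exact (Model.on_map φ _ Q).2 h
  have hD : ∀ {Q Q'}, z.f.On Q → z.f.On Q' →
      D W z (Q.map φ) (Q'.map φ) = pmap φ hW (D W z Q Q') := fun {Q Q'} h h' => by
    apply toRaw_injective
    rw [toRaw_pmap, ← toRaw_D_map φ hΔ hz h h', hzφ]
    have : ∀ W', W = W' → toRaw (D W z (Q.map φ) (Q'.map φ)) =
      toRaw (D W' z (Q.map φ) (Q'.map φ)) := by rintro _ rfl; rfl
    exact this _ hW
  have hP : ∀ {Q}, z.f.On Q → piP W z (Q.map φ) = pmap φ hW (piP W z Q) := fun {Q} h => by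
    apply toRaw_injective
    rw [toRaw_pmap, ← toRaw_piP_map φ hΔ hz h, hzφ]
    have : ∀ W', W = W' → toRaw (piP W z (Q.map φ)) = toRaw (piP W' z (Q.map φ)) := by
      rintro _ rfl; rfl
    exact this _ hW
  obtain ⟨Q, hQ⟩ := Model.lg_exists_on z.f
  obtain ⟨S, hS⟩ := H5T.lang_three hΔ φ lg_fixed_finite hW (ξ := D W z Q (Q.map φ))
    (R := -piP W z Q) (by rw [three_smul_D hΔ hz hQ (on hQ), hP hQ, map_neg]; abel)
  obtain ⟨Q', hQ', e⟩ := D_surjective hΔ hz hQ (-S)
  have h0 : D W z Q' (Q'.map φ) = 0 := by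
    rw [← D_add hΔ hz hQ' hQ (on hQ'), ← D_add hΔ hz hQ (on hQ) (on hQ'), D_symm hΔ hz hQ hQ',
      hD hQ hQ', hS, e, map_neg]
    abel
  obtain ⟨t, -, ht⟩ := (D_eq_zero_iff hΔ hz hQ' (on hQ')).1 h0
  refine lg_rat hQ' fun i j => ?_
  have hi : φ (Q' i) = t * Q' i := congrFun ht i
  have hj : φ (Q' j) = t * Q' j := congrFun ht j
  rw [hi, hj]
  ring

/-- a singular cubic without rational points contains a line -/
theorem exists_line {f : Model κ} (hΔ : (f.map (algebraMap κ K)).jac.Δ = 0)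
    (hn : ¬∃ Q₀, f.On Q₀) : ∃ M : Matrix (Fin 3) (Fin 3) K, M.det ≠ 0 ∧
      ((f.map (algebraMap κ K)).subst M).a = 0 ∧ ((f.map (algebraMap κ K)).subst M).a2 = 0 ∧
      ((f.map (algebraMap κ K)).subst M).b1 = 0 ∧ ((f.map (algebraMap κ K)).subst M).b = 0 := by
  obtain ⟨Q, hQ, hs⟩ := Model.exists_sing_pt hΔ
  have hQ' := (Model.on_map (lgFr κ K) _ Q).2 hQ
  have hs' := mt (Model.smooth_map (lgFr κ K) _ Q).1 hs
  rw [lg_map_fr] at hQ' hs'
  obtain ⟨M, hM, h0, h1⟩ := Model.lg_two_rows (Q := Q) (Q' := Q.map (lgFr κ K)) (by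
    by_contra hc
    simp only [not_or, not_not, sub_eq_zero, Function.comp_apply] at hc
    obtain ⟨c0, c1, c2⟩ := hc
    refine hn (lg_rat hQ fun i j => ?_)
    fin_cases i <;> fin_cases j
    exacts [rfl, c2, c1.symm, c2.symm, rfl, c0, c1, c0.symm, rfl])
  rw [Model.lg_not_smooth] at hs hs'
  refine ⟨M, hM, ?_, ?_, ?_, ?_⟩
  · rw [Model.subst_a, h0, hQ.eq]
  · rw [Model.subst_a2, h0, hs]
  · rw [Model.subst_b1, h1, hs']
  · rw [Model.subst_b, h1, hQ'.eq]

end Frob

/-- a singular rational point which is not a triple point gives a smooth rational point -/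
lemma smooth_of_sing {κ : Type*} [Field κ] {f : Model κ} (ha : f.a = 0) (h2 : f.a2 = 0)
    (h3 : f.a3 = 0) (h : ¬(f.b1 = 0 ∧ f.m = 0 ∧ f.c1 = 0)) : ∃ Q, f.On Q ∧ f.Smooth Q := by
  have key : ∀ y z : κ, f.b1 * y ^ 2 + f.m * y * z + f.c1 * z ^ 2 ≠ 0 →
      ∃ Q, f.On Q ∧ f.Smooth Q := fun y z hq => by
    obtain ⟨x, hx⟩ : ∃ x, (f.b1 * y ^ 2 + f.m * y * z + f.c1 * z ^ 2) * x =
      -(f.b * y ^ 3 + f.b3 * y ^ 2 * z + f.c2 * y * z ^ 2 + f.c * z ^ 3) :=
      ⟨_ / _, mul_div_cancel₀ _ hq⟩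
    refine ⟨![x, y, z], ⟨fun e => hq ?_, ?_⟩, Or.inl fun e => hq ?_⟩
    · have e1 : y = 0 := congrFun e 1
      have e2 : z = 0 := congrFun e 2
      simp [e1, e2]
    · simp only [Model.F, cons_val, ha, h2, h3]
      linear_combination hx
    · simp only [Model.Fx, cons_val, ha, h2, h3] at e
      linear_combination e
  by_cases hb : f.b1 = 0
  · by_cases hc : f.c1 = 0
    · exact key 1 1 (by simpa [hb, hc] using h)
    · exact key 0 1 (by simpa using hc)
  · exact key 1 0 (by simpa using hb)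

lemma lg_sq_dvd_eval {R : Type*} [CommRing R] {P : R[X]} {c : R} (h0 : c ^ 2 ∣ P.coeff 0)
    (h1 : c ∣ P.coeff 1) : c ^ 2 ∣ P.eval c := by
  have e1 := congrArg (eval c) P.divX_mul_X_add
  have e2 := congrArg (eval c) P.divX.divX_mul_X_add
  simp only [eval_add, eval_mul, eval_X, eval_C, coeff_divX, zero_add] at e1 e2
  obtain ⟨u, hu⟩ := h0
  obtain ⟨v, hv⟩ := h1
  exact ⟨P.divX.divX.eval c + v + u, by rw [← e1, ← e2, hu, hv]; ring⟩

variable {L κ : Type*} [Field L] [Field κ] {V : LocalField L} {red : V.O →+* κ}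

/-- If every first order deformation of the reduction has discriminant vanishing to second order,
then the square of the uniformiser divides the discriminant. -/
theorem sq_dvd_of_deform [Finite κ] (hred : V.IsRed red 1) {p : ℕ} (hp : p.Prime)
    (hp0 : (p : L) = 0) (f : Model V.O) {K : Type*} [Field K] (ι : κ →+* K)
    {M : Matrix (Fin 3) (Fin 3) K} (hM : M.det ≠ 0)
    (H : ∀ h : Model K[X], h.map (evalRingHom 0) = ((f.map red).map ι).subst M →
      X ^ 2 ∣ h.jac.Δ) : V.unif ^ 2 ∣ f.jac.Δ := by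
  have hker : ∀ x : V.O, red x = 0 ↔ V.unif ∣ x := fun x => by
    rw [hred.ker, V.le_exp_iff_dvd, pow_one]
  have := Fact.mk hp
  have : CharP L p := (CharP.charP_iff_prime_eq_zero hp).2 hp0
  have : CharP V.O p := RingHom.charP V.incl V.incl_injective p
  have : CharP κ p := (CharP.charP_iff_prime_eq_zero hp).2 (by
    rw [← map_natCast red, CharP.cast_eq_zero, map_zero])
  have dec : ∀ x : V.O, ∃ t h : V.O, x = t ^ p + V.unif * h := fun x => by
    obtain ⟨s, hs⟩ := surjective_frobenius κ p (red x)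
    obtain ⟨t, rfl⟩ := hred.surj s
    obtain ⟨h, hh⟩ := (hker (x - t ^ p)).1 (by
      rw [map_sub, map_pow, ← hs, frobenius_def, sub_self])
    exact ⟨t, h, by linear_combination hh⟩
  choose t h hth using dec
  let s : V.O → V.O[X] := fun x => C (t x ^ p) + X * C (h x)
  let fT : Model V.O[X] :=
    ⟨s f.a, s f.b, s f.c, s f.a2, s f.a3, s f.b1, s f.b3, s f.c1, s f.c2, s f.m⟩
  let f₀ : Model V.O :=
    ⟨t f.a, t f.b, t f.c, t f.a2, t f.a3, t f.b1, t f.b3, t f.c1, t f.c2, t f.m⟩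
  have s1 : ∀ x, evalRingHom V.unif (s x) = x := fun x => by
    simp only [s, coe_evalRingHom, eval_add, eval_mul, eval_C, eval_X]; exact (hth x).symm
  have s0 : ∀ x, evalRingHom 0 (s x) = frobenius V.O p (t x) := fun x => by
    simp [s, frobenius_def]
  have s2 : ∀ x, evalRingHom 0 (mapRingHom (ι.comp red) (s x)) = ι (red x) := fun x => by
    conv_rhs => rw [hth x]
    simp [s, (hker _).2 dvd_rfl]
  have e1 : fT.map (evalRingHom V.unif) = f := by
    ext : 1 <;> exact s1 _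
  have e0 : fT.map (evalRingHom 0) = f₀.map (frobenius V.O p) := by
    ext : 1 <;> exact s0 _
  have e2 : (fT.map (mapRingHom (ι.comp red))).map (evalRingHom 0) = (f.map red).map ι := by
    ext : 1 <;> exact s2 _
  have hX : X ^ 2 ∣ fT.jac.Δ.map (ι.comp red) := by
    have := H ((fT.map (mapRingHom (ι.comp red))).subst (M.map C)) (by
      rw [Model.map_subst, e2, Matrix.map_map]
      congr 1
      ext i j
      simp)
    rw [Model.lg_Delta_subst, Model.jac_map, map_Δ, ← RingHom.mapMatrix_apply,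
      ← RingHom.map_det] at this
    exact ((isUnit_C.2 hM.isUnit).pow 12).dvd_mul_left.1 this
  rw [X_pow_dvd_iff] at hX
  have c0 := hX 0 (by norm_num)
  have c1 := hX 1 (by norm_num)
  rw [coeff_map, RingHom.comp_apply, map_eq_zero] at c0 c1
  have d0 : fT.jac.Δ.coeff 0 = f₀.jac.Δ ^ p := by
    rw [coeff_zero_eq_eval_zero, ← coe_evalRingHom, ← map_Δ, ← Model.jac_map, e0, Model.jac_map,
      map_Δ, frobenius_def]
  rw [← e1, Model.jac_map, map_Δ, coe_evalRingHom]
  refine lg_sq_dvd_eval ?_ ((hker _).1 c1)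
  rw [d0, map_pow, pow_eq_zero_iff hp.ne_zero, hker] at c0
  rw [d0]
  exact (pow_dvd_pow _ hp.two_le).trans (pow_dvd_pow_of_dvd c0 p)

theorem exists_smooth_point [Finite κ] (hred : V.IsRed red 1) {p : ℕ} (hp : p.Prime)
    (hp0 : (p : L) = 0) {f : Model V.O} (hΔ : ¬V.unif ^ 2 ∣ f.jac.Δ) :
    ∃ Q, (f.map red).On Q ∧ (f.map red).Smooth Q := by
  have := Fintype.ofFinite κ
  have xd : ∀ {K : Type _} [Field K] {x : K[X]} {y : K}, evalRingHom 0 x = y → y = 0 → X ∣ x :=
    fun {K} _ {x y} h h' => X_dvd_iff.2 ((coeff_zero_eq_eval_zero x).trans (h.trans h'))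
  have hex : ∃ Q, (f.map red).On Q := by
    by_contra hn
    by_cases h0 : ((f.map red).map (algebraMap κ (AlgebraicClosure κ))).jac.Δ = 0
    · obtain ⟨M, hM, ha, ha2, hb1, hb⟩ := exists_line h0 hn
      refine hΔ (sq_dvd_of_deform hred hp hp0 f (algebraMap κ _) hM fun h e => ?_)
      exact h.sq_dvd_of_line (xd (congrArg Model.a e) ha) (xd (congrArg Model.a2 e) ha2)
        (xd (congrArg Model.b1 e) hb1) (xd (congrArg Model.b e) hb)
    · exact hn (exists_on_of_ne h0)
  obtain ⟨Q, hQ⟩ := hex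
  by_cases hs : (f.map red).Smooth Q
  · exact ⟨Q, hQ, hs⟩
  obtain ⟨M, hM, h0⟩ := Model.lg_one_row hQ.prim
  rw [Model.lg_not_smooth] at hs
  have ha : ((f.map red).subst M).a = 0 := by rw [Model.subst_a, h0, hQ.eq]
  have h2 : ((f.map red).subst M).a2 = 0 := by rw [Model.subst_a2, h0, hs]
  have h3 : ((f.map red).subst M).a3 = 0 := by rw [Model.subst_a3, h0, hs]
  obtain ⟨Q', h1, hs'⟩ := smooth_of_sing ha h2 h3 fun ⟨hb1, hm, hc1⟩ =>
    hΔ (sq_dvd_of_deform hred hp hp0 f (RingHom.id κ) hM fun h e =>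
      h.sq_dvd_of_triple (xd (congrArg Model.a e) ha) (xd (congrArg Model.a2 e) h2)
        (xd (congrArg Model.a3 e) h3) (xd (congrArg Model.b1 e) hb1)
        (xd (congrArg Model.m e) hm) (xd (congrArg Model.c1 e) hc1))
  exact ⟨_, Model.lg_on_subst hM h1, (Model.lg_smooth_subst hM _ _).1 hs'⟩

end SelAvg.FF.T3
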