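import Pool.Agent.H5T.ModA

/-!
Three divisibility criteria for the discriminant of a ternary cubic.
-/

namespace SelAvg.FF.T3

open WeierstrassCurve

variable {R : Type*} [CommRing R]

namespace Model

/-- a singular point of the reduction through which a section passes to second order -/
theorem sq_dvd_of_sing (f : Model R) {t : R}
    (ha : t ^ 2 ∣ f.a) (ha2 : t ∣ f.a2) (ha3 : t ∣ f.a3) :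
    t ^ 2 ∣ f.jac.Δ := by
  obtain ⟨a, b, c, a2, a3, b1, b3, c1, c2, m⟩ := f
  obtain ⟨a, rfl⟩ : t ^ 2 ∣ a := ha
  obtain ⟨a2, rfl⟩ : t ∣ a2 := ha2
  obtain ⟨a3, rfl⟩ : t ∣ a3 := ha3
  refine walg_sq_dvd _ ⟨9 * t * a * b * c - t * a * b3 * c2 - b * a3 * c1 - c * a2 * b1 - a2 * b3 * c1
    - a3 * b1 * c2, ?_⟩
    ⟨-3 * t * a * b * c1 * c2 - 3 * t * a * c * b1 * b3 + t * a * b1 * c2 ^ 2
    + t * a * b3 ^ 2 * c1 - 3 * t * b * c * a2 * a3 + b * a2 * c1 ^ 2 + t * b * a3 ^ 2 * c2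
    + t * c * a2 ^ 2 * b3 + c * a3 * b1 ^ 2 + t * a2 * a3 * b3 * c2 + a2 * b1 * c1 * c2
    + a3 * b1 * b3 * c1, ?_⟩
    ⟨-27 * t ^ 2 * a ^ 2 * b ^ 2 * c ^ 2 + 9 * t ^ 2 * a ^ 2 * b * c * b3 * c2
    - t ^ 2 * a ^ 2 * b * c2 ^ 3 - t ^ 2 * a ^ 2 * c * b3 ^ 3 + 9 * t * a * b ^ 2 * c * a3 * c1
    - a * b ^ 2 * c1 ^ 3 + 9 * t * a * b * c ^ 2 * a2 * b1 + 3 * t * a * b * c * a2 * b3 * c1
    - 3 * t * a * b * c * a2 * c2 * m + 3 * t * a * b * c * a3 * b1 * c2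
    - 3 * t * a * b * c * a3 * b3 * m - 3 * a * b * c * b1 * c1 * m + a * b * c * m ^ 3
    + 2 * t * a * b * a2 * c1 * c2 ^ 2 - t * a * b * a3 * b3 * c1 * c2
    + t * a * b * a3 * c2 ^ 2 * m + 2 * a * b * b1 * c1 ^ 2 * c2 + a * b * b3 * c1 ^ 2 * m
    - a * b * c1 * c2 * m ^ 2 - a * c ^ 2 * b1 ^ 3 - t * a * c * a2 * b1 * b3 * c2
    + t * a * c * a2 * b3 ^ 2 * m + 2 * t * a * c * a3 * b1 * b3 ^ 2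
    + 2 * a * c * b1 ^ 2 * b3 * c1 + a * c * b1 ^ 2 * c2 * m - a * c * b1 * b3 * m ^ 2
    - t * a * a2 * b3 ^ 2 * c1 * c2 - t * a * a3 * b1 * b3 * c2 ^ 2 - a * b1 ^ 2 * c1 * c2 ^ 2
    - a * b1 * b3 ^ 2 * c1 ^ 2 + a * b1 * b3 * c1 * c2 * m - t * b ^ 2 * c * a3 ^ 3
    - t * b * c ^ 2 * a2 ^ 3 + 2 * t * b * c * a2 ^ 2 * a3 * c2 + b * c * a2 ^ 2 * c1 * m
    + 2 * t * b * c * a2 * a3 ^ 2 * b3 - b * c * a2 * a3 * b1 * c1 - b * c * a2 * a3 * m ^ 2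
    + b * c * a3 ^ 2 * b1 * m - b * a2 ^ 2 * c1 ^ 2 * c2 - t * b * a2 * a3 ^ 2 * c2 ^ 2
    - b * a2 * a3 * b3 * c1 ^ 2 + b * a2 * a3 * c1 * c2 * m - b * a3 ^ 2 * b1 * c1 * c2
    - t * c * a2 ^ 2 * a3 * b3 ^ 2 - c * a2 ^ 2 * b1 * b3 * c1 - c * a2 * a3 * b1 ^ 2 * c2
    + c * a2 * a3 * b1 * b3 * m - c * a3 ^ 2 * b1 ^ 2 * b3 - a2 * a3 * b1 * b3 * c1 * c2, ?_⟩ <;>
  simp only [jac] <;> ring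

/-- the reduction contains the line `z = 0` -/
theorem sq_dvd_of_line (f : Model R) {t : R}
    (ha : t ∣ f.a) (ha2 : t ∣ f.a2) (hb1 : t ∣ f.b1) (hb : t ∣ f.b) :
    t ^ 2 ∣ f.jac.Δ := by
  obtain ⟨a, b, c, a2, a3, b1, b3, c1, c2, m⟩ := f
  obtain ⟨a, rfl⟩ : t ∣ a := ha
  obtain ⟨a2, rfl⟩ : t ∣ a2 := ha2
  obtain ⟨b1, rfl⟩ : t ∣ b1 := hb1
  obtain ⟨b, rfl⟩ : t ∣ b := hb
  refine walg_sq_dvd _ ⟨9 * t * a * b * c - a * b3 * c2 - b * a3 * c1 - t * c * a2 * b1 - a2 * b3 * c1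
    - a3 * b1 * c2, ?_⟩
    ⟨-3 * t * a * b * c1 * c2 - 3 * t * a * c * b1 * b3 + t * a * b1 * c2 ^ 2 + a * b3 ^ 2 * c1
    - 3 * t * b * c * a2 * a3 + t * b * a2 * c1 ^ 2 + b * a3 ^ 2 * c2 + t * c * a2 ^ 2 * b3
    + t * c * a3 * b1 ^ 2 + a2 * a3 * b3 * c2 + t * a2 * b1 * c1 * c2 + a3 * b1 * b3 * c1, ?_⟩
    ⟨-27 * t ^ 2 * a ^ 2 * b ^ 2 * c ^ 2 + 9 * t * a ^ 2 * b * c * b3 * c2
    - t * a ^ 2 * b * c2 ^ 3 - a ^ 2 * c * b3 ^ 3 + 9 * t * a * b ^ 2 * c * a3 * c1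
    - t * a * b ^ 2 * c1 ^ 3 + 9 * t ^ 2 * a * b * c ^ 2 * a2 * b1
    + 3 * t * a * b * c * a2 * b3 * c1 - 3 * t * a * b * c * a2 * c2 * m
    + 3 * t * a * b * c * a3 * b1 * c2 - 3 * a * b * c * a3 * b3 * m
    - 3 * t * a * b * c * b1 * c1 * m + a * b * c * m ^ 3 + 2 * t * a * b * a2 * c1 * c2 ^ 2
    - a * b * a3 * b3 * c1 * c2 + a * b * a3 * c2 ^ 2 * m + 2 * t * a * b * b1 * c1 ^ 2 * c2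
    + a * b * b3 * c1 ^ 2 * m - a * b * c1 * c2 * m ^ 2 - t ^ 2 * a * c ^ 2 * b1 ^ 3
    - t * a * c * a2 * b1 * b3 * c2 + a * c * a2 * b3 ^ 2 * m + 2 * a * c * a3 * b1 * b3 ^ 2
    + 2 * t * a * c * b1 ^ 2 * b3 * c1 + t * a * c * b1 ^ 2 * c2 * m - a * c * b1 * b3 * m ^ 2
    - a * a2 * b3 ^ 2 * c1 * c2 - a * a3 * b1 * b3 * c2 ^ 2 - t * a * b1 ^ 2 * c1 * c2 ^ 2
    - a * b1 * b3 ^ 2 * c1 ^ 2 + a * b1 * b3 * c1 * c2 * m - b ^ 2 * c * a3 ^ 3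
    - t ^ 2 * b * c ^ 2 * a2 ^ 3 + 2 * t * b * c * a2 ^ 2 * a3 * c2
    + t * b * c * a2 ^ 2 * c1 * m + 2 * b * c * a2 * a3 ^ 2 * b3
    - t * b * c * a2 * a3 * b1 * c1 - b * c * a2 * a3 * m ^ 2 + b * c * a3 ^ 2 * b1 * m
    - t * b * a2 ^ 2 * c1 ^ 2 * c2 - b * a2 * a3 ^ 2 * c2 ^ 2 - b * a2 * a3 * b3 * c1 ^ 2
    + b * a2 * a3 * c1 * c2 * m - b * a3 ^ 2 * b1 * c1 * c2 - c * a2 ^ 2 * a3 * b3 ^ 2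
    - t * c * a2 ^ 2 * b1 * b3 * c1 - t * c * a2 * a3 * b1 ^ 2 * c2 + c * a2 * a3 * b1 * b3 * m
    - c * a3 ^ 2 * b1 ^ 2 * b3 - a2 * a3 * b1 * b3 * c1 * c2, ?_⟩ <;>
  simp only [jac] <;> ring

/-- the reduction has a triple point -/
theorem sq_dvd_of_triple (f : Model R) {t : R}
    (ha : t ∣ f.a) (ha2 : t ∣ f.a2) (ha3 : t ∣ f.a3) (hb1 : t ∣ f.b1) (hm : t ∣ f.m) (hc1 : t ∣ f.c1) :
    t ^ 2 ∣ f.jac.Δ := by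
  obtain ⟨a, b, c, a2, a3, b1, b3, c1, c2, m⟩ := f
  obtain ⟨a, rfl⟩ : t ∣ a := ha
  obtain ⟨a2, rfl⟩ : t ∣ a2 := ha2
  obtain ⟨a3, rfl⟩ : t ∣ a3 := ha3
  obtain ⟨b1, rfl⟩ : t ∣ b1 := hb1
  obtain ⟨m, rfl⟩ : t ∣ m := hm
  obtain ⟨c1, rfl⟩ : t ∣ c1 := hc1
  refine walg_sq_dvd _ ⟨9 * a * b * c - a * b3 * c2 - t * b * a3 * c1 - t * c * a2 * b1 - t * a2 * b3 * c1
    - t * a3 * b1 * c2, ?_⟩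
    ⟨-3 * t * a * b * c1 * c2 - 3 * t * a * c * b1 * b3 + t * a * b1 * c2 ^ 2
    + t * a * b3 ^ 2 * c1 - 3 * t * b * c * a2 * a3 + t ^ 2 * b * a2 * c1 ^ 2
    + t * b * a3 ^ 2 * c2 + t * c * a2 ^ 2 * b3 + t ^ 2 * c * a3 * b1 ^ 2
    + t * a2 * a3 * b3 * c2 + t ^ 2 * a2 * b1 * c1 * c2 + t ^ 2 * a3 * b1 * b3 * c1, ?_⟩
    ⟨-27 * a ^ 2 * b ^ 2 * c ^ 2 + 9 * a ^ 2 * b * c * b3 * c2 - a ^ 2 * b * c2 ^ 3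
    - a ^ 2 * c * b3 ^ 3 + 9 * t * a * b ^ 2 * c * a3 * c1 - t ^ 2 * a * b ^ 2 * c1 ^ 3
    + 9 * t * a * b * c ^ 2 * a2 * b1 + 3 * t * a * b * c * a2 * b3 * c1
    - 3 * t * a * b * c * a2 * c2 * m + 3 * t * a * b * c * a3 * b1 * c2
    - 3 * t * a * b * c * a3 * b3 * m - 3 * t ^ 2 * a * b * c * b1 * c1 * m
    + t ^ 2 * a * b * c * m ^ 3 + 2 * t * a * b * a2 * c1 * c2 ^ 2
    - t * a * b * a3 * b3 * c1 * c2 + t * a * b * a3 * c2 ^ 2 * m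
    + 2 * t ^ 2 * a * b * b1 * c1 ^ 2 * c2 + t ^ 2 * a * b * b3 * c1 ^ 2 * m
    - t ^ 2 * a * b * c1 * c2 * m ^ 2 - t ^ 2 * a * c ^ 2 * b1 ^ 3
    - t * a * c * a2 * b1 * b3 * c2 + t * a * c * a2 * b3 ^ 2 * m
    + 2 * t * a * c * a3 * b1 * b3 ^ 2 + 2 * t ^ 2 * a * c * b1 ^ 2 * b3 * c1
    + t ^ 2 * a * c * b1 ^ 2 * c2 * m - t ^ 2 * a * c * b1 * b3 * m ^ 2
    - t * a * a2 * b3 ^ 2 * c1 * c2 - t * a * a3 * b1 * b3 * c2 ^ 2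
    - t ^ 2 * a * b1 ^ 2 * c1 * c2 ^ 2 - t ^ 2 * a * b1 * b3 ^ 2 * c1 ^ 2
    + t ^ 2 * a * b1 * b3 * c1 * c2 * m - t * b ^ 2 * c * a3 ^ 3 - t * b * c ^ 2 * a2 ^ 3
    + 2 * t * b * c * a2 ^ 2 * a3 * c2 + t ^ 2 * b * c * a2 ^ 2 * c1 * m
    + 2 * t * b * c * a2 * a3 ^ 2 * b3 - t ^ 2 * b * c * a2 * a3 * b1 * c1
    - t ^ 2 * b * c * a2 * a3 * m ^ 2 + t ^ 2 * b * c * a3 ^ 2 * b1 * m
    - t ^ 2 * b * a2 ^ 2 * c1 ^ 2 * c2 - t * b * a2 * a3 ^ 2 * c2 ^ 2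
    - t ^ 2 * b * a2 * a3 * b3 * c1 ^ 2 + t ^ 2 * b * a2 * a3 * c1 * c2 * m
    - t ^ 2 * b * a3 ^ 2 * b1 * c1 * c2 - t * c * a2 ^ 2 * a3 * b3 ^ 2
    - t ^ 2 * c * a2 ^ 2 * b1 * b3 * c1 - t ^ 2 * c * a2 * a3 * b1 ^ 2 * c2
    + t ^ 2 * c * a2 * a3 * b1 * b3 * m - t ^ 2 * c * a3 ^ 2 * b1 ^ 2 * b3
    - t ^ 2 * a2 * a3 * b1 * b3 * c1 * c2, ?_⟩ <;>
  simp only [jac] <;> ring

end Model

end SelAvg.FF.T3
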