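import Pool.Agent.H5T.Mod
import Pool.Agent.H5T.LangS

/-!
Singular points of plane cubics with vanishing discriminant.
-/

namespace SelAvg.FF.T3

open WeierstrassCurve Matrix Polynomial

section Wei

variable {K : Type*} [Field K] [IsAlgClosed K]

lemma lg_quad {a : K} (ha : a ≠ 0) (b c : K) : ∃ x, a * x ^ 2 + b * x + c = 0 := by
  obtain ⟨x, hx⟩ := IsAlgClosed.exists_root (C a * X ^ 2 + C b * X + C c : K[X]) (by
    rw [degree_quadratic ha]; norm_num)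
  exact ⟨x, by simpa using hx⟩

lemma lg_cub {a : K} (ha : a ≠ 0) (b c d : K) : ∃ x, a * x ^ 3 + b * x ^ 2 + c * x + d = 0 := by
  obtain ⟨x, hx⟩ := IsAlgClosed.exists_root (C a * X ^ 3 + C b * X ^ 2 + C c * X + C d : K[X]) (by
    rw [degree_cubic ha]; norm_num)
  exact ⟨x, by simpa using hx⟩

lemma lg_double (h2 : (2 : K) ≠ 0) (a b c : K)
    (h : -a ^ 2 * (a * c - b ^ 2) - 32 * b ^ 3 - 108 * c ^ 2 + 36 * a * b * c = 0) :
    ∃ x, 4 * x ^ 3 + a * x ^ 2 + 2 * b * x + c = 0 ∧ 6 * x ^ 2 + a * x + b = 0 := by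
  by_cases hc : a ^ 2 - 24 * b = 0
  · by_cases h3 : (3 : K) = 0
    · have ha : a = 0 := pow_eq_zero_iff two_ne_zero |>.1 (by linear_combination hc + 8 * b * h3)
      subst ha
      have hb : b = 0 := pow_eq_zero_iff three_ne_zero |>.1 (by
        linear_combination h + (11 * b ^ 3 + 36 * c ^ 2) * h3)
      subst hb
      obtain ⟨x, hx⟩ := IsAlgClosed.exists_pow_nat_eq (-c) (n := 3) (by norm_num)
      exact ⟨x, by linear_combination hx + x ^ 3 * h3, by linear_combination 2 * x ^ 2 * h3⟩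
    · have h6 : -a ^ 3 + 36 * a * b - 216 * c = 0 := pow_eq_zero_iff two_ne_zero |>.1 (by
        linear_combination (a ^ 2 - 24 * b) ^ 2 * hc - 432 * h)
      have h12 : (2 : K) ^ 2 * 3 ≠ 0 := mul_ne_zero (pow_ne_zero 2 h2) h3
      obtain ⟨x, hx⟩ : ∃ x, 2 ^ 2 * 3 * x = -a := ⟨_ / _, mul_div_cancel₀ _ h12⟩
      obtain rfl : a = -(12 * x) := by linear_combination hx
      refine ⟨x, mul_left_cancel₀ (pow_ne_zero 3 (mul_ne_zero h2 h3)) ?_,
        mul_left_cancel₀ (mul_ne_zero h2 h12) ?_⟩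
      · linear_combination -h6
      · linear_combination -hc
  · obtain ⟨x, hx⟩ : ∃ x, (a ^ 2 - 24 * b) * x = 18 * c - a * b := ⟨_ / _, mul_div_cancel₀ _ hc⟩
    refine ⟨x, mul_left_cancel₀ (pow_ne_zero 3 hc) ?_, mul_left_cancel₀ (pow_ne_zero 2 hc) ?_⟩
    · have e : ∀ u : K, u ^ 3 * (4 * x ^ 3 + a * x ^ 2 + 2 * b * x + c) =
          4 * (u * x) ^ 3 + a * u * (u * x) ^ 2 + 2 * b * u ^ 2 * (u * x) + c * u ^ 3 :=
        fun u => by ring
      rw [e, hx]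
      linear_combination (-a ^ 3 + 36 * a * b - 216 * c) * h
    · have e : ∀ u : K, u ^ 2 * (6 * x ^ 2 + a * x + b) =
          6 * (u * x) ^ 2 + a * u * (u * x) + b * u ^ 2 := fun u => by ring
      rw [e, hx]
      linear_combination -18 * h

/-- a singular Weierstrass equation over an algebraically closed field has a singular point -/
theorem lg_sing {W : WeierstrassCurve K} (h : W.Δ = 0) :
    ∃ x y, wF W x y = 0 ∧ dX W x y = 0 ∧ dY W x y = 0 := by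
  by_cases h2 : (2 : K) = 0
  · by_cases h1 : W.a₁ = 0
    · have e2 : W.b₂ = 0 := by
        rw [b₂, h1]
        linear_combination 2 * W.a₂ * h2
      have e4 : W.b₄ = 0 := by
        rw [b₄, h1]
        linear_combination W.a₄ * h2
      have e6 : W.b₆ = W.a₃ ^ 2 := by
        rw [b₆]
        linear_combination 2 * W.a₆ * h2
      rw [Δ, e2, e4, e6] at h
      have h3 : W.a₃ = 0 := pow_eq_zero_iff (four_ne_zero) |>.1 (by
        linear_combination -h - 13 * W.a₃ ^ 4 * h2)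
      obtain ⟨x, hx⟩ := IsAlgClosed.exists_pow_nat_eq W.a₄ (n := 2) (by norm_num)
      obtain ⟨y, hy⟩ := IsAlgClosed.exists_pow_nat_eq (x ^ 3 + W.a₂ * x ^ 2 + W.a₄ * x + W.a₆)
        (n := 2) (by norm_num)
      refine ⟨x, y, ?_, ?_, ?_⟩
      · rw [wF, h1, h3]
        linear_combination hy
      · rw [dX, h1]
        linear_combination -3 * hx - (W.a₂ * x + 2 * W.a₄) * h2
      · rw [dY, h1, h3]
        linear_combination y * h2
    · obtain ⟨x, hx⟩ : ∃ x, W.a₁ * x = W.a₃ := ⟨W.a₃ / W.a₁, mul_div_cancel₀ _ h1⟩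
      obtain ⟨y, hy⟩ : ∃ y, W.a₁ * y = x ^ 2 + W.a₄ := ⟨_ / W.a₁, mul_div_cancel₀ _ h1⟩
      have hX : dX W x y = 0 := by
        rw [dX]
        linear_combination hy - (x ^ 2 + W.a₂ * x) * h2
      have hY : dY W x y = 0 := by
        rw [dY]
        linear_combination hx + (y + W.a₃) * h2
      refine ⟨x, y, ?_, hX, hY⟩
      have e0 : (wsh x 0 y • W).Δ = W.Δ := by
        rw [variableChange_Δ]
        simp [wsh]
      have e : (wsh x 0 y • W).Δ = -(wsh x 0 y • W).b₂ ^ 3 * (wsh x 0 y • W).a₆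
          - 432 * (wsh x 0 y • W).a₆ ^ 2 := by
        rw [Δ, b₂, b₄, b₆, b₈, wsh_a₃, hY, wsh_a₄, hX]
        ring
      have e1 : (wsh x 0 y • W).a₁ = W.a₁ := by simp [wsh, variableChange_def]
      have e2 : (wsh x 0 y • W).b₂ = W.a₁ ^ 2 := by
        rw [b₂, e1]
        linear_combination 2 * (wsh x 0 y • W).a₂ * h2
      rw [e0, h, wsh_a₆, e2] at e
      refine (mul_eq_zero.1 (?_ : W.a₁ ^ 6 * wF W x y = 0)).resolve_left (pow_ne_zero 6 h1)
      linear_combination -e + 216 * wF W x y ^ 2 * h2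
  · obtain ⟨x, h3, h4⟩ := lg_double h2 W.b₂ W.b₄ W.b₆ (by
      rw [Δ] at h
      linear_combination 4 * h + W.b₂ ^ 2 * W.b_relation)
    obtain ⟨y, hy⟩ : ∃ y, 2 * y = -(W.a₁ * x + W.a₃) := ⟨_ / 2, mul_div_cancel₀ _ h2⟩
    rw [b₂, b₄] at h3 h4
    rw [b₆] at h3
    refine ⟨x, y, mul_left_cancel₀ (pow_ne_zero 2 h2) ?_, mul_left_cancel₀ h2 ?_, ?_⟩
    · rw [wF]
      linear_combination (2 * y + W.a₁ * x + W.a₃) * hy - h3
    · rw [dX]
      linear_combination W.a₁ * hy - h4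
    · rw [dY]
      linear_combination hy

end Wei

namespace Model

section Ring

variable {R : Type*} [CommRing R]

lemma lg_Delta_subst (M : Matrix (Fin 3) (Fin 3) R) (f : Model R) :
    (f.subst M).jac.Δ = M.det ^ 12 * f.jac.Δ := by
  have e : ∀ (u : R) (W : WeierstrassCurve R), (wsc u W).Δ = u ^ 12 * W.Δ := fun u W => by
    simp only [wsc, Δ, b₂, b₄, b₆, b₈]; ring
  rw [jac_subst, variableChange_Δ, sh_u, e]
  simp

end Ring

variable {L : Type*} [Field L]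

lemma lg_not_smooth (f : Model L) (Q : Pt L) : ¬f.Smooth Q ↔ ∀ r, f.pol Q r = 0 := by
  simp only [Smooth, not_or, not_not]
  refine ⟨fun ⟨h1, h2, h3⟩ r => by simp [pol, h1, h2, h3], fun h => ⟨?_, ?_, ?_⟩⟩
  · simpa [pol] using h ![1, 0, 0]
  · simpa [pol] using h ![0, 1, 0]
  · simpa [pol] using h ![0, 0, 1]

lemma lg_on_subst {M : Matrix (Fin 3) (Fin 3) L} (hM : M.det ≠ 0) {f : Model L} {Q : Pt L}
    (h : (f.subst M).On Q) : f.On (Q ᵥ* M) :=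
  ⟨fun e => h.prim (eq_zero_of_vecMul_eq_zero hM e), by rw [← F_subst, h.eq]⟩

lemma lg_smooth_subst {M : Matrix (Fin 3) (Fin 3) L} (hM : M.det ≠ 0) (f : Model L) (Q : Pt L) :
    (f.subst M).Smooth Q ↔ f.Smooth (Q ᵥ* M) := by
  rw [← not_iff_not, lg_not_smooth, lg_not_smooth]
  refine ⟨fun h r => ?_, fun h r => by rw [pol_subst, h]⟩
  have := h (r ᵥ* M⁻¹)
  rwa [pol_subst, vecMul_vecMul, nonsing_inv_mul _ (Ne.isUnit hM), vecMul_one] at this

/-- two independent vectors are the first rows of an invertible matrix -/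
lemma lg_two_rows {Q Q' : Pt L}
    (h : Q 1 * Q' 2 - Q 2 * Q' 1 ≠ 0 ∨ Q 2 * Q' 0 - Q 0 * Q' 2 ≠ 0 ∨ Q 0 * Q' 1 - Q 1 * Q' 0 ≠ 0) :
    ∃ M : Matrix (Fin 3) (Fin 3) L, M.det ≠ 0 ∧ M 0 = Q ∧ M 1 = Q' := by
  have key : ∀ r : Pt L, (Matrix.of ![Q, Q', r]).det = r 0 * (Q 1 * Q' 2 - Q 2 * Q' 1)
      + r 1 * (Q 2 * Q' 0 - Q 0 * Q' 2) + r 2 * (Q 0 * Q' 1 - Q 1 * Q' 0) := fun r => by
    simp [det_fin_three]; ring
  rcases h with h | h | h
  · exact ⟨Matrix.of ![Q, Q', ![1, 0, 0]], by rw [key]; simpa using h, rfl, rfl⟩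
  · exact ⟨Matrix.of ![Q, Q', ![0, 1, 0]], by rw [key]; simpa using h, rfl, rfl⟩
  · exact ⟨Matrix.of ![Q, Q', ![0, 0, 1]], by rw [key]; simpa using h, rfl, rfl⟩

lemma lg_coord {Q : Pt L} (h : Q ≠ 0) : Q 0 ≠ 0 ∨ Q 1 ≠ 0 ∨ Q 2 ≠ 0 := by
  by_contra hc
  simp only [not_or, not_not] at hc
  refine h (funext fun i => ?_)
  fin_cases i
  exacts [hc.1, hc.2.1, hc.2.2]

lemma lg_one_row {Q : Pt L} (h : Q ≠ 0) :
    ∃ M : Matrix (Fin 3) (Fin 3) L, M.det ≠ 0 ∧ M 0 = Q := by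
  rcases lg_coord h with h | h | h
  · obtain ⟨M, h1, h2, -⟩ := lg_two_rows (Q := Q) (Q' := ![0, 1, 0]) (by simp [h])
    exact ⟨M, h1, h2⟩
  · obtain ⟨M, h1, h2, -⟩ := lg_two_rows (Q := Q) (Q' := ![0, 0, 1]) (by simp [h])
    exact ⟨M, h1, h2⟩
  · obtain ⟨M, h1, h2, -⟩ := lg_two_rows (Q := Q) (Q' := ![1, 0, 0]) (by simp [h])
    exact ⟨M, h1, h2⟩

/-- a smooth point can be moved to standard position -/
lemma lg_std {f : Model L} {Q : Pt L} (hQ : f.On Q) (hs : f.Smooth Q) :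
    ∃ M : Matrix (Fin 3) (Fin 3) L, M.det ≠ 0 ∧ (f.subst M).a = 0 ∧ (f.subst M).a2 = 0 ∧
      (f.subst M).a3 ≠ 0 := by
  obtain ⟨M, hM, h0⟩ := lg_one_row hQ.prim
  have e0 : Pt.std ᵥ* M = Q := by
    rw [← h0]; funext j; simp [vecMul, dotProduct, Fin.sum_univ_three]
  have ha : (f.subst M).a = 0 := by rw [subst_a, h0, hQ.eq]
  rw [← e0, ← lg_smooth_subst hM] at hs
  suffices ∃ N : Matrix (Fin 3) (Fin 3) L, N.det ≠ 0 ∧ ((f.subst M).subst N).a = 0 ∧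
      ((f.subst M).subst N).a2 = 0 ∧ ((f.subst M).subst N).a3 ≠ 0 by
    obtain ⟨N, hN, h⟩ := this
    rw [subst_subst] at h
    exact ⟨N * M, by rw [det_mul]; exact mul_ne_zero hN hM, h⟩
  generalize f.subst M = g at ha hs
  simp only [Smooth, Fx_std, Fy_std, Fz_std, ha, mul_zero, ne_eq, not_true_eq_false,
    false_or] at hs
  by_cases h3 : g.a3 = 0
  · have h2 : g.a2 ≠ 0 := by simpa [h3] using hs
    refine ⟨!![1, 0, 0; 0, 0, 1; 0, 1, 0], by simp [det_fin_three], ?_, ?_, ?_⟩ <;>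
      simp [subst, F, pol, Fx, Fy, Fz, ha, h3, h2]
  · refine ⟨!![1, 0, 0; 0, g.a3, -g.a2; 0, 0, 1], by simp [det_fin_three, h3], ?_, ?_, ?_⟩ <;>
      simp [subst, F, pol, Fx, Fy, Fz, ha, h3]
    ring

lemma lg_affine {f : Model L} {x y : L} (hF : f.F ![x, y, 1] = 0) (hx : f.Fx ![x, y, 1] = 0)
    (hy : f.Fy ![x, y, 1] = 0) : ∃ Q, f.On Q ∧ ¬f.Smooth Q := by
  refine ⟨![x, y, 1], ⟨fun e => by simpa using congrFun e 2, hF⟩, ?_⟩
  have e := f.euler ![x, y, 1]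
  rw [pol, hx, hy, hF] at e
  simp only [Smooth, not_or, not_not]
  exact ⟨hx, hy, by simpa using e⟩

variable {K : Type*} [Field K] [IsAlgClosed K]

lemma lg_exists_on (f : Model K) : ∃ Q, f.On Q := by
  by_cases ha : f.a = 0
  · exact ⟨Pt.std, fun e => by simpa using congrFun e 0, by simp [ha]⟩
  · obtain ⟨x, hx⟩ := lg_cub ha f.a2 f.b1 f.b
    exact ⟨![x, 1, 0], fun e => by simpa using congrFun e 1, by
      simp only [F, cons_val]; linear_combination hx⟩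

lemma lg_sing_nf {f : Model K} (ha : f.a = 0) (ha2 : f.a2 = 0) (hb : f.b = 0) (hb3 : f.b3 = 0)
    (h3 : f.a3 ≠ 0) (h1 : f.b1 ≠ 0) (h : f.jac.Δ = 0) : ∃ Q, f.On Q ∧ ¬f.Smooth Q := by
  obtain ⟨X, Y, e0, eX, eY⟩ := lg_sing h
  obtain ⟨a, b, c, a2, a3, b1, b3, c1, c2, m⟩ := f
  simp only at ha ha2 hb hb3 h3 h1
  subst ha ha2 hb hb3
  simp only [wF, dX, dY, jac] at e0 eX eY
  by_cases hX : X = 0
  · subst hX
    have hY : Y = 0 := pow_eq_zero_iff two_ne_zero |>.1 (by linear_combination Y * eY - e0)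
    subst hY
    have hc2 : c2 = 0 := mul_left_cancel₀ (mul_ne_zero h3 h1) (by linear_combination -eY)
    have hc : c = 0 :=
      mul_left_cancel₀ (mul_ne_zero h3 (pow_ne_zero 2 h1)) (by linear_combination -eX)
    subst hc2 hc
    obtain ⟨y, hy⟩ := lg_quad h1 m c1
    refine lg_affine (x := 0) (y := y) ?_ ?_ ?_ <;> simp only [F, Fx, Fy, cons_val]
    · ring
    · linear_combination hy
    · ring
  · obtain ⟨x, rfl⟩ : ∃ x, X = -(a3 * b1) * x :=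
      ⟨X / -(a3 * b1), (mul_div_cancel₀ _ (neg_ne_zero.2 (mul_ne_zero h3 h1))).symm⟩
    have hx : x ≠ 0 := fun e => hX (by rw [e, mul_zero])
    have hk : a3 * b1 ^ 2 * x ≠ 0 := mul_ne_zero (mul_ne_zero h3 (pow_ne_zero 2 h1)) hx
    obtain ⟨y, rfl⟩ : ∃ y, Y = -(a3 * b1 ^ 2 * x) * y :=
      ⟨Y / -(a3 * b1 ^ 2 * x), (mul_div_cancel₀ _ (neg_ne_zero.2 hk)).symm⟩
    have hk' : a3 * b1 * (a3 * b1 ^ 2 * x) ≠ 0 := mul_ne_zero (mul_ne_zero h3 h1) hk
    refine lg_affine (x := x) (y := y) (mul_left_cancel₀ hk' ?_)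
      (mul_left_cancel₀ (mul_ne_zero hx hk') ?_) (mul_left_cancel₀ (mul_ne_zero h3 h1) ?_) <;>
      simp only [F, Fx, Fy, cons_val]
    · linear_combination e0
    · linear_combination -(a3 * b1) * x * eX - (a3 * b1 ^ 2 * x) * y * eY - e0
    · linear_combination -eY

lemma lg_sing_wei {f : Model K} (ha : f.a = 0) (ha2 : f.a2 = 0) (h1 : f.b1 = 0)
    (h3 : f.a3 ≠ 0) (hb : f.b ≠ 0) (h : f.jac.Δ = 0) : ∃ Q, f.On Q ∧ ¬f.Smooth Q := by
  obtain ⟨X, Y, e0, eX, eY⟩ := lg_sing h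
  obtain ⟨a, b, c, a2, a3, b1, b3, c1, c2, m⟩ := f
  simp only at ha ha2 hb h3 h1
  subst ha ha2 h1
  simp only [wF, dX, dY, jac] at e0 eX eY
  have hk : b * a3 ≠ 0 := mul_ne_zero hb h3
  obtain ⟨y, rfl⟩ : ∃ y, X = -(b * a3) * y :=
    ⟨X / -(b * a3), (mul_div_cancel₀ _ (neg_ne_zero.2 hk)).symm⟩
  obtain ⟨x, rfl⟩ : ∃ x, Y = -(b * a3 * a3) * x :=
    ⟨Y / -(b * a3 * a3), (mul_div_cancel₀ _ (neg_ne_zero.2 (mul_ne_zero hk h3))).symm⟩
  refine lg_affine (x := x) (y := y) (mul_left_cancel₀ (mul_ne_zero hk (mul_ne_zero hk h3)) ?_)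
    (mul_left_cancel₀ hk ?_) (mul_left_cancel₀ (mul_ne_zero hk h3) ?_) <;>
    simp only [F, Fx, Fy, cons_val]
  · linear_combination e0
  · linear_combination -eY
  · linear_combination -eX

/-- a cubic with vanishing discriminant over an algebraically closed field has a singular point -/
theorem exists_sing_pt {f : Model K} (h : f.jac.Δ = 0) : ∃ Q, f.On Q ∧ ¬f.Smooth Q := by
  have back : ∀ (g : Model K) (M : Matrix (Fin 3) (Fin 3) K), M.det ≠ 0 →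
      (∃ Q, (g.subst M).On Q ∧ ¬(g.subst M).Smooth Q) → ∃ Q, g.On Q ∧ ¬g.Smooth Q :=
    fun g M hM ⟨Q, h1, h2⟩ => ⟨_, lg_on_subst hM h1, by rwa [← lg_smooth_subst hM]⟩
  obtain ⟨Q, hQ⟩ := lg_exists_on f
  by_cases hs : f.Smooth Q
  swap
  · exact ⟨Q, hQ, hs⟩
  obtain ⟨M, hM, ha, ha2, h3⟩ := lg_std hQ hs
  refine back f M hM ?_
  have hΔ : (f.subst M).jac.Δ = 0 := by rw [lg_Delta_subst, h, mul_zero]
  generalize f.subst M = g at ha ha2 h3 hΔ
  by_cases h1 : g.b1 = 0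
  · by_cases hb : g.b = 0
    · obtain ⟨x, hx⟩ := lg_quad h3 g.m g.b3
      refine ⟨![x, 1, 0], ⟨fun e => by simpa using congrFun e 1, by simp [F, ha, ha2, h1, hb]⟩, ?_⟩
      simp only [Smooth, not_or, not_not]
      refine ⟨by simp [Fx, ha, ha2, h1], by simp [Fy, ha2, h1, hb], ?_⟩
      simp only [Fz, cons_val]
      linear_combination hx
    · exact lg_sing_wei ha ha2 h1 h3 hb hΔ
  · obtain ⟨l, hl⟩ : ∃ l, g.b1 * l = -g.b := ⟨_ / _, mul_div_cancel₀ _ h1⟩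
    obtain ⟨n, hn⟩ : ∃ n, g.b1 * n = -(g.a3 * l ^ 2 + g.b3 + g.m * l) :=
      ⟨_ / _, mul_div_cancel₀ _ h1⟩
    refine back g !![1, 0, 0; l, 1, 0; n, 0, 1] (by simp [det_fin_three])
      (lg_sing_nf ?_ ?_ ?_ ?_ ?_ ?_ (by rw [lg_Delta_subst, hΔ, mul_zero])) <;>
      simp [subst, F, pol, Fx, Fy, Fz, ha, ha2, h3, h1]
    · linear_combination hl
    · linear_combination hn

end Model

end SelAvg.FF.T3
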