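import Pool.Agent.H5T.LocP

/-! Row MASS: the local mass formula for ternary cubics. -/

namespace SelAvg.FF.T3

open WeierstrassCurve
open scoped Classical

variable {R κ : Type*} [CommRing R] [Field κ] [Fintype R] [Fintype κ] {θ : R →+* κ}

/-- good standard position modulo the maximal ideal -/
def StdMod (θ : R →+* κ) (f : Model R) : Prop :=
  θ f.a = 0 ∧ θ f.a2 = 0 ∧ θ f.a3 ≠ 0 ∧ (θ f.b1 ≠ 0 ∨ θ f.b ≠ 0)

omit [Fintype R] [Fintype κ] in
lemma mass1_mover (h : IsResidue θ) (p : (κ × κ) ⊕ Option κ) :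
    ∃ g : G R, (G.map θ g).pt Pt.std = npt p := by
  have key : ∀ Q : Pt R, (∃ i, IsUnit (Q i)) → ∃ g : G R, (G.map θ g).pt Pt.std = Q.map θ :=
    fun Q hQ => by
      obtain ⟨g, hg⟩ := exists_mover_pt hQ
      exact ⟨g, by rw [← hg, ← G.map_pt, Pt.map_std]⟩
  obtain ⟨y, z⟩ | _ | z := p
  · obtain ⟨a, rfl⟩ := h.surj y
    obtain ⟨b, rfl⟩ := h.surj z
    obtain ⟨g, hg⟩ := key ![1, a, b] ⟨0, by simp⟩
    exact ⟨g, hg.trans (by funext i; fin_cases i <;> simp [npt])⟩
  · obtain ⟨g, hg⟩ := key ![0, 0, 1] ⟨2, by simp⟩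
    exact ⟨g, hg.trans (by funext i; fin_cases i <;> simp [npt])⟩
  · obtain ⟨b, rfl⟩ := h.surj z
    obtain ⟨g, hg⟩ := key ![0, 1, b] ⟨1, by simp⟩
    exact ⟨g, hg.trans (by funext i; fin_cases i <;> simp [npt])⟩

omit [Fintype κ] in
lemma mass1_point (h : IsResidue θ) (Ψ : WeierstrassCurve R → ℝ)
    (hΨ : ∀ (C : VariableChange R) W, Ψ (C • W) = Ψ W) (p : (κ × κ) ⊕ Option κ) :
    ∑ f : Model R, (if (f.map θ).Good (npt p) then Ψ f.jac else 0) =
      ∑ f : Model R with (f.map θ).Good Pt.std, Ψ f.jac := by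
  obtain ⟨g, hg⟩ := mass1_mover h p
  rw [Finset.sum_filter, ← Equiv.sum_comp (MulAction.toPerm g)
    fun f : Model R => if (f.map θ).Good Pt.std then Ψ f.jac else 0]
  refine Finset.sum_congr rfl fun f _ => ?_
  rw [MulAction.toPerm_apply, G.jac_smul, hΨ]
  refine if_congr ?_ rfl rfl
  rw [← hg, Model.good_pt, ← G.map_smul]

/-- Port of `SelAvg.mass_step1`: lift `npt p` to `R`, `exists_mover_pt`, `Model.good_pt`,
substitute `f = g⁻¹ • f'`. -/
theorem mass_points (h : IsResidue θ) (Ψ : WeierstrassCurve R → ℝ)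
    (hΨ : ∀ (C : VariableChange R) W, Ψ (C • W) = Ψ W) :
    ∑ f : Model R, (nGood (f.map θ) : ℝ) * Ψ f.jac =
      ((Fintype.card κ : ℝ) ^ 2 + Fintype.card κ + 1) *
        ∑ f : Model R with (f.map θ).Good Pt.std, Ψ f.jac := by
  have h1 : ∀ f : Model R, (nGood (f.map θ) : ℝ) * Ψ f.jac = ∑ p : (κ × κ) ⊕ Option κ,
      if (f.map θ).Good (npt p) then Ψ f.jac else 0 := fun f => by
    rw [nGood, Nat.card_eq_fintype_card, Fintype.card_subtype, ← Finset.sum_filter,
      Finset.sum_const, nsmul_eq_mul]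
  simp only [h1]
  rw [Finset.sum_comm]
  simp only [mass1_point h Ψ hΨ]
  rw [Finset.sum_const, Finset.card_univ, Fintype.card_sum, Fintype.card_prod,
    Fintype.card_option, nsmul_eq_mul]
  push_cast
  ring

/-- the matrices that fix the standard point and move the line `z = 0` -/
def mass1_mat {A : Type*} [CommRing A] : Option A → Matrix (Fin 3) (Fin 3) A
  | some s => !![1, 0, 0; 0, 1, s; 0, 0, 1]
  | none => !![1, 0, 0; 0, 0, 1; 0, 1, 0]

lemma mass1_mat_mul {A : Type*} [CommRing A] (o : Option A) :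
    mass1_mat o * mass1_mat (o.map fun s => -s) = 1 := by
  obtain _ | s := o <;> ext i j <;> fin_cases i <;> fin_cases j <;>
    simp [mass1_mat, Matrix.mul_apply, Fin.sum_univ_three]

lemma mass1_mat_mul' {A : Type*} [CommRing A] (o : Option A) :
    mass1_mat (o.map fun s => -s) * mass1_mat o = 1 := by
  obtain _ | s := o <;> ext i j <;> fin_cases i <;> fin_cases j <;>
    simp [mass1_mat, Matrix.mul_apply, Fin.sum_univ_three]

/-- the corresponding group elements -/
def mass1_k {A : Type*} [CommRing A] (o : Option A) : G A :=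
  G.ofM ⟨mass1_mat o, mass1_mat (o.map fun s => -s), mass1_mat_mul o, mass1_mat_mul' o⟩

lemma mass1_k_e {A : Type*} [CommRing A] (o : Option A) : (mass1_k o).e = mass1_mat o := rfl

lemma mass1_k_smul {A : Type*} [CommRing A] (o : Option A) (f : Model A) :
    mass1_k o • f = f.subst (mass1_mat o) := by
  rw [G.smul_def, mass1_k_e]
  simp [mass1_k, Model.scale_one]

lemma mass1_k_pt {A : Type*} [CommRing A] (o : Option A) : (mass1_k o).pt Pt.std = Pt.std := by
  rw [G.pt_std, mass1_k_e]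
  obtain _ | s := o <;> funext i <;> fin_cases i <;> simp [mass1_mat]

omit [Fintype R] [Fintype κ] in
lemma mass1_k_map (o : Option R) (f : Model R) :
    (mass1_k o • f).map θ = mass1_k (o.map θ) • f.map θ := by
  rw [mass1_k_smul, mass1_k_smul, Model.map_subst]
  congr 1
  obtain _ | s := o <;> ext i j <;> fin_cases i <;> fin_cases j <;> simp [mass1_mat]

omit [Fintype κ] in
lemma mass1_coef (f : Model κ) :
    (∀ o : Option κ, (mass1_k o • f).a = f.a) ∧
    (∀ s : κ, (mass1_k (some s) • f).a2 = f.a2 + s * f.a3) ∧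
    (∀ s : κ, (mass1_k (some s) • f).a3 = f.a3) ∧
    (mass1_k (none : Option κ) • f).a2 = f.a3 := by
  refine ⟨fun o => ?_, fun s => ?_, fun s => ?_, ?_⟩
  · obtain _ | s := o <;> simp [mass1_k_smul, Model.subst, mass1_mat, Model.F]
  all_goals
    simp [mass1_k_smul, Model.subst, mass1_mat, Model.pol, Model.Fx, Model.Fy, Model.Fz]

lemma mass1_split (f : Model κ) (x : ℝ) :
    (if f.Good Pt.std then x else 0) =
      ∑ o : Option κ, if StdMod (RingHom.id κ) (mass1_k o • f) then x else 0 := by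
  obtain ⟨c1, c2, c3, c4⟩ := mass1_coef f
  have hg : ∀ o : Option κ, f.Good Pt.std ↔ (mass1_k o • f).Good Pt.std := fun o => by
    rw [← Model.good_pt, mass1_k_pt]
  split_ifs with hf
  · have ha : f.a = 0 := by simpa [Model.F] using hf.on.eq
    have hex : ∃ o : Option κ, (mass1_k o • f).a2 = 0 := by
      by_cases h3 : f.a3 = 0
      · exact ⟨none, c4.trans h3⟩
      · exact ⟨some (-f.a2 / f.a3), by rw [c2]; field_simp; ring⟩
    obtain ⟨o, ho⟩ := hex
    have hs : (mass1_k o • f).Std := ⟨(c1 o).trans ha, ho⟩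
    have h1 : StdMod (RingHom.id κ) (mass1_k o • f) :=
      ⟨hs.a, hs.a2, (Model.good_std hs).1 ((hg o).1 hf)⟩
    rw [Finset.sum_eq_single o, if_pos h1]
    · intro o' _ hne
      refine if_neg fun h2 => hne ?_
      obtain ⟨-, p2, p3, -⟩ := h1
      obtain ⟨-, q2, q3, -⟩ := h2
      simp only [RingHom.id_apply] at p2 p3 q2 q3
      obtain _ | s := o <;> obtain _ | s' := o'
      · rfl
      · exact absurd (c4.symm.trans p2) ((c3 s') ▸ q3)
      · exact absurd (c4.symm.trans q2) ((c3 s) ▸ p3)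
      · rw [c2] at p2 q2
        rw [c3] at p3
        have : (s' - s) * f.a3 = 0 := by linear_combination q2 - p2
        rw [sub_eq_zero.1 ((mul_eq_zero.1 this).resolve_right p3)]
    · intro h; exact absurd (Finset.mem_univ _) h
  · symm
    refine Finset.sum_eq_zero fun o _ => if_neg fun h1 => hf ?_
    exact (hg o).2 ((Model.good_std ⟨h1.1, h1.2.1⟩).2 h1.2.2)

/-- Sort by the tangent line.  For `o : Option κ` let `k o` be a lift of the matrix with rows
`(1, 0, 0), (0, 1, s), (0, 0, 1)` (`o = some s`) or `(1, 0, 0), (0, 0, 1), (0, 1, 0)` (`o = none`).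
`Good std` holds iff `StdMod θ (k o • f)` for some `o`, and this `o` is unique (the second row is
the direction `w` with `a2 w₁ + a3 w₂ = 0`; `Model.good_pt`, `Model.good_std`). -/
theorem mass_lines (h : IsResidue θ) (Ψ : WeierstrassCurve R → ℝ)
    (hΨ : ∀ (C : VariableChange R) W, Ψ (C • W) = Ψ W) :
    ∑ f : Model R with (f.map θ).Good Pt.std, Ψ f.jac =
      ((Fintype.card κ : ℝ) + 1) * ∑ f : Model R with StdMod θ f, Ψ f.jac := by
  have h1 : ∀ o : Option κ, ∑ f : Model R,
      (if StdMod (RingHom.id κ) (mass1_k o • f.map θ) then Ψ f.jac else 0) =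
      ∑ f : Model R with StdMod θ f, Ψ f.jac := by
    intro o
    obtain ⟨o', rfl⟩ : ∃ o' : Option R, o'.map θ = o := by
      obtain _ | s := o
      · exact ⟨none, rfl⟩
      · obtain ⟨r, rfl⟩ := h.surj s
        exact ⟨some r, rfl⟩
    rw [Finset.sum_filter, ← Equiv.sum_comp (MulAction.toPerm (mass1_k o'))
      fun f : Model R => if StdMod θ f then Ψ f.jac else 0]
    refine Finset.sum_congr rfl fun f _ => ?_
    rw [MulAction.toPerm_apply, G.jac_smul, hΨ, ← mass1_k_map]
    exact if_congr Iff.rfl rfl rfl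
  rw [Finset.sum_filter]
  simp only [mass1_split]
  rw [Finset.sum_comm]
  simp only [h1]
  rw [Finset.sum_const, Finset.card_univ, Fintype.card_option, nsmul_eq_mul]
  push_cast
  ring

/-- the unipotent matrix with last column `(t, s, 1)` -/
noncomputable def mass2U (t s : R) : G R :=
  G.ofM (Matrix.GeneralLinearGroup.mk'' !![1, 0, t; 0, 1, s; 0, 0, 1] (by
    simp [Matrix.det_fin_three]))

omit [Fintype R] in
lemma mass2_smul (t s : R) (f : Model R) :
    mass2U t s • f = f.subst !![1, 0, t; 0, 1, s; 0, 0, 1] := by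
  exact (Model.scale_one _).symm.trans (G.scale_smul (mass2U t s) f)

omit [Fintype R] in
lemma mass2_a (t s : R) (f : Model R) :
    (mass2U t s • f).a = f.a + f.a3 * t + f.c1 * t ^ 2 + f.c * t ^ 3 := by
  simp [mass2_smul, Model.subst_a, Model.F]
  ring

omit [Fintype R] in
lemma mass2_a2 (t s : R) (f : Model R) : (mass2U t s • f).a2 =
    f.a2 + f.m * t + f.c2 * t ^ 2 + s * (f.a3 + 2 * f.c1 * t + 3 * f.c * t ^ 2) := by
  simp [mass2_smul, Model.subst_a2, Model.pol, Model.Fx, Model.Fy, Model.Fz]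
  ring

omit [Fintype R] [Fintype κ] in
lemma mass2_mod {t s : R} (ht : θ t = 0) (hs : θ s = 0) (f : Model R) :
    StdMod θ (mass2U t s • f) ↔ StdMod θ f := by
  have h1 : G.map θ (mass2U t s) = 1 := by
    refine G.ext ?_ (by simp [mass2U])
    ext i j
    change θ (!![1, 0, t; 0, 1, s; 0, 0, 1] i j) = (1 : Matrix (Fin 3) (Fin 3) κ) i j
    fin_cases i <;> fin_cases j <;> simp [ht, hs]
  have h2 : (mass2U t s • f).map θ = f.map θ := by rw [G.map_smul, h1, one_smul]
  have e := Model.ext_iff.1 h2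
  simp only [Model.map_a, Model.map_b, Model.map_a2, Model.map_a3, Model.map_b1] at e
  unfold StdMod
  rw [e.1, e.2.1, e.2.2.2.1, e.2.2.2.2.1, e.2.2.2.2.2.1]

omit [Fintype R] [Fintype κ] in
lemma mass2_cub (h : IsResidue θ) {f : Model R} (h3 : θ f.a3 ≠ 0) {t t' : R} (ht : θ t = 0)
    (ht' : θ t' = 0) (e : f.a3 * t + f.c1 * t ^ 2 + f.c * t ^ 3 =
      f.a3 * t' + f.c1 * t' ^ 2 + f.c * t' ^ 3) : t = t' := by
  have hu : IsUnit (f.a3 + f.c1 * (t + t') + f.c * (t ^ 2 + t * t' + t' ^ 2)) :=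
    (h.unit _).2 (by simpa [ht, ht'] using h3)
  exact sub_eq_zero.1 (hu.mul_right_eq_zero.1 (by linear_combination e))

omit [Fintype κ] in
lemma mass2_ex (h : IsResidue θ) {f : Model R} (hf : StdMod θ f) :
    ∃ t s, θ t = 0 ∧ θ s = 0 ∧ (mass2U t s • f).Std := by
  let F : {x : R // θ x = 0} → {x : R // θ x = 0} :=
    fun x => ⟨f.a3 * x.1 + f.c1 * x.1 ^ 2 + f.c * x.1 ^ 3, by simp [x.2]⟩
  have hF : Function.Injective F := fun x y hxy =>
    Subtype.ext (mass2_cub h hf.2.2.1 x.2 y.2 (congrArg Subtype.val hxy))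
  obtain ⟨⟨t, ht⟩, hx⟩ := Finite.surjective_of_injective hF ⟨-f.a, by simp [hf.1]⟩
  have e : f.a3 * t + f.c1 * t ^ 2 + f.c * t ^ 3 = -f.a := congrArg Subtype.val hx
  obtain ⟨v, hv⟩ := ((h.unit (f.a3 + 2 * f.c1 * t + 3 * f.c * t ^ 2)).2
    (by simpa [ht] using hf.2.2.1)).exists_right_inv
  refine ⟨t, -(v * (f.a2 + f.m * t + f.c2 * t ^ 2)), ht, by simp [ht, hf.2.1], ?_, ?_⟩
  · rw [mass2_a]; linear_combination e
  · rw [mass2_a2]; linear_combination -(f.a2 + f.m * t + f.c2 * t ^ 2) * hv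

omit [Fintype R] [Fintype κ] in
lemma mass2_uniq (h : IsResidue θ) {f : Model R} (hf : StdMod θ f) {t s t' s' : R} (ht : θ t = 0)
    (ht' : θ t' = 0) (e : (mass2U t s • f).Std) (e' : (mass2U t' s' • f).Std) :
    t = t' ∧ s = s' := by
  have a := e.a
  have a' := e'.a
  have b := e.a2
  have b' := e'.a2
  rw [mass2_a] at a a'
  rw [mass2_a2] at b b'
  obtain rfl : t = t' := mass2_cub h hf.2.2.1 ht ht' (by linear_combination a - a')
  have hu := (h.unit (f.a3 + 2 * f.c1 * t + 3 * f.c * t ^ 2)).2 (by simpa [ht] using hf.2.2.1)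
  exact ⟨rfl, hu.mul_right_cancel (by linear_combination b - b')⟩

/-- Every `f` with `StdMod θ f` is uniquely `u⁻¹ • f₀` with `f₀.a = f₀.a2 = 0` and `u` the matrix
with rows `(1, 0, t), (0, 1, s), (0, 0, 1)`, `θ t = θ s = 0`: `t` is the root of `f (1, 0, t)` in
the maximal ideal (`t ↦ a3 t + c1 t^2 + c t^3` is injective there, hence bijective), then `s`
solves `pol (1, 0, t) (0, 1, s) = 0`. -/
theorem mass_exact (h : IsResidue θ) (Ψ : WeierstrassCurve R → ℝ)
    (hΨ : ∀ (C : VariableChange R) W, Ψ (C • W) = Ψ W) :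
    ∑ f : Model R with StdMod θ f, Ψ f.jac = ((Fintype.card R : ℝ) / Fintype.card κ) ^ 2 *
      ∑ f : Model R with f.Std ∧ StdMod θ f, Ψ f.jac := by
  have key : ∑ p ∈ ((Finset.univ.filter fun x : R => θ x = 0) ×ˢ
        (Finset.univ.filter fun x : R => θ x = 0)) ×ˢ
        (Finset.univ.filter fun f : Model R => f.Std ∧ StdMod θ f), Ψ p.2.jac =
      ∑ f : Model R with StdMod θ f, Ψ f.jac := by
    refine Finset.sum_bij (fun p _ => (mass2U p.1.1 p.1.2)⁻¹ • p.2) ?_ ?_ ?_ ?_
    · intro p hp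
      simp only [Finset.mem_product, Finset.mem_filter, Finset.mem_univ, true_and] at hp ⊢
      rw [← mass2_mod hp.1.1 hp.1.2, smul_inv_smul]
      exact hp.2.2
    · rintro ⟨⟨t, s⟩, f⟩ hp ⟨⟨t', s'⟩, f'⟩ hp' e
      simp only [Finset.mem_product, Finset.mem_filter, Finset.mem_univ, true_and] at hp hp' e
      have hf : StdMod θ ((mass2U t s)⁻¹ • f) := by
        rw [← mass2_mod hp.1.1 hp.1.2, smul_inv_smul]
        exact hp.2.2
      obtain ⟨rfl, rfl⟩ := mass2_uniq h hf (s := s) (s' := s') hp.1.1 hp'.1.1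
        (by rw [smul_inv_smul]; exact hp.2.1) (by rw [e, smul_inv_smul]; exact hp'.2.1)
      rw [MulAction.injective _ e]
    · intro f hf
      simp only [Finset.mem_filter, Finset.mem_univ, true_and] at hf
      obtain ⟨t, s, ht, hs, e⟩ := mass2_ex h hf
      exact ⟨((t, s), mass2U t s • f), by simp [ht, hs, e, mass2_mod ht hs, hf], inv_smul_smul _ _⟩
    · intro p _
      rw [G.jac_smul, hΨ]
  rw [← key, Finset.sum_product]
  simp only [Finset.sum_const, Finset.card_product, nsmul_eq_mul, Nat.cast_mul, mass_card_ker h]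
  ring

/-- `f ↦ (f.a3, f.red)` is a bijection onto the pairs (unit, degree 2 model with `a = 0` and `l` or
`b` a unit), and `jac (red f) = jac f`. -/
theorem mass_red (h : IsResidue θ) (Ψ : WeierstrassCurve R → ℝ) :
    ∑ f : Model R with f.Std ∧ StdMod θ f, Ψ f.jac =
      (Fintype.card R - (Fintype.card R : ℝ) / Fintype.card κ) *
        ∑ f : SelAvg.Model R with f.a = 0 ∧ (θ f.l ≠ 0 ∨ θ f.b ≠ 0), Ψ f.jac := by
  have key : ∑ f : Model R with f.Std ∧ StdMod θ f, Ψ f.jac =
      ∑ p ∈ (Finset.univ.filter fun x : R => θ x ≠ 0) ×ˢ (Finset.univ.filter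
        fun f : SelAvg.Model R => f.a = 0 ∧ (θ f.l ≠ 0 ∨ θ f.b ≠ 0)), Ψ p.2.jac := by
    refine Finset.sum_bij (fun f _ => (f.a3, f.red)) ?_ ?_ ?_ ?_
    · intro f hf
      simp only [Finset.mem_product, Finset.mem_filter, Finset.mem_univ, true_and] at hf ⊢
      obtain ⟨-, -, -, h3, hb⟩ := hf
      refine ⟨h3, rfl, hb.imp id fun hb => ?_⟩
      rw [Model.red_b, map_neg, map_mul]
      exact neg_ne_zero.2 (mul_ne_zero h3 hb)
    · intro f hf f' hf' e
      simp only [Finset.mem_filter, Finset.mem_univ, true_and] at hf hf'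
      exact Model.eq_of_red_eq hf.1 hf'.1 ((h.unit _).2 hf.2.2.2.1) (congrArg Prod.fst e)
        (congrArg Prod.snd e)
    · rintro ⟨u, g⟩ hp
      simp only [Finset.mem_product, Finset.mem_filter, Finset.mem_univ, true_and] at hp
      obtain ⟨hu, ha, hb⟩ := hp
      obtain ⟨v, hv⟩ := ((h.unit _).2 hu).exists_right_inv
      have hv0 : θ v ≠ 0 := fun e => by
        have := congrArg θ hv
        rw [map_mul, e, mul_zero, map_one] at this
        exact zero_ne_one this
      refine ⟨⟨0, -(v * g.b), -(v * g.e), 0, u, g.l, -(v * g.c), g.n, -(v * g.d), g.m⟩, ?_, ?_⟩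
      · simp only [Finset.mem_filter, Finset.mem_univ, true_and]
        refine ⟨⟨rfl, rfl⟩, map_zero θ, map_zero θ, hu, hb.imp id fun hb => ?_⟩
        rw [map_neg, map_mul]
        exact neg_ne_zero.2 (mul_ne_zero hv0 hb)
      · refine Prod.ext rfl ?_
        ext <;> simp only [Model.red]
        · exact ha.symm
        · linear_combination g.b * hv
        · linear_combination g.c * hv
        · linear_combination g.d * hv
        · linear_combination g.e * hv
    · intro f hf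
      simp only [Finset.mem_filter, Finset.mem_univ, true_and] at hf
      rw [Model.jac_red hf.1]
  rw [key, Finset.sum_product]
  simp only [Finset.sum_const, nsmul_eq_mul, mass_card_unit h]

omit [Fintype κ] in
lemma mass3_unit (h : IsResidue θ) (Ψ : WeierstrassCurve R → ℝ)
    (hΨ : ∀ (C : VariableChange R) W, Ψ (C • W) = Ψ W) :
    ∑ f : SelAvg.Model R with f.a = 0 ∧ θ f.l ≠ 0, Ψ f.jac =
      ((Finset.univ.filter fun x : R => θ x ≠ 0).card : ℝ) *
        ∑ W : WeierstrassCurve R, (nAff W : ℝ) * Ψ W := by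
  have key : ∑ p ∈ (Finset.univ.filter fun x : R => θ x ≠ 0) ×ˢ ((Finset.univ : Finset (R × R)) ×ˢ
        (Finset.univ.filter fun W : WeierstrassCurve R => W.a₆ = 0)), Ψ p.2.2 =
      ∑ f : SelAvg.Model R with f.a = 0 ∧ θ f.l ≠ 0, Ψ f.jac := by
    refine Finset.sum_bij (fun p _ => mass1_par ((0, p.1), p.2)) ?_ ?_ ?_ ?_
    · intro p hp
      simp only [Finset.mem_product, Finset.mem_filter, Finset.mem_univ, true_and] at hp ⊢
      simp [mass1_par, SelAvg.Model.shift, SelAvg.Model.scale, hp.1]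
    · intro p hp p' hp' e
      simp only [Finset.mem_product, Finset.mem_filter, Finset.mem_univ, true_and] at hp hp'
      have := mass1_par_inj h (p := ((0, p.1), p.2)) (p' := ((0, p'.1), p'.2)) (map_zero θ) hp.1
        hp.2 (map_zero θ) hp'.2 e
      exact Prod.ext (congrArg (·.1.2) this) (congrArg (·.2) this)
    · intro f hf
      simp only [Finset.mem_filter, Finset.mem_univ, true_and] at hf
      obtain ⟨⟨⟨r, l⟩, p⟩, h0, hl, h6, e⟩ := mass1_par_surj h (f := f) (by rw [hf.1, map_zero]) hf.2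
      simp only at h0 hl h6
      have ea := (congrArg SelAvg.Model.a e).trans hf.1
      simp only [mass1_par, SelAvg.Model.shift, SelAvg.Model.scale] at ea
      have hu : IsUnit (l + r) := (h.unit _).2 (by simpa [h0] using hl)
      have hr : r = 0 := hu.mul_right_eq_zero.1 (by linear_combination -ea)
      subst hr
      exact ⟨(l, p), by simp [hl, h6], e⟩
    · intro p hp
      simp only [Finset.mem_product, Finset.mem_filter, Finset.mem_univ, true_and] at hp
      exact (mass1_par_jac h Ψ hΨ ((0, p.1), p.2) hp.1 hp.2).symm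
  rw [← key, Finset.sum_product, mass_step3 Ψ hΨ]
  simp only [Finset.sum_product (Finset.univ : Finset (R × R)), Finset.sum_const, nsmul_eq_mul,
    Finset.card_univ, Fintype.card_prod, Nat.cast_mul]
  ring

lemma mass3_nonunit (h : IsResidue θ) (Ψ : WeierstrassCurve R → ℝ) :
    ∑ f : SelAvg.Model R with f.a = 0 ∧ θ f.l = 0 ∧ θ f.b ≠ 0, Ψ f.jac =
      ((Finset.univ.filter fun x : R => θ x = 0).card : ℝ) *
        (Finset.univ.filter fun x : R => θ x ≠ 0).card * ∑ W : WeierstrassCurve R, Ψ W := by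
  have e : (Finset.univ.filter fun p : R × R × R => p.1 = 0 ∧ θ p.2.1 = 0 ∧ θ p.2.2 ≠ 0) =
      {0} ×ˢ ((Finset.univ.filter fun x : R => θ x = 0) ×ˢ
        (Finset.univ.filter fun x : R => θ x ≠ 0)) := by
    ext p
    simp only [Finset.mem_product, Finset.mem_filter, Finset.mem_univ, true_and,
      Finset.mem_singleton]
  have c : ((Finset.univ.filter fun x : R => θ x = 0).card : ℝ) *
      (Finset.univ.filter fun x : R => θ x ≠ 0).card = (Finset.univ.filter
        fun p : R × R × R => p.1 = 0 ∧ θ p.2.1 = 0 ∧ θ p.2.2 ≠ 0).card := by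
    rw [e, Finset.card_product, Finset.card_product, Finset.card_singleton, one_mul, Nat.cast_mul]
  rw [c, Finset.sum_filter, ← mass_split.sum_comp, Fintype.sum_prod_type,
    ← nsmul_eq_mul, ← Finset.sum_const, Finset.sum_filter]
  refine Finset.sum_congr rfl fun p _ => ?_
  by_cases hp : p.1 = 0 ∧ θ p.2.1 = 0 ∧ θ p.2.2 ≠ 0
  · rw [if_pos hp, ← mass_fibre h Ψ ⟨by rw [hp.1, map_zero], hp.2⟩]
    exact Finset.sum_congr rfl fun v _ => if_pos hp
  · rw [if_neg hp]
    exact Finset.sum_eq_zero fun v _ => if_neg hp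

/-- The degree 2 sum with `a = 0` exactly.  If `l` is a unit use `mass1_par` with first coordinate
`0` (or shift by `r0`) and `mass_step3`; otherwise `mass_fibre` with `p.1 = 0`. -/
theorem mass_two (h : IsResidue θ) (Ψ : WeierstrassCurve R → ℝ)
    (hΨ : ∀ (C : VariableChange R) W, Ψ (C • W) = Ψ W) :
    ∑ f : SelAvg.Model R with f.a = 0 ∧ (θ f.l ≠ 0 ∨ θ f.b ≠ 0), Ψ f.jac =
      (Fintype.card R - (Fintype.card R : ℝ) / Fintype.card κ) *
        (∑ W : WeierstrassCurve R, (nAff W : ℝ) * Ψ W +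
          (Fintype.card R : ℝ) / Fintype.card κ * ∑ W : WeierstrassCurve R, Ψ W) := by
  have e : ∑ f : SelAvg.Model R with f.a = 0 ∧ (θ f.l ≠ 0 ∨ θ f.b ≠ 0), Ψ f.jac =
      ∑ f : SelAvg.Model R with f.a = 0 ∧ θ f.l ≠ 0, Ψ f.jac +
        ∑ f : SelAvg.Model R with f.a = 0 ∧ θ f.l = 0 ∧ θ f.b ≠ 0, Ψ f.jac := by
    simp only [Finset.sum_filter, ← Finset.sum_add_distrib]
    refine Finset.sum_congr rfl fun f _ => ?_
    by_cases h1 : f.a = 0 <;> by_cases h2 : θ f.l = 0 <;> by_cases h3 : θ f.b = 0 <;>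
      simp [h1, h2, h3]
  rw [e, mass3_unit h Ψ hΨ, mass3_nonunit h Ψ, mass_card_ker h, mass_card_unit h]
  ring

/-- apply the steps to `Ψ W = ψ W / (1 + nAff W * q / card R)` (see `SelAvg.mass`) -/
theorem mass (h : IsResidue θ) (ψ : WeierstrassCurve R → ℝ)
    (hψ : ∀ (C : VariableChange R) W, ψ (C • W) = ψ W) :
    avg Finset.univ (fun f : Model R => phiR θ f * ψ f.jac) =
      (1 - 1 / (Fintype.card κ : ℝ) ^ 2) * (1 - 1 / (Fintype.card κ : ℝ) ^ 3) *
        avg Finset.univ ψ := by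
  have hq : (0 : ℝ) < Fintype.card κ := by exact_mod_cast Fintype.card_pos
  have hN : (0 : ℝ) < Fintype.card R := by exact_mod_cast Fintype.card_pos
  set Ψ : WeierstrassCurve R → ℝ :=
    fun W => ψ W / (1 + (nAff W : ℝ) * Fintype.card κ / Fintype.card R) with hΨdef
  have hΨ : ∀ (C : VariableChange R) W, Ψ (C • W) = Ψ W := by
    intro C W
    simp only [hΨdef, hψ, nAff_smul]
  have h5 : ∑ W : WeierstrassCurve R, ψ W = ∑ W : WeierstrassCurve R, Ψ W +
      (Fintype.card κ : ℝ) / Fintype.card R * ∑ W : WeierstrassCurve R, (nAff W : ℝ) * Ψ W := by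
    rw [Finset.mul_sum, ← Finset.sum_add_distrib]
    refine Finset.sum_congr rfl fun W _ => ?_
    have hpos : (0 : ℝ) < 1 + (nAff W : ℝ) * Fintype.card κ / Fintype.card R := by positivity
    have : ψ W = (1 + (nAff W : ℝ) * Fintype.card κ / Fintype.card R) * Ψ W := by
      simp only [hΨdef]
      rw [mul_div_cancel₀ _ hpos.ne']
    rw [this]
    ring
  have h6 : ∑ f : Model R, phiR θ f * ψ f.jac =
      ∑ f : Model R, (nGood (f.map θ) : ℝ) * Ψ f.jac := by
    refine Finset.sum_congr rfl fun f _ => ?_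
    simp only [phiR, hΨdef, Nat.card_eq_fintype_card]
    ring
  unfold avg
  rw [h6, mass_points h Ψ hΨ, mass_lines h Ψ hΨ, mass_exact h Ψ hΨ, mass_red h Ψ,
    mass_two h Ψ hΨ, h5, Finset.card_univ, Finset.card_univ, card_model, card_W]
  push_cast
  field_simp
  ring

end SelAvg.FF.T3
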