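import Pool.Agent.H5T.LocS
import Pool.Agent.H5T.Lang
import Pool.Agent.H5T.Mass

/-! If the discriminant has valuation at most one, the local weight is one. -/

namespace SelAvg.FF.T3.LocalField

open WeierstrassCurve WithZero Matrix SelAvg.LocalField
open scoped Classical

variable {L κ : Type*} [Field L] [Field κ] {V : LocalField L} {red : V.O →+* κ}

lemma sq_dvd_smul (k : G V.O) {f : Model V.O} (h : V.unif ^ 2 ∣ (k • f).jac.Δ) :
    V.unif ^ 2 ∣ f.jac.Δ := by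
  rw [G.jac_smul, variableChange_Δ, ← Units.val_pow_eq_pow_val] at h
  exact Units.dvd_mul_left.1 h

/-- every integral point is good -/
theorem good_of_not_sq_dvd (hred : V.IsRed red 1) {f : Model V.O} (hΔ : ¬V.unif ^ 2 ∣ f.jac.Δ)
    {Q : Pt V.O} (hQ : V.IPrim3 Q) (hF : f.F Q = 0) : (f.map red).Good (Q.map red) := by
  have hu : ∀ x : V.O, ¬IsUnit x → V.unif ∣ x := fun x hx => by
    rw [hred.isUnit_iff, not_not] at hx
    exact (locGood_red_eq_zero hred x).1 hx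
  have hs : (f.map red).Smooth (Q.map red) := by
    by_contra hn
    obtain ⟨k, hk⟩ := exists_mover_pt hQ
    have ha : (k • f).a = 0 := by
      rw [← Model.F_std]
      exact F_smul_eq_zero k (by rw [hk]; exact hF)
    rw [← hk, ← G.map_pt, Pt.map_std, Model.smooth_pt, ← G.map_smul,
      Model.smooth_std (by rw [Model.map_a, ha, map_zero]), not_or, not_not, not_not, Model.map_a2,
      Model.map_a3, locGood_red_eq_zero hred, locGood_red_eq_zero hred] at hn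
    exact hΔ (sq_dvd_smul k (Model.sq_dvd_of_sing _ (by rw [ha]; exact dvd_zero _) hn.1 hn.2))
  obtain ⟨k, hk, h1, h3⟩ := exists_std hred hQ hF hs
  rw [← hk, good_red_pt, good_red_iff hred h1]
  refine ⟨h3, ?_⟩
  by_contra hn
  rw [not_or] at hn
  exact hΔ (sq_dvd_smul k (Model.sq_dvd_of_line _ (by rw [h1.a]; exact dvd_zero _)
    (by rw [h1.a2]; exact dvd_zero _) (hu _ hn.1) (hu _ hn.2)))

theorem phiL_eq_one [Finite κ] (hred : V.IsRed red 1) {p : ℕ} (hp : p.Prime) (hp0 : (p : L) = 0)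
    {f : Model V.O} (hΔ : ¬V.unif ^ 2 ∣ f.jac.Δ) : V.phiL3 red f = 1 := by
  have hW := locGood_ne_zero hΔ
  obtain ⟨Q, hQ, hs⟩ := exists_smooth_point hred hp hp0 hΔ
  obtain ⟨Q₁, hQ₁, hF₁, -⟩ := exists_lift hred f hQ hs
  have hz₀ : (⟨f, 1⟩ : Obj V.O).Over f.jac := (one_smul _ _).symm
  have hz := hz₀.map V.incl
  let p₀ : V.LocRep3 ((⟨f, 1⟩ : Obj V.O).map V.incl) := ⟨1, ⟨f, 1⟩, one_smul _ _⟩
  have h₁ := locModel_on p₀ hQ₁ hF₁
  have hlift : ∀ τ : {q : (κ × κ) ⊕ Option κ // (f.map red).Good (npt q)},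
      ∃ Q : Pt V.O, V.IPrim3 Q ∧ f.F Q = 0 ∧ Q.map red = npt τ.1 :=
    fun τ => exists_lift hred _ τ.2.on τ.2.smooth
  choose lift hl1 hl2 hl3 using hlift
  have h1 : V.Nloc f.jac ≤ nGood (f.map red) := by
    refine Nat.card_le_card_of_surjective (fun τ =>
      ((D (f.jac.map V.incl) ((⟨f, 1⟩ : Obj V.O).map V.incl) (p₀.g.pt (Q₁.map V.incl))
        (p₀.g.pt ((lift τ).map V.incl)) :
        (f.jac.map V.incl).toAffine.Point) : (f.jac.map V.incl).toAffine.Point ⧸ V.E1 f.jac)) ?_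
    intro c
    obtain ⟨R, rfl⟩ := QuotientAddGroup.mk_surjective c
    obtain ⟨P, hP, rfl⟩ := D_surjective (locModel_Delta hW) hz h₁ R
    obtain ⟨Q₂, hQ₂, hF₂, e⟩ := locModel_rep p₀ hP
    have hg := good_of_not_sq_dvd hred hΔ hQ₂ hF₂
    obtain ⟨q, hq⟩ := exists_npt hg.on.prim
    refine ⟨⟨q, hg.eqv hq⟩, ?_⟩
    rw [D_eqv (locModel_Delta hW) hz h₁ hP (Pt.Eqv.refl _) e]
    symm
    refine (locModel_coset hW hz h₁ (locModel_on p₀ hQ₂ hF₂)
      (locModel_on p₀ (hl1 ⟨q, hg.eqv hq⟩) (hl2 _))).2 ?_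
    rw [locModel_disc hred hW hz p₀ hQ₂ hF₂ hg (hl1 _) (hl2 _), hl3]
    exact hq
  have h2 := nGood_le_Nloc hred hW
  have h3 := Nloc_pos hred hW
  unfold phiL3
  rw [le_antisymm h2 h1]
  exact div_self (by exact_mod_cast h3.ne')

end SelAvg.FF.T3.LocalField
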