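import Pool.Agent.H81Sel.LatA

/-! An algebra that is split at all places embeds into the adelic matrices. -/

namespace H5T

open SelAvg SelAvg.FF WithZero Filter Topology Matrix Module
open scoped Classical

section

variable {F B L : Type} [Field F] [Ring B] [Algebra F B] [Field L] [Algebra F L] {n : ℕ}

lemma abd_sum {κ M : Type} [Fintype κ] [Ring M] [Algebra F M] [Algebra L M] [IsScalarTower F L M]
    (e : Basis κ F B) (φ : B →ₐ[F] M) (x : B) :
    φ x = ∑ l, algebraMap F L (e.repr x l) • φ (e l) := by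
  conv_lhs => rw [← e.sum_repr x, map_sum]
  exact Finset.sum_congr rfl fun l _ => by rw [map_smul, algebraMap_smul]

lemma abd_span {κ M : Type} [Fintype κ] [Ring M] [Algebra F M] [Algebra L M] [IsScalarTower F L M]
    (e : Basis κ F B) (φ : B →ₐ[F] M) (h : Submodule.span L (Set.range φ) = ⊤) :
    Submodule.span L (Set.range fun l => φ (e l)) = ⊤ := by
  rw [eq_top_iff, ← h, Submodule.span_le]
  rintro _ ⟨x, rfl⟩
  rw [abd_sum (L := L) e φ x]
  exact Submodule.sum_mem _ fun l _ => Submodule.smul_mem _ _ (Submodule.subset_span ⟨l, rfl⟩)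

lemma abd_indep {κ : Type} [Fintype κ] (hκ : Fintype.card κ = n * n) (e : Basis κ F B)
    (φ : B →ₐ[F] Matrix (Fin n) (Fin n) L) (h : Submodule.span L (Set.range φ) = ⊤) :
    LinearIndependent L fun l => φ (e l) :=
  linearIndependent_of_top_le_span_of_card_eq_finrank (abd_span e φ h).ge (by
    simp [hκ, Module.finrank_matrix])

/-- The maps `x ↦ e l * x * e m` are linearly independent: apply `φ`, pass to all matrices `y` in
place of `φ x`, take `y = single a b 1` and use that the `φ (e l)` are independent over `L`.  So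
they span `End B`. -/
theorem exists_coord (e : Basis (Fin (n * n)) F B) (φ : B →ₐ[F] Matrix (Fin n) (Fin n) L)
    (h : Submodule.span L (Set.range φ) = ⊤) : ∃ c : Fin (n * n) → Fin (n * n) → Fin (n * n) → F,
      ∀ i x, ∑ l, ∑ m, c i l m • (e l * x * e m) = algebraMap F B (e.repr x i) := by
  have hi := Fintype.linearIndependent_iff.1 (abd_indep (Fintype.card_fin _) e φ h)
  have := Module.Finite.of_basis e
  have hT : LinearIndependent F fun p : Fin (n * n) × Fin (n * n) =>
      LinearMap.mulLeftRight F (e p.1, e p.2) := by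
    refine Fintype.linearIndependent_iff.2 fun c hc => ?_
    have h1 : ∑ p : Fin (n * n) × Fin (n * n), algebraMap F L (c p) •
        LinearMap.mulLeftRight L (φ (e p.1), φ (e p.2)) = 0 := by
      refine LinearMap.ext_on_range h fun x => ?_
      have h2 := congrArg φ (LinearMap.congr_fun hc x)
      simpa using h2
    rintro ⟨l, m⟩
    refine (algebraMap F L).injective ?_
    rw [map_zero]
    refine hi (fun m => algebraMap F L (c (l, m))) (Matrix.ext fun b j => ?_) m
    refine hi (fun l => (∑ m, algebraMap F L (c (l, m)) • φ (e m)) b j) (Matrix.ext fun i a => ?_) l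
    have h2 := congrFun (congrFun (LinearMap.congr_fun h1 (single a b 1)) i) j
    have h3 : ∀ X Y : Matrix (Fin n) (Fin n) L,
        (X * single a b (1 : L) * Y) i j = X i a * Y b j := by
      intro X Y
      simp [Matrix.mul_apply, single_apply, ite_and]
    simp only [Fintype.sum_prod_type, LinearMap.sum_apply, LinearMap.smul_apply,
      LinearMap.mulLeftRight_apply, Matrix.sum_apply, Matrix.smul_apply, h3, smul_eq_mul,
      LinearMap.zero_apply, Matrix.zero_apply] at h2 ⊢
    rw [← h2]
    refine Finset.sum_congr rfl fun l _ => ?_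
    rw [Finset.sum_mul]
    exact Finset.sum_congr rfl fun m _ => by ring
  have h1 := hT.span_eq_top_of_card_eq_finrank' (by
    simp [Module.finrank_linearMap, finrank_eq_card_basis e])
  have h2 : ∀ i, ∃ c : Fin (n * n) × Fin (n * n) → F,
      ∑ p, c p • LinearMap.mulLeftRight F (e p.1, e p.2) = Algebra.linearMap F B ∘ₗ e.coord i :=
    fun i => (Submodule.mem_span_range_iff_exists_fun F).1 (h1 ▸ Submodule.mem_top)
  choose c hc using h2
  refine ⟨fun i l m => c i (l, m), fun i x => ?_⟩
  simpa [Fintype.sum_prod_type] using LinearMap.congr_fun (hc i) x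

/-- The lattice spanned by the columns of the `φ (e l)` is stable under the `φ (e l)` and has a
basis; write `φ` in that basis. -/
theorem exists_integral (V : LocalField L) (e : Basis (Fin (n * n)) F B)
    (φ : B →ₐ[F] Matrix (Fin n) (Fin n) L) (h : Submodule.span L (Set.range φ) = ⊤)
    (hs : ∀ l m r, V.v (algebraMap F L (e.repr (e l * e m) r)) ≤ 1) :
    ∃ ψ : B →ₐ[F] Matrix (Fin n) (Fin n) L, Submodule.span L (Set.range ψ) = ⊤ ∧
      ∀ l i j, V.v (ψ (e l) i j) ≤ 1 := by
  let Λ : Submodule V.O (Fin n → L) := Submodule.span V.O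
    (Set.range fun p : Fin (n * n) × Fin n => φ (e p.1) *ᵥ Pi.single p.2 1)
  have hΛ : ∀ l, ∀ y ∈ Λ, φ (e l) *ᵥ y ∈ Λ := by
    intro l y hy
    induction hy using Submodule.span_induction with
    | mem _ hy =>
      obtain ⟨⟨m, j⟩, rfl⟩ := hy
      rw [mulVec_mulVec, ← map_mul, abd_sum (L := L) e φ, sum_mulVec]
      refine Submodule.sum_mem _ fun r _ => ?_
      rw [smul_mulVec]
      exact Λ.smul_mem (⟨_, hs l m r⟩ : V.O) (Submodule.subset_span ⟨(r, j), rfl⟩)
    | zero => rw [mulVec_zero]; exact zero_mem _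
    | add _ _ _ _ h1 h2 => rw [mulVec_add]; exact add_mem h1 h2
    | smul a _ _ h1 => rw [mulVec_smul]; exact Λ.smul_mem a h1
  have : Submodule.IsLattice L Λ := ⟨Submodule.fg_span (Set.finite_range _), by
    rw [eq_top_iff, ← (Pi.basisFun L (Fin n)).span_eq, Submodule.span_le]
    rintro _ ⟨j, rfl⟩
    obtain ⟨a, ha⟩ := (Submodule.mem_span_range_iff_exists_fun L).1
      (abd_span e φ h ▸ Submodule.mem_top (x := (1 : Matrix (Fin n) (Fin n) L)))
    rw [Pi.basisFun_apply, ← one_mulVec (Pi.single j 1), ← ha, sum_mulVec]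
    refine Submodule.sum_mem _ fun r _ => ?_
    rw [smul_mulVec]
    exact Submodule.smul_mem _ _ (Submodule.subset_span (Submodule.subset_span ⟨(r, j), rfl⟩))⟩
  have : Module.Flat V.O Λ := Flat.flat_iff_torsion_eq_bot_of_isBezout.2
    (Submodule.isTorsionFree_iff_torsion_eq_bot.1 inferInstance)
  have : Module.Free V.O Λ := free_of_flat_of_isLocalRing
  obtain ⟨b⟩ : Nonempty (Basis (Fin n) V.O Λ) := ⟨(Free.chooseBasis V.O Λ).reindex
    (((Free.chooseBasis V.O Λ).extendOfIsLattice L).indexEquiv (Pi.basisFun L (Fin n)))⟩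
  let θ : Matrix (Fin n) (Fin n) L ≃ₐ[L] Matrix (Fin n) (Fin n) L :=
    toLinAlgEquiv'.trans (LinearMap.toMatrixAlgEquiv (b.extendOfIsLattice L))
  refine ⟨(θ.toAlgHom.restrictScalars F).comp φ, ?_, fun l i j => ?_⟩
  · have h1 := congrArg (Submodule.map θ.toLinearEquiv.toLinearMap) h
    rw [Submodule.map_span, Submodule.map_top, LinearEquiv.range, ← Set.range_comp] at h1
    exact h1
  · have h1 : ∀ y : Λ, V.v ((b.extendOfIsLattice L).repr y i) ≤ 1 := fun y => by
      have h2 : (y : Fin n → L) = ∑ r, (b.repr y r : L) • b.extendOfIsLattice L r := by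
        conv_lhs => rw [← b.sum_repr y, Submodule.coe_sum]
        exact Finset.sum_congr rfl fun r _ => by rw [Basis.extendOfIsLattice_apply]; rfl
      rw [h2, Basis.repr_sum_self]
      exact (b.repr y i).2
    have h2 := h1 ⟨_, hΛ l _ (b j).2⟩
    change V.v (LinearMap.toMatrixAlgEquiv (b.extendOfIsLattice L)
      (toLinAlgEquiv' (φ (e l))) i j) ≤ 1
    rw [LinearMap.toMatrixAlgEquiv_apply, Basis.extendOfIsLattice_apply]
    exact h2

lemma abd_inv {e : Basis (Fin (n * n)) F B} {c : Fin (n * n) → Fin (n * n) → Fin (n * n) → F}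
    (hc : ∀ i x, ∑ l, ∑ m, c i l m • (e l * x * e m) = algebraMap F B (e.repr x i))
    (φ : B →ₐ[F] Matrix (Fin n) (Fin n) L) (a : Fin (n * n) → L) (i : Fin (n * n)) :
    ∑ l, ∑ m, c i l m • (φ (e l) * (∑ r, a r • φ (e r)) * φ (e m)) = a i • 1 := by
  have h1 : ∀ r, ∑ l, ∑ m, c i l m • (φ (e l) * (a r • φ (e r)) * φ (e m)) =
      if i = r then a r • 1 else 0 := fun r => by
    have h2 := congrArg (fun x => a r • φ x) (hc i (e r))
    simp only [map_sum, map_smul, map_mul, Finset.smul_sum, AlgHom.commutes, Basis.repr_self,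
      Finsupp.single_apply, smul_comm (a r)] at h2
    simp only [Matrix.mul_smul, Matrix.smul_mul, h2, @eq_comm _ i]
    split_ifs <;> simp
  simp only [Finset.mul_sum, Finset.sum_mul, Finset.smul_sum]
  rw [Finset.sum_congr rfl fun l _ => Finset.sum_comm, Finset.sum_comm]
  simp only [h1, Finset.sum_ite_eq, Finset.mem_univ, if_true]

end

variable {F B : Type} [Field F] [Cv F] [Ring B] [Algebra F B] {n : ℕ}

/-- Glue the local maps; the inverse of `ι` is given by `exists_coord`. -/
theorem exists_adelic (hn : 0 < n) (e : Basis (Fin (n * n)) F B)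
    (φ : ∀ v : Place F, B →ₐ[F] Matrix (Fin n) (Fin n) v.Compl)
    (h : ∀ v : Place F, Submodule.span v.Compl (Set.range (φ v)) = ⊤) :
    ∃ (Ψ : B →* Matrix (Fin n) (Fin n) (A F))
      (ι : (Fin (n * n) → A F) ≃ₗ[A F] Matrix (Fin n) (Fin n) (A F)),
      ∀ x, Ψ x = ι (dlg (e.equivFun x)) := by
  obtain ⟨c, hc⟩ := exists_coord e (φ Cv.P) (h _)
  have key : ∀ v : Place F, ∃ ψ : B →ₐ[F] Matrix (Fin n) (Fin n) v.Compl,
      Submodule.span v.Compl (Set.range ψ) = ⊤ ∧
        ((∀ l m r, v.vc (algebraMap F v.Compl (e.repr (e l * e m) r)) ≤ 1) →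
          ∀ l i j, v.vc (ψ (e l) i j) ≤ 1) := fun v => by
    by_cases hv : ∀ l m r, v.vc (algebraMap F v.Compl (e.repr (e l * e m) r)) ≤ 1
    · obtain ⟨ψ, h1, h2⟩ := exists_integral v.loc e (φ v) (h v) hv
      exact ⟨ψ, h1, fun _ => h2⟩
    · exact ⟨φ v, h v, fun h => absurd h hv⟩
  choose ψ hψ hψ' using key
  have hev : ∀ᶠ v : Place F in cofinite, ∀ l m r,
      v.vc (algebraMap F v.Compl (e.repr (e l * e m) r)) ≤ 1 := by
    simp only [eventually_all]
    exact fun l m r => mem_Ad.1 (toA_mem _)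
  choose E hE using fun l i j => exists_adele (fun v => ψ v (e l) i j)
    (hev.mono fun v hv => hψ' v hv l i j)
  have hext : ∀ {M N : Matrix (Fin n) (Fin n) (A F)}, (∀ v, M.map (pr v) = N.map (pr v)) → M = N :=
    fun h => Matrix.ext fun i j => A_ext fun v => congrFun (congrFun (h v) i) j
  let f : (Fin (n * n) → A F) →ₗ[A F] Matrix (Fin n) (Fin n) (A F) :=
    Fintype.linearCombination (A F) fun l => of (E l)
  have hf : ∀ v a, (f a).map (pr v) = ∑ l, pr v (a l) • ψ v (e l) := fun v a => by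
    ext i j
    simp [f, Fintype.linearCombination_apply, Matrix.sum_apply, hE]
  have hx : ∀ v x, (f (dlg (e.equivFun x))).map (pr v) = ψ v x := fun v x => by
    rw [hf, abd_sum (L := v.Compl) e (ψ v) x]
    rfl
  refine ⟨⟨⟨fun x => f (dlg (e.equivFun x)), hext fun v => ?_⟩, fun x y => hext fun v => ?_⟩,
    LinearEquiv.ofBijective f ⟨(injective_iff_map_eq_zero f).2 fun a ha => ?_, fun M => ?_⟩,
    fun _ => rfl⟩
  · rw [hx, map_one, Matrix.map_one _ (map_zero _) (map_one _)]
  · rw [Matrix.map_mul, hx, hx, hx, map_mul]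
  · refine funext fun l => A_ext fun v => ?_
    refine (Fintype.linearIndependent_iff.1 (abd_indep (Fintype.card_fin _) e (ψ v) (hψ v))
      (fun l => pr v (a l)) ?_ l).trans (map_zero _).symm
    rw [← hf, ha, Matrix.map_zero _ (map_zero _)]
  · refine ⟨fun i => (∑ l, ∑ m, toA F (c i l m) • (of (E l) * M * of (E m))) ⟨0, hn⟩ ⟨0, hn⟩,
      hext fun v => ?_⟩
    obtain ⟨a, ha⟩ := (Submodule.mem_span_range_iff_exists_fun v.Compl).1
      (abd_span e (ψ v) (hψ v) ▸ Submodule.mem_top (x := M.map (pr v)))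
    rw [hf, ← ha]
    refine Finset.sum_congr rfl fun i _ => congrArg (· • _) ?_
    have h1 := congrFun (congrFun (abd_inv hc (ψ v) a i) ⟨0, hn⟩) ⟨0, hn⟩
    rw [ha] at h1
    simp only [Matrix.sum_apply, Matrix.smul_apply, Matrix.mul_apply, map_apply, one_apply_eq,
      smul_eq_mul, mul_one] at h1
    simp only [Algebra.smul_def] at h1
    simp only [Matrix.sum_apply, Matrix.smul_apply, Matrix.mul_apply, map_sum, map_mul, smul_eq_mul,
      of_apply, hE, pr_toA, ← h1]

end H5T
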