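import Pool.Agent.H38Sel.Desc

/-! From the Hasse principle for algebras to the splitting of projective cocycles. -/

namespace H5T

open Matrix SelAvg
open scoped TensorProduct Kronecker

variable {K : Type} [Field K] {n : ℕ}

/-- a family of matrices which is a continuous cocycle modulo scalars -/
structure PCoc (M : (SeparableClosure K ≃ₐ[K] SeparableClosure K) →
    GL (Fin n) (SeparableClosure K)) : Prop where
  mul : ∀ σ τ, ∃ t, M (σ * τ) =
    GeneralLinearGroup.scalar (Fin n) t * (GeneralLinearGroup.map (galHom σ) (M τ) * M σ)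
  cont : ∃ E : IntermediateField K (SeparableClosure K), FiniteDimensional K E ∧
    ∀ σ ∈ E.fixingSubgroup, ∃ t, M σ = GeneralLinearGroup.scalar (Fin n) t

/-- the twisted action of the Galois group of `L` on projective space has a fixed point -/
def FixPt (M : (SeparableClosure K ≃ₐ[K] SeparableClosure K) →
    GL (Fin n) (SeparableClosure K)) (L : Type) [Field L] [Algebra K L] : Prop :=
  ∃ (ι : SeparableClosure K →ₐ[K] SeparableClosure L) (x : Fin n → SeparableClosure L),
    x ≠ 0 ∧ ∀ σ : SeparableClosure L ≃ₐ[L] SeparableClosure L,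
      ∃ (τ : SeparableClosure K ≃ₐ[K] SeparableClosure K) (t : SeparableClosure L),
        (∀ a, σ (ι a) = ι (τ a)) ∧ (fun i => σ (x i)) ᵥ* (M τ).1.map ι = t • x

/-- the Hasse principle for algebras of degree `n` -/
def Abhn (K : Type) [Field K] (n : ℕ) : Prop :=
  ∀ (B : Type) [Ring B] [Algebra K B] [FiniteDimensional K B],
    (∀ v : Place K, Nonempty (v.Compl ⊗[K] B ≃ₐ[v.Compl] Matrix (Fin n) (Fin n) v.Compl)) →
      Nonempty (B ≃ₐ[K] Matrix (Fin n) (Fin n) K)

section Lin

variable {Ω : Type} [Field Ω] {ι : Type}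

lemma br3_scalar (t : Ωˣ) (X : Matrix (Fin n) (Fin n) Ω) :
    (GeneralLinearGroup.scalar (Fin n) t).1 * X = (t : Ω) • X := by
  ext i j
  simp [GeneralLinearGroup.scalar, Matrix.scalar_apply]

lemma br3_map_vecMul (s : Ω →+* Ω) (x : Fin n → Ω) (X : Matrix (Fin n) (Fin n) Ω) :
    (fun j => s ((x ᵥ* X) j)) = (fun j => s (x j)) ᵥ* X.map s := by
  funext j
  simp [vecMul, dotProduct]

/-- a fixed line gives a fixed frame -/
lemma br3_frame (b : ι → Matrix (Fin n) (Fin n) Ω) (hb : ⊤ ≤ Submodule.span Ω (Set.range b))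
    {x : Fin n → Ω} (hx : x ≠ 0) : ∃ H : GL (Fin n) Ω,
      ∀ (s : Ω →+* Ω) (N : Matrix (Fin n) (Fin n) Ω) (t : Ω), (∀ i, (b i).map s * N = N * b i) →
        (fun j => s (x j)) ᵥ* N = t • x → H.1.map s * N = t • H.1 := by
  obtain ⟨j, hj⟩ := Function.ne_iff.1 hx
  have hs : ⊤ ≤ Submodule.span Ω (Set.range fun i => x ᵥ* b i) := by
    intro w _
    have h1 : ∀ X ∈ Submodule.span Ω (Set.range b),
        x ᵥ* X ∈ Submodule.span Ω (Set.range fun i => x ᵥ* b i) := by
      intro X hX
      induction hX using Submodule.span_induction with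
      | mem _ h => obtain ⟨i, rfl⟩ := h; exact Submodule.subset_span ⟨i, rfl⟩
      | zero => simp
      | add _ _ _ _ h h' => rw [vecMul_add]; exact Submodule.add_mem _ h h'
      | smul a _ _ h => rw [vecMul_smul]; exact Submodule.smul_mem _ a h
    have h2 := h1 (vecMulVec (Pi.single j (x j)⁻¹) w) (hb trivial)
    rwa [vecMul_vecMulVec, dotProduct_single, mul_inv_cancel₀ hj, one_smul] at h2
  let c := (Module.Basis.ofSpan hs).reindex
    ((Module.Basis.ofSpan hs).indexEquiv (Pi.basisFun Ω (Fin n)))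
  have hc : ∀ r, ∃ i, x ᵥ* b i = c r := fun r =>
    Module.Basis.ofSpan_subset hs ⟨_, (Module.Basis.reindex_apply _ _ r).symm⟩
  obtain ⟨H, hH⟩ : IsUnit (Matrix.of fun r => c r) :=
    Matrix.linearIndependent_rows_iff_isUnit.1 c.linearIndependent
  refine ⟨H, fun s N t h1 h2 => ?_⟩
  rw [hH]
  ext1 r k
  obtain ⟨i, hi⟩ := hc r
  have h3 : (fun j => s (c r j)) ᵥ* N = t • c r := by
    rw [← hi, br3_map_vecMul, vecMul_vecMul, h1, ← vecMul_vecMul, h2, smul_vecMul]
  exact congrFun h3 k

/-- if `Y X Y` is always a multiple of `Y` then the rows of `Y` are proportional -/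
lemma br3_rank {Y : Matrix (Fin n) (Fin n) Ω} (h : ∀ X, ∃ c : Ω, Y * X * Y = c • Y) {i : Fin n}
    (hi : Y i ≠ 0) (w : Fin n → Ω) : ∃ c : Ω, w ᵥ* Y = c • Y i := by
  obtain ⟨j, hj⟩ := Function.ne_iff.1 hi
  obtain ⟨c, hc⟩ := h (vecMulVec (Pi.single j (Y i j)⁻¹) w)
  refine ⟨c, ?_⟩
  have h1 : (Y i ᵥ* vecMulVec (Pi.single j (Y i j)⁻¹) w) ᵥ* Y = c • Y i := congrFun hc i
  rwa [vecMul_vecMulVec, dotProduct_single, mul_inv_cancel₀ hj, one_smul] at h1

/-- the matrix of conjugation -/
noncomputable def cjM (N : GL (Fin n) Ω) : Matrix (Fin n × Fin n) (Fin n × Fin n) Ω :=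
  (N⁻¹).1ᵀ ⊗ₖ N.1

lemma cjM_mul (N N' : GL (Fin n) Ω) : cjM (N * N') = cjM N * cjM N' := by
  rw [cjM, cjM, cjM, ← mul_kronecker_mul, _root_.mul_inv_rev, Units.val_mul, Units.val_mul,
    transpose_mul]

lemma cjM_scalar (t : Ωˣ) : cjM (GeneralLinearGroup.scalar (Fin n) t) = 1 := by
  have h : ∀ u : Ωˣ, (GeneralLinearGroup.scalar (Fin n) u).1 = (u : Ω) • 1 := fun u => by
    rw [← br3_scalar, mul_one]
  rw [cjM, ← map_inv, h, h, transpose_smul, transpose_one, smul_kronecker, kronecker_smul,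
    one_kronecker_one, smul_smul, Units.inv_mul, one_smul]

lemma cjM_map (s : Ω →+* Ω) (N : GL (Fin n) Ω) :
    cjM (GeneralLinearGroup.map s N) = (cjM N).map s := by
  rw [cjM, ← map_inv]
  ext p p'
  exact (map_mul s _ _).symm

lemma vecMul_cjM (N : GL (Fin n) Ω) (X : Matrix (Fin n) (Fin n) Ω) (c d : Fin n) :
    ((fun p : Fin n × Fin n => X p.1 p.2) ᵥ* cjM N) (c, d) = ((N⁻¹).1 * X * N.1) c d := by
  simp only [cjM, vecMul, dotProduct, Fintype.sum_prod_type, kroneckerMap_apply, transpose_apply,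
    Matrix.mul_apply, Finset.sum_mul]
  rw [Finset.sum_comm]
  exact Finset.sum_congr rfl fun _ _ => Finset.sum_congr rfl fun _ _ => by ring

end Lin

variable (M : (SeparableClosure K ≃ₐ[K] SeparableClosure K) → GL (Fin n) (SeparableClosure K))

/-- the invariants of the twisted action on matrices -/
def twAlg : Subalgebra K (Matrix (Fin n) (Fin n) (SeparableClosure K)) where
  carrier := {X | ∀ σ, X.map (galHom σ) * (M σ).1 = (M σ).1 * X}
  mul_mem' {X Y} hX hY σ := by
    rw [Matrix.map_mul, mul_assoc, hY σ, ← mul_assoc, hX σ, mul_assoc]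
  add_mem' {X Y} hX hY σ := by
    rw [Matrix.map_add _ (map_add _), add_mul, mul_add, hX σ, hY σ]
  algebraMap_mem' a σ := by
    rw [← Algebra.commutes]
    congr 1
    ext i j
    by_cases h : i = j <;> simp [algebraMap_matrix_apply, h]

variable {M}

/-- `speiser` for the conjugation action -/
theorem PCoc.exists_basis (hM : PCoc M) :
    ∃ b : Module.Basis (Fin n × Fin n) (SeparableClosure K)
      (Matrix (Fin n) (Fin n) (SeparableClosure K)), ∀ i, b i ∈ twAlg M := by
  obtain ⟨E, hE, hE'⟩ := hM.cont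
  obtain ⟨B, hB, hfix⟩ := speiser (fun σ => cjM (M σ)) (fun σ τ => by
    obtain ⟨t, ht⟩ := hM.mul σ τ
    rw [ht, cjM_mul, cjM_scalar, one_mul, cjM_mul, cjM_map]
    rfl) E fun σ hσ => by
    obtain ⟨t, ht⟩ := hE' σ hσ
    rw [ht, cjM_scalar]
  have h1 : LinearIndependent (SeparableClosure K) B.row :=
    Matrix.linearIndependent_rows_iff_isUnit.2 ((Matrix.isUnit_iff_isUnit_det _).2 hB.isUnit)
  let e : (Fin n × Fin n → SeparableClosure K) ≃ₗ[SeparableClosure K]
      Matrix (Fin n) (Fin n) (SeparableClosure K) :=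
    (LinearEquiv.curry _ _ _ _).trans (Matrix.ofLinearEquiv _)
  refine ⟨(basisOfLinearIndependentOfCardEqFinrank' _ h1 (by simp)).map e, fun i σ => ?_⟩
  rw [Module.Basis.map_apply, coe_basisOfLinearIndependentOfCardEqFinrank',
    ← Units.inv_mul_eq_iff_eq_mul, ← mul_assoc]
  ext1 c d
  rw [← vecMul_cjM]
  exact congrFun (congrFun (hfix σ) i) (c, d)

variable {b : Module.Basis (Fin n × Fin n) (SeparableClosure K)
  (Matrix (Fin n) (Fin n) (SeparableClosure K))}

/-- the coordinates of an invariant matrix are invariant -/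
lemma br3_coord (hb : ∀ i, b i ∈ twAlg M) {X : Matrix (Fin n) (Fin n) (SeparableClosure K)}
    (hX : X ∈ twAlg M) : ∃ a : Fin n × Fin n → K, ∑ i, a i • b i = X := by
  have h : ∀ i, ∃ a, toSep K a = b.repr X i := fun i => desc1_fixed fun σ => by
    have h1 : X = ∑ j, σ (b.repr X j) • b j := by
      have h2 : (∑ j, b.repr X j • b j).map (galHom σ) * (M σ).1 =
          (M σ).1 * ∑ j, σ (b.repr X j) • b j := by
        rw [← RingHom.mapMatrix_apply, map_sum, Finset.sum_mul, Finset.mul_sum]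
        refine Finset.sum_congr rfl fun j _ => ?_
        rw [Matrix.mul_smul, ← hb j σ, ← Matrix.smul_mul]
        congr 1
        ext r s
        simp
      rw [b.sum_repr, hX σ] at h2
      exact (Units.mul_right_inj _).1 h2
    conv_rhs => rw [h1, b.repr_sum_self]
  choose a ha using h
  refine ⟨a, ?_⟩
  conv_rhs => rw [← b.sum_repr X]
  exact Finset.sum_congr rfl fun i _ => by rw [← ha, algebraMap_smul]

/-- a basis of the algebra of invariants -/
noncomputable def twBasis (hb : ∀ i, b i ∈ twAlg M) : Module.Basis (Fin n × Fin n) K (twAlg M) :=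
  Module.Basis.mk (v := fun i => ⟨b i, hb i⟩)
    (LinearIndependent.of_comp (twAlg M).val.toLinearMap
      (b.linearIndependent.restrict_scalars' K)) fun X _ => by
    obtain ⟨a, ha⟩ := br3_coord hb X.2
    have h : X = ∑ i, a i • (⟨b i, hb i⟩ : twAlg M) := Subtype.ext (by simp [← ha])
    rw [h]
    exact Submodule.sum_mem _ fun i _ => Submodule.smul_mem _ _ (Submodule.subset_span ⟨i, rfl⟩)

lemma br3_span_map (b : Module.Basis (Fin n × Fin n) (SeparableClosure K)
    (Matrix (Fin n) (Fin n) (SeparableClosure K))) {Ω : Type} [Field Ω]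
    (ι : SeparableClosure K →+* Ω) : ⊤ ≤ Submodule.span Ω (Set.range fun i => (b i).map ι) := by
  intro X _
  rw [matrix_eq_sum_single X]
  refine Submodule.sum_mem _ fun r _ => Submodule.sum_mem _ fun s _ => ?_
  have h : single r s (X r s) = X r s • ∑ i, ι (b.repr (single r s 1) i) • (b i).map ι := by
    have h1 := congrArg ι.mapMatrix (b.sum_repr (single r s 1))
    rw [map_sum] at h1
    have h2 : ∑ i, ι (b.repr (single r s 1) i) • (b i).map ι = single r s 1 := by
      rw [← map_one ι, ← Matrix.map_single r s 1 ι, ← RingHom.mapMatrix_apply, ← h1]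
      refine Finset.sum_congr rfl fun i _ => ?_
      ext r' s'
      simp
    rw [h2, smul_single, smul_eq_mul, mul_one]
  rw [h]
  exact Submodule.smul_mem _ _ (Submodule.sum_mem _ fun i _ =>
    Submodule.smul_mem _ _ (Submodule.subset_span ⟨i, rfl⟩))

/-- a local fixed point splits the algebra -/
theorem br3_local (hb : ∀ i, b i ∈ twAlg M) (L : Type) [Field L] [Algebra K L] (h : FixPt M L) :
    Nonempty (L ⊗[K] twAlg M ≃ₐ[L] Matrix (Fin n) (Fin n) L) := by
  obtain ⟨ι, x, hx, h⟩ := h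
  have hsp := br3_span_map b ι.toRingHom
  obtain ⟨H, hH⟩ := br3_frame _ hsp hx
  have hcomm : ∀ (σ : SeparableClosure L ≃ₐ[L] SeparableClosure L) τ, (∀ a, σ (ι a) = ι (τ a)) →
      ∀ X ∈ twAlg M, (X.map ι).map (galHom σ) * (M τ).1.map ι = (M τ).1.map ι * X.map ι := by
    intro σ τ hτ X hX
    rw [← Matrix.map_mul, ← hX τ, Matrix.map_mul]
    congr 1
    exact Matrix.ext fun r s => hτ _
  let ψ : twAlg M →ₐ[K] Matrix (Fin n) (Fin n) (SeparableClosure L) :=
    ((MulSemiringAction.toAlgHom K _ (ConjAct.toConjAct H)).comp ι.mapMatrix).comp (twAlg M).val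
  have hψ : ∀ X : twAlg M, ψ X = H.1 * X.1.map ι * (H⁻¹).1 := fun X => rfl
  let j : Matrix (Fin n) (Fin n) L →ₐ[K] Matrix (Fin n) (Fin n) (SeparableClosure L) :=
    (IsScalarTower.toAlgHom K L (SeparableClosure L)).mapMatrix
  have hj : Function.Injective j := Matrix.map_injective (toSep L).injective
  have hr : ∀ X, ψ X ∈ j.range := by
    intro X
    have h1 : ∀ r s, ∃ a, toSep L a = ψ X r s := fun r s => desc1_fixed fun σ => by
      obtain ⟨τ, t, hτ, ht⟩ := h σ
      have h2 := hH (galHom σ) _ t (fun i => hcomm σ τ hτ _ (hb i)) ht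
      have h3 : (ψ X).map (galHom σ) * H.1.map (galHom σ) =
          H.1.map (galHom σ) * (X.1.map ι).map (galHom σ) := by
        rw [← Matrix.map_mul, ← Matrix.map_mul, hψ, Units.inv_mul_cancel_right]
      have h4 : (ψ X).map (galHom σ) * (H.1.map (galHom σ) * (M τ).1.map ι) =
          ψ X * (H.1.map (galHom σ) * (M τ).1.map ι) := by
        rw [← mul_assoc, h3, mul_assoc, hcomm σ τ hτ _ X.2, ← mul_assoc, h2, hψ, Matrix.mul_smul,
          Matrix.smul_mul, Units.inv_mul_cancel_right]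
      exact congrFun (congrFun ((Units.mul_left_inj (GeneralLinearGroup.map (galHom σ) H *
        GeneralLinearGroup.map ι.toRingHom (M τ))).1 h4) r) s
    choose a ha using h1
    exact ⟨Matrix.of a, Matrix.ext ha⟩
  let φ : twAlg M →ₐ[K] Matrix (Fin n) (Fin n) L :=
    ((AlgEquiv.ofInjective j hj).symm : j.range →ₐ[K] _).comp (ψ.codRestrict _ hr)
  have hφ : ∀ X, j (φ X) = ψ X := fun X =>
    congrArg Subtype.val ((AlgEquiv.ofInjective j hj).apply_symm_apply ⟨ψ X, hr X⟩)
  let Φ : L ⊗[K] twAlg M →ₐ[L] Matrix (Fin n) (Fin n) L :=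
    Algebra.TensorProduct.lift (Algebra.ofId L _) φ fun a X => Algebra.commutes a _
  have hli : LinearIndependent L fun i => φ (twBasis hb i) := by
    have h1 : LinearIndependent (SeparableClosure L) fun i => (b i).map ι.toRingHom :=
      linearIndependent_of_top_le_span_of_card_eq_finrank hsp (by simp [Module.finrank_matrix])
    rw [Fintype.linearIndependent_iff] at h1 ⊢
    intro a ha i
    refine (map_eq_zero (toSep L)).1 (h1 (fun i => toSep L (a i)) ?_ i)
    have h2 := congrArg (fun Y => (H⁻¹).1 * j Y * H.1) ha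
    simp only [map_sum, map_zero, mul_zero, zero_mul, Finset.mul_sum, Finset.sum_mul] at h2
    rw [← h2]
    refine Finset.sum_congr rfl fun i _ => ?_
    have h3 : j (a i • φ (twBasis hb i)) = toSep L (a i) • j (φ (twBasis hb i)) := by
      ext r s
      simp [j]
    rw [h3, hφ, hψ, Matrix.mul_smul, Matrix.smul_mul, ← mul_assoc, Units.inv_mul_cancel_right,
      Units.inv_mul_cancel_left, twBasis, Module.Basis.mk_apply]
    rfl
  have hΦ : Φ.toLinearMap = ((Algebra.TensorProduct.basis L (twBasis hb)).equiv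
      (basisOfLinearIndependentOfCardEqFinrank' _ hli (by simp [Module.finrank_matrix]))
      (Equiv.refl _) : _ →ₗ[L] _) := (Algebra.TensorProduct.basis L (twBasis hb)).ext fun i => by
    rw [LinearEquiv.coe_coe, Module.Basis.equiv_apply, coe_basisOfLinearIndependentOfCardEqFinrank',
      Algebra.TensorProduct.basis_apply]
    exact (Algebra.TensorProduct.lift_tmul (Algebra.ofId L _) φ
      (fun a X => Algebra.commutes a _) 1 _).trans (by rw [map_one, one_mul]; rfl)
  refine ⟨AlgEquiv.ofBijective Φ ?_⟩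
  change Function.Bijective Φ.toLinearMap
  rw [hΦ]
  exact LinearEquiv.bijective _

/-- if the algebra of invariants is a matrix algebra then the cocycle splits -/
theorem br3_global (hb : ∀ i, b i ∈ twAlg M) (e : twAlg M ≃ₐ[K] Matrix (Fin n) (Fin n) K) :
    ∃ H : GL (Fin n) (SeparableClosure K), ∀ σ, ∃ t,
      GeneralLinearGroup.map (galHom σ) H * M σ = GeneralLinearGroup.scalar (Fin n) t * H := by
  rcases Nat.eq_zero_or_pos n with rfl | hn
  · exact ⟨1, fun σ => ⟨1, Subsingleton.elim _ _⟩⟩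
  let o : Fin n := ⟨0, hn⟩
  obtain ⟨Y, hY⟩ := e.surjective (single o o 1)
  have h0 : Y.1 ≠ 0 := fun h => by
    have h1 := congrFun (congrFun hY o) o
    rw [show Y = 0 from Subtype.ext h] at h1
    simp at h1
  have h1 : ∀ X, ∃ c : SeparableClosure K, Y.1 * X * Y.1 = c • Y.1 := by
    intro X
    have h2 : ∀ i, Y.1 * b i * Y.1 = toSep K (e ⟨b i, hb i⟩ o o) • Y.1 := by
      intro i
      have h3 : Y * ⟨b i, hb i⟩ * Y = e ⟨b i, hb i⟩ o o • Y := e.injective (by
        rw [map_mul, map_mul, map_smul, hY, single_mul_mul_single, smul_single]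
        simp)
      rw [algebraMap_smul]
      exact congrArg Subtype.val h3
    refine ⟨∑ i, b.repr X i * toSep K (e ⟨b i, hb i⟩ o o), ?_⟩
    conv_lhs => rw [← b.sum_repr X]
    rw [Finset.mul_sum, Finset.sum_mul, Finset.sum_smul]
    exact Finset.sum_congr rfl fun i _ => by rw [Matrix.mul_smul, Matrix.smul_mul, h2, smul_smul]
  obtain ⟨i, hi⟩ := Function.ne_iff.1 h0
  obtain ⟨H, hH⟩ := br3_frame b b.span_eq.ge hi
  refine ⟨H, fun σ => ?_⟩
  obtain ⟨c, hc⟩ := br3_rank h1 hi ((M σ).1 i)
  have h2 := hH (galHom σ) _ c (fun j => hb j σ) ((congrFun (Y.2 σ) i).trans hc)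
  have h3 : c ≠ 0 := by
    rintro rfl
    have : Nonempty (Fin n) := ⟨o⟩
    exact (GeneralLinearGroup.map (galHom σ) H * M σ).ne_zero (h2.trans (zero_smul _ _))
  exact ⟨Units.mk0 c h3, Units.ext (h2.trans (br3_scalar (Units.mk0 c h3) H.1).symm)⟩

/-- an everywhere locally split projective cocycle is split -/
theorem split_of_abhn (h : Abhn K n) (hM : PCoc M) (hloc : ∀ v : Place K, FixPt M v.Compl) :
    ∃ H : GL (Fin n) (SeparableClosure K), ∀ σ, ∃ t,
      GeneralLinearGroup.map (galHom σ) H * M σ = GeneralLinearGroup.scalar (Fin n) t * H := by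
  obtain ⟨b, hb⟩ := hM.exists_basis
  have := Module.Finite.of_basis (twBasis hb)
  obtain ⟨e⟩ := h (twAlg M) fun v => br3_local hb _ (hloc v)
  exact br3_global hb e

end H5T
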