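import Pool.Agent.H5T.AbC
import Pool.Agent.H5T.AbD
import Pool.Agent.H5T.Bridge3

/-! The Hasse principle for central simple algebras over global function fields. -/

namespace H5T

open SelAvg SelAvg.FF Matrix Module
open scoped Classical TensorProduct

section

variable {F L : Type} [Field F] [Field L] [Algebra F L] {n : ℕ}

lemma abh_factor {p : Matrix (Fin n) (Fin n) L} (hp : p * p = p) :
    ∃ (d : ℕ) (X : Matrix (Fin n) (Fin d) L) (Y : Matrix (Fin d) (Fin n) L),
      X * Y = p ∧ Y * X = 1 := by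
  let W := LinearMap.range (toLin' p)
  let b := finBasis L W
  refine ⟨_, LinearMap.toMatrix b (Pi.basisFun L (Fin n)) W.subtype,
    LinearMap.toMatrix (Pi.basisFun L (Fin n)) b (toLin' p).rangeRestrict, ?_, ?_⟩
  · rw [← LinearMap.toMatrix_comp]
    exact LinearMap.toMatrix'_toLin' p
  · rw [← LinearMap.toMatrix_comp, ← LinearMap.toMatrix_id b]
    congr 1
    refine LinearMap.ext ?_
    rintro ⟨_, y, rfl⟩
    refine Subtype.ext ?_
    change p *ᵥ (p *ᵥ y) = p *ᵥ y
    rw [mulVec_mulVec, hp]

/-- the corner of a split matrix algebra is split -/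
lemma abh_corner {D : Type} [DivisionRing D] [Algebra F D] [Module.Finite F D] {r : ℕ} (a : Fin r)
    (hr : finrank F (Matrix (Fin r) (Fin r) D) = n * n)
    (φ : Matrix (Fin r) (Fin r) D →ₐ[F] Matrix (Fin n) (Fin n) L)
    (h : Submodule.span L (Set.range φ) = ⊤) : ∃ d, finrank F D = d * d ∧
      ∃ ψ : D →ₐ[F] Matrix (Fin d) (Fin d) L, Submodule.span L (Set.range ψ) = ⊤ := by
  obtain ⟨d, X, Y, hXY, hYX⟩ := abh_factor (p := φ (single a a 1)) (by
    rw [← map_mul, single_mul_single_same, one_mul])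
  have h1 : ∀ x : D, X * (Y * φ (single a a x) * X) * Y = φ (single a a x) := fun x => by
    rw [Matrix.mul_assoc Y, ← Matrix.mul_assoc X, hXY, Matrix.mul_assoc, Matrix.mul_assoc, hXY,
      ← map_mul, ← map_mul, single_mul_single_same, single_mul_single_same, one_mul, mul_one]
  have h2 : ∀ M : Matrix (Fin d) (Fin d) L, Y * (X * M * Y) * X = M := fun M => by
    rw [Matrix.mul_assoc X, ← Matrix.mul_assoc Y, hYX, Matrix.one_mul, Matrix.mul_assoc, hYX,
      Matrix.mul_one]
  have h3 : ∀ x, Y * φ (single a a (x a a)) * X = Y * φ x * X := fun x => by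
    have e := single_mul_mul_single a a a a (1 : D) x 1
    rw [one_mul, mul_one] at e
    rw [← e, map_mul, map_mul, ← hXY]
    simp only [← Matrix.mul_assoc, hYX, Matrix.one_mul]
    rw [Matrix.mul_assoc _ Y, hYX, Matrix.mul_one]
  let ψ : D →ₐ[F] Matrix (Fin d) (Fin d) L := AlgHom.ofLinearMap
    { toFun := fun x => Y * φ (single a a x) * X
      map_add' := fun x y => by rw [single_add, map_add, Matrix.mul_add, Matrix.add_mul]
      map_smul' := fun c x => by
        rw [← smul_single, map_smul, Matrix.mul_smul, Matrix.smul_mul, RingHom.id_apply] }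
    (by
      change Y * φ (single a a 1) * X = 1
      rw [← hXY, ← Matrix.mul_assoc, hYX, Matrix.one_mul, hYX])
    fun x y => by
      change Y * φ (single a a (x * y)) * X = Y * φ (single a a x) * X * (Y * φ (single a a y) * X)
      rw [← single_mul_single_same (j := a), map_mul]
      conv_lhs => rw [← h1 y]
      simp only [← Matrix.mul_assoc]
      rw [Matrix.mul_assoc _ Y X, hYX, Matrix.mul_one]
  have h4 : Submodule.span L (Set.range ψ) = ⊤ := by
    rw [eq_top_iff]
    rintro M -
    have h5 : X * M * Y ∈ Submodule.span L (Set.range φ) := h ▸ Submodule.mem_top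
    rw [← h2 M]
    generalize X * M * Y = N at h5
    induction h5 using Submodule.span_induction with
    | mem _ hy =>
      obtain ⟨x, rfl⟩ := hy
      exact Submodule.subset_span ⟨x a a, h3 x⟩
    | zero => rw [Matrix.mul_zero, Matrix.zero_mul]; exact zero_mem _
    | add _ _ _ _ h1 h2 => rw [Matrix.mul_add, Matrix.add_mul]; exact add_mem h1 h2
    | smul c _ _ h1 => rw [Matrix.mul_smul, Matrix.smul_mul]; exact Submodule.smul_mem _ c h1
  refine ⟨d, ?_, ψ, h4⟩
  let b := finBasis F D
  have h5 := (abd_indep ((finrank_eq_card_basis (b.matrix (Fin r) (Fin r))).symm.trans hr)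
    (b.matrix (Fin r) (Fin r)) φ h).comp (fun l => (a, a, l)) fun _ _ e => congrArg (·.2.2) e
  have h6 : LinearIndependent L fun l => ψ (b l) := by
    refine Fintype.linearIndependent_iff.2 fun c hc => Fintype.linearIndependent_iff.1 h5 c ?_
    have h7 := congrArg (fun M => X * M * Y) hc
    simp only [Matrix.mul_sum, Matrix.sum_mul, Matrix.mul_smul, Matrix.smul_mul, Matrix.mul_zero,
      Matrix.zero_mul] at h7
    rw [← h7]
    refine Finset.sum_congr rfl fun l _ => congrArg (c l • ·) ?_
    rw [Function.comp_apply, Basis.matrix_apply]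
    exact (h1 _).symm
  have h7 := finrank_eq_card_basis (Basis.mk h6 (abd_span b ψ h4).ge)
  simpa [Module.finrank_matrix] using h7.symm

lemma abh_simple {B : Type} [Ring B] [Algebra F B] [Nontrivial B] (e : Basis (Fin (n * n)) F B)
    (φ : B →ₐ[F] Matrix (Fin n) (Fin n) L) (h : Submodule.span L (Set.range φ) = ⊤) :
    IsSimpleRing B := by
  obtain ⟨c, hc⟩ := exists_coord e φ h
  refine .of_eq_bot_or_eq_top fun I => ?_
  rw [or_iff_not_imp_left, ← I.one_mem_iff]
  intro H
  obtain ⟨x, hx, hx0 : x ≠ 0⟩ := SetLike.exists_of_lt (bot_lt_iff_ne_bot.2 H : ⊥ < I)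
  obtain ⟨i, hi⟩ : ∃ i, e.repr x i ≠ 0 := by
    by_contra h0
    exact hx0 (e.ext_elem fun i => by simpa using not_exists.1 h0 i)
  have h1 : algebraMap F B (e.repr x i) ∈ I := by
    rw [← hc]
    refine sum_mem fun l _ => sum_mem fun m _ => ?_
    rw [Algebra.smul_def]
    exact I.mul_mem_left _ _ (I.mul_mem_right _ _ (I.mul_mem_left _ _ hx))
  have h2 := I.mul_mem_left (algebraMap F B (e.repr x i)⁻¹) _ h1
  rwa [← map_mul, inv_mul_cancel₀ hi, map_one] at h2

lemma abh_tensor {B : Type} [Ring B] [Algebra F B]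
    (e : L ⊗[F] B ≃ₐ[L] Matrix (Fin n) (Fin n) L) : finrank F B = n * n ∧
      ∃ φ : B →ₐ[F] Matrix (Fin n) (Fin n) L, Submodule.span L (Set.range φ) = ⊤ := by
  refine ⟨?_, (e.toAlgHom.restrictScalars F).comp Algebra.TensorProduct.includeRight, ?_⟩
  · have h := e.toLinearEquiv.finrank_eq
    simpa [Module.finrank_matrix] using h
  · rw [eq_top_iff]
    rintro M -
    obtain ⟨t, rfl⟩ := e.surjective M
    induction t using TensorProduct.induction_on with
    | zero => rw [map_zero]; exact zero_mem _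
    | tmul a x =>
      rw [← mul_one a, ← smul_eq_mul, ← TensorProduct.smul_tmul', map_smul]
      exact Submodule.smul_mem _ a (Submodule.subset_span ⟨x, rfl⟩)
    | add _ _ h1 h2 => rw [map_add]; exact add_mem h1 h2

end

variable {F : Type} [Field F] [Cv F] {n : ℕ}

/-- a division algebra that is split at all places is the field itself -/
theorem abh_division {D : Type} [DivisionRing D] [Algebra F D] [Module.Finite F D]
    (hD : finrank F D = n * n) (φ : ∀ v : Place F, D →ₐ[F] Matrix (Fin n) (Fin n) v.Compl)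
    (h : ∀ v : Place F, Submodule.span v.Compl (Set.range (φ v)) = ⊤) : n < 2 := by
  by_contra hn
  rw [not_lt] at hn
  obtain ⟨Ψ, ι, hΨ⟩ := exists_adelic (zero_lt_two.trans_le hn) (finBasisOfFinrankEq F D hD) φ h
  generalize finBasisOfFinrankEq F D hD = e at hΨ
  refine IsDivN.false (Γ := (Units.map Ψ).range) (ι := ι) ⟨hn, fun y hy => ?_, ?_⟩
  · refine ⟨_, ⟨Units.mk0 (e.equivFun.symm y) (e.equivFun.symm.map_ne_zero_iff.2 hy), rfl⟩, ?_⟩
    rw [Units.coe_map, Units.val_mk0, hΨ, LinearEquiv.apply_symm_apply]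
  · rintro _ ⟨u, rfl⟩
    exact ⟨_, hΨ u⟩

/-- the theorem of Albert, Brauer, Hasse and Noether for global function fields -/
theorem abhn (hn : 0 < n) : Abhn F n := by
  intro B _ _ _ hloc
  have h0 := fun v : Place F => (hloc v).elim abh_tensor
  have hB := (h0 Cv.P).1
  choose φ hφ using fun v => (h0 v).2
  have : Nontrivial B := Module.nontrivial_of_finrank_pos (R := F) (by rw [hB]; positivity)
  have := abh_simple (finBasisOfFinrankEq F B hB) (φ Cv.P) (hφ _)
  have := IsArtinianRing.of_finite F B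
  obtain ⟨r, hr, D, _, _, _, ⟨e⟩⟩ := IsSimpleRing.exists_algEquiv_matrix_divisionRing_finite F B
  have h1 : finrank F (Matrix (Fin r) (Fin r) D) = n * n := e.toLinearEquiv.finrank_eq.symm.trans hB
  have h2 := fun v : Place F => abh_corner (0 : Fin r) h1 ((φ v).comp e.symm.toAlgHom) (by
    rw [← hφ v]
    exact congrArg _ (e.symm.surjective.range_comp (φ v)))
  obtain ⟨d, hd, -⟩ := h2 Cv.P
  have h3 : ∀ v : Place F, ∃ ψ : D →ₐ[F] Matrix (Fin d) (Fin d) v.Compl,
      Submodule.span v.Compl (Set.range ψ) = ⊤ := fun v => by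
    obtain ⟨d', hd', h⟩ := h2 v
    obtain rfl := Nat.mul_self_inj.1 (hd.symm.trans hd')
    exact h
  choose ψ hψ using h3
  have h4 := abh_division hd ψ hψ
  have h5 : 0 < finrank F D := finrank_pos
  have h6 : finrank F D = 1 := by
    rw [hd] at h5 ⊢
    interval_cases d
    · exact absurd h5 (lt_irrefl _)
    · rfl
  obtain rfl : r = n := Nat.mul_self_inj.1 (by simpa [Module.finrank_matrix, h6] using h1)
  exact ⟨e.trans (AlgEquiv.ofBijective (Algebra.ofId F D)
    (Algebra.finrank_eq_one_iff_bijective_algebraMap.1 h6)).symm.mapMatrix⟩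

theorem abhn3 : Abhn F 3 := abhn three_pos

end H5T
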