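import Pool.Agent.H5T.Bridge3

/-! Descent for an abstract theory of models of degree `n` in projective `(m-1)`-space. -/

namespace H5T

open WeierstrassCurve Matrix SelAvg Filter Topology
open scoped Classical

/-- the absolute Galois group -/
abbrev Gal (K : Type) [Field K] : Type := SeparableClosure K ≃ₐ[K] SeparableClosure K

/-- the same point of projective space -/
def Eqv {L : Type} [Field L] {m : ℕ} (Q Q' : Fin m → L) : Prop := ∃ t : L, t ≠ 0 ∧ Q' = t • Q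

/-- base change of points -/
def pm {L L' : Type} [Field L] [Field L'] {m : ℕ} (φ : L →+* L') (Q : Fin m → L) : Fin m → L' :=
  φ ∘ Q

/-- The axioms used in the descent. -/
structure Th (n m : ℕ) where
  Obj : (L : Type) → [Field L] → Type
  G : (L : Type) → [Field L] → Type
  [grp : ∀ (L : Type) [Field L], Group (G L)]
  [act : ∀ (L : Type) [Field L], MulAction (G L) (Obj L)]
  omap : ∀ {L L' : Type} [Field L] [Field L'], (L →+* L') → Obj L → Obj L'
  gmap : ∀ {L L' : Type} [Field L] [Field L'], (L →+* L') → G L →* G L'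
  mat : ∀ {L : Type} [Field L], G L →* GL (Fin m) L
  scalar : ∀ {L : Type} [Field L], Lˣ →* G L
  pt : ∀ {L : Type} [Field L], G L → (Fin m → L) → Fin m → L
  Over : ∀ {L : Type} [Field L], Obj L → WeierstrassCurve L → Prop
  On : ∀ {L : Type} [Field L], Obj L → (Fin m → L) → Prop
  D : ∀ {L : Type} [Field L] (W : WeierstrassCurve L),
    Obj L → (Fin m → L) → (Fin m → L) → W.toAffine.Point
  piP : ∀ {L : Type} [Field L] (W : WeierstrassCurve L), Obj L → (Fin m → L) → W.toAffine.Point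
  pt_eq : ∀ {L : Type} [Field L] (g : G L) (Q : Fin m → L), pt g Q = Q ᵥ* (mat g).1
  omap_omap : ∀ {L L' L'' : Type} [Field L] [Field L'] [Field L''] (φ : L →+* L') (ψ : L' →+* L'')
    (z : Obj L), omap ψ (omap φ z) = omap (ψ.comp φ) z
  omap_inj : ∀ {L L' : Type} [Field L] [Field L'] (φ : L →+* L'), Function.Injective (omap φ)
  omap_smul : ∀ {L L' : Type} [Field L] [Field L'] (φ : L →+* L') (g : G L) (z : Obj L),
    omap φ (g • z) = gmap φ g • omap φ z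
  gmap_gmap : ∀ {L L' L'' : Type} [Field L] [Field L'] [Field L''] (φ : L →+* L') (ψ : L' →+* L'')
    (g : G L), gmap ψ (gmap φ g) = gmap (ψ.comp φ) g
  gmap_inj : ∀ {L L' : Type} [Field L] [Field L'] (φ : L →+* L'), Function.Injective (gmap φ)
  gmap_scalar : ∀ {L L' : Type} [Field L] [Field L'] (φ : L →+* L') (t : Lˣ),
    gmap φ (scalar t) = scalar (Units.map φ t)
  mat_gmap : ∀ {L L' : Type} [Field L] [Field L'] (φ : L →+* L') (g : G L),
    mat (gmap φ g) = GeneralLinearGroup.map φ (mat g)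
  mat_scalar : ∀ {L : Type} [Field L] (t : Lˣ),
    ∃ s, mat (scalar t) = GeneralLinearGroup.scalar (Fin m) s
  scalar_comm : ∀ {L : Type} [Field L] (t : Lˣ) (g : G L), scalar t * g = g * scalar t
  scalar_inj : ∀ {L : Type} [Field L], Function.Injective (scalar : Lˣ →* G L)
  scalar_smul : ∀ {L : Type} [Field L] (t : Lˣ) (z : Obj L), scalar t • z = z
  over_omap : ∀ {L L' : Type} [Field L] [Field L'] (φ : L →+* L') {z : Obj L}
    {W : WeierstrassCurve L}, Over (omap φ z) (W.map φ) ↔ Over z W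
  over_smul : ∀ {L : Type} [Field L] {z : Obj L} {W : WeierstrassCurve L}, Over z W →
    ∀ g : G L, Over (g • z) W
  on_ne : ∀ {L : Type} [Field L] {z : Obj L} {Q : Fin m → L}, On z Q → Q ≠ 0
  on_eqv : ∀ {L : Type} [Field L] {z : Obj L} {Q Q' : Fin m → L}, On z Q → Eqv Q Q' → On z Q'
  on_omap : ∀ {L L' : Type} [Field L] [Field L'] (φ : L →+* L') (z : Obj L) (Q : Fin m → L),
    On (omap φ z) (pm φ Q) ↔ On z Q
  on_pt : ∀ {L : Type} [Field L] (g : G L) (z : Obj L) (Q : Fin m → L),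
    On z (pt g Q) ↔ On (g • z) Q
  D_add : ∀ {L : Type} [Field L] {W : WeierstrassCurve L} {z : Obj L}, W.Δ ≠ 0 → Over z W →
    ∀ {Q₁ Q₂ Q₃ : Fin m → L}, On z Q₁ → On z Q₂ → On z Q₃ →
      D W z Q₁ Q₂ + D W z Q₂ Q₃ = D W z Q₁ Q₃
  D_eq_zero_iff : ∀ {L : Type} [Field L] {W : WeierstrassCurve L} {z : Obj L}, W.Δ ≠ 0 →
    Over z W → ∀ {Q Q' : Fin m → L}, On z Q → On z Q' → (D W z Q Q' = 0 ↔ Eqv Q Q')
  D_surj : ∀ {L : Type} [Field L] {W : WeierstrassCurve L} {z : Obj L}, W.Δ ≠ 0 →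
    Over z W → ∀ {Q : Fin m → L}, On z Q → ∀ P : W.toAffine.Point, ∃ Q', On z Q' ∧ D W z Q Q' = P
  D_smul : ∀ {L : Type} [Field L] {W : WeierstrassCurve L} {z : Obj L}, W.Δ ≠ 0 → Over z W →
    ∀ (g : G L) {Q Q' : Fin m → L}, On (g • z) Q → On (g • z) Q' →
      D W (g • z) Q Q' = D W z (pt g Q) (pt g Q')
  piP_smul : ∀ {L : Type} [Field L] {W : WeierstrassCurve L} {z : Obj L}, W.Δ ≠ 0 → Over z W →
    ∀ (g : G L) {Q : Fin m → L}, On (g • z) Q → piP W (g • z) Q = piP W z (pt g Q)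
  D_map : ∀ {L L' : Type} [Field L] [Field L'] (φ : L →+* L') {W : WeierstrassCurve L} {z : Obj L},
    W.Δ ≠ 0 → Over z W → ∀ {Q Q' : Fin m → L}, On z Q → On z Q' →
      toRaw (D (W.map φ) (omap φ z) (pm φ Q) (pm φ Q')) = rawMap φ (toRaw (D W z Q Q'))
  piP_map : ∀ {L L' : Type} [Field L] [Field L'] (φ : L →+* L') {W : WeierstrassCurve L}
    {z : Obj L}, W.Δ ≠ 0 → Over z W → ∀ {Q : Fin m → L}, On z Q →
      toRaw (piP (W.map φ) (omap φ z) (pm φ Q)) = rawMap φ (toRaw (piP W z Q))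
  smul_D : ∀ {L : Type} [Field L] {W : WeierstrassCurve L} {z : Obj L}, W.Δ ≠ 0 → Over z W →
    ∀ {Q Q' : Fin m → L}, On z Q → On z Q' → n • D W z Q Q' = piP W z Q - piP W z Q'
  exists_iso : ∀ {L : Type} [Field L] {W : WeierstrassCurve L} {z z' : Obj L}, W.Δ ≠ 0 →
    Over z W → Over z' W → ∀ {Q Q' : Fin m → L}, On z Q → On z' Q' → piP W z Q = piP W z' Q' →
      ∃ g : G L, g • z' = z ∧ Eqv (pt g Q) Q'
  eq_scalar : ∀ {L : Type} [Field L] {W : WeierstrassCurve L} {z : Obj L}, W.Δ ≠ 0 → Over z W →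
    ∀ {Q : Fin m → L}, On z Q → ∀ {g : G L}, g • z = z → Eqv (pt g Q) Q → ∃ t, g = scalar t
  piP_surj : ∀ {L : Type} [Field L] {W : WeierstrassCurve L}, W.Δ ≠ 0 → ∀ P : W.toAffine.Point,
    ∃ z Q, Over z W ∧ On z Q ∧ piP W z Q = P
  sep_point : ∀ {K : Type} [Field K] {W : WeierstrassCurve K} {z : Obj K}, W.Δ ≠ 0 → Over z W →
    ∃ Q, On (omap (toSep K) z) Q
  ofin : ∀ {K : Type} [Field K] (z : Obj (SeparableClosure K)),
    ∀ᶠ σ : Gal K in 𝓝 1, omap (galHom σ) z = z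
  gfin : ∀ {K : Type} [Field K] (g : G (SeparableClosure K)),
    ∀ᶠ σ : Gal K in 𝓝 1, gmap (galHom σ) g = g
  odesc : ∀ {K : Type} [Field K] {z : Obj (SeparableClosure K)},
    (∀ σ : Gal K, omap (galHom σ) z = z) → ∃ z₀, omap (toSep K) z₀ = z
  gdesc : ∀ {K : Type} [Field K] {g : G (SeparableClosure K)},
    (∀ σ : Gal K, gmap (galHom σ) g = g) → ∃ g₀, gmap (toSep K) g₀ = g

instance {n m : ℕ} (T : Th n m) (L : Type) [Field L] : Group (T.G L) := T.grp L

instance {n m : ℕ} (T : Th n m) (L : Type) [Field L] : MulAction (T.G L) (T.Obj L) := T.act L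

section Basic

variable {L L' : Type} [Field L] [Field L'] {m : ℕ}

lemma Eqv.refl (Q : Fin m → L) : Eqv Q Q := ⟨1, one_ne_zero, (one_smul _ _).symm⟩

lemma Eqv.symm {Q Q' : Fin m → L} (h : Eqv Q Q') : Eqv Q' Q := by
  obtain ⟨t, ht, rfl⟩ := h
  exact ⟨t⁻¹, inv_ne_zero ht, by rw [smul_smul, inv_mul_cancel₀ ht, one_smul]⟩

lemma Eqv.trans {Q Q' Q'' : Fin m → L} (h : Eqv Q Q') (h' : Eqv Q' Q'') : Eqv Q Q'' := by
  obtain ⟨t, ht, rfl⟩ := h
  obtain ⟨s, hs, rfl⟩ := h'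
  exact ⟨s * t, mul_ne_zero hs ht, smul_smul _ _ _⟩

lemma pm_apply (φ : L →+* L') (Q : Fin m → L) (i : Fin m) : pm φ Q i = φ (Q i) := rfl

lemma pm_smul (φ : L →+* L') (t : L) (Q : Fin m → L) : pm φ (t • Q) = φ t • pm φ Q := by
  funext i
  simp [pm_apply]

lemma Eqv.map {Q Q' : Fin m → L} (h : Eqv Q Q') (φ : L →+* L') : Eqv (pm φ Q) (pm φ Q') := by
  obtain ⟨t, ht, rfl⟩ := h
  exact ⟨φ t, (map_ne_zero φ).2 ht, pm_smul φ t Q⟩

lemma pm_pm {L'' : Type} [Field L''] (φ : L →+* L') (ψ : L' →+* L'') (Q : Fin m → L) :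
    pm ψ (pm φ Q) = pm (ψ.comp φ) Q := rfl

lemma Delta_map {W : WeierstrassCurve L} (hW : W.Δ ≠ 0) (φ : L →+* L') : (W.map φ).Δ ≠ 0 := by
  rw [map_Δ]
  exact (map_ne_zero φ).2 hW

variable {K : Type} [Field K]

lemma galHom_mul (σ τ : Gal K) : galHom (σ * τ) = (galHom σ).comp (galHom τ) := rfl

lemma ev_fix (x : SeparableClosure K) : ∀ᶠ σ : Gal K in 𝓝 1, σ x = x :=
  (cl_locConst x).eventually_eq 1

lemma ev_iff {p : Gal K → Prop} : (∀ᶠ σ in 𝓝 1, p σ) ↔
    ∃ E : IntermediateField K (SeparableClosure K), FiniteDimensional K E ∧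
      ∀ σ ∈ E.fixingSubgroup, p σ :=
  krullTopology_mem_nhds_one_iff K (SeparableClosure K) _

lemma ev_pm (Q : Fin m → SeparableClosure K) : ∀ᶠ σ : Gal K in 𝓝 1, pm (galHom σ) Q = Q :=
  (eventually_all.2 fun i => ev_fix (Q i)).mono fun _ h => funext h

lemma ev_units (t : (SeparableClosure K)ˣ) : ∀ᶠ σ : Gal K in 𝓝 1,
    Units.map (galHom σ : SeparableClosure K →* SeparableClosure K) t = t :=
  (ev_fix (t : SeparableClosure K)).mono fun _ h => Units.ext h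

lemma ev_GL (H : GL (Fin m) (SeparableClosure K)) : ∀ᶠ σ : Gal K in 𝓝 1,
    GeneralLinearGroup.map (galHom σ) H = H :=
  (eventually_all.2 fun i => eventually_all.2 fun j => ev_fix (H.1 i j)).mono fun _ h =>
    Units.ext (Matrix.ext h)

lemma desc_units {t : (SeparableClosure K)ˣ}
    (h : ∀ σ : Gal K, Units.map (galHom σ : SeparableClosure K →* SeparableClosure K) t = t) :
    ∃ t₀ : Kˣ, Units.map (toSep K : K →* SeparableClosure K) t₀ = t := by
  obtain ⟨a, ha⟩ := desc1_fixed (x := (t : SeparableClosure K)) fun σ => congrArg Units.val (h σ)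
  exact ⟨Units.mk0 a fun e => t.ne_zero (by rw [← ha, e, map_zero]), Units.ext ha⟩

lemma desc_GL {H : GL (Fin m) (SeparableClosure K)}
    (h : ∀ σ : Gal K, GeneralLinearGroup.map (galHom σ) H = H) :
    ∃ H₀ : GL (Fin m) K, GeneralLinearGroup.map (toSep K) H₀ = H := by
  have hM : ∀ i j, ∃ x₀ : K, toSep K x₀ = H.1 i j := fun i j =>
    desc1_fixed fun σ => congrArg (fun g : GL (Fin m) (SeparableClosure K) => g.1 i j) (h σ)
  choose M hM using hM
  have hMM : (toSep K).mapMatrix (Matrix.of M) = H.1 := Matrix.ext fun i j => hM i j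
  have hdet : (Matrix.of M).det ≠ 0 := by
    intro h0
    have h1 := (toSep K).map_det (Matrix.of M)
    rw [h0, map_zero, hMM] at h1
    exact H.det_ne_zero h1.symm
  exact ⟨GeneralLinearGroup.mkOfDetNeZero _ hdet, Units.ext (Matrix.ext fun i j => hM i j)⟩

/-- Hilbert 90 for `GL` -/
theorem h90_GL (A : Gal K → GL (Fin m) (SeparableClosure K))
    (hA : ∀ σ τ, A (σ * τ) = GeneralLinearGroup.map (galHom σ) (A τ) * A σ)
    (hc : ∀ᶠ σ in 𝓝 1, A σ = 1) : ∃ B : GL (Fin m) (SeparableClosure K),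
      ∀ σ, GeneralLinearGroup.map (galHom σ) B * A σ = B := by
  obtain ⟨E, hE, h⟩ := ev_iff.1 hc
  obtain ⟨B, hB, h1⟩ := speiser (fun σ => (A σ).1) (fun σ τ => congrArg Units.val (hA σ τ)) E
    fun σ hσ => congrArg Units.val (h σ hσ)
  exact ⟨GeneralLinearGroup.mkOfDetNeZero B hB, fun σ => Units.ext (h1 σ)⟩

/-- Hilbert 90 -/
theorem h90_units (t : Gal K → (SeparableClosure K)ˣ)
    (ht : ∀ σ τ, t (σ * τ) =
      Units.map (galHom σ : SeparableClosure K →* SeparableClosure K) (t τ) * t σ)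
    (hc : ∀ᶠ σ in 𝓝 1, t σ = 1) : ∃ s : (SeparableClosure K)ˣ,
      ∀ σ, Units.map (galHom σ : SeparableClosure K →* SeparableClosure K) s * t σ = s := by
  obtain ⟨E, hE, h⟩ := ev_iff.1 hc
  obtain ⟨B, hB, h1⟩ := speiser (n := Unit) (fun σ => Matrix.of fun _ _ => (t σ).1)
    (fun σ τ => by
      ext i j
      simp [Matrix.mul_apply, ht]) E
    fun σ hσ => by
      ext i j
      simp [h σ hσ]
  rw [det_unique] at hB
  refine ⟨Units.mk0 _ hB, fun σ => Units.ext ?_⟩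
  simpa [Matrix.mul_apply] using congrFun (congrFun (h1 σ) default) default

/-- A point whose class is fixed by the Galois group is equivalent to a rational point. -/
lemma exists_rational_pt {Q : Fin m → SeparableClosure K} (hQ : Q ≠ 0)
    (h : ∀ σ : Gal K, Eqv Q (pm (galHom σ) Q)) : ∃ Q₀ : Fin m → K, Eqv Q (pm (toSep K) Q₀) := by
  obtain ⟨i, hi⟩ := Function.ne_iff.1 hQ
  have hi' : Q i ≠ 0 := hi
  have hd : ∀ j, ∃ d, toSep K d = Q j / Q i := fun j => desc1_fixed fun σ => by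
    obtain ⟨s, hs, e⟩ := h σ
    have e' : ∀ k, σ (Q k) = s * Q k := fun k => congrFun e k
    rw [map_div₀, e', e', mul_div_mul_left _ _ hs]
  choose d hd using hd
  refine ⟨d, (Q i)⁻¹, inv_ne_zero hi', funext fun j => ?_⟩
  rw [pm_apply, hd, div_eq_inv_mul]
  rfl

lemma xi_one {W : WeierstrassCurve K} {n : ℕ} (c : Cocycle W n) : c.ξ 1 = 0 := by
  have h := c.cocycle 1 1
  have e : galAct W K 1 (c.ξ 1) = c.ξ 1 := by
    apply toRaw_injective (W := W.map (toSep K))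
    rw [toRaw_galAct]
    cases toRaw (W := W.map (toSep K)) (c.ξ 1) <;> rfl
  rw [mul_one, e] at h
  exact left_eq_add.1 h

/-- no rational point of order dividing `n` -/
def NoTors (W : WeierstrassCurve L) (n : ℕ) : Prop := ∀ P : W.toAffine.Point, n • P = 0 → P = 0

lemma noTors_smul (C : VariableChange L) (W : WeierstrassCurve L) (n : ℕ) :
    NoTors (C • W) n ↔ NoTors W n := by
  let e := vcPt C (rfl : C • W = C • W)
  refine ⟨fun h P hP => ?_, fun h P hP => ?_⟩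
  · have := h (e.symm P) (by rw [← map_nsmul, hP, map_zero])
    rwa [map_eq_zero_iff _ e.symm.injective] at this
  · have := h (e P) (by rw [← map_nsmul, hP, map_zero])
    rwa [map_eq_zero_iff _ e.injective] at this

/-- a Galois invariant point is rational -/
lemma desc_point {W : WeierstrassCurve K} (hW : W.Δ ≠ 0) {P : (W.map (toSep K)).toAffine.Point}
    (h : ∀ σ : Gal K, rawMap (galHom σ) (toRaw P) = toRaw P) :
    ∃ P₀ : W.toAffine.Point, pmap (toSep K) rfl P₀ = P := by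
  have hv := valid_toRaw P
  obtain ⟨p, hp⟩ : ∃ p, rawMap (toSep K) p = toRaw P := by
    generalize toRaw P = q at h
    rcases q with _ | ⟨x, y⟩
    · exact ⟨none, rfl⟩
    · obtain ⟨x₀, rfl⟩ := desc1_fixed (x := x) fun σ => (Prod.mk.inj (Option.some.inj (h σ))).1
      obtain ⟨y₀, rfl⟩ := desc1_fixed (x := y) fun σ => (Prod.mk.inj (Option.some.inj (h σ))).2
      exact ⟨some (x₀, y₀), rfl⟩
  rw [← hp, valid_rawMap] at hv
  exact ⟨ofRaw W p, toRaw_injective (by rw [toRaw_pmap, toRaw_ofRaw hW hv, hp])⟩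

end Basic

namespace Th

variable {n m : ℕ} {T : Th n m}

section Field

variable {L L' : Type} [Field L] [Field L'] {W : WeierstrassCurve L} {z : T.Obj L}

lemma mul_pt (g h : T.G L) (Q : Fin m → L) : T.pt (g * h) Q = T.pt h (T.pt g Q) := by
  simp only [T.pt_eq, map_mul, Units.val_mul, vecMul_vecMul]

lemma one_pt (Q : Fin m → L) : T.pt (1 : T.G L) Q = Q := by
  simp only [T.pt_eq, map_one, Units.val_one, vecMul_one]

lemma inv_pt_pt (g : T.G L) (Q : Fin m → L) : T.pt g⁻¹ (T.pt g Q) = Q := by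
  rw [← mul_pt, mul_inv_cancel, one_pt]

lemma pt_inv_pt (g : T.G L) (Q : Fin m → L) : T.pt g (T.pt g⁻¹ Q) = Q := by
  rw [← mul_pt, inv_mul_cancel, one_pt]

lemma map_pt (φ : L →+* L') (g : T.G L) (Q : Fin m → L) :
    T.pt (T.gmap φ g) (pm φ Q) = pm φ (T.pt g Q) := by
  rw [T.pt_eq, T.pt_eq, T.mat_gmap]
  funext j
  simp [pm_apply, vecMul, dotProduct]

lemma eqv_pt {Q Q' : Fin m → L} (h : Eqv Q Q') (g : T.G L) : Eqv (T.pt g Q) (T.pt g Q') := by
  obtain ⟨t, ht, rfl⟩ := h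
  exact ⟨t, ht, by rw [T.pt_eq, T.pt_eq, smul_vecMul]⟩

lemma scalar_pt (t : Lˣ) (Q : Fin m → L) : Eqv Q (T.pt (T.scalar t) Q) := by
  obtain ⟨s, hs⟩ := T.mat_scalar t
  refine ⟨s, s.ne_zero, ?_⟩
  rw [T.pt_eq, hs, ← mul_one (GeneralLinearGroup.scalar (Fin m) s).1, br3_scalar, vecMul_smul,
    vecMul_one]

lemma D_self (hW : W.Δ ≠ 0) (hz : T.Over z W) {Q : Fin m → L} (hQ : T.On z Q) :
    T.D W z Q Q = 0 := (T.D_eq_zero_iff hW hz hQ hQ).2 (Eqv.refl Q)

lemma D_symm (hW : W.Δ ≠ 0) (hz : T.Over z W) {Q Q' : Fin m → L} (hQ : T.On z Q)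
    (hQ' : T.On z Q') : T.D W z Q' Q = -T.D W z Q Q' := by
  rw [eq_neg_iff_add_eq_zero, T.D_add hW hz hQ' hQ hQ', D_self hW hz hQ']

lemma D_eqv (hW : W.Δ ≠ 0) (hz : T.Over z W) {Q₁ Q₁' Q₂ Q₂' : Fin m → L} (h₁ : T.On z Q₁)
    (h₂ : T.On z Q₂) (e₁ : Eqv Q₁ Q₁') (e₂ : Eqv Q₂ Q₂') : T.D W z Q₁ Q₂ = T.D W z Q₁' Q₂' := by
  have h₁' := T.on_eqv h₁ e₁
  have h₂' := T.on_eqv h₂ e₂
  rw [← T.D_add hW hz h₁ h₁' h₂, ← T.D_add hW hz h₁' h₂ h₂', (T.D_eq_zero_iff hW hz h₁ h₁').2 e₁,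
    (T.D_eq_zero_iff hW hz h₂ h₂').2 e₂, zero_add, add_zero]

lemma piP_eqv (hW : W.Δ ≠ 0) (hz : T.Over z W) {Q Q' : Fin m → L} (h : T.On z Q) (e : Eqv Q Q') :
    T.piP W z Q = T.piP W z Q' := by
  have h' := T.on_eqv h e
  rw [← sub_eq_zero, ← T.smul_D hW hz h h', (T.D_eq_zero_iff hW hz h h').2 e, smul_zero]

lemma D_inj (hW : W.Δ ≠ 0) (hz : T.Over z W) {Q Q' Q'' : Fin m → L} (hQ : T.On z Q)
    (hQ' : T.On z Q') (hQ'' : T.On z Q'') (h : T.D W z Q Q' = T.D W z Q Q'') : Eqv Q' Q'' := by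
  have h1 := T.D_add hW hz hQ hQ' hQ''
  rw [h] at h1
  exact (T.D_eq_zero_iff hW hz hQ' hQ'').1 (add_eq_left.1 h1)

lemma iso_unique (hW : W.Δ ≠ 0) (hz : T.Over z W) {Q : Fin m → L} {g g' : T.G L}
    (hQ : T.On (g • z) Q) (hg : g • z = g' • z) (hgQ : Eqv (T.pt g Q) (T.pt g' Q)) :
    ∃ t : Lˣ, g' = T.scalar t * g := by
  have h1 : (g' * g⁻¹) • (g • z) = g • z := by rw [mul_smul, inv_smul_smul, hg]
  have h2 : Eqv (T.pt (g' * g⁻¹) Q) Q := by
    rw [mul_pt]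
    have := eqv_pt hgQ.symm g⁻¹
    rwa [inv_pt_pt] at this
  obtain ⟨t, ht⟩ := T.eq_scalar hW (T.over_smul hz g) hQ h1 h2
  exact ⟨t, by rw [← ht, inv_mul_cancel_right]⟩

lemma on_aut {g : T.G L} (hg : g • z = z) {Q : Fin m → L} (hQ : T.On z Q) : T.On z (T.pt g Q) := by
  rw [T.on_pt, hg]
  exact hQ

/-- An automorphism moves every point by the same torsion point. -/
lemma aut_translation (hW : W.Δ ≠ 0) (hz : T.Over z W) {g : T.G L} (hg : g • z = z)
    {Q Q' : Fin m → L} (hQ : T.On z Q) (hQ' : T.On z Q') :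
    T.D W z Q (T.pt g Q) = T.D W z Q' (T.pt g Q') ∧ n • T.D W z Q (T.pt g Q) = 0 := by
  have hgQ := on_aut hg hQ
  have hgQ' := on_aut hg hQ'
  have h1 := T.D_smul hW hz g (Q := Q) (Q' := Q') (by rw [hg]; exact hQ) (by rw [hg]; exact hQ')
  have h2 := T.piP_smul hW hz g (Q := Q) (by rw [hg]; exact hQ)
  rw [hg] at h1 h2
  refine ⟨?_, ?_⟩
  · have h3 := T.D_add hW hz hQ hgQ hgQ'
    have h4 := T.D_add hW hz hQ hQ' hgQ'
    rw [← h1, ← h4, add_comm] at h3
    exact add_left_cancel h3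
  · rw [T.smul_D hW hz hQ hgQ, h2, sub_self]

lemma D_map' (φ : L →+* L') {W' : WeierstrassCurve L'} {z' : T.Obj L'} (e : W.map φ = W')
    (e' : T.omap φ z = z') (hW : W.Δ ≠ 0) (hz : T.Over z W) {Q Q' : Fin m → L} (hQ : T.On z Q)
    (hQ' : T.On z Q') :
    toRaw (T.D W' z' (pm φ Q) (pm φ Q')) = rawMap φ (toRaw (T.D W z Q Q')) := by
  subst e e'
  exact T.D_map φ hW hz hQ hQ'

lemma piP_map' (φ : L →+* L') {W' : WeierstrassCurve L'} {z' : T.Obj L'} (e : W.map φ = W')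
    (e' : T.omap φ z = z') (hW : W.Δ ≠ 0) (hz : T.Over z W) {Q : Fin m → L} (hQ : T.On z Q) :
    toRaw (T.piP W' z' (pm φ Q)) = rawMap φ (toRaw (T.piP W z Q)) := by
  subst e e'
  exact T.piP_map φ hW hz hQ

lemma card_aut {N : ℕ} (hW : W.Δ ≠ 0) (hz : T.Over z W) {Q : Fin m → L} (hQ : T.On z Q)
    (hN : ∀ s : Finset W.toAffine.Point, (∀ P ∈ s, n • P = 0) → s.card ≤ N) (s : Finset (T.G L))
    (hs : ∀ g ∈ s, g • z = z)
    (hs' : ∀ g ∈ s, ∀ g' ∈ s, ∀ t : Lˣ, g' = T.scalar t * g → g = g') : s.card ≤ N := by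
  rw [← Finset.card_image_of_injOn (f := fun g : T.G L => T.D W z Q (T.pt g Q))]
  · refine hN _ fun P hP => ?_
    obtain ⟨g, hg, rfl⟩ := Finset.mem_image.1 hP
    exact (aut_translation hW hz (hs g hg) hQ hQ).2
  · intro g hg g' hg' h
    obtain ⟨t, ht⟩ := iso_unique hW hz (Q := Q) (g := g) (g' := g') (by rw [hs g hg]; exact hQ)
      (by rw [hs g hg, hs g' hg'])
      (D_inj hW hz hQ (on_aut (hs g hg) hQ) (on_aut (hs g' hg') hQ) h)
    exact hs' g hg g' hg' t ht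

end Field

variable {K : Type} [Field K] {W : WeierstrassCurve K}

section BaseChange

variable {L L' : Type} [Field L] [Field L'] [Algebra K L] [Algebra K L']

lemma obj_map (z : T.Obj K) (φ : L →ₐ[K] L') :
    T.omap φ.toRingHom (T.omap (algebraMap K L) z) = T.omap (algebraMap K L') z := by
  rw [T.omap_omap, cl1_comp]

lemma on_map {z : T.Obj K} (φ : L →ₐ[K] L') {Q : Fin m → L} :
    T.On (T.omap (algebraMap K L') z) (pm φ.toRingHom Q) ↔ T.On (T.omap (algebraMap K L) z) Q := by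
  rw [← obj_map z φ]
  exact T.on_omap _ _ _

lemma ptMap_D (hW : W.Δ ≠ 0) {z : T.Obj K} (hz : T.Over z W) (φ : L →ₐ[K] L') {Q Q' : Fin m → L}
    (hQ : T.On (T.omap (algebraMap K L) z) Q) (hQ' : T.On (T.omap (algebraMap K L) z) Q') :
    ptMap W φ (T.D (W.map (algebraMap K L)) (T.omap (algebraMap K L) z) Q Q') =
      T.D (W.map (algebraMap K L')) (T.omap (algebraMap K L') z) (pm φ.toRingHom Q)
        (pm φ.toRingHom Q') := by
  apply toRaw_injective (W := W.map (algebraMap K L'))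
  rw [toRaw_ptMap]
  exact (D_map' φ.toRingHom (cl1_W_map W φ) (obj_map z φ) (Delta_map hW _) ((T.over_omap _).2 hz)
    hQ hQ').symm

lemma ptMap_piP (hW : W.Δ ≠ 0) {z : T.Obj K} (hz : T.Over z W) (φ : L →ₐ[K] L') {Q : Fin m → L}
    (hQ : T.On (T.omap (algebraMap K L) z) Q) :
    ptMap W φ (T.piP (W.map (algebraMap K L)) (T.omap (algebraMap K L) z) Q) =
      T.piP (W.map (algebraMap K L')) (T.omap (algebraMap K L') z) (pm φ.toRingHom Q) := by
  apply toRaw_injective (W := W.map (algebraMap K L'))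
  rw [toRaw_ptMap]
  exact (piP_map' φ.toRingHom (cl1_W_map W φ) (obj_map z φ) (Delta_map hW _) ((T.over_omap _).2 hz)
    hQ).symm

end BaseChange

lemma obj_gal (z : T.Obj K) (σ : Gal K) :
    T.omap (galHom σ) (T.omap (toSep K) z) = T.omap (toSep K) z := by
  rw [T.omap_omap, galHom_comp_toSep]

lemma on_gal {z : T.Obj K} {Q : Fin m → SeparableClosure K} (hQ : T.On (T.omap (toSep K) z) Q)
    (σ : Gal K) : T.On (T.omap (toSep K) z) (pm (galHom σ) Q) := by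
  have := (T.on_omap (galHom σ) _ Q).2 hQ
  rwa [obj_gal] at this

lemma galAct_D (hW : W.Δ ≠ 0) {z : T.Obj (SeparableClosure K)} (hz : T.Over z (W.map (toSep K)))
    {Q Q' : Fin m → SeparableClosure K} (hQ : T.On z Q) (hQ' : T.On z Q') (σ : Gal K) :
    galAct W K σ (T.D (W.map (toSep K)) z Q Q') =
      T.D (W.map (toSep K)) (T.omap (galHom σ) z) (pm (galHom σ) Q) (pm (galHom σ) Q') := by
  apply toRaw_injective (W := W.map (toSep K))
  rw [toRaw_galAct]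
  exact (D_map' (galHom σ) (desc2a_mapW σ) rfl (Delta_map hW _) hz hQ hQ').symm

lemma galAct_piP (hW : W.Δ ≠ 0) {z : T.Obj (SeparableClosure K)} (hz : T.Over z (W.map (toSep K)))
    {Q : Fin m → SeparableClosure K} (hQ : T.On z Q) (σ : Gal K) :
    galAct W K σ (T.piP (W.map (toSep K)) z Q) =
      T.piP (W.map (toSep K)) (T.omap (galHom σ) z) (pm (galHom σ) Q) := by
  apply toRaw_injective (W := W.map (toSep K))
  rw [toRaw_galAct]
  exact (piP_map' (galHom σ) (desc2a_mapW σ) rfl (Delta_map hW _) hz hQ).symm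

lemma over_gal {z : T.Obj (SeparableClosure K)} (hz : T.Over z (W.map (toSep K))) (σ : Gal K) :
    T.Over (T.omap (galHom σ) z) (W.map (toSep K)) := by
  have := (T.over_omap (galHom σ)).2 hz
  rwa [desc2a_mapW] at this

variable (T) in
/-- the cocycle `c` is the one attached to the object `z` and a point over the separable closure -/
def Rep (W : WeierstrassCurve K) (z : T.Obj K) (c : Cocycle W n) : Prop :=
  ∃ Q : Fin m → SeparableClosure K, T.On (T.omap (toSep K) z) Q ∧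
    c.P = T.piP (W.map (toSep K)) (T.omap (toSep K) z) Q ∧
    ∀ σ, c.ξ σ = T.D (W.map (toSep K)) (T.omap (toSep K) z) (pm (galHom σ) Q) Q

variable (T) in
/-- the class of an object -/
noncomputable def cl (W : WeierstrassCurve K) (z : T.Obj K) : H1 W n :=
  if h : ∃ c, T.Rep W z c then Quot.mk _ h.choose else trivClass W n

variable {z : T.Obj K}

/-- the coboundary identity for two points -/
lemma cl_cob (hW : W.Δ ≠ 0) (hz : T.Over z W) {Q Q' : Fin m → SeparableClosure K}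
    (hQ : T.On (T.omap (toSep K) z) Q) (hQ' : T.On (T.omap (toSep K) z) Q') (σ : Gal K) :
    T.D (W.map (toSep K)) (T.omap (toSep K) z) (pm (galHom σ) Q') Q' =
      T.D (W.map (toSep K)) (T.omap (toSep K) z) (pm (galHom σ) Q) Q +
        (T.D (W.map (toSep K)) (T.omap (toSep K) z) (pm (galHom σ) Q') (pm (galHom σ) Q) -
          T.D (W.map (toSep K)) (T.omap (toSep K) z) Q' Q) := by
  have hz' := (T.over_omap (toSep K)).2 hz
  have h1 := T.D_add (Delta_map hW _) hz' (on_gal hQ' σ) (on_gal hQ σ) hQ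
  have h2 := T.D_add (Delta_map hW _) hz' (on_gal hQ' σ) hQ' hQ
  rw [← add_sub_assoc, eq_sub_iff_add_eq, h2, add_comm, h1]

theorem exists_rep (hW : W.Δ ≠ 0) (hz : T.Over z W) : ∃ c, T.Rep W z c := by
  obtain ⟨Q, hQ⟩ := T.sep_point hW hz
  have hz' := (T.over_omap (toSep K)).2 hz
  refine ⟨⟨fun σ => T.D (W.map (toSep K)) (T.omap (toSep K) z) (pm (galHom σ) Q) Q,
    T.piP (W.map (toSep K)) (T.omap (toSep K) z) Q, ?_, fun σ τ => ?_, fun σ => ?_⟩,
    Q, hQ, rfl, fun _ => rfl⟩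
  · refine (IsLocallyConstant.iff_eventually_eq _).2 fun σ => ?_
    filter_upwards [eventually_all.2 fun i => (cl_locConst (Q i)).eventually_eq σ] with τ h
    rw [show pm (galHom τ) Q = pm (galHom σ) Q from funext h]
  · rw [galAct_D hW hz' (on_gal hQ τ) hQ, obj_gal, add_comm]
    exact (T.D_add (Delta_map hW _) hz' (on_gal (on_gal hQ τ) σ) (on_gal hQ σ) hQ).symm
  · rw [galAct_piP hW hz' hQ, obj_gal]
    exact T.smul_D (Delta_map hW _) hz' (on_gal hQ σ) hQ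

theorem Rep.cohomologous (hW : W.Δ ≠ 0) (hz : T.Over z W) {c c' : Cocycle W n}
    (h : T.Rep W z c) (h' : T.Rep W z c') : Cohomologous c c' := by
  obtain ⟨Q, hQ, h1, h2⟩ := h
  obtain ⟨Q', hQ', h1', h2'⟩ := h'
  have hz' := (T.over_omap (toSep K)).2 hz
  refine ⟨T.D (W.map (toSep K)) (T.omap (toSep K) z) Q' Q, fun σ => ?_, ?_⟩
  · rw [h2, h2', galAct_D hW hz' hQ' hQ, obj_gal]
    exact cl_cob hW hz hQ hQ' σ
  · rw [h1, h1']
    exact eq_add_of_sub_eq' (T.smul_D (Delta_map hW _) hz' hQ' hQ).symm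

theorem Rep.of_cohomologous (hW : W.Δ ≠ 0) (hz : T.Over z W) {c c' : Cocycle W n}
    (h : T.Rep W z c) (h' : Cohomologous c c') : T.Rep W z c' := by
  obtain ⟨Q, hQ, h1, h2⟩ := h
  obtain ⟨R, h3, h4⟩ := h'
  have hz' := (T.over_omap (toSep K)).2 hz
  obtain ⟨Q', hQ', h5⟩ := T.D_surj (Delta_map hW _) hz' hQ (-R)
  have h6 : T.D (W.map (toSep K)) (T.omap (toSep K) z) Q' Q = R := by
    rw [D_symm (Delta_map hW _) hz' hQ hQ', h5]
    exact neg_neg _
  refine ⟨Q', hQ', ?_, fun σ => ?_⟩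
  · rw [h4, h1, ← h6]
    exact (eq_add_of_sub_eq' (T.smul_D (Delta_map hW _) hz' hQ' hQ).symm).symm
  · rw [h3, h2, ← h6, galAct_D hW hz' hQ' hQ, obj_gal]
    exact (cl_cob hW hz hQ hQ' σ).symm

theorem cl_eq_mk_iff (hW : W.Δ ≠ 0) (hz : T.Over z W) {c : Cocycle W n} :
    T.cl W z = Quot.mk _ c ↔ T.Rep W z c := by
  have h := exists_rep hW hz
  rw [cl, dif_pos h]
  exact mk_eq_mk_iff.trans
    ⟨h.choose_spec.of_cohomologous hW hz, h.choose_spec.cohomologous hW hz⟩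

theorem cl_smul (hW : W.Δ ≠ 0) (hz : T.Over z W) (g : T.G K) : T.cl W (g • z) = T.cl W z := by
  obtain ⟨c, hc⟩ := exists_rep hW (T.over_smul hz g)
  rw [(cl_eq_mk_iff hW (T.over_smul hz g)).2 hc, eq_comm, cl_eq_mk_iff hW hz]
  obtain ⟨Q, hQ, h1, h2⟩ := hc
  have hz' := (T.over_omap (toSep K)).2 hz
  have h3 := on_gal hQ
  rw [T.omap_smul] at hQ h1 h2 h3
  refine ⟨T.pt (T.gmap (toSep K) g) Q, (T.on_pt _ _ _).2 hQ, ?_, fun σ => ?_⟩
  · rw [h1, T.piP_smul (Delta_map hW _) hz' _ hQ]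
  · rw [h2, T.D_smul (Delta_map hW _) hz' _ (h3 σ) hQ, ← map_pt, T.gmap_gmap, galHom_comp_toSep]

theorem cl_eq_triv_iff (hW : W.Δ ≠ 0) (hz : T.Over z W) :
    T.cl W z = trivClass W n ↔ ∃ Q, T.On z Q ∧ T.piP W z Q = 0 := by
  rw [trivClass, cl_eq_mk_iff hW hz]
  have hz' := (T.over_omap (toSep K)).2 hz
  have key : ∀ Q, T.On z Q → (T.piP (W.map (toSep K)) (T.omap (toSep K) z) (pm (toSep K) Q) = 0 ↔
      T.piP W z Q = 0) := fun Q hQ => by
    rw [← toRaw_eq_none, ← toRaw_eq_none, T.piP_map _ hW hz hQ, rawMap, Option.map_eq_none_iff]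
  constructor
  · rintro ⟨Q, hQ, h1, h2⟩
    obtain ⟨Q₀, h3⟩ := exists_rational_pt (T.on_ne hQ) fun σ =>
      ((T.D_eq_zero_iff (Delta_map hW _) hz' (on_gal hQ σ) hQ).1 (h2 σ).symm).symm
    have h4 := (T.on_omap (toSep K) _ _).1 (T.on_eqv hQ h3)
    exact ⟨Q₀, h4, (key Q₀ h4).1 ((piP_eqv (Delta_map hW _) hz' hQ h3).symm.trans h1.symm)⟩
  · rintro ⟨Q, hQ, h1⟩
    have h2 := (T.on_omap (toSep K) _ _).2 hQ
    refine ⟨pm (toSep K) Q, h2, ((key Q hQ).2 h1).symm, fun σ => ?_⟩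
    rw [pm_pm, galHom_comp_toSep]
    exact (D_self (Delta_map hW _) hz' h2).symm

/-- A group element fixed by Galois up to scalars is rational up to a scalar. -/
lemma exists_rational_G {g : T.G (SeparableClosure K)}
    (h : ∀ σ : Gal K, ∃ t, T.gmap (galHom σ) g = T.scalar t * g) :
    ∃ (g₀ : T.G K) (t : (SeparableClosure K)ˣ), g = T.scalar t * T.gmap (toSep K) g₀ := by
  choose t ht using h
  obtain ⟨s, hs⟩ := h90_units t (fun σ τ => T.scalar_inj (mul_right_cancel (b := g) (by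
      rw [← ht, galHom_mul, ← T.gmap_gmap, ht, map_mul, ht, T.gmap_scalar, map_mul, mul_assoc])))
    ((T.gfin g).mono fun σ e => T.scalar_inj (mul_right_cancel (b := g) (by
      rw [← ht, e, map_one, one_mul])))
  obtain ⟨g₀, hg₀⟩ := T.gdesc (g := T.scalar s * g) fun σ => by
    rw [map_mul, ht, T.gmap_scalar, ← mul_assoc, ← map_mul, hs]
  exact ⟨g₀, s⁻¹, by rw [hg₀, map_inv, inv_mul_cancel_left]⟩

/-- scalars descend -/
lemma desc_scalar {g : T.G K} {t : (SeparableClosure K)ˣ} (h : T.gmap (toSep K) g = T.scalar t) :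
    ∃ t₀ : Kˣ, g = T.scalar t₀ := by
  obtain ⟨t₀, rfl⟩ := desc_units (t := t) fun σ => T.scalar_inj (by
    rw [← T.gmap_scalar, ← h, T.gmap_gmap, galHom_comp_toSep])
  exact ⟨t₀, T.gmap_inj (toSep K) (by rw [h, T.gmap_scalar])⟩

theorem exists_smul_of_cl_eq (hW : W.Δ ≠ 0) {z z' : T.Obj K} (hz : T.Over z W) (hz' : T.Over z' W)
    (h : T.cl W z = T.cl W z') : ∃ g : T.G K, g • z' = z := by
  obtain ⟨c, hc⟩ := exists_rep hW hz
  have hc' : T.Rep W z' c := (cl_eq_mk_iff hW hz').1 (h.symm.trans ((cl_eq_mk_iff hW hz).2 hc))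
  obtain ⟨Q, hQ, hP, hξ⟩ := hc
  obtain ⟨Q', hQ', hP', hξ'⟩ := hc'
  have hWs := Delta_map hW (toSep K)
  have hzs := (T.over_omap (toSep K)).2 hz
  have hzs' := (T.over_omap (toSep K)).2 hz'
  obtain ⟨g, hg, hgQ⟩ := T.exists_iso hWs hzs hzs' hQ hQ' (hP.symm.trans hP')
  have key : ∀ σ : Gal K, ∃ t, T.gmap (galHom σ) g = T.scalar t * g := by
    intro σ
    have hσ : T.gmap (galHom σ) g • T.omap (toSep K) z' = T.omap (toSep K) z := by
      have := congrArg (T.omap (galHom σ)) hg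
      rwa [T.omap_smul, obj_gal, obj_gal] at this
    have hσQ := on_gal hQ σ
    have hσQ' := on_gal hQ' σ
    have h1 : T.On (g • T.omap (toSep K) z') (pm (galHom σ) Q) := by rwa [hg]
    have h2 : T.On (g • T.omap (toSep K) z') Q := by rwa [hg]
    have h3 := (T.on_pt g _ _).2 h1
    have h4 := (T.on_pt g _ _).2 h2
    have h5 : T.D (W.map (toSep K)) (T.omap (toSep K) z') (T.pt g (pm (galHom σ) Q)) Q' =
        T.D (W.map (toSep K)) (T.omap (toSep K) z') (pm (galHom σ) Q') Q' := by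
      rw [← D_eqv hWs hzs' h3 h4 (Eqv.refl _) hgQ, ← T.D_smul hWs hzs' g h1 h2, hg]
      exact (hξ σ).symm.trans (hξ' σ)
    have h6 : Eqv (T.pt g (pm (galHom σ) Q)) (pm (galHom σ) Q') := by
      apply D_inj hWs hzs' hQ' h3 hσQ'
      rw [D_symm hWs hzs' h3 hQ', D_symm hWs hzs' hσQ' hQ', h5]
    refine iso_unique hWs hzs' h1 (hg.trans hσ.symm) (h6.trans ?_)
    rw [map_pt]
    exact (hgQ.map (galHom σ)).symm
  obtain ⟨g₀, t, hg₀⟩ := exists_rational_G key
  refine ⟨g₀, T.omap_inj (toSep K) ?_⟩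
  rw [T.omap_smul, ← hg, hg₀, mul_smul, T.scalar_smul]

theorem isKummer_iff_soluble (hW : W.Δ ≠ 0) (hz : T.Over z W) {c : Cocycle W n}
    (h : T.Rep W z c) (L : Type) [Field L] [Algebra K L] :
    c.IsKummer L ↔ ∃ Q, T.On (T.omap (algebraMap K L) z) Q := by
  obtain ⟨Q, hQ, hP, hξ⟩ := h
  have hWs := Delta_map hW (algebraMap K (SeparableClosure L))
  have hzs := (T.over_omap (algebraMap K (SeparableClosure L))).2 hz
  have hι : ∀ (ι : SeparableClosure K →ₐ[K] SeparableClosure L) (σ : Gal L) (τ : Gal K),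
      (∀ x, σ (ι x) = ι (τ x)) →
      ptMap W ι (c.ξ τ) = T.D (W.map (algebraMap K (SeparableClosure L)))
        (T.omap (algebraMap K (SeparableClosure L)) z) (pm (galHom σ) (pm ι.toRingHom Q))
        (pm ι.toRingHom Q) := by
    intro ι σ τ hστ
    have e : pm ι.toRingHom (pm (galHom τ) Q) = pm (galHom σ) (pm ι.toRingHom Q) :=
      funext fun i => (hστ _).symm
    rw [hξ τ, ← e]
    exact ptMap_D hW hz ι (on_gal hQ τ) hQ
  have hon : ∀ (σ : Gal L) {Q₁ : Fin m → SeparableClosure L},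
      T.On (T.omap (algebraMap K (SeparableClosure L)) z) Q₁ →
      T.On (T.omap (algebraMap K (SeparableClosure L)) z) (pm (galHom σ) Q₁) := fun σ Q₁ h₁ =>
    (on_map ((σ : SeparableClosure L →ₐ[L] SeparableClosure L).restrictScalars K)).2 h₁
  have hgal : ∀ (σ : Gal L) {Q₁ Q₂ : Fin m → SeparableClosure L},
      T.On (T.omap (algebraMap K (SeparableClosure L)) z) Q₁ →
      T.On (T.omap (algebraMap K (SeparableClosure L)) z) Q₂ →
      galAct W L σ (T.D (W.map (algebraMap K (SeparableClosure L)))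
        (T.omap (algebraMap K (SeparableClosure L)) z) Q₁ Q₂) =
      T.D (W.map (algebraMap K (SeparableClosure L)))
        (T.omap (algebraMap K (SeparableClosure L)) z) (pm (galHom σ) Q₁) (pm (galHom σ) Q₂) :=
    fun σ Q₁ Q₂ h₁ h₂ =>
      ptMap_D hW hz ((σ : SeparableClosure L →ₐ[L] SeparableClosure L).restrictScalars K) h₁ h₂
  constructor
  · intro hK
    obtain ⟨ι⟩ := exists_embedding (K := K) L
    obtain ⟨S, R, hR, -⟩ := hK ι
    have h₁ : T.On (T.omap (algebraMap K (SeparableClosure L)) z) (pm ι.toRingHom Q) :=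
      (on_map ι).2 hQ
    obtain ⟨Q₂, h₂, hD⟩ := T.D_surj hWs hzs h₁ R
    have hfix : ∀ σ : Gal L, Eqv Q₂ (pm (galHom σ) Q₂) := by
      intro σ
      obtain ⟨τ, hτ⟩ := exists_restrict ι σ
      have h3 := hR σ τ hτ
      rw [hι ι σ τ hτ, ← hD, hgal σ h₁ h₂] at h3
      apply D_inj hWs hzs (hon σ h₁) h₂ (hon σ h₂)
      rw [← T.D_add hWs hzs (hon σ h₁) h₁ h₂]
      exact eq_sub_iff_add_eq.1 h3
    obtain ⟨Q₀, hQ₀⟩ := exists_rational_pt (T.on_ne h₂) hfix
    exact ⟨Q₀, (on_map (IsScalarTower.toAlgHom K L (SeparableClosure L))).1 (T.on_eqv h₂ hQ₀)⟩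
  · rintro ⟨Q₀, hQ₀⟩ ι
    have h₁ : T.On (T.omap (algebraMap K (SeparableClosure L)) z) (pm ι.toRingHom Q) :=
      (on_map ι).2 hQ
    have h₀ : T.On (T.omap (algebraMap K (SeparableClosure L)) z) (pm (toSep L) Q₀) :=
      (on_map (IsScalarTower.toAlgHom K L (SeparableClosure L))).2 hQ₀
    refine ⟨T.piP (W.map (algebraMap K L)) (T.omap (algebraMap K L) z) Q₀,
      T.D (W.map (algebraMap K (SeparableClosure L))) (T.omap (algebraMap K (SeparableClosure L)) z)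
        (pm ι.toRingHom Q) (pm (toSep L) Q₀), fun σ τ hτ => ?_, ?_⟩
    · have e : pm (galHom σ) (pm (toSep L) Q₀) = pm (toSep L) Q₀ := by
        rw [pm_pm, galHom_comp_toSep]
      rw [hι ι σ τ hτ, hgal σ h₁ h₀, e]
      exact eq_sub_iff_add_eq.2 (T.D_add hWs hzs (hon σ h₁) h₁ h₀)
    · rw [hP, ptMap_piP hW hz ι hQ,
        ptMap_piP hW hz (IsScalarTower.toAlgHom K L (SeparableClosure L)) hQ₀]
      exact (eq_sub_iff_add_eq'.1 (T.smul_D hWs hzs h₁ h₀)).symm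

theorem cl_mem_Sel_iff (hW : W.Δ ≠ 0) (hz : T.Over z W) :
    T.cl W z ∈ Sel W n ↔ ∀ v : Place K, ∃ Q, T.On (T.omap (algebraMap K v.Compl) z) Q := by
  obtain ⟨c, hc⟩ := exists_rep hW hz
  rw [(cl_eq_mk_iff hW hz).2 hc]
  exact mk_mem_Sel_iff.trans (forall_congr' fun v => isKummer_iff_soluble hW hz hc v.Compl)

theorem aut_eq_scalar (hW : W.Δ ≠ 0) (h2 : NoTors W n) (hz : T.Over z W) {g : T.G K}
    (hg : g • z = z) : ∃ t : Kˣ, g = T.scalar t := by
  obtain ⟨Q, hQ⟩ := T.sep_point hW hz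
  have hV := Delta_map hW (toSep K)
  have hw := (T.over_omap (toSep K)).2 hz
  have hg' : T.gmap (toSep K) g • T.omap (toSep K) z = T.omap (toSep K) z := by
    rw [← T.omap_smul, hg]
  have hQ' := on_aut hg' hQ
  obtain ⟨P, hP⟩ := desc_point hW
    (P := T.D (W.map (toSep K)) (T.omap (toSep K) z) Q (T.pt (T.gmap (toSep K) g) Q)) fun σ => by
      rw [← D_map' (galHom σ) (desc2a_mapW σ) (obj_gal z σ) hV hw hQ hQ', ← map_pt, T.gmap_gmap,
        galHom_comp_toSep, ← (aut_translation hV hw hg' hQ (on_gal hQ σ)).1]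
  have h0 : P = 0 := h2 P (pmap_injective (toSep K) rfl (by
    rw [map_nsmul, hP, map_zero]
    exact (aut_translation hV hw hg' hQ hQ).2))
  rw [h0, map_zero] at hP
  obtain ⟨t, ht⟩ := T.eq_scalar hV hw hQ hg' ((T.D_eq_zero_iff hV hw hQ hQ').1 hP.symm).symm
  exact desc_scalar ht

theorem aut_card_le {N : ℕ} (hW : W.Δ ≠ 0) (hz : T.Over z W)
    (hN : ∀ s : Finset (W.map (toSep K)).toAffine.Point, (∀ P ∈ s, n • P = 0) → s.card ≤ N)
    (s : Finset (T.G K)) (hs : ∀ g ∈ s, g • z = z)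
    (hs' : ∀ g ∈ s, ∀ g' ∈ s, ∀ t : Kˣ, g' = T.scalar t * g → g = g') : s.card ≤ N := by
  obtain ⟨Q, hQ⟩ := T.sep_point hW hz
  rw [← Finset.card_image_of_injective s (T.gmap_inj (toSep K))]
  refine card_aut (Delta_map hW _) ((T.over_omap (toSep K)).2 hz) hQ hN _ (fun g hg => ?_)
    fun g hg g' hg' t ht => ?_
  · obtain ⟨a, ha, rfl⟩ := Finset.mem_image.1 hg
    rw [← T.omap_smul, hs a ha]
  · obtain ⟨a, ha, rfl⟩ := Finset.mem_image.1 hg
    obtain ⟨b, hb, rfl⟩ := Finset.mem_image.1 hg'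
    obtain ⟨t₀, h₀⟩ := desc_scalar (g := b * a⁻¹) (t := t)
      (by rw [map_mul, map_inv, ht, mul_inv_cancel_right])
    rw [hs' a ha b hb t₀ (by rw [← h₀, inv_mul_cancel_right])]

variable (T) in
/-- descent data on a pointed object over the separable closure -/
structure DescData (c : Cocycle W n) (z : T.Obj (SeparableClosure K))
    (Q : Fin m → SeparableClosure K) (g : Gal K → T.G (SeparableClosure K)) : Prop where
  ov : T.Over z (W.map (toSep K))
  on : T.On z Q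
  piP : T.piP (W.map (toSep K)) z Q = c.P
  smul : ∀ σ, g σ • z = T.omap (galHom σ) z
  diff : ∀ σ, T.D (W.map (toSep K)) z (T.pt (g σ) (pm (galHom σ) Q)) Q = c.ξ σ

lemma desc_grp {A : Type} [AddCommGroup A] {x p q r : A} (h1 : n • -x = p - q)
    (h2 : n • x = r - p) : q = r := by
  rw [smul_neg, h2, neg_sub] at h1
  exact (sub_right_injective h1).symm

theorem exists_descData (hW : W.Δ ≠ 0) (c : Cocycle W n) : ∃ z Q g, T.DescData c z Q g := by
  have hW' := Delta_map hW (toSep K)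
  obtain ⟨z, Q, hz, hs, h2⟩ := T.piP_surj hW' c.P
  have key : ∀ σ : Gal K, ∃ g : T.G (SeparableClosure K), g • z = T.omap (galHom σ) z ∧
      T.D (W.map (toSep K)) z (T.pt g (pm (galHom σ) Q)) Q = c.ξ σ := by
    intro σ
    obtain ⟨Q', hT, hD⟩ := T.D_surj hW' hz hs (-c.ξ σ)
    have h1 := T.smul_D hW' hz hs hT
    have h3 : T.piP (W.map (toSep K)) z Q' = galAct W K σ c.P := by
      rw [hD, h2] at h1
      exact desc_grp (A := Pts W (SeparableClosure K)) h1 (c.bdry σ)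
    obtain ⟨g, a, b⟩ := T.exists_iso hW' (over_gal hz σ) hz ((T.on_omap _ _ _).2 hs) hT
      (by rw [h3, ← h2, galAct_piP hW hz hs])
    refine ⟨g, a, ?_⟩
    rw [← D_eqv hW' hz hT hs b.symm (Eqv.refl _), D_symm hW' hz hs hT, hD]
    exact neg_neg _
  choose g h1 h3 using key
  exact ⟨z, Q, g, hz, hs, h2, h1, h3⟩

section Data

variable {c : Cocycle W n} {w : T.Obj (SeparableClosure K)} {Q : Fin m → SeparableClosure K}
  {g : Gal K → T.G (SeparableClosure K)}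

lemma DescData.on_smul (h : T.DescData c w Q g) (σ : Gal K) : T.On (g σ • w) (pm (galHom σ) Q) := by
  rw [h.smul]
  exact (T.on_omap _ _ _).2 h.on

lemma DescData.on_pt (h : T.DescData c w Q g) (σ : Gal K) :
    T.On w (T.pt (g σ) (pm (galHom σ) Q)) := (T.on_pt _ _ _).2 (h.on_smul σ)

theorem DescData.mul (hW : W.Δ ≠ 0) (h : T.DescData c w Q g) (σ τ : Gal K) :
    ∃ t, g (σ * τ) = T.scalar t * (T.gmap (galHom σ) (g τ) * g σ) := by
  have hW' := Delta_map hW (toSep K)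
  have hz := h.ov
  have hs := h.on
  have e1 : (T.gmap (galHom σ) (g τ) * g σ) • w = g (σ * τ) • w := by
    rw [mul_smul, h.smul, ← T.omap_smul, h.smul, h.smul, T.omap_omap, galHom_mul]
  have e2 : T.pt (T.gmap (galHom σ) (g τ) * g σ) (pm (galHom (σ * τ)) Q) =
      T.pt (g σ) (pm (galHom σ) (T.pt (g τ) (pm (galHom τ) Q))) := by
    rw [mul_pt, ← map_pt, pm_pm, galHom_mul]
  have hA : T.On (g σ • w) (pm (galHom σ) (T.pt (g τ) (pm (galHom τ) Q))) := by
    rw [h.smul]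
    exact (T.on_omap _ _ _).2 (h.on_pt τ)
  have hB := (T.on_pt _ _ _).2 hA
  have e3 : T.D (W.map (toSep K)) w (T.pt (g σ) (pm (galHom σ) (T.pt (g τ) (pm (galHom τ) Q))))
      (T.pt (g σ) (pm (galHom σ) Q)) = galAct W K σ (c.ξ τ) := by
    rw [← T.D_smul hW' hz _ hA (h.on_smul σ), h.smul, ← h.diff τ, galAct_D hW hz (h.on_pt τ) hs]
  refine iso_unique hW' hz (Q := pm (galHom (σ * τ)) Q) (e1 ▸ h.on_smul (σ * τ)) e1 ?_
  rw [e2]
  refine D_inj hW' hz hs hB (h.on_pt (σ * τ)) ?_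
  rw [D_symm hW' hz hB hs, D_symm hW' hz (h.on_pt (σ * τ)) hs,
    ← T.D_add hW' hz hB (h.on_pt σ) hs, e3, h.diff, h.diff, c.cocycle]
  exact congrArg Neg.neg (add_comm _ _)

theorem DescData.cont (hW : W.Δ ≠ 0) (h : T.DescData c w Q g) :
    ∀ᶠ σ in 𝓝 1, ∃ t, g σ = T.scalar t := by
  have hW' := Delta_map hW (toSep K)
  filter_upwards [c.locConst.eventually_eq 1, T.ofin w, ev_pm Q] with σ e1 e2 e3
  have h1 := h.on_pt σ
  have h2 := h.diff σ
  rw [e3] at h1 h2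
  exact T.eq_scalar hW' h.ov h.on ((h.smul σ).trans e2)
    ((T.D_eq_zero_iff hW' h.ov h1 h.on).1 (h2.trans (e1.trans (xi_one c))))

theorem DescData.pcoc (hW : W.Δ ≠ 0) (h : T.DescData c w Q g) : PCoc fun σ => T.mat (g σ) := by
  refine ⟨fun σ τ => ?_, ev_iff.1 ((h.cont hW).mono fun σ => ?_)⟩
  · obtain ⟨t, e⟩ := h.mul hW σ τ
    obtain ⟨s, hs⟩ := T.mat_scalar t
    exact ⟨s, by rw [e, map_mul, map_mul, hs, T.mat_gmap]⟩
  · rintro ⟨t, e⟩
    rw [e]
    exact T.mat_scalar t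

theorem DescData.fixPt (hW : W.Δ ≠ 0) (h : T.DescData c w Q g) (L : Type) [Field L]
    [Algebra K L] (hc : c.IsKummer L) : FixPt (fun σ => T.mat (g σ)) L := by
  obtain ⟨ι⟩ := exists_embedding (K := K) L
  obtain ⟨S, R, hR, -⟩ := hc ι
  have hWs := Delta_map hW (toSep K)
  have hWL := Delta_map hW (algebraMap K (SeparableClosure L))
  have eW := cl1_W_map W ι
  have hzL : T.Over (T.omap ι.toRingHom w) (W.map (algebraMap K (SeparableClosure L))) := by
    rw [← eW]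
    exact (T.over_omap _).2 h.ov
  have hL := (T.on_omap ι.toRingHom _ _).2 h.on
  obtain ⟨Q', hQ', hQR⟩ := T.D_surj hWL hzL hL R
  refine ⟨ι, Q', T.on_ne hQ', fun σ => ?_⟩
  obtain ⟨τ, hτ⟩ := exists_restrict ι σ
  have eσ := cl1_W_map W ((σ : SeparableClosure L →ₐ[L] SeparableClosure L).restrictScalars K)
  have ec : ι.toRingHom.comp (galHom τ) = (galHom σ).comp ι.toRingHom :=
    RingHom.ext fun x => (hτ x).symm
  have hg : T.gmap ι.toRingHom (g τ) • T.omap ι.toRingHom w =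
      T.omap (galHom σ) (T.omap ι.toRingHom w) := by
    rw [← T.omap_smul, h.smul, T.omap_omap, T.omap_omap, ec]
  have hσQ : T.On (T.gmap ι.toRingHom (g τ) • T.omap ι.toRingHom w) (pm (galHom σ) Q') := by
    rw [hg]
    exact (T.on_omap _ _ _).2 hQ'
  have hσs : T.On (T.gmap ι.toRingHom (g τ) • T.omap ι.toRingHom w)
      (pm (galHom σ) (pm ι.toRingHom Q)) := by
    rw [hg]
    exact (T.on_omap _ _ _).2 hL
  have o1 := (T.on_pt _ _ _).2 hσQ
  have o2 := (T.on_pt _ _ _).2 hσs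
  have d1 : T.D (W.map (algebraMap K (SeparableClosure L))) (T.omap ι.toRingHom w)
      (T.pt (T.gmap ι.toRingHom (g τ)) (pm (galHom σ) (pm ι.toRingHom Q)))
      (T.pt (T.gmap ι.toRingHom (g τ)) (pm (galHom σ) Q')) = galAct W L σ R := by
    rw [← T.D_smul hWL hzL _ hσs hσQ, hg]
    apply toRaw_injective
    have := D_map' (galHom σ) eσ rfl hWL hzL hL hQ'
    rw [hQR] at this
    exact this.trans (toRaw_ptMap W
      ((σ : SeparableClosure L →ₐ[L] SeparableClosure L).restrictScalars K) R).symm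
  have d2 : T.D (W.map (algebraMap K (SeparableClosure L))) (T.omap ι.toRingHom w)
      (T.pt (T.gmap ι.toRingHom (g τ)) (pm (galHom σ) (pm ι.toRingHom Q))) (pm ι.toRingHom Q) =
      galAct W L σ R - R := by
    rw [← hR σ τ hτ]
    apply toRaw_injective
    have := D_map' ι.toRingHom eW rfl hWs h.ov (h.on_pt τ) h.on
    rw [← map_pt, h.diff, pm_pm, ec] at this
    exact this.trans (toRaw_ptMap W ι _).symm
  have d3 := T.D_add hWL hzL o2 hL o1
  rw [d1, d2] at d3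
  obtain ⟨t, -, e⟩ := D_inj hWL hzL hL hQ' o1 (hQR.trans (desc2_cancel d3))
  rw [T.pt_eq, T.mat_gmap] at e
  exact ⟨τ, t, hτ, e⟩

theorem DescData.exists_obj (hW : W.Δ ≠ 0) (h : T.DescData c w Q g)
    {h₂ : T.G (SeparableClosure K)}
    (hh : ∀ σ, ∃ t, T.gmap (galHom σ) h₂ * g σ = T.scalar t * h₂) :
    ∃ z : T.Obj K, T.Over z W ∧ T.Rep W z c := by
  have hWs := Delta_map hW (toSep K)
  have hz := h.ov
  have hfix : ∀ σ : Gal K, T.omap (galHom σ) (h₂ • w) = h₂ • w := fun σ => by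
    obtain ⟨t, ht⟩ := hh σ
    rw [T.omap_smul, ← h.smul, ← mul_smul, ht, mul_smul, T.scalar_smul]
  obtain ⟨z, hz0⟩ := T.odesc hfix
  have hQ : T.On (h₂ • w) (T.pt h₂⁻¹ Q) := by
    refine (T.on_pt _ _ _).1 ?_
    rw [pt_inv_pt]
    exact h.on
  refine ⟨z, (T.over_omap (toSep K)).1 (hz0 ▸ T.over_smul hz h₂), T.pt h₂⁻¹ Q, by rwa [hz0], ?_,
    fun σ => ?_⟩
  · rw [hz0, T.piP_smul hWs hz h₂ hQ, pt_inv_pt]
    exact h.piP.symm
  · obtain ⟨t, ht⟩ := hh σ
    have hσQ : T.On (h₂ • w) (pm (galHom σ) (T.pt h₂⁻¹ Q)) := by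
      rw [← hfix σ]
      exact (T.on_omap _ _ _).2 hQ
    rw [hz0, T.D_smul hWs hz h₂ hσQ hQ, pt_inv_pt, ← h.diff]
    refine (D_eqv hWs hz ((T.on_pt _ _ _).2 hσQ) h.on ?_ (Eqv.refl _)).symm
    have e : g σ = (T.gmap (galHom σ) h₂)⁻¹ * h₂ * T.scalar t := by
      rw [mul_assoc, ← T.scalar_comm, ← ht, inv_mul_cancel_left]
    rw [e, mul_pt, mul_pt, ← map_pt, map_inv]
    exact scalar_pt _ _

end Data

variable (T K) in
/-- a cocycle modulo scalars whose matrix part splits is split -/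
def Split : Prop :=
  ∀ g : Gal K → T.G (SeparableClosure K),
    (∀ σ τ, ∃ t, g (σ * τ) = T.scalar t * (T.gmap (galHom σ) (g τ) * g σ)) →
    (∀ᶠ σ in 𝓝 1, ∃ t, g σ = T.scalar t) → ∀ H : GL (Fin m) (SeparableClosure K),
    (∀ σ, ∃ t, GeneralLinearGroup.map (galHom σ) H * T.mat (g σ) =
      GeneralLinearGroup.scalar (Fin m) t * H) →
    ∃ h : T.G (SeparableClosure K), ∀ σ, ∃ t, T.gmap (galHom σ) h * g σ = T.scalar t * h

theorem split_of_h90 [NeZero m]
    (hs : ∀ t : (SeparableClosure K)ˣ, T.mat (T.scalar t) = GeneralLinearGroup.scalar (Fin m) t)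
    (lift : ∀ H : GL (Fin m) (SeparableClosure K), ∃ h, T.mat h = H)
    (h90 : ∀ ν : Gal K → T.G (SeparableClosure K), (∀ σ, T.mat (ν σ) = 1) →
      (∀ σ τ, ν (σ * τ) = T.gmap (galHom σ) (ν τ) * ν σ) → (∀ᶠ σ in 𝓝 1, ν σ = 1) →
      ∃ w, ∀ σ, T.gmap (galHom σ) w * ν σ = w) : T.Split K := by
  intro g hmul hc H hH
  obtain ⟨h₁, rfl⟩ := lift H
  choose t ht using hH
  have inj : ∀ (a b : (SeparableClosure K)ˣ) (x y : T.G (SeparableClosure K)), T.mat x = 1 →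
      T.mat y = 1 → T.scalar a * x = T.scalar b * y → x = y := fun a b x y hx hy e => by
    have e1 := congrArg T.mat e
    rw [map_mul, map_mul, hx, hy, mul_one, mul_one, hs, hs] at e1
    have e2 := congrArg (fun M : GL (Fin m) (SeparableClosure K) => M.1 0 0) e1
    have e3 : a = b := Units.ext (by simpa [GeneralLinearGroup.scalar] using e2)
    rw [e3] at e
    exact mul_left_cancel e
  obtain ⟨ν, hν⟩ : ∃ ν : Gal K → T.G (SeparableClosure K),
      ∀ σ, T.gmap (galHom σ) h₁ * g σ * h₁⁻¹ = T.scalar (t σ) * ν σ :=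
    ⟨fun σ => (T.scalar (t σ))⁻¹ * (T.gmap (galHom σ) h₁ * g σ * h₁⁻¹), fun σ =>
      (mul_inv_cancel_left _ _).symm⟩
  have h1 : ∀ σ, T.mat (ν σ) = 1 := fun σ => by
    have e := congrArg T.mat (hν σ)
    rw [map_mul, map_mul, map_mul, map_inv, T.mat_gmap, ht, hs, mul_inv_cancel_right] at e
    exact (left_eq_mul.1 e)
  obtain ⟨w, hw⟩ := h90 ν h1 (fun σ τ => by
      obtain ⟨s, e⟩ := hmul σ τ
      have e2 : T.gmap (galHom (σ * τ)) h₁ * g (σ * τ) * h₁⁻¹ =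
          T.scalar s * (T.gmap (galHom σ) (T.gmap (galHom τ) h₁ * g τ * h₁⁻¹) *
            (T.gmap (galHom σ) h₁ * g σ * h₁⁻¹)) := by
        rw [galHom_mul, ← T.gmap_gmap, e, ← mul_assoc _ (T.scalar s), ← T.scalar_comm, map_mul,
          map_mul, map_inv]
        group
      rw [hν, hν, hν, map_mul, T.gmap_scalar, mul_assoc, ← mul_assoc (T.gmap _ _),
        ← T.scalar_comm, mul_assoc, ← mul_assoc, ← mul_assoc, ← map_mul, ← map_mul] at e2
      exact inj _ _ _ _ (h1 _) (by rw [map_mul, T.mat_gmap, h1, h1, map_one, mul_one]) e2)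
    (by
      filter_upwards [hc, T.gfin h₁] with σ ⟨s, e1⟩ e2
      have e3 := hν σ
      rw [e2, e1, ← T.scalar_comm, mul_inv_cancel_right] at e3
      exact inj _ s _ _ (h1 σ) (map_one _) (by rw [← e3, mul_one]))
  refine ⟨w * h₁, fun σ => ⟨t σ, ?_⟩⟩
  have e1 : T.gmap (galHom σ) h₁ * g σ = T.scalar (t σ) * ν σ * h₁ := by
    rw [← hν, inv_mul_cancel_right]
  rw [map_mul, mul_assoc, e1, ← mul_assoc, ← mul_assoc, ← T.scalar_comm, mul_assoc (T.scalar _),
    hw, mul_assoc]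

theorem exists_obj_of_mem_Sel (hK : Abhn K m) (hs : T.Split K) (hW : W.Δ ≠ 0) {x : H1 W n}
    (hx : x ∈ Sel W n) : ∃ z : T.Obj K, T.Over z W ∧ T.cl W z = x := by
  obtain ⟨c, rfl, hc⟩ := hx
  obtain ⟨w, Q, g, hg⟩ := exists_descData (T := T) hW c
  obtain ⟨H, hH⟩ := split_of_abhn hK (hg.pcoc hW) fun v => hg.fixPt hW _ (hc v)
  obtain ⟨h₂, hh⟩ := hs g (hg.mul hW) (hg.cont hW) H hH
  obtain ⟨z, hz, hrep⟩ := hg.exists_obj hW hh
  exact ⟨z, hz, (cl_eq_mk_iff hW hz).2 hrep⟩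

end Th

end H5T
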