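import Pool.Agent.H81Sel.ZornB

/-! Hermite normal forms of adelic matrices of any size. -/

namespace H5T

open SelAvg SelAvg.FF WithZero Filter Topology Matrix
open scoped Classical

variable {F : Type} [Field F] {n : ℕ}

variable (F n) in
/-- the integral matrices -/
noncomputable def abK : Subgroup (GL (Fin n) (A F)) :=
  (GeneralLinearGroup.map (n := Fin n) (Oh F).subtype).range

lemma ab_mul_mem {R : Type} [CommRing R] (S : Subring R) {M N : Matrix (Fin n) (Fin n) R}
    (hM : ∀ i j, M i j ∈ S) (hN : ∀ i j, N i j ∈ S) (i j : Fin n) : (M * N) i j ∈ S := by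
  rw [Matrix.mul_apply]
  exact S.sum_mem fun l _ => S.mul_mem (hM i l) (hN l j)

lemma abK_mem {k : GL (Fin n) (A F)} (hk : k ∈ abK F n) (i j : Fin n) : k.1 i j ∈ Oh F := by
  obtain ⟨k, rfl⟩ := hk
  exact (k.1 i j).2

lemma abK_mul {k : GL (Fin n) (A F)} (hk : k ∈ abK F n) (M : Matrix (Fin n) (Fin n) (A F)) :
    (∀ i j, (k.1 * M) i j ∈ Oh F) ↔ ∀ i j, M i j ∈ Oh F := by
  refine ⟨fun h => ?_, fun h => ab_mul_mem _ (abK_mem hk) h⟩
  have := ab_mul_mem _ (abK_mem ((abK F n).inv_mem hk)) h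
  rwa [← mul_assoc, Units.inv_mul, one_mul] at this

lemma idiv_det_abK {k : GL (Fin n) (A F)} (hk : k ∈ abK F n) :
    idiv (GeneralLinearGroup.det k) = 0 := by
  obtain ⟨k, rfl⟩ := hk
  exact (idiv_eq_zero_iff _).2 ⟨GeneralLinearGroup.det k, Units.ext (by
    simp [GeneralLinearGroup.map, RingHom.map_det])⟩

lemma exists_abK (k : Matrix (Fin n) (Fin n) (Oh F)) (h : IsUnit k.det) :
    ∃ u ∈ abK F n, u.1 = k.map (Oh F).subtype :=
  ⟨_, ⟨GeneralLinearGroup.mk'' k h, rfl⟩, rfl⟩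

/-- upper triangular with the diagonal entries `ϖ^(D i)` -/
def IsTri (D : Fin n → FF.Div F) (t : Matrix (Fin n) (Fin n) (A F)) : Prop :=
  (∀ i j, j < i → t i j = 0) ∧ ∀ i, t i i = piD (D i)

/-- row reduction over a valuation ring -/
theorem ab_local {L : Type} [Field L] (V : LocalField L) (g : Matrix (Fin n) (Fin n) L) :
    ∃ k : Matrix (Fin n) (Fin n) V.O, IsUnit k.det ∧ ∀ i j, j < i → (k.map V.incl * g) i j = 0 := by
  have key : ∀ c : ℕ, ∃ k : Matrix (Fin n) (Fin n) V.O, IsUnit k.det ∧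
      ∀ i j : Fin n, j < i → (j : ℕ) < c → (k.map V.incl * g) i j = 0 := by
    intro c
    induction c with
    | zero => exact ⟨1, by simp, fun _ _ _ h => absurd h (Nat.not_lt_zero _)⟩
    | succ c ih =>
      obtain ⟨k, hk, h⟩ := ih
      by_cases hc : c < n
      swap
      · exact ⟨k, hk, fun i j hj _ => h i j hj (by have := j.2; omega)⟩
      obtain ⟨a, rfl⟩ : ∃ a : Fin n, (a : ℕ) = c := ⟨⟨c, hc⟩, rfl⟩
      obtain ⟨p, hp, hmax⟩ := (Finset.Ici a).exists_max_image
        (fun i => V.v ((k.map V.incl * g) i a)) ⟨a, by simp⟩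
      rw [Finset.mem_Ici] at hp
      have hsw : ∀ i, a ≤ i → a ≤ Equiv.swap a p i := fun i hi => by
        rw [Equiv.swap_apply_def]
        split_ifs
        exacts [hp, le_rfl, hi]
      obtain ⟨M, hM⟩ : ∃ M, M = (k.submatrix (Equiv.swap a p) id).map V.incl * g := ⟨_, rfl⟩
      have hM' : ∀ i j, M i j = (k.map V.incl * g) (Equiv.swap a p i) j := fun i j => by
        rw [hM]; rfl
      have h0 : ∀ i j : Fin n, j < i → j < a → M i j = 0 := fun i j hj hj' => by
        rw [hM']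
        refine h _ _ ?_ hj'
        by_cases hi : a ≤ i
        · exact hj'.trans_le (hsw i hi)
        · rwa [Equiv.swap_apply_of_ne_of_ne (not_le.1 hi).ne ((not_le.1 hi).trans_le hp).ne]
      have ht : ∀ i, ∃ t : V.O, (a < i → V.incl t * M a a = M i a) ∧ (¬a < i → t = 0) := by
        intro i
        by_cases hi : a < i
        swap
        · exact ⟨0, fun h => absurd h hi, fun _ => rfl⟩
        have h1 : V.v (M i a) ≤ V.v (M a a) := by
          rw [hM', hM', Equiv.swap_apply_left]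
          exact hmax _ (Finset.mem_Ici.2 (hsw i hi.le))
        by_cases h2 : M a a = 0
        · rw [h2, map_zero, le_zero_iff, map_eq_zero] at h1
          exact ⟨0, fun _ => by rw [h1, h2, mul_zero], fun _ => rfl⟩
        · refine ⟨⟨M i a / M a a, ?_⟩, fun _ => div_mul_cancel₀ _ h2, fun h => absurd hi h⟩
          rw [Valuation.mem_valuationSubring_iff, map_div₀]
          exact div_le_one_of_le₀ h1 zero_le
      choose t ht ht' using ht
      let E : Matrix (Fin n) (Fin n) V.O := 1 - of fun i j => if j = a then t i else 0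
      have hE : E.det = 1 := by
        rw [det_of_isLowerTriangular E fun i j hij => ?_]
        · refine Finset.prod_eq_one fun i _ => ?_
          by_cases hi : i = a
          · simp [E, hi, ht' a (lt_irrefl a)]
          · simp [E, hi]
        · have hij' : i < j := hij
          by_cases hj : j = a
          · simp [E, hj, ht' i (hj ▸ hij'.not_gt), (hj ▸ hij'.ne : i ≠ a)]
          · simp [E, hj, hij'.ne]
      refine ⟨E * k.submatrix (Equiv.swap a p) id, ?_, fun i j hj hj' => ?_⟩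
      · rw [det_mul, hE, one_mul, det_permute]
        exact ((Equiv.Perm.sign _).isUnit.map (Int.castRingHom _)).mul hk
      · have e : (E.map V.incl * M) i j = M i j - V.incl (t i) * M a j := by
          have e' : E.map V.incl = 1 - of fun i j => if j = a then V.incl (t i) else 0 := by
            ext i j
            simp only [E, map_apply, Matrix.sub_apply, map_sub, one_apply, of_apply]
            split_ifs <;> simp
          rw [e', sub_mul, one_mul, Matrix.sub_apply]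
          simp [Matrix.mul_apply]
        rw [Matrix.map_mul, mul_assoc, ← hM, e]
        rcases (Fin.le_def.2 (Nat.lt_succ_iff.1 hj') : j ≤ a).eq_or_lt with rfl | h1
        · rw [ht i hj, sub_self]
        · rw [h0 i j hj h1, h0 a j h1 h1, mul_zero, sub_zero]
  obtain ⟨k, hk, h⟩ := key n
  exact ⟨k, hk, fun i j hj => h i j hj j.2⟩

lemma ab_det {R : Type} [CommRing R] {t : Matrix (Fin n) (Fin n) R} (h : ∀ i j, j < i → t i j = 0) :
    t.det = ∏ i, t i i := det_of_isUpperTriangular fun _ _ hij => h _ _ hij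

theorem exists_isTri (g : GL (Fin n) (A F)) : ∃ k ∈ abK F n, ∃ D, IsTri D (k * g).1 := by
  choose k hk h using fun v : Place F => ab_local v.loc (g.1.map (pr v))
  choose κ hκ using fun i j => exists_Oh fun v => k v i j
  have e : ∀ v, (of κ).map (prO v) = k v := fun v => Matrix.ext fun i j => hκ i j v
  obtain ⟨u, hu, hu'⟩ := exists_abK (of κ) ((isUnit_Oh_iff _).2 fun v => by
    rw [RingHom.map_det, RingHom.mapMatrix_apply, e]
    exact hk v)
  have h1 : ∀ i j, j < i → (u * g).1 i j = 0 := fun i j hj => A_ext fun v => by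
    rw [map_zero, ← h v i j hj, ← e, Units.val_mul, hu', Matrix.map_map, Matrix.mul_apply,
      Matrix.mul_apply, map_sum]
    exact Finset.sum_congr rfl fun l _ => map_mul _ _ _
  have h2 : ∀ i, IsUnit ((u * g).1 i i) := fun i => by
    have h3 := (GeneralLinearGroup.det (u * g)).isUnit
    rw [GeneralLinearGroup.val_det_apply, ab_det h1] at h3
    exact isUnit_of_dvd_unit (Finset.dvd_prod_of_mem (fun i => (u * g).1 i i) (Finset.mem_univ i)) h3
  choose w hw using h2
  have h3 : ∀ i, ∃ c : (Oh F)ˣ, ((c : Oh F) : A F) * w i = piD (idiv (w i)) := fun i => by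
    obtain ⟨c, hc⟩ := (idiv_eq_zero_iff (piD (idiv (w i)) * (w i)⁻¹)).1 (by
      rw [idiv_mul, idiv_inv, idiv_piD, add_neg_cancel])
    exact ⟨c, by
      rw [show ((c : Oh F) : A F) = _ from congrArg Units.val hc, Units.val_mul,
        Units.inv_mul_cancel_right]⟩
  choose c hc using h3
  obtain ⟨u', hu1, hu2⟩ := exists_abK (diagonal fun i => (c i : Oh F)) (by
    rw [det_diagonal]
    exact IsUnit.prod_univ_iff.2 fun i => (c i).isUnit)
  have h4 : ∀ i j, (u' * u * g).1 i j = (c i : Oh F) * (u * g).1 i j := fun i j => by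
    rw [mul_assoc, Units.val_mul, hu2, diagonal_map (map_zero _), diagonal_mul]
    rfl
  exact ⟨u' * u, mul_mem hu1 hu, fun i => idiv (w i), fun i j hj => by
    rw [h4, h1 i j hj, mul_zero], fun i => by rw [h4, ← hw, hc]⟩

lemma ab_idiv_prod {ι : Type} (s : Finset ι) (D : ι → FF.Div F) :
    idiv (∏ i ∈ s, piD (D i)) = ∑ i ∈ s, D i := by
  induction s using Finset.induction_on with
  | empty => simp
  | insert a s ha ih => rw [Finset.prod_insert ha, Finset.sum_insert ha, idiv_mul, ih, idiv_piD]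

lemma IsTri.det {D : Fin n → FF.Div F} {t : Matrix (Fin n) (Fin n) (A F)} (h : IsTri D t) :
    t.det = (∏ i, piD (D i) : (A F)ˣ) := by
  rw [ab_det h.1, Units.coe_prod]
  exact Finset.prod_congr rfl fun i _ => h.2 i

lemma IsTri.idiv_det {D : Fin n → FF.Div F} {t : GL (Fin n) (A F)} (h : IsTri D t.1) :
    idiv (GeneralLinearGroup.det t) = ∑ i, D i := by
  rw [← ab_idiv_prod]
  exact congrArg idiv (Units.ext h.det)

lemma ab_vec {R : Type} [CommRing R] {t : Matrix (Fin n) (Fin n) R} (h : ∀ i j, j < i → t i j = 0)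
    (k : Matrix (Fin n) (Fin n) R) (i j : Fin n) (hy : ∀ l, l < j → k i l = 0) :
    (k * t) i j = k i j * t j j := by
  rw [Matrix.mul_apply]
  refine Finset.sum_eq_single j (fun l _ hl => ?_) fun h => absurd (Finset.mem_univ j) h
  rcases lt_or_gt_of_ne hl with h1 | h1
  · rw [hy l h1, zero_mul]
  · rw [h l j h1, mul_zero]

lemma IsTri.le {D D' : Fin n → FF.Div F} {t k : Matrix (Fin n) (Fin n) (A F)} (h : IsTri D t)
    (h' : IsTri D' (k * t)) (hk : ∀ i j, k i j ∈ Oh F) : D ≤ D' := by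
  intro i
  have h1 : ∀ j, j < i → k i j = 0 := by
    intro j
    induction j using WellFoundedLT.induction with
    | ind j ih =>
      intro hj
      have h2 := ab_vec h.1 k i j fun l hl => ih l hl (hl.trans hj)
      rw [h'.1 i j hj, h.2] at h2
      exact (Units.mul_left_eq_zero _).1 h2.symm
  have h2 := ab_vec h.1 k i i h1
  rw [h'.2, h.2] at h2
  have h3 : ((piD (D' i - D i) : (A F)ˣ) : A F) = k i i := by
    rw [sub_eq_add_neg, piD_add, piD_neg, Units.val_mul, h2, Units.mul_inv_cancel_right]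
  have h4 := (unit_mem_Oh _).1 (h3 ▸ hk i i)
  rwa [idiv_piD, sub_nonneg] at h4

/-- the admissible entries of a normal form -/
noncomputable def nfS (s : FF.Div F → Finset (A F)) (D : Fin n → FF.Div F) (i j : Fin n) :
    Finset (A F) := if i < j then s (D j) else if i = j then {(piD (D j) : A F)} else {0}

/-- the normal forms -/
noncomputable def NF (s : FF.Div F → Finset (A F)) (D : Fin n → FF.Div F) :
    Finset (Matrix (Fin n) (Fin n) (A F)) :=
  Fintype.piFinset fun i => Fintype.piFinset fun j => nfS s D i j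

lemma mem_NF {s : FF.Div F → Finset (A F)} {D : Fin n → FF.Div F}
    {t : Matrix (Fin n) (Fin n) (A F)} :
    t ∈ NF s D ↔ IsTri D t ∧ ∀ i j, i < j → t i j ∈ s (D j) := by
  have e : t ∈ NF s D ↔ ∀ i j, t i j ∈ nfS s D i j :=
    Fintype.mem_piFinset.trans (forall_congr' fun _ => Fintype.mem_piFinset)
  rw [e]
  constructor
  · intro h
    refine ⟨⟨fun i j hj => ?_, fun i => ?_⟩, fun i j hj => ?_⟩
    · simpa [nfS, hj.not_gt, hj.ne'] using h i j
    · simpa [nfS] using h i i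
    · simpa [nfS, hj] using h i j
  · rintro ⟨⟨h1, h2⟩, h3⟩ i j
    rcases lt_trichotomy i j with hj | rfl | hj
    · simpa [nfS, hj] using h3 i j hj
    · simpa [nfS] using h2 i
    · simpa [nfS, hj.not_gt, hj.ne'] using h1 i j hj

lemma card_NF (s : FF.Div F → Finset (A F)) (D : Fin n → FF.Div F) :
    (NF s D).card = ∏ j, (s (D j)).card ^ (j : ℕ) := by
  have e : (NF s D).card = ∏ i, ∏ j, (nfS s D i j).card :=
    (Fintype.card_piFinset _).trans (Finset.prod_congr rfl fun _ _ => Fintype.card_piFinset _)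
  rw [e, Finset.prod_comm]
  refine Finset.prod_congr rfl fun j _ => ?_
  have e' : ∀ i, (nfS s D i j).card = if i ∈ Finset.Iio j then (s (D j)).card else 1 := fun i => by
    simp only [nfS, Finset.mem_Iio]
    split_ifs <;> simp
  rw [Finset.prod_congr rfl fun i _ => e' i, Finset.prod_ite_mem, Finset.univ_inter,
    Finset.prod_const, Fin.card_Iio]

/-- a system of representatives of the integral adeles modulo `ϖ^E` -/
def IsRep (s : FF.Div F → Finset (A F)) : Prop :=
  ∀ E, 0 ≤ E → (∀ b ∈ s E, b ∈ Oh F) ∧ ∀ a ∈ Oh F, ∃! b, b ∈ s E ∧ a - b ∈ AD (-E)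

lemma NF_unique {s : FF.Div F → Finset (A F)} (hs : IsRep s) {D : Fin n → FF.Div F} (hD : 0 ≤ D)
    {t k : Matrix (Fin n) (Fin n) (A F)} (h : t ∈ NF s D) (h' : k * t ∈ NF s D)
    (hk : ∀ i j, k i j ∈ Oh F) : k = 1 := by
  obtain ⟨h1, h2⟩ := mem_NF.1 h
  obtain ⟨h1', h2'⟩ := mem_NF.1 h'
  rw [← sub_eq_zero]
  ext1 i j
  induction j using WellFoundedLT.induction with
  | ind j ih =>
    have h3 := ab_vec h1.1 (k - 1) i j ih
    rw [sub_mul, one_mul, Matrix.sub_apply, h1.2] at h3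
    refine (Units.mul_left_eq_zero (piD (D j))).1 ?_
    rw [← h3, sub_eq_zero]
    rcases lt_trichotomy i j with hj | rfl | hj
    · have h4 := (hs _ (hD j)).1 _ (h2' i j hj)
      refine ((hs _ (hD j)).2 _ h4).unique ⟨h2' i j hj, by rw [sub_self]; exact zero_mem _⟩
        ⟨h2 i j hj, ?_⟩
      rw [h3, mul_comm, unit_mul_mem_AD, idiv_piD, neg_add_cancel, mem_AD_zero,
        Matrix.sub_apply, one_apply_ne hj.ne, sub_zero]
      exact hk i j
    · rw [h1.2, h1'.2]
    · rw [h1.1 i j hj, h1'.1 i j hj]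

lemma IsTri.nonneg {D : Fin n → FF.Div F} {t : Matrix (Fin n) (Fin n) (A F)} (h : IsTri D t)
    (ht : ∀ i j, t i j ∈ Oh F) : 0 ≤ D := fun i => by
  have h1 := (unit_mem_Oh _).1 (h.2 i ▸ ht i i)
  rwa [idiv_piD] at h1

lemma NF_row {s : FF.Div F → Finset (A F)} (hs : IsRep s) {D : Fin n → FF.Div F}
    {t : Matrix (Fin n) (Fin n) (A F)} (h : IsTri D t) (ht : ∀ i j, t i j ∈ Oh F) (i : Fin n)
    (c : ℕ) : ∃ x : Fin n → Oh F, (∀ j, j < i → x j = 0) ∧ x i = 1 ∧
      ∀ j : Fin n, i < j → (j : ℕ) < c → ∑ l, (x l : A F) * t l j ∈ s (D j) := by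
  induction c with
  | zero =>
    exact ⟨Pi.single i 1, fun j hj => Pi.single_eq_of_ne hj.ne _, Pi.single_eq_same _ _,
      fun _ _ h => absurd h (Nat.not_lt_zero _)⟩
  | succ c ih =>
    obtain ⟨x, h1, h2, h3⟩ := ih
    by_cases hc : i < c ∧ c < n
    swap
    · exact ⟨x, h1, h2, fun j hj hj' => h3 j hj (by
        have := j.2
        have : (i : ℕ) < j := hj
        omega)⟩
    obtain ⟨a, rfl⟩ : ∃ a : Fin n, (a : ℕ) = c := ⟨⟨c, hc.2⟩, rfl⟩
    have hia : i < a := hc.1
    obtain ⟨b, ⟨hb, hb'⟩, -⟩ := (hs _ (h.nonneg ht a)).2 (∑ l, (x l : A F) * t l a)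
      (sum_mem fun l _ => mul_mem (x l).2 (ht l a))
    have hz : (piD (-D a) : A F) * (∑ l, (x l : A F) * t l a - b) ∈ Oh F := by
      rwa [← mem_AD_zero, unit_mul_mem_AD, idiv_piD, zero_add]
    refine ⟨x - Pi.single a ⟨_, hz⟩, fun j hj => ?_, ?_, fun j hj hj' => ?_⟩
    · rw [Pi.sub_apply, h1 j hj, Pi.single_eq_of_ne (hj.trans hia).ne, sub_zero]
    · rw [Pi.sub_apply, h2, Pi.single_eq_of_ne hia.ne, sub_zero]
    · have e : ∑ l, ((x - Pi.single a ⟨_, hz⟩ : Fin n → Oh F) l : A F) * t l j =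
          ∑ l, (x l : A F) * t l j -
            (piD (-D a) : A F) * (∑ l, (x l : A F) * t l a - b) * t a j := by
        simp only [Pi.sub_apply, AddSubgroupClass.coe_sub, sub_mul, Finset.sum_sub_distrib]
        rw [sub_right_inj, Finset.sum_eq_single a (fun l _ hl => by rw [Pi.single_eq_of_ne hl]; simp)
          fun h => absurd (Finset.mem_univ a) h, Pi.single_eq_same]
      rw [e]
      rcases (Fin.le_def.2 (Nat.lt_succ_iff.1 hj') : j ≤ a).eq_or_lt with rfl | h4
      · rwa [h.2, mul_right_comm, piD_neg, Units.inv_mul, one_mul, sub_sub_cancel]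
      · rw [h.1 a j h4, mul_zero, sub_zero]
        exact h3 j hj h4

lemma NF_exists {s : FF.Div F → Finset (A F)} (hs : IsRep s) (g : GL (Fin n) (A F))
    (hg : ∀ i j, g.1 i j ∈ Oh F) : ∃ k ∈ abK F n, ∃ D, 0 ≤ D ∧ (k * g).1 ∈ NF s D := by
  obtain ⟨k, hk, D, h⟩ := exists_isTri g
  have ht : ∀ i j, (k * g).1 i j ∈ Oh F := (abK_mul hk _).2 hg
  choose x h1 h2 h3 using fun i => NF_row hs h ht i n
  obtain ⟨u, hu, hu'⟩ := exists_abK (of x) (by
    rw [ab_det (t := of x) h1, Finset.prod_eq_one (f := fun i => of x i i) fun i _ => h2 i]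
    exact isUnit_one)
  have h4 : ∀ i j, j < i → u.1 i j = 0 := fun i j hj => by
    rw [hu']
    exact congrArg Subtype.val (h1 i j hj)
  refine ⟨u * k, mul_mem hu hk, D, h.nonneg ht, mem_NF.2 ⟨⟨fun i j hj => ?_, fun i => ?_⟩,
    fun i j hj => ?_⟩⟩ <;> rw [mul_assoc, Units.val_mul]
  · rw [ab_vec h.1 _ i j fun l hl => h4 i l (hl.trans hj), h4 i j hj, zero_mul]
  · rw [ab_vec h.1 _ i i (h4 i), h.2, hu', show ((of x).map (Oh F).subtype) i i = 1 from
      congrArg Subtype.val (h2 i), one_mul]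
  · rw [hu']
    exact h3 i j hj j.2

lemma IsTri.isUnit {D : Fin n → FF.Div F} {t : Matrix (Fin n) (Fin n) (A F)} (h : IsTri D t) :
    IsUnit t := by
  rw [Matrix.isUnit_iff_isUnit_det, h.det]
  exact Units.isUnit _

variable [Cv F]

/-- the degree of a coset -/
noncomputable def dgN (x : RC (abK F n)) : ℤ := deg (idiv (GeneralLinearGroup.det x.out))

lemma dgN_mk (g : GL (Fin n) (A F)) :
    dgN (RC.mk (abK F n) g) = deg (idiv (GeneralLinearGroup.det g)) := by
  obtain ⟨k, hk, e⟩ := RC.out_mk (K := abK F n) g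
  rw [dgN, e, map_mul, idiv_mul, idiv_det_abK hk, zero_add]

variable (F n) in
/-- the integral cosets of degree `k` -/
def intN (k : ℤ) : Set (RC (abK F n)) := {x | dgN x = k ∧ ∀ i j, x.out.1 i j ∈ Oh F}

lemma mk_mem_intN {k : ℤ} {g : GL (Fin n) (A F)} : RC.mk (abK F n) g ∈ intN F n k ↔
    deg (idiv (GeneralLinearGroup.det g)) = k ∧ ∀ i j, g.1 i j ∈ Oh F := by
  obtain ⟨k', hk, e⟩ := RC.out_mk (K := abK F n) g
  rw [intN, Set.mem_ofPred_eq, dgN_mk, e, Units.val_mul, abK_mul hk]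

lemma exists_isRep : ∃ s : FF.Div F → Finset (A F), IsRep s ∧
    ∀ E, 0 ≤ E → ((s E).card : ℝ) = qq F ^ deg E := by
  have key : ∀ E : FF.Div F, ∃ s : Finset (A F), 0 ≤ E → ((∀ b ∈ s, b ∈ Oh F) ∧
      ∀ a ∈ Oh F, ∃! b, b ∈ s ∧ a - b ∈ AD (-E)) ∧ (s.card : ℝ) = qq F ^ deg E := fun E => by
    obtain ⟨s, hs⟩ := zornb_trans E 0
    simp only [mem_AD_zero, zero_sub] at hs
    exact ⟨s, fun h => ⟨(hs h).2, (hs h).1⟩⟩
  choose s hs using key
  exact ⟨s, fun E h => (hs E h).1, fun E h => (hs E h).2⟩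

lemma ab_main (m : ℕ) : ∃ T : Finset (RC (abK F n)), (T : Set _) = intN F n (dl F * m) ∧
    (T.card : ℝ) = ∑ l ∈ Finset.finsuppAntidiag (Finset.univ : Finset (Fin n)) m,
      ∏ j : Fin n, (ee F (dl F * l j) : ℝ) * ((qq F ^ dl F) ^ (j : ℕ)) ^ l j := by
  obtain ⟨s, hs, hc⟩ := exists_isRep (F := F)
  have hd : (dl F : ℤ) ≠ 0 := by exact_mod_cast (dl_pos (F := F)).ne'
  let U : Finset (Σ _ : Fin n →₀ ℕ, Σ _ : Fin n → FF.Div F, Matrix (Fin n) (Fin n) (A F)) :=
    (Finset.finsuppAntidiag Finset.univ m).sigma fun l =>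
      (Fintype.piFinset fun j => (finite_eff (F := F) (dl F * l j)).toFinset).sigma (NF s)
  have hU : ∀ y, y ∈ U ↔ ∑ j, y.1 j = m ∧ (∀ j, 0 ≤ y.2.1 j ∧ deg (y.2.1 j) = dl F * y.1 j) ∧
      y.2.2 ∈ NF s y.2.1 := by
    intro y
    simp only [U, Finset.mem_sigma, Finset.mem_finsuppAntidiag, Fintype.mem_piFinset,
      Set.Finite.mem_toFinset, Set.mem_ofPred_eq, Finset.subset_univ, and_true]
  have hu : ∀ t : Matrix (Fin n) (Fin n) (A F), ∃ g : GL (Fin n) (A F), IsUnit t → g.1 = t :=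
    fun t => by
      by_cases h : IsUnit t
      · exact ⟨h.unit, fun _ => rfl⟩
      · exact ⟨1, fun h' => absurd h' h⟩
  choose f hf using hu
  have hf' : ∀ {D t}, t ∈ NF s D → (f t).1 = t := fun h => hf _ (mem_NF.1 h).1.isUnit
  refine ⟨U.image fun y => RC.mk (abK F n) (f y.2.2), ?_, ?_⟩
  · ext x
    rw [Finset.mem_coe, Finset.mem_image]
    constructor
    · rintro ⟨y, hy, rfl⟩
      obtain ⟨h1, h2, h3⟩ := (hU y).1 hy
      obtain ⟨h4, h5⟩ := mem_NF.1 h3
      refine mk_mem_intN.2 ⟨?_, fun i j => ?_⟩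
      · rw [IsTri.idiv_det ((hf' h3).symm ▸ h4), map_sum, Finset.sum_congr rfl fun j _ => (h2 j).2,
          ← Finset.mul_sum, ← h1, Nat.cast_sum]
      · rw [hf' h3]
        rcases lt_trichotomy i j with hj | rfl | hj
        · exact (hs _ (h2 j).1).1 _ (h5 i j hj)
        · rw [h4.2, unit_mem_Oh, idiv_piD]
          exact (h2 i).1
        · rw [h4.1 i j hj]
          exact zero_mem _
    · intro hx
      obtain ⟨g, rfl⟩ := x.mk_surj
      obtain ⟨h1, h2⟩ := mk_mem_intN.1 hx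
      obtain ⟨k, hk, D, hD, h3⟩ := NF_exists hs g h2
      choose l hl using fun j => zornb_nat (hD j)
      refine ⟨⟨Finsupp.equivFunOnFinite.symm l, D, (k * g).1⟩,
        (hU _).2 ⟨?_, fun j => ⟨hD j, hl j⟩, h3⟩, (RC.mk_eq.2 ⟨k, hk, Units.ext (hf' h3)⟩).symm⟩
      have h4 := (mem_NF.1 h3).1.idiv_det
      rw [map_mul, idiv_mul, idiv_det_abK hk, zero_add] at h4
      rw [h4, map_sum, Finset.sum_congr rfl fun j _ => hl j, ← Finset.mul_sum] at h1
      exact_mod_cast mul_left_cancel₀ hd h1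
  · rw [Finset.card_image_of_injOn]
    · simp only [U, Finset.card_sigma, Nat.cast_sum]
      refine Finset.sum_congr rfl fun l _ => ?_
      rw [Finset.sum_congr rfl (g := fun _ => ∏ j : Fin n, ((qq F ^ dl F) ^ (j : ℕ)) ^ l j)]
      · rw [Finset.sum_const, Fintype.card_piFinset, nsmul_eq_mul, Nat.cast_prod,
          Finset.prod_mul_distrib]
        rfl
      · intro D hD
        rw [card_NF, Nat.cast_prod]
        refine Finset.prod_congr rfl fun j _ => ?_
        have h1 := (Set.Finite.mem_toFinset _).1 (Fintype.mem_piFinset.1 hD j)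
        rw [Nat.cast_pow, hc _ h1.1, h1.2, ← Nat.cast_mul, zpow_natCast, pow_mul, pow_right_comm]
    · rintro ⟨l, D, t⟩ hy ⟨l', D', t'⟩ hy' e
      obtain ⟨-, h2, h3⟩ := (hU _).1 hy
      obtain ⟨-, h2', h3'⟩ := (hU _).1 hy'
      dsimp only at h2 h3 h2' h3' e
      obtain ⟨k, hk, e1⟩ := RC.mk_eq.1 e
      obtain ⟨k', hk', e2⟩ := RC.mk_eq.1 e.symm
      have e3 : t' = k.1 * t := by rw [← hf' h3, ← hf' h3', e1, Units.val_mul]
      have e4 : t = k'.1 * t' := by rw [← hf' h3, ← hf' h3', e2, Units.val_mul]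
      obtain rfl : D = D' := le_antisymm
        ((mem_NF.1 h3).1.le (e3 ▸ (mem_NF.1 h3').1) (abK_mem hk))
        ((mem_NF.1 h3').1.le (e4 ▸ (mem_NF.1 h3).1) (abK_mem hk'))
      obtain rfl : l = l' := Finsupp.ext fun j => by
        exact_mod_cast mul_left_cancel₀ hd ((h2 j).2.symm.trans (h2' j).2)
      rw [e3, NF_unique hs (fun j => (h2 j).1) h3 (e3 ▸ h3') (abK_mem hk), one_mul]

theorem finite_intN (k : ℤ) : (intN F n k).Finite := by
  rcases (intN F n k).eq_empty_or_nonempty with h | ⟨x, hx⟩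
  · rw [h]; exact Set.finite_empty
  · obtain ⟨g, rfl⟩ := x.mk_surj
    obtain ⟨h1, h2⟩ := mk_mem_intN.1 hx
    obtain ⟨u, hu, D, h⟩ := exists_isTri g
    have h3 := h.idiv_det
    rw [map_mul, idiv_mul, idiv_det_abK hu, zero_add] at h3
    obtain ⟨m, hm⟩ := zornb_nat (B := ∑ i, D i)
      (Finset.sum_nonneg fun i _ => h.nonneg ((abK_mul hu _).2 h2) i)
    obtain ⟨T, hT, -⟩ := ab_main (F := F) (n := n) m
    rw [← h1, h3, hm, ← hT]
    exact T.finite_toSet

theorem ncard_intN : (PowerSeries.mk fun m : ℕ => ((intN F n (dl F * m)).ncard : ℝ)) =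
    ∏ j : Fin n, PowerSeries.mk fun i : ℕ =>
      (ee F (dl F * i) : ℝ) * ((qq F ^ dl F) ^ (j : ℕ)) ^ i := by
  ext m
  obtain ⟨T, hT, h⟩ := ab_main (F := F) (n := n) m
  rw [PowerSeries.coeff_mk, ← hT, Set.ncard_coe_finset, h, PowerSeries.coeff_prod]
  simp only [PowerSeries.coeff_mk]

end H5T
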