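import Pool.Agent.H81Sel.ZornB

/-! The power series argument for algebras of any degree. -/

namespace H5T

open Filter Topology SelAvg.FF Polynomial

lemma abb_poly {Q α κ : ℝ} (hQ : 1 < Q) (hα : α ≠ 0) (hκ : κ ≠ 0) (E : ℕ → ℝ)
    (hE0 : ∀ i, 0 ≤ E i) (hE1 : 0 < E 0) (hE : ∀ᶠ i in atTop, E i = α * Q ^ i - κ) :
    ∃ R : ℝ[X], (R : PowerSeries ℝ) = (1 - PowerSeries.C Q * PowerSeries.X) *
      (1 - PowerSeries.X) * PowerSeries.mk E ∧ ∀ l : ℕ, R.eval (Q⁻¹ ^ l) ≠ 0 := by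
  obtain ⟨P, hP⟩ := zornb_poly (PowerSeries.mk fun n => E n - (α * Q ^ n - κ * 1 ^ n))
    (hE.mono fun n hn => by simp [hn])
  have hE' : PowerSeries.mk E = P + (PowerSeries.C α * PowerSeries.mk (fun n => Q ^ n) -
      PowerSeries.C κ * PowerSeries.mk (fun n => (1 : ℝ) ^ n)) := by
    rw [hP]; ext n; simp
  have hQ0 : 0 < Q := by linarith
  have hi : Q⁻¹ < 1 := inv_lt_one_of_one_lt₀ hQ
  refine ⟨(1 - C Q * X) * (1 - X) * P + (C α * (1 - X) - C κ * (1 - C Q * X)), ?_, fun l => ?_⟩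
  · rw [hE']
    have h1 := zornb_geom 1
    rw [map_one, one_mul] at h1
    simp only [coe_add, coe_mul, coe_sub, coe_one, coe_C, coe_X]
    linear_combination (-PowerSeries.C α * (1 - PowerSeries.X)) * zornb_geom Q +
      (PowerSeries.C κ * (1 - PowerSeries.C Q * PowerSeries.X)) * h1
  simp only [eval_add, eval_mul, eval_sub, eval_one, eval_C, eval_X]
  rcases l with _ | _ | l
  · have : 1 - Q ≠ 0 := by linarith
    simpa [hκ] using this
  · have : 1 - Q⁻¹ ≠ 0 := by linarith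
    simpa [hα, mul_inv_cancel₀ hQ0.ne'] using this
  set x := Q⁻¹ ^ (l + 1 + 1) with hx
  have x0 : 0 < x := by positivity
  have x1 : Q * x < 1 := by
    rw [hx, pow_succ', ← mul_assoc, mul_inv_cancel₀ hQ0.ne', one_mul]
    exact pow_lt_one₀ (by positivity) hi (by omega)
  have x2 : x < 1 := pow_lt_one₀ (by positivity) hi (by omega)
  have s1 : HasSum (fun i => P.coeff i * x ^ i) (P.eval x) := by
    rw [eval_eq_sum_range]
    exact hasSum_sum_of_ne_finset_zero fun i hi => by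
      rw [coeff_eq_zero_of_natDegree_lt (by simpa using hi), zero_mul]
  have s2 := (s1.add ((hasSum_geometric_of_lt_one (by positivity) x1).mul_left α)).sub
    ((hasSum_geometric_of_lt_one x0.le x2).mul_left κ)
  have s3 : HasSum (fun i => E i * x ^ i) (P.eval x + α * (1 - Q * x)⁻¹ - κ * (1 - x)⁻¹) := by
    have e : (fun i => E i * x ^ i) =
        fun b => P.coeff b * x ^ b + α * (Q * x) ^ b - κ * x ^ b := funext fun i => by
      rw [← coeff_coe, hP, PowerSeries.coeff_mk, mul_pow]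
      ring
    rw [e]
    exact s2
  have s4 : 0 < P.eval x + α * (1 - Q * x)⁻¹ - κ * (1 - x)⁻¹ := lt_of_lt_of_le (by simpa using hE1)
    (le_hasSum s3 0 fun i _ => mul_nonneg (hE0 i) (by positivity))
  have a1 : 0 < 1 - Q * x := by linarith
  have a2 : 0 < 1 - x := by linarith
  refine ne_of_gt (lt_of_lt_of_eq (mul_pos (mul_pos a1 a2) s4) ?_)
  field_simp
  ring

lemma abb_coe_prod {ι : Type} (s : Finset ι) (f : ι → ℝ[X]) :
    ((∏ i ∈ s, f i : ℝ[X]) : PowerSeries ℝ) = ∏ i ∈ s, (f i : PowerSeries ℝ) :=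
  map_prod Polynomial.coeToPowerSeries.ringHom f s

lemma abb_scale (R : ℝ[X]) (c : ℝ) :
    ((R.comp (C c * X) : ℝ[X]) : PowerSeries ℝ) = PowerSeries.rescale c R := by
  ext i
  rw [coeff_coe, PowerSeries.coeff_rescale, coeff_coe, comp_C_mul_X_coeff, mul_comm]

/-- `R = (1 - Q X) (1 - X) mk E` is a polynomial that does not vanish at the powers of `1 / Q`.
Evaluate `∏ j, R(Q^j X) * (1 - X^s) (1 - Q^(n s) X^s) = S * ∏ j, (1 - Q^(j+1) X) (1 - Q^j X)` at
`Q^(-(n - 1))`. -/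
theorem zorn_seriesN {Q α κ : ℝ} (hQ : 1 < Q) (hα : α ≠ 0) (hκ : κ ≠ 0) (E a : ℕ → ℝ)
    (hE0 : ∀ i, 0 ≤ E i) (hE1 : 0 < E 0) (hE : ∀ᶠ i in atTop, E i = α * Q ^ i - κ) {n : ℕ}
    (hn : 2 ≤ n)
    (ha : PowerSeries.mk a = ∏ j : Fin n, PowerSeries.mk fun i => E i * (Q ^ (j : ℕ)) ^ i)
    {s : ℕ} (hs : 0 < s)
    (h : ∀ r, r < s → ∃ α' β' : ℝ, ∀ᶠ m in atTop, a (r + m * s) = α' * (Q ^ (n * s)) ^ m - β') :
    False := by
  obtain ⟨R, hR, hR'⟩ := abb_poly hQ hα hκ E hE0 hE1 hE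
  obtain ⟨S, hS⟩ := zornb_rec a hs h
  obtain ⟨n, rfl⟩ : ∃ m, n = m + 1 := ⟨n - 1, by omega⟩
  have hQ0 : 0 < Q := by linarith
  have hi : Q⁻¹ < 1 := inv_lt_one_of_one_lt₀ hQ
  have key : (∏ j : Fin (n + 1), R.comp (C (Q ^ (j : ℕ)) * X)) *
      ((1 - X ^ s) * (1 - C (Q ^ ((n + 1) * s)) * X ^ s)) =
      S * ∏ j : Fin (n + 1), ((1 - C Q * (C (Q ^ (j : ℕ)) * X)) * (1 - C (Q ^ (j : ℕ)) * X)) := by
    apply Polynomial.coe_injective
    rw [coe_mul, coe_mul S, abb_coe_prod, abb_coe_prod, hS, ha, mul_assoc _ (∏ j, _),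
      ← Finset.prod_mul_distrib, mul_comm]
    simp only [coe_mul, coe_sub, coe_one, coe_C, coe_X, coe_pow]
    refine congrArg _ (Finset.prod_congr rfl fun j _ => ?_)
    rw [abb_scale, hR, map_mul, map_mul, map_sub, map_sub, map_one, map_mul,
      PowerSeries.rescale_X, PowerSeries.rescale_mk, mul_comm]
    congr 1
    · ext i
      simp [mul_comm]
    · congr 3
      ext i
      simp [PowerSeries.coeff_C]
      split_ifs with h <;> simp [h]
  have k2 := congrArg (eval (Q⁻¹ ^ n)) key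
  have e1 : Q ^ n * Q⁻¹ ^ n = 1 := by rw [← mul_pow, mul_inv_cancel₀ hQ0.ne', one_pow]
  rw [eval_mul, eval_mul (p := S), eval_prod, eval_prod,
    Finset.prod_eq_zero (f := fun j : Fin (n + 1) => eval _ ((1 - _) * _)) (Finset.mem_univ (Fin.last n)) (by simp [-inv_pow, e1]), mul_zero] at k2
  refine mul_ne_zero (Finset.prod_ne_zero_iff.2 fun j _ => ?_) ?_ k2
  · obtain ⟨l, hl⟩ := Nat.exists_eq_add_of_le (Nat.lt_succ_iff.1 j.2)
    have e2 : Q ^ (j : ℕ) * Q⁻¹ ^ ((j : ℕ) + l) = Q⁻¹ ^ l := by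
      rw [pow_add, ← mul_assoc, ← mul_pow, mul_inv_cancel₀ hQ0.ne', one_pow, one_mul]
    rw [eval_comp, eval_mul, eval_C, eval_X]
    rw [← hl] at e2
    rw [e2]
    exact hR' l
  · simp only [eval_mul, eval_sub, eval_one, eval_pow, eval_X, eval_C]
    have a1 : (Q⁻¹ ^ n) ^ s < 1 :=
      pow_lt_one₀ (by positivity) (pow_lt_one₀ (by positivity) hi (by omega)) hs.ne'
    have a2 : 1 < Q ^ ((n + 1) * s) * (Q⁻¹ ^ n) ^ s := by
      rw [pow_mul, ← mul_pow, pow_succ', mul_assoc, e1, mul_one]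
      exact one_lt_pow₀ hQ hs.ne'
    exact mul_ne_zero (by linarith) (by linarith)

end H5T
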