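import Pool.Agent.H5T.AbA
import Pool.Agent.H5T.AbB
import Pool.Agent.H81Sel.Zorn

/-! The argument of Zorn: there is no division algebra of dimension `n ^ 2 > 1` whose adelisation
is the algebra of all matrices. -/

namespace H5T

open SelAvg SelAvg.FF WithZero Filter Topology Matrix
open scoped Classical ENNReal

variable {n : ℕ}

/-- the positions of a matrix, last row first -/
def abE (n : ℕ) : Fin n × Fin n ≃ Fin (n * n) :=
  (Fin.revPerm.prodCongr (Equiv.refl _)).trans finProdFinEquiv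

lemma abE_lt {i l : Fin n} (h : i < l) (j : Fin n) : abE n (l, j) < abE n (i, j) := by
  have h1 : (l.rev : ℕ) < i.rev := Fin.rev_lt_rev.2 h
  change (j : ℕ) + n * (l.rev : ℕ) < j + n * (i.rev : ℕ)
  exact Nat.add_lt_add_left (Nat.mul_lt_mul_of_pos_left h1 j.pos) _

/-- the entries of a matrix as a vector -/
def flatN (n : ℕ) (R : Type) [CommRing R] : Matrix (Fin n) (Fin n) R ≃ₗ[R] (Fin (n * n) → R) where
  toFun M p := M ((abE n).symm p).1 ((abE n).symm p).2
  invFun a := of fun i j => a (abE n (i, j))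
  map_add' _ _ := rfl
  map_smul' _ _ := rfl
  left_inv M := by
    ext i j
    simp
  right_inv a := by
    funext p
    simp

lemma flatN_mem {R : Type} [CommRing R] (S : Subring R) (M : Matrix (Fin n) (Fin n) R) :
    (∀ p, flatN n R M p ∈ S) ↔ ∀ i j, M i j ∈ S := by
  refine ⟨fun h i j => ?_, fun h p => h _ _⟩
  simpa [flatN] using h (abE n (i, j))

/-- multiplication on both sides -/
def lrN {R : Type} [CommRing R] (g g' : GL (Fin n) R) :
    Matrix (Fin n) (Fin n) R ≃ₗ[R] Matrix (Fin n) (Fin n) R where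
  toFun M := g.1 * M * g'.1
  invFun M := (g⁻¹).1 * M * (g'⁻¹).1
  map_add' M N := by rw [mul_add, add_mul]
  map_smul' r M := by simp
  left_inv M := by
    simp only [← mul_assoc, Units.inv_mul, one_mul]
    rw [mul_assoc, Units.mul_inv, mul_one]
  right_inv M := by
    simp only [← mul_assoc, Units.mul_inv, one_mul]
    rw [mul_assoc, Units.inv_mul, mul_one]

variable {F : Type} [Field F]

/-- left multiplication on the entries -/
noncomputable def lmN (g : GL (Fin n) (A F)) : (Fin (n * n) → A F) ≃ₗ[A F] (Fin (n * n) → A F) :=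
  ((flatN n (A F)).symm.trans (lrN g 1)).trans (flatN n (A F))

lemma lmN_apply (g : GL (Fin n) (A F)) (a : Fin (n * n) → A F) :
    lmN g a = flatN n (A F) (g.1 * (flatN n (A F)).symm a) :=
  congrArg (flatN n (A F)) (mul_one _)

/-- the twist by a divisor -/
noncomputable def abTw (E : FF.Div F) : Equiv.Perm (RC (abK F n)) :=
  RC.act (abK F n) (GeneralLinearGroup.scalar (Fin n) (piD (-E)))

lemma abTw_mk (E : FF.Div F) (g : GL (Fin n) (A F)) :
    abTw E (RC.mk (abK F n) g) = RC.mk (abK F n) (GeneralLinearGroup.scalar (Fin n) (piD E) * g) := by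
  rw [abTw, RC.act_mk, ← map_inv, piD_neg, inv_inv, GeneralLinearGroup.scalar_commute]

lemma abTw_act (E : FF.Div F) (γ : GL (Fin n) (A F)) (x : RC (abK F n)) :
    abTw E (RC.act (abK F n) γ x) = RC.act (abK F n) γ (abTw E x) := by
  obtain ⟨g, rfl⟩ := x.mk_surj
  rw [RC.act_mk, abTw_mk, abTw_mk, RC.act_mk, mul_assoc]

lemma abTw_symm_act (E : FF.Div F) (γ : GL (Fin n) (A F)) (x : RC (abK F n)) :
    (abTw E).symm (RC.act (abK F n) γ x) = RC.act (abK F n) γ ((abTw E).symm x) := by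
  rw [Equiv.symm_apply_eq, abTw_act, Equiv.apply_symm_apply]

variable [Cv F] {Γ : Subgroup (GL (Fin n) (A F))}
  {ι : (Fin (n * n) → A F) ≃ₗ[A F] Matrix (Fin n) (Fin n) (A F)}

lemma dgN_abTw (m : ℕ) (x : RC (abK F n)) : dgN (abTw (m • PP F) x) = dgN x + n * (m * pp F) := by
  obtain ⟨g, rfl⟩ := x.mk_surj
  rw [abTw_mk, dgN_mk, dgN_mk, map_mul, GeneralLinearGroup.det_scalar, idiv_mul, idiv_pow, idiv_piD,
    map_add, map_nsmul, zorn_deg_nsmul, Fintype.card_fin, nsmul_eq_mul, add_comm]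

lemma NN_lmN (g : GL (Fin n) (A F)) :
    NN (lmN g) = qq F ^ (n * deg (idiv (GeneralLinearGroup.det g)) + (n * n : ℕ) * cc F) := by
  obtain ⟨k, hk, D, h⟩ := exists_isTri g
  have h1 : NN (lmN (k * g)) = NN (lmN g) := by
    refine NN_congr fun a => ?_
    rw [lmN_apply, lmN_apply, flatN_mem, flatN_mem, Units.val_mul, mul_assoc, abK_mul hk]
  have h2 := NN_tri (lmN (k * g)) (fun p => D ((abE n).symm p).1)
    (fun p => (((piD (D ((abE n).symm p).1))⁻¹ : (A F)ˣ) : A F) •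
      (LinearMap.proj p ∘ₗ (lmN (k * g)).toLinearMap) - LinearMap.proj p) (by
      intro p a a' ha
      obtain ⟨⟨i, j⟩, rfl⟩ := (abE n).surjective p
      rw [← sub_eq_zero, ← map_sub]
      have e : lmN (k * g) (a - a') (abE n (i, j)) = piD (D i) * (a - a') (abE n (i, j)) := by
        rw [lmN_apply, ← h.2]
        simp only [flatN, LinearEquiv.coe_mk, LinearMap.coe_mk, AddHom.coe_mk,
          Equiv.symm_apply_apply, LinearEquiv.coe_symm_mk, Matrix.mul_apply, of_apply]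
        refine Finset.sum_eq_single i (fun l _ hl => ?_) fun h => absurd (Finset.mem_univ i) h
        rcases lt_or_gt_of_ne hl with h3 | h3
        · rw [h.1 i l h3, zero_mul]
        · rw [Pi.sub_apply, ha _ (abE_lt h3 j), sub_self, mul_zero]
      simp only [Equiv.symm_apply_apply, LinearMap.sub_apply, LinearMap.smul_apply,
        LinearMap.comp_apply, LinearEquiv.coe_coe, LinearMap.proj_apply, smul_eq_mul, e,
        Units.inv_mul_cancel_left, sub_self]) (by
      intro a p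
      simp only [LinearMap.sub_apply, LinearMap.smul_apply, LinearMap.comp_apply,
        LinearEquiv.coe_coe, LinearMap.proj_apply, smul_eq_mul, add_sub_cancel,
        Units.mul_inv_cancel_left])
  have h3 := h.idiv_det
  rw [map_mul, idiv_mul, idiv_det_abK hk, zero_add] at h3
  rw [← h1, h2, h3, map_sum, (abE n).symm.sum_comp fun p => deg (D p.1), Fintype.sum_prod_type,
    Finset.mul_sum]
  simp

theorem exists_latN (ι : (Fin (n * n) → A F) ≃ₗ[A F] Matrix (Fin n) (Fin n) (A F)) :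
    ∃ (T : GL (Fin n) (A F) → (Fin (n * n) → A F) ≃ₗ[A F] (Fin (n * n) → A F)) (N₀ : ℝ), 0 < N₀ ∧
      (∀ g a, T g a = flatN n (A F) (g.1 * ι a)) ∧
      ∀ g, NN (T g) = N₀ * qq F ^ (n * deg (idiv (GeneralLinearGroup.det g))) := by
  refine ⟨fun g => (ι.trans (flatN n (A F))).trans (lmN g), NN (ι.trans (flatN n (A F))),
    NN_pos _, fun g a => ?_, fun g => ?_⟩
  · rw [LinearEquiv.trans_apply, LinearEquiv.trans_apply, lmN_apply, LinearEquiv.symm_apply_apply]
  · have h := NN_trans (ι.trans (flatN n (A F))) (lmN g)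
    have hq : qq F ≠ 0 := (zero_lt_one.trans one_lt_qq).ne'
    rw [NN_lmN, zpow_add₀ hq, ← mul_assoc] at h
    exact mul_right_cancel₀ (zpow_ne_zero _ hq) h

/-- a division algebra inside the adelic matrices -/
structure IsDivN (Γ : Subgroup (GL (Fin n) (A F)))
    (ι : (Fin (n * n) → A F) ≃ₗ[A F] Matrix (Fin n) (Fin n) (A F)) : Prop where
  two : 2 ≤ n
  ex : ∀ y : Fin (n * n) → F, y ≠ 0 → ∃ g ∈ Γ, g.1 = ι (dlg y)
  mem : ∀ g ∈ Γ, ∃ y : Fin (n * n) → F, g.1 = ι (dlg y)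

lemma IsDivN.mul (h : IsDivN Γ ι) {γ : GL (Fin n) (A F)} (hγ : γ ∈ Γ) (y : Fin (n * n) → F) :
    ∃ z, γ.1 * ι (dlg y) = ι (dlg z) := by
  by_cases hy : y = 0
  · exact ⟨0, by rw [hy, lata_dlg_zero, map_zero, mul_zero]⟩
  · obtain ⟨g, hg, e⟩ := h.ex y hy
    rw [← e]
    exact h.mem _ (mul_mem hγ hg)

/-- multiplication by an element of the algebra permutes the rational points -/
lemma IsDivN.dg0 (h : IsDivN Γ ι) {γ : GL (Fin n) (A F)} (hγ : γ ∈ Γ) :
    deg (idiv (GeneralLinearGroup.det γ)) = 0 := by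
  obtain ⟨T, N₀, hN, hT, hNN⟩ := exists_latN ι
  choose σ hσ using h.mul hγ
  have hb : Function.Bijective σ := by
    refine ⟨fun y z e => ?_, fun z => ?_⟩
    · have h1 := hσ y
      rw [e, ← hσ z, Units.mul_right_inj] at h1
      exact zorn_dlg_injective (ι.injective h1)
    · obtain ⟨y, hy⟩ := h.mul (inv_mem hγ) z
      have h1 := hσ y
      rw [← hy, Units.mul_inv_cancel_left] at h1
      exact ⟨y, (zorn_dlg_injective (ι.injective h1)).symm⟩
  have h1 : NN (T γ) = NN (T 1) := NN_eq ((NN_spec (T 1)).mono fun m hm => by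
    rw [← hm, Finset.card_bijective σ hb fun y => ?_]
    rw [lc_mem, lc_mem, hT, hT, hσ, Units.val_one, one_mul])
  rw [hNN, hNN, map_one, idiv_one, map_zero, mul_zero, mul_right_inj' hN.ne',
    zpow_right_inj₀ (zero_lt_one.trans one_lt_qq) one_lt_qq.ne', mul_eq_zero] at h1
  have := h.two
  exact h1.resolve_left (by omega)

theorem IsDivN.finite_stab (h : IsDivN Γ ι) (x : RC (abK F n)) :
    {γ : Γ | RC.act (abK F n) γ x = x}.Finite := by
  obtain ⟨g, rfl⟩ := x.mk_surj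
  have hf := (finite_HH ((ι.trans (lrN g g⁻¹)).trans (flatN n (A F)))).image
    fun y => ι (dlg y)
  have hinj : Function.Injective fun γ : Γ => (γ : GL (Fin n) (A F)).1 :=
    fun a b hab => Subtype.ext (Units.ext hab)
  refine (hf.preimage hinj.injOn).subset fun γ hγ => ?_
  obtain ⟨y, hy⟩ := h.mem γ γ.2
  refine ⟨y, ?_, hy.symm⟩
  obtain ⟨k, hk, e⟩ := RC.mk_eq.1 ((RC.act_mk _ _).symm.trans hγ)
  have e' : g * γ * g⁻¹ = k := by
    rw [mul_inv_eq_iff_eq_mul, ← eq_mul_inv_iff_mul_eq, mul_assoc]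
    exact e
  change ∀ i, flatN n (A F) (g.1 * ι (dlg y) * (g⁻¹).1) i ∈ Oh F
  rw [flatN_mem, ← hy, ← Units.val_mul, ← Units.val_mul, e']
  exact abK_mem hk

lemma IsDivN.deg_mul (h : IsDivN Γ ι) (g : GL (Fin n) (A F)) {γ : GL (Fin n) (A F)}
    (hγ : γ ∈ Γ) : deg (idiv (GeneralLinearGroup.det (g * γ))) =
      deg (idiv (GeneralLinearGroup.det g)) := by
  rw [map_mul, idiv_mul, map_add, h.dg0 hγ, add_zero]

lemma IsDivN.dgN_act (h : IsDivN Γ ι) {γ : GL (Fin n) (A F)} (hγ : γ ∈ Γ) (x : RC (abK F n)) :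
    dgN (RC.act (abK F n) γ x) = dgN x := by
  obtain ⟨g, rfl⟩ := x.mk_surj
  rw [RC.act_mk, dgN_mk, dgN_mk, h.deg_mul g (Γ.inv_mem hγ)]

lemma abc_tendsto (hn : 2 ≤ n) (N₀ : ℝ) (hN : 0 < N₀) (k : ℤ) :
    ∃ m : ℕ, 1 < N₀ * qq F ^ (n * (k + n * (m * pp F : ℤ))) := by
  have hq : 0 < qq F := zero_lt_one.trans one_lt_qq
  have hp : 0 < pp F := dg_pos _
  have h1 : 1 < qq F ^ (n * n * pp F) := one_lt_pow₀ one_lt_qq (by positivity)
  have hc : 0 < N₀ * qq F ^ (n * k) := mul_pos hN (zpow_pos hq _)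
  obtain ⟨m, hm⟩ := pow_unbounded_of_one_lt (N₀ * qq F ^ (n * k))⁻¹ h1
  refine ⟨m, ?_⟩
  have e : qq F ^ (n * (k + n * (m * pp F : ℤ))) =
      qq F ^ (n * k) * (qq F ^ (n * n * pp F)) ^ m := by
    rw [← pow_mul, ← zpow_natCast, ← zpow_add₀ hq.ne']
    congr 1
    push_cast
    ring
  rw [e, ← mul_assoc]
  rwa [inv_lt_iff_one_lt_mul₀' hc] at hm

theorem IsDivN.finite_orbits (h : IsDivN Γ ι) (k : ℤ) : ∃ s : Finset (RC (abK F n)),
    (∀ x ∈ s, dgN x = k) ∧ ∀ x, dgN x = k → ∃ x₀ ∈ s, ∃ γ ∈ Γ, RC.act (abK F n) γ x₀ = x := by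
  obtain ⟨T, N₀, hN, hT, hNN⟩ := exists_latN ι
  obtain ⟨m, hm⟩ := abc_tendsto (F := F) h.two N₀ hN k
  refine ⟨(finite_intN (F := F) (k + n * (m * pp F))).toFinset.image (abTw (m • PP F)).symm,
    fun x hx => ?_, fun x hx => ?_⟩
  · obtain ⟨x', hx', rfl⟩ := Finset.mem_image.1 hx
    have h1 := ((Set.Finite.mem_toFinset _).1 hx').1
    have h2 := dgN_abTw m ((abTw (m • PP F)).symm x')
    rw [Equiv.apply_symm_apply, h1] at h2
    exact (add_right_cancel h2).symm
  · obtain ⟨g, hg⟩ := (abTw (m • PP F) x).mk_surj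
    have hd : deg (idiv (GeneralLinearGroup.det g)) = k + n * (m * pp F) := by
      rw [← dgN_mk, hg, dgN_abTw, hx]
    have h1 : (1 : ℝ) < (hbox (T g)).card := by
      refine lt_of_lt_of_le ?_ (NN_le_card (T g))
      rw [hNN, hd]
      exact hm
    obtain ⟨y, hy, hy0⟩ := Finset.exists_mem_ne (by exact_mod_cast h1) (0 : Fin (n * n) → F)
    obtain ⟨γ, hγ, e⟩ := h.ex y hy0
    refine ⟨(abTw (m • PP F)).symm (RC.mk (abK F n) (g * γ)), Finset.mem_image_of_mem _ ?_, γ, hγ, ?_⟩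
    · rw [Set.Finite.mem_toFinset, mk_mem_intN, h.deg_mul g hγ]
      refine ⟨hd, ?_⟩
      rw [Units.val_mul, e, ← flatN_mem, ← hT]
      exact mem_hbox.1 hy
    · rw [← abTw_symm_act, RC.act_mk, mul_inv_cancel_right, hg, Equiv.symm_apply_apply]

/-- the number of elements of the group that move `x` into `I` -/
noncomputable def cntN (Γ : Subgroup (GL (Fin n) (A F))) (I : Set (RC (abK F n)))
    (x : RC (abK F n)) : ℝ≥0∞ := ∑' γ : Γ, if RC.act (abK F n) (γ⁻¹ : Γ) x ∈ I then 1 else 0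

omit [Cv F] in
lemma cntN_act (I : Set (RC (abK F n))) {δ : GL (Fin n) (A F)} (hδ : δ ∈ Γ) (x : RC (abK F n)) :
    cntN Γ I (RC.act (abK F n) δ x) = cntN Γ I x := by
  unfold cntN
  rw [← (Equiv.mulLeft (⟨δ, hδ⟩ : Γ)).tsum_eq]
  refine tsum_congr fun γ => ?_
  rw [← Equiv.Perm.mul_apply, ← map_mul]
  simp

omit [Cv F] in
lemma cntN_sum {ρ : RC (abK F n) → ℝ≥0∞} (hρ : IsBru ((RC.act (abK F n)).comp Γ.subtype) ρ)
    {I : Set (RC (abK F n))} (hI : I.Finite) : ∑' x, ρ x * cntN Γ I x = I.ncard := by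
  unfold cntN
  simp_rw [← ENNReal.tsum_mul_left]
  rw [ENNReal.tsum_comm]
  have h1 : ∀ γ : Γ, ∑' x, ρ x * (if RC.act (abK F n) (γ⁻¹ : Γ) x ∈ I then 1 else 0) =
      ∑' x, ρ (RC.act (abK F n) γ x) * (if x ∈ I then 1 else 0) := by
    intro γ
    rw [← (RC.act (abK F n) γ).tsum_eq]
    refine tsum_congr fun x => ?_
    rw [← Equiv.Perm.mul_apply, ← map_mul]
    simp
  simp_rw [h1]
  rw [ENNReal.tsum_comm]
  simp_rw [ENNReal.tsum_mul_right]
  have h2 : ∀ x, ∑' γ : Γ, ρ (RC.act (abK F n) γ x) = 1 := hρ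
  simp_rw [h2, one_mul]
  rw [tsum_eq_sum (s := hI.toFinset) fun x hx => if_neg fun h => hx (hI.mem_toFinset.2 h),
    Finset.sum_congr rfl fun x hx => if_pos (hI.mem_toFinset.1 hx), Set.ncard_eq_toFinset_card I hI]
  simp

lemma IsDivN.cntN_ne (h : IsDivN Γ ι) {k : ℤ} {x : RC (abK F n)} (hx : dgN x ≠ k) :
    cntN Γ (intN F n k) x = 0 := by
  unfold cntN
  rw [ENNReal.tsum_eq_zero]
  intro γ
  refine if_neg fun hI => hx ?_
  rw [← h.dgN_act (γ⁻¹).2 x]
  exact hI.1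

lemma IsDivN.cntN_mk (h : IsDivN Γ ι) {k : ℤ} {g : GL (Fin n) (A F)}
    (hg : deg (idiv (GeneralLinearGroup.det g)) = k) (s : Finset (Fin (n * n) → F))
    (hs : ∀ y, y ∈ s ↔ ∀ i j, (g.1 * ι (dlg y)) i j ∈ Oh F) :
    cntN Γ (intN F n k) (RC.mk (abK F n) g) = (s.erase 0).card := by
  have hf : ∀ y : Fin (n * n) → F, ∃ γ : Γ, y ≠ 0 → (γ : GL (Fin n) (A F)).1 = ι (dlg y) := by
    intro y
    by_cases hy : y = 0
    · exact ⟨1, fun h => (h hy).elim⟩
    · obtain ⟨γ, hγ, e⟩ := h.ex y hy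
      exact ⟨⟨γ, hγ⟩, fun _ => e⟩
  choose f hf using hf
  have : Nontrivial (A F) := toA_injective.nontrivial
  have : Nonempty (Fin n) := ⟨⟨0, zero_lt_two.trans_le h.two⟩⟩
  have hiff : ∀ γ : Γ, RC.act (abK F n) (γ⁻¹ : Γ) (RC.mk (abK F n) g) ∈ intN F n k ↔
      γ ∈ (s.erase 0).image f := by
    intro γ
    rw [RC.act_mk, Subgroup.coe_inv, inv_inv, mk_mem_intN, h.deg_mul g γ.2, Units.val_mul,
      Finset.mem_image]
    constructor
    · rintro ⟨-, hi⟩
      obtain ⟨y, hy⟩ := h.mem γ γ.2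
      have hy0 : y ≠ 0 := by
        rintro rfl
        rw [lata_dlg_zero, map_zero] at hy
        exact Units.ne_zero _ hy
      refine ⟨y, Finset.mem_erase.2 ⟨hy0, (hs y).2 (hy ▸ hi)⟩, ?_⟩
      exact Subtype.ext (Units.ext ((hf y hy0).trans hy.symm))
    · rintro ⟨y, hy, rfl⟩
      rw [hf y (Finset.mem_erase.1 hy).1]
      exact ⟨hg, (hs y).1 (Finset.mem_erase.1 hy).2⟩
  unfold cntN
  simp_rw [hiff]
  rw [tsum_eq_sum (s := (s.erase 0).image f) fun x hx => if_neg hx,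
    Finset.sum_congr rfl fun x hx => if_pos hx, Finset.sum_const, nsmul_eq_mul, mul_one,
    Finset.card_image_of_injOn]
  intro y hy y' hy' e
  have h1 := hf y (Finset.mem_erase.1 hy).1
  rw [e, hf y' (Finset.mem_erase.1 hy').1] at h1
  exact (zorn_dlg_injective (ι.injective h1)).symm

theorem IsDivN.ncard_eq (h : IsDivN Γ ι) (k : ℤ) : ∃ α β : ℝ, ∀ᶠ m : ℕ in atTop,
    ((intN F n (k + n * (m * pp F))).ncard : ℝ) = α * (qq F ^ (n * n * pp F)) ^ m - β := by
  obtain ⟨T, N₀, -, hT, hNN⟩ := exists_latN ι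
  obtain ⟨ρ, hρ⟩ := exists_bru ((RC.act (abK F n)).comp Γ.subtype) h.finite_stab
  obtain ⟨s, hs, hs'⟩ := h.finite_orbits k
  set μ : ℝ≥0∞ := ∑' x, if dgN x = k then ρ x else 0 with hμ
  refine ⟨N₀ * qq F ^ (n * k) * μ.toReal, μ.toReal, ?_⟩
  have hev : ∀ᶠ m : ℕ in atTop, ∀ x ∈ s, ((hbox (tw1 (T x.out) m)).card : ℝ) =
      NN (T x.out) * qq F ^ (n * n * m * pp F) :=
    (Finset.eventually_all s).2 fun x _ => NN_spec (T x.out)
  filter_upwards [hev] with m hm
  set k' : ℤ := k + n * (m * pp F) with hk'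
  set C : ℝ := N₀ * qq F ^ (n * k) * (qq F ^ (n * n * pp F)) ^ m - 1 with hC
  have hρ' := hρ.comp_perm (abTw (m • PP F)).symm fun g x => abTw_symm_act _ _ _
  have h1 := cntN_sum hρ' (finite_intN (F := F) k')
  rw [← (abTw (m • PP F)).tsum_eq] at h1
  have h0 : ∀ x ∈ s, 0 ≤ C ∧
      cntN Γ (intN F n k') (abTw (m • PP F) x) = ENNReal.ofReal C := by
    intro x hx
    have hd : deg (idiv (GeneralLinearGroup.det x.out)) = k := hs x hx
    have hc : (((hbox (tw1 (T x.out) m)).erase 0).card : ℝ) = C := by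
      rw [Finset.card_erase_of_mem (zero_mem_hbox _),
        Nat.cast_sub (Finset.card_pos.2 ⟨0, zero_mem_hbox _⟩), hm x hx, hNN, hd, hC, ← pow_mul]
      congr 3
      · ring
      · exact Nat.cast_one
    refine ⟨hc ▸ Nat.cast_nonneg _, ?_⟩
    rw [← hc, ENNReal.ofReal_natCast]
    conv_lhs => rw [← x.mk_out, abTw_mk]
    refine h.cntN_mk ?_ _ fun y => ?_
    · rw [← dgN_mk, ← abTw_mk, dgN_abTw, RC.mk_out, hs x hx]
    · rw [mem_hbox, ← flatN_mem, latd_tw1, hT, ← map_smul, Units.val_mul, mul_assoc,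
        GeneralLinearGroup.coe_scalar, Matrix.scalar_apply, ← smul_eq_diagonal_mul]
  have h2 : ∀ x, ρ ((abTw (m • PP F)).symm (abTw (m • PP F) x)) *
      cntN Γ (intN F n k') (abTw (m • PP F) x) =
      ENNReal.ofReal C * if dgN x = k then ρ x else 0 := by
    intro x
    rw [Equiv.symm_apply_apply]
    by_cases hx : dgN x = k
    · obtain ⟨x₀, hx₀, γ, hγ, e⟩ := hs' x hx
      rw [if_pos hx, mul_comm]
      congr 1
      rw [← e, abTw_act, cntN_act _ hγ, (h0 x₀ hx₀).2]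
    · rw [if_neg hx, mul_zero, h.cntN_ne, mul_zero]
      rw [dgN_abTw]
      exact fun e => hx (add_right_cancel e)
  rw [tsum_congr h2, ENNReal.tsum_mul_left, ← hμ] at h1
  have h3 := congrArg ENNReal.toReal h1
  rw [ENNReal.toReal_mul, ENNReal.toReal_natCast] at h3
  rw [← h3]
  by_cases hne : s.Nonempty
  · obtain ⟨x, hx⟩ := hne
    rw [ENNReal.toReal_ofReal (h0 x hx).1, hC]
    ring
  · have : μ = 0 := by
      rw [hμ, ENNReal.tsum_eq_zero]
      intro x
      refine if_neg fun hx => ?_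
      obtain ⟨x₀, hx₀, -⟩ := hs' x hx
      exact hne ⟨x₀, hx₀⟩
    simp [this]

theorem IsDivN.false (h : IsDivN Γ ι) : False := by
  have hq : 0 < qq F := zero_lt_one.trans one_lt_qq
  have hd : 0 < dl F := dl_pos
  have hn := h.two
  obtain ⟨t, ht⟩ : dl F ∣ pp F := by
    have := dl_dvd (PP F)
    rw [deg_PP] at this
    exact_mod_cast this
  have hp : 0 < pp F := dg_pos _
  have ht0 : 0 < t := Nat.pos_of_ne_zero fun h0 => by rw [h0] at ht; omega
  refine zorn_seriesN (Q := qq F ^ dl F) (α := kapR F * qq F ^ cc F) (κ := kapR F)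
    (one_lt_pow₀ one_lt_qq hd.ne') (mul_pos kapR_pos (zpow_pos hq _)).ne' kapR_pos.ne'
    (fun i => (ee F (dl F * i) : ℝ)) (fun i => ((intN F n (dl F * i)).ncard : ℝ))
    (fun _ => Nat.cast_nonneg _) ?_ ?_ hn ncard_intN (s := n * t) (by positivity) fun r _ => ?_
  · exact Nat.cast_pos.2 (Finset.card_pos.2 ⟨0, (Set.Finite.mem_toFinset _).2 ⟨le_rfl, by simp⟩⟩)
  · filter_upwards [eventually_ge_atTop (c0 F)] with i hi
    rw [ee_eq (dvd_mul_right _ _) (by exact_mod_cast hi.trans (Nat.le_mul_of_pos_left i hd)),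
      zpow_add₀ hq.ne', ← pow_mul, ← zpow_natCast (qq F) (dl F * i), Nat.cast_mul]
    ring
  · obtain ⟨α, β, hm⟩ := h.ncard_eq (dl F * r)
    refine ⟨α, β, hm.mono fun m hm => ?_⟩
    have e1 : (dl F : ℤ) * (r + m * (n * t) : ℕ) = dl F * r + n * (m * pp F) := by
      rw [ht]
      push_cast
      ring
    have e2 : (qq F ^ dl F) ^ (n * (n * t)) = qq F ^ (n * n * pp F) := by
      rw [← pow_mul, ht]
      congr 1
      ring
    rw [e1, e2]
    exact hm

end H5T
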