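import Pool.Agent.H5T.Red

/-!
Points, good points and the projection of points over a field.
-/

namespace SelAvg.FF.T3

open WeierstrassCurve Matrix
open scoped Classical

variable {L L' : Type*} [Field L] [Field L']

namespace Pt

lemma Eqv.refl (Q : Pt L) : Eqv Q Q := by
  exact ⟨1, one_ne_zero, (one_smul _ _).symm⟩

lemma Eqv.symm {Q Q' : Pt L} (h : Eqv Q Q') : Eqv Q' Q := by
  obtain ⟨t, ht, rfl⟩ := h
  exact ⟨t⁻¹, inv_ne_zero ht, by rw [sc, sc, smul_smul, inv_mul_cancel₀ ht, one_smul]⟩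

lemma Eqv.trans {Q Q' Q'' : Pt L} (h : Eqv Q Q') (h' : Eqv Q' Q'') : Eqv Q Q'' := by
  obtain ⟨t, ht, rfl⟩ := h
  obtain ⟨t', ht', rfl⟩ := h'
  exact ⟨t' * t, mul_ne_zero ht' ht, by rw [sc, sc, sc, smul_smul]⟩

lemma Eqv.pt {Q Q' : Pt L} (h : Eqv Q Q') (g : G L) : Eqv (g.pt Q) (g.pt Q') := by
  obtain ⟨t, ht, rfl⟩ := h
  exact ⟨t, ht, g.pt_sc t Q⟩

lemma Eqv.map {Q Q' : Pt L} (h : Eqv Q Q') (φ : L →+* L') : Eqv (Q.map φ) (Q'.map φ) := by
  obtain ⟨t, ht, rfl⟩ := h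
  exact ⟨φ t, (map_ne_zero φ).2 ht, by funext i; simp⟩

lemma Eqv.of_map {Q Q' : Pt L} (hQ : Q.Prim) (φ : L →+* L') (h : Eqv (Q.map φ) (Q'.map φ)) :
    Eqv Q Q' := by
  obtain ⟨t, ht, e⟩ := h
  obtain ⟨i, hi⟩ : ∃ i, Q i ≠ 0 := Function.ne_iff.1 hQ
  have e' : ∀ j, φ (Q' j) = t * φ (Q j) := fun j => by simpa using congrFun e j
  have hi' : φ (Q i) ≠ 0 := (map_ne_zero φ).2 hi
  have hs : φ (Q' i / Q i) = t := by rw [map_div₀, e', mul_div_cancel_right₀ _ hi']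
  refine ⟨Q' i / Q i, fun h0 => ht (by rw [← hs, h0, map_zero]), ?_⟩
  funext j
  apply φ.injective
  rw [e', sc, Pi.smul_apply, smul_eq_mul, map_mul, hs]

lemma Eqv.prim {Q Q' : Pt L} (h : Eqv Q Q') (hQ : Q.Prim) : Q'.Prim := by
  obtain ⟨t, ht, rfl⟩ := h
  exact smul_ne_zero ht hQ

lemma eqv_sc (Q : Pt L) {t : L} (ht : t ≠ 0) : Eqv Q (Q.sc t) := ⟨t, ht, rfl⟩

lemma Prim.pt {Q : Pt L} (h : Q.Prim) (g : G L) : (g.pt Q).Prim := by
  intro h0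
  apply h
  have e : Q = g⁻¹.pt (g.pt Q) := (g.inv_pt_pt Q).symm
  rw [e, h0]
  simp [G.pt]

lemma prim_iff {Q : Pt L} : Q.Prim ↔ ∃ i, Q i ≠ 0 := by
  exact Function.ne_iff

lemma prim_map {Q : Pt L} (φ : L →+* L') : (Q.map φ).Prim ↔ Q.Prim := by
  simp only [prim_iff, Function.comp_apply, map_ne_zero]

lemma prim_std : (std : Pt L).Prim := by
  exact prim_iff.2 ⟨0, by simp⟩

lemma std_eqv_iff {Q : Pt L} (hQ : Q.Prim) : (std : Pt L).Eqv Q ↔ Q 1 = 0 ∧ Q 2 = 0 := by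
  constructor
  · rintro ⟨t, -, rfl⟩
    simp
  · rintro ⟨h1, h2⟩
    have h0 : Q 0 ≠ 0 := by
      intro h0
      apply hQ
      funext i
      fin_cases i
      · exact h0
      · exact h1
      · exact h2
    refine ⟨Q 0, h0, ?_⟩
    funext i
    fin_cases i
    · simp
    · simpa using h1
    · simpa using h2

end Pt

/-- an element fixing the standard point and its tangent line is lower triangular -/
lemma G.bor_of_pt {g : G L} {f : Model L} (hf : f.Std) (h3 : f.a3 ≠ 0)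
    (hg : (g.pt Pt.std).Eqv Pt.std) (h2 : (g • f).a2 = 0) : g.Bor := by
  have hp : (g.pt Pt.std).Prim := Pt.prim_std.pt g
  obtain ⟨h01, h02⟩ := (Pt.std_eqv_iff hp).1 hg.symm
  rw [G.pt_std] at h01 h02 hp
  have h0 : g.e 0 0 ≠ 0 := by
    intro h0
    apply hp
    funext i
    fin_cases i
    · exact h0
    · exact h01
    · exact h02
  have e := g.smul_a2 f
  rw [h2, mul_zero] at e
  simp only [Model.pol, Model.Fx, Model.Fy, Model.Fz, h01, h02, hf.a, hf.a2] at e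
  have e' : g.e 1 2 * (f.a3 * g.e 0 0 ^ 2) = 0 := by linear_combination -e
  exact ⟨h01, h02, (mul_eq_zero.1 e').resolve_right (mul_ne_zero h3 (pow_ne_zero 2 h0))⟩

lemma G.Bor.eqv_std {g : G L} (hg : g.Bor) : (g.pt Pt.std).Eqv Pt.std := by
  rw [hg.pt_std]
  exact (Pt.eqv_sc _ (hg.isUnit 0).ne_zero).symm

namespace Model

lemma on_pt (g : G L) (f : Model L) (Q : Pt L) : f.On (g.pt Q) ↔ (g • f).On Q := by
  constructor
  · rintro ⟨h1, h2⟩
    refine ⟨by simpa using h1.pt g⁻¹, ?_⟩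
    rw [G.F_pt] at h2
    exact (mul_eq_zero.1 h2).resolve_left g.μ.ne_zero
  · rintro ⟨h1, h2⟩
    exact ⟨h1.pt g, by rw [G.F_pt, h2, mul_zero]⟩

lemma On.eqv {f : Model L} {Q Q' : Pt L} (h : f.On Q) (e : Q.Eqv Q') : f.On Q' := by
  refine ⟨e.prim h.prim, ?_⟩
  obtain ⟨t, -, rfl⟩ := e
  rw [F_smul, h.eq, mul_zero]

lemma on_map (φ : L →+* L') (f : Model L) (Q : Pt L) : (f.map φ).On (Q.map φ) ↔ f.On Q := by
  constructor
  · rintro ⟨h1, h2⟩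
    rw [map_F] at h2
    exact ⟨(Pt.prim_map φ).1 h1, (map_eq_zero φ).1 h2⟩
  · rintro ⟨h1, h2⟩
    exact ⟨(Pt.prim_map φ).2 h1, by rw [map_F, h2, map_zero]⟩

lemma on_std {f : Model L} : f.On Pt.std ↔ f.a = 0 := by
  exact ⟨fun h => by simpa using h.eq, fun h => ⟨Pt.prim_std, by simpa using h⟩⟩

lemma smooth_iff {f : Model L} {Q : Pt L} : f.Smooth Q ↔ ∃ v, f.pol Q v ≠ 0 := by
  constructor
  · rintro (h | h | h)
    · exact ⟨![1, 0, 0], by simpa [pol] using h⟩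
    · exact ⟨![0, 1, 0], by simpa [pol] using h⟩
    · exact ⟨![0, 0, 1], by simpa [pol] using h⟩
  · rintro ⟨v, hv⟩
    by_contra h
    simp only [Smooth, not_or, not_not] at h
    exact hv (by rw [pol, h.1, h.2.1, h.2.2]; ring)

lemma smooth_std {f : Model L} (ha : f.a = 0) : f.Smooth Pt.std ↔ f.a2 ≠ 0 ∨ f.a3 ≠ 0 := by
  simp [Smooth, ha]

lemma smooth_pt (g : G L) (f : Model L) (Q : Pt L) : f.Smooth (g.pt Q) ↔ (g • f).Smooth Q := by
  simp only [smooth_iff]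
  constructor
  · rintro ⟨v, hv⟩
    refine ⟨g⁻¹.pt v, fun h => hv ?_⟩
    rw [← g.pt_inv_pt v, G.pol_pt, h, mul_zero]
  · rintro ⟨v, hv⟩
    exact ⟨g.pt v, by rw [G.pol_pt]; exact mul_ne_zero g.μ.ne_zero hv⟩

lemma Smooth.eqv {f : Model L} {Q Q' : Pt L} (h : f.Smooth Q) (e : Q.Eqv Q') : f.Smooth Q' := by
  obtain ⟨t, ht, rfl⟩ := e
  have h2 : t ^ 2 ≠ 0 := pow_ne_zero 2 ht
  rcases h with h | h | h
  · exact Or.inl (by rw [Fx_smul]; exact mul_ne_zero h2 h)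
  · exact Or.inr (Or.inl (by rw [Fy_smul]; exact mul_ne_zero h2 h))
  · exact Or.inr (Or.inr (by rw [Fz_smul]; exact mul_ne_zero h2 h))

lemma smooth_map (φ : L →+* L') (f : Model L) (Q : Pt L) :
    (f.map φ).Smooth (Q.map φ) ↔ f.Smooth Q := by
  simp only [Smooth, map_Fx, map_Fy, map_Fz, map_ne_zero]

lemma jac_Delta_smul {R : Type*} [CommRing R] (g : G R) (f : Model R) :
    (g • f).jac.Δ ≠ 0 ↔ f.jac.Δ ≠ 0 := by
  rw [G.jac_smul, variableChange_Δ, ne_eq, ((g.Gam f).u⁻¹.isUnit.pow 12).mul_right_eq_zero]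

lemma smooth_of_on {f : Model L} (hΔ : f.jac.Δ ≠ 0) {Q : Pt L} (hQ : f.On Q) : f.Smooth Q := by
  obtain ⟨i, hi⟩ := Pt.prim_iff.1 hQ.prim
  obtain ⟨g, rfl⟩ := exists_mover_pt (Q := Q) ⟨i, hi.isUnit⟩
  have ha := on_std.1 ((on_pt g f _).1 hQ)
  rw [smooth_pt, smooth_std ha]
  by_contra h
  simp only [not_or, not_not] at h
  exact (jac_Delta_smul g f).2 hΔ (jac_Delta_of_sing ha h.1 h.2)

lemma a3_ne {f : Model L} (hΔ : f.jac.Δ ≠ 0) (h : f.Std) : f.a3 ≠ 0 := by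
  exact fun h3 => hΔ (jac_Delta_of_sing h.a h.a2 h3)

lemma b1_or_b {f : Model L} (hΔ : f.jac.Δ ≠ 0) (h : f.Std) : f.b1 ≠ 0 ∨ f.b ≠ 0 := by
  by_contra h0
  simp only [not_or, not_not] at h0
  have := f.jac_Delta_mem_sq (I := ⊥) (Ideal.mem_bot.2 h.a) (Ideal.mem_bot.2 h.a2)
    (Ideal.mem_bot.2 h0.1) (Ideal.mem_bot.2 h0.2)
  exact hΔ (Ideal.mem_bot.1 (Ideal.pow_le_self two_ne_zero this))

lemma good_pt (g : G L) (f : Model L) (Q : Pt L) : f.Good (g.pt Q) ↔ (g • f).Good Q := by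
  constructor
  · rintro ⟨k, hk, h⟩
    refine ⟨k * g⁻¹, by rw [G.mul_pt, hk, G.inv_pt_pt], ?_⟩
    rwa [← mul_smul, inv_mul_cancel_right]
  · rintro ⟨k, hk, h⟩
    refine ⟨k * g, by rw [G.mul_pt, hk], ?_⟩
    rwa [mul_smul]

lemma Good.eqv {f : Model L} {Q Q' : Pt L} (h : f.Good Q) (e : Q.Eqv Q') : f.Good Q' := by
  obtain ⟨t, ht, rfl⟩ := e
  obtain ⟨k, hk, h⟩ := h
  refine ⟨k * G.scalar (Units.mk0 t ht), by rw [G.mul_pt, hk, G.scalar_pt, Units.val_mk0], ?_⟩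
  rwa [mul_smul, G.scalar_smul]

lemma Good.on {f : Model L} {Q : Pt L} (h : f.Good Q) : f.On Q := by
  obtain ⟨g, rfl, h, -⟩ := h
  exact (on_pt g f _).2 (on_std.2 h.a)

lemma Good.smooth {f : Model L} {Q : Pt L} (h : f.Good Q) : f.Smooth Q := by
  obtain ⟨g, rfl, h, h3, -⟩ := h
  exact (smooth_pt g f _).2 ((smooth_std h.a).2 (Or.inr h3))

lemma difa1_pt (g : G L) (f : Model L) (Q : Pt L) :
    (∃ v, f.pol (g.pt Q) v = 0 ∧ (f.pol v (g.pt Q) ≠ 0 ∨ f.F v ≠ 0)) ↔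
      ∃ v, (g • f).pol Q v = 0 ∧ ((g • f).pol v Q ≠ 0 ∨ (g • f).F v ≠ 0) := by
  have key : ∀ v, (f.pol (g.pt Q) (g.pt v) = 0 ∧
      (f.pol (g.pt v) (g.pt Q) ≠ 0 ∨ f.F (g.pt v) ≠ 0)) ↔
      ((g • f).pol Q v = 0 ∧ ((g • f).pol v Q ≠ 0 ∨ (g • f).F v ≠ 0)) := fun v => by
    simp only [G.pol_pt, G.F_pt, ne_eq, mul_eq_zero, g.μ.ne_zero, false_or]
  constructor
  · rintro ⟨v, hv⟩
    refine ⟨g⁻¹.pt v, (key _).1 ?_⟩
    rwa [G.pt_inv_pt]
  · rintro ⟨v, hv⟩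
    exact ⟨g.pt v, (key v).2 hv⟩

lemma difa1_std {f : Model L} (h : f.Std) (h3 : f.a3 ≠ 0) :
    (∃ v, f.pol Pt.std v = 0 ∧ (f.pol v Pt.std ≠ 0 ∨ f.F v ≠ 0)) ↔ f.b1 ≠ 0 ∨ f.b ≠ 0 := by
  constructor
  · rintro ⟨v, h1, h2⟩
    have hv : v 2 = 0 := by
      rw [pol, Fx_std, Fy_std, Fz_std, h.a, h.a2] at h1
      have e : v 2 * f.a3 = 0 := by linear_combination h1
      exact (mul_eq_zero.1 e).resolve_right h3
    by_contra h0
    simp only [not_or, not_not] at h0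
    rcases h2 with h2 | h2
    · exact h2 (by simp [pol, Fx, h.a, h.a2, h0.1, hv])
    · exact h2 (by simp [F, h.a, h.a2, h0.1, h0.2, hv])
  · intro hb
    refine ⟨![0, 1, 0], by simp [pol, h.a2], ?_⟩
    rcases hb with hb | hb
    · exact Or.inl (by simpa [pol, Fx] using hb)
    · exact Or.inr (by simpa [F] using hb)

lemma difa1_mover {f : Model L} {Q : Pt L} (hQ : f.On Q) (hs : f.Smooth Q) :
    ∃ g : G L, g.pt Pt.std = Q ∧ (g • f).Std ∧ (g • f).a3 ≠ 0 := by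
  obtain ⟨i, hi⟩ := Pt.prim_iff.1 hQ.prim
  obtain ⟨v, hv⟩ := smooth_iff.1 hs
  obtain ⟨g, e, h1, h2⟩ := exists_mover_ring ⟨i, hi.isUnit⟩ hQ.eq ⟨v, hv.isUnit⟩
  exact ⟨g, e, h1, h2.ne_zero⟩

lemma good_std {f : Model L} (h : f.Std) :
    f.Good Pt.std ↔ f.a3 ≠ 0 ∧ (f.b1 ≠ 0 ∨ f.b ≠ 0) := by
  constructor
  · intro hg
    have h3 : f.a3 ≠ 0 := ((smooth_std h.a).1 hg.smooth).resolve_left (not_not.2 h.a2)
    refine ⟨h3, (difa1_std h h3).1 ?_⟩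
    obtain ⟨g, e, hs, hs3, hb⟩ := hg
    rw [← e]
    exact (difa1_pt g f _).2 ((difa1_std hs hs3).2 hb)
  · rintro ⟨h3, hb⟩
    exact ⟨1, G.one_pt _, by rwa [one_smul], by rwa [one_smul], by rwa [one_smul]⟩

/-- the intrinsic description: smooth, and the cubic does not vanish on the tangent line -/
lemma good_iff {f : Model L} {Q : Pt L} : f.Good Q ↔ f.On Q ∧ f.Smooth Q ∧
    ∃ v, f.pol Q v = 0 ∧ (f.pol v Q ≠ 0 ∨ f.F v ≠ 0) := by
  constructor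
  · intro hg
    refine ⟨hg.on, hg.smooth, ?_⟩
    obtain ⟨g, rfl, hs, hs3, hb⟩ := hg
    exact (difa1_pt g f _).2 ((difa1_std hs hs3).2 hb)
  · rintro ⟨h1, h2, h3⟩
    obtain ⟨g, rfl, hs, hs3⟩ := difa1_mover h1 h2
    exact ⟨g, rfl, hs, hs3, (difa1_std hs hs3).1 ((difa1_pt g f _).1 h3)⟩

lemma good_map (φ : L →+* L') (f : Model L) (Q : Pt L) :
    (f.map φ).Good (Q.map φ) ↔ f.Good Q := by
  constructor
  · intro hg
    obtain ⟨g, rfl, hs, hs3⟩ :=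
      difa1_mover ((on_map φ f Q).1 hg.on) ((smooth_map φ f Q).1 hg.smooth)
    rw [← G.map_pt, Pt.map_std, good_pt, ← G.map_smul, good_std (hs.map φ)] at hg
    refine ⟨g, rfl, hs, hs3, ?_⟩
    simpa only [map_b1, map_b, map_ne_zero] using hg.2
  · rintro ⟨g, rfl, hs, hs3, hb⟩
    refine ⟨G.map φ g, by rw [← G.map_pt, Pt.map_std], ?_⟩
    rw [← G.map_smul]
    refine ⟨hs.map φ, ?_, ?_⟩
    · simpa only [map_a3, map_ne_zero] using hs3
    · simpa only [map_b1, map_b, map_ne_zero] using hb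

lemma good_of_on {f : Model L} (hΔ : f.jac.Δ ≠ 0) {Q : Pt L} (hQ : f.On Q) : f.Good Q := by
  obtain ⟨g, e, hs, hs3⟩ := difa1_mover hQ (smooth_of_on hΔ hQ)
  exact ⟨g, e, hs, hs3, b1_or_b ((jac_Delta_smul g f).2 hΔ) hs⟩

lemma soluble_smul (g : G L) (f : Model L) : (g • f).Soluble ↔ f.Soluble := by
  constructor
  · rintro ⟨Q, hQ⟩
    exact ⟨g.pt Q, (on_pt g f Q).2 hQ⟩
  · rintro ⟨Q, hQ⟩
    exact ⟨g⁻¹.pt Q, (on_pt g f _).1 (by rwa [G.pt_inv_pt])⟩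

lemma triv_smul (g : G L) (f : Model L) : (g • f).Triv ↔ f.Triv := by
  constructor
  · rintro ⟨k, hk⟩
    exact ⟨k * g, by rwa [mul_smul]⟩
  · rintro ⟨k, hk⟩
    exact ⟨k * g⁻¹, by rwa [← mul_smul, inv_mul_cancel_right]⟩

lemma Triv.map {f : Model L} (h : f.Triv) (φ : L →+* L') : (f.map φ).Triv := by
  obtain ⟨g, hs, hb⟩ := h
  refine ⟨G.map φ g, ?_⟩
  rw [← G.map_smul]
  exact ⟨hs.map φ, by rw [map_b1, hb, map_zero]⟩

@[simp] lemma phi_std (f : Model L) : f.phi Pt.std = SelAvg.Pt.std := by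
  simp [phi]

lemma phi_of_ne (f : Model L) {Q : Pt L} (h : ¬(Q 1 = 0 ∧ Q 2 = 0)) : f.phi Q = f.phi0 Q := by
  simp only [phi, if_neg h]

lemma phi_map (φ : L →+* L') (f : Model L) (Q : Pt L) :
    (f.map φ).phi (Q.map φ) = (f.phi Q).map φ := by
  by_cases h : Q 1 = 0 ∧ Q 2 = 0
  · have h' : (Q.map φ) 1 = 0 ∧ (Q.map φ) 2 = 0 := by simp [h.1, h.2]
    simp only [phi, if_pos h, if_pos h', SelAvg.Pt.map_std]
  · have h' : ¬((Q.map φ) 1 = 0 ∧ (Q.map φ) 2 = 0) := by simpa using h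
    rw [phi_of_ne _ h, phi_of_ne _ h', phi0_map]

lemma phi_eqv (f : Model L) {Q Q' : Pt L} (e : Q.Eqv Q') : (f.phi Q).Eqv (f.phi Q') := by
  obtain ⟨t, ht, rfl⟩ := e
  by_cases h : Q 1 = 0 ∧ Q 2 = 0
  · have h' : (Q.sc t) 1 = 0 ∧ (Q.sc t) 2 = 0 := by simp [h.1, h.2]
    simp only [phi, if_pos h, if_pos h']
    exact SelAvg.Pt.Eqv.refl _
  · have h' : ¬((Q.sc t) 1 = 0 ∧ (Q.sc t) 2 = 0) := by simpa [ht] using h
    rw [phi_of_ne _ h, phi_of_ne _ h', phi0_sc]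
    exact ⟨t, ht, rfl⟩

lemma on_phi {f : Model L} (h : f.Std) {Q : Pt L} (hQ : f.On Q) : f.red.On (f.phi Q) := by
  by_cases h0 : Q 1 = 0 ∧ Q 2 = 0
  · simp only [phi, if_pos h0]
    exact ⟨SelAvg.Pt.prim_std, by simp⟩
  · rw [phi_of_ne _ h0]
    exact ⟨not_and_or.1 h0, by rw [F_phi0 h, hQ.eq, mul_zero]⟩

/-- If `z ≠ 0` the third coordinate determines `x`.  If `z = 0`, `y ≠ 0` then `b1 x + b y = 0`,
so `b1 ≠ 0`, and the image is the conjugate of the standard point. -/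
lemma phi_injective {f : Model L} (h : f.Std) (h3 : f.a3 ≠ 0) (h1 : f.b1 ≠ 0 ∨ f.b ≠ 0)
    {Q Q' : Pt L} (hQ : f.On Q) (hQ' : f.On Q') (e : (f.phi Q).Eqv (f.phi Q')) : Q.Eqv Q' := by
  have key : ∀ {P P' : Pt L}, f.On P' → P 1 = 0 ∧ P 2 = 0 → (f.phi P).Eqv (f.phi P') →
      P' 1 = 0 ∧ P' 2 = 0 := by
    intro P P' hP' h0 e
    by_contra h0'
    rw [phi_of_ne _ h0', phi, if_pos h0] at e
    obtain ⟨t, ht, e⟩ := e
    have ex : P' 1 = t * 1 := congrArg SelAvg.Pt.x e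
    have ez : P' 2 = t * 0 := congrArg SelAvg.Pt.z e
    have ey : -(f.a3 * P' 0 * P' 2) - f.red.q (P' 1) (P' 2) = t ^ 2 * 0 :=
      congrArg SelAvg.Pt.y e
    have hF := hP'.eq
    simp only [SelAvg.Model.q, red_l, red_m, red_n, ex, ez] at ey
    simp only [F, h.a, h.a2, ex, ez] at hF
    have hb1 : f.b1 = 0 :=
      (mul_eq_zero.1 (show f.b1 * t ^ 2 = 0 by linear_combination -ey)).resolve_right
        (pow_ne_zero _ ht)
    have hb : f.b = 0 :=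
      (mul_eq_zero.1 (show f.b * t ^ 3 = 0 by
        linear_combination hF - P' 0 * t ^ 2 * hb1)).resolve_right (pow_ne_zero _ ht)
    exact h1.elim (fun h => h hb1) (fun h => h hb)
  by_cases h0 : Q 1 = 0 ∧ Q 2 = 0
  · exact ((Pt.std_eqv_iff hQ.prim).2 h0).symm.trans
      ((Pt.std_eqv_iff hQ'.prim).2 (key hQ' h0 e))
  have h0' : ¬(Q' 1 = 0 ∧ Q' 2 = 0) := fun h0' => h0 (key hQ h0' e.symm)
  rw [phi_of_ne _ h0, phi_of_ne _ h0'] at e
  obtain ⟨t, ht, e⟩ := e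
  have ex : Q' 1 = t * Q 1 := congrArg SelAvg.Pt.x e
  have ez : Q' 2 = t * Q 2 := congrArg SelAvg.Pt.z e
  have ey : -(f.a3 * Q' 0 * Q' 2) - f.red.q (Q' 1) (Q' 2) =
      t ^ 2 * (-(f.a3 * Q 0 * Q 2) - f.red.q (Q 1) (Q 2)) := congrArg SelAvg.Pt.y e
  simp only [SelAvg.Model.q, red_l, red_m, red_n, ex, ez] at ey
  have e0 : Q' 0 = t * Q 0 := by
    by_cases h2 : Q 2 = 0
    · have hy : Q 1 ≠ 0 := fun hy => h0 ⟨hy, h2⟩
      have hF := hQ.eq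
      have hF' := hQ'.eq
      simp only [F, h.a, h.a2, ex, ez, h2] at hF hF'
      have k : f.b * Q 1 + f.b1 * Q 0 = 0 :=
        (mul_eq_zero.1 (show (f.b * Q 1 + f.b1 * Q 0) * Q 1 ^ 2 = 0 by
          linear_combination hF)).resolve_right (pow_ne_zero _ hy)
      have k' : f.b * (t * Q 1) + f.b1 * Q' 0 = 0 :=
        (mul_eq_zero.1 (show (f.b * (t * Q 1) + f.b1 * Q' 0) * (t * Q 1) ^ 2 = 0 by
          linear_combination hF')).resolve_right (pow_ne_zero _ (mul_ne_zero ht hy))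
      have hb1 : f.b1 ≠ 0 := by
        intro hb1
        rcases h1 with h1 | h1
        · exact h1 hb1
        · exact mul_ne_zero h1 hy (by linear_combination k - Q 0 * hb1)
      exact mul_left_cancel₀ hb1 (by linear_combination k' - t * k)
    · exact mul_left_cancel₀ (mul_ne_zero (mul_ne_zero h3 ht) h2) (by linear_combination -ey)
  refine ⟨t, ht, ?_⟩
  funext i
  fin_cases i
  exacts [e0, ex, ez]

lemma phi_surjective {f : Model L} (h : f.Std) (h3 : f.a3 ≠ 0) {P : SelAvg.Pt L}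
    (hP : f.red.On P) : ∃ Q, f.On Q ∧ (f.phi Q).Eqv P := by
  obtain ⟨x, z, y⟩ := P
  have hF := hP.eq
  by_cases hz : z = 0
  · subst hz
    have hx : x ≠ 0 := hP.prim.resolve_right (fun h => h rfl)
    by_cases hy : y = 0
    · subst hy
      exact ⟨Pt.std, on_std.2 h.a, x, hx, by ext <;> simp⟩
    · simp only [SelAvg.Model.F, SelAvg.Model.q, SelAvg.Model.g, red_l, red_m, red_n, red_a,
        red_b, red_c, red_d, red_e] at hF
      have k : y + f.b1 * x ^ 2 = 0 :=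
        (mul_eq_zero.1 (show y * (y + f.b1 * x ^ 2) = 0 by
          linear_combination hF)).resolve_left hy
      have hb1 : f.b1 ≠ 0 := fun hb1 => hy (by linear_combination k - x ^ 2 * hb1)
      have hne : ¬((![-(f.b * x) / f.b1, x, 0] : Pt L) 1 = 0 ∧
          (![-(f.b * x) / f.b1, x, 0] : Pt L) 2 = 0) := fun h0 => hx h0.1
      refine ⟨![-(f.b * x) / f.b1, x, 0], ⟨Pt.prim_iff.2 ⟨1, hx⟩, ?_⟩, ?_⟩
      · simp only [F, h.a, h.a2, cons_val_zero, cons_val_one, cons_val_two, tail_cons, head_cons]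
        field_simp
        ring
      · rw [phi_of_ne _ hne]
        refine ⟨1, one_ne_zero, ?_⟩
        ext
        · simp [phi0]
        · simp [phi0]
        · simp only [phi0, SelAvg.Model.q, red_l, red_m, red_n, SelAvg.Pt.sc_y, cons_val_zero,
            cons_val_one, cons_val_two, tail_cons, head_cons]
          linear_combination k
  · have hne : ¬((![-(y + f.red.q x z) / (f.a3 * z), x, z] : Pt L) 1 = 0 ∧
        (![-(y + f.red.q x z) / (f.a3 * z), x, z] : Pt L) 2 = 0) := fun h0 => hz h0.2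
    have e : f.phi0 ![-(y + f.red.q x z) / (f.a3 * z), x, z] = ⟨x, z, y⟩ := by
      ext
      · rfl
      · rfl
      · simp only [phi0, cons_val_zero, cons_val_one, cons_val_two, tail_cons, head_cons]
        field_simp
        ring
    refine ⟨![-(y + f.red.q x z) / (f.a3 * z), x, z], ⟨Pt.prim_iff.2 ⟨2, hz⟩, ?_⟩, ?_⟩
    · have k := F_phi0 h ![-(y + f.red.q x z) / (f.a3 * z), x, z]
      rw [e, hF] at k
      exact (mul_eq_zero.1 k.symm).resolve_left (mul_ne_zero h3 hz)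
    · rw [phi_of_ne _ hne, e]
      exact SelAvg.Pt.Eqv.refl _

/-- a point on the tangent line other than the standard point goes to the conjugate point -/
lemma phi_tangent {f : Model L} {Q : Pt L} (h1 : Q 1 ≠ 0) (h2 : Q 2 = 0) :
    (f.red.inv SelAvg.Pt.std).Eqv (f.phi Q) := by
  rw [phi_of_ne _ (fun h0 => h1 h0.1)]
  refine ⟨Q 1, h1, ?_⟩
  ext
  · simp [phi0, SelAvg.Model.inv]
  · simp [phi0, SelAvg.Model.inv, h2]
  · simp [phi0, SelAvg.Model.inv, SelAvg.Model.q, h2, mul_comm]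

end Model

lemma G.Ind.phi {g : G L} (hg : g.Bor) {f : Model L} (hf : f.Std) {k : SelAvg.G L}
    (h : g.Ind f k) (Q : Pt L) : (k.pt ((g • f).phi Q)).Eqv (f.phi (g.pt Q)) := by
  have h11 := (hg.isUnit 1).ne_zero
  have h22 := (hg.isUnit 2).ne_zero
  have e1 : g.pt Q 1 = Q 1 * g.e 1 1 + Q 2 * g.e 2 1 := by
    rw [G.pt_apply, hg.e01, mul_zero, zero_add]
  have e2 : g.pt Q 2 = Q 2 * g.e 2 2 := by
    rw [G.pt_apply, hg.e02, hg.e12, mul_zero, mul_zero, zero_add, zero_add]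
  by_cases h0 : Q 1 = 0 ∧ Q 2 = 0
  · have h0' : g.pt Q 1 = 0 ∧ g.pt Q 2 = 0 := by simp [e1, e2, h0.1, h0.2]
    simp only [Model.phi, if_pos h0, if_pos h0', h.pt_std]
    exact SelAvg.Pt.Eqv.symm ⟨_, h11, rfl⟩
  · have h0' : ¬(g.pt Q 1 = 0 ∧ g.pt Q 2 = 0) := by
      rintro ⟨k1, k2⟩
      rw [e2] at k2
      have k2' : Q 2 = 0 := (mul_eq_zero.1 k2).resolve_right h22
      rw [e1, k2', zero_mul, add_zero] at k1
      exact h0 ⟨(mul_eq_zero.1 k1).resolve_right h11, k2'⟩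
    rw [Model.phi_of_ne _ h0, Model.phi_of_ne _ h0', h.pt hg hf]
    exact SelAvg.Pt.Eqv.refl _

lemma mover_spec {f : Model L} (hΔ : f.jac.Δ ≠ 0) {Q : Pt L} (hQ : f.On Q) :
    (mover f Q).pt Pt.std = Q ∧ (mover f Q • f).Std := by
  have hex : ∃ g : G L, g.pt Pt.std = Q ∧ (g • f).a2 = 0 := by
    obtain ⟨i, hi⟩ := Pt.prim_iff.1 hQ.prim
    obtain ⟨v, hv⟩ := Model.smooth_iff.1 (Model.smooth_of_on hΔ hQ)
    obtain ⟨g, hg, hs, -⟩ := exists_mover_ring ⟨i, hi.isUnit⟩ hQ.eq ⟨v, hv.isUnit⟩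
    exact ⟨g, hg, hs.a2⟩
  have hm : (mover f Q).pt Pt.std = Q ∧ (mover f Q • f).a2 = 0 := by
    rw [mover, dif_pos hex]
    exact hex.choose_spec
  refine ⟨hm.1, ?_, hm.2⟩
  have k := G.smul_a (mover f Q) f
  rw [← G.pt_std, hm.1, hQ.eq] at k
  exact (mul_eq_zero.1 k).resolve_left (mover f Q).μ.ne_zero

end SelAvg.FF.T3
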