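import Pool.Agent.H5T.Gt
import Pool.Agent.H5T.Wt3
import Pool.Agent.H5T.DifA

/-! The cusp bound for ternary cubics. -/

namespace SelAvg.FF.T3

open WeierstrassCurve WithZero Filter Topology Matrix
open scoped Classical ENNReal

variable {F : Type} [Field F] [Cv F]

theorem cusp : ∃ K : ℝ, 0 < K ∧ ∀ g : G (A F), 0 ≤ deg (cls g) →
    (((VB g).filter fun f => f.jac.Δ ≠ 0 ∧ ¬f.Triv).card : ℝ) ≤
      K * wt3 (RC.mk (K3 F) g.M) * qq F ^ (10 * deg (cls g) + 10 * cc F) := by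
  obtain ⟨K, hK, hC⟩ := card_cusp_le (F := F) (rb3 F)
  have hq0 : 0 < qq F := one_pos.trans one_lt_qq
  refine ⟨K, hK, fun g hg => ?_⟩
  obtain ⟨γ, B, C, Z, η₁, η₂, η₃, h1, h2, h2', hw⟩ := exists_wt3 (RC.mk (K3 F) g.M)
  have h3 : RC.mk (K3 F) (g * (gA F (G.ofM γ))⁻¹).M = RC.mk (K3 F) (tri3 B C Z η₁ η₂ η₃) := by
    rw [← h1, act3_mk, G.mul_M, G.inv_M]
    rfl
  obtain ⟨k, hk, E, h4⟩ := exists_gt' h3
  have h5 : deg (cls g) = deg (B + C + Z - E) := by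
    have h6 := congrArg (fun x => deg (cls x)) h4
    simpa only [cls_act, cls_K hk, cls_gt, map_add (deg (F := F)) _ (dv _),
      map_sub (deg (F := F)) _ (dv _), deg_dv, sub_zero, add_zero] using h6
  have h6 : ((VB g).filter fun f => f.jac.Δ ≠ 0 ∧ ¬f.Triv).card =
      ((VB (gt B C Z η₁ η₂ η₃ E)).filter fun f => f.jac.Δ ≠ 0 ∧ ¬f.Triv).card := by
    rw [← VB_K hk (gt B C Z η₁ η₂ η₃ E), ← h4, Finset.card_filter, Finset.card_filter, sum_VB_act]
    refine Finset.sum_congr rfl fun f _ => if_congr (and_congr ?_ ?_) rfl rfl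
    · rw [G.jac_smul, variableChange_Δ, mul_ne_zero_iff]
      exact (and_iff_right (pow_ne_zero _ (Units.ne_zero _))).symm
    · rw [Model.triv_smul]
  rw [h6, h5]
  rw [h5] at hg
  refine (hC B C Z η₁ η₂ η₃ E h2 h2' hg).trans ?_
  rw [mul_right_comm]
  exact mul_le_mul_of_nonneg_right (mul_le_mul_of_nonneg_left hw hK.le) (zpow_pos hq0 _).le

end SelAvg.FF.T3
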