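import Pool.Agent.H81Sel.DensB
import Pool.Agent.H5T.Loc

/-! Local densities for ternary cubics. -/

namespace SelAvg.FF.T3

open WeierstrassCurve WithZero Filter Topology
open scoped Classical

variable {F : Type} [Field F]

lemma densA_eval_gen {R S : Type*} [CommRing R] [CommRing S] (φ : R →+* S) (x : Fin 10 → S) :
    MvPolynomial.eval x (MvPolynomial.map φ
      (Model.equivVec.symm MvPolynomial.X : Model (MvPolynomial (Fin 10) R)).jac.Δ) =
      (Model.equivVec.symm x).jac.Δ := by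
  rw [← RingHom.comp_apply, ← map_Δ, ← Model.jac_map, Model.equivVec_symm_map]
  simp

lemma densA_jac_w {R : Type*} [CommRing R] (W : WeierstrassCurve R) :
    (⟨-1, 0, -W.a₆, 0, -W.a₂, 0, 1, -W.a₄, W.a₃, W.a₁⟩ : Model R).jac = W := by
  ext <;> simp [Model.jac]

lemma densA_gen_ne_zero (R : Type*) [CommRing R] [Nontrivial R] :
    (Model.equivVec.symm MvPolynomial.X : Model (MvPolynomial (Fin 10) R)).jac.Δ ≠ 0 := by
  intro h
  have key : ∀ W : WeierstrassCurve R, W.Δ = 0 := fun W => by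
    have h1 := densA_eval_gen (RingHom.id R)
      (Model.equivVec (⟨-1, 0, -W.a₆, 0, -W.a₂, 0, 1, -W.a₄, W.a₃, W.a₁⟩ : Model R))
    rw [h, map_zero, map_zero, Equiv.symm_apply_apply, densA_jac_w] at h1
    exact h1.symm
  have h1 := key ⟨0, 0, 1, -1, 0⟩
  have h2 := key ⟨0, -1, 1, 0, 0⟩
  simp only [Δ, b₂, b₄, b₆, b₈] at h1 h2
  exact one_ne_zero (α := R) (by linear_combination 3 * h1 + 10 * h2)

variable [Cv F]

theorem dens_Delta_tendsto (v : Place F) : Tendsto (fun j => dens Finset.univ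
    fun f : Model (Rv v (2 * (j + 1))) => f.jac.Δ = 0) atTop (𝓝 0) := by
  have h1 := (dens_zero_tendsto v (densA_gen_ne_zero v.loc.O)).comp
    (show Tendsto (fun j : ℕ => 2 * (j + 1)) atTop atTop from
      tendsto_atTop_mono (fun j => by change j ≤ 2 * (j + 1); omega) tendsto_id)
  refine h1.congr fun j => ?_
  have h2 := avg_equiv Model.equivVec.symm
    fun f : Model (Rv v (2 * (j + 1))) => ind (f.jac.Δ = 0)
  rw [← dens_eq_avg, ← dens_eq_avg] at h2
  rw [← h2]
  exact dens_congr fun x _ => by rw [densA_eval_gen]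

/-- `phiR_eq_phiL` -/
lemma phiR_thv_eq (v : Place F) (j : ℕ) {f : Model v.loc.O}
    (h : ¬v.loc.unif ^ (2 * (j + 1)) ∣ f.jac.Δ) :
    phiR (thv v j) (f.map (redv v (2 * (j + 1)))) = v.loc.phiL3 (resv v) f := by
  refine LocalField.phiR_eq_phiL (resv_isRed v) (redv_isRed v (2 * (j + 1))) (thv v j)
    (thv_comp v j) fun h0 => h ((redv_eq_zero_iff v _ _).1 h0)

lemma phiR_thv_le_one (v : Place F) (j : ℕ) {f : Model (Rv v (2 * (j + 1)))} (h : f.jac.Δ ≠ 0) :
    phiR (thv v j) f ≤ 1 := by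
  choose y hy using fun i => (redv_isRed v (2 * (j + 1))).surj (Model.equivVec f i)
  have e : (Model.equivVec.symm y).map (redv v (2 * (j + 1))) = f := by
    rw [Model.equivVec_symm_map, funext hy, Equiv.symm_apply_apply]
  subst e
  rw [Model.jac_map, map_Δ, Ne, redv_eq_zero_iff] at h
  rw [phiR_thv_eq v j h]
  refine LocalField.phiL_le_one (resv_isRed v) fun h0 => h ?_
  rw [h0]
  exact dvd_zero _

lemma phiR_thv_le (v : Place F) (j : ℕ) (f : Model (Rv v (2 * (j + 1)))) :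
    phiR (thv v j) f ≤ (qq F ^ dg v) ^ 2 + qq F ^ dg v + 1 := by
  have h := phiR_le (thv v j) f
  rwa [Nat.card_eq_fintype_card, card_kv_real] at h

/-- from the mass formula -/
theorem dens_V_sq_le (v : Place F) :
    dens Finset.univ (fun f : Model (Rv v (2 * (0 + 1))) => f.jac.Δ = 0) ≤
      5 / (qq F ^ dg v) ^ 2 := by
  have h1 := dens_W_sq_le v
  have h2 := mass (thv_isResidue v 0) (fun W => ind (¬W.Δ = 0)) fun C W => by
    rw [variableChange_Δ, ((C.u⁻¹).isUnit.pow 12).mul_right_eq_zero]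
  rw [← dens_eq_avg, dens_not Finset.univ_nonempty] at h2
  have h3 : avg Finset.univ (fun f : Model (Rv v (2 * (0 + 1))) =>
      phiR (thv v 0) f * ind (¬f.jac.Δ = 0)) ≤
      dens Finset.univ fun f : Model (Rv v (2 * (0 + 1))) => ¬f.jac.Δ = 0 := by
    rw [dens_eq_avg]
    refine avg_mono fun f _ => ?_
    by_cases hf : f.jac.Δ = 0
    · rw [ind_neg (not_not.2 hf), mul_zero]
    · rw [ind_pos hf, mul_one]
      exact phiR_thv_le_one v 0 hf
  rw [h2, dens_not ⟨Model.equivVec.symm 0, Finset.mem_univ _⟩] at h3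
  rw [card_kv_real] at h3
  have h4 : (1 : ℝ) ≤ qq F ^ dg v := one_le_pow₀ one_lt_qq.le
  have h5 : 1 / (qq F ^ dg v) ^ 3 ≤ 1 / (qq F ^ dg v) ^ 2 :=
    one_div_le_one_div_of_le (by positivity) (pow_le_pow_right₀ h4 (by norm_num))
  have h6 : 1 / (qq F ^ dg v) ^ 2 ≤ 1 := (div_le_one (by positivity)).2 (one_le_pow₀ h4)
  have h7 : 0 ≤ 1 / (qq F ^ dg v) ^ 3 := by positivity
  have h8 := dens_nonneg Finset.univ fun W : WeierstrassCurve (Rv v (2 * (0 + 1))) => W.Δ = 0
  rw [div_eq_mul_one_div] at h1 ⊢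
  generalize 1 / (qq F ^ dg v) ^ 2 = x at h1 h3 h5 h6 ⊢
  generalize 1 / (qq F ^ dg v) ^ 3 = y at h3 h5 h7
  generalize dens Finset.univ (fun W : WeierstrassCurve (Rv v (2 * (0 + 1))) => W.Δ = 0) = w
    at h1 h3 h8
  have h9 : (1 - x) * (1 - y) ≤ 1 := mul_le_one₀ (by linarith) (by linarith) (by linarith)
  nlinarith [mul_le_mul_of_nonneg_right h9 h8, mul_nonneg (h7.trans h5) h7]

/-- `mass` with `thv_isResidue`, `nonMin_smul`, `card_kv_real` -/
theorem avg_phiR (v : Place F) (j : ℕ) :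
    avg Finset.univ (fun f : Model (Rv v (2 * (j + 1))) =>
      ind (¬NonMin (redv v (2 * (j + 1)) v.loc.unif) f.jac) * phiR (thv v j) f) =
      (1 - 1 / (qq F ^ dg v) ^ 2) * (1 - 1 / (qq F ^ dg v) ^ 3) * nuLoc v j := by
  have h := mass (thv_isResidue v j) (fun W => ind (¬NonMin (redv v (2 * (j + 1)) v.loc.unif) W))
    fun C W => congrArg ind (propext (not_congr (nonMin_smul C W)))
  rw [card_kv_real, ← dens_eq_avg] at h
  rw [nuLoc, ← h]
  exact avg_congr fun f _ => mul_comm _ _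

end SelAvg.FF.T3
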