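import Pool.Agent.H5T.Iwa3

/-! The zeta value at three, the mass formula of Siegel in rank three, masses of strata. -/

namespace SelAvg.FF

open WeierstrassCurve WithZero Filter Topology Matrix
open scoped Classical ENNReal

variable {F : Type} [Field F] [Cv F]

/-- the term of the zeta series at `3` -/
noncomputable def zt3Term (Z : Div F) : ℝ := if 0 ≤ Z then qq F ^ (-3 * deg Z) else 0

lemma z3_nonneg (Z : Div F) : 0 ≤ zt3Term Z := by
  have hq0 : 0 < qq F := one_pos.trans one_lt_qq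
  unfold zt3Term
  split_ifs
  · positivity
  · exact le_rfl

lemma z3_zero : zt3Term (0 : Div F) = 1 := by
  rw [zt3Term, if_pos le_rfl, map_zero, mul_zero, zpow_zero]

lemma z3_add (v : Place F) {Z : Div F} (h : 0 ≤ Z) :
    zt3Term (Z + Finsupp.single v 1) = 1 / (qq F ^ dg v) ^ 3 * zt3Term Z := by
  have hq0 : 0 < qq F := one_pos.trans one_lt_qq
  rw [zt3Term, zt3Term, if_pos h, if_pos (add_nonneg h (Finsupp.single_nonneg.2 zero_le_one)),
    map_add, deg_single, one_mul, mul_add, zpow_add₀ hq0.ne', mul_comm, one_div, ← pow_mul,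
    ← zpow_natCast, ← _root_.zpow_neg]
  congr 2
  push_cast
  ring

theorem summable_zt3Term : Summable (zt3Term (F := F)) := by
  refine Summable.of_nonneg_of_le z3_nonneg (fun Z => ?_) summable_ztTerm
  unfold zt3Term ztTerm
  split_ifs with h
  · exact zpow_le_zpow_right₀ one_lt_qq.le (by have := deg_nonneg h; omega)
  · exact le_rfl

variable (F) in
/-- the value `ζ(3)` -/
noncomputable def zt3 : ℝ := ∑' Z : Div F, zt3Term Z

lemma one_le_zt3 : 1 ≤ zt3 F := by
  rw [← z3_zero (F := F)]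
  exact summable_zt3Term.le_tsum 0 fun Z _ => z3_nonneg Z

lemma tsum_ofReal_zt3Term :
    ∑' Z : Div F, ENNReal.ofReal (zt3Term Z) = ENNReal.ofReal (zt3 F) := by
  exact (ENNReal.ofReal_tsum_of_nonneg z3_nonneg summable_zt3Term).symm

/-- the product of the local factors -/
noncomputable def cS3 (S : Finset (Place F)) : ℝ := ∏ v ∈ S, (1 - 1 / (qq F ^ dg v) ^ 3)

lemma z3_loc_nonneg (v : Place F) : 0 ≤ 1 / (qq F ^ dg v) ^ 3 := by positivity

lemma z3_loc_le_one (v : Place F) : 1 / (qq F ^ dg v) ^ 3 ≤ 1 :=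
  div_le_one_of_le₀ (one_le_pow₀ (one_le_pow₀ (one_lt_qq (F := F)).le)) (by positivity)

lemma cS3_nonneg (S : Finset (Place F)) : 0 ≤ cS3 S := by
  exact Finset.prod_nonneg fun v _ => sub_nonneg.2 (z3_loc_le_one v)

lemma cS3_le_one (S : Finset (Place F)) : cS3 S ≤ 1 := by
  exact Finset.prod_le_one (fun v _ => sub_nonneg.2 (z3_loc_le_one v))
    fun v _ => sub_le_self _ (z3_loc_nonneg v)

/-- the terms of the divisors that are prime to `S` -/
noncomputable def z3G (S : Finset (Place F)) (Z : Div F) : ℝ :=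
  if ∀ v ∈ S, Z v = 0 then zt3Term Z else 0

lemma z3_G_nonneg (S : Finset (Place F)) (Z : Div F) : 0 ≤ z3G S Z := by
  unfold z3G
  split_ifs
  · exact z3_nonneg Z
  · exact le_rfl

lemma z3_G_le (S : Finset (Place F)) (Z : Div F) : z3G S Z ≤ zt3Term Z := by
  unfold z3G
  split_ifs
  · exact le_rfl
  · exact z3_nonneg Z

lemma z3_G_zero (S : Finset (Place F)) : z3G S 0 = 1 := by
  exact (if_pos fun v _ => rfl).trans z3_zero

lemma z3_G_summable (S : Finset (Place F)) : Summable (z3G S) :=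
  Summable.of_nonneg_of_le (z3_G_nonneg S) (z3_G_le S) summable_zt3Term

lemma z3_shift {S : Finset (Place F)} {v : Place F} (hv : v ∉ S) (Z : Div F) :
    (if (Z + Finsupp.single v 1 : Div F) v = 0 then 0 else z3G S (Z + Finsupp.single v 1)) =
      1 / (qq F ^ dg v) ^ 3 * z3G S Z := by
  have h1 : ∀ w, w ≠ v → (Z + Finsupp.single v 1 : Div F) w = Z w := fun w hw => by
    rw [Finsupp.add_apply, Finsupp.single_eq_of_ne hw, add_zero]
  have h2 : (Z + Finsupp.single v 1 : Div F) v = Z v + 1 := by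
    rw [Finsupp.add_apply, Finsupp.single_eq_same]
  have h3 : (∀ w ∈ S, (Z + Finsupp.single v 1 : Div F) w = 0) ↔ ∀ w ∈ S, Z w = 0 :=
    forall₂_congr fun w hw => by rw [h1 w fun e => hv (e ▸ hw)]
  by_cases h0 : 0 ≤ Z
  · have h4 : (0 : ℤ) ≤ Z v := h0 v
    rw [if_neg (by rw [h2]; omega), z3G, z3G, z3_add v h0, if_congr h3 rfl rfl, mul_ite,
      mul_zero]
  · have h4 : z3G S Z = 0 := le_antisymm ((z3_G_le S Z).trans (if_neg h0).le) (z3_G_nonneg S Z)
    rw [h4, mul_zero]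
    split_ifs with h5
    · rfl
    · refine le_antisymm ((z3_G_le S _).trans (if_neg fun h6 => h0 fun w => ?_).le)
        (z3_G_nonneg S _)
      have h7 : (0 : ℤ) ≤ (Z + Finsupp.single v 1 : Div F) w := h6 w
      change (0 : ℤ) ≤ Z w
      by_cases hw : w = v
      · subst hw
        rw [h2] at h5 h7
        omega
      · rwa [h1 w hw] at h7

lemma z3_insert {S : Finset (Place F)} {v : Place F} (hv : v ∉ S) :
    (1 - 1 / (qq F ^ dg v) ^ 3) * ∑' Z : Div F, z3G S Z = ∑' Z : Div F, z3G (insert v S) Z := by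
  have h1 : ∀ Z : Div F, z3G (insert v S) Z = z3G S Z - if Z v = 0 then 0 else z3G S Z := by
    intro Z
    by_cases h : Z v = 0
    · rw [if_pos h, sub_zero, z3G, z3G]
      exact if_congr (by rw [Finset.forall_mem_insert, and_iff_right h]) rfl rfl
    · rw [if_neg h, sub_self, z3G, if_neg fun h' => h (h' v (Finset.mem_insert_self _ _))]
  have h2 : Summable fun Z : Div F => if Z v = 0 then 0 else z3G S Z := by
    refine Summable.of_nonneg_of_le (fun Z => ?_) (fun Z => ?_) (z3_G_summable S) <;> split_ifs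
    exacts [le_rfl, z3_G_nonneg S Z, z3_G_nonneg S Z, le_rfl]
  rw [tsum_congr h1, (z3_G_summable S).tsum_sub h2,
    ← (Equiv.addRight (Finsupp.single v 1 : Div F)).tsum_eq
      fun Z : Div F => if Z v = 0 then 0 else z3G S Z]
  rw [sub_mul, one_mul, ← tsum_mul_left]
  exact congrArg _ (tsum_congr fun Z => (z3_shift hv Z).symm)

/-- remove the divisors that contain `v` -/
theorem cS3_mul_zt3 (S : Finset (Place F)) :
    cS3 S * zt3 F = ∑' Z : Div F, if ∀ v ∈ S, Z v = 0 then zt3Term Z else 0 := by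
  change cS3 S * zt3 F = ∑' Z : Div F, z3G S Z
  induction S using Finset.induction_on with
  | empty =>
    simp only [cS3, Finset.prod_empty, one_mul, zt3, z3G, Finset.notMem_empty, false_imp_iff,
      implies_true, if_true]
  | insert v S hv ih =>
    rw [cS3, Finset.prod_insert hv, mul_assoc, ← cS3, ih, z3_insert hv]

theorem one_le_cS3_mul_zt3 (S : Finset (Place F)) : 1 ≤ cS3 S * zt3 F := by
  rw [cS3_mul_zt3]
  have h := (z3_G_summable S).le_tsum 0 fun Z _ => z3_G_nonneg S Z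
  rwa [z3_G_zero] at h

theorem tendsto_cS3_mul_zt3 : Tendsto (fun N => cS3 (plLE F N) * zt3 F) atTop (𝓝 1) := by
  have h := tendsto_tsum_of_dominated_convergence (𝓕 := atTop)
    (f := fun (N : ℕ) (Z : Div F) => z3G (plLE F N) Z) (g := fun Z => if Z = 0 then (1 : ℝ) else 0)
    summable_zt3Term (fun Z => ?_) (Eventually.of_forall fun N Z => ?_)
  · rw [tsum_ite_eq] at h
    exact h.congr fun N => (cS3_mul_zt3 _).symm
  · by_cases hZ : Z = 0
    · subst hZ
      simp only [z3_G_zero, if_true]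
      exact tendsto_const_nhds
    · rw [if_neg hZ]
      obtain ⟨v, hv⟩ := Finsupp.ne_iff.1 hZ
      refine tendsto_const_nhds.congr' ((eventually_ge_atTop (dg v)).mono fun N hN => ?_)
      exact (if_neg fun h => hv (h v (mem_plLE.2 hN))).symm
  · rw [Real.norm_of_nonneg (z3_G_nonneg _ _)]
    exact z3_G_le _ _

omit [Cv F] in
lemma s3_orbit (z : Fin 3 → F) :
    (∃ g : GL (Fin 3) F, g • (![0, 0, 1] : Fin 3 → F) = z) ↔ z ≠ 0 := by
  constructor
  · rintro ⟨g, rfl⟩ h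
    simpa using congrFun ((smul_eq_zero_iff_eq g).1 h) 2
  · intro hz
    obtain ⟨γ, hγ⟩ := iwa3_vec hz
    exact ⟨γ⁻¹, inv_smul_eq_iff.2 hγ.symm⟩

omit [Cv F] in
lemma s3_stab {g : GL (Fin 3) F} :
    g ∈ MulAction.stabilizer (GL (Fin 3) F) (![0, 0, 1] : Fin 3 → F) ↔ ∃ γ y, g = blk γ 1 y := by
  rw [MulAction.mem_stabilizer_iff]
  constructor
  · intro h
    have h1 : ∀ i, g.1 i 2 = (![0, 0, 1] : Fin 3 → F) i := fun i => by
      rw [← congrFun h i]
      simp [Units.smul_def, mulVec, dotProduct, Fin.sum_univ_three]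
    obtain ⟨γ, z, y, rfl⟩ := exists_eq_blk (h1 0) (h1 1)
    obtain rfl : z = 1 := Units.ext (h1 2)
    exact ⟨γ, y, rfl⟩
  · rintro ⟨γ, y, rfl⟩
    funext i
    fin_cases i <;> simp [Units.smul_def, blk_val, mulVec, dotProduct, Fin.sum_univ_three]

/-- the unipotent radical -/
noncomputable def U3 (F : Type) [Field F] : Multiplicative (Fin 2 → F) →* GL (Fin 3) F :=
  MonoidHom.mk' (fun y => blk 1 1 (-y.toAdd)) fun y y' => by
    rw [blk_mul, mul_one, mul_one, inv_one, Units.val_one, Units.val_one, one_smul, vecMul_one,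
      toAdd_mul, neg_add_rev]

omit [Cv F] in
lemma U3_apply (y : Multiplicative (Fin 2 → F)) : U3 F y = blk 1 1 (-y.toAdd) := rfl

omit [Cv F] in
lemma s3_inj : Function.Injective fun p : (GL (Fin 2) F × Fˣ) × Multiplicative (Fin 2 → F) =>
    U3 F p.2 * blk p.1.1 p.1.2 0 := by
  rintro ⟨⟨γ, u⟩, y⟩ ⟨⟨γ', u'⟩, y'⟩ h
  have h1 := h
  simp only [U3_apply, blk_mul, one_mul] at h1
  obtain ⟨rfl, rfl, -⟩ := blk_inj h1
  obtain rfl : y = y' := neg_injective (G := Fin 2 → F) (blk_inj (mul_right_cancel h)).2.2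
  rfl

lemma s3_act (g : GL (Fin 2) (A F)) (z : (A F)ˣ) (η : Fin 2 → A F) (y : Fin 2 → F) :
    act3 F (U3 F (Multiplicative.ofAdd y)) (RC.mk (K3 F) (blk g z η)) =
      RC.mk (K3 F) (blk g z (η + dlg y)) := by
  rw [act3_mk, mul_inv_eq_iff_eq_mul.2]
  rw [U3_apply, map_blk, map_one, map_one, blk_mul, mul_one, mul_one, inv_one, Units.val_one,
    Units.val_one, one_smul, vecMul_one]
  congr 1
  funext i
  simp [dlg]

lemma exists_bruU3 : ∃ σ, IsBru ((act3 F).comp (U3 F)) σ :=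
  exists_bru _ fun x => (finite_stab3 x).preimage (f := U3 F)
    fun _ _ _ _ h => neg_injective (G := Fin 2 → F) (blk_inj h).2.2

variable {σ : X3 F → ℝ≥0∞}

/-- the mass of the extensions -/
lemma s3_fibre (hσ : IsBru ((act3 F).comp (U3 F)) σ) (y : X2 F) (Z : Div F) :
    ∑' x, (if quo3 x = y ∧ sub3 x = Z then σ x else 0) =
      ENNReal.ofReal (qq F ^ (-(2 * deg Z - deg2 y + 2 * cc F))) := by
  obtain ⟨g, rfl⟩ := y.mk_surj
  obtain ⟨h, hh⟩ : ∃ h : GL (Fin 2) (A F), h.1 = (g⁻¹).1ᵀ :=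
    ⟨⟨(g⁻¹).1ᵀ, g.1ᵀ, by rw [← transpose_mul, Units.mul_inv, transpose_one],
      by rw [← transpose_mul, Units.inv_mul, transpose_one]⟩, rfl⟩
  have hd : GeneralLinearGroup.det (G.scM (piD Z) * h) =
      piD Z ^ 2 * (GeneralLinearGroup.det g)⁻¹ := by
    rw [map_mul, ← map_inv, G.scM, GeneralLinearGroup.det_scalar, Fintype.card_fin]
    congr 1
    exact Units.ext (by
      rw [GeneralLinearGroup.val_det_apply, GeneralLinearGroup.val_det_apply, hh, det_transpose])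
  have h1 := mass_lattice (mvL (G.scM (piD Z) * h)) (NN_pos _) (NN_spec _)
    (fun η => RC.mk (K3 F) (blk g (piD Z) η)) (fun a a' => by
      simp only [blk_eq_iff, true_and, iw56_scM, mvL_apply h, hh, mulVec_transpose]) σ fun a => by
      rw [← hσ (RC.mk (K3 F) (blk g (piD Z) a))]
      exact tsum_congr fun y => congrArg σ (s3_act g _ a y).symm
  rw [NN_mvL, hd, idiv_mul, idiv_pow, idiv_inv, idiv_piD, map_add, map_neg, map_nsmul,
    ← _root_.zpow_neg] at h1
  rw [deg2, det2_mk]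
  convert h1 using 4 with x
  · refine ⟨?_, ?_⟩
    · rintro ⟨h2, rfl⟩
      exact (iwa3_fibre h2).imp fun _ => Eq.symm
    · rintro ⟨η, rfl⟩
      rw [quo3_mk, sub3_mk, idiv_piD]
      exact ⟨rfl, rfl⟩
  · rw [nsmul_eq_mul]
    push_cast
    ring

/-- integration over the fibres -/
lemma s3_int (hσ : IsBru ((act3 F).comp (U3 F)) σ) (Φ : X2 F → Div F → ℝ≥0∞) :
    ∑' x, Φ (quo3 x) (sub3 x) * σ x =
      ∑' Z, ∑' y, Φ y Z * ENNReal.ofReal (qq F ^ (-(2 * deg Z - deg2 y + 2 * cc F))) := by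
  have h : ∀ x, Φ (quo3 x) (sub3 x) * σ x =
      ∑' Z, ∑' y, Φ y Z * if quo3 x = y ∧ sub3 x = Z then σ x else 0 := fun x => by
    rw [tsum_eq_single (sub3 x), tsum_eq_single (quo3 x), if_pos ⟨rfl, rfl⟩]
    · exact fun y h => by rw [if_neg fun h' => h h'.1.symm, mul_zero]
    · exact fun Z h => ENNReal.tsum_eq_zero.2 fun y => by
        rw [if_neg fun h' => h h'.2.symm, mul_zero]
  rw [tsum_congr h, ENNReal.tsum_comm]
  refine tsum_congr fun Z => ENNReal.tsum_comm.trans (tsum_congr fun y => ?_)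
  rw [ENNReal.tsum_mul_left, s3_fibre hσ]

lemma s3_inner (hσ : IsBru ((act3 F).comp (U3 F)) σ) (Φ : X2 F → Div F → ℝ≥0∞) (x : X3 F) :
    ∑' y, Φ (quo3 (act3 F (U3 F y) x)) (sub3 (act3 F (U3 F y) x)) * σ (act3 F (U3 F y) x) =
      Φ (quo3 x) (sub3 x) := by
  have h : ∀ y, quo3 (act3 F (U3 F y) x) = quo3 x ∧ sub3 (act3 F (U3 F y) x) = sub3 x := fun y => by
    rw [U3_apply, quo3_act, sub3_act, map_one, Units.val_one, dv_one, sub_zero]
    exact ⟨rfl, rfl⟩
  simp only [h]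
  rw [ENNReal.tsum_mul_left]
  exact (congrArg _ (hσ x)).trans (mul_one _)

lemma s3_bru {β : X2 F → ℝ≥0∞} (hβ : IsBru (act2 F) β) (hσ : IsBru ((act3 F).comp (U3 F)) σ) :
    IsBru ((act3 F).comp (MulAction.stabilizer (GL (Fin 3) F) (![0, 0, 1] : Fin 3 → F)).subtype)
      fun x => β (quo3 x) * σ x := by
  intro x
  have e : ∀ p : GL (Fin 2) F × Multiplicative (Fin 2 → F), U3 F p.2 * blk p.1 1 0 ∈
      MulAction.stabilizer (GL (Fin 3) F) (![0, 0, 1] : Fin 3 → F) := fun p =>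
    mul_mem (s3_stab.2 ⟨_, _, rfl⟩) (s3_stab.2 ⟨_, _, rfl⟩)
  rw [← (Equiv.ofBijective (fun p => (⟨_, e p⟩ : MulAction.stabilizer (GL (Fin 3) F)
    (![0, 0, 1] : Fin 3 → F))) ⟨fun p p' h => ?_, fun g => ?_⟩).tsum_eq, ENNReal.tsum_prod',
    ← hβ (quo3 x)]
  · refine tsum_congr fun γ => ?_
    have h := s3_inner hσ (fun y _ => β y) (act3 F (blk γ 1 0) x)
    rw [quo3_act] at h
    rw [← h]
    refine tsum_congr fun y => ?_
    rw [← Equiv.Perm.mul_apply, ← map_mul]
    rfl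
  · have h1 := @s3_inj F _ ((p.1, 1), p.2) ((p'.1, 1), p'.2) (congrArg Subtype.val h)
    exact Prod.ext (congrArg (fun q => q.1.1) h1) (congrArg (fun q => q.2) h1)
  · obtain ⟨γ, y, h⟩ := s3_stab.1 g.2
    refine ⟨(γ, Multiplicative.ofAdd (-(y ᵥ* (γ⁻¹).1))), Subtype.ext (Eq.trans ?_ h.symm)⟩
    change U3 F _ * _ = _
    rw [U3_apply, blk_mul, one_mul, one_mul, inv_one, Units.val_one, one_smul, zero_add,
      toAdd_ofAdd, neg_neg, vecMul_vecMul, Units.inv_mul, vecMul_one]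

theorem siegel3_pairs {ρ : X3 F → ℝ≥0∞} (hρ : IsBru (act3 F) ρ) {k : ℤ} (hk : (dl F : ℤ) ∣ k) :
    ∑' x, ρ x * (if deg3 x = k then (((H03 x).card - 1 : ℕ) : ℝ≥0∞) else 0) =
      kap F * ENNReal.ofReal (qq F ^ (k - 5 * cc F) * (zt F * zt3 F)) := by
  have hq : 0 < qq F := zero_lt_one.trans one_lt_qq
  obtain ⟨β, hβ⟩ := exists_bru (act2 F) finite_stab2
  obtain ⟨σ, hσ⟩ := exists_bruU3 (F := F)
  have key := unfold_eq (MulAction.toPermHom (GL (Fin 3) F) (Fin 3 → F)) (Subgroup.subtype _)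
    Subtype.val_injective hρ (s3_bru hβ hσ) ![0, 0, 1]
    (fun g => ⟨fun h => ⟨⟨g, h⟩, rfl⟩, fun ⟨t, h⟩ => h ▸ t.2⟩)
    (fun z x => if deg3 x = k ∧ z ∈ H03 x then 1 else 0)
    fun g z x => if_congr (and_congr (by rw [deg3_act]) (mem_H03_act g x z)) rfl rfl
  refine (tsum_congr fun x => ?_).trans (key.trans ?_)
  · congr 1
    by_cases hx : deg3 x = k
    · rw [if_pos hx, tsum_eq_sum (s := (H03 x).erase 0), ← Finset.card_erase_of_mem
        (show 0 ∈ H03 x from zero_mem_hbox _), Finset.card_eq_sum_ones, Nat.cast_sum]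
      · refine Finset.sum_congr rfl fun z hz => ?_
        obtain ⟨h1, h2⟩ := Finset.mem_erase.1 hz
        rw [if_pos (show deg3 x = k ∧ z ∈ H03 x from ⟨hx, h2⟩), Nat.cast_one]
        exact (if_pos ((s3_orbit z).2 h1)).symm
      · intro z hz
        split_ifs with h1 h2
        · exact absurd (Finset.mem_erase.2 ⟨(s3_orbit z).1 h1, h2.2⟩) hz
        · rfl
        · rfl
    · simp [hx]
  · have h1 := s3_int hσ fun y Z => β y * if deg2 y + deg Z = k ∧ 0 ≤ Z then 1 else 0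
    refine Eq.trans (tsum_congr fun x => ?_) (h1.trans ?_)
    · rw [mul_right_comm]
      simp only [deg3_eq, mem_H03_sub]
    · have hz : 0 ≤ zt F := zero_le_one.trans one_le_zt
      rw [← mul_assoc, ENNReal.ofReal_mul (by positivity), ← tsum_ofReal_zt3Term, ← mul_assoc,
        ← ENNReal.tsum_mul_left]
      refine tsum_congr fun Z => ?_
      by_cases h0 : 0 ≤ Z
      · have h2 : ∀ y, (β y * if deg2 y + deg Z = k ∧ 0 ≤ Z then 1 else 0) *
            ENNReal.ofReal (qq F ^ (-(2 * deg Z - deg2 y + 2 * cc F))) =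
            (if deg2 y = k - deg Z then β y else 0) *
              ENNReal.ofReal (qq F ^ (k - 2 * cc F) * qq F ^ (-3 * deg Z)) := fun y => by
          by_cases h3 : deg2 y = k - deg Z
          · rw [if_pos ⟨by rw [h3, sub_add_cancel], h0⟩, if_pos h3, mul_one, h3,
              ← zpow_add₀ hq.ne']
            congr 3
            ring
          · rw [if_neg fun h => h3 (eq_sub_of_add_eq h.1), if_neg h3, mul_zero, zero_mul, zero_mul]
        rw [tsum_congr h2, ENNReal.tsum_mul_right, siegel hβ (hk.sub (dl_dvd Z)), zt3Term,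
          if_pos h0, mul_assoc, mul_assoc, ← ENNReal.ofReal_mul (by positivity),
          ← ENNReal.ofReal_mul (by positivity), show k - 5 * cc F = -3 * cc F + (k - 2 * cc F) by
            ring, zpow_add₀ hq.ne']
        congr 2
        ring
      · simp [zt3Term, h0]

lemma s3_twist {ρ : X3 F → ℝ≥0∞} (hρ : IsBru (act3 F) ρ) {k : ℤ} (hk : (dl F : ℤ) ∣ k) (m : ℕ) :
    ∑' x : {x : X3 F | deg3 x = k},
      ρ x * (((hbox (tw1 (mvL3 (x : X3 F).out) m)).card - 1 : ℕ) : ℝ≥0∞) =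
      kap F * ENNReal.ofReal (qq F ^ (k + 3 * (m * pp F) - 5 * cc F) * (zt F * zt3 F)) := by
  have hd : deg (m • PP F) = m * pp F := by rw [map_nsmul, deg_PP, nsmul_eq_mul]
  have h1 := hρ.comp_perm (tw3 (m • PP F)).symm fun g x => by
    rw [Equiv.symm_apply_eq]
    change _ = tw3 _ (RC.act (K3 F) (glA3 F g) _)
    rw [tw3_act, Equiv.apply_symm_apply]
    rfl
  rw [← siegel3_pairs h1 (hk.add (Dvd.dvd.mul_left (hd ▸ dl_dvd (m • PP F)) 3)),
    ← (tw3 (m • PP F)).tsum_eq, tsum_subtype {x : X3 F | deg3 x = k}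
      fun x => ρ x * (((hbox (tw1 (mvL3 x.out) m)).card - 1 : ℕ) : ℝ≥0∞)]
  refine tsum_congr fun x => ?_
  have h2 := H03_tw3 x.out m
  rw [RC.mk_out] at h2
  rw [Equiv.symm_apply_apply, deg3_tw3, hd, h2, Set.indicator_apply]
  by_cases hx : deg3 x = k
  · rw [if_pos (show x ∈ {x : X3 F | deg3 x = k} from hx), if_pos (by rw [hx])]
  · rw [if_neg (show x ∉ {x : X3 F | deg3 x = k} from hx), if_neg (by simpa using hx), mul_zero]

theorem siegel3 {ρ : X3 F → ℝ≥0∞} (hρ : IsBru (act3 F) ρ) {k : ℤ} (hk : (dl F : ℤ) ∣ k) :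
    ∑' x, (if deg3 x = k then ρ x else 0) =
      kap F * ENNReal.ofReal (qq F ^ (-8 * cc F) * (zt F * zt3 F)) := by
  have hq : 0 < qq F := zero_lt_one.trans one_lt_qq
  obtain ⟨N, hN⟩ : ∃ N, N = qq F ^ (k + 3 * cc F) := ⟨_, rfl⟩
  obtain ⟨Y, hY⟩ : ∃ Y, Y = qq F ^ (3 * pp F) := ⟨_, rfl⟩
  have hN0 : 0 < N := hN ▸ zpow_pos hq _
  have hY1 : 1 < Y := hY ▸ one_lt_pow₀ one_lt_qq (by have := dg_pos (Cv.P : Place F); positivity)
  have hY0 : 0 < Y := zero_lt_one.trans hY1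
  have key := tsum_eq_of_antitone (fun x : {x : X3 F | deg3 x = k} => ρ x)
    (fun m x => ((hbox (tw1 (mvL3 (x : X3 F).out) m)).card : ℝ≥0∞) * ENNReal.ofReal (N * Y ^ m)⁻¹)
    ?_ ?_ (fun m x => (((hbox (tw1 (mvL3 (x : X3 F).out) m)).card - 1 : ℕ) : ℝ≥0∞) *
      ENNReal.ofReal (N * Y ^ m)⁻¹) (fun m => ENNReal.ofReal (N * Y ^ m)⁻¹) ?_ ?_
    (M := kap F * ENNReal.ofReal (qq F ^ (-8 * cc F) * (zt F * zt3 F)))
    (ENNReal.mul_ne_top kap_ne_top ENNReal.ofReal_ne_top) ?_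
  · rw [← key, tsum_subtype {x : X3 F | deg3 x = k} ρ]
    exact tsum_congr fun x => by rw [Set.indicator_apply]; rfl
  · intro m x
    have h1 : ((hbox (tw1 (mvL3 (x : X3 F).out) (m + 1))).card : ℝ) ≤
        Y * (hbox (tw1 (mvL3 (x : X3 F).out) m)).card := by
      rw [hY]
      exact_mod_cast card_tw1_le (mvL3 (x : X3 F).out) m
    rw [← ENNReal.ofReal_natCast, ← ENNReal.ofReal_natCast,
      ← ENNReal.ofReal_mul (Nat.cast_nonneg _), ← ENNReal.ofReal_mul (Nat.cast_nonneg _)]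
    refine ENNReal.ofReal_le_ofReal
      ((mul_le_mul_of_nonneg_right h1 (by positivity)).trans (le_of_eq ?_))
    rw [pow_succ]
    field_simp
  · intro x
    filter_upwards [NN_spec (mvL3 (x : X3 F).out)] with m hm
    have hx : deg (idiv (GeneralLinearGroup.det (x : X3 F).out)) = k := x.2
    rw [NN_mvL3, hx, ← hN, mul_right_comm, pow_mul, ← hY] at hm
    rw [← ENNReal.ofReal_natCast, ← ENNReal.ofReal_mul (Nat.cast_nonneg _), hm,
      mul_inv_cancel₀ (by positivity), ENNReal.ofReal_one]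
  · rw [← ENNReal.ofReal_zero]
    exact ENNReal.tendsto_ofReal (tendsto_inv_atTop_zero.comp
      ((tendsto_pow_atTop_atTop_of_one_lt hY1).const_mul_atTop hN0))
  · intro m x
    have h1 : 1 ≤ (hbox (tw1 (mvL3 (x : X3 F).out) m)).card :=
      Finset.card_pos.2 ⟨0, zero_mem_hbox _⟩
    rw [← add_one_mul, ← Nat.cast_succ, Nat.succ_eq_add_one, Nat.sub_add_cancel h1]
  · intro m
    simp only [← mul_assoc]
    rw [ENNReal.tsum_mul_right, s3_twist hρ hk m, mul_assoc, ← ENNReal.ofReal_mul' (by positivity),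
      mul_right_comm _ (zt F * zt3 F), mul_assoc _ (zt F), hN, hY, ← pow_mul, ← zpow_natCast, ← zpow_add₀ hq.ne', ← _root_.zpow_neg,
      ← zpow_add₀ hq.ne']
    congr 4
    push_cast
    ring

/-- the three degrees that represent all classes modulo twists -/
def par3 (x : X3 F) : Prop := deg3 x = 0 ∨ deg3 x = dl F ∨ deg3 x = 2 * dl F

lemma par3_act (γ : GL (Fin 3) F) (x : X3 F) : par3 (act3 F γ x) ↔ par3 x := by
  simp only [par3, deg3_act]

theorem siegel_par3 {ρ : X3 F → ℝ≥0∞} (hρ : IsBru (act3 F) ρ) :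
    ∑' x, (if par3 x then ρ x else 0) =
      ENNReal.ofReal (3 * kapR F * (qq F ^ (-8 * cc F) * (zt F * zt3 F))) := by
  have h0 : (0 : ℤ) < dl F := Nat.cast_pos.2 dl_pos
  have h1 : ∀ x, (if par3 x then ρ x else 0) = (if deg3 x = 0 then ρ x else 0) +
      (if deg3 x = dl F then ρ x else 0) + if deg3 x = 2 * dl F then ρ x else 0 := by
    intro x
    by_cases h : par3 x
    · rw [if_pos h]
      rcases h with h | h | h
      · rw [if_pos h, if_neg (by omega), if_neg (by omega), add_zero, add_zero]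
      · rw [if_neg (by omega), if_pos h, if_neg (by omega), add_zero, zero_add]
      · rw [if_neg (by omega), if_neg (by omega), if_pos h, add_zero, zero_add]
    · rw [if_neg h, if_neg fun h' => h (Or.inl h'), if_neg fun h' => h (Or.inr (Or.inl h')),
        if_neg fun h' => h (Or.inr (Or.inr h')), add_zero, add_zero]
  have h2 := (kapR_pos (F := F)).le
  simp only [h1]
  rw [ENNReal.tsum_add, ENNReal.tsum_add, siegel3 hρ (dvd_zero _), siegel3 hρ dvd_rfl,
    siegel3 hρ (dvd_mul_left _ _), ← ofReal_kapR, ← ENNReal.ofReal_mul h2, mul_assoc,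
    ENNReal.ofReal_mul (p := 3) (by norm_num), ENNReal.ofReal_ofNat]
  ring

/-- for every `x` exactly one degree of a twist is allowed -/
theorem exists_par3 (x : X3 F) :
    ∃ j : ℤ, (dl F : ℤ) ∣ j ∧ ∀ E : Div F, par3 (tw3 E x) ↔ deg E = j := by
  have h0 : (dl F : ℤ) ≠ 0 := Nat.cast_ne_zero.2 dl_pos.ne'
  obtain ⟨a, ha⟩ : (dl F : ℤ) ∣ deg3 x := dl_dvd _
  refine ⟨dl F * -(a / 3), dvd_mul_right _ _, fun E => ?_⟩
  obtain ⟨e, he⟩ := dl_dvd E
  have h1 : deg3 (tw3 E x) = dl F * (a + 3 * e) := by rw [deg3_tw3, ha, he]; ring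
  rw [par3, h1, he, mul_right_inj' h0, mul_eq_zero, or_iff_right h0, mul_eq_left₀ h0,
    mul_comm 2, mul_right_inj' h0]
  omega

/-- the bundles with a flag of the given degrees -/
def Strat3 (a b c : ℤ) (x : X3 F) : Prop := ∃ (γ : GL (Fin 3) F) (B C Z : Div F) (η₁ η₂ η₃ : A F),
  act3 F γ x = RC.mk (K3 F) (tri3 B C Z η₁ η₂ η₃) ∧ deg B = a ∧ deg C = b ∧ deg Z = c

/-- unfolding along an injective family of group elements -/
lemma fam_le {H X T : Type} [Group H] {φ : H →* Equiv.Perm X} {ρ : X → ℝ≥0∞} (hρ : IsBru φ ρ)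
    (ι : T → H) (hι : Function.Injective ι) {τ ψ Ψ : X → ℝ≥0∞}
    (hτ : ∀ x, ∑' t, τ (φ (ι t) x) = 1) (hψ : ∀ t x, ψ (φ (ι t) x) = ψ x)
    (h : ∀ x, ∃ g, Ψ x ≤ ψ (φ g x)) : ∑' x, ρ x * Ψ x ≤ ∑' x, τ x * ψ x := by
  have h1 : ∑' x, τ x * ψ x = ∑' x, ρ x * ∑' g, τ (φ g x) * ψ (φ g x) :=
    calc ∑' x, τ x * ψ x = ∑' x, ∑' g, ρ (φ g x) * (τ x * ψ x) :=
          tsum_congr fun x => by rw [ENNReal.tsum_mul_right, hρ x, one_mul]
      _ = ∑' g, ∑' x, ρ (φ g x) * (τ x * ψ x) := ENNReal.tsum_comm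
      _ = ∑' g, ∑' x, ρ x * (τ (φ g x) * ψ (φ g x)) := by
          rw [← (Equiv.inv H).tsum_eq]
          refine tsum_congr fun g => ?_
          rw [← (φ g).tsum_eq]
          refine tsum_congr fun x => ?_
          rw [← Equiv.Perm.mul_apply, ← map_mul, Equiv.inv_apply, inv_mul_cancel, map_one,
            Equiv.Perm.one_apply]
      _ = _ := ENNReal.tsum_comm.trans (tsum_congr fun x => ENNReal.tsum_mul_left)
  rw [h1]
  refine ENNReal.tsum_le_tsum fun x => mul_le_mul_right ?_ _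
  obtain ⟨g, hg⟩ := h x
  calc Ψ x ≤ ψ (φ g x) := hg
    _ = ∑' t, τ (φ (ι t * g) x) * ψ (φ (ι t * g) x) := by
        simp only [map_mul, Equiv.Perm.mul_apply, hψ]
        rw [ENNReal.tsum_mul_right, hτ, one_mul]
    _ ≤ _ := ENNReal.tsum_comp_le_tsum_of_injective (f := fun t => ι t * g)
        (fun t t' h => hι (mul_right_cancel h)) fun g => τ (φ g x) * ψ (φ g x)

lemma kap_ge {β : Div F → ℝ≥0∞} (hβ : IsBru (actD F) β) (j : ℤ) :
    ∑' E : Div F, (if deg E = j then β E else 0) ≤ kap F := by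
  by_cases h : (dl F : ℤ) ∣ j
  · exact (kap_eq hβ h).le
  · exact (ENNReal.tsum_eq_zero.2 fun E => if_neg fun h' : deg E = j => h (h' ▸ dl_dvd E)).trans_le zero_le

/-- the diagonal matrices -/
noncomputable def dg2 {R : Type} [CommRing R] (a b : Rˣ) : GL (Fin 2) R :=
  GeneralLinearGroup.mk'' !![(a : R), 0; 0, b] (by simp [Matrix.det_fin_two])

lemma dg2_val {R : Type} [CommRing R] (a b : Rˣ) : (dg2 a b).1 = !![(a : R), 0; 0, b] := rfl

omit [Cv F] in
lemma s3_dg (B C : Div F) (η : A F) (a b : (A F)ˣ) : RC.mk (K2 F) (tri B C η * dg2 a b) =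
    RC.mk (K2 F) (tri (B + idiv a) (C + idiv b) (η * a * (b⁻¹ : (A F)ˣ))) := by
  obtain ⟨e, he, he'⟩ := iwa_unit a
  obtain ⟨f, hf, hf'⟩ := iwa_unit b
  refine (RC.mk_eq.2 ⟨dg2 e f, mem_K2.2 ⟨fun i j => ?_, ?_⟩, Units.ext ?_⟩).symm
  · rw [dg2_val]
    fin_cases i <;> fin_cases j
    exacts [(unit_mem_Oh e).2 he.ge, (Oh F).zero_mem, (Oh F).zero_mem, (unit_mem_Oh f).2 hf.ge]
  · have h1 : GeneralLinearGroup.det (dg2 e f) = e * f := Units.ext (by
      rw [GeneralLinearGroup.val_det_apply, dg2_val, det_fin_two_of, zero_mul, sub_zero,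
        Units.val_mul])
    rw [h1, idiv_mul, he, hf, add_zero]
  · have h1 : (e : A F) * piD (idiv a) = a := by rw [← Units.val_mul, ← he']
    have h2 : (f : A F) * piD (idiv b) = b := by rw [← Units.val_mul, ← hf']
    have h3 : (b : A F) * (b⁻¹ : (A F)ˣ) = 1 := b.mul_inv
    rw [Units.val_mul, Units.val_mul, tri_val, tri_val, dg2_val, dg2_val, mul_fin_two,
      mul_fin_two, piD_add, piD_add, Units.val_mul, Units.val_mul]
    congrm !![?_, ?_; ?_, ?_]
    · linear_combination (-(piD B : A F)) * h1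
    · ring
    · linear_combination (-(piD C : A F) * η * a * (b⁻¹ : (A F)ˣ)) * h2 -
        (piD C : A F) * η * a * h3
    · linear_combination (-(piD C : A F)) * h2

omit [Cv F] in
lemma s3_flag : ∃ p : X2 F → Div F × Div F, ∀ B C η, p (RC.mk (K2 F) (tri B C η)) = (B, C) := by
  choose B C η h using exists_mk_tri (F := F)
  refine ⟨fun y => (B y, C y), fun B' C' η' => ?_⟩
  obtain ⟨h1, h2, -⟩ := tri_eq_iff.1 (h (RC.mk (K2 F) (tri B' C' η')))
  exact Prod.ext h1.symm h2.symm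

/-- the bundles of rank two with a flag of the given degrees -/
def Strat2 (a b : ℤ) (y : X2 F) : Prop := ∃ (γ : GL (Fin 2) F) (B C : Div F) (η : A F),
  act2 F γ y = RC.mk (K2 F) (tri B C η) ∧ deg B = a ∧ deg C = b

lemma strat2_act {a b : ℤ} (γ : GL (Fin 2) F) (y : X2 F) :
    Strat2 a b (act2 F γ y) ↔ Strat2 a b y := by
  constructor
  · rintro ⟨γ', B, C, η, h, h'⟩
    exact ⟨γ' * γ, B, C, η, by rw [map_mul]; exact h, h'⟩
  · rintro ⟨γ', B, C, η, h, h'⟩
    refine ⟨γ' * γ⁻¹, B, C, η, ?_, h'⟩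
    rw [← Equiv.Perm.mul_apply, ← map_mul, inv_mul_cancel_right, h]

lemma Strat2.deg2 {a b : ℤ} {y : X2 F} (h : Strat2 a b y) : deg2 y = a + b := by
  obtain ⟨γ, B, C, η, h, rfl, rfl⟩ := h
  rw [← deg2_act γ, h, deg2_tri]

theorem mass_strat2 {ρ : X2 F → ℝ≥0∞} (hρ : IsBru (act2 F) ρ) (a b : ℤ) :
    ∑' y, (if Strat2 a b y then ρ y else 0) ≤
      kap F ^ 2 * ENNReal.ofReal (qq F ^ (-(b - a + cc F))) := by
  obtain ⟨β, hβ⟩ := exists_bruD (F := F)
  obtain ⟨σ, hσ⟩ := exists_bru (((act2 F).comp (MulAction.stabilizer (GL (Fin 2) F)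
      (![0, 1] : Fin 2 → F)).subtype).comp (siegU F)) fun x =>
    (finite_stab2 x).preimage (f := fun y => (siegU F y : GL (Fin 2) F))
      fun y _ y' _ h => neg_injective (G := F) (congrArg (fun g => g.1 1 0) h)
  obtain ⟨p, hp⟩ := s3_flag (F := F)
  have hU : ∀ t x, p (act2 F (siegU F t) x) = p x := fun t x => by
    obtain ⟨B, C, η, rfl⟩ := exists_mk_tri x
    rw [sieg_act, hp, hp]
  have hD : ∀ u u' x, p (act2 F (dg2 u u')⁻¹ x) = (actD F u (p x).1, actD F u' (p x).2) :=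
    fun u u' x => by
      obtain ⟨B, C, η, rfl⟩ := exists_mk_tri x
      have e : glA F (dg2 u u') = dg2 (uA u) (uA u') := Units.ext (Matrix.ext fun i j => by
        change toA F ((dg2 u u').1 i j) = _
        rw [dg2_val, dg2_val]
        fin_cases i <;> fin_cases j
        exacts [rfl, map_zero _, map_zero _, rfl])
      rw [act2_mk, map_inv, inv_inv, e, s3_dg, hp, hp, idiv_uA, idiv_uA]
      rfl
  have key := fam_le hρ (fun t : (Fˣ × Fˣ) × Multiplicative F =>
    (siegU F t.2 : GL (Fin 2) F) * (dg2 t.1.1 t.1.2)⁻¹) ?_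
    (τ := fun x => β (p x).1 * β (p x).2 * σ x)
    (ψ := fun x => if deg (p x).1 = a ∧ deg (p x).2 = b then 1 else 0)
    (Ψ := fun x => if Strat2 a b x then 1 else 0) (fun x => ?_) (fun t x => ?_) fun x => ?_
  · simp only [mul_ite, mul_one, mul_zero] at key
    refine key.trans ?_
    have h2 : ∀ Z B, (∑' x, if ∃ η, RC.mk (K2 F) (tri B Z η) = x then
        (if deg (p x).1 = a ∧ deg (p x).2 = b then β (p x).1 * β (p x).2 * σ x else 0) else 0) =
        (if deg Z = b then β Z else 0) * ((if deg B = a then β B else 0) *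
          ENNReal.ofReal (qq F ^ (-(b - a + cc F)))) := fun Z B => by
      have h1 := mass_line (Z - B) (fun η => RC.mk (K2 F) (tri B Z η))
        (fun a a' => by rw [tri_eq_iff]; simp) σ fun a => by
          rw [← hσ (RC.mk (K2 F) (tri B Z a))]
          exact tsum_congr fun y => congrArg σ (sieg_act B Z a (Multiplicative.ofAdd y)).symm
      by_cases h3 : deg B = a ∧ deg Z = b
      · rw [if_pos h3.1, if_pos h3.2, ← h3.1, ← h3.2, ← map_sub, ← h1, ← ENNReal.tsum_mul_left,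
          ← ENNReal.tsum_mul_left]
        refine tsum_congr fun x => ?_
        split_ifs with h4 h5
        · obtain ⟨η, rfl⟩ := h4
          rw [hp, mul_left_comm, mul_assoc]
        · obtain ⟨η, rfl⟩ := h4
          exact absurd (by rw [hp]; exact ⟨rfl, rfl⟩) h5
        · rw [mul_zero, mul_zero]
      · refine (ENNReal.tsum_eq_zero.2 fun x => ?_).trans ?_
        · split_ifs with h4 h5
          · obtain ⟨η, rfl⟩ := h4
            rw [hp] at h5
            exact absurd h5 h3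
          · rfl
          · rfl
        · rcases not_and_or.1 h3 with h | h <;> simp [h]
    rw [sieg_split]
    simp only [h2, ENNReal.tsum_mul_left, ENNReal.tsum_mul_right]
    rw [sq, mul_assoc]
    exact mul_le_mul' (kap_ge hβ b) (mul_le_mul_left (kap_ge hβ a) _)
  · rintro ⟨⟨u₁, u₂⟩, t⟩ ⟨⟨u₁', u₂'⟩, t'⟩ h
    have h1 : dg2 u₁ u₂ * ((siegU F t⁻¹ : GL (Fin 2) F)) = dg2 u₁' u₂' * siegU F t'⁻¹ := by
      simpa using congrArg Inv.inv h
    have h2 := fun i j => congrArg (fun g : GL (Fin 2) F => g.1 i j) h1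
    obtain rfl : u₁ = u₁' := Units.ext (by
      simpa [dg2_val, siegU, Matrix.mul_apply, Fin.sum_univ_two] using h2 0 0)
    obtain rfl : u₂ = u₂' := Units.ext (by
      simpa [dg2_val, siegU, Matrix.mul_apply, Fin.sum_univ_two] using h2 1 1)
    obtain rfl : t = t' := neg_injective (G := F)
      (congrArg (fun g : GL (Fin 2) F => g.1 1 0) (mul_right_cancel h))
    rfl
  · simp only [map_mul, Equiv.Perm.mul_apply, hU, hD]
    rw [ENNReal.tsum_prod', ENNReal.tsum_prod']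
    have h1 : ∀ y, ∑' t, σ (act2 F (siegU F t) y) = 1 := hσ
    simp only [ENNReal.tsum_mul_left, h1, mul_one, hβ (p x).2, hβ (p x).1]
  · simp only [map_mul, Equiv.Perm.mul_apply, hU, hD, actD_apply, map_add, deg_dv, add_zero]
  · by_cases h : Strat2 a b x
    · obtain ⟨γ, B, C, η, h1, h2⟩ := h
      exact ⟨γ, by rw [h1, hp, if_pos h2]; split_ifs <;> simp⟩
    · exact ⟨1, by rw [if_neg h]; exact zero_le⟩

/-- the mass of a stratum -/
theorem mass_strat3 {ρ : X3 F → ℝ≥0∞} (hρ : IsBru (act3 F) ρ) (a b c : ℤ) :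
    ∑' x, (if Strat3 a b c x then ρ x else 0) ≤
      kap F ^ 3 * ENNReal.ofReal (qq F ^ (-(2 * (c - a) + 3 * cc F))) := by
  have hq : 0 < qq F := zero_lt_one.trans one_lt_qq
  obtain ⟨β, hβ⟩ := exists_bru (act2 F) finite_stab2
  obtain ⟨β', hβ'⟩ := exists_bruD (F := F)
  obtain ⟨σ, hσ⟩ := exists_bruU3 (F := F)
  have key := fam_le hρ _ s3_inj (τ := fun x => β (quo3 x) * β' (-sub3 x) * σ x)
    (ψ := fun x => if Strat2 a b (quo3 x) ∧ deg (sub3 x) = c then 1 else 0)
    (Ψ := fun x => if Strat3 a b c x then 1 else 0) (fun x => ?_) (fun t x => ?_) fun x => ?_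
  · simp only [mul_ite, mul_one, mul_zero] at key
    refine key.trans ?_
    have h1 := s3_int hσ fun y Z => if Strat2 a b y ∧ deg Z = c then β y * β' (-Z) else 0
    simp only [ite_mul, zero_mul] at h1
    have h2 : ∀ Z y, (if Strat2 a b y ∧ deg Z = c then β y * β' (-Z) *
        ENNReal.ofReal (qq F ^ (-(2 * deg Z - deg2 y + 2 * cc F))) else 0) =
        (if deg (-Z) = -c then β' (-Z) else 0) * ((if Strat2 a b y then β y else 0) *
          ENNReal.ofReal (qq F ^ (-(2 * c - (a + b) + 2 * cc F)))) := fun Z y => by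
      rw [map_neg]
      simp only [neg_inj]
      by_cases h3 : Strat2 a b y ∧ deg Z = c
      · rw [if_pos h3, if_pos h3.1, if_pos h3.2, h3.1.deg2, h3.2, mul_left_comm, mul_assoc]
      · rw [if_neg h3]
        rcases not_and_or.1 h3 with h | h <;> simp [h]
    rw [h1]
    simp only [h2, ENNReal.tsum_mul_left, ENNReal.tsum_mul_right]
    refine (mul_le_mul' (((Equiv.neg (Div F)).tsum_eq fun E =>
      if deg E = -c then β' E else 0).trans_le (kap_ge hβ' _))
      (mul_le_mul_left (mass_strat2 hβ a b) _)).trans_eq ?_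
    rw [mul_assoc, ← mul_assoc, ← pow_succ', ← ENNReal.ofReal_mul (zpow_pos hq _).le,
      ← zpow_add₀ hq.ne']
    congr 3
    ring
  · rw [ENNReal.tsum_prod', ENNReal.tsum_prod']
    simp only [map_mul, Equiv.Perm.mul_apply, s3_inner hσ fun y Z => β y * β' (-Z), quo3_act,
      sub3_act, neg_sub', sub_neg_eq_add, ← actD_apply, ENNReal.tsum_mul_left, hβ' (-sub3 x),
      mul_one, hβ (quo3 x)]
  · simp only [map_mul, Equiv.Perm.mul_apply, U3_apply, quo3_act, sub3_act, strat2_act, map_sub,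
      deg_dv, sub_zero]
  · by_cases h : Strat3 a b c x
    · obtain ⟨γ, B, C, Z, η₁, η₂, η₃, h1, h2, h3, h4⟩ := h
      refine ⟨γ, ?_⟩
      rw [h1, tri3, quo3_mk, sub3_mk, idiv_piD, if_pos (c := Strat2 a b _ ∧ deg Z = c)
        ⟨⟨1, B, C, η₁, by rw [map_one]; rfl, h2, h3⟩, h4⟩]
      split_ifs <;> simp
    · exact ⟨1, by rw [if_neg h]; exact zero_le⟩

/-- the weighted form used for the cusp -/
theorem tsum_le_strat3 {ρ : X3 F → ℝ≥0∞} (hρ : IsBru (act3 F) ρ) (Ψ : X3 F → ℝ≥0∞)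
    (w : ℤ × ℤ × ℤ → ℝ≥0∞) (h : ∀ x, Ψ x ≠ 0 → ∃ d : ℤ × ℤ × ℤ, Strat3 d.1 d.2.1 d.2.2 x ∧ Ψ x ≤ w d) :
    ∑' x, ρ x * Ψ x ≤ kap F ^ 3 * ∑' d : ℤ × ℤ × ℤ,
      w d * ENNReal.ofReal (qq F ^ (-(2 * (d.2.2 - d.1) + 3 * cc F))) := by
  have h1 : ∀ x, ρ x * Ψ x ≤
      ∑' d : ℤ × ℤ × ℤ, w d * if Strat3 d.1 d.2.1 d.2.2 x then ρ x else 0 := fun x => by
    by_cases h0 : Ψ x = 0
    · rw [h0, mul_zero]
      exact zero_le
    · obtain ⟨d, h2, h3⟩ := h x h0
      refine le_trans ?_ (ENNReal.le_tsum d)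
      rw [if_pos h2, mul_comm]
      exact mul_le_mul_left h3 _
  refine (ENNReal.tsum_le_tsum h1).trans ?_
  rw [ENNReal.tsum_comm, ← ENNReal.tsum_mul_left]
  refine ENNReal.tsum_le_tsum fun d => ?_
  rw [ENNReal.tsum_mul_left, mul_left_comm]
  exact mul_le_mul_right (mass_strat3 hρ _ _ _) _

end SelAvg.FF
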