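import Pool.Agent.H5T.DensA
import Pool.Agent.H5T.Sieg3
import Pool.Agent.H5T.ToM

/-! Global densities from equidistribution, for ternary cubics. -/

namespace SelAvg.FF.T3

open WeierstrassCurve WithZero Filter Topology
open scoped Classical

variable {F : Type} [Field F] [Cv F]

lemma db_one (L : Lat F 10) : ∃ b : ℕ, ∀ (m M : ℕ) (v : Place F), M * dg v + b ≤ m * pp F →
    dens (L.box m) (fun x => v.loc.unif ^ M ∣ (toM (L.loc m v x)).jac.Δ) =
      dens Finset.univ fun f : Model (Rv v M) => f.jac.Δ = 0 := by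
  obtain ⟨b, hb⟩ := L.equidist
  refine ⟨b, fun m M v h => ?_⟩
  have h1 := hb m M {v} (by simpa using h) fun w y => ind ((toM y).jac.Δ = 0)
  simp only [Finset.prod_singleton] at h1
  rw [dens_eq_avg, dens_eq_avg,
    ← avg_equiv Model.equivVec.symm fun f : Model (Rv v M) => ind (f.jac.Δ = 0), ← h1]
  refine avg_congr fun x _ => congrArg ind (propext ?_)
  rw [← redv_eq_zero_iff, ← map_Δ, ← Model.jac_map]
  rfl

/-- `Lat.equidist`, `avg_phiR`, `nonMin_redv_iff`, `avg_equiv` -/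
theorem avg_phiM (L : Lat F 10) (S : Finset (Place F)) {j : ℕ} (hj : 2 ≤ j) : ∀ᶠ m in atTop,
    avg (L.box m) (fun x => ind (∀ v ∈ S, ¬NonMin v.loc.unif (toM (L.loc m v x)).jac) *
      ∏ v ∈ S, phiR (thv v j) ((toM (L.loc m v x)).map (redv v (2 * (j + 1))))) =
      cS S * cS3 S * delta S j := by
  obtain ⟨b, hb⟩ := L.equidist
  filter_upwards [db_ev (F := F) (2 * (j + 1) * ∑ v ∈ S, dg v + b)] with m hm
  have h := hb m (2 * (j + 1)) S hm fun v y =>
    ind (¬NonMin (redv v (2 * (j + 1)) v.loc.unif) (toM y).jac) * phiR (thv v j) (toM y)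
  have h2 : ∀ v : Place F, avg Finset.univ (fun y : Fin 10 → Rv v (2 * (j + 1)) =>
      ind (¬NonMin (redv v (2 * (j + 1)) v.loc.unif) (toM y).jac) * phiR (thv v j) (toM y)) =
      (1 - 1 / (qq F ^ dg v) ^ 2) * (1 - 1 / (qq F ^ dg v) ^ 3) * nuLoc v j := fun v => by
    rw [← avg_phiR v j]
    exact avg_equiv Model.equivVec.symm fun f : Model (Rv v (2 * (j + 1))) =>
      ind (¬NonMin (redv v (2 * (j + 1)) v.loc.unif) f.jac) * phiR (thv v j) f
  rw [Finset.prod_congr rfl fun v _ => h2 v, Finset.prod_mul_distrib, Finset.prod_mul_distrib] at h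
  refine Eq.trans (avg_congr fun x _ => ?_) h
  rw [Finset.prod_mul_distrib, final1_ind_forall]
  refine congrArg₂ (· * ·) (Finset.prod_congr rfl fun v _ => congrArg ind (propext ?_)) rfl
  rw [← nonMin_redv_iff v hj, ← Model.jac_map]
  rfl

/-- `dens_Delta_tendsto`, `Lat.equidist` for one place, `dens_exists_le` -/
theorem exists_level (S : Finset (Place F)) {ε : ℝ} (hε : 0 < ε) : ∃ j, 2 ≤ j ∧ ∀ L : Lat F 10,
    ∀ᶠ m in atTop, dens (L.box m)
      (fun x => ∃ v ∈ S, v.loc.unif ^ (2 * (j + 1)) ∣ (toM (L.loc m v x)).jac.Δ) ≤ ε := by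
  have hc : (0 : ℝ) < S.card + 1 := by positivity
  obtain ⟨M, hM⟩ := eventually_atTop.1 ((eventually_all_finset S).2 fun v _ =>
    (dens_Delta_tendsto v).eventually_le_const (div_pos hε hc))
  refine ⟨M + 2, by omega, fun L => ?_⟩
  obtain ⟨b, hb⟩ := db_one L
  filter_upwards [db_ev (F := F) (2 * (M + 2 + 1) * ∑ v ∈ S, dg v + b)] with m hm
  refine (dens_exists_le (L.box m) S fun v x =>
    v.loc.unif ^ (2 * (M + 2 + 1)) ∣ (toM (L.loc m v x)).jac.Δ).trans ?_
  refine (Finset.sum_le_card_nsmul _ _ (ε / (S.card + 1)) fun v hv => ?_).trans ?_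
  · rw [hb m _ v (le_trans (Nat.add_le_add_right (Nat.mul_le_mul_left _
      (Finset.single_le_sum (f := fun v : Place F => dg v) (fun _ _ => Nat.zero_le _) hv)) b) hm)]
    exact hM (M + 2) (by omega) v hv
  · rw [nsmul_eq_mul, ← mul_div_assoc, div_le_iff₀ hc]
    nlinarith

/-- `dens_V_sq_le`, `Lat.equidist` for one place, `sum_le_tau` (the places lie in a `plLE`) -/
theorem dens_medium (L : Lat F 10) : ∃ b : ℕ, ∀ N m : ℕ, dens (L.box m)
    (fun x => ∃ v : Place F, N < dg v ∧ 2 * dg v + b ≤ m * pp F ∧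
      v.loc.unif ^ 2 ∣ (toM (L.loc m v x)).jac.Δ) ≤ 5 * tau F N := by
  obtain ⟨b, hb⟩ := db_one L
  refine ⟨b, fun N m => ?_⟩
  set T := (plLE F (m * pp F)).filter fun v => N < dg v ∧ 2 * dg v + b ≤ m * pp F with hT
  refine (dens_mono (Q := fun x => ∃ v ∈ T,
    v.loc.unif ^ (2 * (0 + 1)) ∣ (toM (L.loc m v x)).jac.Δ) ?_).trans ?_
  · rintro x - ⟨v, h1, h2, h3⟩
    exact ⟨v, Finset.mem_filter.2 ⟨mem_plLE.2 (by omega), h1, h2⟩, h3⟩
  refine (dens_exists_le (L.box m) T fun v x =>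
    v.loc.unif ^ (2 * (0 + 1)) ∣ (toM (L.loc m v x)).jac.Δ).trans ?_
  refine le_trans (Finset.sum_le_sum (g := fun v => 5 * (1 / (qq F ^ dg v) ^ 2)) fun v hv => ?_) ?_
  · rw [hb m _ v (Finset.mem_filter.1 hv).2.2, mul_one_div]
    exact dens_V_sq_le v
  · rw [← Finset.mul_sum]
    exact mul_le_mul_of_nonneg_left
      (sum_le_tau T fun v hv => (Finset.mem_filter.1 hv).2.1) (by norm_num)

end SelAvg.FF.T3
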