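import Pool.Agent.H5T.DifA
import Pool.Agent.H38Sel.Desc

/-!
Three-torsion points, points over the separable closure.
-/

namespace SelAvg.FF.T3

open WeierstrassCurve Matrix
open scoped Classical

universe u

lemma tor3_root {L : Type*} [Field L] {W : WeierstrassCurve L} {x y : L}
    (k : W.toAffine.Nonsingular x y) (hP : 3 • Affine.Point.some x y k = 0) : W.Ψ₃.eval x = 0 := by
  have h3 : 2 • Affine.Point.some x y k = -Affine.Point.some x y k :=
    eq_neg_of_add_eq_zero_left (by rw [← succ_nsmul]; exact hP)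
  have hs : 2 * y + W.a₁ * x + W.a₃ ≠ 0 := fun h => by
    rw [(two_smul_eq_zero_iff k).2 h, Affine.Point.neg_some] at h3
    cases h3
  have e0 : y - W.toAffine.negY x y = 2 * y + W.a₁ * x + W.a₃ := by rw [Affine.negY]; ring
  have hy : y ≠ W.toAffine.negY x y := fun h0 => hs (by rw [← e0]; exact sub_eq_zero.2 h0)
  have hl : W.toAffine.slope x x y y * (2 * y + W.a₁ * x + W.a₃) =
      3 * x ^ 2 + 2 * W.a₂ * x + W.a₄ - W.a₁ * y := by
    rw [Affine.slope_of_Y_ne rfl hy, e0, div_mul_cancel₀ _ hs]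
  rw [two_nsmul, Affine.Point.add_self_of_Y_ne hy, Affine.Point.neg_some,
    Affine.Point.some.injEq, Affine.addX] at h3
  generalize W.toAffine.slope x x y y = l at hl h3
  have e := (Affine.equation_iff _ _).1 k.1
  simp only [Ψ₃, Polynomial.eval_add, Polynomial.eval_mul, Polynomial.eval_pow, Polynomial.eval_X,
    Polynomial.eval_C, Polynomial.eval_ofNat, b₂, b₄, b₆, b₈]
  linear_combination -(12 * x + W.a₁ ^ 2 + 4 * W.a₂) * e - (2 * y + W.a₁ * x + W.a₃) ^ 2 * h3.1 +
    (l * (2 * y + W.a₁ * x + W.a₃) + (3 * x ^ 2 + 2 * W.a₂ * x + W.a₄ - W.a₁ * y) +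
      W.a₁ * (2 * y + W.a₁ * x + W.a₃)) * hl

/-- At most nine 3-torsion points: `x` is a root of `3x^4 + b₂x^3 + 3b₄x^2 + 3b₆x + b₈`, which is
not the zero polynomial as `Δ ≠ 0`, and there are at most two `y` for each `x`. -/
theorem three_torsion_le {L : Type*} [Field L] {W : WeierstrassCurve L} (hW : W.Δ ≠ 0)
    (s : Finset W.toAffine.Point) (hs : ∀ P ∈ s, 3 • P = 0) : s.card ≤ 9 := by
  have h0 : W.Ψ₃ ≠ 0 := fun h => hW (by
    have c4 := congrArg (Polynomial.coeff · 4) h
    have c3 := congrArg (Polynomial.coeff · 3) h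
    have c0 := congrArg (Polynomial.coeff · 0) h
    simp [Ψ₃, Polynomial.coeff_X, mul_assoc] at c4 c3 c0
    have r := W.b_relation
    rw [Δ, c3]
    rw [c3, c0] at r
    linear_combination -8 * W.b₄ * r - 9 * W.b₆ ^ 2 * c4)
  have h4 : W.Ψ₃.roots.toFinset.card ≤ 4 :=
    (Multiset.toFinset_card_le _).trans ((Polynomial.card_roots' _).trans W.natDegree_Ψ₃_le)
  have h1 := Finset.card_le_mul_card_image_of_maps_to (s := s.erase 0)
    (t := W.Ψ₃.roots.toFinset.image some) (f := fun P => (toRaw P).map Prod.fst) ?_ 2 ?_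
  · have h5 := Finset.card_image_le (s := W.Ψ₃.roots.toFinset) (f := some)
    have h6 := Finset.pred_card_le_card_erase (s := s) (a := 0)
    omega
  · rintro (_ | ⟨x, y, k⟩) hP
    · exact absurd rfl (Finset.ne_of_mem_erase hP)
    · exact Finset.mem_image.2 ⟨x, Multiset.mem_toFinset.2 ((Polynomial.mem_roots h0).2
        (tor3_root k (hs _ (Finset.mem_of_mem_erase hP)))), rfl⟩
  · intro b _
    rcases Finset.eq_empty_or_nonempty
      ((s.erase 0).filter fun P => (toRaw P).map Prod.fst = b) with h | ⟨P, hP⟩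
    · rw [h]; simp
    refine (Finset.card_le_card (t := {P, -P}) fun Q hQ => ?_).trans Finset.card_le_two
    have e := (Finset.mem_filter.1 hQ).2.trans (Finset.mem_filter.1 hP).2.symm
    rcases P with _ | ⟨x, y, k⟩
    · exact absurd rfl (Finset.ne_of_mem_erase (Finset.mem_filter.1 hP).1)
    rcases Q with _ | ⟨x', y', k'⟩
    · cases e
    obtain rfl : x' = x := Option.some.inj e
    rw [Finset.mem_insert, Finset.mem_singleton, Affine.Point.neg_some]
    rcases Affine.Y_eq_of_X_eq k'.1 k.1 rfl with rfl | rfl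
    · exact Or.inl rfl
    · exact Or.inr rfl

theorem noThreeTorsion_smul {L : Type*} [Field L] (C : VariableChange L)
    (W : WeierstrassCurve L) : NoThreeTorsion (C • W) ↔ NoThreeTorsion W := by
  obtain ⟨e, -⟩ := exists_vcPt C (W := W) rfl
  constructor
  · intro h P hP
    have := h (e.symm P) (by rw [← map_nsmul, hP, map_zero])
    simpa using this
  · intro h P hP
    have := h (e P) (by rw [← map_nsmul, hP, map_zero])
    simpa using this

/-- a primitive point whose class is fixed by the Galois group is equivalent to a rational point -/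
lemma exists_rational_pt {K : Type u} [Field K] {Q : Pt (SeparableClosure K)} (hQ : Q.Prim)
    (h : ∀ σ : SeparableClosure K ≃ₐ[K] SeparableClosure K, Q.Eqv (Q.map (galHom σ))) :
    ∃ Q₀ : Pt K, Q.Eqv (Q₀.map (toSep K)) := by
  obtain ⟨i, hi⟩ : ∃ i, Q i ≠ 0 := Function.ne_iff.1 hQ
  have h2 : ∀ j, ∃ x, algebraMap K (SeparableClosure K) x = (Q i)⁻¹ * Q j := fun j =>
    (InfiniteGalois.mem_range_algebraMap_iff_fixed (k := K) _).2 fun σ => by
      obtain ⟨s, hs, e⟩ := h σ
      have ei : σ (Q i) = s * Q i := congrFun e i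
      have ej : σ (Q j) = s * Q j := congrFun e j
      rw [map_mul, map_inv₀, ei, ej]
      field_simp
  choose Q₀ hQ₀ using h2
  exact ⟨Q₀, (Q i)⁻¹, inv_ne_zero hi, funext hQ₀⟩

lemma tor3_line {L : Type*} [Field L] [IsSepClosed L] {f : Model L} (h : ¬f.Soluble) (p q : Pt L)
    (hq : q ≠ 0) (hpq : ∀ t : L, p + t • q ≠ 0) :
    (3 : L) = 0 ∧ f.pol p q = 0 ∧ f.pol q p = 0 := by
  have hd : f.F q ≠ 0 := fun e => h ⟨q, hq, e⟩
  let P : Cubic L := ⟨f.F q, f.pol q p, f.pol p q, f.F p⟩
  have h3 : P.toPoly.natDegree = 3 := Cubic.natDegree_of_a_ne_zero hd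
  have hr : ∀ t, ¬P.toPoly.IsRoot t := fun t ht => h ⟨p + t • q, hpq t, by
    have := f.F_add 1 t p q
    rw [one_smul] at this
    simp only [Polynomial.IsRoot, Cubic.toPoly, Polynomial.eval_add, Polynomial.eval_mul,
      Polynomial.eval_pow, Polynomial.eval_X, Polynomial.eval_C, P] at ht
    rw [this]
    linear_combination ht⟩
  have hi : Irreducible P.toPoly :=
    Polynomial.irreducible_of_degree_le_three_of_not_isRoot (by rw [h3]; decide) hr
  have h0 : Polynomial.derivative P.toPoly = 0 := by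
    by_contra h0
    obtain ⟨t, ht⟩ := IsSepClosed.exists_root _ (Polynomial.degree_pos_of_irreducible hi).ne'
      ((Polynomial.separable_iff_derivative_ne_zero hi).2 h0)
    exact hr t ht
  have c0 := congrArg (Polynomial.coeff · 0) h0
  have c1 := congrArg (Polynomial.coeff · 1) h0
  have c2 := congrArg (Polynomial.coeff · 2) h0
  simp only [Polynomial.coeff_derivative, Polynomial.coeff_zero, zero_add, Nat.reduceAdd,
    Cubic.coeff_eq_a, Cubic.coeff_eq_b, Cubic.coeff_eq_c, P] at c0 c1 c2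
  have e3 : (3 : L) = 0 := by
    refine (mul_eq_zero.1 c2).resolve_left hd ▸ ?_
    norm_num
  refine ⟨e3, by simpa using c0, ?_⟩
  push_cast at c1
  linear_combination f.pol q p * e3 - c1

/-- A nonsingular cubic has a point over the separable closure `L`.  Suppose not.  For `p`, `q`
in `L^3` the polynomial `T ↦ F (p + T q) = F p + pol p q T + pol q p T^2 + F q T^3` has no root
in `L` (for `p`, `q` independent), so it is irreducible of degree 3 and not separable or has an
inseparable quadratic factor and a linear one; hence the characteristic is 3 and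
`pol p q = pol q p = 0`.  So `F = a x^3 + b y^3 + c z^3` in characteristic 3 and `Δ = 0`. -/
lemma exists_sep_point {K : Type u} [Field K] {f : Model K} (hΔ : f.jac.Δ ≠ 0) :
    (f.map (toSep K)).Soluble := by
  have hΔ' : (f.map (toSep K)).jac.Δ ≠ 0 := by
    rwa [Model.jac_map, map_Δ, _root_.map_ne_zero]
  generalize f.map (toSep K) = F at hΔ' ⊢
  by_contra h
  have key : ∀ (p q : Pt (SeparableClosure K)) (i j : Fin 3), p i = 1 → q i = 0 → q j = 1 →
      (3 : SeparableClosure K) = 0 ∧ F.pol p q = 0 ∧ F.pol q p = 0 := fun p q i j h1 h2 h3 =>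
    tor3_line h p q (fun e => by simp [e] at h3) fun t e => by
      have := congrFun e i
      simp [h1, h2] at this
  obtain ⟨e3, h2, h1⟩ := key ![1, 0, 0] ![0, 1, 0] 0 1 rfl rfl rfl
  obtain ⟨-, h3, h4⟩ := key ![1, 0, 0] ![0, 0, 1] 0 2 rfl rfl rfl
  obtain ⟨-, h5, h6⟩ := key ![0, 1, 0] ![0, 0, 1] 1 2 rfl rfl rfl
  obtain ⟨-, h7, -⟩ := key ![1, 1, 0] ![0, 0, 1] 1 2 rfl rfl rfl
  simp [Model.pol, Model.Fx, Model.Fy, Model.Fz] at h1 h2 h3 h4 h5 h6 h7
  rw [h3, h5, zero_add, zero_add] at h7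
  have a1 : F.jac.a₁ = 0 := h7
  have a2 : F.jac.a₂ = 0 := by simp [Model.jac, h1, h2, h3]
  have a3 : F.jac.a₃ = 0 := by
    simp only [Model.jac, h1, h2, h3, h4, h5, h6]
    linear_combination 3 * F.a * F.b * F.c * e3
  have a4 : F.jac.a₄ = 0 := by simp [Model.jac, h1, h2, h3, h4, h5, h6]
  have a6 : F.jac.a₆ = 0 := by
    simp only [Model.jac, h1, h2, h3, h4, h5, h6, h7]
    linear_combination -9 * F.a ^ 2 * F.b ^ 2 * F.c ^ 2 * e3
  exact hΔ' (by simp [Δ, b₂, b₄, b₆, b₈, a1, a2, a3, a4, a6])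

end SelAvg.FF.T3
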