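import Pool.Agent.H5T.DescG
import Pool.Agent.H5T.DifC
import Pool.Agent.H5T.Tor3

/-! Three-descent: Selmer elements as orbits of cubics. -/

namespace SelAvg.FF.T3

open WeierstrassCurve Matrix Filter Topology H5T
open scoped Classical

section Th

variable {K : Type} [Field K]

lemma desc3_ofin (z : Obj (SeparableClosure K)) :
    ∀ᶠ σ : Gal K in 𝓝 1, z.map (galHom σ) = z := by
  filter_upwards [ev_pm (Model.equivVec z.f), ev_units z.γ.u, ev_fix z.γ.r, ev_fix z.γ.s,
    ev_fix z.γ.t] with σ h1 h2 h3 h4 h5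
  exact Obj.ext (congrArg Model.equivVec.symm h1) (VariableChange.ext h2 h3 h4 h5)

lemma desc3_gfin (g : G (SeparableClosure K)) : ∀ᶠ σ : Gal K in 𝓝 1, G.map (galHom σ) g = g := by
  filter_upwards [ev_GL g.M, ev_units g.μ] with σ h1 h2
  exact G.ext h1 h2

lemma desc3_odesc {z : Obj (SeparableClosure K)} (h : ∀ σ : Gal K, z.map (galHom σ) = z) :
    ∃ z₀ : Obj K, z₀.map (toSep K) = z := by
  have h1 : ∀ i, ∃ a, toSep K a = Model.equivVec z.f i := fun i => desc1_fixed fun σ => by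
    have := congrArg (fun x => Model.equivVec x.f i) (h σ)
    fin_cases i <;> exact this
  choose v hv using h1
  obtain ⟨u, hu⟩ := desc_units (t := z.γ.u) fun σ => congrArg (fun x => x.γ.u) (h σ)
  obtain ⟨r, hr⟩ := desc1_fixed (x := z.γ.r) fun σ => congrArg (fun x => x.γ.r) (h σ)
  obtain ⟨s, hs⟩ := desc1_fixed (x := z.γ.s) fun σ => congrArg (fun x => x.γ.s) (h σ)
  obtain ⟨t, ht⟩ := desc1_fixed (x := z.γ.t) fun σ => congrArg (fun x => x.γ.t) (h σ)
  exact ⟨⟨Model.equivVec.symm v, ⟨u, r, s, t⟩⟩,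
    Obj.ext (congrArg Model.equivVec.symm (funext hv)) (VariableChange.ext hu hr hs ht)⟩

lemma desc3_gdesc {g : G (SeparableClosure K)} (h : ∀ σ : Gal K, G.map (galHom σ) g = g) :
    ∃ g₀ : G K, G.map (toSep K) g₀ = g := by
  obtain ⟨M, hM⟩ := desc_GL (H := g.M) fun σ => congrArg G.M (h σ)
  obtain ⟨μ, hμ⟩ := desc_units (t := g.μ) fun σ => congrArg G.μ (h σ)
  exact ⟨⟨M, μ⟩, G.ext hM hμ⟩

lemma Obj.over_map_iff {L L' : Type*} [Field L] [Field L'] (φ : L →+* L') {z : Obj L}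
    {W : WeierstrassCurve L} : (z.map φ).Over (W.map φ) ↔ z.Over W := by
  refine ⟨fun h => ?_, fun h => h.map φ⟩
  unfold Obj.Over at h ⊢
  rw [Obj.map_f, Obj.map_γ, Model.jac_map, map_variableChange] at h
  exact WeierstrassCurve.map_injective φ.injective h

/-- plane cubics satisfy the axioms of the descent -/
noncomputable def th3 : Th 3 3 where
  Obj L _ := Obj L
  G L _ := G L
  omap φ := Obj.map φ
  gmap φ := G.map φ
  mat := MonoidHom.mk' G.M G.mul_M
  scalar := MonoidHom.mk' G.scalar G.scalar_mul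
  pt := G.pt
  Over := Obj.Over
  On z := z.f.On
  D := D
  piP := piP
  pt_eq _ _ := rfl
  omap_omap := Obj.map_map
  omap_inj φ := Obj.map_injective φ.injective
  omap_smul := Obj.map_smul
  gmap_gmap := G.map_map
  gmap_inj φ := G.map_injective φ.injective
  gmap_scalar := G.map_scalar
  mat_gmap _ _ := rfl
  mat_scalar t := ⟨t, rfl⟩
  scalar_comm := G.scalar_comm
  scalar_inj h := G.scalar_injective h
  scalar_smul := Obj.scalar_smul
  over_omap := Obj.over_map_iff
  over_smul := Obj.Over.smul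
  on_ne h := h.prim
  on_eqv h e := h.eqv e
  on_omap φ z Q := Model.on_map φ z.f Q
  on_pt g z Q := Model.on_pt g z.f Q
  D_add hW hz _ _ _ := D_add hW hz
  D_eq_zero_iff hW hz _ _ := D_eq_zero_iff hW hz
  D_surj hW hz _ := D_surjective hW hz
  D_smul hW hz g _ _ := D_smul hW hz g
  piP_smul hW hz g _ := piP_smul hW hz g
  D_map φ _ _ hW hz _ _ := toRaw_D_map φ hW hz
  piP_map φ _ _ hW hz _ := toRaw_piP_map φ hW hz
  smul_D hW hz _ _ := three_smul_D hW hz
  exists_iso hW hz hz' _ _ := exists_iso hW hz hz'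
  eq_scalar hW hz _ hQ _ := eq_scalar_of_fix hW hz hQ
  piP_surj hW P := ⟨zP _ (toRaw P), Pt.std, zP_over (valid_toRaw P), Model.on_std.2 (zP_a _ _),
    piP_zP hW P⟩
  sep_point hW hz := exists_sep_point (hz.jac_Delta hW)
  ofin := desc3_ofin
  gfin := desc3_gfin
  odesc := desc3_odesc
  gdesc := desc3_gdesc

lemma th3_split : th3.Split K := by
  refine Th.split_of_h90 (fun _ => rfl) (fun H => ⟨G.ofM H, rfl⟩) fun ν h1 h2 h3 => ?_
  obtain ⟨s, hs⟩ := h90_units (fun σ => G.μ (ν σ)) (fun σ τ => congrArg G.μ (h2 σ τ))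
    (h3.mono fun σ h => congrArg G.μ h)
  refine ⟨G.ofMu s, fun σ => G.ext ?_ (hs σ)⟩
  exact (congrArg₂ (· * ·) (map_one (GeneralLinearGroup.map (galHom σ))) (h1 σ)).trans (mul_one _)

variable {W : WeierstrassCurve K} {z z' : Obj K}

/-- the class of an object -/
noncomputable def cl (W : WeierstrassCurve K) (z : Obj K) : H1 W 3 := th3.cl W z

theorem cl_smul (hW : W.Δ ≠ 0) (hz : z.Over W) (g : G K) : cl W (g • z) = cl W z :=
  Th.cl_smul (T := th3) hW hz g

theorem cl_eq_triv_iff (hW : W.Δ ≠ 0) (hz : z.Over W) : cl W z = trivClass W 3 ↔ z.f.Triv :=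
  (Th.cl_eq_triv_iff (T := th3) hW hz).trans (triv_iff hW hz).symm

theorem exists_smul_of_cl_eq (hW : W.Δ ≠ 0) (hz : z.Over W) (hz' : z'.Over W)
    (h : cl W z = cl W z') : ∃ g : G K, g • z' = z :=
  Th.exists_smul_of_cl_eq (T := th3) hW hz hz' h

theorem cl_mem_Sel_iff (hW : W.Δ ≠ 0) (hz : z.Over W) :
    cl W z ∈ Sel W 3 ↔ ∀ v : Place K, (z.f.map (algebraMap K v.Compl)).Soluble :=
  Th.cl_mem_Sel_iff (T := th3) hW hz

theorem aut_eq_scalar (hW : W.Δ ≠ 0) (h3 : NoThreeTorsion W) (hz : z.Over W) {g : G K}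
    (hg : g • z = z) : ∃ t : Kˣ, g = G.scalar t :=
  Th.aut_eq_scalar (T := th3) hW h3 hz hg

/-- at most nine automorphisms modulo scalars -/
theorem aut_card_le (hW : W.Δ ≠ 0) (hz : z.Over W) (s : Finset (G K)) (hs : ∀ g ∈ s, g • z = z)
    (hs' : ∀ g ∈ s, ∀ g' ∈ s, ∀ t : Kˣ, g' = G.scalar t * g → g = g') : s.card ≤ 9 :=
  Th.aut_card_le (T := th3) hW hz (three_torsion_le (Delta_map hW _)) s hs hs'

theorem exists_obj_of_mem_Sel (hK : Abhn K 3) (hW : W.Δ ≠ 0) {x : H1 W 3} (hx : x ∈ Sel W 3) :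
    ∃ z : Obj K, z.Over W ∧ cl W z = x :=
  Th.exists_obj_of_mem_Sel (T := th3) hK th3_split hW hx

end Th

variable {F : Type} [Field F]

/-- the isomorphism classes of objects -/
abbrev Orb (F : Type) [Field F] : Type := MulAction.orbitRel.Quotient (G F) (Obj F)

/-- the class of an object -/
noncomputable def orb (z : Obj F) : Orb F := Quotient.mk _ z

lemma orb_eq_iff {z z' : Obj F} : orb z = orb z' ↔ ∃ g : G F, g • z' = z := by
  unfold orb
  rw [Quotient.eq]
  exact MulAction.orbitRel_apply.trans MulAction.mem_orbit_iff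

/-- change of the base curve on classes -/
noncomputable def selOrb_rmul (C : VariableChange F) : Orb F → Orb F :=
  Quotient.lift (fun z => orb (z.rmul C)) fun z z' h => by
    obtain ⟨g, hg⟩ := orb_eq_iff.1 (Quotient.sound h)
    exact orb_eq_iff.2 ⟨g, by rw [Obj.smul_rmul, hg]⟩

lemma selOrb_rmul_orb (C : VariableChange F) (z : Obj F) :
    selOrb_rmul C (orb z) = orb (z.rmul C) := rfl

lemma selOrb_rmul_inj (C : VariableChange F) : Function.Injective (selOrb_rmul C) := by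
  refine Function.LeftInverse.injective (g := selOrb_rmul C⁻¹) fun x => ?_
  obtain ⟨z, rfl⟩ : ∃ z, orb z = x := Quotient.exists_rep x
  rw [selOrb_rmul_orb, selOrb_rmul_orb, Obj.rmul_rmul, mul_inv_cancel, Obj.rmul_one]

lemma selOrb_cl_out {W : WeierstrassCurve F} (hW : W.Δ ≠ 0) {z : Obj F} (hz : z.Over W) :
    cl W (orb z).out = cl W z := by
  obtain ⟨g, hg⟩ : ∃ g : G F, g • z = (orb z).out := orb_eq_iff.1 (Quotient.out_eq (orb z))
  rw [← hg, cl_smul hW hz]

/-- everywhere locally soluble -/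
def ELSF (f : Model F) : Prop := ∀ v : Place F, (f.map (algebraMap F v.Compl)).Soluble

/-- the classes of everywhere locally soluble nontrivial objects over `W` -/
def SelO (W : WeierstrassCurve F) : Set (Orb F) :=
  {x | ∃ z, orb z = x ∧ z.Over W ∧ ELSF z.f ∧ ¬z.f.Triv}

lemma elsF_smul (g : G F) (f : Model F) : ELSF (g • f) ↔ ELSF f := by
  simp only [ELSF, G.map_smul, Model.soluble_smul]

lemma selo_image (W : WeierstrassCurve F) (C : VariableChange F) :
    selOrb_rmul C '' SelO (C • W) = SelO W := by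
  ext x
  constructor
  · rintro ⟨_, ⟨z, rfl, h1, h2, h3⟩, rfl⟩
    exact ⟨z.rmul C, rfl, h1.rmul, h2, h3⟩
  · rintro ⟨z, rfl, h1, h2, h3⟩
    refine ⟨orb (z.rmul C⁻¹), ⟨_, rfl, Obj.Over.rmul ?_, h2, h3⟩, ?_⟩
    · rwa [inv_smul_smul]
    · rw [selOrb_rmul_orb, Obj.rmul_rmul, inv_mul_cancel, Obj.rmul_one]

theorem encard_SelO_smul (W : WeierstrassCurve F) (C : VariableChange F) :
    (SelO (C • W)).encard = (SelO W).encard := by
  rw [← selo_image W C, (selOrb_rmul_inj C).encard_image]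

/-- the bound for the number of automorphisms modulo scalars -/
noncomputable def autF (W : WeierstrassCurve F) : ℕ := if NoThreeTorsion W then 1 else 9

lemma autF_le (W : WeierstrassCurve F) : autF W ≤ 9 := by
  unfold autF
  split_ifs <;> omega

lemma autF_smul (C : VariableChange F) (W : WeierstrassCurve F) : autF (C • W) = autF W := by
  simp only [autF, noThreeTorsion_smul]

variable (F) in
/-- the scalars -/
def scal : Fˣ →* G F := MonoidHom.mk' G.scalar G.scalar_mul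

lemma scal_injective : Function.Injective (scal F) := G.scalar_injective

variable (F) in
/-- the action on objects -/
noncomputable def actO : G F →* Equiv.Perm (Obj F) := MulAction.toPermHom (G F) (Obj F)

lemma actO_apply (g : G F) (z : Obj F) : actO F g z = g • z := rfl

theorem card_le_autF {W : WeierstrassCurve F} (hW : W.Δ ≠ 0) {z : Obj F} (hz : z.Over W)
    (s : Finset (G F)) (hs : ∀ g ∈ s, actO F g z = z)
    (hs' : ∀ g ∈ s, ∀ g' ∈ s, ∀ t, g' = scal F t * g → g = g') : s.card ≤ autF W := by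
  unfold autF
  split_ifs with h2
  · refine Finset.card_le_one.2 fun g hg g' hg' => ?_
    have h1 : g • z = z := hs g hg
    have h1' : g' • z = z := hs g' hg'
    obtain ⟨t, ht⟩ := aut_eq_scalar hW h2 hz (g := g' * g⁻¹) (by
      rw [mul_smul, inv_smul_eq_iff.2 h1.symm, h1'])
    refine hs' g hg g' hg' t ?_
    change g' = G.scalar t * g
    rw [← ht, inv_mul_cancel_right]
  · exact aut_card_le hW hz s hs hs'

lemma selo_bij (hK : Abhn F 3) {W : WeierstrassCurve F} (hW : W.Δ ≠ 0) :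
    Set.BijOn (fun x : Orb F => cl W x.out) (SelO W) (Sel W 3 \ {trivClass W 3}) := by
  refine ⟨?_, ?_, ?_⟩
  · rintro _ ⟨z, rfl, h1, h2, h3⟩
    simp only [selOrb_cl_out hW h1]
    exact ⟨(cl_mem_Sel_iff hW h1).2 h2, fun h => h3 ((cl_eq_triv_iff hW h1).1 h)⟩
  · rintro _ ⟨z, rfl, h1, -, -⟩ _ ⟨z', rfl, h1', -, -⟩ h
    simp only [selOrb_cl_out hW h1, selOrb_cl_out hW h1'] at h
    exact orb_eq_iff.2 (exists_smul_of_cl_eq hW h1 h1' h)
  · rintro x ⟨hx, hx'⟩
    obtain ⟨z, hz, rfl⟩ := exists_obj_of_mem_Sel hK hW hx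
    exact ⟨orb z, ⟨z, rfl, hz, (cl_mem_Sel_iff hW hz).1 hx,
      fun h => hx' ((cl_eq_triv_iff hW hz).2 h)⟩, selOrb_cl_out hW hz⟩

theorem encard_Sel_eq (hK : Abhn F 3) {W : WeierstrassCurve F} (hW : W.Δ ≠ 0) :
    (Sel W 3).encard = (SelO W).encard + 1 := by
  rw [← (selo_bij hK hW).injOn.encard_image, (selo_bij hK hW).image_eq,
    Set.encard_sdiff_singleton_add_one trivClass_mem_Sel]

theorem finite_Sel_of (hK : Abhn F 3) {W : WeierstrassCurve F} (hW : W.Δ ≠ 0)
    (h : (SelO W).Finite) : (Sel W 3).Finite ∧ (Sel W 3).ncard = (SelO W).ncard + 1 := by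
  have h1 := encard_Sel_eq hK hW
  rw [← h.cast_ncard_eq] at h1
  have h2 : (Sel W 3).Finite := Set.finite_of_encard_eq_coe (k := (SelO W).ncard + 1)
    (by rw [h1]; norm_cast)
  refine ⟨h2, ?_⟩
  rw [← h2.cast_ncard_eq] at h1
  exact_mod_cast h1

end SelAvg.FF.T3
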