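import Pool.Agent.H5T.DifA

/-!
The API of the difference map, normal forms and isomorphisms of pointed objects.
-/

namespace SelAvg.FF.T3

open WeierstrassCurve Matrix
open scoped Classical

variable {L L' : Type*} [Field L] [Field L']
variable {W : WeierstrassCurve L} {z z' : Obj L}

lemma Obj.Over.jac_Delta (hW : W.Δ ≠ 0) (hz : z.Over W) : z.f.jac.Δ ≠ 0 := by
  rw [show z.f.jac = z.γ • W from hz]
  exact (Delta_smul_ne_zero z.γ).2 hW

lemma difb1_on (g : G L) {f : Model L} {Q : Pt L} (hQ : f.On Q) : (g • f).On (g⁻¹.pt Q) :=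
  (Model.on_pt g f _).1 (by rwa [G.pt_inv_pt])

lemma difb1_std {f : Model L} {Q : Pt L} (hQ : f.On Q) {g : G L} (hg : (g.pt Pt.std).Eqv Q)
    (h2 : (g • f).a2 = 0) : (g • f).Std :=
  ⟨Model.on_std.1 ((Model.on_pt g f _).1 (hQ.eqv hg.symm)), h2⟩

lemma difb1_red_std (f : Model L) : f.red.On SelAvg.Pt.std := SelAvg.Model.on_std.2 rfl

lemma difb1_core (hW : W.Δ ≠ 0) (hz : z.Over W) (hs : z.f.Std) {h : G L}
    (hh : (h.pt Pt.std).Eqv Pt.std) (h2 : (h • z.f).a2 = 0) :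
    ∃ k : SelAvg.G L, k • z.red = (h • z).red ∧ (k.pt SelAvg.Pt.std).Eqv SelAvg.Pt.std ∧
      ∀ Q, (k.pt ((h • z.f).phi Q)).Eqv (z.f.phi (h.pt Q)) := by
  have hb : h.Bor := G.bor_of_pt hs (Model.a3_ne (hz.jac_Delta hW) hs) hh h2
  obtain ⟨k, hk⟩ := hb.exists_ind z.f
  refine ⟨k, hk.smul_obj hb hs, ?_, hk.phi hb hs⟩
  rw [hk.pt_std]
  exact SelAvg.Pt.Eqv.symm ⟨_, (hb.isUnit 1).ne_zero, rfl⟩

lemma difb1_split (hW : W.Δ ≠ 0) (hz : z.Over W) {Q : Pt L} (hQ : z.f.On Q) {g : G L}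
    (hg : (g.pt Pt.std).Eqv Q) :
    ∃ h : G L, g = h * mover z.f Q ∧ (h.pt Pt.std).Eqv Pt.std := by
  refine ⟨g * (mover z.f Q)⁻¹, by simp, ?_⟩
  have e := hg.pt (mover z.f Q)⁻¹
  rw [G.mul_pt]
  have e2 : (mover z.f Q)⁻¹.pt Q = Pt.std := by
    have := G.inv_pt_pt (mover z.f Q) Pt.std
    rwa [(mover_spec (hz.jac_Delta hW) hQ).1] at this
  rwa [e2] at e

lemma difb1_mover (hW : W.Δ ≠ 0) (hz : z.Over W) {Q : Pt L} (hQ : z.f.On Q) :
    ((mover z.f Q).pt Pt.std).Eqv Q := by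
  rw [(mover_spec (hz.jac_Delta hW) hQ).1]
  exact Pt.Eqv.refl Q

lemma difb1_map_Delta (φ : L →+* L') (hW : W.Δ ≠ 0) : (W.map φ).Δ ≠ 0 := by
  rw [map_Δ]
  exact (map_ne_zero φ).2 hW

/-- Any `g` moving `(z, Q)` to standard position computes `D`: `g * (mover z.f Q)⁻¹` is lower
triangular (`G.bor_of_pt`); use `G.Bor.exists_ind`, `G.Ind.smul_obj`, `G.Ind.phi`,
`SelAvg.D_smul`, `SelAvg.D_eqv`. -/
theorem D_eq (hW : W.Δ ≠ 0) (hz : z.Over W) {Q Q' : Pt L} (hQ : z.f.On Q) (hQ' : z.f.On Q')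
    (g : G L) (hg : (g.pt Pt.std).Eqv Q) (h2 : (g • z.f).a2 = 0) :
    D W z Q Q' = SelAvg.D W (g • z).red SelAvg.Pt.std ((g • z.f).phi (g⁻¹.pt Q')) := by
  have hs := difb1_std hQ hg h2
  obtain ⟨h, rfl, hh⟩ := difb1_split hW hz hQ hg
  have hs0 : (mover z.f Q • z).f.Std := (mover_spec (hz.jac_Delta hW) hQ).2
  have hz0 := hz.smul (mover z.f Q)
  have hon := Model.on_phi hs (difb1_on _ hQ')
  rw [mul_smul] at h2 hs hon
  obtain ⟨k, k1, k2, k3⟩ := difb1_core hW hz0 hs0 hh h2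
  have hr := (Obj.over_red hs0).2 hz0
  have o1 : (k • (mover z.f Q • z).red).f.On SelAvg.Pt.std := by
    rw [k1]; exact difb1_red_std _
  have o2 : (k • (mover z.f Q • z).red).f.On
      ((h • mover z.f Q • z.f).phi ((h * mover z.f Q)⁻¹.pt Q')) := by
    rw [k1]; exact hon
  rw [mul_smul, mul_smul, ← k1, SelAvg.D_smul hW hr k o1 o2, D]
  have e := k3 ((h * mover z.f Q)⁻¹.pt Q')
  rw [_root_.mul_inv_rev, G.mul_pt, G.pt_inv_pt] at e
  rw [_root_.mul_inv_rev, G.mul_pt] at o2 ⊢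
  exact (SelAvg.D_eqv hW hr ((SelAvg.Model.on_pt _ _ _).2 o1) ((SelAvg.Model.on_pt _ _ _).2 o2)
    k2 e).symm

theorem piP_eq (hW : W.Δ ≠ 0) (hz : z.Over W) {Q : Pt L} (hQ : z.f.On Q)
    (g : G L) (hg : (g.pt Pt.std).Eqv Q) (h2 : (g • z.f).a2 = 0) :
    piP W z Q = SelAvg.piP W (g • z).red SelAvg.Pt.std := by
  obtain ⟨h, rfl, hh⟩ := difb1_split hW hz hQ hg
  have hs0 : (mover z.f Q • z).f.Std := (mover_spec (hz.jac_Delta hW) hQ).2
  have hz0 := hz.smul (mover z.f Q)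
  rw [mul_smul] at h2
  obtain ⟨k, k1, k2, -⟩ := difb1_core hW hz0 hs0 hh h2
  have hr := (Obj.over_red hs0).2 hz0
  have o1 : (k • (mover z.f Q • z).red).f.On SelAvg.Pt.std := by
    rw [k1]; exact difb1_red_std _
  rw [mul_smul, ← k1, SelAvg.piP_smul hW hr k o1, piP]
  exact (SelAvg.piP_eqv hW hr ((SelAvg.Model.on_pt _ _ _).2 o1) k2).symm

lemma D_std (hW : W.Δ ≠ 0) (hz : z.Over W) (h : z.f.Std) {Q : Pt L} (hQ : z.f.On Q) :
    D W z Pt.std Q = SelAvg.D W z.red SelAvg.Pt.std (z.f.phi Q) := by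
  have := D_eq hW hz (Model.on_std.2 h.a) hQ 1 (by rw [G.one_pt]; exact Pt.Eqv.refl _)
    (by rw [one_smul]; exact h.a2)
  rwa [one_smul, one_smul, inv_one, G.one_pt] at this

lemma piP_std (hW : W.Δ ≠ 0) (hz : z.Over W) (h : z.f.Std) :
    piP W z Pt.std = SelAvg.piP W z.red SelAvg.Pt.std := by
  have := piP_eq hW hz (Model.on_std.2 h.a) 1 (by rw [G.one_pt]; exact Pt.Eqv.refl _)
    (by rw [one_smul]; exact h.a2)
  rwa [one_smul] at this

theorem D_smul (hW : W.Δ ≠ 0) (hz : z.Over W) (g : G L) {Q Q' : Pt L} (hQ : (g • z).f.On Q)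
    (hQ' : (g • z).f.On Q') : D W (g • z) Q Q' = D W z (g.pt Q) (g.pt Q') := by
  have hm := mover_spec ((hz.smul g).jac_Delta hW) hQ
  rw [D_eq hW hz ((Model.on_pt g z.f _).2 hQ) ((Model.on_pt g z.f _).2 hQ')
    (mover (g • z).f Q * g) (by rw [G.mul_pt, hm.1]; exact Pt.Eqv.refl _)
    (by rw [mul_smul]; exact hm.2.a2), D, mul_smul, mul_smul, _root_.mul_inv_rev, G.mul_pt,
    G.inv_pt_pt]
  rfl

theorem piP_smul (hW : W.Δ ≠ 0) (hz : z.Over W) (g : G L) {Q : Pt L} (hQ : (g • z).f.On Q) :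
    piP W (g • z) Q = piP W z (g.pt Q) := by
  have hm := mover_spec ((hz.smul g).jac_Delta hW) hQ
  rw [piP_eq hW hz ((Model.on_pt g z.f _).2 hQ)
    (mover (g • z).f Q * g) (by rw [G.mul_pt, hm.1]; exact Pt.Eqv.refl _)
    (by rw [mul_smul]; exact hm.2.a2), piP, mul_smul]

lemma D_eqv (hW : W.Δ ≠ 0) (hz : z.Over W) {Q₁ Q₁' Q₂ Q₂' : Pt L} (h₁ : z.f.On Q₁)
    (h₂ : z.f.On Q₂) (e₁ : Q₁.Eqv Q₁') (e₂ : Q₂.Eqv Q₂') : D W z Q₁ Q₂ = D W z Q₁' Q₂' := by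
  have hm := mover_spec (hz.jac_Delta hW) h₁
  rw [D_eq hW hz (h₁.eqv e₁) (h₂.eqv e₂) (mover z.f Q₁) (by rw [hm.1]; exact e₁) hm.2.a2, D]
  exact SelAvg.D_eqv hW ((Obj.over_red (z := mover z.f Q₁ • z) hm.2).2 (hz.smul _))
    (difb1_red_std _) (Model.on_phi hm.2 (difb1_on _ h₂)) (SelAvg.Pt.Eqv.refl _)
    (Model.phi_eqv _ (e₂.pt _))

lemma piP_eqv (hW : W.Δ ≠ 0) (hz : z.Over W) {Q Q' : Pt L} (h : z.f.On Q) (e : Q.Eqv Q') :
    piP W z Q = piP W z Q' := by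
  have hm := mover_spec (hz.jac_Delta hW) h
  rw [piP_eq hW hz (h.eqv e) (mover z.f Q) (by rw [hm.1]; exact e) hm.2.a2, piP]

lemma D_eq_zero_iff (hW : W.Δ ≠ 0) (hz : z.Over W) {Q Q' : Pt L} (hQ : z.f.On Q)
    (hQ' : z.f.On Q') : D W z Q Q' = 0 ↔ Q.Eqv Q' := by
  have hm := mover_spec (hz.jac_Delta hW) hQ
  have hΔ := (hz.smul (mover z.f Q)).jac_Delta hW
  have ho := difb1_on (mover z.f Q) hQ'
  rw [D, Obj.smul_f, SelAvg.D_eq_zero_iff hW ((Obj.over_red (z := mover z.f Q • z) hm.2).2 (hz.smul _))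
    (difb1_red_std _) (Model.on_phi hm.2 ho)]
  constructor
  · intro e
    rw [← Model.phi_std (mover z.f Q • z.f)] at e
    have := (Model.phi_injective hm.2 (Model.a3_ne hΔ hm.2) (Model.b1_or_b hΔ hm.2)
      (Model.on_std.2 hm.2.a) ho e).pt (mover z.f Q)
    rwa [hm.1, G.pt_inv_pt] at this
  · intro e
    have e1 := e.pt (mover z.f Q)⁻¹
    have e2 : (mover z.f Q)⁻¹.pt Q = Pt.std := by
      have := G.inv_pt_pt (mover z.f Q) Pt.std
      rwa [hm.1] at this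
    rw [e2] at e1
    have := Model.phi_eqv (mover z.f Q • z.f) e1
    rwa [Model.phi_std] at this

lemma D_self (hW : W.Δ ≠ 0) (hz : z.Over W) {Q : Pt L} (hQ : z.f.On Q) : D W z Q Q = 0 :=
  (D_eq_zero_iff hW hz hQ hQ).2 (Pt.Eqv.refl Q)

lemma piP_std_eq_zero_iff (hW : W.Δ ≠ 0) (hz : z.Over W) (h : z.f.Std) :
    piP W z Pt.std = 0 ↔ z.f.b1 = 0 := by
  rw [piP_std hW hz h, SelAvg.piP_eq_zero_iff hW ((Obj.over_red h).2 hz) (difb1_red_std _)]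
  simp [Obj.red_f, SelAvg.Model.psi, SelAvg.Model.q]

theorem triv_iff (hW : W.Δ ≠ 0) (hz : z.Over W) :
    z.f.Triv ↔ ∃ Q, z.f.On Q ∧ piP W z Q = 0 := by
  constructor
  · rintro ⟨g, hs, hb⟩
    have ho : (g • z).f.On Pt.std := Model.on_std.2 hs.a
    refine ⟨g.pt Pt.std, (Model.on_pt g z.f _).2 ho, ?_⟩
    rw [← piP_smul hW hz g ho]
    exact (piP_std_eq_zero_iff hW (hz.smul g) hs).2 hb
  · rintro ⟨Q, hQ, h0⟩
    have hm := mover_spec (hz.jac_Delta hW) hQ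
    refine ⟨mover z.f Q, hm.2, (piP_std_eq_zero_iff hW (hz.smul _) hm.2).1 ?_⟩
    rw [piP_smul hW hz _ (Model.on_std.2 hm.2.a), hm.1, h0]

theorem toRaw_D_map (φ : L →+* L') (hW : W.Δ ≠ 0) (hz : z.Over W) {Q Q' : Pt L} (hQ : z.f.On Q)
    (hQ' : z.f.On Q') :
    toRaw (D (W.map φ) (z.map φ) (Q.map φ) (Q'.map φ)) = rawMap φ (toRaw (D W z Q Q')) := by
  have hm := mover_spec (hz.jac_Delta hW) hQ
  have h1 : ((G.map φ (mover z.f Q)).pt Pt.std).Eqv (Q.map φ) := by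
    rw [← Pt.map_std φ, G.map_pt, hm.1]; exact Pt.Eqv.refl _
  have h2 : (G.map φ (mover z.f Q) • (z.map φ).f).a2 = 0 := by
    rw [Obj.map_f, ← G.map_smul]; exact (hm.2.map φ).a2
  rw [D_eq (difb1_map_Delta φ hW) (hz.map φ) ((Model.on_map φ _ _).2 hQ)
    ((Model.on_map φ _ _).2 hQ') _ h1 h2, D, Obj.smul_f,
    ← SelAvg.toRaw_D_map φ hW ((Obj.over_red (z := mover z.f Q • z) hm.2).2 (hz.smul _))
      (difb1_red_std _) (Model.on_phi hm.2 (difb1_on _ hQ')),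
    ← Obj.map_smul, Obj.red_map, Obj.map_f, ← G.map_smul, ← map_inv, G.map_pt, Model.phi_map,
    SelAvg.Pt.map_std]

theorem toRaw_piP_map (φ : L →+* L') (hW : W.Δ ≠ 0) (hz : z.Over W) {Q : Pt L} (hQ : z.f.On Q) :
    toRaw (piP (W.map φ) (z.map φ) (Q.map φ)) = rawMap φ (toRaw (piP W z Q)) := by
  have hm := mover_spec (hz.jac_Delta hW) hQ
  have h1 : ((G.map φ (mover z.f Q)).pt Pt.std).Eqv (Q.map φ) := by
    rw [← Pt.map_std φ, G.map_pt, hm.1]; exact Pt.Eqv.refl _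
  have h2 : (G.map φ (mover z.f Q) • (z.map φ).f).a2 = 0 := by
    rw [Obj.map_f, ← G.map_smul]; exact (hm.2.map φ).a2
  rw [piP_eq (difb1_map_Delta φ hW) (hz.map φ) ((Model.on_map φ _ _).2 hQ) _ h1 h2, piP,
    ← SelAvg.toRaw_piP_map φ hW ((Obj.over_red (z := mover z.f Q • z) hm.2).2 (hz.smul _))
      (difb1_red_std _),
    ← Obj.map_smul, Obj.red_map, SelAvg.Pt.map_std]

theorem toRaw_D_rmul (C : VariableChange L) (hW : W.Δ ≠ 0) (hz : z.Over (C • W)) {Q Q' : Pt L}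
    (hQ : z.f.On Q) (hQ' : z.f.On Q') :
    toRaw (D W (z.rmul C) Q Q') = vcRaw C (toRaw (D (C • W) z Q Q')) := by
  have hm := mover_spec (hz.jac_Delta ((Delta_smul_ne_zero C).2 hW)) hQ
  rw [D, D, Obj.smul_rmul, Obj.red_rmul]
  exact SelAvg.toRaw_D_rmul C hW ((Obj.over_red (z := mover z.f Q • z) hm.2).2 (hz.smul _))
    (difb1_red_std _) (Model.on_phi hm.2 (difb1_on _ hQ'))

/-- the data of the standard position attached to a point -/
lemma difb2_std (hW : W.Δ ≠ 0) (hz : z.Over W) {Q : Pt L} (hQ : z.f.On Q) :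
    (mover z.f Q).pt Pt.std = Q ∧ (mover z.f Q • z).f.Std ∧ (mover z.f Q • z).f.a3 ≠ 0 ∧
      (mover z.f Q • z).red.Over W ∧ (mover z.f Q • z).red.f.On SelAvg.Pt.std := by
  obtain ⟨h1, h2⟩ := mover_spec (hz.jac_Delta hW) hQ
  have h3 := hz.smul (mover z.f Q)
  exact ⟨h1, h2, Model.a3_ne (h3.jac_Delta hW) h2, (Obj.over_red h2).2 h3,
    SelAvg.Model.on_std.2 rfl⟩

lemma difb2_on (g : G L) {Q : Pt L} (hQ : z.f.On Q) : (g • z).f.On (g⁻¹.pt Q) := by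
  rw [Obj.smul_f, ← Model.on_pt, G.pt_inv_pt]
  exact hQ

theorem D_injective (hW : W.Δ ≠ 0) (hz : z.Over W) {Q Q' Q'' : Pt L} (hQ : z.f.On Q)
    (hQ' : z.f.On Q') (hQ'' : z.f.On Q'') (h : D W z Q Q' = D W z Q Q'') : Q'.Eqv Q'' := by
  obtain ⟨-, h2, h3, h4, h5⟩ := difb2_std hW hz hQ
  have o1 := difb2_on (mover z.f Q) hQ'
  have o2 := difb2_on (mover z.f Q) hQ''
  have e := SelAvg.D_injective hW h4 h5 (Model.on_phi h2 o1) (Model.on_phi h2 o2) h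
  have e2 := (Model.phi_injective h2 h3
    (Model.b1_or_b ((hz.smul (mover z.f Q)).jac_Delta hW) h2) o1 o2 e).pt (mover z.f Q)
  rwa [G.pt_inv_pt, G.pt_inv_pt] at e2

theorem D_surjective (hW : W.Δ ≠ 0) (hz : z.Over W) {Q : Pt L} (hQ : z.f.On Q)
    (P : W.toAffine.Point) : ∃ Q', z.f.On Q' ∧ D W z Q Q' = P := by
  obtain ⟨-, h2, h3, h4, h5⟩ := difb2_std hW hz hQ
  obtain ⟨P', hP', e⟩ := SelAvg.D_surjective hW h4 h5 P
  obtain ⟨R, hR, eR⟩ := Model.phi_surjective h2 h3 hP'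
  refine ⟨(mover z.f Q).pt R, (Model.on_pt _ _ _).2 hR, ?_⟩
  rw [D, G.inv_pt_pt, ← e]
  exact SelAvg.D_eqv hW h4 h5 (Model.on_phi h2 hR) (SelAvg.Pt.Eqv.refl _) eR

/-- the normal form attached to a raw point -/
def zP (W : WeierstrassCurve L) (p : Option (L × L)) : Obj L := Obj.unred (SelAvg.zP W p)

lemma zP_std (W : WeierstrassCurve L) (p : Option (L × L)) : (zP W p).f.Std := Model.unred_std _

lemma zP_a (W : WeierstrassCurve L) (p : Option (L × L)) : (zP W p).f.a = 0 := rfl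

lemma zP_over {W : WeierstrassCurve L} {p : Option (L × L)} (hp : Valid W p) :
    (zP W p).Over W :=
  (Obj.over_unred (SelAvg.zP_a W p)).2 (SelAvg.zP_over hp)

lemma zP_map (φ : L →+* L') (W : WeierstrassCurve L) (p : Option (L × L)) :
    (zP W p).map φ = zP (W.map φ) (rawMap φ p) := by
  rw [zP, zP, ← SelAvg.zP_map, Obj.unred_map]

lemma zP_u (W : WeierstrassCurve L) (p : Option (L × L)) : (zP W p).γ.u = 1 := by
  cases p <;> rfl

lemma piP_zP (hW : W.Δ ≠ 0) (P : W.toAffine.Point) : piP W (zP W (toRaw P)) Pt.std = P := by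
  rw [piP_std hW (zP_over (valid_toRaw P)) (zP_std _ _), zP, Obj.red_unred (SelAvg.zP_a _ _)]
  exact SelAvg.piP_zP hW P

/-- Move both points to standard position, apply `SelAvg.exists_iso` to the projections and lift
by `exists_bor_of_red`. -/
theorem exists_iso (hW : W.Δ ≠ 0) (hz : z.Over W) (hz' : z'.Over W) {Q Q' : Pt L}
    (hQ : z.f.On Q) (hQ' : z'.f.On Q') (h : piP W z Q = piP W z' Q') :
    ∃ g : G L, g • z' = z ∧ (g.pt Q).Eqv Q' := by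
  obtain ⟨h1, h2, h3, h4, h5⟩ := difb2_std hW hz hQ
  obtain ⟨h1', h2', h3', h4', h5'⟩ := difb2_std hW hz' hQ'
  obtain ⟨k, hk, t, ht, e⟩ := SelAvg.exists_iso hW h4 h4' h5 h5' h
  rw [SelAvg.G.pt_std] at e
  have e12 : (0 : L) = t * k.m12 := congrArg SelAvg.Pt.z e
  have e0 : (0 : L) = t ^ 2 * k.r0 := congrArg SelAvg.Pt.y e
  obtain ⟨g, hg, -, hgz⟩ := exists_bor_of_red h2 h2' h3.isUnit h3'.isUnit
    ((mul_eq_zero.1 e12.symm).resolve_left ht)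
    ((mul_eq_zero.1 e0.symm).resolve_left (pow_ne_zero 2 ht)) hk
  refine ⟨(mover z.f Q)⁻¹ * g * mover z'.f Q', ?_, ?_⟩
  · rw [mul_smul, mul_smul, hgz, inv_smul_smul]
  · have h6 : (mover z.f Q)⁻¹.pt Q = Pt.std := by
      have := G.inv_pt_pt (mover z.f Q) Pt.std
      rwa [h1] at this
    have h7 := hg.eqv_std.pt (mover z'.f Q')
    rw [h1'] at h7
    rw [G.mul_pt, G.mul_pt, h6]
    exact h7

/-- an automorphism fixing the standard point of a cubic in standard position is a scalar -/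
lemma difb2_scalar (hW : W.Δ ≠ 0) (hz : z.Over W) (h2 : z.f.Std) {g : G L} (hg : g • z = z)
    (hpt : (g.pt Pt.std).Eqv Pt.std) : ∃ t : Lˣ, g = G.scalar t := by
  have h3 := Model.a3_ne (hz.jac_Delta hW) h2
  have hf : g • z.f = z.f := congrArg Obj.f hg
  have hB : g.Bor := G.bor_of_pt h2 h3 hpt (by rw [hf]; exact h2.a2)
  obtain ⟨k, hk⟩ := hB.exists_ind z.f
  have hkz : k • z.red = z.red := by rw [G.Ind.smul_obj hB h2 hk, hg]
  have hkp : (k.pt SelAvg.Pt.std).Eqv SelAvg.Pt.std :=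
    SelAvg.Pt.Eqv.symm ⟨g.e 1 1, (hB.isUnit 1).ne_zero, hk.pt_std⟩
  obtain ⟨t, rfl⟩ := SelAvg.eq_scalar_of_fix hW ((Obj.over_red h2).2 hz)
    (SelAvg.Model.on_std.2 rfl) hkz hkp
  have e11 : g.e 1 1 = t := by rw [← hk.m11, SelAvg.G.scalar_m11]
  have e21 : g.e 2 1 = 0 := by rw [← hk.m21, SelAvg.G.scalar_m21]
  have e22 : g.e 2 2 = t := by rw [← hk.m22, SelAvg.G.scalar_m22]
  have ht : (t : L) ≠ 0 := t.ne_zero
  have e10 : g.e 1 0 = 0 := by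
    have := hk.r1
    rw [SelAvg.G.scalar_r1, e22] at this
    exact (mul_eq_zero.1 this.symm).resolve_left (mul_ne_zero h3 ht)
  have e20 : g.e 2 0 = 0 := by
    have := hk.r2
    rw [SelAvg.G.scalar_r2, e22] at this
    exact (mul_eq_zero.1 this.symm).resolve_left (mul_ne_zero h3 ht)
  have eμ : (t : L) ^ 2 * g.e 0 0 = g.μ := by
    have := hk.μ
    rwa [SelAvg.G.scalar_μ, Units.val_pow_eq_pow_val] at this
  have e00 : g.e 0 0 = t := by
    have h4 := hB.a3 h2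
    rw [hf, e22, ← eμ] at h4
    have h0 : g.e 0 0 ≠ 0 := (hB.isUnit 0).ne_zero
    have h5 : (g.e 0 0 * t * z.f.a3) * (g.e 0 0 - t) = 0 := by linear_combination -h4
    exact sub_eq_zero.1
      ((mul_eq_zero.1 h5).resolve_left (mul_ne_zero (mul_ne_zero h0 ht) h3))
  refine ⟨t, G.ext (Units.ext ?_) (Units.ext ?_)⟩
  · rw [G.scalar_M, G.scM_val]
    have e01 := hB.e01
    have e02 := hB.e02
    have e12 := hB.e12
    ext i j
    fin_cases i <;> fin_cases j <;> simp <;> assumption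
  · rw [G.scalar_μ, Units.val_pow_eq_pow_val, ← eμ, e00]
    ring

/-- In standard position `g` is lower triangular and the induced element is a scalar `t`
(`SelAvg.eq_scalar_of_fix`); then `r1 = r2 = 0` give `e 1 0 = e 2 0 = 0`, and `G.Bor.a3` with
`t ^ 2 * e 0 0 = μ` gives `e 0 0 = t`. -/
theorem eq_scalar_of_fix (hW : W.Δ ≠ 0) (hz : z.Over W) {Q : Pt L} (hQ : z.f.On Q) {g : G L}
    (hg : g • z = z) (hgQ : (g.pt Q).Eqv Q) : ∃ t : Lˣ, g = G.scalar t := by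
  obtain ⟨h1, h2, -⟩ := difb2_std hW hz hQ
  have hg1 : (mover z.f Q * g * (mover z.f Q)⁻¹) • (mover z.f Q • z) = mover z.f Q • z := by
    rw [mul_smul, inv_smul_smul, mul_smul, hg]
  have hpt : ((mover z.f Q * g * (mover z.f Q)⁻¹).pt Pt.std).Eqv Pt.std := by
    rw [G.mul_pt, G.mul_pt, h1]
    have h3 : (mover z.f Q)⁻¹.pt Q = Pt.std := by
      have := G.inv_pt_pt (mover z.f Q) Pt.std
      rwa [h1] at this
    have h4 := hgQ.pt (mover z.f Q)⁻¹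
    rwa [h3] at h4
  obtain ⟨t, ht⟩ := difb2_scalar hW (hz.smul _) h2 hg1 hpt
  refine ⟨t, ?_⟩
  have h4 : mover z.f Q * g = mover z.f Q * G.scalar t := by
    rw [← G.scalar_comm, ← ht, inv_mul_cancel_right]
  exact mul_left_cancel h4

theorem iso_unique (hW : W.Δ ≠ 0) (hz : z.Over W) {Q : Pt L} {g g' : G L}
    (hQ : (g • z).f.On Q) (hg : g • z = g' • z) (hgQ : (g.pt Q).Eqv (g'.pt Q)) :
    ∃ t : Lˣ, g' = G.scalar t * g := by
  have h1 : (g' * g⁻¹) • (g • z) = g • z := by rw [mul_smul, inv_smul_smul, hg]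
  have h2 : ((g' * g⁻¹).pt Q).Eqv Q := by
    rw [G.mul_pt]
    have := hgQ.symm.pt g⁻¹
    rwa [G.inv_pt_pt] at this
  obtain ⟨t, ht⟩ := eq_scalar_of_fix hW (hz.smul g) hQ h1 h2
  exact ⟨t, by rw [← ht, inv_mul_cancel_right]⟩

end SelAvg.FF.T3
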