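import Pool.Agent.H5T.Glob0

/-! The torsors over a bundle of rank three. -/

namespace SelAvg.FF.T3

open WeierstrassCurve WithZero Filter Topology Matrix
open scoped Classical ENNReal

variable {F : Type} [Field F] [Cv F]

/-- the mass of a fibre -/
noncomputable def fibM (_D : Div F) : ℝ := 1 / ww F

lemma fibM_pos (D : Div F) : 0 < fibM D := one_div_pos.2 (Nat.cast_pos.2 ww_pos)

omit [Cv F] in
lemma fib_mu (g : G (A F)) : idiv (RC.mk (KG F) g).out.μ = idiv g.μ := by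
  obtain ⟨k, hk, h⟩ := RC.out_mk (K := KG F) g
  rw [h, G.mul_μ, idiv_mul, (mem_KG.1 hk).2, zero_add]

omit [Cv F] in
/-- a torsor is determined by its bundle and a divisor -/
lemma mkG_eq_iff {g g' : G (A F)} : RC.mk (KG F) g = RC.mk (KG F) g' ↔
    RC.mk (K3 F) g.M = RC.mk (K3 F) g'.M ∧ idiv g.μ = idiv g'.μ := by
  constructor
  · intro h
    exact ⟨by rw [← pM_mk, h, pM_mk], by rw [← fib_mu, h, fib_mu]⟩
  · rintro ⟨h1, h2⟩
    obtain ⟨k, hk, e⟩ := RC.mk_eq.1 h1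
    refine RC.mk_eq.2 ⟨⟨k, g'.μ * g.μ⁻¹⟩, mem_KG.2 ⟨hk, ?_⟩, G.ext e (by simp)⟩
    change idiv (g'.μ * g.μ⁻¹) = 0
    rw [idiv_mul, idiv_inv, h2, add_neg_cancel]

theorem exists_rhoG {ρ₂ : X3 F → ℝ≥0∞} (h₂ : IsBru (act3 F) ρ₂) : ∃ ρ, IsBru (actG F) ρ ∧
    ∀ (D : Div F) (y : X3 F), ∑' x, (if x ∈ XD D ∧ pM x = y then ρ x else 0) =
      ρ₂ y * ENNReal.ofReal (fibM D) := by
  obtain ⟨β, hβ⟩ := exists_bruD (F := F)
  refine ⟨fun x => ρ₂ (pM x) * β (-idiv x.out.μ), fun x => ?_, fun D y => ?_⟩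
  · let e : GL (Fin 3) F × Fˣ ≃ G F :=
      ⟨fun p => ⟨p.1, p.2⟩, fun g => (g.M, g.μ), fun _ => rfl, fun _ => rfl⟩
    have h1 : ∀ g : G F, -idiv (actG F g x).out.μ = actD F g.μ (-idiv x.out.μ) := fun g => by
      obtain ⟨x, rfl⟩ := x.mk_surj
      rw [actG_mk, fib_mu, fib_mu, actD_apply, G.mul_μ, G.inv_μ, idiv_mul, idiv_inv, G.map_μ,
        idiv_uA]
      abel
    simp only [pM_act, h1]
    rw [← e.tsum_eq, ENNReal.tsum_prod']
    change ∑' γ, ∑' u, ρ₂ (act3 F γ (pM x)) * β (actD F u (-idiv x.out.μ)) = 1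
    simp only [ENNReal.tsum_mul_left, hβ _, mul_one, h₂ _]
  obtain ⟨M, rfl⟩ := y.mk_surj
  have hi : Function.Injective fun E : Div F => RC.mk (KG F) ⟨M, piD (-E)⟩ := fun E E' h => by
    have h1 : idiv (piD (-E)) = idiv (piD (-E')) := (mkG_eq_iff.1 h).2
    rwa [idiv_piD, idiv_piD, neg_inj] at h1
  rw [← hi.tsum_eq fun x hx => ?_, fibM, one_div, ENNReal.ofReal_inv_of_pos (Nat.cast_pos.2 ww_pos),
    ENNReal.ofReal_natCast, ← class_mass hβ (D - idiv (GeneralLinearGroup.det M)),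
    ← ENNReal.tsum_mul_left]
  · refine tsum_congr fun E => ?_
    have h3 : RC.mk (KG F) ⟨M, piD (-E)⟩ ∈ XD D ↔
        ∃ u : Fˣ, E = D - idiv (GeneralLinearGroup.det M) + dv (u : F) := by
      rw [mk_mem_XD]
      refine exists_congr fun u => ?_
      change idiv (GeneralLinearGroup.det M) - idiv (piD (-E)) = _ ↔ _
      rw [idiv_piD, sub_neg_eq_add, ← eq_sub_iff_add_eq']
      exact Eq.congr_right (by abel)
    simp only [pM_mk, fib_mu, idiv_piD, neg_neg, and_true, h3, mul_ite, mul_zero]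
  · have h1 : pM x = RC.mk (K3 F) M := by
      by_contra h
      exact hx (if_neg fun h' => h h'.2)
    refine ⟨-idiv x.out.μ, (mkG_eq_iff.2 ⟨h1.symm, ?_⟩).trans x.mk_out⟩
    change idiv (piD (- -idiv x.out.μ)) = _
    rw [idiv_piD, neg_neg]

lemma fib_eq {ρ₂ : X3 F → ℝ≥0∞} {ρ : XG F → ℝ≥0∞} {D : Div F}
    (h : ∀ y : X3 F, ∑' x, (if x ∈ XD D ∧ pM x = y then ρ x else 0) =
      ρ₂ y * ENNReal.ofReal (fibM D)) (u : X3 F → ℝ≥0∞) :
    ∑' x, ρ x * (if x ∈ XD D then u (pM x) else 0) =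
      ENNReal.ofReal (fibM D) * ∑' y, ρ₂ y * u y := by
  have h1 : ∀ x, ρ x * (if x ∈ XD D then u (pM x) else 0) =
      ∑' y, (if x ∈ XD D ∧ pM x = y then ρ x else 0) * u y := fun x => by
    rw [tsum_eq_single (pM x) fun y hy => by rw [if_neg fun h => hy h.2.symm, zero_mul]]
    by_cases hx : x ∈ XD D <;> simp [hx]
  rw [tsum_congr h1, ENNReal.tsum_comm, ← ENNReal.tsum_mul_left]
  refine tsum_congr fun y => ?_
  rw [ENNReal.tsum_mul_right, h]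
  ring

variable {ρ₂ : X3 F → ℝ≥0∞} {ρ : XG F → ℝ≥0∞} {D : Div F}

theorem fibre_le (h : ∀ y : X3 F, ∑' x, (if x ∈ XD D ∧ pM x = y then ρ x else 0) =
      ρ₂ y * ENNReal.ofReal (fibM D)) (Ψ : XG F → ℝ≥0∞) (u : X3 F → ℝ≥0∞)
    (hu : ∀ x ∈ XD D, Ψ x ≤ u (pM x)) :
    ∑' x, ρ x * (if x ∈ XD D then Ψ x else 0) ≤ ENNReal.ofReal (fibM D) * ∑' y, ρ₂ y * u y := by
  rw [← fib_eq h]
  refine ENNReal.tsum_le_tsum fun x => mul_le_mul_right ?_ _
  split_ifs with hx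
  exacts [hu x hx, le_rfl]

theorem le_fibre (h : ∀ y : X3 F, ∑' x, (if x ∈ XD D ∧ pM x = y then ρ x else 0) =
      ρ₂ y * ENNReal.ofReal (fibM D)) (Ψ : XG F → ℝ≥0∞) (u : X3 F → ℝ≥0∞)
    (hu : ∀ x ∈ XD D, u (pM x) ≤ Ψ x) :
    ENNReal.ofReal (fibM D) * ∑' y, ρ₂ y * u y ≤ ∑' x, ρ x * (if x ∈ XD D then Ψ x else 0) := by
  rw [← fib_eq h]
  refine ENNReal.tsum_le_tsum fun x => mul_le_mul_right ?_ _
  split_ifs with hx
  exacts [hu x hx, le_rfl]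

end SelAvg.FF.T3
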