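import Pool.Agent.H5T.Gt
import Pool.Agent.H5T.Glob1
import Pool.Agent.H81Sel.Orb

/-! The orbit over a fixed bundle of rank three and its family of lattices. -/

namespace SelAvg.FF.T3

open WeierstrassCurve WithZero Filter Topology Matrix
open scoped Classical ENNReal

section Lin

variable {R : Type} [CommRing R]

omit [CommRing R] in
lemma orb_toM (x : Fin 10 → R) :
    toM x = ⟨x 0, x 1, x 2, x 3, x 4, x 5, x 6, x 7, x 8, x 9⟩ := rfl

lemma orb_add (f f' : Model R) : Model.equivVec f + Model.equivVec f' = Model.equivVec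
    ⟨f.a + f'.a, f.b + f'.b, f.c + f'.c, f.a2 + f'.a2, f.a3 + f'.a3, f.b1 + f'.b1, f.b3 + f'.b3,
      f.c1 + f'.c1, f.c2 + f'.c2, f.m + f'.m⟩ := by
  funext i
  fin_cases i <;> rfl

lemma orb_smul (a : R) (f : Model R) : a • Model.equivVec f = Model.equivVec (f.scale a) := by
  funext i
  fin_cases i <;> rfl

lemma lin_add (g : G R) (x y : Fin 10 → R) :
    Model.equivVec (g • toM (x + y)) = Model.equivVec (g • toM x) + Model.equivVec (g • toM y) := by
  rw [orb_add]
  congr 1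
  ext <;> simp only [G.smul_def, orb_toM, Model.subst, Model.scale, Model.tri, Model.pol, Model.F,
    Model.Fx, Model.Fy, Model.Fz, Pi.add_apply] <;> ring

lemma lin_smul (g : G R) (a : R) (x : Fin 10 → R) :
    Model.equivVec (g • toM (a • x)) = a • Model.equivVec (g • toM x) := by
  have e : toM (a • x) = (toM x).scale a := rfl
  rw [orb_smul, e]
  simp only [G.smul_def, Model.subst_scale, Model.scale_scale, mul_comm]

/-- the action on coefficient vectors -/
noncomputable def linG (g : G R) : (Fin 10 → R) ≃ₗ[R] (Fin 10 → R) where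
  toFun x := Model.equivVec (g • toM x)
  invFun x := Model.equivVec (g⁻¹ • toM x)
  map_add' := lin_add g
  map_smul' := lin_smul g
  left_inv x := by simp [toM]
  right_inv x := by simp [toM]

lemma linG_apply (g : G R) (x : Fin 10 → R) : linG g x = Model.equivVec (g • toM x) := rfl

end Lin

variable {F : Type} [Field F]

lemma orb_wdg (u : (A F)ˣ) (a : Fin 10 → A F) : wdg kV u a = (u : A F) • a := by
  funext i
  rw [wdg_apply]
  exact congrArg (· * a i) (pow_one _)

lemma linG_comm (g : G (A F)) (u : (A F)ˣ) (a : Fin 10 → A F) :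
    linG g (wdg kV u a) = wdg kV u (linG g a) := by
  rw [orb_wdg, orb_wdg, map_smul]

/-- the family of lattices of models -/
noncomputable def LV (M : GL (Fin 3) (A F)) (R : Div F) : Lat F 10 :=
  ⟨kV, kV_pos, linG ⟨M, piD (idiv (GeneralLinearGroup.det M) - R)⟩, linG_comm _⟩

variable [Cv F]

/-- the torsor with given matrix and given line bundle -/
noncomputable def gm (M : GL (Fin 3) (A F)) (R : Div F) (m : ℕ) : G (A F) :=
  ⟨M, piD (idiv (GeneralLinearGroup.det M) - (R + m • PP F))⟩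

lemma cls_gm (M : GL (Fin 3) (A F)) (R : Div F) (m : ℕ) : cls (gm M R m) = R + m • PP F := by
  change idiv (GeneralLinearGroup.det M) - idiv (piD _) = _
  rw [idiv_piD, sub_sub_cancel]

theorem exists_gm (M : GL (Fin 3) (A F)) (R : Div F) (m : ℕ) :
    ∀ x ∈ XD (R + m • PP F), pM x = RC.mk (K3 F) M →
      ∃ γ : G F, actG F γ x = RC.mk (KG F) (gm M R m) := by
  intro x hx hM
  obtain ⟨g, rfl⟩ := x.mk_surj
  obtain ⟨u, hu⟩ := mk_mem_XD.1 hx
  rw [pM_mk] at hM
  obtain ⟨k, hk, e⟩ := RC.mk_eq.1 hM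
  have h1 : idiv (GeneralLinearGroup.det M) = idiv g.det := by
    rw [e, map_mul, idiv_mul, (mem_K3.1 hk).2, zero_add]
    rfl
  refine ⟨(G.ofMu u)⁻¹, ?_⟩
  rw [actG_mk, map_inv, inv_inv]
  refine RC.mk_eq.2 ⟨⟨k, (gm M R m).μ * (g.μ * uA u)⁻¹⟩, mem_KG.2 ⟨hk, ?_⟩, G.ext ?_ ?_⟩
  · change idiv (piD _ * (g.μ * uA u)⁻¹) = 0
    rw [idiv_mul, idiv_inv, idiv_mul, idiv_piD, idiv_uA, h1, ← sub_eq_iff_eq_add.2 hu, cls]
    abel
  · change M = k * (g.M * GeneralLinearGroup.map (toA F) 1)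
    rw [map_one, mul_one, e]
  · exact (inv_mul_cancel_right _ _).symm

theorem card_VB_gm (M : GL (Fin 3) (A F)) (R : Div F) : ∀ᶠ m : ℕ in atTop,
    ((VB (gm M R m)).card : ℝ) = qq F ^ (10 * deg (R + m • PP F) + 10 * cc F) := by
  obtain ⟨k₀, hk₀, B, C, Z, η₁, η₂, η₃, e⟩ := exists_tri3 M
  filter_upwards [orb_ev (F := F) (c0 F + 2 * |deg B| + 2 * |deg C| + 2 * |deg Z| + |deg R|)]
    with m hm
  obtain ⟨k, hk, E, h⟩ := exists_gt' (g := gm M R m) (RC.mk_eq.2 ⟨k₀, hk₀, e⟩).symm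
  have hc : B + C + Z - E = R + m • PP F := by rw [← cls_gm M R m, h, cls_K hk, cls_gt]
  have hE : deg E = deg B + deg C + deg Z - deg R - deg (m • PP F) := by
    have h1 := congrArg deg hc
    simp only [map_sub, map_add] at h1
    omega
  have hB := abs_le.1 (le_refl |deg B|)
  have hC := abs_le.1 (le_refl |deg C|)
  have hZ := abs_le.1 (le_refl |deg Z|)
  have hR := abs_le.1 (le_refl |deg R|)
  rw [h, VB_K hk, card_VB_gt, hc]
  intro i
  generalize m • PP F = T at hm hE
  fin_cases i <;>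
    simp only [DV, Fin.reduceFinMk, Fin.zero_eta, Fin.mk_one, Fin.isValue, cons_val, cons_val_zero,
      cons_val_one, map_sub, map_add, map_nsmul, nsmul_eq_mul, Nat.cast_ofNat, hE] <;>
    linarith [hB.1, hB.2, hC.1, hC.2, hZ.1, hZ.2, hR.1, hR.2]

lemma LV_tw (M : GL (Fin 3) (A F)) (R : Div F) (m : ℕ) (x : Fin 10 → F) :
    (LV M R).tw m (dlg x) = Model.equivVec (gm M R m • (toM x).map (toA F)) := by
  have e : piD (idiv (GeneralLinearGroup.det M) - (R + m • PP F)) =
      (piD (m • PP F))⁻¹ * piD (idiv (GeneralLinearGroup.det M) - R) := by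
    rw [← piD_neg, ← piD_add]; congr 1; abel
  change wdg kV (piD (m • PP F))
    (linG ⟨M, piD (idiv (GeneralLinearGroup.det M) - R)⟩ (dlg x)) = _
  rw [linG_apply, orb_wdg, orb_smul]
  simp only [gm, G.smul_def, Model.scale_scale, e, mul_inv, inv_inv, Units.val_mul]
  rfl

lemma mem_LV_box {M : GL (Fin 3) (A F)} {R : Div F} {m : ℕ} {x : Fin 10 → F} :
    x ∈ (LV M R).box m ↔ IntM (gm M R m) (toM x) := by
  rw [Lat.box, mem_hbox, LV_tw, intM_iff]

lemma LV_loc (M : GL (Fin 3) (A F)) (R : Div F) (m : ℕ) (v : Place F) (x : Fin 10 → F) :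
    toM ((LV M R).loc m v x) = locM v (gm M R m) (toM x) := by
  unfold Lat.loc locM
  rw [LV_tw]

lemma avg_VB_gm (M : GL (Fin 3) (A F)) (R : Div F) (m : ℕ) (h : Model F → ℝ) :
    avg (VB (gm M R m)) h = avg ((LV M R).box m) fun x => h (toM x) := by
  have e : VB (gm M R m) = ((LV M R).box m).map Model.equivVec.symm.toEmbedding := by
    ext f
    rw [Finset.mem_map_equiv, mem_LV_box, mem_VB, Equiv.symm_symm, toM, Equiv.symm_apply_apply]
  rw [e, avg, avg, Finset.sum_map, Finset.card_map]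
  rfl

end SelAvg.FF.T3
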