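import Pool.Agent.H5T.Sum0
import Pool.Agent.H5T.Orb
import Pool.Agent.H81Sel.Sum1

/-! Dominated convergence over the bundles of rank three. -/

namespace SelAvg.FF.T3

open WeierstrassCurve WithZero Filter Topology Matrix
open scoped Classical ENNReal

variable {F : Type} [Field F] [Cv F]

/-- `card_GB`, `card_WB` -/
lemma norm_const {D : Div F} (hD : (c0 F : ℤ) ≤ deg D) :
    ((GB D).card : ℝ) * fibM D * qq F ^ (10 * deg D + 10 * cc F) =
      qq F ^ (8 * cc F) * (WB D).card := by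
  have hq : qq F ≠ 0 := (zero_lt_one.trans one_lt_qq).ne'
  have hw : (ww F : ℝ) ≠ 0 := Nat.cast_ne_zero.2 ww_pos.ne'
  rw [card_GB hD, card_WB hD, fibM, mul_one_div, mul_div_cancel_left₀ _ hw,
    ← zpow_add₀ hq, ← zpow_add₀ hq]
  congr 1
  ring

/-- on the main orbit the total weight is the average times the size of the box -/
lemma sum1_Psi {h : G (A F) → Model F → ℝ} (hh : Adm h) {x : XG F} {γ : G F} {g : G (A F)}
    (hγ : actG F γ x = RC.mk (KG F) g) {Q : ℝ} (hQ : 0 < Q) (hc : ((VB g).card : ℝ) = Q) :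
    Psi h x = avg (VB g) (h g) * Q := by
  rw [← hh.Psi_act γ x, hγ, hh.Psi_mk, avg, hc, div_mul_cancel₀ _ hQ.ne']

lemma sum1_const {D : Div F} (hD : (c0 F : ℤ) ≤ deg D) {T : ℝ} :
    ((GB D).card : ℝ≥0∞) * (ENNReal.ofReal (fibM D) *
      ENNReal.ofReal (T * qq F ^ (10 * deg D + 10 * cc F))) =
      ENNReal.ofReal (qq F ^ (8 * cc F) * T * (WB D).card) := by
  rw [← ENNReal.ofReal_natCast, ← ENNReal.ofReal_mul (fibM_pos D).le,
    ← ENNReal.ofReal_mul (Nat.cast_nonneg _)]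
  congr 1
  linear_combination T * norm_const hD

lemma sum1_inv : qq F ^ (8 * cc F) * qq F ^ (-8 * cc F) = 1 := by
  rw [← zpow_add₀ (zero_lt_one.trans one_lt_qq).ne']
  simp

/-- dominated convergence with the weight `wt3` -/
theorem SD_eventually_le (R : Div F) (S : Finset (Place F)) {L : ℝ} (hL : 0 ≤ L)
    (h : ∀ M, ∀ᶠ m : ℕ in atTop, avg (VB (gm M R m)) (upF S (gm M R m)) ≤ L)
    {ε : ℝ} (hε : 0 < ε) : ∀ᶠ m : ℕ in atTop, SD (R + m • PP F) ≤ 3 * (zt F * zt3 F) * L + ε := by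
  obtain ⟨ρ₂, h₂⟩ := exists_bru (act3 F) finite_stab3
  obtain ⟨ρ, hρ, hfib⟩ := exists_rhoG h₂
  obtain ⟨r, hr, hrw, hr0, hrs, hru⟩ := sum3_mass h₂
  obtain ⟨C, hC0, hC⟩ := exists_Psi_le (F := F)
  have hq : 0 < qq F := zero_lt_one.trans one_lt_qq
  have hk : 0 < kapR F := kapR_pos
  obtain ⟨Good, hGood⟩ : ∃ Good : ℕ → X3 F → Prop, ∀ m y, Good m y ↔
      ((VB (gm y.out R m)).card : ℝ) = qq F ^ (10 * deg (R + m • PP F) + 10 * cc F) ∧
      avg (VB (gm y.out R m)) (upF S (gm y.out R m)) ≤ L :=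
    ⟨_, fun _ _ => Iff.rfl⟩
  obtain ⟨u, hu⟩ : ∃ u : ℕ → X3 F → ℝ, ∀ m y, u m y = if Good m y then
      avg (VB (gm y.out R m)) (upF S (gm y.out R m)) else C * wt3 y :=
    ⟨_, fun _ _ => rfl⟩
  have hub : ∀ m y, 0 ≤ u m y ∧ u m y ≤ max C L * wt3 y := fun m y => by
    rw [hu]
    split_ifs with hg
    · exact ⟨avg_nonneg fun f _ => (adm_upF S).nonneg _ f,
        ((hGood m y).1 hg).2.trans ((le_max_right _ _).trans
          (le_mul_of_one_le_right (le_max_of_le_right hL) (one_le_wt3 y)))⟩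
    · exact ⟨mul_nonneg hC0.le (wt3_pos y).le,
        mul_le_mul_of_nonneg_right (le_max_left _ _) (wt3_pos y).le⟩
  have huL : ∀ y, ∀ᶠ m in atTop, u m y ≤ L := fun y => by
    filter_upwards [card_VB_gm y.out R, h y.out] with m h2 h3
    rw [hu, if_pos ((hGood m y).2 ⟨h2, h3⟩)]
    exact h3
  have hε' : 0 < ε * kapR F * qq F ^ (-8 * cc F) := by positivity
  filter_upwards [tsum_eventually_le_wt hr hrw hr0 u hL (Eventually.of_forall hub) huL hε', sum1_deg R]
    with m hm hD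
  have hQ : 0 < qq F ^ (10 * deg (R + m • PP F) + 10 * cc F) := zpow_pos hq _
  have h1 := fibre_le (hfib (R + m • PP F))
    (fun x => if par3 (pM x) then ENNReal.ofReal (Psi (upF S) x) else 0)
    (fun y => if par3 y then
      ENNReal.ofReal (u m y * qq F ^ (10 * deg (R + m • PP F) + 10 * cc F)) else 0) fun x hx => by
      split_ifs
      · refine ENNReal.ofReal_le_ofReal ?_
        rw [hu]
        split_ifs with hg
        · obtain ⟨g2, -⟩ := (hGood m _).1 hg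
          obtain ⟨γ, hγ⟩ := exists_gm _ R m x hx (pM x).mk_out.symm
          exact (sum1_Psi (adm_upF S) hγ hQ g2).le
        · exact hC _ (adm_upF S) _ ((Int.natCast_nonneg _).trans hD) x hx
      · exact le_rfl
  have hT : 0 ≤ ∑' y, r y * u m y := tsum_nonneg fun y => mul_nonneg (hr0 y) (hub m y).1
  have h2 := (SD_le_tsum hD S hρ).trans (mul_le_mul_right h1 _)
  rw [hru (u m) _ _ (hub m) hQ.le, sum1_const hD, sum1_kap,
    ENNReal.ofReal_le_ofReal_iff (mul_nonneg (mul_nonneg (zpow_pos hq _).le hT)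
      (sum1_WB_pos hD).le), ← mul_assoc] at h2
  have h3 := le_of_mul_le_mul_right h2 (sum1_WB_pos hD)
  have h4 := mul_le_mul_of_nonneg_left hm (zpow_pos hq (8 * cc F)).le
  rw [hrs] at h4
  refine le_of_mul_le_mul_left (h3.trans (h4.trans_eq ?_)) hk
  linear_combination (3 * L * kapR F * (zt F * zt3 F) + ε * kapR F) * sum1_inv (F := F)

/-- the lower bound -/
theorem SD_eventually_ge (R : Div F) (S : Finset (Place F)) {L : ℝ}
    (h : ∀ M, ∀ᶠ m : ℕ in atTop, L ≤ avg (VB (gm M R m)) (lowF S (gm M R m)))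
    {ε : ℝ} (hε : 0 < ε) : ∀ᶠ m : ℕ in atTop, 3 * (zt F * zt3 F) * L - ε ≤ SD (R + m • PP F) := by
  obtain ⟨ρ₂, h₂⟩ := exists_bru (act3 F) finite_stab3
  obtain ⟨ρ, hρ, hfib⟩ := exists_rhoG h₂
  obtain ⟨r, hr, -, hr0, hrs, hru⟩ := sum3_mass h₂
  have hq : 0 < qq F := zero_lt_one.trans one_lt_qq
  have hk : 0 < kapR F := kapR_pos
  obtain ⟨Good, hGood⟩ : ∃ Good : ℕ → X3 F → Prop, ∀ m y, Good m y ↔
      ((VB (gm y.out R m)).card : ℝ) = qq F ^ (10 * deg (R + m • PP F) + 10 * cc F) ∧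
      L ≤ avg (VB (gm y.out R m)) (lowF S (gm y.out R m)) :=
    ⟨_, fun _ _ => Iff.rfl⟩
  obtain ⟨u, hu⟩ : ∃ u : ℕ → X3 F → ℝ, ∀ m y, u m y = if Good m y then
      avg (VB (gm y.out R m)) (lowF S (gm y.out R m)) else 0 :=
    ⟨_, fun _ _ => rfl⟩
  have hub : ∀ m y, 0 ≤ u m y ∧ u m y ≤ 1728 := fun m y => by
    rw [hu]
    split_ifs with hg
    · refine ⟨avg_nonneg fun f _ => (adm_lowF S).nonneg _ f,
        avg_le_of_le (by norm_num) fun f hf => ((adm_lowF S).le _ f (mem_VB.1 hf)).trans ?_⟩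
      have := ind_le_one (f.jac.Δ ≠ 0 ∧ ¬f.Triv)
      linarith
    · exact ⟨le_rfl, by norm_num⟩
  have huL : ∀ y, ∀ᶠ m in atTop, L ≤ u m y := fun y => by
    filter_upwards [card_VB_gm y.out R, h y.out] with m h2 h3
    rw [hu, if_pos ((hGood m y).2 ⟨h2, h3⟩)]
    exact h3
  have hε' : 0 < ε * kapR F * qq F ^ (-8 * cc F) := by positivity
  filter_upwards [tsum_eventually_ge hr hr0 u (Eventually.of_forall hub) huL hε', sum1_deg R]
    with m hm hD
  have hQ : 0 < qq F ^ (10 * deg (R + m • PP F) + 10 * cc F) := zpow_pos hq _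
  have h1 := le_fibre (hfib (R + m • PP F))
    (fun x => if par3 (pM x) then ENNReal.ofReal (Psi (lowF S) x) else 0)
    (fun y => if par3 y then
      ENNReal.ofReal (u m y * qq F ^ (10 * deg (R + m • PP F) + 10 * cc F)) else 0) fun x hx => by
      split_ifs
      · refine ENNReal.ofReal_le_ofReal ?_
        rw [hu]
        split_ifs with hg
        · obtain ⟨g2, -⟩ := (hGood m _).1 hg
          obtain ⟨γ, hγ⟩ := exists_gm _ R m x hx (pM x).mk_out.symm
          exact (sum1_Psi (adm_lowF S) hγ hQ g2).ge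
        · rw [zero_mul]
          exact (adm_lowF S).Psi_nonneg x
      · exact le_rfl
  have hS : 0 ≤ SD (R + m • PP F) := avg_nonneg fun W _ =>
    mul_nonneg (mul_nonneg (ind_nonneg _) (Nat.cast_nonneg _)) (Nat.cast_nonneg _)
  have h2 := (mul_le_mul_right h1 _).trans (tsum_le_SD hD S hρ)
  rw [hru (u m) 1728 _ (fun y => ⟨(hub m y).1, (hub m y).2.trans
      (le_mul_of_one_le_right (by norm_num) (one_le_wt3 y))⟩) hQ.le, sum1_const hD, sum1_kap,
    ENNReal.ofReal_le_ofReal_iff (mul_nonneg hk.le (mul_nonneg hS (sum1_WB_pos hD).le)),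
    ← mul_assoc] at h2
  have h3 := le_of_mul_le_mul_right h2 (sum1_WB_pos hD)
  have h4 := mul_le_mul_of_nonneg_left hm (zpow_pos hq (8 * cc F)).le
  rw [hrs] at h4
  refine le_of_mul_le_mul_left ((Eq.trans_le ?_ h4).trans h3) hk
  linear_combination (-(3 * L * kapR F * (zt F * zt3 F) - ε * kapR F)) * sum1_inv (F := F)

end SelAvg.FF.T3
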