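import Pool.Agent.H81Sel.Tail

/-! Block TAIL3, generic part: squares of large places dividing the values of a polynomial that
is generically separable in one coordinate. -/

namespace SelAvg.FF

open Polynomial WithZero Filter Topology
open scoped Classical

variable {F : Type} [Field F] {D : F →+ F} {t : F} {K : Div F} {r : ℕ}

lemma t3_deg {P : F[X]} (h3 : P.natDegree ≤ r) (u : F) :
    (dcf D P + C u * derivative P).natDegree ≤ r :=
  natDegree_add_le_of_degree_le ((natDegree_dcf_le P).trans h3) ((natDegree_C_mul_le _ _).trans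
    ((natDegree_derivative_le P).trans ((Nat.sub_le _ _).trans h3)))

lemma t3_comp {P : F[X]} (h3 : P.natDegree ≤ r) {p : ℕ} (c : F) :
    (P.comp (X ^ p + C c)).natDegree ≤ r * p := by
  refine natDegree_comp_le.trans (Nat.mul_le_mul h3 ?_)
  rw [natDegree_X_pow_add_C]

/-- For at most `r` values of `u` the resultant vanishes. -/
theorem t3_card_resultant {P : F[X]} (h3 : P.natDegree ≤ r) (hsep : P.Separable) (s : Finset F)
    (hs : ∀ u ∈ s, P.resultant (dcf D P + C u * derivative P) P.natDegree (r + 1) = 0) :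
    s.card ≤ r := by
  let φ : F →+* AlgebraicClosure F := algebraMap _ _
  have hφ : Function.Injective φ := φ.injective
  have h1 : (P.map φ).Separable := hsep.map
  have h2 : (P.map φ).natDegree = P.natDegree := natDegree_map_eq_of_injective hφ P
  refine le_trans (Finset.card_le_card_of_injOn φ
    (t := (P.map φ).roots.toFinset.image fun ρ =>
      -((dcf D P).map φ).eval ρ / (derivative (P.map φ)).eval ρ) (fun u hu => ?_) hφ.injOn)
    (Finset.card_image_le.trans ((Multiset.toFinset_card_le _).trans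
      ((card_roots' _).trans (h2.le.trans h3))))
  have h4 := resultant_map_map P (dcf D P + C u * derivative P) P.natDegree (r + 1) φ
  rw [hs u hu, map_zero, ← h2, resultant_eq_prod_eval _ _ _
    (natDegree_map_le.trans ((t3_deg h3 u).trans r.le_succ)) (IsAlgClosed.splits _), mul_eq_zero,
    Multiset.prod_eq_zero_iff, Multiset.mem_map] at h4
  rcases h4 with h4 | ⟨ρ, h5, h6⟩
  · exact absurd (leadingCoeff_eq_zero.1 (pow_eq_zero_iff r.succ_ne_zero |>.1 h4)) h1.ne_zero
  · have h7 : (derivative (P.map φ)).eval ρ ≠ 0 := by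
      have := h1.aeval_derivative_ne_zero (x := ρ) (by
        rw [coe_aeval_eq_eval]
        exact (mem_roots h1.ne_zero).1 h5)
      rwa [coe_aeval_eq_eval] at this
    refine Finset.mem_coe.2 (Finset.mem_image.2 ⟨ρ, Multiset.mem_toFinset.2 h5, ?_⟩)
    rw [Polynomial.map_add, Polynomial.map_mul, map_C, ← derivative_map, eval_add, eval_mul,
      eval_C] at h6
    rw [div_eq_iff h7]
    linear_combination -h6

/-- a common root modulo `v` of two integral polynomials -/
lemma t3_resultant_lt {v : Place F} {P Q : F[X]} (hP : ∀ i, v.1 (P.coeff i) ≤ 1)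
    (hQ : ∀ i, v.1 (Q.coeff i) ≤ 1) (h3 : Q.natDegree ≤ r) {e : F} (he : v.1 e ≤ 1)
    (h1 : v.1 (P.eval e) < 1) (h2 : v.1 (Q.eval e) < 1) :
    v.1 (P.resultant Q P.natDegree (r + 1)) < 1 := by
  obtain ⟨P', rfl⟩ := ta_lift hP
  obtain ⟨Q', rfl⟩ := ta_lift hQ
  lift e to OO v using he
  rw [natDegree_map_eq_of_injective (OO v).subtype_injective] at h3 ⊢
  obtain ⟨a, b, -, -, hab⟩ := exists_mul_add_mul_eq_C_resultant (m := P'.natDegree) (n := r + 1) P'
    Q' le_rfl (h3.trans r.le_succ) (Or.inr r.succ_ne_zero)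
  have h4 := congrArg (eval e) hab
  rw [eval_C, eval_add, eval_mul, eval_mul] at h4
  have e1 : ∀ R : (OO v)[X], (R.map (OO v).subtype).eval (e : F) = (R.eval e : OO v) := fun R => by
    rw [eval_map]
    exact eval₂_hom (OO v).subtype e
  rw [e1] at h1 h2
  rw [resultant_map_map, ← h4]
  refine (rO_eq_zero (eval e P' * eval e a + eval e Q' * eval e b)).1 ?_
  rw [map_add, map_mul, map_mul, (rO_eq_zero _).2 h1, (rO_eq_zero _).2 h2, zero_mul, zero_mul,
    add_zero]

/-- one separable specialisation of full degree gives generic separability -/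
theorem t3_generic {A : Type} [CommRing A] (P : A[X]) (φ₀ : A →+* F) (h₀ : (P.map φ₀).Separable)
    (hd : P.natDegree ≤ (P.map φ₀).natDegree) :
    ∃ G : A, φ₀ G ≠ 0 ∧ ∀ φ : A →+* F, φ G ≠ 0 → (P.map φ).Separable := by
  have hd' : (derivative P).natDegree ≤ P.natDegree + 1 :=
    (natDegree_derivative_le P).trans (by omega)
  refine ⟨P.resultant (derivative P) P.natDegree (P.natDegree + 1), ?_, fun φ hφ => ?_⟩
  · have e : P.natDegree = (P.map φ₀).natDegree := le_antisymm hd natDegree_map_le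
    rw [← resultant_map_map, ← derivative_map, e]
    generalize P.map φ₀ = Q at h₀
    obtain ⟨k, hk⟩ := Nat.exists_eq_add_of_le
      ((natDegree_derivative_le Q).trans (by omega) : (derivative Q).natDegree ≤ Q.natDegree + 1)
    rw [hk, resultant_add_right_deg _ _ _ _ _ le_rfl]
    exact mul_ne_zero (pow_ne_zero _ (leadingCoeff_ne_zero.2 h₀.ne_zero))
      (resultant_ne_zero _ _ h₀)
  · obtain ⟨a, b, -, -, hab⟩ := exists_mul_add_mul_eq_C_resultant (m := P.natDegree)
      (n := P.natDegree + 1) P (derivative P) le_rfl hd' (Or.inr (Nat.succ_ne_zero _))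
    have h1 := congrArg (Polynomial.map φ) hab
    rw [Polynomial.map_add, Polynomial.map_mul, Polynomial.map_mul, map_C, ← derivative_map] at h1
    generalize φ _ = g at hφ h1
    refine ⟨C g⁻¹ * a.map φ, C g⁻¹ * b.map φ, ?_⟩
    have h2 : C g⁻¹ * C g = 1 := by rw [← C_mul, inv_mul_cancel₀ hφ, C_1]
    linear_combination C g⁻¹ * h1 + h2

variable [Cv F]

/-- `tail_core` for polynomials of degree at most `r` -/
theorem t3_core (hD : IsDer D t K) {A A' T E : Div F} {N : ℕ} (h0 : (c0 F : ℤ) ≤ deg A')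
    (hN : (N : ℤ) ≤ deg A') (hT : 0 ≤ T) (ht : t ∈ LL T) (hA : T + ringChar F • A' ≤ A)
    (hE : 0 ≤ E) {B : ℕ} (hB : deg E ≤ B) (hDA : ∀ x ∈ LL A, D x ∈ LL E) {P : F[X]}
    (h3 : P.natDegree ≤ r) (hsep : P.Separable) (hP : ∀ i, P.coeff i ∈ LL E)
    (hP' : ∀ i, D (P.coeff i) ∈ LL E) (G : Place F → Prop)
    (hG : ∀ v, G v → A v = 0 ∧ A' v = 0 ∧ E v = 0 ∧ K v = 0 ∧ N ≤ dg v) :
    dens (box A) (fun e => ∃ v, G v ∧ RedNe v P ∧ v.1 (P.eval e) ≤ exp (-2)) ≤
      (r + (4 * r + 2) * r * ringChar F * B) * (tkap F * (1 / 2 : ℝ) ^ N) := by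
  have hp := prime_ringChar (F := F)
  have hk := tkap_nonneg (F := F)
  refine (tb_main hD h0 hN hT ht hA
    (fun u => P.resultant (dcf D P + C u * derivative P) P.natDegree (r + 1) = 0)
    (t3_card_resultant h3 hsep)
    (c := (((4 * r + 2) * B : ℕ) : ℝ) * (((r * ringChar F : ℕ) : ℝ) * (tkap F * (1 / 2 : ℝ) ^ N)))
    (by positivity) fun a ha hR => ?_).trans_eq (by push_cast; ring)
  have hQ : ∀ i, (dcf D P + C (D a) * derivative P).coeff i ∈ LL (E + E) := fun i => by
    rw [coeff_add, coeff_dcf, coeff_C_mul, coeff_derivative]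
    refine add_mem (LL_mono (le_add_of_nonneg_left hE) (hP' i)) (mul_mem_LL (hDA a ha) ?_)
    have := mul_mem_LL (hP (i + 1)) (natCast_mem_LL (F := F) (i + 1))
    rwa [add_zero, Nat.cast_succ] at this
  have hP2 : ∀ i, P.coeff i ∈ LL (E + E) := fun i => LL_mono (le_add_of_nonneg_left hE) (hP i)
  refine le_trans (dens_mono fun w hw => ?_) (ek_one h0 hN hR
    (LL_mono (nsmul_le_nsmul_left (add_nonneg hE hE) (by omega : P.natDegree + (r + 1) ≤ 2 * r + 1))
      (tb_resultant_mem _ _ _ _ hP2 hQ)) (B := (4 * r + 2) * B) ?_ (t3_comp h3 a) G fun v hv => ?_)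
  · rintro ⟨v, h1, h2, h4⟩
    obtain ⟨g1, g2, g3, g4, -⟩ := hG v h1
    have a1 : v.1 a ≤ 1 := ta_le_one ha g1
    have a2 : v.1 (a + w ^ ringChar F) ≤ 1 := by
      refine v.1.map_add_le a1 ?_
      rw [map_pow]
      exact pow_le_one' (ta_le_one (mem_box.1 hw) g2) _
    have a3 : v.1 (P.eval (a + w ^ ringChar F)) < 1 :=
      h4.trans_lt (by rw [← exp_zero, exp_lt_exp]; norm_num)
    have g5 : (E + E) v = 0 := by rw [Finsupp.add_apply, g3, add_zero]
    refine ⟨v, h1, t3_resultant_lt (fun i => ta_le_one (hP2 i) g5) (fun i => ta_le_one (hQ i) g5)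
      (t3_deg h3 _) a2 a3 ?_, ?_, ?_⟩
    · have a4 := hD.eval P (a + w ^ ringChar F)
      rw [map_add D a, hD.map_pow_char, add_zero] at a4
      rw [← a4]
      refine (hD.pole v h4).trans_lt ?_
      rw [g4, ← exp_zero, exp_lt_exp]
      norm_num
    · obtain ⟨P', rfl, h2⟩ := h2
      refine ⟨P'.comp (X ^ ringChar F + C ⟨a, a1⟩), ?_, ?_⟩
      · rw [map_comp, Polynomial.map_add, Polynomial.map_pow, map_X, map_C]
        rfl
      · rw [map_comp, Polynomial.map_add, Polynomial.map_pow, map_X, map_C]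
        exact tailCore_ne h2 hp.ne_zero _
    · rwa [eval_comp, eval_add, eval_pow, eval_X, eval_C, add_comm]
  · rw [map_nsmul, map_add, nsmul_eq_mul]
    push_cast
    have h5 : (0 : ℤ) ≤ 2 * r + 1 := by positivity
    nlinarith [mul_le_mul_of_nonneg_left hB h5]
  · obtain ⟨-, g2, g3, -, g5⟩ := hG v hv
    exact ⟨g2, by rw [Finsupp.smul_apply, Finsupp.add_apply, g3, add_zero, smul_zero], g5⟩

variable {n : ℕ}

omit [Cv F] in
/-- the specialisation of a polynomial with polynomial coefficients -/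
noncomputable def t3spec (P : (MvPolynomial (Fin n) F)[X]) (x : Fin n → F) : F[X] :=
  P.map (MvPolynomial.aeval x : MvPolynomial (Fin n) F →ₐ[F] F).toRingHom

/-- the poles of the coefficients -/
lemma t3_coeff (D : Fin n → Div F) (k : Fin n → ℕ) (i : Fin n) (P : (MvPolynomial (Fin n) F)[X]) :
    ∃ (B : Div F) (c : ℕ), 0 ≤ B ∧ (∀ m, ∀ x ∈ PB D k m, ∀ j,
      (t3spec P x).coeff j ∈ LL (B + (c * m) • PP F)) ∧
      ∀ m, D i + (k i * m) • PP F ≤ B + (c * m) • PP F := by
  choose B c h0 h using fun j : ℕ => aeval_PB D k (P.coeff j)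
  have hB : 0 ≤ ∑ j ∈ P.support, B j := Finset.sum_nonneg fun j _ => h0 j
  refine ⟨(D i)⁺ + ∑ j ∈ P.support, B j, k i + ∑ j ∈ P.support, c j,
    add_nonneg (posPart_nonneg _) hB,
    fun m x hx j => ?_, fun m => add_le_add ((le_posPart _).trans (le_add_of_nonneg_right hB))
      (nsmul_le_nsmul_left PP_nonneg (Nat.mul_le_mul_right _ (Nat.le_add_right _ _)))⟩
  rw [t3spec, coeff_map]
  by_cases hj : j ∈ P.support
  · refine LL_mono (add_le_add ?_ ?_) (h j m x hx)
    · exact (Finset.single_le_sum (f := B) (fun j _ => h0 j) hj).trans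
        (le_add_of_nonneg_left (posPart_nonneg _))
    · exact nsmul_le_nsmul_left PP_nonneg (Nat.mul_le_mul_right _ ((Finset.single_le_sum (f := c)
        (fun _ _ => Nat.zero_le _) hj).trans (Nat.le_add_left _ _)))
  · rw [notMem_support_iff.1 hj, map_zero]
    exact zero_mem _

omit [Cv F] in
lemma t3_div {k : ℕ} (hk : 0 < k) (m c p : ℕ) : (m - c * p) / p ≤ k * m / p - c := by
  rw [mul_comm c, Nat.sub_mul_div]
  exact Nat.sub_le_sub_right (Nat.div_le_div_right (Nat.le_mul_of_pos_left m hk)) c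

/-- The generic theorem on large places. -/
theorem t3_large (D : Fin n → Div F) {k : Fin n → ℕ} (hk0 : ∀ i, 0 < k i) {N : ℕ → ℕ} {c e : ℕ}
    (he : 0 < e) (hN : ∀ m, (m - c) / e ≤ N m) (i : Fin n) (P : (MvPolynomial (Fin n) F)[X])
    (hi : ∀ x a, t3spec P (Function.update x i a) = t3spec P x) {x₀ : Fin n → F}
    (h₀ : (t3spec P x₀).Separable) (hdeg : P.natDegree ≤ (t3spec P x₀).natDegree) :
    Tendsto (fun m => dens (PB D k m) fun x => ∃ v : Place F, N m ≤ dg v ∧
      RedNe v (t3spec P x) ∧ v.1 ((t3spec P x).eval (x i)) ≤ exp (-2)) atTop (𝓝 0) := by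
  obtain ⟨G, hG0, hG⟩ := t3_generic P _ h₀ hdeg
  obtain ⟨d, t, K, hd⟩ := exists_der (F := F)
  obtain ⟨T, hT, ht⟩ := exists_mem_LL fun _ : Unit => t
  obtain ⟨B, b, hB0, hB, hB7⟩ := t3_coeff D k i P
  obtain ⟨B', hB0', hB'⟩ := hd.map_LL B
  obtain ⟨c₁, hc₁⟩ := ta_deg_ge (-(D i)⁻ - T)
  obtain ⟨c₂, hc₂⟩ := ta_supp (D i)
  obtain ⟨c₃, hc₃⟩ := ta_supp (-(D i)⁻ - T)
  obtain ⟨c₄, hc₄⟩ := ta_supp (B + B')
  obtain ⟨c₅, hc₅⟩ := ta_supp K
  have hp := (prime_ringChar (F := F)).pos
  have hk := tkap_nonneg (F := F)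
  have h1 := dens_aeval_tendsto D hk0 (p := G) fun h => hG0 (by rw [h, map_zero])
  have h2 := tendsto_lin_mul_pow
    ((4 * P.natDegree + 2) * P.natDegree * ringChar F * (b * pp F) * tkap F)
    ((P.natDegree + (4 * P.natDegree + 2) * P.natDegree * ringChar F * (deg (B + B')).natAbs) *
      tkap F)
    (fun m => (m - (c + c₁ * ringChar F)) / (e * ringChar F)) (c + c₁ * ringChar F)
    (e * ringChar F) (Nat.mul_pos he hp) fun _ => le_rfl
  have h3 := h1.add h2
  rw [add_zero] at h3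
  refine squeeze_zero' (Eventually.of_forall fun d => dens_nonneg _ _) ?_ h3
  filter_upwards [eventually_ge_atTop (c₁ * ringChar F),
    (ta_tendsto he hN).eventually_ge_atTop (c₂ + c₃ + c₄ + c₅)] with m hm hm'
  have h5 := hc₁ (k i * m / ringChar F) ((Nat.le_div_iff_mul_le hp).2
    (hm.trans (Nat.le_mul_of_pos_left m (hk0 i))))
  have h6 : B + (b * m) • PP F ≤ B + B' + (b * m) • PP F :=
    add_le_add (le_add_of_nonneg_right hB0') le_rfl
  refine dens_pi_le _ i _ _ (by positivity) fun x hx h => ?_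
  simp only [hi, Function.update_self]
  refine (t3_core hd (N := (m - (c + c₁ * ringChar F)) / (e * ringChar F)) h5.1
    (le_trans ?_ h5.2) hT (ht ()) (tb_small (D i) hT _)
    (add_nonneg (add_nonneg hB0 hB0') (nsmul_nonneg PP_nonneg _)) (ta_deg_le (B + B') b m)
    (fun y hy => hB' _ y (LL_mono (hB7 m) hy)) (r := P.natDegree) natDegree_map_le (hG _ h)
    (fun j => LL_mono h6 (hB m x hx j)) (fun j => hB' _ _ (hB m x hx j)) (fun v => N m ≤ dg v)
    fun v hv => ⟨hc₂ v (by omega) _, hc₃ v (by omega) _, hc₄ v (by omega) _, ?_, ?_⟩).trans_eq ?_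
  · refine Nat.cast_le.2 (le_trans ?_ (t3_div (hk0 i) m c₁ _))
    exact Nat.div_le_div (by omega) (Nat.le_mul_of_pos_left _ he) hp.ne'
  · simpa using hc₅ v (by omega) 0
  · exact (Nat.div_le_div (by omega) (Nat.le_mul_of_pos_right _ hp) he.ne').trans
      ((hN m).trans hv)
  · push_cast
    ring

/-- two different coordinates vanish at a large place -/
theorem t3_pair (D : Fin n → Div F) {k : Fin n → ℕ} (hk0 : ∀ i, 0 < k i) {N : ℕ → ℕ} {c e : ℕ}
    (he : 0 < e) (hN : ∀ m, (m - c) / e ≤ N m) :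
    Tendsto (fun m => dens (PB D k m) fun x => ∃ v : Place F, N m ≤ dg v ∧
      ∃ i j, i ≠ j ∧ v.1 (x i) < 1 ∧ v.1 (x j) < 1) atTop (𝓝 0) := by
  have h1 : ∀ p ∈ (Finset.univ : Finset (Fin n)).offDiag,
      Tendsto (fun m => dens (PB D k m) fun x => ∃ v : Place F, N m ≤ dg v ∧
        v.1 (x p.1) < 1 ∧ v.1 (x p.2) < 1) atTop (𝓝 0) := by
    intro p hp
    have hne : p.1 ≠ p.2 := (Finset.mem_offDiag.1 hp).2.2
    have h := ek_tendsto D hk0 he hN p.2 (MvPolynomial.X_ne_zero (R := F) p.1)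
      (fun x a => by rw [MvPolynomial.aeval_X, MvPolynomial.aeval_X, Function.update_of_ne hne])
      (fun _ => X) (fun _ _ => rfl) (fun _ => natDegree_X_le)
    refine squeeze_zero (fun _ => dens_nonneg _ _) (fun m => dens_mono fun x _ => ?_) h
    rintro ⟨v, h1, h2, h3⟩
    refine ⟨v, h1, by rwa [MvPolynomial.aeval_X], ⟨X, map_X _, ?_⟩, by rwa [eval_X]⟩
    rw [map_X]
    exact X_ne_zero
  have h2 := tendsto_finsetSum _ h1
  rw [Finset.sum_const_zero] at h2
  refine squeeze_zero (fun _ => dens_nonneg _ _) (fun m => le_trans (dens_mono fun x _ => ?_)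
    (dens_exists_le _ _ fun (p : Fin n × Fin n) (x : Fin n → F) => ∃ v : Place F, N m ≤ dg v ∧
      v.1 (x p.1) < 1 ∧ v.1 (x p.2) < 1)) h2
  rintro ⟨v, h1, i, j, hij, h3⟩
  exact ⟨(i, j), Finset.mem_offDiag.2 ⟨Finset.mem_univ _, Finset.mem_univ _, hij⟩, v, h1, h3⟩

end SelAvg.FF
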