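import Pool.Agent.H5T.ModA
import Pool.Agent.H5T.Tail3W

/-! Link between the model `jac` and the polynomial `H5T.PD` in the coordinate `m`. -/

namespace SelAvg.FF.T3

open Polynomial

variable {R : Type*} [CommRing R]

theorem jac_symm_eq (x : Fin 10 → R) : (Model.equivVec.symm x).jac = H5T.jW x := by
  show Model.jac ⟨x 0, x 1, x 2, x 3, x 4, x 5, x 6, x 7, x 8, x 9⟩ = _
  ext
  · rfl
  all_goals
    simp only [Model.jac, H5T.jW, H5T.jS2, H5T.jS3, H5T.jS4, H5T.jT0, H5T.jT1, H5T.jT2, H5T.jT3]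
    ring

theorem jac_eq_jW (f : Model R) : f.jac = H5T.jW (Model.equivVec f) := by
  rw [← jac_symm_eq, Equiv.symm_apply_apply]

theorem jac_Δ_eq (x : Fin 10 → R) :
    (Model.equivVec.symm x).jac.Δ = (H5T.PD x).eval (x 9) := by
  rw [jac_symm_eq, H5T.PD_eval]

theorem jac_Δ_update (x : Fin 10 → R) (m : R) :
    (Model.equivVec.symm (Function.update x 9 m)).jac.Δ = (H5T.PD x).eval m := by
  rw [jac_symm_eq, H5T.PD_eval_update]

end SelAvg.FF.T3
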