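import Pool.Agent.H5T.ModA

/-! Block TAIL3 (4): over a large finite field a positive proportion of the ternary cubics has no
rational flex flag. -/

namespace SelAvg.FF.T3

open Polynomial Matrix
open scoped Classical

/-- double counting with two cosets -/
theorem t3t_orbit {Γ X : Type*} [Group Γ] [Fintype Γ] [Fintype X] [MulAction Γ X]
    (S S2 T : Finset X) (B : Finset Γ) (h21 : S2 ⊆ S) (hT : ∀ x ∈ T, ∃ g : Γ, g • x ∈ S)
    (hB : ∀ b ∈ B, ∀ x ∈ S, b • x ∈ S)
    (h2 : ∀ x ∈ S2, ∃ h : Γ, h • x ∈ S ∧ ∀ b ∈ B, ∀ b' ∈ B, b ≠ b' * h) :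
    2 * B.card * T.card + Fintype.card Γ * S2.card ≤ 2 * (Fintype.card Γ * S.card) := by
  have hsum : ∀ U : Finset X, ∑ x : X, (Finset.univ.filter fun g : Γ => g • x ∈ U).card
      = Fintype.card Γ * U.card := by
    intro U
    simp only [Finset.card_filter]
    rw [Finset.sum_comm, ← Finset.card_univ, ← smul_eq_mul, ← Finset.sum_const]
    refine Finset.sum_congr rfl fun g _ => ?_
    rw [← Finset.card_filter]
    refine Finset.card_bij (fun x _ => g • x) (fun x hx => (Finset.mem_filter.1 hx).2)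
      (fun x _ y _ e => MulAction.injective g e) fun y hy => ⟨g⁻¹ • y, ?_, smul_inv_smul g y⟩
    rw [Finset.mem_filter, smul_inv_smul]
    exact ⟨Finset.mem_univ _, hy⟩
  have hcos : ∀ (x : X) (g : Γ), g • x ∈ S →
      B.image (fun b => b * g) ⊆ Finset.univ.filter fun g : Γ => g • x ∈ S := by
    intro x g hg a ha
    obtain ⟨b, hb, rfl⟩ := Finset.mem_image.1 ha
    rw [Finset.mem_filter, mul_smul]
    exact ⟨Finset.mem_univ _, hB b hb _ hg⟩
  have hcard : ∀ g : Γ, (B.image fun b => b * g).card = B.card := fun g =>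
    Finset.card_image_of_injective _ (mul_left_injective g)
  have hpt : ∀ x : X, (if x ∈ T then 2 * B.card else 0)
      + (Finset.univ.filter fun g : Γ => g • x ∈ S2).card
      ≤ 2 * (Finset.univ.filter fun g : Γ => g • x ∈ S).card := by
    intro x
    have hle : (Finset.univ.filter fun g : Γ => g • x ∈ S2).card
        ≤ (Finset.univ.filter fun g : Γ => g • x ∈ S).card :=
      Finset.card_le_card fun g hg => Finset.mem_filter.2
        ⟨Finset.mem_univ _, h21 (Finset.mem_filter.1 hg).2⟩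
    split_ifs with hx
    · rcases (Finset.univ.filter fun g : Γ => g • x ∈ S2).eq_empty_or_nonempty with h | ⟨g, hg⟩
      · obtain ⟨g, hg⟩ := hT x hx
        have := Finset.card_le_card (hcos x g hg)
        rw [hcard] at this
        rw [h, Finset.card_empty]
        omega
      · have hg' := (Finset.mem_filter.1 hg).2
        obtain ⟨h, hh, hd⟩ := h2 _ hg'
        rw [← mul_smul] at hh
        have hdis : Disjoint (B.image fun b => b * g) (B.image fun b => b * (h * g)) := by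
          rw [Finset.disjoint_left]
          intro a ha ha'
          obtain ⟨b, hb, rfl⟩ := Finset.mem_image.1 ha
          obtain ⟨b', hb', e⟩ := Finset.mem_image.1 ha'
          rw [← mul_assoc] at e
          exact hd b hb b' hb' (mul_right_cancel e).symm
        have := Finset.card_le_card (Finset.union_subset (hcos x g (h21 hg')) (hcos x _ hh))
        rw [Finset.card_union_of_disjoint hdis, hcard, hcard] at this
        omega
    · omega
  have := Finset.sum_le_sum fun x (_ : x ∈ Finset.univ) => hpt x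
  rw [Finset.sum_add_distrib, ← Finset.mul_sum, hsum, hsum, Finset.sum_ite_mem,
    Finset.univ_inter, Finset.sum_const, smul_eq_mul] at this
  linarith

section Fin

variable {k : Type} [Field k]

lemma t3t_roots (P : k[X]) (hP : P ≠ 0) (n : ℕ) (hn : P.natDegree ≤ n) (s : Finset k)
    (h : ∀ x ∈ s, P.eval x = 0) : s.card ≤ n := by
  refine le_trans (card_le_degree_of_subset_roots fun x hx => ?_) hn
  exact (mem_roots hP).2 (h x hx)

/-- cubics with two marked flexes -/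
def t3tPhi (p : kˣ × kˣ × kˣ × k × k × k × k) : Model k :=
  ⟨0, p.1, p.1 * p.2.2.2.2.2.2 ^ 3 + p.2.1 * p.2.2.2.2.2.1 ^ 2 + p.2.2.2.1 * p.2.2.2.2.2.1
      + p.2.2.1 * p.2.2.2.2.2.1 * p.2.2.2.2.2.2, 0, p.2.1, 0,
    3 * p.1 * p.2.2.2.2.2.2 + p.2.1 * p.2.2.2.2.1 ^ 2 + p.2.2.1 * p.2.2.2.2.1,
    2 * p.2.1 * p.2.2.2.2.2.1 + p.2.2.2.1 + p.2.2.1 * p.2.2.2.2.2.2,
    3 * p.1 * p.2.2.2.2.2.2 ^ 2 + 2 * p.2.1 * p.2.2.2.2.1 * p.2.2.2.2.2.1 + p.2.2.2.1 * p.2.2.2.2.1
      + p.2.2.1 * (p.2.2.2.2.1 * p.2.2.2.2.2.2 + p.2.2.2.2.2.1),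
    2 * p.2.1 * p.2.2.2.2.1 + p.2.2.1⟩

lemma t3tPhi_eq (b a m : kˣ) (c s x y : k) : t3tPhi (b, a, m, c, s, x, y) =
    (⟨0, b, 0, 0, a, 0, 0, c, 0, m⟩ : Model k).subst !![1, 0, 0; s, 1, 0; x, y, 1] := by
  ext <;> simp [t3tPhi, Model.subst, Model.F, Model.pol, Model.tri, Model.Fx, Model.Fy, Model.Fz]
    <;> ring

/-- the quartic satisfied by the coordinate of a second flex -/
noncomputable def t3tPsi (f : Model k) : k[X] :=
  C (3 * f.a3 * f.b ^ 2) * X ^ 4 + C (f.b * (f.m ^ 2 - 4 * f.a3 * f.b3)) * X ^ 3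
    + C (6 * f.a3 * f.b * f.c2 - 3 * f.b * f.m * f.c1) * X ^ 2
    + C (3 * f.b * f.c1 ^ 2 - 12 * f.a3 * f.b * f.c) * X
    + C (-(f.m ^ 2 * f.c) - f.c1 ^ 2 * f.b3 + 4 * f.a3 * f.b3 * f.c + f.m * f.c1 * f.c2
      - f.a3 * f.c2 ^ 2)

lemma t3tPsi_natDegree (f : Model k) : (t3tPsi f).natDegree ≤ 4 := by
  unfold t3tPsi
  compute_degree

lemma t3tPsi_eval (p : kˣ × kˣ × kˣ × k × k × k × k) :
    (t3tPsi (t3tPhi p)).eval p.2.2.2.2.2.2 = 0 := by
  simp only [t3tPsi, t3tPhi, eval_add, eval_mul, eval_C, eval_pow, eval_X]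
  ring

lemma t3tPsi_ne (p : kˣ × kˣ × kˣ × k × k × k × k) : t3tPsi (t3tPhi p) ≠ 0 := by
  intro h
  have h4 := congrArg (fun P => coeff P 4) h
  have h3 := congrArg (fun P => coeff P 3) h
  simp only [t3tPsi, coeff_add, coeff_C_mul, coeff_X_pow, coeff_X, coeff_C, coeff_zero] at h4 h3
  norm_num at h4 h3
  obtain ⟨b, a, m, c, s, x, y⟩ := p
  simp only [t3tPhi, Units.ne_zero, or_false, false_or] at h4 h3
  have : (m : k) ^ 2 = 0 := by linear_combination h3 + 4 * a * b * y * h4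
  exact m.ne_zero (pow_eq_zero_iff two_ne_zero |>.1 this)

variable [Fintype k]

lemma t3t_fiber (f : Model k) :
    (Finset.univ.filter fun p : kˣ × kˣ × kˣ × k × k × k × k => t3tPhi p = f).card ≤ 8 := by
  set A := Finset.univ.filter fun p : kˣ × kˣ × kˣ × k × k × k × k => t3tPhi p = f with hA
  rcases A.eq_empty_or_nonempty with h | ⟨p₀, hp₀⟩
  · rw [h]; exact Nat.zero_le _
  have e₀ : t3tPhi p₀ = f := (Finset.mem_filter.1 hp₀).2
  have ha : f.a3 ≠ 0 := by rw [← e₀]; exact p₀.2.1.ne_zero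
  have h1 : (A.image fun p => p.2.2.2.2.2.2).card ≤ 4 := by
    refine t3t_roots (t3tPsi f) (e₀ ▸ t3tPsi_ne p₀) 4 (t3tPsi_natDegree f) _ fun y hy => ?_
    obtain ⟨p, hp, rfl⟩ := Finset.mem_image.1 hy
    rw [← (Finset.mem_filter.1 hp).2]
    exact t3tPsi_eval p
  have h2 : A.card ≤ 2 * (A.image fun p => p.2.2.2.2.2.2).card := by
    refine Finset.card_le_mul_card_image A 2 fun y _ => ?_
    rw [← Finset.card_image_of_injOn (f := fun p => p.2.2.2.2.1)]
    · refine t3t_roots (C f.a3 * X ^ 2 + C (-f.m) * X + C (f.b3 - 3 * f.b * y)) ?_ 2 ?_ _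
        fun s hs => ?_
      · intro h
        have := congrArg (fun P => coeff P 2) h
        simp only [coeff_add, coeff_C_mul, coeff_X_pow, coeff_X, coeff_C, coeff_zero] at this
        norm_num at this
        exact ha this
      · compute_degree
      · obtain ⟨p, hp, rfl⟩ := Finset.mem_image.1 hs
        obtain ⟨hp1, rfl⟩ := Finset.mem_filter.1 hp
        rw [← (Finset.mem_filter.1 hp1).2]
        simp only [t3tPhi, eval_add, eval_mul, eval_C, eval_pow, eval_X]
        ring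
    · rintro ⟨b, a, m, c, s, x, y1⟩ hp ⟨b', a', m', c', s', x', y2⟩ hp' e
      obtain ⟨hp1, e1⟩ := Finset.mem_filter.1 (Finset.mem_coe.1 hp)
      obtain ⟨hp2, e2⟩ := Finset.mem_filter.1 (Finset.mem_coe.1 hp')
      have e3 := Model.ext_iff.1
        ((Finset.mem_filter.1 hp1).2.trans (Finset.mem_filter.1 hp2).2.symm)
      simp only [t3tPhi] at e e1 e2 e3
      obtain ⟨-, hb, -, -, ha', -, -, hc1, hc2, hm⟩ := e3
      subst e e1 e2
      obtain rfl : b = b' := Units.ext hb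
      obtain rfl : a = a' := Units.ext ha'
      obtain rfl : m = m' := Units.ext (by linear_combination hm)
      obtain rfl : x = x' := mul_left_cancel₀ m.ne_zero (by linear_combination hc2 - s * hc1)
      obtain rfl : c = c' := by linear_combination hc1
      rfl
  omega

/-- lower triangular matrices -/
noncomputable def t3tLow (p : kˣ × kˣ × kˣ × k × k × k) : GL (Fin 3) k :=
  GeneralLinearGroup.mkOfDetNeZero
    !![(p.1 : k), 0, 0; p.2.2.2.1, p.2.1, 0; p.2.2.2.2.1, p.2.2.2.2.2, p.2.2.1]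
    (by simp [det_fin_three])

theorem t3t_count (T : Finset (Model k)) (hT : ∀ f ∈ T, ∃ M : GL (Fin 3) k,
      (f.subst M).a = 0 ∧ (f.subst M).a2 = 0 ∧ (f.subst M).b1 = 0) :
    16 * ((Fintype.card k - 1) ^ 3 * T.card) + Fintype.card k ^ 10 * (Fintype.card k - 1) ^ 3
      ≤ 16 * Fintype.card k ^ 13 := by
  let _ : MulAction (GL (Fin 3) k) (Model k) :=
    { smul := fun g f => f.subst g
      one_smul := fun f => Model.subst_one f
      mul_smul := fun g h f => (Model.subst_subst _ _ f).symm }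
  have hs : ∀ (g : GL (Fin 3) k) (f : Model k), g • f = f.subst g := fun _ _ => rfl
  set q := Fintype.card k with hq
  set S : Finset (Model k) := Finset.univ.filter fun f => f.a = 0 ∧ f.a2 = 0 ∧ f.b1 = 0 with hS
  set S2 : Finset (Model k) := Finset.univ.image t3tPhi with hS2
  set B : Finset (GL (Fin 3) k) := Finset.univ.filter fun g =>
    g.1 0 0 ≠ 0 ∧ g.1 0 1 = 0 ∧ g.1 0 2 = 0 ∧ g.1 1 2 = 0 with hB
  have h21 : S2 ⊆ S := by
    intro f hf
    obtain ⟨p, -, rfl⟩ := Finset.mem_image.1 hf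
    exact Finset.mem_filter.2 ⟨Finset.mem_univ _, rfl, rfl, rfl⟩
  have key := t3t_orbit S S2 T B h21
    (fun f hf => (hT f hf).imp fun M hM => Finset.mem_filter.2 ⟨Finset.mem_univ _, hM⟩) ?_ ?_
  rotate_left
  · intro b hb f hf
    obtain ⟨-, -, h1, h2, h3⟩ := Finset.mem_filter.1 hb
    obtain ⟨-, h4, h5, h6⟩ := Finset.mem_filter.1 hf
    refine Finset.mem_filter.2 ⟨Finset.mem_univ _, ?_, ?_, ?_⟩ <;>
      simp [hs, Model.subst, Model.F, Model.pol, Model.Fx, Model.Fy, Model.Fz, h1, h2, h3, h4, h5,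
        h6]
  · intro f hf
    obtain ⟨⟨b, a, m, c, s, x, y⟩, -, rfl⟩ := Finset.mem_image.1 hf
    let w : GL (Fin 3) k := GeneralLinearGroup.mkOfDetNeZero !![0, 0, 1; 0, 1, 0; 1, 0, 0]
      (by simp [det_fin_three])
    have hw : (w : Matrix (Fin 3) (Fin 3) k) = !![0, 0, 1; 0, 1, 0; 1, 0, 0] := rfl
    have hu : (t3tLow (1, 1, 1, s, x, y) : Matrix (Fin 3) (Fin 3) k)
        = !![1, 0, 0; s, 1, 0; x, y, 1] := rfl
    refine ⟨w * (t3tLow (1, 1, 1, s, x, y))⁻¹, ?_, fun g hg g' hg' e => ?_⟩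
    · rw [t3tPhi_eq, ← hu, ← hs, mul_smul, inv_smul_smul, hs, hw]
      refine Finset.mem_filter.2 ⟨Finset.mem_univ _, ?_, ?_, ?_⟩ <;>
        simp [Model.subst, Model.F, Model.pol, Model.Fx, Model.Fy, Model.Fz]
    · obtain ⟨-, h0, h1, h2, -⟩ := Finset.mem_filter.1 hg
      obtain ⟨-, -, -, h3, -⟩ := Finset.mem_filter.1 hg'
      rw [← mul_assoc, eq_mul_inv_iff_mul_eq] at e
      have := congrArg (fun g : GL (Fin 3) k => g.1 0 0) e
      simp only [Units.val_mul, hw, hu, mul_apply, Fin.sum_univ_three, h1, h2, h3] at this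
      simp at this
      exact h0 this
  have c1 : Fintype.card (GL (Fin 3) k) ≤ q ^ 9 := by
    refine (Fintype.card_le_of_injective _ Units.val_injective).trans (le_of_eq ?_)
    rw [Fintype.card_congr (Matrix.of (m := Fin 3) (n := Fin 3) (α := k)).symm]
    simp only [Fintype.card_fun, Fintype.card_fin, ← hq]
    ring
  have c2 : S.card ≤ q ^ 7 := by
    have : S.card ≤ (Finset.univ : Finset (k × k × k × k × k × k × k)).card := by
      refine Finset.card_le_card_of_injOn (fun f => (f.b, f.c, f.a3, f.b3, f.c1, f.c2, f.m))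
        (fun _ _ => Finset.mem_coe.2 (Finset.mem_univ _)) fun f hf f' hf' e => ?_
      obtain ⟨-, h1, h2, h3⟩ := Finset.mem_filter.1 (Finset.mem_coe.1 hf)
      obtain ⟨-, h4, h5, h6⟩ := Finset.mem_filter.1 (Finset.mem_coe.1 hf')
      simp only [Prod.mk.injEq] at e
      obtain ⟨e1, e2, e3, e4, e5, e6, e7⟩ := e
      exact Model.ext (h1.trans h4.symm) e1 e2 (h2.trans h5.symm) e3 (h3.trans h6.symm) e4 e5 e6 e7
    refine this.trans (le_of_eq ?_)
    simp only [Finset.card_univ, Fintype.card_prod, ← hq]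
    ring
  have c3 : (q - 1) ^ 3 * q ^ 3 ≤ B.card := by
    have : (Finset.univ : Finset (kˣ × kˣ × kˣ × k × k × k)).card ≤ B.card := by
      refine Finset.card_le_card_of_injOn t3tLow (fun p _ => Finset.mem_coe.2
        (Finset.mem_filter.2 ⟨Finset.mem_univ _, p.1.ne_zero, rfl, rfl, rfl⟩)) ?_
      rintro ⟨a, b, c, s, x, y⟩ - ⟨a', b', c', s', x', y'⟩ - e
      have e' := fun i j => congrArg (fun g : GL (Fin 3) k => g.1 i j) e
      obtain rfl : a = a' := Units.ext (e' 0 0)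
      obtain rfl : b = b' := Units.ext (e' 1 1)
      obtain rfl : c = c' := Units.ext (e' 2 2)
      obtain rfl : s = s' := e' 1 0
      obtain rfl : x = x' := e' 2 0
      obtain rfl : y = y' := e' 2 1
      rfl
    refine le_trans (le_of_eq ?_) this
    simp only [Finset.card_univ, Fintype.card_prod, Fintype.card_units, ← hq]
    ring
  have c4 : (q - 1) ^ 3 * q ^ 4 ≤ 8 * S2.card := by
    refine le_trans (le_of_eq ?_) (Finset.card_le_mul_card_image Finset.univ 8
      fun f _ => t3t_fiber f)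
    simp only [Finset.card_univ, Fintype.card_prod, Fintype.card_units, ← hq]
    ring
  have c5 : S2.card ≤ q ^ 7 := (Finset.card_le_card h21).trans c2
  have hq0 : 0 < q ^ 3 := pow_pos Fintype.card_pos 3
  refine Nat.le_of_mul_le_mul_left ?_ hq0
  obtain ⟨r, hr⟩ := Nat.exists_eq_add_of_le c1
  generalize q - 1 = u at *
  have d1 : 2 * (u ^ 3 * q ^ 3) * T.card ≤ 2 * B.card * T.card := by gcongr
  have d2 : Fintype.card (GL (Fin 3) k) * S.card ≤ Fintype.card (GL (Fin 3) k) * q ^ 7 := by gcongr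
  have d3 : r * S2.card ≤ r * q ^ 7 := by gcongr
  have d4 : q ^ 9 * (u ^ 3 * q ^ 4) ≤ q ^ 9 * (8 * S2.card) := by gcongr
  have d5 : q ^ 9 * S2.card = Fintype.card (GL (Fin 3) k) * S2.card + r * S2.card := by
    rw [hr]; ring
  have d6 : q ^ 9 * q ^ 7 = Fintype.card (GL (Fin 3) k) * q ^ 7 + r * q ^ 7 := by
    rw [hr]; ring
  nlinarith

lemma t3t_real {u t : ℝ} (hu : 127 ≤ u)
    (h : 16 * (u ^ 3 * t) + (u + 1) ^ 10 * u ^ 3 ≤ 16 * (u + 1) ^ 13) :
    t / (u + 1) ^ 10 ≤ 1 - 1 / 32 := by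
  have h0 : 0 < u := by linarith
  have h3 : 32 * (u + 1) ^ 3 ≤ 33 * u ^ 3 := by
    have a1 : 127 * u ^ 2 ≤ u ^ 3 := by
      rw [pow_succ u 2, mul_comm (u ^ 2)]
      exact mul_le_mul_of_nonneg_right hu (sq_nonneg u)
    have a2 : 127 * u ≤ u ^ 2 := by
      rw [sq]
      exact mul_le_mul_of_nonneg_right hu h0.le
    have a3 : (u + 1) ^ 3 = u ^ 3 + 3 * u ^ 2 + 3 * u + 1 := by ring
    linarith
  have hQ : 0 < (u + 1) ^ 10 := by positivity
  have hU : 0 < u ^ 3 := by positivity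
  rw [div_le_iff₀ hQ]
  refine le_of_mul_le_mul_left ?_ hU
  have h4 := mul_le_mul_of_nonneg_left h3 hQ.le
  have h5 : (u + 1) ^ 13 = (u + 1) ^ 10 * (u + 1) ^ 3 := by ring
  rw [h5] at h
  generalize (u + 1) ^ 10 = Q at *
  generalize (u + 1) ^ 3 = A at *
  generalize u ^ 3 = U at *
  linarith

theorem t3t_card_le (hk : 128 ≤ Fintype.card k) (T : Finset (Model k))
    (hT : ∀ f ∈ T, ∃ M : GL (Fin 3) k,
      (f.subst M).a = 0 ∧ (f.subst M).a2 = 0 ∧ (f.subst M).b1 = 0) :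
    (T.card : ℝ) / ((Fintype.card k ^ 10 : ℕ) : ℝ) ≤ 1 - 1 / 32 := by
  have h := t3t_count T hT
  obtain ⟨u, hu⟩ : ∃ u, Fintype.card k = u + 1 := ⟨Fintype.card k - 1, by omega⟩
  rw [hu] at h hk ⊢
  rw [Nat.add_sub_cancel] at h
  have hu' : (127 : ℝ) ≤ u := by exact_mod_cast (by omega : 127 ≤ u)
  have h' : 16 * ((u : ℝ) ^ 3 * T.card) + ((u : ℝ) + 1) ^ 10 * u ^ 3
      ≤ 16 * ((u : ℝ) + 1) ^ 13 := by
    exact_mod_cast h
  push_cast
  exact t3t_real hu' h'

/-- (4): the cubics with a rational flex flag have density at most `31/32`. -/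
theorem dens_le_of_flexFlag (hk : 128 ≤ Fintype.card k) (P : Model k → Prop)
    (hP : ∀ f, P f → ∃ M : GL (Fin 3) k,
      (f.subst M).a = 0 ∧ (f.subst M).a2 = 0 ∧ (f.subst M).b1 = 0) :
    dens (Finset.univ : Finset (Model k)) P ≤ 1 - 1 / 32 := by
  unfold dens
  rw [Finset.card_univ, card_model]
  exact t3t_card_le hk _ fun f hf => hP f (Finset.mem_filter.1 hf).2

theorem dens_flexFlag_le (hk : 128 ≤ Fintype.card k) :
    dens (Finset.univ : Finset (Model k)) (fun f => ∃ M : GL (Fin 3) k,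
      (f.subst M).a = 0 ∧ (f.subst M).a2 = 0 ∧ (f.subst M).b1 = 0) ≤ 1 - 1 / 32 :=
  dens_le_of_flexFlag hk _ fun _ h => h

end Fin

end SelAvg.FF.T3
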