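import Pool.Agent.H5T.ToM
import Pool.Agent.H5T.Tail3A
import Pool.Agent.H5T.Tail3C
import Pool.Agent.H5T.Tail3J
import Pool.Agent.H5T.Tail3T

/-! Block TAIL3: negligible sets of ternary cubics on product boxes. -/

namespace SelAvg.FF.T3

open WeierstrassCurve WithZero Filter Topology
open scoped Classical

section Gen

variable (k : Type) [Field k] {A : Type} [CommRing A] [Algebra k A]

/-- the Jacobian of the generic cubic -/
noncomputable def genJ : WeierstrassCurve (MvPolynomial (Fin 10) k) := (toM MvPolynomial.X).jac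

lemma genJ_map (x : Fin 10 → A) :
    (genJ k).map (MvPolynomial.aeval x : MvPolynomial (Fin 10) k →ₐ[k] A).toRingHom =
      (toM x).jac := by
  rw [genJ, ← Model.jac_map, toM, Model.equivVec_symm_map]
  congr 2
  funext i
  exact MvPolynomial.aeval_X x i

lemma aeval_genJ_c46 (x : Fin 10 → A) :
    MvPolynomial.aeval x ((genJ k).c₄ * (genJ k).c₆) = (toM x).jac.c₄ * (toM x).jac.c₆ := by
  rw [← genJ_map k x, map_c₄, map_c₆, map_mul]
  rfl

lemma aeval_genJ_b2 (x : Fin 10 → A) : MvPolynomial.aeval x (genJ k).b₂ = (toM x).jac.b₂ := by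
  rw [← genJ_map k x, map_b₂]
  rfl

lemma genJ_c46_ne_zero : (genJ k).c₄ * (genJ k).c₆ ≠ 0 := by
  intro h
  have h1 := aeval_genJ_c46 k (Model.equivVec (wcub (⟨1, 0, 0, 0, 0⟩ : WeierstrassCurve k)))
  rw [h, map_zero, toM, Equiv.symm_apply_apply, jac_wcub] at h1
  exact tailAlg_c46 k h1.symm

lemma genJ_b2_ne_zero : (genJ k).b₂ ≠ 0 := by
  intro h
  have h1 := aeval_genJ_b2 k (Model.equivVec (wcub (⟨1, 0, 0, 0, 0⟩ : WeierstrassCurve k)))
  rw [h, map_zero, toM, Equiv.symm_apply_apply, jac_wcub] at h1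
  simp [b₂] at h1

end Gen

variable {F : Type} [Field F]

lemma t3spec_PD (x : Fin 10 → F) : t3spec (H5T.PD MvPolynomial.X) x = H5T.PD x := by
  rw [t3spec, H5T.PD_map]
  congr 1
  funext i
  exact MvPolynomial.aeval_X x i

/-- scaling a nonzero vector to a primitive one -/
lemma t3_prim (v : Place F) {p : Pt F} (hp : p ≠ 0) :
    ∃ (t : F) (i : Fin 3) (y : Pt (OO v)), t ≠ 0 ∧ y i = 1 ∧ y.map (OO v).subtype = t • p := by
  obtain ⟨i, hi⟩ := Finite.exists_max fun j => v.1 (p j)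
  have h0 : p i ≠ 0 := fun h => hp (funext fun j => by
    have h1 := hi j
    rwa [h, map_zero, le_zero_iff, map_eq_zero] at h1)
  refine ⟨(p i)⁻¹, i, fun j => ⟨(p i)⁻¹ * p j, ?_⟩, inv_ne_zero h0,
    Subtype.ext (inv_mul_cancel₀ h0), rfl⟩
  rw [Valuation.mem_valuationSubring_iff, map_mul, map_inv₀]
  exact inv_mul_le_one_of_le₀ (hi j) zero_le

/-- a rational flag reduces to a flag -/
lemma t3_triv_red {v : Place F} {f : Model (OO v)} (h : (f.map (OO v).subtype).Triv) {κ : Type}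
    [Field κ] (φ : OO v →+* κ) : ∃ M : GL (Fin 3) κ, Fl (f.map φ) (M.1 0) (M.1 1) := by
  obtain ⟨g, ⟨h1, h2⟩, h3⟩ := h
  obtain ⟨c1, -, c3, c4, -⟩ := t3_coeffs g (f.map (OO v).subtype)
  rw [h1, mul_zero] at c1
  rw [h2, mul_zero] at c3
  rw [h3, mul_zero] at c4
  have hind : ∀ a b : F, a • g.e 0 + b • g.e 1 = 0 → a = 0 ∧ b = 0 := fun a b hab => by
    have e : g.pt ![a, b, 0] = 0 := by
      funext j
      rw [G.pt_apply]
      simpa using congrFun hab j
    have e' := g.inv_pt_pt ![a, b, 0]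
    rw [e, G.pt, Matrix.zero_vecMul] at e'
    exact ⟨(congrFun e' 0).symm, (congrFun e' 1).symm⟩
  obtain ⟨s, i, y, -, hy, hp⟩ := t3_prim v (p := g.e 0) fun h0 =>
    one_ne_zero (hind 1 0 (by rw [h0, smul_zero, zero_smul, add_zero])).1
  have a1 := ((Fl.smul ⟨c1, c3, c4⟩ s 1).shift (-g.e 1 i)).1
  rw [one_smul] at a1
  obtain ⟨t, j, z, ht, hz, hq⟩ := t3_prim v (p := g.e 1 + -g.e 1 i • s • g.e 0) fun h0 =>
    one_ne_zero (hind (-g.e 1 i * s) 1 (by rw [one_smul, mul_smul, add_comm, h0])).2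
  have a2 := a1.smul 1 t
  rw [one_smul, ← hq, ← hp] at a2
  have hzi : z i = 0 := by
    apply (OO v).subtype_injective
    have b1 := congrFun hq i
    have b2 := congrFun hp i
    simp only [Pi.smul_apply, Pi.add_apply, Function.comp_apply, hy, map_one] at b1 b2
    rw [b1, ← b2, map_zero]
    simp
  obtain ⟨M, m0, m1⟩ := t3_complete (p := y.map φ) (q := z.map φ) (i := i) (j := j)
    (fun e => one_ne_zero (hz.symm.trans (e ▸ hzi)))
    ((congrArg φ hy).trans (map_one φ)) ((congrArg φ hzi).trans (map_zero φ))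
    ((congrArg φ hz).trans (map_one φ))
  exact ⟨M, by rw [m0, m1]; exact (a2.of_map (OO v).subtype_injective).map φ⟩

variable [Cv F]

theorem tendsto_large (D : Fin 10 → Div F) (b : ℕ) :
    Tendsto (fun m => dens (PB D kV m) fun x => ∃ v : Place F, m * pp F < 2 * dg v + b ∧
      v.1 (toM x).jac.Δ ≤ exp (-2)) atTop (𝓝 0) := by
  obtain ⟨x₀, h₀, h₉⟩ := H5T.exists_witness' F
  have h1 := (t3_pair D kV_pos (N := fun m => (m - b) / 2) two_pos fun _ => le_rfl).add
    (t3_large D kV_pos (N := fun m => (m - b) / 2) two_pos (fun _ => le_rfl) 9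
      (H5T.PD MvPolynomial.X) (fun x a => by rw [t3spec_PD, t3spec_PD, H5T.PD_update])
      (x₀ := x₀) (by rwa [t3spec_PD]) (by rw [t3spec_PD, h₉]; exact H5T.PD_natDegree_le _))
  rw [add_zero] at h1
  obtain ⟨c₁, h₁⟩ := tl_integral D kV
  refine squeeze_zero' (Eventually.of_forall fun d => dens_nonneg _ _) ?_ h1
  filter_upwards [eventually_ge_atTop (2 * c₁ + b)] with m hm
  refine le_trans (dens_mono fun x hx => ?_) (dens_or_le _ _ _)
  rintro ⟨v, h2, h3⟩
  have h4 : m ≤ m * pp F := Nat.le_mul_of_pos_right m pp_pos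
  have h5 : (m - b) / 2 ≤ dg v := by omega
  by_cases h : RedNe v (H5T.PD x)
  · refine Or.inr ⟨v, h5, ?_⟩
    rw [t3spec_PD, ← jac_Δ_eq]
    exact ⟨h, h3⟩
  · obtain ⟨y, rfl⟩ := (h₁ v (by omega)).2 m x hx
    have h6 : H5T.PD (fun i => rO v (y i)) = 0 := by
      by_contra h7
      exact h ⟨H5T.PD y, H5T.PD_map _ _, by rwa [H5T.PD_map]⟩
    obtain ⟨i, j, hij, a1, a2⟩ := H5T.two_zero (fun i => rO v (y i))
      (by rw [h6, Polynomial.coeff_zero]) (by rw [h6, Polynomial.coeff_zero])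
    exact Or.inl ⟨v, h5, i, j, hij.ne, (rO_eq_zero _).1 a1, (rO_eq_zero _).1 a2⟩

theorem tendsto_c46_V (D : Fin 10 → Div F) :
    Tendsto (fun m => dens (PB D kV m) fun x => (toM x).jac.c₄ = 0 ∨ (toM x).jac.c₆ = 0) atTop
      (𝓝 0) := by
  simp only [← mul_eq_zero, ← aeval_genJ_c46 F]
  exact dens_aeval_tendsto D kV_pos (genJ_c46_ne_zero F)

lemma t3_dg_le (v : Place F) : dg v ≤ Fintype.card (kv v) := by
  rw [← Nat.card_eq_fintype_card, (card_kv v).2]
  exact (Nat.lt_pow_self (Cv.two_le (F := F))).le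

theorem tendsto_threeTorsion (D : Fin 10 → Div F) :
    Tendsto (fun m => dens (PB D kV m) fun x => ¬NoThreeTorsion (toM x).jac) atTop (𝓝 0) := by
  have hp := Fact.mk (prime_ringChar (F := F))
  have h0 : ∀ v : Place F, ((ringChar F : ℕ) : OO v) = 0 := fun v =>
    (OO v).subtype_injective (by rw [map_natCast, map_zero, ringChar.Nat.cast_ringChar])
  refine PB_sieve D kV_pos _ (c := 1 / 128) (by norm_num)
    (128 * (genJ (ZMod (ringChar F))).b₂.totalDegree)
    (fun v y => Flex3 (toM y).jac ∨ (toM y).jac.b₂ = 0) (fun v hv => ?_) fun v y h => ?_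
  · have : CharP (kv v) (ringChar F) := (CharP.charP_iff_prime_eq_zero hp.out).2 (by
      rw [← map_natCast ((resv v).comp (tl_inc v)), h0, map_zero])
    let _ : Algebra (ZMod (ringChar F)) (kv v) := ZMod.algebra _ _
    have h1 := (negl_dens_equiv Model.equivVec.symm
      fun f : Model (kv v) => Flex3 f.jac).trans_le dens_flex3_le
    have h2 : dens Finset.univ (fun y : Fin 10 → kv v => (toM y).jac.b₂ = 0) ≤ 1 / 128 := by
      simp only [← aeval_genJ_b2 (ZMod (ringChar F))]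
      refine (dens_aeval_field (genJ_b2_ne_zero _) _).trans ?_
      have h4 : (128 : ℝ) * (genJ (ZMod (ringChar F))).b₂.totalDegree ≤ Fintype.card (kv v) := by
        exact_mod_cast hv.trans (t3_dg_le v)
      rw [div_le_iff₀ (Nat.cast_pos.2 Fintype.card_pos)]
      linarith
    refine (dens_or_le _ _ _).trans ((add_le_add h1 h2).trans (by norm_num))
  · rw [toM, ← Model.equivVec_symm_map, Model.jac_map] at h ⊢
    rw [map_b₂, or_iff_not_imp_right]
    intro hb
    simp only [NoThreeTorsion, not_forall] at h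
    obtain ⟨P, h3, hP⟩ := h
    refine (flex3_int (K := F) ?_ (flex3_of_point hP h3)).map _
    by_cases hc : ringChar F = 3
    · refine Or.inr ⟨by exact_mod_cast hc ▸ h0 v, ?_⟩
      by_contra hu
      exact hb (ad_j_ker v _ hu)
    · have h4 := (Nat.Coprime.cast (R := OO v)
        ((Nat.coprime_primes Nat.prime_three hp.out).2 (Ne.symm hc)))
      rw [h0, isCoprime_zero_right] at h4
      exact Or.inl (by exact_mod_cast h4)

theorem tendsto_triv (D : Fin 10 → Div F) :
    Tendsto (fun m => dens (PB D kV m) fun x => (toM x).Triv) atTop (𝓝 0) := by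
  refine PB_sieve D kV_pos _ (c := 1 / 32) (by norm_num) 128
    (fun v y => ∃ M : GL (Fin 3) (kv v), Fl (toM y) (M.1 0) (M.1 1)) (fun v hv => ?_)
    fun v y h => ?_
  · exact (negl_dens_equiv Model.equivVec.symm fun f : Model (kv v) =>
      ∃ M : GL (Fin 3) (kv v), Fl f (M.1 0) (M.1 1)).trans_le
        (dens_le_of_flexFlag (hv.trans (t3_dg_le v)) _ fun _ h => h)
  · rw [toM, ← Model.equivVec_symm_map] at h ⊢
    exact t3_triv_red h _

end SelAvg.FF.T3
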