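import Pool.Agent.H5T.Fin1

/-! The ratio for one divisor class, for ternary cubics. -/

namespace SelAvg.FF.T3

open WeierstrassCurve WithZero Filter Topology
open scoped Classical

variable {F : Type} [Field F] [Cv F]

lemma fin2_zz_pos : 0 < zt F * zt3 F := mul_pos fin2_zt_pos (zero_lt_one.trans_le one_le_zt3)

lemma fin2_tendsto :
    Tendsto (fun N => cS (plLE F N) * cS3 (plLE F N) * (zt F * zt3 F)) atTop (𝓝 1) := by
  have h := (tendsto_cS_mul_zt (F := F)).mul (tendsto_cS3_mul_zt3 (F := F))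
  rw [mul_one] at h
  exact h.congr fun N => by ring

lemma fin2_one_le (S : Finset (Place F)) : 1 ≤ cS S * cS3 S * (zt F * zt3 F) := by
  have h := one_le_mul_of_one_le_of_one_le (one_le_cS_mul_zt S) (one_le_cS3_mul_zt3 S)
  exact h.trans_eq (by ring)

theorem SD_sub_le (R : Div F) {ε : ℝ} (hε : 0 < ε) :
    ∀ᶠ m : ℕ in atTop, SD (R + m • PP F) - 3 * TD (R + m • PP F) ≤ ε := by
  obtain ⟨C, -, hC⟩ := le_TD (F := F)
  have hz : 0 < zt F * zt3 F := fin2_zz_pos
  have ha : 0 < ε / 32 := by positivity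
  have hb : 0 < ε / 32 / (zt F * zt3 F) := div_pos ha hz
  have h1 : ∀ᶠ N : ℕ in atTop, cS (plLE F N) * cS3 (plLE F N) * (zt F * zt3 F) ≤ 1 + ε / 32 :=
    (fin2_tendsto (F := F)).eventually (eventually_le_nhds (lt_add_of_pos_right _ ha))
  obtain ⟨N, hN1, hN2⟩ := (h1.and (fin2_tau (F := F) C ha)).exists
  obtain ⟨j, hj, hL⟩ := exists_level (plLE F N) hb
  have hd0 := delta_nonneg (plLE F N) j
  have hd1 := delta_le_one (plLE F N) j
  have hc0 := cS_nonneg (plLE F N)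
  have hc3 := cS3_nonneg (plLE F N)
  have hL0 : 0 ≤ 2 * (cS (plLE F N) * cS3 (plLE F N) * delta (plLE F N) j) +
      2 * (ε / 32 / (zt F * zt3 F)) + ε / 32 / (zt F * zt3 F) := by positivity
  filter_upwards [SD_eventually_le R (plLE F N) hL0
    (fun M => Uup_le (plLE F N) hj hb hL M R) ha, hC N hj ha R] with m hm hm'
  have e : 3 * (zt F * zt3 F) * (2 * (cS (plLE F N) * cS3 (plLE F N) * delta (plLE F N) j) +
      2 * (ε / 32 / (zt F * zt3 F)) + ε / 32 / (zt F * zt3 F)) =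
      6 * (cS (plLE F N) * cS3 (plLE F N) * (zt F * zt3 F) * delta (plLE F N) j) +
        9 * (ε / 32) := by
    generalize zt F * zt3 F = z at hz
    field_simp
    ring
  have h2 : cS (plLE F N) * cS3 (plLE F N) * (zt F * zt3 F) * delta (plLE F N) j ≤
      (1 + ε / 32) * delta (plLE F N) j := mul_le_mul_of_nonneg_right hN1 hd0
  have h3 : ε / 32 * delta (plLE F N) j ≤ ε / 32 := mul_le_of_le_one_right ha.le hd1
  have hm2 : SD (R + m • PP F) ≤ 3 * (zt F * zt3 F) *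
      (2 * (cS (plLE F N) * cS3 (plLE F N) * delta (plLE F N) j) +
      2 * (ε / 32 / (zt F * zt3 F)) + ε / 32 / (zt F * zt3 F)) + ε / 32 :=
    hm.trans_eq (by ring)
  rw [e] at hm2
  linarith

theorem le_SD_sub (R : Div F) {ε : ℝ} (hε : 0 < ε) :
    ∀ᶠ m : ℕ in atTop, -ε ≤ SD (R + m • PP F) - 3 * TD (R + m • PP F) := by
  have hz : 0 < zt F * zt3 F := fin2_zz_pos
  have ha : 0 < ε / 64 := by positivity
  have hb : 0 < ε / 64 / (zt F * zt3 F) := div_pos ha hz
  obtain ⟨N, hN⟩ := (fin2_tau (F := F) (zt F * zt3 F) ha).exists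
  have hCS := CS_pos (plLE F N)
  obtain ⟨j, hj, hL⟩ := exists_level (plLE F N) (div_pos hb hCS)
  have hd0 := delta_nonneg (plLE F N) j
  filter_upwards [SD_eventually_ge R (plLE F N)
    (fun M => le_Ulow N hj hb hL M R) ha, TD_le (plLE F N) hj ha R] with m hm hm'
  have e : 3 * (zt F * zt3 F) * (2 * (cS (plLE F N) * cS3 (plLE F N) * delta (plLE F N) j) -
      2 * CS (plLE F N) * (ε / 64 / (zt F * zt3 F) / CS (plLE F N)) - 10 * tau F N -
      ε / 64 / (zt F * zt3 F)) =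
      6 * (cS (plLE F N) * cS3 (plLE F N) * (zt F * zt3 F) * delta (plLE F N) j) -
        30 * (zt F * zt3 F * tau F N) - 9 * (ε / 64) := by
    generalize zt F * zt3 F = z at hz
    field_simp
    ring
  have h2 : delta (plLE F N) j ≤
      cS (plLE F N) * cS3 (plLE F N) * (zt F * zt3 F) * delta (plLE F N) j :=
    le_mul_of_one_le_left hd0 (fin2_one_le _)
  have hm2 : 3 * (zt F * zt3 F) * (2 * (cS (plLE F N) * cS3 (plLE F N) * delta (plLE F N) j) -
      2 * CS (plLE F N) * (ε / 64 / (zt F * zt3 F) / CS (plLE F N)) - 10 * tau F N -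
      ε / 64 / (zt F * zt3 F)) - ε / 64 ≤ SD (R + m • PP F) :=
    le_of_eq_of_le (by ring) hm
  rw [e] at hm2
  linarith

theorem abs_SD_sub_le (R : Div F) {ε : ℝ} (hε : 0 < ε) : ∀ᶠ m : ℕ in atTop,
    |SD (R + m • PP F) - 3 * TD (R + m • PP F)| ≤ ε * TD (R + m • PP F) := by
  have ha : 0 < ε * (1 / zt F) ^ 5 := mul_pos hε (pow_pos (one_div_pos.2 fin2_zt_pos) _)
  filter_upwards [TD_ge R, SD_sub_le R ha, le_SD_sub R ha] with m h1 h2 h3
  exact (abs_le.2 ⟨h3, h2⟩).trans (mul_le_mul_of_nonneg_left h1 hε.le)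

end SelAvg.FF.T3
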