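import Pool.Agent.H5T.Mod
import Pool.Agent.H5T.ToM
import Pool.Agent.H5T.Sieg3
import Pool.Agent.H81Sel.Glob1

/-! Adelic points of the group of ternary cubics, integrality, local models; invariance. -/

namespace SelAvg.FF.T3

open WeierstrassCurve WithZero Filter Topology Matrix
open scoped Classical ENNReal

variable {F : Type} [Field F]

variable (F) in
/-- the integral points -/
noncomputable def KG : Subgroup (G (A F)) := (G.map (inc F)).range

variable (F) in
/-- torsors with a generic trivialisation -/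
abbrev XG : Type := RC (KG F)

/-- the underlying bundle of rank three -/
noncomputable def pM (x : XG F) : X3 F := RC.mk (K3 F) x.out.M

/-- the divisor of the line bundle of the Jacobian -/
noncomputable def cls (g : G (A F)) : Div F := idiv g.det - idiv g.μ

lemma mem_KG {k : G (A F)} :
    k ∈ KG F ↔ k.M ∈ K3 F ∧ idiv k.μ = 0 := by
  constructor
  · rintro ⟨k₀, rfl⟩
    exact ⟨⟨k₀.M, rfl⟩, (idiv_eq_zero_iff _).2 ⟨k₀.μ, rfl⟩⟩
  · rintro ⟨⟨M, hM⟩, hu⟩
    obtain ⟨e, he⟩ := (idiv_eq_zero_iff _).1 hu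
    exact ⟨⟨M, e⟩, G.ext hM he⟩

/-- membership can be tested place by place -/
lemma mem_KG_of_forall {k : G (A F)}
    (h : ∀ v : Place F, ∃ h : G v.loc.O, G.map v.loc.incl h = G.map (pr v) k) : k ∈ KG F := by
  choose h hh using h
  refine mem_KG.2 ⟨mem_K3.2 ⟨fun i j => glob0_mem fun v => ⟨(h v).M.1 i j, ?_⟩,
    glob0_idiv fun v => ⟨(h v).det, ?_⟩⟩, glob0_idiv fun v => ⟨(h v).μ, congrArg G.μ (hh v)⟩⟩
  · exact congrArg (fun g : G v.Compl => g.M.1 i j) (hh v)
  · have := congrArg G.det (hh v)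
    rwa [G.map_det, G.map_det] at this

/-- patching of local group elements that are trivial outside a finite set -/
lemma exists_G_patch (T : Finset (Place F)) (g : ∀ v : Place F, G v.Compl) :
    ∃ g₀ : G (A F), (∀ v ∈ T, G.map (pr v) g₀ = g v) ∧ ∀ v ∉ T, G.map (pr v) g₀ = 1 := by
  let g' : ∀ v : Place F, G v.Compl := fun v => if v ∈ T then g v else 1
  have hg : ∀ v ∉ T, g' v = 1 := fun v hv => if_neg hv
  have key : ∀ a : ∀ v : Place F, v.Compl, (∀ v ∉ T, a v = 0 ∨ a v = 1) →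
      ∃ b : A F, ∀ v, pr v b = a v := fun a ha =>
    exists_adele a (T.finite_toSet.subset fun v hv => by
      by_contra hT
      rcases ha v hT with h | h <;> exact hv (by simp [h]))
  have hone : ∀ (v : Place F) (i j : Fin 3), (1 : Matrix (Fin 3) (Fin 3) v.Compl) i j = 0 ∨
      (1 : Matrix (Fin 3) (Fin 3) v.Compl) i j = 1 := fun v i j => by
    by_cases h : i = j
    · exact Or.inr (by rw [h, one_apply_eq])
    · exact Or.inl (one_apply_ne h)
  choose M hM using fun i j => key (fun v => (g' v).M.1 i j) fun v hv => by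
    simpa [hg v hv] using hone v i j
  choose N hN using fun i j => key (fun v => ((g' v).M⁻¹).1 i j) fun v hv => by
    simpa [hg v hv] using hone v i j
  obtain ⟨μ, hμ⟩ := key (fun v => (g' v).μ) fun v hv => by simp [hg v hv]
  obtain ⟨ν, hν⟩ := key (fun v => ((g' v).μ⁻¹ : (v.Compl)ˣ)) fun v hv => by simp [hg v hv]
  have hM' : ∀ v, (pr v).mapMatrix (of M) = (g' v).M.1 := fun v => Matrix.ext fun i j => hM i j v
  have hN' : ∀ v, (pr v).mapMatrix (of N) = ((g' v).M⁻¹).1 := fun v =>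
    Matrix.ext fun i j => hN i j v
  have hext : ∀ X Y : Matrix (Fin 3) (Fin 3) (A F),
      (∀ v, (pr v).mapMatrix X = (pr v).mapMatrix Y) → X = Y := fun X Y h =>
    Matrix.ext fun i j => A_ext fun v => congrFun (congrFun (h v) i) j
  have e : ∀ v, G.map (pr v) ⟨⟨of M, of N, hext _ _ fun v => by
        rw [map_mul, hM', hN', map_one, Units.mul_inv], hext _ _ fun v => by
        rw [map_mul, hM', hN', map_one, Units.inv_mul]⟩,
      ⟨μ, ν, A_ext fun v => by rw [map_mul, hμ, hν, map_one, Units.mul_inv],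
        A_ext fun v => by rw [map_mul, hμ, hν, map_one, Units.inv_mul]⟩⟩ = g' v :=
    fun v => G.ext (Units.ext (hM' v)) (Units.ext (hμ v))
  exact ⟨_, fun v hv => (e v).trans (if_pos hv), fun v hv => (e v).trans (hg v hv)⟩

lemma pM_mk (g : G (A F)) : pM (RC.mk (KG F) g) = RC.mk (K3 F) g.M := by
  obtain ⟨k, hk, e⟩ := RC.out_mk (K := KG F) g
  rw [pM, e, G.mul_M]
  exact (RC.mk_eq.2 ⟨k.M, (mem_KG.1 hk).1, rfl⟩).symm

lemma cls_K {k : G (A F)} (hk : k ∈ KG F) (g : G (A F)) : cls (k * g) = cls g := by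
  have h1 : idiv k.det = 0 := (mem_K3.1 (mem_KG.1 hk).1).2
  rw [cls, cls, G.det_mul, G.mul_μ, idiv_mul, idiv_mul, h1, (mem_KG.1 hk).2, zero_add, zero_add]

variable [Cv F]

variable (F) in
/-- the diagonal embedding -/
noncomputable abbrev gA : G F →* G (A F) := G.map (toA F)

variable (F) in
/-- change of the generic trivialisation -/
noncomputable def actG : G F →* Equiv.Perm (XG F) := (RC.act (KG F)).comp (gA F)

lemma actG_mk (γ : G F) (g : G (A F)) :
    actG F γ (RC.mk (KG F) g) = RC.mk (KG F) (g * (gA F γ)⁻¹) := rfl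

/-- the form in which invariance under `KG` and `G F` is used on representatives -/
lemma out_actG (γ : G F) (x : XG F) : ∃ k ∈ KG F, (actG F γ x).out = k * (x.out * (gA F γ)⁻¹) := by
  conv => enter [1, k, 2, 1]; rw [← x.mk_out, actG_mk]
  exact RC.out_mk _

lemma pM_act (γ : G F) (x : XG F) : pM (actG F γ x) = act3 F γ.M (pM x) := by
  obtain ⟨g, rfl⟩ := x.mk_surj
  rw [actG_mk, pM_mk, pM_mk, act3_mk, G.mul_M, G.inv_M]
  rfl

lemma cls_act (γ : G F) (g : G (A F)) :
    cls (g * (gA F γ)⁻¹) = cls g - dv ((γ.det : Fˣ) : F) + dv ((γ.μ : Fˣ) : F) := by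
  have h1 : idiv (gA F γ).det = dv ((γ.det : Fˣ) : F) := by
    rw [G.map_det]
    exact idiv_uA γ.det
  have h2 : idiv (gA F γ).μ = dv ((γ.μ : Fˣ) : F) := idiv_uA γ.μ
  rw [cls, cls, G.det_mul, G.mul_μ, idiv_mul, idiv_mul, G.det_inv, G.inv_μ, idiv_inv, idiv_inv,
    h1, h2]
  abel

/-- `M` by `finite_stab3`, `μ` by `finite_ww` -/
theorem finite_stabG (x : XG F) : {γ : G F | actG F γ x = x}.Finite := by
  obtain ⟨g, rfl⟩ := x.mk_surj
  refine (((finite_stab3 (pM (RC.mk (KG F) g))).prod (finite_ww (F := F))).image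
      fun p => (⟨p.1, p.2⟩ : G F)).subset fun γ hγ => ?_
  obtain ⟨k, hk, e⟩ := RC.mk_eq.1 ((actG_mk _ _).symm.trans hγ)
  have e' : gA F γ = g⁻¹ * k * g := by
    rw [mul_assoc, eq_inv_mul_iff_mul_eq, ← eq_mul_inv_iff_mul_eq, mul_assoc]
    exact e
  refine ⟨(γ.M, γ.μ), ⟨?_, ?_⟩, rfl⟩
  · change act3 F γ.M _ = _
    rw [← pM_act, hγ]
  · have h2 : idiv (gA F γ).μ = dv ((γ.μ : Fˣ) : F) := idiv_uA γ.μ
    change dv ((γ.μ : Fˣ) : F) = 0
    rw [← h2, e', G.mul_μ, G.mul_μ, G.inv_μ, idiv_mul, idiv_mul, idiv_inv, (mem_KG.1 hk).2]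
    abel

/-- the torsors whose line bundle is isomorphic to that of `D` -/
def XD (D : Div F) : Set (XG F) := {x | ∃ u : Fˣ, cls x.out = D + dv (u : F)}

lemma mk_mem_XD {D : Div F} {g : G (A F)} :
    RC.mk (KG F) g ∈ XD D ↔ ∃ u : Fˣ, cls g = D + dv (u : F) := by
  obtain ⟨k, hk, e⟩ := RC.out_mk (K := KG F) g
  rw [XD, Set.mem_ofPred_eq, e, cls_K hk]

lemma act_mem_XD {D : Div F} (γ : G F) {x : XG F} : actG F γ x ∈ XD D ↔ x ∈ XD D := by
  obtain ⟨g, rfl⟩ := x.mk_surj
  rw [actG_mk, mk_mem_XD, mk_mem_XD, cls_act]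
  constructor
  · rintro ⟨u, hu⟩
    refine ⟨u * γ.det * γ.μ⁻¹, ?_⟩
    rw [Units.val_mul, Units.val_mul, dv_mul (mul_ne_zero u.ne_zero γ.det.ne_zero) (Units.ne_zero _),
      dv_mul u.ne_zero γ.det.ne_zero, Units.val_inv_eq_inv_val, dv_inv, ← add_assoc, ← add_assoc,
      ← hu]
    abel
  · rintro ⟨u, hu⟩
    refine ⟨u * γ.det⁻¹ * γ.μ, ?_⟩
    rw [Units.val_mul, Units.val_mul,
      dv_mul (mul_ne_zero u.ne_zero (Units.ne_zero _)) (Units.ne_zero _),
      dv_mul u.ne_zero (Units.ne_zero _), Units.val_inv_eq_inv_val, dv_inv, hu]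
    abel

/-- the model is integral for the trivialisations `g` -/
def IntM (g : G (A F)) (f : Model F) : Prop :=
  ∃ f₀ : Model (Oh F), f₀.map (inc F) = g • f.map (toA F)

lemma intM_iff {g : G (A F)} {f : Model F} :
    IntM g f ↔ ∀ i, Model.equivVec (g • f.map (toA F)) i ∈ Oh F := by
  constructor
  · rintro ⟨f₀, h⟩ i
    rw [← h, vec_map]
    exact (Model.equivVec f₀ i).2
  · intro h
    exact ⟨toM fun i => ⟨_, h i⟩, (Model.equivVec_symm_map _ _).trans
      (Model.equivVec.symm_apply_apply _)⟩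

lemma intM_K {k : G (A F)} (hk : k ∈ KG F) (g : G (A F)) (f : Model F) :
    IntM (k * g) f ↔ IntM g f := by
  have key : ∀ {k : G (A F)}, k ∈ KG F → ∀ g, IntM g f → IntM (k * g) f := by
    rintro _ ⟨k₀, rfl⟩ g ⟨f₀, h⟩
    exact ⟨k₀ • f₀, by rw [G.map_smul, h, mul_smul]⟩
  refine ⟨fun h => ?_, key hk g⟩
  simpa using key ((KG F).inv_mem hk) _ h

lemma act_smul_map (γ : G F) (g : G (A F)) (f : Model F) :
    (g * (gA F γ)⁻¹) • (γ • f).map (toA F) = g • f.map (toA F) := by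
  rw [G.map_smul, ← mul_smul, inv_mul_cancel_right]

lemma intM_act (γ : G F) (g : G (A F)) (f : Model F) :
    IntM (g * (gA F γ)⁻¹) (γ • f) ↔ IntM g f := by
  rw [IntM, IntM, act_smul_map]

/-- the local model -/
noncomputable def locM (v : Place F) (g : G (A F)) (f : Model F) : Model v.loc.O :=
  toM fun i => cO v (Model.equivVec (g • f.map (toA F)) i)

lemma locM_eq {g : G (A F)} {f : Model F} {f₀ : Model (Oh F)}
    (h : f₀.map (inc F) = g • f.map (toA F)) (v : Place F) : locM v g f = f₀.map (prO v) := by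
  rw [locM, ← h]
  apply Model.equivVec.injective
  funext i
  rw [Equiv.apply_symm_apply, vec_map, vec_map]
  exact cO_coe v _

lemma locM_act (v : Place F) (γ : G F) (g : G (A F)) (f : Model F) :
    locM v (g * (gA F γ)⁻¹) (γ • f) = locM v g f := by
  rw [locM, locM, act_smul_map]

lemma locM_K {k g : G (A F)} (hk : k ∈ KG F) {f : Model F} (hf : IntM g f) (v : Place F) :
    ∃ h : G v.loc.O, locM v (k * g) f = h • locM v g f := by
  obtain ⟨k₀, rfl⟩ := hk
  obtain ⟨f₀, h⟩ := hf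
  refine ⟨G.map (prO v) k₀, ?_⟩
  rw [locM_eq h, ← G.map_smul]
  exact locM_eq (by rw [G.map_smul, h, mul_smul]) v

lemma locM_map {g : G (A F)} {f : Model F} (hf : IntM g f) (v : Place F) :
    (locM v g f).map v.loc.incl = G.map (pr v) g • f.map (algebraMap F v.Compl) := by
  obtain ⟨f₀, h⟩ := hf
  rw [locM_eq h, Model.map_map, incl_comp_prO, ← Model.map_map, h, G.map_smul, Model.map_map,
    pr_comp_toA]

lemma glob0_Delta {g : G (A F)} {f : Model F} (hf : IntM g f) (v : Place F) :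
    ((locM v g f).jac.Δ : v.Compl) =
      pr v ((g.μ * g.det⁻¹)⁻¹ : (A F)ˣ) ^ 12 * algebraMap F v.Compl f.jac.Δ := by
  have h := congrArg (fun f => f.jac.Δ) (locM_map hf v)
  simp only [Model.jac_map, map_Δ, G.jac_smul, variableChange_Δ, G.Gam_u, G.map_det,
    G.map_μ] at h
  refine h.trans ?_
  rw [← map_inv, ← map_mul, ← map_inv]
  rfl

lemma locM_Delta {g : G (A F)} {f : Model F} (hf : IntM g f) (hΔ : f.jac.Δ ≠ 0) (v : Place F) :
    (locM v g f).jac.Δ ≠ 0 := by
  intro h0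
  have h := glob0_Delta hf v
  rw [h0, ZeroMemClass.coe_zero, eq_comm, mul_eq_zero] at h
  rcases h with h | h
  · exact pow_ne_zero _ ((Units.isUnit _).map (pr v)).ne_zero h
  · exact hΔ ((map_eq_zero _).1 h)

/-- `G.jac_smul`, `G.Gam_u`, `variableChange_Δ` -/
lemma v_locM_Delta {g : G (A F)} {f : Model F} (hf : IntM g f) (v : Place F) :
    v.vc ((locM v g f).jac.Δ : v.Compl) = exp (-(12 * cls g v)) * v.1 f.jac.Δ := by
  rw [glob0_Delta hf v, map_mul, map_pow, vc_unit, Place.vc_algebraMap, ← WithZero.exp_nsmul, idiv_inv,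
    idiv_mul, idiv_inv, cls]
  congr 2
  simp only [Finsupp.neg_apply, Finsupp.add_apply, Finsupp.sub_apply, nsmul_eq_mul]
  push_cast
  ring

end SelAvg.FF.T3
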