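import Pool.Agent.H5T.Glob0
import Pool.Agent.H5T.LangS

/-! Triangular form of the group elements, the boxes of cubics, the bound in the cusp. -/

namespace SelAvg.FF.T3

open WeierstrassCurve WithZero Filter Topology Matrix
open scoped Classical ENNReal

/-- the coefficients in lexicographic order -/
def lexV {R : Type} : Model R ≃ (Fin 10 → R) where
  toFun f := ![f.a, f.a2, f.a3, f.b1, f.m, f.c1, f.b, f.b3, f.c2, f.c]
  invFun v := ⟨v 0, v 6, v 9, v 1, v 2, v 3, v 7, v 5, v 8, v 4⟩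
  left_inv f := rfl
  right_inv v := by funext i; fin_cases i <;> rfl

/-- the leading coefficients of the triangular substitution -/
def gtW {R : Type} [CommRing R] (α β γ ν : R) : Fin 10 → R :=
  ![α ^ 3 * ν, α ^ 2 * β * ν, α ^ 2 * γ * ν, α * β ^ 2 * ν, α * β * γ * ν, α * γ ^ 2 * ν,
    β ^ 3 * ν, β ^ 2 * γ * ν, β * γ ^ 2 * ν, γ ^ 3 * ν]

lemma gt_lex {R : Type} [CommRing R] (α β γ ν η₁ η₂ η₃ : R) (x : Fin 10 → R) :
    lexV (((lexV.symm x).subst !![α, 0, 0; β * η₁, β, 0; γ * η₂, γ * η₃, γ]).scale ν) =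
      gtW α β γ ν * (x + ![0, 3 * x 0 * η₁, 3 * x 0 * η₂ + x 1 * η₃,
        3 * x 0 * η₁ ^ 2 + 2 * x 1 * η₁,
        6 * x 0 * η₁ * η₂ + 2 * x 1 * (η₂ + η₁ * η₃) + 2 * x 2 * η₁ + 2 * x 3 * η₃,
        3 * x 0 * η₂ ^ 2 + 2 * x 1 * η₂ * η₃ + 2 * x 2 * η₂ + x 3 * η₃ ^ 2 + x 4 * η₃,
        x 0 * η₁ ^ 3 + x 1 * η₁ ^ 2 + x 3 * η₁,
        3 * x 0 * η₁ ^ 2 * η₂ + x 1 * (2 * η₁ * η₂ + η₁ ^ 2 * η₃) + x 2 * η₁ ^ 2 +
          x 3 * (η₂ + 2 * η₁ * η₃) + x 4 * η₁ + 3 * x 6 * η₃,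
        3 * x 0 * η₁ * η₂ ^ 2 + x 1 * (η₂ ^ 2 + 2 * η₁ * η₂ * η₃) + 2 * x 2 * η₁ * η₂ +
          x 3 * (2 * η₂ * η₃ + η₁ * η₃ ^ 2) + x 4 * (η₂ + η₁ * η₃) + x 5 * η₁ +
          3 * x 6 * η₃ ^ 2 + 2 * x 7 * η₃,
        x 0 * η₂ ^ 3 + x 1 * η₂ ^ 2 * η₃ + x 2 * η₂ ^ 2 + x 3 * η₂ * η₃ ^ 2 + x 4 * η₂ * η₃ +
          x 5 * η₂ + x 6 * η₃ ^ 3 + x 7 * η₃ ^ 2 + x 8 * η₃]) := by
  funext i
  rw [Pi.mul_apply, Pi.add_apply]
  fin_cases i <;>
    simp [lexV, gtW, Model.scale, Model.subst, Model.F, Model.pol, Model.tri, Model.Fx, Model.Fy,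
      Model.Fz] <;> ring

lemma gt_int {d n m b : ℤ} (hb : 0 ≤ b) (h1 : -b ≤ n) (h2 : -b ≤ m) (hd : 0 ≤ d) (h3 : -b ≤ d - n)
    (h4 : -(2 * b) ≤ d - m) (e : Fin 10 → ℤ)
    (he : e = ![d - 2 * n - m, d - n - m, d - n, d - m, d, d + m, d + n - m, d + n, d + n + m,
      d + n + 2 * m]) : ∑ i, max (e i) 0 ≤ 10 * d + (n + m + min n m) + 28 * b := by
  have h5 : ∀ x, -(3 * b) ≤ x → max x 0 ≤ x + 3 * b := fun x hx => by omega
  have a0 : max (d - 2 * n - m) 0 + max (d - n - m) 0 ≤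
      d - 2 * n - m + (d - n - m) + (n + m + min n m) + 4 * b := by omega
  have a2 := h5 (d - n) (by omega)
  have a3 := h5 (d - m) (by omega)
  have a4 := h5 d (by omega)
  have a5 := h5 (d + m) (by omega)
  have a6 := h5 (d + n - m) (by omega)
  have a7 := h5 (d + n) (by omega)
  have a8 := h5 (d + n + m) (by omega)
  have a9 := h5 (d + n + 2 * m) (by omega)
  simp only [he, Fin.sum_univ_succ, cons_val_zero, cons_val_succ, Finset.univ_eq_empty,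
    Finset.sum_empty]
  linarith

variable {F : Type} [Field F]

/-- the triangular elements -/
noncomputable def gt (B C Z : Div F) (η₁ η₂ η₃ : A F) (E : Div F) : G (A F) :=
  ⟨tri3 B C Z η₁ η₂ η₃, piD E⟩

theorem exists_gt' {g : G (A F)} {B C Z : Div F} {η₁ η₂ η₃ : A F}
    (h : RC.mk (K3 F) g.M = RC.mk (K3 F) (tri3 B C Z η₁ η₂ η₃)) :
    ∃ k ∈ KG F, ∃ E, g = k * gt B C Z η₁ η₂ η₃ E := by
  obtain ⟨k, hk, h'⟩ := RC.mk_eq.1 h.symm
  refine ⟨⟨k, g.μ * (piD (idiv g.μ))⁻¹⟩, mem_KG.2 ⟨hk, ?_⟩, idiv g.μ,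
    G.ext h' (inv_mul_cancel_right _ _).symm⟩
  change idiv (g.μ * (piD (idiv g.μ))⁻¹) = 0
  rw [idiv_mul, idiv_inv, idiv_piD, add_neg_cancel]

theorem exists_gt (g : G (A F)) :
    ∃ k ∈ KG F, ∃ B C Z η₁ η₂ η₃ E, g = k * gt B C Z η₁ η₂ η₃ E := by
  obtain ⟨k, hk, B, C, Z, η₁, η₂, η₃, h⟩ := exists_tri3 g.M
  obtain ⟨k', hk', E, h'⟩ := exists_gt' (RC.mk_eq.2 ⟨k, hk, h⟩).symm
  exact ⟨k', hk', B, C, Z, η₁, η₂, η₃, E, h'⟩

lemma cls_gt (B C Z : Div F) (η₁ η₂ η₃ : A F) (E : Div F) :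
    cls (gt B C Z η₁ η₂ η₃ E) = B + C + Z - E := by
  change idiv (GeneralLinearGroup.det (tri3 B C Z η₁ η₂ η₃)) - idiv (piD E) = _
  rw [det_tri3, idiv_piD, idiv_piD]

/-- the divisors of the ten coefficients -/
noncomputable def DV (B C Z E : Div F) : Fin 10 → Div F :=
  ![3 • B - E, 2 • B + C - E, 2 • B + Z - E, B + 2 • C - E, B + C + Z - E, B + 2 • Z - E,
    3 • C - E, 2 • C + Z - E, C + 2 • Z - E, 3 • Z - E]

lemma gt_piD (B C Z E : Div F) (i : Fin 10) : (piD (DV B C Z E i) : A F) =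
    gtW (piD B : A F) (piD C) (piD Z) (((piD E)⁻¹ : (A F)ˣ) : A F) i := by
  have h : ∀ D E : Div F, piD (D - E) = piD D * (piD E)⁻¹ := fun D E => by
    rw [sub_eq_add_neg, piD_add, piD_neg]
  fin_cases i <;>
    simp only [DV, gtW, Fin.zero_eta, Fin.mk_one, Fin.reduceFinMk, cons_val_zero, cons_val_one,
      cons_val, h, piD_add, piD_nsmul, Units.val_mul, Units.val_pow_eq_pow_val]

variable [Cv F]

lemma intM_lex {g : G (A F)} {f : Model F} :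
    IntM g f ↔ ∀ i, lexV (g • f.map (toA F)) i ∈ Oh F := by
  constructor
  · rintro ⟨f₀, h⟩ i
    rw [← h]
    fin_cases i
    exacts [f₀.a.2, f₀.a2.2, f₀.a3.2, f₀.b1.2, f₀.m.2, f₀.c1.2, f₀.b.2, f₀.b3.2, f₀.c2.2, f₀.c.2]
  · intro h
    exact ⟨lexV.symm fun i => ⟨_, h i⟩, rfl⟩

lemma deg_DV (B C Z E : Div F) {d n m : ℤ} (hd : d = deg (B + C + Z - E)) (hn : n = deg (C - B))
    (hm : m = deg (Z - C)) : (fun i => deg (DV B C Z E i)) = ![d - 2 * n - m, d - n - m, d - n,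
      d - m, d, d + m, d + n - m, d + n, d + n + m, d + n + 2 * m] := by
  funext i
  fin_cases i <;>
    simp only [DV, Fin.zero_eta, Fin.mk_one, Fin.reduceFinMk, cons_val_zero, cons_val_one,
      cons_val, map_sub, map_add, map_nsmul, nsmul_eq_mul, Nat.cast_ofNat, hd, hn, hm] <;> ring

lemma gt_zpow (e : Fin 10 → ℤ) : ∏ i, qq F ^ (e i + cc F) = qq F ^ (∑ i, e i + 10 * cc F) := by
  have hq : qq F ≠ 0 := (one_pos.trans one_lt_qq).ne'
  have h : ∀ (s : Finset (Fin 10)) (e : Fin 10 → ℤ), ∏ i ∈ s, qq F ^ e i = qq F ^ ∑ i ∈ s, e i := by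
    intro s e
    induction s using Finset.induction_on with
    | empty => simp
    | insert a s ha ih => rw [Finset.prod_insert ha, Finset.sum_insert ha, zpow_add₀ hq, ih]
  rw [h, Finset.sum_add_distrib, Finset.sum_const, Finset.card_univ, Fintype.card_fin,
    nsmul_eq_mul, Nat.cast_ofNat]

lemma sum_deg_DV (B C Z E : Div F) : ∑ i, deg (DV B C Z E i) = 10 * deg (B + C + Z - E) := by
  rw [deg_DV B C Z E rfl rfl rfl]
  simp only [Fin.sum_univ_succ, cons_val_zero, cons_val_succ, Finset.univ_eq_empty,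
    Finset.sum_empty]
  ring

/-- the triangular description; the first four corrections are explicit -/
theorem exists_tri_desc (B C Z : Div F) (η₁ η₂ η₃ : A F) (E : Div F) :
    ∃ φ : Fin 10 → (Fin 10 → F) → A F, (∀ i x y, (∀ j, j < i → x j = y j) → φ i x = φ i y) ∧
      (∀ x, IntM (gt B C Z η₁ η₂ η₃ E) (lexV.symm x) ↔
        ∀ i, toA F (x i) + φ i x ∈ AD (DV B C Z E i)) ∧
      ∀ x, φ 0 x = 0 ∧ (x 0 = 0 → φ 1 x = 0 ∧ (x 1 = 0 → φ 2 x = 0 ∧ φ 3 x = 0)) := by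
  have h0 := fun x : Fin 10 → F => gt_lex (piD B : A F) (piD C) (piD Z)
    (((piD E)⁻¹ : (A F)ˣ) : A F) η₁ η₂ η₃ fun j => toA F (x j)
  obtain ⟨ψ, hψ, h1, h2⟩ : ∃ ψ : (Fin 10 → F) → Fin 10 → A F,
      (∀ x, lexV (gt B C Z η₁ η₂ η₃ E • (lexV.symm x).map (toA F)) =
        gtW (piD B : A F) (piD C) (piD Z) (((piD E)⁻¹ : (A F)ˣ) : A F) *
          ((fun j => toA F (x j)) + ψ x)) ∧
      (∀ i x y, (∀ j, j < i → x j = y j) → ψ x i = ψ y i) ∧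
      ∀ x, ψ x 0 = 0 ∧ (x 0 = 0 → ψ x 1 = 0 ∧ (x 1 = 0 → ψ x 2 = 0 ∧ ψ x 3 = 0)) := by
    refine ⟨_, h0, fun i x y h => ?_, fun x => ⟨rfl, fun e0 => ⟨?_, fun e1 => ⟨?_, ?_⟩⟩⟩⟩
    · fin_cases i <;>
        simp (disch := decide) only [Fin.zero_eta, Fin.mk_one, Fin.reduceFinMk, cons_val_zero,
          cons_val_one, cons_val, h]
    · simp [e0]
    · simp [e0, e1]
    · simp [e0, e1]
  refine ⟨fun i x => ψ x i, h1, fun x => ?_, h2⟩
  rw [intM_lex, hψ]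
  refine forall_congr' fun i => ?_
  rw [Pi.mul_apply, ← gt_piD, ← mem_AD_zero, unit_mul_mem_AD, idiv_piD, zero_add, Pi.add_apply]

theorem finite_intM (g : G (A F)) : {f : Model F | IntM g f}.Finite := by
  obtain ⟨k, hk, B, C, Z, η₁, η₂, η₃, E, rfl⟩ := exists_gt g
  obtain ⟨φ, hφ, h, -⟩ := exists_tri_desc B C Z η₁ η₂ η₃ E
  have h1 : {x : Fin 10 → F | IntM (gt B C Z η₁ η₂ η₃ E) (lexV.symm x)}.Finite := by
    by_contra h1
    obtain ⟨s, hs, hc⟩ :=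
      Set.Infinite.exists_subset_card_eq h1 (∏ i, (box (DV B C Z E i)).card + 1)
    have h2 := card_tri_le (DV B C Z E) φ hφ s fun x hx => (h x).1 (hs hx)
    omega
  refine (h1.image lexV.symm).subset fun f hf => ⟨lexV f, ?_, rfl⟩
  exact (intM_K hk _ f).1 hf

/-- the box of models -/
noncomputable def VB (g : G (A F)) : Finset (Model F) := (finite_intM g).toFinset

lemma mem_VB {g : G (A F)} {f : Model F} : f ∈ VB g ↔ IntM g f := by simp [VB]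

lemma VB_K {k : G (A F)} (hk : k ∈ KG F) (g : G (A F)) : VB (k * g) = VB g := by
  ext f
  rw [mem_VB, mem_VB, intM_K hk]

lemma sum_VB_act {M : Type} [AddCommMonoid M] (γ : G F) (g : G (A F)) (h : Model F → M) :
    ∑ f ∈ VB (g * (gA F γ)⁻¹), h f = ∑ f ∈ VB g, h (γ • f) := by
  refine (Finset.sum_equiv (MulAction.toPerm γ) (fun f => ?_) fun f _ => rfl).symm
  rw [mem_VB, mem_VB, MulAction.toPerm_apply, intM_act]

theorem card_VB_gt_le (B C Z : Div F) (η₁ η₂ η₃ : A F) (E : Div F) :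
    (VB (gt B C Z η₁ η₂ η₃ E)).card ≤ ∏ i, (box (DV B C Z E i)).card := by
  obtain ⟨φ, hφ, h, -⟩ := exists_tri_desc B C Z η₁ η₂ η₃ E
  rw [← Finset.card_map lexV.toEmbedding]
  exact card_tri_le (DV B C Z E) φ hφ _ fun x hx =>
    (h x).1 (mem_VB.1 (Finset.mem_map_equiv.1 hx))

theorem card_VB_gt {B C Z E : Div F} (η₁ η₂ η₃ : A F) (h : ∀ i, (c0 F : ℤ) ≤ deg (DV B C Z E i)) :
    ((VB (gt B C Z η₁ η₂ η₃ E)).card : ℝ) = qq F ^ (10 * deg (B + C + Z - E) + 10 * cc F) := by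
  obtain ⟨φ, hφ, h', -⟩ := exists_tri_desc B C Z η₁ η₂ η₃ E
  rw [← Finset.card_map lexV.toEmbedding, card_tri (DV B C Z E) h φ hφ _ fun x =>
    Finset.mem_map_equiv.trans (mem_VB.trans (h' x)), Nat.cast_prod,
    Finset.prod_congr rfl fun i _ => card_box (h i), gt_zpow, sum_deg_DV]

/-- deep in the cusp every cubic is singular or trivial -/
theorem gt_triv {B C Z E : Div F} {η₁ η₂ η₃ : A F} (h0 : deg (DV B C Z E 0) < 0)
    (h1 : deg (DV B C Z E 1) < 0) (h2 : deg (DV B C Z E 2) < 0 ∨ deg (DV B C Z E 3) < 0)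
    {f : Model F} (hf : IntM (gt B C Z η₁ η₂ η₃ E) f) : ¬(f.jac.Δ ≠ 0 ∧ ¬f.Triv) := by
  obtain ⟨φ, -, h, h'⟩ := exists_tri_desc B C Z η₁ η₂ η₃ E
  have h3 := (h (lexV f)).1 hf
  obtain ⟨e0, e1⟩ := h' (lexV f)
  have key : ∀ i, deg (DV B C Z E i) < 0 → φ i (lexV f) = 0 → lexV f i = 0 := fun i hi e => by
    have h4 := h3 i
    rw [e, add_zero, toA_mem_AD] at h4
    exact eq_zero_of_deg_neg hi h4
  have a0 := key 0 h0 e0
  have a1 := key 1 h1 (e1 a0).1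
  rintro ⟨hΔ, ht⟩
  rcases h2 with h2 | h2
  · have a2 := key 2 h2 ((e1 a0).2 a1).1
    have h5 := Model.sq_dvd_of_sing f (t := 0) (by rw [show f.a = 0 from a0]; exact dvd_zero _)
      (zero_dvd_iff.2 a1) (zero_dvd_iff.2 a2)
    rw [zero_pow two_ne_zero, zero_dvd_iff] at h5
    exact hΔ h5
  · have a3 := key 3 h2 ((e1 a0).2 a1).2
    exact ht ⟨1, by rw [one_smul]; exact ⟨a0, a1⟩, by rw [one_smul]; exact a3⟩

theorem card_cusp_le (b : ℕ) : ∃ K : ℝ, 0 < K ∧ ∀ (B C Z : Div F) (η₁ η₂ η₃ : A F) (E : Div F),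
    -(b : ℤ) ≤ deg (C - B) → -(b : ℤ) ≤ deg (Z - C) → 0 ≤ deg (B + C + Z - E) →
    (((VB (gt B C Z η₁ η₂ η₃ E)).filter fun f => f.jac.Δ ≠ 0 ∧ ¬f.Triv).card : ℝ) ≤
      K * qq F ^ (10 * deg (B + C + Z - E) + 10 * cc F) *
        qq F ^ (deg (C - B) + deg (Z - C) + min (deg (C - B)) (deg (Z - C))) := by
  obtain ⟨C₀, hC₀, hC⟩ := card_box_le (F := F) 0
  have hq := one_lt_qq (F := F)
  have hq0 : 0 < qq F := one_pos.trans hq
  have hC0 : 0 < C₀ := one_pos.trans_le hC₀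
  have hbox : ∀ D : Div F, ((box D).card : ℝ) ≤ C₀ * qq F ^ (max (deg D) 0 + cc F) := fun D => by
    rcases le_or_gt 0 (deg D) with h | h
    · rw [max_eq_left h]
      exact hC D (by simpa using h)
    · have h1 := hC 0 (by simp)
      rw [map_zero] at h1
      rw [max_eq_right h.le]
      refine le_trans (Nat.cast_le.2 (Finset.card_le_card fun x hx => ?_)) h1
      rw [eq_zero_of_deg_neg h (mem_box.1 hx)]
      exact zero_mem_box _
  refine ⟨C₀ ^ 10 * qq F ^ (28 * b : ℤ), by positivity, fun B C Z η₁ η₂ η₃ E h1 h2 hd => ?_⟩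
  obtain ⟨d, hd'⟩ : ∃ d, d = deg (B + C + Z - E) := ⟨_, rfl⟩
  obtain ⟨n, hn⟩ : ∃ n, n = deg (C - B) := ⟨_, rfl⟩
  obtain ⟨m, hm⟩ : ∃ m, m = deg (Z - C) := ⟨_, rfl⟩
  have he := deg_DV B C Z E hd' hn hm
  rw [← hd'] at hd ⊢
  rw [← hn] at h1 ⊢
  rw [← hm] at h2 ⊢
  by_cases h7 : -(b : ℤ) ≤ d - n ∧ -(2 * b : ℤ) ≤ d - m
  · have h8 := gt_int (Int.natCast_nonneg b) h1 h2 hd h7.1 h7.2 _ he
    calc (((VB (gt B C Z η₁ η₂ η₃ E)).filter fun f => f.jac.Δ ≠ 0 ∧ ¬f.Triv).card : ℝ)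
        ≤ ∏ i, ((box (DV B C Z E i)).card : ℝ) := by
          exact_mod_cast (Finset.card_filter_le _ _).trans (card_VB_gt_le B C Z η₁ η₂ η₃ E)
      _ ≤ ∏ i, C₀ * qq F ^ (max (deg (DV B C Z E i)) 0 + cc F) :=
          Finset.prod_le_prod (fun i _ => Nat.cast_nonneg _) fun i _ => hbox _
      _ ≤ _ := by
          rw [Finset.prod_mul_distrib, gt_zpow, Finset.prod_const, Finset.card_univ,
            Fintype.card_fin, mul_assoc, mul_assoc, ← zpow_add₀ hq0.ne', ← zpow_add₀ hq0.ne']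
          exact mul_le_mul_of_nonneg_left (zpow_le_zpow_right₀ hq.le (by linarith)) (by positivity)
  · have e0 : deg (DV B C Z E 0) = d - 2 * n - m := congrFun he 0
    have e1 : deg (DV B C Z E 1) = d - n - m := congrFun he 1
    have e2 : deg (DV B C Z E 2) = d - n := congrFun he 2
    have e3 : deg (DV B C Z E 3) = d - m := congrFun he 3
    rw [Finset.filter_false_of_mem fun f hf =>
      gt_triv (by omega) (by omega) (by omega) (mem_VB.1 hf), Finset.card_empty, Nat.cast_zero]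
    positivity

end SelAvg.FF.T3
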