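import Pool.Agent.H81Sel.Sieg

/-! Bundles of rank three as cosets, Iwasawa decomposition, sections, reduction. -/

namespace SelAvg.FF

open WeierstrassCurve WithZero Filter Topology Matrix
open scoped Classical ENNReal

section Blk

variable {R S : Type} [CommRing R] [CommRing S]

/-- the scalar matrices -/
def sc3 : Rˣ →* GL (Fin 3) R := GeneralLinearGroup.scalar (Fin 3)

lemma sc3_val (t : Rˣ) : (sc3 t : GL (Fin 3) R).1 = (t : R) • (1 : Matrix (Fin 3) (Fin 3) R) := by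
  rw [smul_one_eq_diagonal]
  rfl

lemma sc3_comm (t : Rˣ) (g : GL (Fin 3) R) : sc3 t * g = g * sc3 t := by
  exact GeneralLinearGroup.scalar_commute t g

lemma det_sc3 (t : Rˣ) : GeneralLinearGroup.det (sc3 t) = t ^ 3 := by
  exact (GeneralLinearGroup.det_scalar t).trans (by rw [Fintype.card_fin])

lemma map_sc3 (φ : R →+* S) (t : Rˣ) :
    GeneralLinearGroup.map φ (sc3 t) = sc3 (Units.map (φ : R →* S) t) := by
  exact GeneralLinearGroup.map_scalar φ t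

/-- the block matrix `[[g, 0], [z η, z]]` -/
noncomputable def blk (g : GL (Fin 2) R) (z : Rˣ) (η : Fin 2 → R) : GL (Fin 3) R :=
  GeneralLinearGroup.mk'' !![g.1 0 0, g.1 0 1, 0; g.1 1 0, g.1 1 1, 0; z * η 0, z * η 1, z] (by
    have h := (GeneralLinearGroup.det g * z).isUnit
    rw [Units.val_mul, GeneralLinearGroup.val_det_apply, det_fin_two] at h
    convert h using 1
    simp [det_fin_three]
    ring)

lemma blk_val (g : GL (Fin 2) R) (z : Rˣ) (η : Fin 2 → R) : (blk g z η).1 =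
    !![g.1 0 0, g.1 0 1, 0; g.1 1 0, g.1 1 1, 0; z * η 0, z * η 1, z] := rfl

lemma det_blk (g : GL (Fin 2) R) (z : Rˣ) (η : Fin 2 → R) :
    GeneralLinearGroup.det (blk g z η) = GeneralLinearGroup.det g * z := by
  refine Units.ext ?_
  rw [Units.val_mul, GeneralLinearGroup.val_det_apply, GeneralLinearGroup.val_det_apply, blk_val,
    det_fin_two]
  simp [det_fin_three]
  ring

lemma blk_mul (g' g : GL (Fin 2) R) (z' z : Rˣ) (η' η : Fin 2 → R) :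
    blk g' z' η' * blk g z η = blk (g' * g) (z' * z) (η + ((z⁻¹ : Rˣ) : R) • η' ᵥ* g.1) := by
  have h : (z : R) * (z⁻¹ : Rˣ) = 1 := z.mul_inv
  refine Units.ext ?_
  rw [Units.val_mul, blk_val, blk_val, blk_val, mul_fin_three]
  simp only [Units.val_mul, Matrix.mul_apply, Fin.sum_univ_two, Pi.add_apply, Pi.smul_apply,
    smul_eq_mul, vecMul, dotProduct]
  congrm !![?_, ?_, ?_; ?_, ?_, ?_; ?_, ?_, ?_]
  · ring
  · ring
  · ring
  · ring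
  · ring
  · ring
  · linear_combination (-(z' : R) * (η' 0 * g.1 0 0 + η' 1 * g.1 1 0)) * h
  · linear_combination (-(z' : R) * (η' 0 * g.1 0 1 + η' 1 * g.1 1 1)) * h
  · ring

lemma blk_one : blk (1 : GL (Fin 2) R) 1 0 = 1 := by
  refine Units.ext ?_
  rw [blk_val, Units.val_one, Units.val_one, Units.val_one, one_fin_three]
  simp

lemma blk_inv (g : GL (Fin 2) R) (z : Rˣ) (η : Fin 2 → R) :
    (blk g z η)⁻¹ = blk g⁻¹ z⁻¹ (-((z : R) • η ᵥ* (g⁻¹).1)) := by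
  rw [inv_eq_iff_mul_eq_one, blk_mul, inv_inv, neg_add_cancel, mul_inv_cancel, mul_inv_cancel,
    blk_one]

lemma blk_inj {g g' : GL (Fin 2) R} {z z' : Rˣ} {η η' : Fin 2 → R} (h : blk g z η = blk g' z' η') :
    g = g' ∧ z = z' ∧ η = η' := by
  have h1 : ∀ i j, (blk g z η).1 i j = (blk g' z' η').1 i j := fun i j => by rw [h]
  obtain rfl : z = z' := Units.ext (h1 2 2)
  refine ⟨Units.ext (Matrix.ext fun i j => ?_), rfl, funext fun i => ?_⟩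
  · fin_cases i <;> fin_cases j
    exacts [h1 0 0, h1 0 1, h1 1 0, h1 1 1]
  · fin_cases i
    exacts [(Units.mul_right_inj z).1 (h1 2 0), (Units.mul_right_inj z).1 (h1 2 1)]

lemma map_blk (φ : R →+* S) (g : GL (Fin 2) R) (z : Rˣ) (η : Fin 2 → R) :
    GeneralLinearGroup.map φ (blk g z η) =
      blk (GeneralLinearGroup.map φ g) (Units.map (φ : R →* S) z) fun i => φ (η i) := by
  refine Units.ext (Matrix.ext fun i j => ?_)
  change φ ((blk g z η).1 i j) = _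
  rw [blk_val, blk_val]
  fin_cases i <;> fin_cases j
  exacts [rfl, rfl, map_zero φ, rfl, rfl, map_zero φ, map_mul φ _ _, map_mul φ _ _, rfl]

lemma sc3_mul_blk (t : Rˣ) (g : GL (Fin 2) R) (z : Rˣ) (η : Fin 2 → R) :
    sc3 t * blk g z η = blk (G.scM t * g) (t * z) η := by
  have h : sc3 t = blk (G.scM t) t 0 := by
    refine Units.ext (Matrix.ext fun i j => ?_)
    rw [sc3_val, blk_val]
    fin_cases i <;> fin_cases j <;> simp [G.scM]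
  rw [h, blk_mul, zero_vecMul, smul_zero, add_zero]

lemma exists_eq_blk {g : GL (Fin 3) R} (h0 : g.1 0 2 = 0) (h1 : g.1 1 2 = 0) :
    ∃ g₂ z η, g = blk g₂ z η := by
  have hd : IsUnit ((g.1 0 0 * g.1 1 1 - g.1 0 1 * g.1 1 0) * g.1 2 2) := by
    have h2 := (GeneralLinearGroup.det g).isUnit
    rw [GeneralLinearGroup.val_det_apply, det_fin_three, h0, h1] at h2
    convert h2 using 1
    ring
  obtain ⟨z, hz⟩ := isUnit_of_mul_isUnit_right hd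
  have h2 : IsUnit (!![g.1 0 0, g.1 0 1; g.1 1 0, g.1 1 1] : Matrix (Fin 2) (Fin 2) R).det := by
    rw [det_fin_two_of]
    exact isUnit_of_mul_isUnit_left hd
  refine ⟨GeneralLinearGroup.mk'' _ h2, z, ![(z⁻¹ : Rˣ) * g.1 2 0, (z⁻¹ : Rˣ) * g.1 2 1],
    Units.ext (Matrix.ext fun i j => ?_)⟩
  rw [blk_val]
  fin_cases i <;> fin_cases j
  exacts [rfl, rfl, h0, rfl, rfl, h1, (Units.mul_inv_cancel_left z _).symm,
    (Units.mul_inv_cancel_left z _).symm, hz.symm]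

end Blk

variable {F : Type} [Field F]

variable (F) in
/-- the integral matrices -/
noncomputable def K3 : Subgroup (GL (Fin 3) (A F)) :=
  (GeneralLinearGroup.map (n := Fin 3) (Oh F).subtype).range

variable (F) in
/-- bundles of rank three with a generic trivialisation -/
abbrev X3 : Type := RC (K3 F)

lemma mem_K3 {k : GL (Fin 3) (A F)} :
    k ∈ K3 F ↔ (∀ i j, k.1 i j ∈ Oh F) ∧ idiv (GeneralLinearGroup.det k) = 0 := by
  constructor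
  · rintro ⟨k0, rfl⟩
    refine ⟨fun i j => (k0.1 i j).2, (idiv_eq_zero_iff _).2 ⟨GeneralLinearGroup.det k0, ?_⟩⟩
    refine Units.ext ?_
    rw [GeneralLinearGroup.val_det_apply]
    exact RingHom.map_det (Oh F).subtype k0.1
  · rintro ⟨h1, h2⟩
    obtain ⟨e, he⟩ := (idiv_eq_zero_iff _).1 h2
    have hd : (Matrix.of fun i j => (⟨k.1 i j, h1 i j⟩ : Oh F)).det = e := by
      refine Subtype.ext ?_
      have h3 := RingHom.map_det (Oh F).subtype (Matrix.of fun i j => (⟨k.1 i j, h1 i j⟩ : Oh F))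
      have h4 : ((e : Oh F) : A F) = k.1.det := congrArg Units.val he
      rw [h4]
      exact h3
    exact ⟨GeneralLinearGroup.mk'' _ (hd ▸ e.isUnit), Units.ext rfl⟩

lemma iwa3_unit_mul {z : (A F)ˣ} (h : idiv z = 0) {a : A F} : (z : A F) * a ∈ Oh F ↔ a ∈ Oh F := by
  rw [← mem_AD_zero, unit_mul_mem_AD, h, add_zero, mem_AD_zero]

lemma blk_mem_K3 {g : GL (Fin 2) (A F)} {z : (A F)ˣ} {η : Fin 2 → A F} :
    blk g z η ∈ K3 F ↔ g ∈ K2 F ∧ idiv z = 0 ∧ ∀ i, η i ∈ Oh F := by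
  rw [mem_K3, mem_K2, det_blk, idiv_mul]
  constructor
  · rintro ⟨h, h0⟩
    have hg : ∀ i j, g.1 i j ∈ Oh F := fun i j => by
      fin_cases i <;> fin_cases j
      exacts [h 0 0, h 0 1, h 1 0, h 1 1]
    have h1 : 0 ≤ idiv (GeneralLinearGroup.det g) := (unit_mem_Oh _).1 (by
      rw [GeneralLinearGroup.val_det_apply, det_fin_two]
      exact (Oh F).sub_mem ((Oh F).mul_mem (hg 0 0) (hg 1 1)) ((Oh F).mul_mem (hg 0 1) (hg 1 0)))
    obtain ⟨h2, h3⟩ := (add_eq_zero_iff_of_nonneg h1 ((unit_mem_Oh z).1 (h 2 2))).1 h0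
    refine ⟨⟨hg, h2⟩, h3, fun i => (iwa3_unit_mul h3).1 ?_⟩
    fin_cases i
    exacts [h 2 0, h 2 1]
  · rintro ⟨⟨h1, h2⟩, h3, h4⟩
    refine ⟨fun i j => ?_, by rw [h2, h3, add_zero]⟩
    rw [blk_val]
    fin_cases i <;> fin_cases j
    exacts [h1 0 0, h1 0 1, (Oh F).zero_mem, h1 1 0, h1 1 1, (Oh F).zero_mem,
      (iwa3_unit_mul h3).2 (h4 0), (iwa3_unit_mul h3).2 (h4 1), (unit_mem_Oh z).2 h3.ge]

lemma iwa3_emb {k : GL (Fin 2) (A F)} (hk : k ∈ K2 F) :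
    (∃ k' ∈ K3 F, k'.1 = !![1, 0, 0; 0, k.1 0 0, k.1 0 1; 0, k.1 1 0, k.1 1 1]) ∧
      ∃ k' ∈ K3 F, k'.1 = !![k.1 0 0, 0, k.1 0 1; 0, 1, 0; k.1 1 0, 0, k.1 1 1] := by
  obtain ⟨h1, h2⟩ := mem_K2.1 hk
  have key : ∀ m : Matrix (Fin 3) (Fin 3) (A F), m.det = k.1.det → (∀ i j, m i j ∈ Oh F) →
      ∃ k' ∈ K3 F, k'.1 = m := fun m hm hm' => by
    have hu : IsUnit m.det := hm ▸ (GeneralLinearGroup.det k).isUnit
    have e : GeneralLinearGroup.det (GeneralLinearGroup.mk'' m hu) = GeneralLinearGroup.det k :=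
      Units.ext hm
    exact ⟨GeneralLinearGroup.mk'' m hu, mem_K3.2 ⟨hm', by rw [e, h2]⟩, rfl⟩
  have h0 := (Oh F).zero_mem
  have h3 := (Oh F).one_mem
  refine ⟨key _ ?_ fun i j => ?_, key _ ?_ fun i j => ?_⟩
  · simp [det_fin_three, det_fin_two]
  · fin_cases i <;> fin_cases j
    exacts [h3, h0, h0, h0, h1 0 0, h1 0 1, h0, h1 1 0, h1 1 1]
  · simp [det_fin_three, det_fin_two]
  · fin_cases i <;> fin_cases j
    exacts [h1 0 0, h0, h1 0 1, h0, h3, h0, h1 1 0, h0, h1 1 1]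

lemma iwa3_clear (g : GL (Fin 3) (A F)) :
    ∃ k ∈ K3 F, (k * g).1 0 2 = 0 ∧ (k * g).1 1 2 = 0 := by
  obtain ⟨k, hk, h⟩ := iwa_clear (g.1 1 2) (g.1 2 2)
  obtain ⟨k₁, hk₁, e₁⟩ := (iwa3_emb hk).1
  have h1 : (k₁ * g).1 1 2 = 0 := by
    rw [Units.val_mul, e₁, Matrix.mul_apply, Fin.sum_univ_three]
    simpa using h
  obtain ⟨k', hk', h'⟩ := iwa_clear ((k₁ * g).1 0 2) ((k₁ * g).1 2 2)
  obtain ⟨k₂, hk₂, e₂⟩ := (iwa3_emb hk').2
  refine ⟨k₂ * k₁, (K3 F).mul_mem hk₂ hk₁, ?_⟩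
  rw [mul_assoc]
  generalize k₁ * g = g' at h1 h' ⊢
  rw [Units.val_mul, e₂, Matrix.mul_apply, Matrix.mul_apply, Fin.sum_univ_three,
    Fin.sum_univ_three, h1]
  exact ⟨by simpa using h', by simp⟩

theorem exists_blk (g : GL (Fin 3) (A F)) : ∃ k ∈ K3 F, ∃ g₂ Z η, g = k * blk g₂ (piD Z) η := by
  obtain ⟨k, hk, h⟩ := iwa3_clear g
  obtain ⟨g₂, z, η, e⟩ := exists_eq_blk h.1 h.2
  obtain ⟨u, hu, hu'⟩ := iwa_unit z
  refine ⟨k⁻¹ * blk 1 u 0, (K3 F).mul_mem ((K3 F).inv_mem hk)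
    (blk_mem_K3.2 ⟨(K2 F).one_mem, hu, fun _ => (Oh F).zero_mem⟩), g₂, idiv z, η, ?_⟩
  rw [mul_assoc, blk_mul, zero_vecMul, smul_zero, add_zero, one_mul, ← hu', ← e,
    inv_mul_cancel_left]

lemma exists_mk_blk (x : X3 F) : ∃ g₂ Z η, x = RC.mk (K3 F) (blk g₂ (piD Z) η) := by
  obtain ⟨g, rfl⟩ := x.mk_surj
  obtain ⟨k, hk, g₂, Z, η, h⟩ := exists_blk g
  exact ⟨g₂, Z, η, (RC.mk_eq.2 ⟨k, hk, h⟩).symm⟩

theorem blk_eq_iff {g g' : GL (Fin 2) (A F)} {z z' : (A F)ˣ} {η η' : Fin 2 → A F} :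
    RC.mk (K3 F) (blk g z η) = RC.mk (K3 F) (blk g' z' η') ↔ RC.mk (K2 F) g = RC.mk (K2 F) g' ∧
      idiv z = idiv z' ∧ ∀ i, (z : A F) * ((η - η') ᵥ* (g⁻¹).1) i ∈ Oh F := by
  have h1 : blk (g' * g⁻¹) (z' * z⁻¹) (-((z : A F) • (η - η') ᵥ* (g⁻¹).1)) * blk g z η =
      blk g' z' η' := by
    rw [blk_mul, inv_mul_cancel_right, inv_mul_cancel_right, neg_vecMul, smul_vecMul, vecMul_vecMul,
      ← Units.val_mul, inv_mul_cancel, Units.val_one, vecMul_one, smul_neg, smul_smul,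
      Units.inv_mul, one_smul, neg_sub, add_sub_cancel]
  have h2 : RC.mk (K3 F) (blk g z η) = RC.mk (K3 F) (blk g' z' η') ↔
      blk (g' * g⁻¹) (z' * z⁻¹) (-((z : A F) • (η - η') ᵥ* (g⁻¹).1)) ∈ K3 F := by
    rw [RC.mk_eq]
    refine ⟨?_, fun h => ⟨_, h, h1.symm⟩⟩
    rintro ⟨k, hk, h⟩
    rwa [mul_right_cancel (h1.trans h)]
  have h3 : g' * g⁻¹ ∈ K2 F ↔ RC.mk (K2 F) g = RC.mk (K2 F) g' := by
    rw [RC.mk_eq]
    refine ⟨fun h => ⟨_, h, (inv_mul_cancel_right _ _).symm⟩, ?_⟩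
    rintro ⟨k, hk, rfl⟩
    rwa [mul_inv_cancel_right]
  rw [h2, blk_mem_K3, h3, idiv_mul, idiv_inv, add_neg_eq_zero, @eq_comm _ (idiv z')]
  simp only [Pi.neg_apply, neg_mem_iff, Pi.smul_apply, smul_eq_mul]

/-- the quotient of rank two -/
noncomputable def quo3 (x : X3 F) : X2 F := RC.mk (K2 F) (exists_mk_blk x).choose

/-- the line subbundle -/
noncomputable def sub3 (x : X3 F) : Div F := (exists_mk_blk x).choose_spec.choose

lemma quo3_mk (g : GL (Fin 2) (A F)) (z : (A F)ˣ) (η : Fin 2 → A F) :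
    quo3 (RC.mk (K3 F) (blk g z η)) = RC.mk (K2 F) g := by
  exact (blk_eq_iff.1 (exists_mk_blk _).choose_spec.choose_spec.choose_spec).1.symm

lemma sub3_mk (g : GL (Fin 2) (A F)) (z : (A F)ˣ) (η : Fin 2 → A F) :
    sub3 (RC.mk (K3 F) (blk g z η)) = idiv z := by
  have h := (blk_eq_iff.1 (exists_mk_blk
    (RC.mk (K3 F) (blk g z η))).choose_spec.choose_spec.choose_spec).2.1
  rw [idiv_piD] at h
  exact h.symm

/-- the triangular matrix `[[ϖ^B, 0, 0], [ϖ^C η₁, ϖ^C, 0], [ϖ^Z η₂, ϖ^Z η₃, ϖ^Z]]` -/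
noncomputable def tri3 (B C Z : Div F) (η₁ η₂ η₃ : A F) : GL (Fin 3) (A F) :=
  blk (tri B C η₁) (piD Z) ![η₂, η₃]

lemma tri3_val (B C Z : Div F) (η₁ η₂ η₃ : A F) : (tri3 B C Z η₁ η₂ η₃).1 =
    !![(piD B : A F), 0, 0; piD C * η₁, piD C, 0; piD Z * η₂, piD Z * η₃, piD Z] := rfl

lemma det_tri3 (B C Z : Div F) (η₁ η₂ η₃ : A F) :
    GeneralLinearGroup.det (tri3 B C Z η₁ η₂ η₃) = piD (B + C + Z) := by
  rw [tri3, det_blk, det_tri, ← piD_add]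

theorem exists_tri3 (g : GL (Fin 3) (A F)) :
    ∃ k ∈ K3 F, ∃ B C Z η₁ η₂ η₃, g = k * tri3 B C Z η₁ η₂ η₃ := by
  obtain ⟨k, hk, g₂, Z, η, rfl⟩ := exists_blk g
  obtain ⟨k', hk', B, C, η₁, rfl⟩ := exists_tri g₂
  refine ⟨k * blk k' 1 0, (K3 F).mul_mem hk
    (blk_mem_K3.2 ⟨hk', idiv_one, fun _ => (Oh F).zero_mem⟩), B, C, Z, η₁, η 0, η 1, ?_⟩
  rw [tri3, mul_assoc, blk_mul, zero_vecMul, smul_zero, add_zero, one_mul]
  congr 2
  funext i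
  fin_cases i <;> rfl

lemma exists_mk_tri3 (x : X3 F) : ∃ B C Z η₁ η₂ η₃, x = RC.mk (K3 F) (tri3 B C Z η₁ η₂ η₃) := by
  obtain ⟨g, rfl⟩ := x.mk_surj
  obtain ⟨k, hk, B, C, Z, η₁, η₂, η₃, h⟩ := exists_tri3 g
  exact ⟨B, C, Z, η₁, η₂, η₃, (RC.mk_eq.2 ⟨k, hk, h⟩).symm⟩

theorem tri3_eq_iff {B C Z B' C' Z' : Div F} {η₁ η₂ η₃ η₁' η₂' η₃' : A F} :
    RC.mk (K3 F) (tri3 B C Z η₁ η₂ η₃) = RC.mk (K3 F) (tri3 B' C' Z' η₁' η₂' η₃') ↔
      B = B' ∧ C = C' ∧ Z = Z' ∧ η₁ - η₁' ∈ AD (C - B) ∧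
        η₂ - η₂' - (η₃ - η₃') * η₁ ∈ AD (Z - B) ∧ η₃ - η₃' ∈ AD (Z - C) := by
  have h1 : ((tri B C η₁)⁻¹).1 = !![(piD (-B) : A F), 0; -(piD (-B) * η₁), piD (-C)] := by
    refine Units.inv_eq_of_mul_eq_one_right ?_
    rw [tri_val, mul_fin_two, one_fin_two, piD_neg, piD_neg]
    congrm !![?_, ?_; ?_, ?_]
    · simp
    · simp
    · ring
    · simp
  have h2 : ∀ (D : Div F) (a : A F), (piD Z : A F) * (piD (-D) * a) ∈ Oh F ↔ a ∈ AD (Z - D) :=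
    fun D a => by
      rw [← mul_assoc, ← Units.val_mul, ← piD_add, ← mem_AD_zero, unit_mul_mem_AD, idiv_piD,
        zero_add, sub_eq_add_neg]
  have h3 : ((![η₂, η₃] - ![η₂', η₃'] : Fin 2 → A F) ᵥ* ((tri B C η₁)⁻¹).1) 0 =
      piD (-B) * (η₂ - η₂' - (η₃ - η₃') * η₁) := by
    rw [h1]
    simp [vecMul, dotProduct, Fin.sum_univ_two]
    ring
  have h4 : ((![η₂, η₃] - ![η₂', η₃'] : Fin 2 → A F) ᵥ* ((tri B C η₁)⁻¹).1) 1 =
      piD (-C) * (η₃ - η₃') := by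
    rw [h1]
    simp [vecMul, dotProduct, Fin.sum_univ_two]
    ring
  rw [tri3, tri3, blk_eq_iff, tri_eq_iff, idiv_piD, idiv_piD, Fin.forall_fin_two, h3, h4, h2, h2]
  tauto

/-- the divisor of the determinant -/
noncomputable def det3 (x : X3 F) : Div F := idiv (GeneralLinearGroup.det x.out)

lemma det3_mk (g : GL (Fin 3) (A F)) :
    det3 (RC.mk (K3 F) g) = idiv (GeneralLinearGroup.det g) := by
  obtain ⟨k, hk, h⟩ := RC.out_mk (K := K3 F) g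
  rw [det3, h, map_mul, idiv_mul, (mem_K3.1 hk).2, zero_add]

lemma det3_eq (x : X3 F) : det3 x = det2 (quo3 x) + sub3 x := by
  obtain ⟨g, Z, η, rfl⟩ := exists_mk_blk x
  rw [det3_mk, quo3_mk, sub3_mk, det2_mk, det_blk, idiv_mul]

/-- the twist by a divisor -/
noncomputable def tw3 (E : Div F) : Equiv.Perm (X3 F) := RC.act (K3 F) (sc3 (piD (-E)))

lemma tw3_mk (E : Div F) (g : GL (Fin 3) (A F)) :
    tw3 E (RC.mk (K3 F) g) = RC.mk (K3 F) (sc3 (piD E) * g) := by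
  rw [tw3, RC.act_mk, ← map_inv, ← piD_neg, neg_neg, sc3_comm]

lemma tw3_tri3 (E B C Z : Div F) (η₁ η₂ η₃ : A F) : tw3 E (RC.mk (K3 F) (tri3 B C Z η₁ η₂ η₃)) =
    RC.mk (K3 F) (tri3 (B + E) (C + E) (Z + E) η₁ η₂ η₃) := by
  have h : G.scM (piD E) = tri E E 0 := by
    ext i j
    rw [tri_val]
    fin_cases i <;> fin_cases j <;> simp [G.scM]
  rw [tw3_mk, tri3, tri3, sc3_mul_blk, h, iwa_tri_mul, mul_zero, zero_add, ← piD_add, add_comm E,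
    add_comm E, add_comm E]

lemma tw3_act (E : Div F) (γ : GL (Fin 3) (A F)) (x : X3 F) :
    tw3 E (RC.act (K3 F) γ x) = RC.act (K3 F) γ (tw3 E x) := by
  obtain ⟨g, rfl⟩ := x.mk_surj
  rw [RC.act_mk, tw3_mk, tw3_mk, RC.act_mk, mul_assoc]

/-- a matrix as a linear automorphism -/
noncomputable def mvL3 (g : GL (Fin 3) (A F)) : (Fin 3 → A F) ≃ₗ[A F] (Fin 3 → A F) :=
  (GeneralLinearGroup.toLin g).toLinearEquiv

lemma mvL3_apply (g : GL (Fin 3) (A F)) (a : Fin 3 → A F) : mvL3 g a = g.1 *ᵥ a := rfl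

lemma mvL3_K {k : GL (Fin 3) (A F)} (hk : k ∈ K3 F) (g : GL (Fin 3) (A F)) (a : Fin 3 → A F) :
    (∀ i, mvL3 (k * g) a i ∈ Oh F) ↔ ∀ i, mvL3 g a i ∈ Oh F := by
  have key : ∀ k ∈ K3 F, ∀ a : Fin 3 → A F, (∀ i, a i ∈ Oh F) → ∀ i, (k.1 *ᵥ a) i ∈ Oh F :=
    fun k hk a ha i => by
      simp only [mulVec, dotProduct]
      exact Subring.sum_mem _ fun j _ => mul_mem ((mem_K3.1 hk).1 i j) (ha j)
  simp only [mvL3_apply, Units.val_mul, ← mulVec_mulVec]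
  refine ⟨fun h i => ?_, fun h => key k hk _ h⟩
  have h1 := key _ (inv_mem hk) _ h i
  rwa [mulVec_mulVec, ← Units.val_mul, inv_mul_cancel, Units.val_one, one_mulVec] at h1

lemma mvL3_sc3 (u : (A F)ˣ) (g : GL (Fin 3) (A F)) (a : Fin 3 → A F) (i : Fin 3) :
    mvL3 (sc3 u * g) a i = (u : A F) * mvL3 g a i := by
  rw [mvL3_apply, mvL3_apply, Units.val_mul, ← mulVec_mulVec, sc3_val, smul_mulVec, one_mulVec]
  rfl

lemma quo3_tw3 (E : Div F) (x : X3 F) : quo3 (tw3 E x) = tw2 E (quo3 x) := by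
  obtain ⟨g, Z, η, rfl⟩ := exists_mk_blk x
  rw [tw3_mk, sc3_mul_blk, quo3_mk, quo3_mk, tw2_mk]

lemma sub3_tw3 (E : Div F) (x : X3 F) : sub3 (tw3 E x) = sub3 x + E := by
  obtain ⟨g, Z, η, rfl⟩ := exists_mk_blk x
  rw [tw3_mk, sc3_mul_blk, sub3_mk, sub3_mk, idiv_mul, idiv_piD, add_comm]

lemma iwa3_fibre {x : X3 F} {g : GL (Fin 2) (A F)} (h : quo3 x = RC.mk (K2 F) g) :
    ∃ η, x = RC.mk (K3 F) (blk g (piD (sub3 x)) η) := by
  obtain ⟨g', Z, η, rfl⟩ := exists_mk_blk x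
  rw [quo3_mk] at h
  refine ⟨η, blk_eq_iff.2 ⟨h, by rw [sub3_mk, idiv_piD, idiv_piD], fun i => ?_⟩⟩
  rw [sub_self, zero_vecMul, Pi.zero_apply, mul_zero]
  exact (Oh F).zero_mem

lemma iwa3_form {x : X3 F} {B C : Div F} {η₁ : A F} (h : quo3 x = RC.mk (K2 F) (tri B C η₁)) :
    ∃ η₂ η₃, x = RC.mk (K3 F) (tri3 B C (sub3 x) η₁ η₂ η₃) := by
  obtain ⟨η, e⟩ := iwa3_fibre h
  refine ⟨η 0, η 1, e.trans ?_⟩
  rw [tri3]
  congr 2
  funext i
  fin_cases i <;> rfl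

lemma iwa3_vec {K : Type} [Field K] {s : Fin 3 → K} (hs : s ≠ 0) :
    ∃ γ : GL (Fin 3) K, γ.1 *ᵥ s = ![0, 0, 1] := by
  have key : ∀ m : Matrix (Fin 3) (Fin 3) K, m.det ≠ 0 → m *ᵥ ![0, 0, 1] = s →
      ∃ γ : GL (Fin 3) K, γ.1 *ᵥ s = ![0, 0, 1] := fun m hm h =>
    ⟨(GeneralLinearGroup.mkOfDetNeZero m hm)⁻¹, by
      rw [← h, mulVec_mulVec]
      change ((GeneralLinearGroup.mkOfDetNeZero m hm)⁻¹ *
        GeneralLinearGroup.mkOfDetNeZero m hm).1 *ᵥ _ = _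
      rw [inv_mul_cancel, Units.val_one, one_mulVec]⟩
  by_cases h2 : s 2 = 0
  · by_cases h1 : s 1 = 0
    · have h0 : s 0 ≠ 0 := fun h0 => hs (funext fun i => by fin_cases i <;> assumption)
      refine key !![0, 0, s 0; 1, 0, s 1; 0, 1, s 2] (by simpa [det_fin_three] using h0) ?_
      funext i
      fin_cases i <;> simp [mulVec, dotProduct, Fin.sum_univ_three]
    · refine key !![1, 0, s 0; 0, 0, s 1; 0, 1, s 2] (by simpa [det_fin_three] using h1) ?_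
      funext i
      fin_cases i <;> simp [mulVec, dotProduct, Fin.sum_univ_three]
  · refine key !![1, 0, s 0; 0, 1, s 1; 0, 0, s 2] (by simpa [det_fin_three] using h2) ?_
    funext i
    fin_cases i <;> simp [mulVec, dotProduct, Fin.sum_univ_three]

variable [Cv F]

variable (F) in
/-- the diagonal embedding of matrices -/
noncomputable abbrev glA3 : GL (Fin 3) F →* GL (Fin 3) (A F) := GeneralLinearGroup.map (toA F)

variable (F) in
/-- change of the generic trivialisation -/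
noncomputable def act3 : GL (Fin 3) F →* Equiv.Perm (X3 F) := (RC.act (K3 F)).comp (glA3 F)

lemma act3_mk (γ : GL (Fin 3) F) (g : GL (Fin 3) (A F)) :
    act3 F γ (RC.mk (K3 F) g) = RC.mk (K3 F) (g * (glA3 F γ)⁻¹) := rfl

/-- the degree -/
noncomputable def deg3 (x : X3 F) : ℤ := deg (det3 x)

lemma det3_act (γ : GL (Fin 3) F) (x : X3 F) :
    det3 (act3 F γ x) = det3 x - dv ((GeneralLinearGroup.det γ : Fˣ) : F) := by
  obtain ⟨g, rfl⟩ := x.mk_surj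
  have h : GeneralLinearGroup.det (glA3 F γ) = uA (GeneralLinearGroup.det γ) :=
    Units.ext (RingHom.map_det (toA F) γ.1).symm
  rw [act3_mk, det3_mk, det3_mk, map_mul, map_inv, idiv_mul, idiv_inv, h, idiv_uA, sub_eq_add_neg]

lemma deg3_act (γ : GL (Fin 3) F) (x : X3 F) : deg3 (act3 F γ x) = deg3 x := by
  rw [deg3, deg3, det3_act, map_sub, deg_dv, sub_zero]

lemma deg3_tri3 (B C Z : Div F) (η₁ η₂ η₃ : A F) :
    deg3 (RC.mk (K3 F) (tri3 B C Z η₁ η₂ η₃)) = deg B + deg C + deg Z := by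
  rw [deg3, det3_mk, det_tri3, idiv_piD, map_add, map_add]

lemma deg3_tw3 (E : Div F) (x : X3 F) : deg3 (tw3 E x) = deg3 x + 3 * deg E := by
  obtain ⟨B, C, Z, η₁, η₂, η₃, rfl⟩ := exists_mk_tri3 x
  rw [tw3_tri3, deg3_tri3, deg3_tri3, map_add, map_add, map_add]
  ring

lemma deg3_eq (x : X3 F) : deg3 x = deg2 (quo3 x) + deg (sub3 x) := by
  rw [deg3, det3_eq, map_add, deg2]

lemma quo3_act (γ : GL (Fin 2) F) (u : Fˣ) (y : Fin 2 → F) (x : X3 F) :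
    quo3 (act3 F (blk γ u y) x) = act2 F γ (quo3 x) := by
  obtain ⟨g, Z, η, rfl⟩ := exists_mk_blk x
  rw [act3_mk, map_blk, blk_inv, blk_mul, quo3_mk, quo3_mk, act2_mk]

lemma sub3_act (γ : GL (Fin 2) F) (u : Fˣ) (y : Fin 2 → F) (x : X3 F) :
    sub3 (act3 F (blk γ u y) x) = sub3 x - dv (u : F) := by
  obtain ⟨g, Z, η, rfl⟩ := exists_mk_blk x
  rw [act3_mk, map_blk, blk_inv, blk_mul, sub3_mk, sub3_mk, idiv_mul, idiv_inv, idiv_uA,
    sub_eq_add_neg]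

/-- the global sections -/
noncomputable def H03 (x : X3 F) : Finset (Fin 3 → F) := hbox (mvL3 x.out)

lemma H03_mk (g : GL (Fin 3) (A F)) : H03 (RC.mk (K3 F) g) = hbox (mvL3 g) := by
  obtain ⟨k, hk, e⟩ := RC.out_mk (K := K3 F) g
  ext x
  rw [H03, e, mem_hbox, mem_hbox, mvL3_K hk]

lemma mem_H03_act (γ : GL (Fin 3) F) (x : X3 F) (s : Fin 3 → F) :
    γ.1 *ᵥ s ∈ H03 (act3 F γ x) ↔ s ∈ H03 x := by
  obtain ⟨g, rfl⟩ := x.mk_surj
  have h : dlg (γ.1 *ᵥ s) = (glA3 F γ).1 *ᵥ dlg s :=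
    funext fun i => RingHom.map_mulVec (toA F) γ.1 s i
  rw [act3_mk, H03_mk, H03_mk, mem_hbox, mem_hbox, h, mvL3_apply, mvL3_apply, mulVec_mulVec,
    ← Units.val_mul, inv_mul_cancel_right]

theorem finite_stab3 (x : X3 F) : {γ : GL (Fin 3) F | act3 F γ x = x}.Finite := by
  obtain ⟨g, rfl⟩ := x.mk_surj
  obtain ⟨E, -, hE⟩ := exists_mem_AD fun p : Fin 3 × Fin 3 => g.1 p.1 p.2
  have h1 : ∀ j : Fin 3, (Pi.single j 1 : Fin 3 → F) ∈ H03 (tw3 E (RC.mk (K3 F) g)) := fun j => by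
    rw [tw3_mk, H03_mk, mem_hbox]
    intro i
    have e : dlg (Pi.single j 1 : Fin 3 → F) = Pi.single j 1 := by
      funext l
      by_cases h : l = j
      · subst h; simp [dlg]
      · simp [dlg, Pi.single_eq_of_ne h]
    rw [mvL3_sc3, ← mem_AD_zero, unit_mul_mem_AD, idiv_piD, zero_add, e, mvL3_apply,
      mulVec_single_one]
    exact hE (i, j)
  refine Set.Finite.of_finite_image (f := fun γ j => γ.1 *ᵥ Pi.single j 1)
    ((Set.Finite.pi' fun _ : Fin 3 => (H03 (tw3 E (RC.mk (K3 F) g))).finite_toSet).subset ?_)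
    fun γ _ γ' _ h => ?_
  · rintro _ ⟨γ, hγ, rfl⟩ j
    have h2 := (mem_H03_act γ _ _).2 (h1 j)
    have h3 : act3 F γ (tw3 E (RC.mk (K3 F) g)) = tw3 E (act3 F γ (RC.mk (K3 F) g)) :=
      (tw3_act E (glA3 F γ) _).symm
    rw [h3, show act3 F γ (RC.mk (K3 F) g) = _ from hγ] at h2
    exact h2
  · refine Units.ext (Matrix.ext fun i j => ?_)
    have h2 := congrFun (congrFun h j) i
    simpa only [mulVec_single_one, Matrix.col_apply] using h2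

lemma mem_H03_sub (x : X3 F) : (![0, 0, 1] : Fin 3 → F) ∈ H03 x ↔ 0 ≤ sub3 x := by
  obtain ⟨g, Z, η, rfl⟩ := exists_mk_blk x
  rw [H03_mk, mem_hbox, sub3_mk, ← unit_mem_Oh, mvL3_apply, blk_val]
  simp [Fin.forall_fin_succ, mulVec, dotProduct, Fin.sum_univ_three, dlg]

lemma H03_tw3 (g : GL (Fin 3) (A F)) (m : ℕ) :
    H03 (tw3 (m • PP F) (RC.mk (K3 F) g)) = hbox (tw1 (mvL3 g) m) := by
  rw [tw3_mk, H03_mk]
  ext x
  rw [mem_hbox, mem_hbox]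
  refine forall_congr' fun i => ?_
  rw [mvL3_sc3, tw1, LinearEquiv.trans_apply, wdg_apply, pow_one]

theorem NN_mvL3 (g : GL (Fin 3) (A F)) :
    NN (mvL3 g) = qq F ^ (deg (idiv (GeneralLinearGroup.det g)) + 3 * cc F) := by
  obtain ⟨k, hk, B, C, Z, η₁, η₂, η₃, rfl⟩ := exists_tri3 g
  rw [NN_congr (mvL3_K hk _), NN_tri (mvL3 (tri3 B C Z η₁ η₂ η₃)) ![B, C, Z]
    ![0, η₁ • LinearMap.proj 0, η₂ • LinearMap.proj 0 + η₃ • LinearMap.proj 1] ?_ ?_, map_mul,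
    idiv_mul, (mem_K3.1 hk).2, det_tri3, idiv_piD, zero_add, map_add, map_add, Fin.sum_univ_three]
  · simp
  · intro i a a' h
    fin_cases i
    · simp
    · simp [h 0 (by simp)]
    · simp [h 0 (by simp), h 1 (by simp)]
  · intro a i
    rw [mvL3_apply, tri3_val]
    fin_cases i
    · simp [mulVec, dotProduct, Fin.sum_univ_three]
    · simp [mulVec, dotProduct, Fin.sum_univ_three]
      ring
    · simp [mulVec, dotProduct, Fin.sum_univ_three]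
      ring

lemma iwa3_sec (B : Div F) {C Z : Div F} (η₁ η₂ : A F) {η₃ : A F} {s : Fin 2 → F}
    (h : s ∈ H0 (RC.mk (K2 F) (tri C Z η₃))) :
    ![0, s 0, s 1] ∈ H03 (RC.mk (K3 F) (tri3 B C Z η₁ η₂ η₃)) := by
  rw [H0_mk, mem_hbox, mvL_apply, tri_val] at h
  rw [H03_mk, mem_hbox, mvL3_apply, tri3_val]
  intro i
  fin_cases i
  · simp [mulVec, dotProduct, Fin.sum_univ_three, dlg]
  · simpa [mulVec, dotProduct, Fin.sum_univ_three, dlg] using h 0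
  · simpa [mulVec, dotProduct, Fin.sum_univ_three, dlg] using h 1

/-- the degrees of the line subbundles are bounded -/
lemma iwa3_bdd (x : X3 F) : ∃ M : ℤ, ∀ γ, deg (sub3 (act3 F γ x)) ≤ M := by
  obtain ⟨g, rfl⟩ := x.mk_surj
  obtain ⟨B, -, hB⟩ := exists_bound (mvL3 g).symm.toLinearMap
  refine ⟨deg B, fun γ => le_of_not_gt fun h => ?_⟩
  generalize hZ : sub3 (act3 F γ (RC.mk (K3 F) g)) = Z at h
  have h1 : act3 F γ (tw3 (-Z) (RC.mk (K3 F) g)) = tw3 (-Z) (act3 F γ (RC.mk (K3 F) g)) :=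
    (tw3_act _ (glA3 F γ) _).symm
  have h2 : (γ⁻¹).1 *ᵥ ![0, 0, 1] ∈ H03 (tw3 (-Z) (RC.mk (K3 F) g)) := by
    rw [← mem_H03_act γ, h1, mulVec_mulVec, ← Units.val_mul, mul_inv_cancel, Units.val_one,
      one_mulVec, mem_H03_sub, sub3_tw3, hZ, add_neg_cancel]
  have h3 : (γ⁻¹).1 *ᵥ (![0, 0, 1] : Fin 3 → F) ≠ 0 := fun h => by
    simpa using congrFun ((smul_eq_zero_iff_eq γ⁻¹ (x := (![0, 0, 1] : Fin 3 → F))).1 h) 2
  generalize (γ⁻¹).1 *ᵥ (![0, 0, 1] : Fin 3 → F) = s at h2 h3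
  rw [tw3_mk, H03_mk, mem_hbox] at h2
  refine h3 (funext fun i => eq_zero_of_deg_neg (D := -Z + B) ?_ (toA_mem_AD.1 ?_))
  · rw [map_add, map_neg]
    linarith
  · have h4 := hB (-Z) (mvL3 g (dlg s)) (fun j => by
      have h5 := h2 j
      rwa [mvL3_sc3, ← mem_AD_zero, unit_mul_mem_AD, idiv_piD, zero_add] at h5) i
    rwa [LinearEquiv.coe_coe, LinearEquiv.symm_apply_apply] at h4

/-- reduction -/
theorem exists_reduced3 : ∃ b : ℕ, ∀ x : X3 F, ∃ (γ : GL (Fin 3) F) (B C Z : Div F)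
    (η₁ η₂ η₃ : A F), act3 F γ x = RC.mk (K3 F) (tri3 B C Z η₁ η₂ η₃) ∧
      -(b : ℤ) ≤ deg (C - B) ∧ -(b : ℤ) ≤ deg (Z - C) := by
  obtain ⟨b, hb⟩ := exists_reduced (F := F)
  refine ⟨b, fun x => ?_⟩
  obtain ⟨M, hM⟩ := iwa3_bdd x
  obtain ⟨d, ⟨γ, rfl⟩, hγ⟩ := Int.exists_greatest_of_bdd
    (P := fun d => ∃ γ, deg (sub3 (act3 F γ x)) = d) ⟨M, fun d ⟨γ, h⟩ => h ▸ hM γ⟩ ⟨_, 1, rfl⟩
  obtain ⟨γ₂, B, C, η₁, h1, h2⟩ := hb (quo3 (act3 F γ x))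
  obtain ⟨η₂, η₃, h3⟩ := iwa3_form (x := act3 F (blk γ₂ 1 0) (act3 F γ x)) (by rw [quo3_act, h1])
  rw [sub3_act, Units.val_one, dv_one, sub_zero] at h3
  generalize sub3 (act3 F γ x) = Z at h3 hγ
  refine ⟨blk γ₂ 1 0 * γ, B, C, Z, η₁, η₂, η₃, by rw [map_mul]; exact h3, h2, ?_⟩
  obtain ⟨γ', C', Z', η', h4, h5⟩ := hb (RC.mk (K2 F) (tri C Z η₃))
  have h6 : deg C' + deg Z' = deg C + deg Z := by rw [← deg2_tri C' Z' η', ← h4, deg2_act, deg2_tri]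
  have h7 : (γ'⁻¹).1 *ᵥ ![0, 1] ∈ H0 (RC.mk (K2 F) (tri (C + -Z') (Z + -Z') η₃)) := by
    have h8 : act2 F γ' (tw2 (-Z') (RC.mk (K2 F) (tri C Z η₃))) =
        tw2 (-Z') (act2 F γ' (RC.mk (K2 F) (tri C Z η₃))) := (tw2_act _ (glA F γ') _).symm
    rw [← tw2_tri, ← mem_H0_act γ', h8, h4, tw2_tri, mulVec_mulVec, ← Units.val_mul,
      mul_inv_cancel, Units.val_one, one_mulVec, mem_H0_tri, add_neg_cancel]
  have h9 : (γ'⁻¹).1 *ᵥ (![0, 1] : Fin 2 → F) ≠ 0 := fun h => by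
    simpa using congrFun ((smul_eq_zero_iff_eq γ'⁻¹ (x := (![0, 1] : Fin 2 → F))).1 h) 1
  generalize (γ'⁻¹).1 *ᵥ (![0, 1] : Fin 2 → F) = s at h7 h9
  obtain ⟨δ, hδ⟩ := iwa3_vec (s := ![0, s 0, s 1]) fun h =>
    h9 (funext fun i => by fin_cases i; exacts [congrFun h 1, congrFun h 2])
  have h10 := (mem_H03_act δ _ _).2 (iwa3_sec (B + -Z') η₁ η₂ h7)
  have h11 : ∀ y, act3 F δ (tw3 (-Z') y) = tw3 (-Z') (act3 F δ y) := fun y =>
    (tw3_act _ (glA3 F δ) y).symm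
  rw [hδ, ← tw3_tri3, h11, mem_H03_sub, sub3_tw3, ← h3] at h10
  have h12 := deg_nonneg h10
  have h13 := hγ _ ⟨δ * (blk γ₂ 1 0 * γ), rfl⟩
  rw [map_mul, map_mul, Equiv.Perm.mul_apply, Equiv.Perm.mul_apply] at h13
  rw [map_add, map_neg] at h12
  rw [map_sub] at h5 ⊢
  linarith

end SelAvg.FF
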