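import Pool.Agent.H5T.Mod
import Pool.Agent.H38Sel.LocC

/-! Local theory of ternary cubics: definitions. -/

namespace SelAvg.FF.T3

open WeierstrassCurve WithZero
open scoped Classical

section Count

variable {κ R : Type*} [Field κ] [CommRing R]

/-- normalised representatives of the points of the projective plane -/
def npt : (κ × κ) ⊕ Option κ → Pt κ
  | .inl p => ![1, p.1, p.2]
  | .inr (some z) => ![0, 1, z]
  | .inr none => ![0, 0, 1]

/-- the number of good points -/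
noncomputable def nGood (f : Model κ) : ℕ := Nat.card {p : (κ × κ) ⊕ Option κ // f.Good (npt p)}

/-- the weight of a model over a finite local ring `R` with residue map `θ` -/
noncomputable def phiR (θ : R →+* κ) (f : Model R) : ℝ :=
  (nGood (f.map θ) : ℝ) / (1 + (nAff f.jac : ℝ) * Nat.card κ / Nat.card R)

lemma phiR_nonneg (θ : R →+* κ) (f : Model R) : 0 ≤ phiR θ f := by unfold phiR; positivity

lemma nGood_le [Finite κ] (f : Model κ) : nGood f ≤ Nat.card κ ^ 2 + Nat.card κ + 1 := by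
  refine (Finite.card_subtype_le _).trans (le_of_eq ?_)
  rw [Nat.card_sum, Nat.card_prod, Finite.card_option]
  ring

lemma phiR_le [Finite κ] (θ : R →+* κ) (f : Model R) :
    phiR θ f ≤ (Nat.card κ : ℝ) ^ 2 + Nat.card κ + 1 := by
  have h1 : (nGood (f.map θ) : ℝ) ≤ (Nat.card κ : ℝ) ^ 2 + Nat.card κ + 1 := by
    exact_mod_cast nGood_le (f.map θ)
  refine le_trans (div_le_self (Nat.cast_nonneg _) ?_) h1
  exact le_add_of_nonneg_right (by positivity)

end Count

variable {L : Type*} [Field L]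

/-- primitive integral points -/
def _root_.SelAvg.LocalField.IPrim3 (V : LocalField L) (Q : Pt V.O) : Prop := ∃ i, IsUnit (Q i)

/-- the two matrices define the same vertex of the building -/
def _root_.SelAvg.LocalField.MEq3 (V : LocalField L) (M M' : GL (Fin 3) L) : Prop :=
  ∃ (t : Lˣ) (H : GL (Fin 3) V.O), M' = G.scM t * Matrix.GeneralLinearGroup.map V.incl H * M

/-- an integral object together with an isomorphism to `z₀` -/
structure _root_.SelAvg.LocalField.LocRep3 (V : LocalField L) (z₀ : Obj L) where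
  g : G L
  z : Obj V.O
  eq : g • z₀ = z.map V.incl

/-- the local weight -/
noncomputable def _root_.SelAvg.LocalField.phiL3 (V : LocalField L) {κ : Type*} [Field κ]
    (red : V.O →+* κ) (f : Model V.O) : ℝ :=
  (nGood (f.map red) : ℝ) / V.Nloc f.jac

variable {V : LocalField L}

lemma _root_.SelAvg.LocalField.MEq3.refl (M : GL (Fin 3) L) : V.MEq3 M M := by
  exact ⟨1, 1, by simp⟩

lemma _root_.SelAvg.LocalField.MEq3.symm {M M' : GL (Fin 3) L} (h : V.MEq3 M M') :
    V.MEq3 M' M := by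
  obtain ⟨t, H, rfl⟩ := h
  refine ⟨t⁻¹, H⁻¹, ?_⟩
  rw [map_inv, G.scM_comm t, ← mul_assoc, G.scM_comm t⁻¹, mul_assoc _ (G.scM t⁻¹),
    G.scM_comm t⁻¹, mul_assoc _ (G.scM t), ← G.scM_mul]
  simp

lemma _root_.SelAvg.LocalField.MEq3.trans {M M' M'' : GL (Fin 3) L} (h : V.MEq3 M M')
    (h' : V.MEq3 M' M'') : V.MEq3 M M'' := by
  obtain ⟨t, H, rfl⟩ := h
  obtain ⟨t', H', rfl⟩ := h'
  refine ⟨t' * t, H' * H, ?_⟩
  rw [map_mul, G.scM_mul]
  simp only [mul_assoc]
  rw [← mul_assoc _ (G.scM t), ← G.scM_comm t, mul_assoc]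

lemma _root_.SelAvg.LocalField.MEq3.mul_right {M M' : GL (Fin 3) L} (h : V.MEq3 M M')
    (N : GL (Fin 3) L) : V.MEq3 (M * N) (M' * N) := by
  obtain ⟨t, H, rfl⟩ := h
  exact ⟨t, H, by simp only [mul_assoc]⟩

lemma _root_.SelAvg.LocalField.LocRep3.over {W : WeierstrassCurve V.O} {z₀ : Obj L}
    (hz : z₀.Over (W.map V.incl)) (p : V.LocRep3 z₀) : p.z.Over W := by
  have h := hz.smul p.g
  rw [p.eq] at h
  unfold Obj.Over at h ⊢
  rw [Obj.map_f, Obj.map_γ, Model.jac_map, map_variableChange] at h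
  exact WeierstrassCurve.map_injective V.incl_injective h

lemma _root_.SelAvg.LocalField.LocRep3.jac_Delta {W : WeierstrassCurve V.O} (hW : W.Δ ≠ 0)
    {z₀ : Obj L} (hz : z₀.Over (W.map V.incl)) (p : V.LocRep3 z₀) : p.z.f.jac.Δ ≠ 0 := by
  rw [show p.z.f.jac = p.z.γ • W from p.over hz, variableChange_Δ]
  exact mul_ne_zero (pow_ne_zero _ (Units.ne_zero _)) hW

namespace LocalField

open SelAvg.LocalField

theorem equiv_lift {z₀ : Obj L} (p p' : V.LocRep3 z₀) (h : V.MEq3 p.g.M p'.g.M) :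
    ∃ (t : Lˣ) (h : G V.O), p'.g = G.scalar t * G.map V.incl h * p.g ∧ p'.z = h • p.z := by
  obtain ⟨t, H, hM⟩ := h
  set k : G L := (G.scalar t)⁻¹ * p'.g * p.g⁻¹ with hk
  have hkM : k.M = Matrix.GeneralLinearGroup.map V.incl H := by
    rw [hk, G.mul_M, G.mul_M, G.inv_M, G.inv_M, G.scalar_M, hM]
    group
  have hkz : k • p.z.map V.incl = p'.z.map V.incl := by
    rw [← p.eq, ← p'.eq, hk, ← mul_smul, inv_mul_cancel_right, mul_smul, inv_smul_eq_iff,
      Obj.scalar_smul]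
  have hu : k.μ * k.det⁻¹ * Units.map V.incl p.z.γ.u = Units.map V.incl p'.z.γ.u := by
    have h1 := congrArg (fun z : Obj L => z.γ.u) hkz
    simpa [VariableChange.mul_def, G.Gam_u, VariableChange.map] using h1
  have hdet : k.det = Units.map V.incl (Matrix.GeneralLinearGroup.det H) := by
    have := G.map_det V.incl (G.ofM H)
    rw [G.det, hkM]
    exact this
  have hμ : k.μ = Units.map V.incl
      (p'.z.γ.u * p.z.γ.u⁻¹ * Matrix.GeneralLinearGroup.det H) := by
    rw [map_mul, map_mul, map_inv, ← hu, ← hdet]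
    group
  obtain ⟨g₀, hg₀, -⟩ := G_integral (R := V.O) (L := L) (f := p.z.f) (f' := p'.z.f) (g := k) H
    (p'.z.γ.u * p.z.γ.u⁻¹ * Matrix.GeneralLinearGroup.det H) hkM (by rw [hμ]; rfl)
    (congrArg Obj.f hkz)
  refine ⟨t, g₀, ?_, ?_⟩
  · rw [hg₀, hk]
    group
  · apply Obj.map_injective V.incl_injective
    rw [Obj.map_smul, hg₀, hkz]

variable {κ R : Type*} [Field κ] [CommRing R] {red : V.O →+* κ} {ρ : V.O →+* R}

lemma phiL_nonneg (red : V.O →+* κ) (f : Model V.O) : 0 ≤ V.phiL3 red f := by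
  unfold phiL3; positivity

theorem phiR_eq_phiL [Finite κ] (hred : V.IsRed red 1) {j : ℕ} (hρ : V.IsRed ρ (2 * j))
    (θ : R →+* κ) (hθ : θ.comp ρ = red) {f : Model V.O} (hΔ : ρ f.jac.Δ ≠ 0) :
    phiR θ (f.map ρ) = V.phiL3 red f := by
  obtain ⟨hpos, hN⟩ := nAff_eq hred hρ hΔ
  have hj : j ≠ 0 := by
    rintro rfl
    exact hΔ ((hρ.ker _).2 (by simpa using V.v_le_one _))
  have hR := (hred.card hρ).2
  unfold phiR phiL3
  rw [Model.map_map, hθ, Model.jac_map, hN, hR]
  congr 1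
  obtain ⟨N, hN'⟩ := Nat.exists_eq_succ_of_ne_zero hpos.ne'
  have hq : (Nat.card κ : ℝ) ≠ 0 := by exact_mod_cast (Nat.card_pos (α := κ)).ne'
  have hp : (Nat.card κ : ℝ) ^ (2 * j) = (Nat.card κ : ℝ) ^ (2 * j - 1) * Nat.card κ := by
    rw [← pow_succ]; congr 1; omega
  rw [hN']
  push_cast [Nat.succ_sub_one]
  rw [hp]
  field_simp
  ring

end LocalField

end SelAvg.FF.T3
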