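import Pool.Agent.H5T.LocD
import Pool.Agent.H5T.DifA

/-! Local theory of ternary cubics: counting good points, integral points. -/

namespace SelAvg.FF.T3

open WeierstrassCurve WithZero Matrix Polynomial
open scoped Classical

section Field

variable {κ : Type*} [Field κ]

lemma npt_prim (p : (κ × κ) ⊕ Option κ) : (npt p).Prim := by
  rw [Pt.prim_iff]
  obtain p | _ | z := p
  · exact ⟨0, by simp [npt]⟩
  · exact ⟨2, by simp [npt]⟩
  · exact ⟨1, by simp [npt]⟩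

lemma exists_npt {Q : Pt κ} (h : Q.Prim) : ∃ p, Q.Eqv (npt p) := by
  by_cases h0 : Q 0 = 0
  · by_cases h1 : Q 1 = 0
    · have h2 : Q 2 ≠ 0 := by
        obtain ⟨i, hi⟩ := Pt.prim_iff.1 h
        fin_cases i
        · exact absurd h0 hi
        · exact absurd h1 hi
        · exact hi
      refine ⟨.inr none, (Q 2)⁻¹, inv_ne_zero h2, ?_⟩
      funext i; fin_cases i <;> simp [npt, h0, h1, h2]
    · refine ⟨.inr (some ((Q 1)⁻¹ * Q 2)), (Q 1)⁻¹, inv_ne_zero h1, ?_⟩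
      funext i; fin_cases i <;> simp [npt, h0, h1]
  · refine ⟨.inl ((Q 0)⁻¹ * Q 1, (Q 0)⁻¹ * Q 2), (Q 0)⁻¹, inv_ne_zero h0, ?_⟩
    funext i; fin_cases i <;> simp [npt, h0]

lemma npt_inj {p p' : (κ × κ) ⊕ Option κ} (h : (npt p).Eqv (npt p')) : p = p' := by
  obtain ⟨t, ht, e⟩ := h
  have e0 := congrFun e 0
  have e1 := congrFun e 1
  have e2 := congrFun e 2
  obtain ⟨y, z⟩ | _ | z := p <;> obtain ⟨y', z'⟩ | _ | z' := p' <;>
    simp [npt, ht, ht.symm] at e0 e1 e2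
  · subst e0; simp [e1, e2]
  · rfl
  · subst e1; simp [e2]

lemma count_emb (g : G κ) (f : Model κ) :
    Nonempty ({p : (κ × κ) ⊕ Option κ // (g • f).Good (npt p)} ↪
      {p : (κ × κ) ⊕ Option κ // f.Good (npt p)}) := by
  choose n hn using fun p : (κ × κ) ⊕ Option κ => exists_npt ((npt_prim p).pt g)
  refine ⟨⟨fun p => ⟨n p.1, ((Model.good_pt g f _).2 p.2).eqv (hn p.1)⟩, ?_⟩⟩
  intro p p' h
  have h1 : n p.1 = n p'.1 := congrArg Subtype.val h
  have h2 : (g.pt (npt p.1)).Eqv (g.pt (npt p'.1)) := (hn p.1).trans (h1 ▸ (hn p'.1).symm)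
  have h3 := h2.pt g⁻¹
  rw [G.inv_pt_pt, G.inv_pt_pt] at h3
  exact Subtype.ext (npt_inj h3)

theorem nGood_smul (g : G κ) (f : Model κ) : nGood (g • f) = nGood f := by
  obtain ⟨e₁⟩ := count_emb g f
  obtain ⟨e₂⟩ := count_emb g⁻¹ (g • f)
  rw [inv_smul_smul] at e₂
  obtain ⟨e⟩ := Function.Embedding.antisymm e₁ e₂
  exact Nat.card_congr e

end Field

variable {L κ : Type*} [Field L] [Field κ] {V : LocalField L} {red : V.O →+* κ}

lemma _root_.SelAvg.LocalField.IPrim3.map_incl {Q : Pt V.O} (h : V.IPrim3 Q) :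
    (Q.map V.incl).Prim := by
  obtain ⟨i, hi⟩ := h
  exact Pt.prim_iff.2 ⟨i, (hi.map V.incl).ne_zero⟩

lemma _root_.SelAvg.LocalField.IPrim3.map_red (hred : V.IsRed red 1) {Q : Pt V.O} :
    V.IPrim3 Q ↔ (Q.map red).Prim := by
  rw [Pt.prim_iff]
  exact exists_congr fun i => hred.isUnit_iff _

lemma _root_.SelAvg.LocalField.IPrim3.pt {Q : Pt V.O} (h : V.IPrim3 Q) (g : G V.O) :
    V.IPrim3 (g.pt Q) := by
  have hred := SelAvg.LocalField.locDisc_isRed V
  rw [SelAvg.LocalField.IPrim3.map_red hred] at h ⊢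
  rw [← G.map_pt]
  exact h.pt _

/-- two equivalent primitive integral points differ by a unit -/
lemma _root_.SelAvg.LocalField.IPrim3.eqv_red (hred : V.IsRed red 1) {Q Q' : Pt V.O}
    (h : V.IPrim3 Q) (h' : V.IPrim3 Q') (e : (Q.map V.incl).Eqv (Q'.map V.incl)) :
    (Q.map red).Eqv (Q'.map red) := by
  obtain ⟨t, ht, e⟩ := e
  have ex : ∀ i, (Q' i : L) = t * Q i := fun i => congrFun e i
  have hle : V.v t ≤ 1 := by
    obtain ⟨i, hi⟩ := h
    have := V.v_le_one (Q' i)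
    rwa [ex, map_mul, (V.isUnit_iff _).1 hi, mul_one] at this
  set t₀ : V.O := ⟨t, hle⟩ with ht₀
  have ex' : ∀ i, Q' i = t₀ * Q i := fun i => Subtype.ext (ex i)
  have hu : IsUnit t₀ := by
    obtain ⟨i, hi⟩ := h'
    rw [ex'] at hi
    exact isUnit_of_mul_isUnit_left hi
  refine ⟨red t₀, (hred.isUnit_iff _).1 hu, ?_⟩
  funext i
  simp [ex']

namespace LocalField

open SelAvg.LocalField

lemma on_int {f : Model V.O} {Q : Pt V.O} (hQ : V.IPrim3 Q) (hF : f.F Q = 0) :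
    (f.map V.incl).On (Q.map V.incl) :=
  ⟨hQ.map_incl, by rw [Model.map_F, hF, map_zero]⟩

lemma on_red (hred : V.IsRed red 1) {f : Model V.O} {Q : Pt V.O} (hQ : V.IPrim3 Q)
    (hF : f.F Q = 0) : (f.map red).On (Q.map red) :=
  ⟨(IPrim3.map_red hred).1 hQ, by rw [Model.map_F, hF, map_zero]⟩

lemma F_smul_eq_zero {f : Model V.O} (g : G V.O) {Q : Pt V.O} (hF : f.F (g.pt Q) = 0) :
    (g • f).F Q = 0 := by
  rw [G.F_pt] at hF
  exact g.μ.isUnit.mul_right_eq_zero.1 hF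

theorem exists_integral_rep (f : Model V.O) {Q : Pt L} (hQ : (f.map V.incl).On Q) :
    ∃ Q₀ : Pt V.O, V.IPrim3 Q₀ ∧ f.F Q₀ = 0 ∧ Q.Eqv (Q₀.map V.incl) := by
  obtain ⟨i, -, hi⟩ := Finset.exists_max_image Finset.univ (fun i => V.v (Q i)) Finset.univ_nonempty
  have hs : Q i ≠ 0 := by
    obtain ⟨j, hj⟩ := Pt.prim_iff.1 hQ.prim
    intro h0
    have := hi j (Finset.mem_univ _)
    rw [h0, map_zero, le_zero_iff, map_eq_zero] at this
    exact hj this
  have hv : 0 < V.v (Q i) := by rwa [Valuation.pos_iff]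
  have key : ∀ j, V.v ((Q i)⁻¹ * Q j) ≤ 1 := fun j => by
    rw [map_mul, map_inv₀, inv_mul_le_iff₀ hv, mul_one]
    exact hi j (Finset.mem_univ _)
  let Q₀ : Pt V.O := fun j => ⟨(Q i)⁻¹ * Q j, key j⟩
  have hm : Q₀.map V.incl = Q.sc (Q i)⁻¹ := rfl
  refine ⟨Q₀, ⟨i, ?_⟩, ?_, (Q i)⁻¹, inv_ne_zero hs, hm⟩
  · have : Q₀ i = 1 := Subtype.ext (inv_mul_cancel₀ hs)
    rw [this]; exact isUnit_one
  · apply V.incl_injective
    rw [← Model.map_F, hm, Model.F_smul, hQ.eq, mul_zero, map_zero]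

/-- smooth points lift -/
theorem exists_lift (hred : V.IsRed red 1) (f : Model V.O) {Q : Pt κ} (hQ : (f.map red).On Q)
    (hs : (f.map red).Smooth Q) : ∃ Q₀ : Pt V.O, V.IPrim3 Q₀ ∧ f.F Q₀ = 0 ∧ Q₀.map red = Q := by
  obtain ⟨w, hw⟩ := Model.smooth_iff.1 hs
  choose P hP using fun i => hred.surj (Q i)
  choose u hu using fun i => hred.surj (w i)
  have hm : Pt.map red P = Q := funext hP
  have hm' : Pt.map red u = w := funext hu
  set p : V.O[X] := C (f.F u) * X ^ 3 + C (f.pol u P) * X ^ 2 + C (f.pol P u) * X + C (f.F P)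
    with hp
  have e0 : ∀ t, p.eval t = f.F ((1 : V.O) • P + t • u) := fun t => by
    rw [Model.F_add]
    simp only [hp, eval_add, eval_mul, eval_C, eval_pow, eval_X]
    ring
  have e1 : p.derivative.eval 0 = f.pol P u := by simp [hp]
  have e2 : p.eval 0 = f.F P := by simp [hp]
  obtain ⟨t, ht, hr⟩ := locBasic_lift hred p 0
    (by rw [e2, ← Model.map_F, hm]; exact hQ.eq) (by rw [e1, ← Model.map_pol, hm, hm']; exact hw)
  have h2 : Pt.map red ((1 : V.O) • P + t • u) = Q := by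
    funext i
    simp [hr, hP]
  exact ⟨_, (IPrim3.map_red hred).2 (h2 ▸ hQ.prim), by rw [← e0]; exact ht, h2⟩

theorem soluble_of_nGood_pos (hred : V.IsRed red 1) (f : Model V.O) (h : 0 < nGood (f.map red)) :
    (f.map V.incl).Soluble := by
  obtain ⟨⟨p, hp⟩⟩ := (Nat.card_pos_iff.1 h).1
  obtain ⟨Q₀, h1, h2, -⟩ := exists_lift hred f hp.on hp.smooth
  exact ⟨Q₀.map V.incl, on_int h1 h2⟩

/-- integral standard position at a smooth point -/
theorem exists_std (hred : V.IsRed red 1) {f : Model V.O} {Q : Pt V.O} (hQ : V.IPrim3 Q)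
    (hF : f.F Q = 0) (hs : (f.map red).Smooth (Q.map red)) :
    ∃ k : G V.O, k.pt Pt.std = Q ∧ (k • f).Std ∧ IsUnit (k • f).a3 := by
  obtain ⟨w, hw⟩ := Model.smooth_iff.1 hs
  choose u hu using fun i => hred.surj (w i)
  have hm' : Pt.map red u = w := funext hu
  refine exists_mover_ring hQ hF ⟨u, (hred.isUnit_iff _).2 ?_⟩
  rw [← Model.map_pol, hm']
  exact hw

lemma good_red_iff (hred : V.IsRed red 1) {f : Model V.O} (h : f.Std) :
    (f.map red).Good Pt.std ↔ IsUnit f.a3 ∧ (IsUnit f.b1 ∨ IsUnit f.b) := by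
  rw [Model.good_std (h.map red), hred.isUnit_iff, hred.isUnit_iff, hred.isUnit_iff]
  rfl

lemma good_red_pt (k : G V.O) (f : Model V.O) :
    (f.map red).Good ((k.pt Pt.std).map red) ↔ ((k • f).map red).Good Pt.std := by
  rw [← G.map_pt, Pt.map_std, Model.good_pt, G.map_smul]

/-- integral standard position at a good point -/
theorem exists_std_good (hred : V.IsRed red 1) {f : Model V.O} {Q : Pt V.O} (hQ : V.IPrim3 Q)
    (hF : f.F Q = 0) (hs : (f.map red).Good (Q.map red)) :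
    ∃ k : G V.O, k.pt Pt.std = Q ∧ (k • f).Std ∧ IsUnit (k • f).a3 ∧
      (IsUnit (k • f).b1 ∨ IsUnit (k • f).b) := by
  obtain ⟨k, hk, h1, -⟩ := exists_std hred hQ hF hs.smooth
  rw [← hk, good_red_pt, good_red_iff hred h1] at hs
  exact ⟨k, hk, h1, hs⟩

end LocalField

end SelAvg.FF.T3
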