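import Pool.Agent.H5T.LocP
import Pool.Agent.H5T.DifB
import Pool.Agent.H38Sel.LocB

/-! Local theory of ternary cubics: residue discs, uniqueness and existence of good models. -/

namespace SelAvg.FF.T3.LocalField

open WeierstrassCurve WithZero Matrix SelAvg.LocalField
open scoped Classical

variable {L κ : Type*} [Field L] [Field κ] {V : LocalField L} {red : V.O →+* κ}

/-- the disc of the standard point -/
theorem disc_std {f : Model V.O} (h : f.Std) (h3 : IsUnit f.a3) (hs : IsUnit f.b1 ∨ IsUnit f.b)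
    {Q : Pt V.O} (hQ : V.IPrim3 Q) (hF : f.F Q = 0) :
    V.InE1 ((f.map V.incl).red.stdDiff ((f.map V.incl).phi (Q.map V.incl))) ↔
      V.v (Q 1 : L) < 1 ∧ V.v (Q 2 : L) < 1 := by
  have hs' : IsUnit f.red.l ∨ IsUnit f.red.b := hs.imp id fun hb => (h3.mul hb).neg
  have mem : ∀ x : V.O, V.v (x : L) < 1 ↔ x ∈ IsLocalRing.maximalIdeal V.O := fun x => by
    rw [← locDisc0_not_unit, IsLocalRing.mem_maximalIdeal, mem_nonunits_iff]
  have nu : ∀ x : V.O, IsUnit x → x ∉ IsLocalRing.maximalIdeal V.O := fun x hx hm =>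
    (IsLocalRing.mem_maximalIdeal x).1 hm hx
  have hF' := hF
  simp only [Model.F, h.a, h.a2] at hF'
  by_cases h0 : Q 1 = 0 ∧ Q 2 = 0
  · have e : (f.map V.incl).phi (Q.map V.incl) = SelAvg.Pt.std :=
      if_pos ⟨congrArg Subtype.val h0.1, congrArg Subtype.val h0.2⟩
    rw [e, h0.1, h0.2]
    refine iff_of_true ?_ (by simp)
    have : (f.map V.incl).red.stdDiff SelAvg.Pt.std = none := normal_diff_std _
    rw [this]
    exact locDisc0_none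
  have h0' : ¬(Q.map V.incl 1 = 0 ∧ Q.map V.incl 2 = 0) := fun k =>
    h0 ⟨Subtype.ext k.1, Subtype.ext k.2⟩
  rw [Model.phi_of_ne _ h0', Model.phi0_map, Model.red_map, mem, mem]
  have hF0 : f.red.F (f.phi0 Q) = 0 := by rw [Model.F_phi0 h, hF, mul_zero]
  by_cases hu : IsUnit (Q 1) ∨ IsUnit (Q 2)
  · rw [SelAvg.LocalField.disc_std (Model.red_a f) hs' (Q := f.phi0 Q) hu hF0, mem, mem]
    refine iff_of_false ?_ fun k => hu.elim (fun u => nu _ u k.1) fun u => nu _ u k.2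
    rintro ⟨h2, hy⟩
    have h2' : Q 2 ∈ IsLocalRing.maximalIdeal V.O := h2
    have h1 : IsUnit (Q 1) := hu.resolve_right fun u => nu _ u h2'
    have e1 : f.b1 * Q 1 ^ 2 = -(f.phi0 Q).y - Q 2 * (f.a3 * Q 0 + f.m * Q 1 + f.c1 * Q 2) := by
      simp only [Model.phi0, SelAvg.Model.q, Model.red_l, Model.red_m, Model.red_n]
      ring
    have m1 : f.b1 * Q 1 ^ 2 ∈ IsLocalRing.maximalIdeal V.O := by
      rw [e1]
      exact sub_mem (neg_mem hy) (Ideal.mul_mem_right _ _ h2')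
    have e2 : f.b * Q 1 ^ 3 = -(Q 0 * (f.b1 * Q 1 ^ 2)) - Q 2 * (f.c * Q 2 ^ 2 + f.a3 * Q 0 ^ 2 +
        f.b3 * Q 1 ^ 2 + f.c1 * Q 0 * Q 2 + f.c2 * Q 1 * Q 2 + f.m * Q 0 * Q 1) := by
      linear_combination hF'
    have m2 : f.b * Q 1 ^ 3 ∈ IsLocalRing.maximalIdeal V.O := by
      rw [e2]
      exact sub_mem (neg_mem (Ideal.mul_mem_left _ _ m1)) (Ideal.mul_mem_right _ _ h2')
    exact hs.elim (fun u => nu _ (u.mul (h1.pow 2)) m1) fun u => nu _ (u.mul (h1.pow 3)) m2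
  rw [not_or] at hu
  have m1 : Q 1 ∈ IsLocalRing.maximalIdeal V.O := (IsLocalRing.mem_maximalIdeal _).2 hu.1
  have m2 : Q 2 ∈ IsLocalRing.maximalIdeal V.O := (IsLocalRing.mem_maximalIdeal _).2 hu.2
  refine iff_of_true ?_ ⟨m1, m2⟩
  have hx : IsUnit (Q 0) := by
    obtain ⟨i, hi⟩ := hQ
    fin_cases i
    · exact hi
    · exact absurd hi hu.1
    · exact absurd hi hu.2
  -- `z * unit = - y ^ 2 * (..)`
  have hw : IsUnit (f.a3 * Q 0 ^ 2 + (f.c * Q 2 ^ 2 + f.b3 * Q 1 ^ 2 + f.c1 * Q 0 * Q 2 +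
      f.c2 * Q 1 * Q 2 + f.m * Q 0 * Q 1)) := by
    by_contra hn
    have k1 := (IsLocalRing.mem_maximalIdeal _).2 hn
    have k2 : f.c * Q 2 ^ 2 + f.b3 * Q 1 ^ 2 + f.c1 * Q 0 * Q 2 + f.c2 * Q 1 * Q 2 +
        f.m * Q 0 * Q 1 ∈ IsLocalRing.maximalIdeal V.O := by
      have e : f.c * Q 2 ^ 2 + f.b3 * Q 1 ^ 2 + f.c1 * Q 0 * Q 2 + f.c2 * Q 1 * Q 2 +
          f.m * Q 0 * Q 1 = (f.c * Q 2 + f.c1 * Q 0 + f.c2 * Q 1) * Q 2 +
            (f.b3 * Q 1 + f.m * Q 0) * Q 1 := by ring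
      rw [e]
      exact add_mem (Ideal.mul_mem_left _ _ m2) (Ideal.mul_mem_left _ _ m1)
    exact nu _ (h3.mul (hx.pow 2)) ((Submodule.add_mem_iff_left _ k2).1 k1)
  obtain ⟨w, hw'⟩ := hw.exists_right_inv
  obtain ⟨x', hx'⟩ := hx.exists_right_inv
  obtain ⟨s, hs2⟩ : ∃ s, Q 2 = Q 1 * (Q 1 * s) :=
    ⟨-(f.b * Q 1 + f.b1 * Q 0) * w, by linear_combination w * hF' - Q 2 * hw'⟩
  have hy : Q 1 ≠ 0 := fun k => h0 ⟨k, by rw [hs2, k, zero_mul]⟩
  set Y : V.O := Q 1 * (x' * (f.b + f.b3 * (Q 1 * s) + f.c2 * (Q 1 * s) ^ 2 + f.c * (Q 1 * s) ^ 3))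
    with hY
  have e : f.phi0 Q = (⟨1, Q 1 * s, Y⟩ : SelAvg.Pt V.O).sc (Q 1) := by
    refine SelAvg.Pt.ext (mul_one _).symm hs2 ?_
    simp only [Model.phi0, SelAvg.Model.q, Model.red_l, Model.red_m, Model.red_n, SelAvg.Pt.sc_y,
      hY]
    rw [hs2] at hF' ⊢
    linear_combination (-x') * hF' + (f.a3 * Q 0 * (Q 1 * (Q 1 * s)) + f.b1 * Q 1 ^ 2 +
      f.m * Q 1 * (Q 1 * (Q 1 * s)) + f.c1 * (Q 1 * (Q 1 * s)) ^ 2) * hx'
  have hF1 : f.red.F ⟨1, Q 1 * s, Y⟩ = 0 := by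
    rw [e, SelAvg.Model.F_sc] at hF0
    exact (mul_eq_zero.1 hF0).resolve_left (pow_ne_zero _ hy)
  have e' : ((⟨1, Q 1 * s, Y⟩ : SelAvg.Pt V.O).map V.incl).Eqv ((f.phi0 Q).map V.incl) :=
    ⟨V.incl (Q 1), fun k => hy (Subtype.ext k), by rw [e]; ext <;> simp⟩
  rw [← SelAvg.Model.stdDiff_eqv _ e',
    SelAvg.LocalField.disc_std (Model.red_a f) hs' (Or.inl isUnit_one) hF1, mem, mem]
  exact ⟨Ideal.mul_mem_right _ _ m1, Ideal.mul_mem_right _ _ m1⟩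

theorem disc (hred : V.IsRed red 1) {W : WeierstrassCurve V.O} (hW : W.Δ ≠ 0) {z : Obj V.O}
    (hz : z.Over W) {Q Q' : Pt V.O} (hQ : V.IPrim3 Q) (hF : z.f.F Q = 0)
    (hs : (z.f.map red).Good (Q.map red)) (hQ' : V.IPrim3 Q') (hF' : z.f.F Q' = 0) :
    V.InE1 (toRaw (D (W.map V.incl) (z.map V.incl) (Q.map V.incl) (Q'.map V.incl))) ↔
      (Q.map red).Eqv (Q'.map red) := by
  obtain ⟨g, hg, h1, h3, hu⟩ := exists_std_good hred hQ hF hs
  have hgL : ((G.map V.incl g).pt Pt.std).Eqv (Q.map V.incl) := by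
    rw [← Pt.map_std V.incl, G.map_pt, hg]
    exact Pt.Eqv.refl _
  have hgr : (G.map red g).pt Pt.std = Q.map red := by
    rw [← Pt.map_std red, G.map_pt, hg]
  have hQ'' : V.IPrim3 (g⁻¹.pt Q') := hQ'.pt g⁻¹
  have hF'' : (g • z.f).F (g⁻¹.pt Q') = 0 := F_smul_eq_zero g (by rw [G.pt_inv_pt]; exact hF')
  have hstd : ((g • z.f).map V.incl).Std := h1.map V.incl
  have e : G.map V.incl g • (z.map V.incl).f = (g • z.f).map V.incl := (G.map_smul _ _ _).symm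
  have ho : ((g • z).map V.incl).red.Over (W.map V.incl) :=
    (Obj.over_red hstd).2 ((hz.smul g).map V.incl)
  rw [D_eq (locDisc_Delta hW) (hz.map V.incl) (on_int hQ hF) (on_int hQ' hF') _ hgL
      (by rw [e]; exact hstd.a2), e, ← Obj.map_smul, ← map_inv, G.map_pt,
    SelAvg.toRaw_D_std (locDisc_Delta hW) ho rfl (Model.on_phi hstd (on_int hQ'' hF'')),
    Obj.red_γ, Obj.map_γ, inE1_vcRaw]
  refine (disc_std h1 h3 hu hQ'' hF'').trans ?_
  rw [← hred.red_eq_zero, ← hred.red_eq_zero]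
  refine (Pt.std_eqv_iff ((IPrim3.map_red hred).1 hQ'')).symm.trans ⟨fun h4 => ?_, fun h => ?_⟩
  · have h5 := h4.pt (G.map red g)
    rwa [hgr, G.map_pt, G.pt_inv_pt] at h5
  · have h5 := h.pt (G.map red g⁻¹)
    rwa [G.map_pt, G.map_pt, ← hg, G.inv_pt_pt, Pt.map_std] at h5

/-- uniqueness in standard position -/
theorem unique_std {z z' : Obj V.O} (h : z.f.Std) (h' : z'.f.Std) (h3 : IsUnit z.f.a3)
    (h3' : IsUnit z'.f.a3) (hs : IsUnit z.f.b1 ∨ IsUnit z.f.b) (hs' : IsUnit z'.f.b1 ∨ IsUnit z'.f.b)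
    {g : G L} (hg : g • z'.map V.incl = z.map V.incl) (hQ : (g.pt Pt.std).Eqv Pt.std) :
    V.MEq3 1 g.M := by
  have hf' : (z'.map V.incl).f.Std := h'.map V.incl
  have ha' : (z'.map V.incl).f.a3 ≠ 0 := (h3'.map V.incl).ne_zero
  have hgf : g • (z'.map V.incl).f = (z.map V.incl).f := congrArg Obj.f hg
  have hB : g.Bor := G.bor_of_pt hf' ha' hQ (by rw [hgf]; exact (h.map V.incl).a2)
  obtain ⟨k, hk⟩ := hB.exists_ind (z'.map V.incl).f
  have hkz : k • z'.red.map V.incl = z.red.map V.incl := by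
    rw [← Obj.red_map, ← Obj.red_map, hk.smul_obj hB hf', hg]
  have h11 : g.e 1 1 ≠ 0 := (hB.isUnit 1).ne_zero
  have hM := SelAvg.LocalField.unique_std (z := z.red) (z' := z'.red) rfl rfl
    (hs.imp id fun hb => (h3.mul hb).neg) (hs'.imp id fun hb => (h3'.mul hb).neg) hkz
    (by rw [hk.pt_std]; exact SelAvg.Pt.Eqv.symm ⟨_, h11, rfl⟩)
  obtain ⟨t, k₀, e, ez⟩ := SelAvg.LocalField.equiv_lift (V := V) (z₀ := z'.red.map V.incl)
    ⟨1, z'.red, one_smul _ _⟩ ⟨k, z.red, hkz⟩ hM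
  simp only [mul_one] at e ez
  have e11 : k.m11 = t * V.incl k₀.m11 := by simp [e, SelAvg.G.mul_m11]
  have e12 : k.m12 = t * V.incl k₀.m12 := by simp [e, SelAvg.G.mul_m12]
  have e21 : k.m21 = t * V.incl k₀.m21 := by simp [e, SelAvg.G.mul_m21]
  have e22 : k.m22 = t * V.incl k₀.m22 := by simp [e, SelAvg.G.mul_m22]
  have eμ : (k.μ : L) = t ^ 2 * V.incl k₀.μ := by simp [e]
  have er0 : k.r0 = V.incl k₀.r0 * t ^ 2 := by simp [e, SelAvg.G.mul_r0]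
  have er1 : k.r1 = V.incl k₀.r1 * t * t := by simp [e, SelAvg.G.mul_r1]
  have er2 : k.r2 = V.incl k₀.r2 * t ^ 2 := by simp [e, SelAvg.G.mul_r2]
  have z12 : k₀.m12 = 0 := V.incl_injective (by
    rw [hk.m12] at e12
    rw [map_zero]
    exact (mul_eq_zero.1 e12.symm).resolve_left t.ne_zero)
  have z0 : k₀.r0 = 0 := V.incl_injective (by
    rw [hk.r0] at er0
    rw [map_zero]
    exact (mul_eq_zero.1 er0.symm).resolve_right (pow_ne_zero _ t.ne_zero))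
  obtain ⟨g₀, hB₀, hk₀, hz₀⟩ := exists_bor_of_red h h' h3 h3' z12 z0 ez.symm
  have hB₁ := hB₀.map V.incl
  have hk₁ := hk₀.map V.incl
  set g₁ := G.map V.incl g₀ with hg₁
  have hgf₁ : g₁ • (z'.map V.incl).f = (z.map V.incl).f := by
    rw [← hz₀, Obj.map_smul]; rfl
  have a1 := hB.a3 hf'
  have a2 := hB₁.a3 hf'
  rw [hgf] at a1
  rw [hgf₁] at a2
  have b11 := hk₁.m11
  have b21 := hk₁.m21
  have b22 := hk₁.m22
  have bμ : V.incl k₀.μ * g₁.e 0 0 = g₁.μ := hk₁.μ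
  have br1 : V.incl k₀.r1 = (z'.map V.incl).f.a3 * g₁.e 2 2 * g₁.e 1 0 := hk₁.r1
  have br2 : V.incl k₀.r2 = (z'.map V.incl).f.a3 * g₁.e 2 2 * g₁.e 2 0 := hk₁.r2
  rw [SelAvg.G.map_m11] at b11
  rw [SelAvg.G.map_m21] at b21
  rw [SelAvg.G.map_m22] at b22
  have c11 : g.e 1 1 = t * g₁.e 1 1 := by rw [← hk.m11, e11, b11]
  have c21 : g.e 2 1 = t * g₁.e 2 1 := by rw [← hk.m21, e21, b21]
  have c22 : g.e 2 2 = t * g₁.e 2 2 := by rw [← hk.m22, e22, b22]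
  have n22 : (z'.map V.incl).f.a3 * g₁.e 2 2 * t ≠ 0 :=
    mul_ne_zero (mul_ne_zero ha' (hB₁.isUnit 2).ne_zero) t.ne_zero
  have c10 : g.e 1 0 = t * g₁.e 1 0 := mul_left_cancel₀ n22 (by
    have := hk.r1
    rw [er1, br1, c22] at this
    linear_combination -this)
  have c20 : g.e 2 0 = t * g₁.e 2 0 := mul_left_cancel₀ n22 (by
    have := hk.r2
    rw [er2, br2, c22] at this
    linear_combination -this)
  have c00 : g.e 0 0 = t * g₁.e 0 0 :=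
    mul_left_cancel₀ (mul_ne_zero n22
      (mul_ne_zero (hB.isUnit 0).ne_zero (hB₁.isUnit 0).ne_zero)) (by
    have := hk.μ
    rw [eμ] at this
    rw [← this, c22] at a1
    rw [← bμ] at a2
    linear_combination (-g₁.e 0 0) * a1 + (t ^ 2 * g.e 0 0) * a2)
  have c01 : g.e 0 1 = t * g₁.e 0 1 := by rw [hB.e01, hB₁.e01, mul_zero]
  have c02 : g.e 0 2 = t * g₁.e 0 2 := by rw [hB.e02, hB₁.e02, mul_zero]
  have c12 : g.e 1 2 = t * g₁.e 1 2 := by rw [hB.e12, hB₁.e12, mul_zero]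
  refine ⟨t, g₀.M, ?_⟩
  rw [mul_one]
  refine Units.ext ?_
  rw [Units.val_mul, G.scM_val', smul_mul_assoc, one_mul]
  change g.e = (t : L) • g₁.e
  ext i j
  rw [Matrix.smul_apply, smul_eq_mul]
  fin_cases i <;> fin_cases j
  exacts [c00, c01, c02, c10, c11, c12, c20, c21, c22]

/-- integral normal forms -/
theorem exists_good {W : WeierstrassCurve V.O} (hW : W.Δ ≠ 0)
    (P : (W.map V.incl).toAffine.Point) :
    ∃ z : Obj V.O, z.Over W ∧ z.f.Std ∧ IsUnit z.f.a3 ∧ (IsUnit z.f.b1 ∨ IsUnit z.f.b) ∧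
      piP (W.map V.incl) (z.map V.incl) Pt.std = P := by
  obtain ⟨z, hz, ha, hu, hπ⟩ := exists_smooth hW P
  have ho : (Obj.unred z).Over W := (Obj.over_unred ha).2 hz
  refine ⟨Obj.unred z, ho, Model.unred_std _, isUnit_one.neg, hu, ?_⟩
  rw [piP_std (locModel_Delta hW) (ho.map V.incl) ((Model.unred_std _).map V.incl), Obj.red_map,
    Obj.red_unred ha, hπ]

end SelAvg.FF.T3.LocalField
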