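import Pool.Agent.H81Sel.Main
import Pool.Agent.H5T.Fin2
import Pool.Agent.H5T.Abhn

/-! The average size of the 3-Selmer group. -/

namespace SelAvg.FF.T3

open WeierstrassCurve WithZero Filter Topology
open scoped Classical

variable {F : Type} [Field F]

/-- the size of the Selmer group of a class -/
noncomputable def selC (c : IsoClass F) : ℝ := (Sel (Quot.out c).1 3).ncard

variable [Cv F]

lemma selC_eq {c : IsoClass F} {W : WeierstrassCurve F} (h : Models c W) :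
    selC c = (SelO W).ncard + 1 := by
  obtain ⟨C, rfl⟩ := h
  have h0 := out_Delta_ne_zero c
  rw [selC, (finite_Sel_of H5T.abhn3 h0 (finite_SelO h0)).2, Set.ncard_def (SelO (C • _)), encard_SelO_smul,
    ← Set.ncard_def]
  push_cast
  rfl

lemma ht_type {D : Div F} (hD : (c0 F : ℤ) ≤ deg D) (S : Finset (IsoClass F))
    (hS : ∀ c, c ∈ S ↔ ∃ u : Fˣ, DC c + dv (u : F) = D) (hT : TD D ≠ 0) :
    ∑ c ∈ S, (selC c - 4) = (SD D / TD D - 3) * S.card := by
  have hN : ((WB D).card : ℝ) ≠ 0 := by exact_mod_cast (WB_nonempty D).card_pos.ne'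
  have hG : ((GB D).card : ℝ) ≠ 0 := by
    exact_mod_cast (Finset.card_pos.2 ⟨_, one_mem_GB D⟩).ne'
  have e1 := ht_card hD S hS
  have e2 := classes_sum hD S hS selC (fun W => (SelO W).ncard + 1) fun _ _ h => selC_eq h
  have e3 : ∑ W ∈ WB D, ind (MinW D W) * aut W * (((SelO W).ncard : ℝ) + 1) =
      (SD D + TD D) * (WB D).card := by
    rw [TD, SD, avg, avg, ← add_div, div_mul_cancel₀ _ hN, ← Finset.sum_add_distrib]
    exact Finset.sum_congr rfl fun W _ => by ring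
  rw [e3] at e2
  rw [Finset.sum_sub_distrib, Finset.sum_const, nsmul_eq_mul, eq_div_of_mul_eq hG e1,
    eq_div_of_mul_eq hG e2]
  field_simp
  ring

lemma ht_est (h : ∀ R : Div F, (c0 F : ℤ) ≤ deg R →
      Tendsto (fun m : ℕ => SD (R + m • PP F) / TD (R + m • PP F)) atTop (𝓝 3))
    (hT : ∀ R : Div F, (c0 F : ℤ) ≤ deg R → ∀ᶠ m : ℕ in atTop, 0 < TD (R + m • PP F))
    {ε : ℝ} (hε : 0 < ε) : ∃ d : ℤ, ∀ S : Finset (IsoClass F), (∀ c ∈ S, d ≤ deg (DC c)) →
      (∀ c ∈ S, ∀ c', deg (DC c') = deg (DC c) → c' ∈ S) →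
        |∑ c ∈ S, (selC c - 4)| ≤ ε * S.card := by
  obtain ⟨RR, -, h1, h2, h3, h4⟩ := exists_reps (F := F)
  obtain ⟨m₀, hm⟩ := eventually_atTop.1 ((eventually_all_finset RR).2 fun R hR =>
    (Metric.tendsto_nhds.1 (h R (h1 R hR)) ε hε).and (hT R (h1 R hR)))
  have h5 : ∀ c : IsoClass F, ∃ (R : Div F) (m : ℕ) (u : Fˣ), (c0 F : ℤ) ≤ deg (DC c) →
      R ∈ RR ∧ DC c + dv (u : F) = R + m • PP F := fun c => by
    by_cases hc : (c0 F : ℤ) ≤ deg (DC c)
    · obtain ⟨R, hR, m, u, e⟩ := h3 _ hc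
      exact ⟨R, m, u, fun _ => ⟨hR, e⟩⟩
    · exact ⟨0, 0, 1, fun h => absurd h hc⟩
  choose R m u h5 using h5
  have hp : (0 : ℤ) < pp F := by exact_mod_cast ht_pp_pos (F := F)
  have hp' : (0 : ℤ) ≤ m₀ * pp F := by positivity
  refine ⟨c0 F + pp F + m₀ * pp F, fun S hS hS' => ?_⟩
  have h6 : ∀ c ∈ S, (c0 F : ℤ) ≤ deg (DC c) := fun c hc => by have := hS c hc; omega
  rw [← Finset.sum_fiberwise_of_maps_to (g := fun c => R c + m c • PP F)
    (fun c hc => Finset.mem_image_of_mem _ hc),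
    Finset.card_eq_sum_card_image (fun c => R c + m c • PP F), Nat.cast_sum, Finset.mul_sum]
  refine (Finset.abs_sum_le_sum_abs _ _).trans (Finset.sum_le_sum fun D hD => ?_)
  obtain ⟨c, hc, rfl⟩ := Finset.mem_image.1 hD
  obtain ⟨a, b⟩ := h5 c (h6 c hc)
  have e1 : deg (DC c) = deg (R c + m c • PP F) := by rw [← b, map_add, deg_dv, add_zero]
  have e2 : m₀ ≤ m c := by
    have e3 := hS c hc
    have e4 := h2 _ a
    rw [e1, map_add, map_nsmul, deg_PP, nsmul_eq_mul] at e3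
    have e5 : (m₀ : ℤ) * pp F < m c * pp F := by omega
    exact_mod_cast (lt_of_mul_lt_mul_right e5 hp.le).le
  obtain ⟨e3, e4⟩ := hm _ e2 _ a
  rw [ht_type (e1 ▸ h6 c hc) _ (fun c' => ?_) e4.ne', abs_mul, Nat.abs_cast]
  · exact mul_le_mul_of_nonneg_right (le_of_lt e3) (Nat.cast_nonneg _)
  rw [Finset.mem_filter]
  constructor
  · rintro ⟨hc', e⟩
    exact ⟨u c', (h5 c' (h6 c' hc')).2.trans e⟩
  · rintro ⟨u', e⟩
    have hc' : c' ∈ S := hS' c hc c' (by rw [e1, ← e, map_add, deg_dv, add_zero])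
    obtain ⟨a', b'⟩ := h5 c' (h6 c' hc')
    obtain ⟨f1, f2⟩ := h4 _ a' _ a (m c') (m c) (u' * (u c')⁻¹) (by
      rw [← b', ← e, Units.val_mul, dv_mul u'.ne_zero (u c')⁻¹.ne_zero, Units.val_inv_eq_inv_val,
        dv_inv]
      abel)
    exact ⟨hc', by rw [f1, f2]⟩

/-- the final step -/
theorem selmerAverage_of (h : ∀ R : Div F, (c0 F : ℤ) ≤ deg R →
      Tendsto (fun m : ℕ => SD (R + m • PP F) / TD (R + m • PP F)) atTop (𝓝 3))
    (hT : ∀ R : Div F, (c0 F : ℤ) ≤ deg R → ∀ᶠ m : ℕ in atTop, 0 < TD (R + m • PP F)) :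
    SelmerAverage F 3 4 := by
  refine ⟨fun W hW =>
    (finite_Sel_of H5T.abhn3 hW.isUnit.ne_zero (finite_SelO hW.isUnit.ne_zero)).1,
    finite_classesLE, Metric.tendsto_nhds.2 fun ε hε => ?_⟩
  have := ht_infinite hT
  obtain ⟨d, hd⟩ := ht_est h hT (half_pos hε)
  obtain ⟨K, hK⟩ : ∃ K, K = ∑ c ∈ (finite_DC_le (F := F) d).toFinset, |selC c - 4| := ⟨_, rfl⟩
  filter_upwards [eventually_ge_atTop (qq F ^ (12 * (c0 F + pp F : ℤ))),
    (tendsto_ncard_classesLE (F := F)).eventually_gt_atTop (max 0 (K / (ε / 2)))] with X h1 h2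
  have hS : ∀ c, c ∈ (finite_classesLE (F := F) X).toFinset ↔ qq F ^ (12 * deg (DC c)) ≤ X :=
    fun c => (finite_classesLE X).mem_toFinset.trans (height_le_iff (out_Delta_ne_zero c) h1)
  rw [Set.ncard_eq_toFinset_card _ (finite_classesLE X)] at h2
  rw [finsum_mem_eq_finite_toFinset_sum _ (finite_classesLE X),
    Set.ncard_eq_toFinset_card _ (finite_classesLE X)]
  generalize (finite_classesLE (F := F) X).toFinset = S at hS h2
  have hN : (0 : ℝ) < S.card := (le_max_left _ _).trans_lt h2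
  have h3 : K < S.card * (ε / 2) := (div_lt_iff₀ (half_pos hε)).1 ((le_max_right _ _).trans_lt h2)
  have h4 := hd (S.filter fun c => d ≤ deg (DC c)) (fun c hc => (Finset.mem_filter.1 hc).2)
    fun c hc c' e => by
      rw [Finset.mem_filter, hS] at hc ⊢
      rwa [e]
  have h5 : |∑ c ∈ S with ¬d ≤ deg (DC c), (selC c - 4)| ≤ K := by
    rw [hK]
    refine (Finset.abs_sum_le_sum_abs _ _).trans (Finset.sum_le_sum_of_subset_of_nonneg
      (fun c hc => ?_) fun _ _ _ => abs_nonneg _)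
    exact (Set.Finite.mem_toFinset _).2 (not_le.1 (Finset.mem_filter.1 hc).2).le
  have h6 : ((S.filter fun c => d ≤ deg (DC c)).card : ℝ) ≤ S.card := by
    exact_mod_cast Finset.card_filter_le _ _
  have h7 := Finset.sum_filter_add_sum_filter_not S (fun c => d ≤ deg (DC c)) fun c => selC c - 4
  have h8 : (∑ c ∈ S, selC c) / S.card - 4 = (∑ c ∈ S, (selC c - 4)) / S.card := by
    rw [Finset.sum_sub_distrib, Finset.sum_const, nsmul_eq_mul]
    field_simp
  change |(∑ c ∈ S, selC c) / S.card - 4| < ε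
  rw [h8, abs_div, abs_of_pos hN, div_lt_iff₀ hN, ← h7]
  have h9 := mul_le_mul_of_nonneg_left h6 (half_pos hε).le
  exact (abs_add_le _ _).trans_lt (by linarith)

theorem tendsto_ratio (R : Div F) :
    Tendsto (fun m : ℕ => SD (R + m • PP F) / TD (R + m • PP F)) atTop (𝓝 3) := by
  refine Metric.tendsto_nhds.2 fun ε hε => ?_
  filter_upwards [abs_SD_sub_le R (half_pos hε), TD_pos R] with m h1 h2
  have h3 : SD (R + m • PP F) / TD (R + m • PP F) - 3 =
      (SD (R + m • PP F) - 3 * TD (R + m • PP F)) / TD (R + m • PP F) := by field_simp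
  rw [Real.dist_eq, h3, abs_div, abs_of_pos h2]
  exact ((div_le_iff₀ h2).2 h1).trans_lt (half_lt_self hε)

theorem selmerAverage_cv : SelmerAverage F 3 4 :=
  selmerAverage_of (fun R _ => tendsto_ratio R) fun R _ => TD_pos R

omit [Cv F] in
theorem selmerAverage_three (k F : Type) [Field k] [Finite k] [Field F] [Algebra (RatFunc k) F]
    [FiniteDimensional (RatFunc k) F] : SelStmt.SelmerAverage F 3 4 := by
  obtain ⟨h⟩ := exists_cv k F
  exact selmerAverage_bridge selmerAverage_cv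

end SelAvg.FF.T3
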