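import Pool.Agent.H5T.ModA

/-!
The group `G R = GL₃(R) × Rˣ`, its action `(g • f)(v) = μ⁻¹ f(v M)` on ternary cubics, the induced
change of Weierstrass coordinates, objects, points and the projection to a degree 2 model.
-/

namespace SelAvg.FF.T3

open WeierstrassCurve Matrix

variable {R S : Type*} [CommRing R] [CommRing S]

/-- the universal ring -/
abbrev Univ : Type := MvPolynomial ((Fin 3 × Fin 3) ⊕ Fin 10) ℤ

/-- the universal matrix -/
noncomputable def univM : Matrix (Fin 3) (Fin 3) Univ :=
  Matrix.of fun i j => MvPolynomial.X (Sum.inl (i, j))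

/-- the universal cubic -/
noncomputable def univF : Model Univ := Model.equivVec.symm fun k => MvPolynomial.X (Sum.inr k)

/-- the specialisation of the universal data -/
noncomputable def univEv (M : Matrix (Fin 3) (Fin 3) R) (f : Model R) : Univ →+* R :=
  MvPolynomial.eval₂Hom (Int.castRingHom R)
    (Sum.elim (fun p => M p.1 p.2) (fun k => Model.equivVec f k))

lemma univM_map (M : Matrix (Fin 3) (Fin 3) R) (f : Model R) : univM.map (univEv M f) = M := by
  ext i j; simp [univM, univEv]

lemma univF_map (M : Matrix (Fin 3) (Fin 3) R) (f : Model R) : univF.map (univEv M f) = f := by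
  rw [univF, Model.equivVec_symm_map]
  simp [univEv]

lemma comp_univEv (φ : R →+* S) (M : Matrix (Fin 3) (Fin 3) R) (f : Model R) :
    φ.comp (univEv M f) = univEv (M.map φ) (f.map φ) := by
  refine MvPolynomial.ringHom_ext (fun r => by simp [univEv]) fun i => ?_
  rcases i with p | k
  · simp [univEv]
  · fin_cases k <;> simp [univEv, Model.equivVec]

lemma wsc_map (φ : R →+* S) (u : R) (W : WeierstrassCurve R) :
    (wsc u W).map φ = wsc (φ u) (W.map φ) := by ext <;> simp [wsc]

lemma wsc_wsc (u u' : R) (W : WeierstrassCurve R) : wsc u (wsc u' W) = wsc (u * u') W := by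
  ext <;> simp only [wsc] <;> ring

@[simp] lemma wsc_one (W : WeierstrassCurve R) : wsc 1 W = W := by ext <;> simp [wsc]

lemma wsc_wsh (u r s t : R) (W : WeierstrassCurve R) :
    wsc u (wsh r s t • W) = wsh (u ^ 2 * r) (u * s) (u ^ 3 * t) • wsc u W := by
  ext <;> simp only [wsc, wsh, variableChange_a₁, variableChange_a₂, variableChange_a₃,
    variableChange_a₄, variableChange_a₆, inv_one, Units.val_one] <;> ring

/-- over a field: induction on transvections -/
lemma exists_sh_field {L : Type*} [Field L] (M : Matrix (Fin 3) (Fin 3) L)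
    (f : Model L) : ∃ r s t : L, (f.subst M).jac = wsh r s t • wsc M.det f.jac := by
  revert f
  refine diagonal_transvection_induction
    (fun M => ∀ f : Model L, ∃ r s t : L, (f.subst M).jac = wsh r s t • wsc M.det f.jac) M
    ?_ ?_ ?_
  · intro d _ f
    refine ⟨0, 0, 0, ?_⟩
    rw [Model.jac_diagonal, det_diagonal, Fin.prod_univ_three]
    exact (one_smul (VariableChange L) _).symm
  · intro τ f
    rw [τ.det, wsc_one]
    obtain ⟨i, j, hij, c⟩ := τ
    rw [TransvectionStruct.toMatrix_mk]
    fin_cases i <;> fin_cases j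
    · exact absurd rfl hij
    · have e : transvection (0 : Fin 3) 1 c = !![1, c, 0; 0, 1, 0; 0, 0, 1] := by
        ext p q; fin_cases p <;> fin_cases q <;> simp [transvection]
      exact ⟨_, _, _, (congrArg (fun M => (f.subst M).jac) e).trans (Model.jac_tv01 c f)⟩
    · have e : transvection (0 : Fin 3) 2 c = !![1, 0, c; 0, 1, 0; 0, 0, 1] := by
        ext p q; fin_cases p <;> fin_cases q <;> simp [transvection]
      exact ⟨_, _, _, (congrArg (fun M => (f.subst M).jac) e).trans (Model.jac_tv02 c f)⟩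
    · have e : transvection (1 : Fin 3) 0 c = !![1, 0, 0; c, 1, 0; 0, 0, 1] := by
        ext p q; fin_cases p <;> fin_cases q <;> simp [transvection]
      exact ⟨_, _, _, (congrArg (fun M => (f.subst M).jac) e).trans (Model.jac_tv10 c f)⟩
    · exact absurd rfl hij
    · have e : transvection (1 : Fin 3) 2 c = !![1, 0, 0; 0, 1, c; 0, 0, 1] := by
        ext p q; fin_cases p <;> fin_cases q <;> simp [transvection]
      exact ⟨_, _, _, (congrArg (fun M => (f.subst M).jac) e).trans (Model.jac_tv12 c f)⟩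
    · have e : transvection (2 : Fin 3) 0 c = !![1, 0, 0; 0, 1, 0; c, 0, 1] := by
        ext p q; fin_cases p <;> fin_cases q <;> simp [transvection]
      exact ⟨_, _, _, (congrArg (fun M => (f.subst M).jac) e).trans (Model.jac_tv20 c f)⟩
    · have e : transvection (2 : Fin 3) 1 c = !![1, 0, 0; 0, 1, 0; 0, c, 1] := by
        ext p q; fin_cases p <;> fin_cases q <;> simp [transvection]
      exact ⟨_, _, _, (congrArg (fun M => (f.subst M).jac) e).trans (Model.jac_tv21 c f)⟩
    · exact absurd rfl hij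
  · intro A B hA hB f
    obtain ⟨r, s, t, h⟩ := hA (f.subst B)
    obtain ⟨r', s', t', h'⟩ := hB f
    rw [← Model.subst_subst, h, h', wsc_wsh, wsc_wsc, ← mul_smul, wsh_mul, det_mul]
    exact ⟨_, _, _, rfl⟩

theorem exists_sh_univ : ∃ C : VariableChange Univ, C.u = 1 ∧
    (univF.subst univM).jac = C • wsc univM.det univF.jac := by
  obtain ⟨r, s, t, h⟩ := exists_sh_field (univM.map (algebraMap Univ (FractionRing Univ)))
    (univF.map (algebraMap Univ (FractionRing Univ)))
  rw [← Model.map_subst, Model.jac_map, Model.jac_map, ← RingHom.mapMatrix_apply,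
    ← RingHom.map_det, ← wsc_map] at h
  obtain ⟨C, hC, h'⟩ := vc_integral (R := Univ) (L := FractionRing Univ) 1 (by simp [wsh]) h.symm
  refine ⟨C, ?_, h'.symm⟩
  have hu := congrArg (fun C : VariableChange (FractionRing Univ) => (C.u : FractionRing Univ)) hC
  ext1
  apply IsFractionRing.injective Univ (FractionRing Univ)
  simpa [VariableChange.map, wsh] using hu

namespace Model

/-- the change of Weierstrass coordinates (with `u = 1`) induced by a substitution -/
noncomputable def sh (M : Matrix (Fin 3) (Fin 3) R) (f : Model R) : VariableChange R :=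
  exists_sh_univ.choose.map (univEv M f)

lemma sh_u (M : Matrix (Fin 3) (Fin 3) R) (f : Model R) : (f.sh M).u = 1 := by
  simp [sh, VariableChange.map, exists_sh_univ.choose_spec.1]

lemma sh_eq_wsh (M : Matrix (Fin 3) (Fin 3) R) (f : Model R) :
    f.sh M = wsh (f.sh M).r (f.sh M).s (f.sh M).t := by
  ext1 <;> simp [wsh, sh_u]

lemma jac_subst (M : Matrix (Fin 3) (Fin 3) R) (f : Model R) :
    (f.subst M).jac = f.sh M • wsc M.det f.jac := by
  have h := congrArg (fun W => W.map (univEv M f)) exists_sh_univ.choose_spec.2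
  rw [← jac_map, map_subst, ← map_variableChange, wsc_map, ← jac_map, RingHom.map_det,
    RingHom.mapMatrix_apply, univM_map, univF_map] at h
  exact h

lemma sh_map (φ : R →+* S) (M : Matrix (Fin 3) (Fin 3) R) (f : Model R) :
    (f.map φ).sh (M.map φ) = (f.sh M).map φ := by
  rw [sh, sh, VariableChange.map_map, comp_univEv]

/-- in a domain of characteristic zero `sh` is determined by `jac_subst` -/
lemma sh_unique [IsDomain R] [CharZero R] {M : Matrix (Fin 3) (Fin 3) R} {f : Model R}
    {r s t : R} (h : (f.subst M).jac = wsh r s t • wsc M.det f.jac) : f.sh M = wsh r s t := by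
  have e := (f.jac_subst M).symm.trans h
  rw [sh_eq_wsh] at e ⊢
  generalize (f.sh M).r = r' at e ⊢
  generalize (f.sh M).s = s' at e ⊢
  generalize (f.sh M).t = t' at e ⊢
  generalize wsc M.det f.jac = W at e
  have e1 := congrArg WeierstrassCurve.a₁ e
  have e2 := congrArg WeierstrassCurve.a₂ e
  have e3 := congrArg WeierstrassCurve.a₃ e
  simp only [wsh, variableChange_a₁, variableChange_a₂, variableChange_a₃, inv_one,
    Units.val_one, one_pow, one_mul] at e1 e2 e3
  have hs : s' = s := mul_left_cancel₀ (two_ne_zero (α := R)) (by linear_combination e1)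
  subst hs
  have hr : r' = r := mul_left_cancel₀ (by norm_num : (3 : R) ≠ 0) (by linear_combination e2)
  subst hr
  have ht : t' = t := mul_left_cancel₀ (two_ne_zero (α := R)) (by linear_combination e3)
  rw [ht]

end Model

/-- the free commutative ring on the elements of `R` -/
abbrev Free (R : Type*) := MvPolynomial R ℤ

/-- the evaluation map -/
noncomputable def freeEv (R : Type*) [CommRing R] : Free R →+* R :=
  MvPolynomial.eval₂Hom (Int.castRingHom R) id

@[simp] lemma freeEv_X (x : R) : freeEv R (MvPolynomial.X x) = x := by simp [freeEv]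

/-- the tautological lift of a matrix -/
noncomputable def liftM (M : Matrix (Fin 3) (Fin 3) R) : Matrix (Fin 3) (Fin 3) (Free R) :=
  M.map MvPolynomial.X

/-- the tautological lift of a cubic -/
noncomputable def liftF (f : Model R) : Model (Free R) :=
  Model.equivVec.symm fun k => MvPolynomial.X (Model.equivVec f k)

lemma liftM_map (M : Matrix (Fin 3) (Fin 3) R) : (liftM M).map (freeEv R) = M := by
  ext i j; simp [liftM]

lemma liftF_map (f : Model R) : (liftF f).map (freeEv R) = f := by
  rw [liftF, Model.equivVec_symm_map]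
  simp

lemma wsh_map (φ : R →+* S) (r s t : R) : (wsh r s t).map φ = wsh (φ r) (φ s) (φ t) := by
  ext <;> simp [wsh, VariableChange.map]

namespace Model

lemma sh_map_r (φ : R →+* S) (M : Matrix (Fin 3) (Fin 3) R) (f : Model R) :
    ((f.map φ).sh (M.map φ)).r = φ (f.sh M).r := by rw [sh_map]; rfl

lemma sh_map_s (φ : R →+* S) (M : Matrix (Fin 3) (Fin 3) R) (f : Model R) :
    ((f.map φ).sh (M.map φ)).s = φ (f.sh M).s := by rw [sh_map]; rfl

lemma sh_map_t (φ : R →+* S) (M : Matrix (Fin 3) (Fin 3) R) (f : Model R) :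
    ((f.map φ).sh (M.map φ)).t = φ (f.sh M).t := by rw [sh_map]; rfl

lemma det_map' (φ : R →+* S) (M : Matrix (Fin 3) (Fin 3) R) : (M.map φ).det = φ M.det := by
  rw [RingHom.map_det, RingHom.mapMatrix_apply]

lemma sh_mul (M N : Matrix (Fin 3) (Fin 3) R) (f : Model R) :
    f.sh (M * N) = (f.subst N).sh M *
      wsh (M.det ^ 2 * (f.sh N).r) (M.det * (f.sh N).s) (M.det ^ 3 * (f.sh N).t) := by
  have key : ∀ (M N : Matrix (Fin 3) (Fin 3) (Free R)) (f : Model (Free R)),
      f.sh (M * N) = (f.subst N).sh M *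
        wsh (M.det ^ 2 * (f.sh N).r) (M.det * (f.sh N).s) (M.det ^ 3 * (f.sh N).t) := by
    intro M N f
    rw [sh_eq_wsh M, wsh_mul]
    apply sh_unique
    rw [← wsh_mul, ← sh_eq_wsh, mul_smul, det_mul, ← wsc_wsc, ← wsc_wsh, ← sh_eq_wsh, ← jac_subst,
      ← jac_subst, subst_subst]
  have h := congrArg (fun C => C.map (freeEv R)) (key (liftM M) (liftM N) (liftF f))
  simpa only [← sh_map, Matrix.map_mul, SelAvg.Obj.vc_map_mul, wsh_map, map_mul, map_pow,
    ← sh_map_r, ← sh_map_s, ← sh_map_t, ← det_map', map_subst, liftM_map, liftF_map] using h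

lemma sh_scale (t : R) (M : Matrix (Fin 3) (Fin 3) R) (f : Model R) :
    (f.scale t).sh M = wsh (t ^ 2 * (f.sh M).r) (t * (f.sh M).s) (t ^ 3 * (f.sh M).t) := by
  have key : ∀ (t : Free R) (M : Matrix (Fin 3) (Fin 3) (Free R)) (f : Model (Free R)),
      (f.scale t).sh M = wsh (t ^ 2 * (f.sh M).r) (t * (f.sh M).s) (t ^ 3 * (f.sh M).t) := by
    intro t M f
    apply sh_unique
    rw [subst_scale, jac_scale, jac_scale, jac_subst, sh_eq_wsh, wsc_wsh, wsc_wsc, wsc_wsc,
      mul_comm t M.det]
    rfl
  have h := congrArg (fun C => C.map (freeEv R)) (key (MvPolynomial.X t) (liftM M) (liftF f))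
  simpa only [← sh_map, wsh_map, map_mul, map_pow, ← sh_map_r, ← sh_map_s, ← sh_map_t, map_scale,
    liftM_map, liftF_map, freeEv_X] using h

lemma sh_diagonal (d : Fin 3 → R) (f : Model R) : f.sh (diagonal d) = 1 := by
  have key : ∀ (d : Fin 3 → Free R) (f : Model (Free R)), f.sh (diagonal d) = wsh 0 0 0 := by
    intro d f
    apply sh_unique
    rw [jac_diagonal, det_diagonal, Fin.prod_univ_three]
    exact (one_smul (VariableChange (Free R)) _).symm
  have h := congrArg (fun C => C.map (freeEv R)) (key (fun i => MvPolynomial.X (d i)) (liftF f))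
  simp only [← sh_map, wsh_map, map_zero, liftF_map, diagonal_map (map_zero _), freeEv_X] at h
  exact h

end Model

@[ext] structure G (R : Type*) [CommRing R] where
  M : GL (Fin 3) R
  μ : Rˣ

namespace G

/-- the matrix entries -/
abbrev e (g : G R) : Matrix (Fin 3) (Fin 3) R := g.M.1

/-- the determinant as a unit -/
def det (g : G R) : Rˣ := Matrix.GeneralLinearGroup.det g.M

lemma det_val (g : G R) : (g.det : R) = g.e.det := by simp [det]

instance : One (G R) := ⟨⟨1, 1⟩⟩
instance : Mul (G R) := ⟨fun g h => ⟨g.M * h.M, g.μ * h.μ⟩⟩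
instance : Inv (G R) := ⟨fun g => ⟨g.M⁻¹, g.μ⁻¹⟩⟩

/-- the pure matrix element -/
def ofM (M : GL (Fin 3) R) : G R := ⟨M, 1⟩

/-- the pure scaling of the equation -/
def ofMu (μ : Rˣ) : G R := ⟨1, μ⟩

@[simp] lemma one_M : (1 : G R).M = 1 := rfl
@[simp] lemma one_μ : (1 : G R).μ = 1 := rfl
@[simp] lemma mul_M (g h : G R) : (g * h).M = g.M * h.M := rfl
@[simp] lemma mul_μ (g h : G R) : (g * h).μ = g.μ * h.μ := rfl
@[simp] lemma inv_M (g : G R) : g⁻¹.M = g.M⁻¹ := rfl
@[simp] lemma inv_μ (g : G R) : g⁻¹.μ = g.μ⁻¹ := rfl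
@[simp] lemma ofM_M (M : GL (Fin 3) R) : (ofM M).M = M := rfl
@[simp] lemma ofM_μ (M : GL (Fin 3) R) : (ofM M).μ = 1 := rfl
@[simp] lemma ofMu_M (μ : Rˣ) : (ofMu μ).M = 1 := rfl
@[simp] lemma ofMu_μ (μ : Rˣ) : (ofMu μ).μ = μ := rfl

instance : Group (G R) := Group.ofLeftAxioms
  (fun _ _ _ => G.ext (mul_assoc _ _ _) (mul_assoc _ _ _))
  (fun _ => G.ext (one_mul _) (one_mul _))
  (fun _ => G.ext (inv_mul_cancel _) (inv_mul_cancel _))

lemma decomp (g : G R) : g = ofMu g.μ * ofM g.M := G.ext (by simp) (by simp)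

@[simp] lemma det_mul (g h : G R) : (g * h).det = g.det * h.det := by simp [det]
@[simp] lemma det_one : (1 : G R).det = 1 := by simp [det]
@[simp] lemma det_inv (g : G R) : g⁻¹.det = g.det⁻¹ := by simp [det]
@[simp] lemma det_ofMu (μ : Rˣ) : (ofMu μ).det = 1 := by simp [det]

/-- the scalar `t` as an invertible matrix -/
def scM (t : Rˣ) : GL (Fin 3) R := Matrix.GeneralLinearGroup.scalar (Fin 3) t

/-- the scalars, which act trivially -/
def scalar (t : Rˣ) : G R := ⟨scM t, t ^ 3⟩

@[simp] lemma scalar_M (t : Rˣ) : (scalar t).M = scM t := rfl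
@[simp] lemma scalar_μ (t : Rˣ) : (scalar t).μ = t ^ 3 := rfl

lemma scM_val (t : Rˣ) : (scM t).1 = diagonal fun _ : Fin 3 => (t : R) := by
  ext i j; simp [scM, diagonal_apply]

lemma scM_val' (t : Rˣ) : (scM t).1 = (t : R) • (1 : Matrix (Fin 3) (Fin 3) R) := by
  rw [scM_val, smul_one_eq_diagonal]

lemma scM_mul (t t' : Rˣ) : scM (t * t') = scM t * scM t' := by simp [scM]
@[simp] lemma scM_one : scM (1 : Rˣ) = 1 := by simp [scM]
lemma scM_comm (t : Rˣ) (M : GL (Fin 3) R) : scM t * M = M * scM t := by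
  ext i j; simp [scM, mul_comm]

lemma scalar_mul (t t' : Rˣ) : scalar (t * t') = scalar t * scalar t' :=
  G.ext (by simp [scM_mul]) (by simp [mul_pow])

@[simp] lemma scalar_one : scalar (1 : Rˣ) = 1 := G.ext (by simp) (by simp)

lemma scalar_comm (t : Rˣ) (g : G R) : scalar t * g = g * scalar t :=
  G.ext (by simp [scM_comm]) (by simp [mul_comm])

lemma scalar_injective [Nontrivial R] : Function.Injective (scalar : Rˣ → G R) := by
  intro t t' h
  have := congrArg (fun g : G R => g.e 0 0) h
  simpa [Units.ext_iff, e, scM_val] using this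

lemma det_scalar (t : Rˣ) : (scalar t).det = t ^ 3 := by
  ext; simp [det_val, e, scM_val]

/-- base change of group elements -/
def map (φ : R →+* S) : G R →* G S where
  toFun g := ⟨Matrix.GeneralLinearGroup.map φ g.M, Units.map φ g.μ⟩
  map_one' := G.ext (by simp) (by simp)
  map_mul' g h := G.ext (by simp) (by simp)

@[simp] lemma map_M (φ : R →+* S) (g : G R) :
    (map φ g).M = Matrix.GeneralLinearGroup.map φ g.M := rfl
@[simp] lemma map_μ (φ : R →+* S) (g : G R) : (map φ g).μ = Units.map φ g.μ := rfl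
lemma map_e (φ : R →+* S) (g : G R) : (map φ g).e = g.e.map φ := rfl
@[simp] lemma map_det (φ : R →+* S) (g : G R) : (map φ g).det = Units.map φ g.det := by
  ext; simp [det_val, map_e, RingHom.map_det]
@[simp] lemma map_scalar (φ : R →+* S) (t : Rˣ) :
    map φ (scalar t) = scalar (Units.map φ t) := by
  refine G.ext ?_ (by simp)
  ext i j; fin_cases i <;> fin_cases j <;> simp [scM]

lemma map_map {T : Type*} [CommRing T] (φ : R →+* S) (ψ : S →+* T) (g : G R) :
    map ψ (map φ g) = map (ψ.comp φ) g := by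
  refine G.ext ?_ ?_
  · ext i j; simp
  · ext; simp

lemma map_injective {φ : R →+* S} (h : Function.Injective φ) : Function.Injective (map φ) := by
  intro g g' hg
  refine G.ext ?_ ?_
  · ext i j
    apply h
    have := congrArg (fun g : G S => (g.M : Matrix (Fin 3) (Fin 3) S) i j) hg
    simpa using this
  · ext
    apply h
    have := congrArg (fun g : G S => (g.μ : S)) hg
    simpa using this

/-- the map on points: `g.pt` sends the curve of `g • f` to the curve of `f` -/
def pt (g : G R) (Q : Pt R) : Pt R := Q ᵥ* g.e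

lemma mul_pt (g h : G R) (Q : Pt R) : (g * h).pt Q = h.pt (g.pt Q) := by
  simp [pt, e]

@[simp] lemma one_pt (Q : Pt R) : (1 : G R).pt Q = Q := by simp [pt, e]

@[simp] lemma inv_pt_pt (g : G R) (Q : Pt R) : g⁻¹.pt (g.pt Q) = Q := by
  rw [← mul_pt, mul_inv_cancel, one_pt]

@[simp] lemma pt_inv_pt (g : G R) (Q : Pt R) : g.pt (g⁻¹.pt Q) = Q := by
  rw [← mul_pt, inv_mul_cancel, one_pt]

lemma pt_sc (g : G R) (t : R) (Q : Pt R) : g.pt (Q.sc t) = (g.pt Q).sc t := by
  simp [pt, smul_vecMul]

lemma scalar_pt (t : Rˣ) (Q : Pt R) : (scalar t).pt Q = Q.sc (t : R) := by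
  simp [pt, e, scM_val', vecMul_smul]

lemma map_pt (φ : R →+* S) (g : G R) (Q : Pt R) : (map φ g).pt (Q.map φ) = (g.pt Q).map φ := by
  funext j; simp [pt, e, vecMul, dotProduct]

lemma pt_apply (g : G R) (Q : Pt R) (j : Fin 3) :
    g.pt Q j = Q 0 * g.e 0 j + Q 1 * g.e 1 j + Q 2 * g.e 2 j := by
  simp [pt, vecMul, dotProduct, Fin.sum_univ_three]

lemma pt_std (g : G R) : g.pt Pt.std = g.e 0 := by funext j; simp [pt_apply]

instance : SMul (G R) (Model R) := ⟨fun g f => (f.subst g.e).scale ((g.μ⁻¹ : Rˣ) : R)⟩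

lemma smul_def (g : G R) (f : Model R) : g • f = (f.subst g.e).scale ((g.μ⁻¹ : Rˣ) : R) := rfl

instance : MulAction (G R) (Model R) where
  one_smul f := by simp [smul_def, e]
  mul_smul g h f := by
    simp only [smul_def, e, mul_M, mul_μ, Model.subst_scale, Model.scale_scale,
      Model.subst_subst, mul_inv, Units.val_mul]

lemma scale_smul (g : G R) (f : Model R) : (g • f).scale (g.μ : R) = f.subst g.e := by
  rw [smul_def, Model.scale_scale]; simp

lemma map_smul (φ : R →+* S) (g : G R) (f : Model R) : (g • f).map φ = map φ g • f.map φ := by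
  simp [smul_def, Model.map_scale, Model.map_subst, map_e]

lemma scalar_smul (t : Rˣ) (f : Model R) : scalar t • f = f := by
  rw [smul_def, e, scalar_M, scM_val', Model.subst_smul_one, Model.scale_scale, scalar_μ,
    ← Units.val_pow_eq_pow_val, Units.inv_mul, Model.scale_one]

lemma F_pt (g : G R) (f : Model R) (Q : Pt R) : f.F (g.pt Q) = g.μ * (g • f).F Q := by
  rw [← Model.F_scale, scale_smul, Model.F_subst, pt]

lemma pol_pt (g : G R) (f : Model R) (p q : Pt R) :
    f.pol (g.pt p) (g.pt q) = g.μ * (g • f).pol p q := by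
  rw [← Model.pol_scale, scale_smul, Model.pol_subst, pt, pt]

/-- the change of Weierstrass coordinates induced by `g` at `f` -/
noncomputable def Gam (g : G R) (f : Model R) : VariableChange R :=
  wdiag g.μ * f.sh g.e * wdiag g.det⁻¹

lemma jac_smul (g : G R) (f : Model R) : (g • f).jac = g.Gam f • f.jac := by
  rw [smul_def, Model.jac_scale, wsc_unit, inv_inv, Model.jac_subst, ← det_val, wsc_unit, Gam]
  simp only [mul_smul]

lemma Gam_u (g : G R) (f : Model R) : (g.Gam f).u = g.μ * g.det⁻¹ := by
  simp [Gam, wdiag, VariableChange.mul_def, Model.sh_u]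

/-- diagonal elements induce diagonal changes of coordinates -/
lemma Gam_diagonal {g : G R} {d : Fin 3 → R} (h : g.e = diagonal d) (f : Model R) :
    g.Gam f = wdiag (g.μ * g.det⁻¹) := by
  rw [Gam, h, Model.sh_diagonal, mul_one, wdiag_mul]

lemma Gam_one (f : Model R) : (1 : G R).Gam f = 1 := by
  rw [Gam_diagonal (d := fun _ => 1) (by simp [e])]
  simp [wdiag, VariableChange.one_def]

lemma Gam_mul (g h : G R) (f : Model R) : (g * h).Gam f = g.Gam (h • f) * h.Gam f := by
  have hc : wdiag g.det⁻¹ * wdiag h.μ = wdiag h.μ * wdiag g.det⁻¹ := by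
    rw [wdiag_mul, wdiag_mul, mul_comm]
  have he : (g * h).e = g.e * h.e := rfl
  rw [Gam, Gam, Gam, he, Model.sh_mul, smul_def, Model.sh_scale, mul_μ, det_mul, ← det_val,
    Model.sh_eq_wsh h.e f]
  simp only [mul_assoc]
  rw [← mul_assoc (wdiag g.det⁻¹) (wdiag h.μ), hc, mul_assoc, ← mul_assoc _ (wdiag h.μ),
    SelAvg.G.wsh_inv_mul_wdiag, mul_assoc, ← mul_assoc (wdiag g.det⁻¹),
    SelAvg.G.wdiag_inv_mul_wsh, mul_assoc, wdiag_mul, ← mul_assoc (wdiag g.μ), wdiag_mul,
    ← Model.sh_eq_wsh, ← Model.sh_eq_wsh, mul_inv]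

lemma Gam_map (φ : R →+* S) (g : G R) (f : Model R) :
    (map φ g).Gam (f.map φ) = (g.Gam f).map φ := by
  rw [Gam, Gam, map_e, Model.sh_map, SelAvg.Obj.vc_map_mul, SelAvg.Obj.vc_map_mul, map_det]
  congr 1
  · congr 1
    ext <;> simp [wdiag, VariableChange.map]
  · ext <;> simp [wdiag, VariableChange.map]

lemma Gam_scalar (t : Rˣ) (f : Model R) : (scalar t).Gam f = 1 := by
  rw [Gam_diagonal (scM_val t), det_scalar, scalar_μ, mul_inv_cancel]
  rfl

end G

/-- A model together with a change of coordinates; it lies over `W` if `jac f = γ • W`. -/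
@[ext] structure Obj (R : Type*) [CommRing R] where
  f : Model R
  γ : VariableChange R

namespace Obj

def Over (z : Obj R) (W : WeierstrassCurve R) : Prop := z.f.jac = z.γ • W

def map (φ : R →+* S) (z : Obj R) : Obj S := ⟨z.f.map φ, z.γ.map φ⟩

/-- change of the base curve: if `z` lies over `W` then `z.rmul C` lies over `C⁻¹ • W` -/
def rmul (z : Obj R) (C : VariableChange R) : Obj R := ⟨z.f, z.γ * C⟩

noncomputable instance : SMul (G R) (Obj R) := ⟨fun g z => ⟨g • z.f, g.Gam z.f * z.γ⟩⟩

@[simp] lemma smul_f (g : G R) (z : Obj R) : (g • z).f = g • z.f := rfl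
@[simp] lemma smul_γ (g : G R) (z : Obj R) : (g • z).γ = g.Gam z.f * z.γ := rfl
@[simp] lemma map_f (φ : R →+* S) (z : Obj R) : (z.map φ).f = z.f.map φ := rfl
@[simp] lemma map_γ (φ : R →+* S) (z : Obj R) : (z.map φ).γ = z.γ.map φ := rfl
@[simp] lemma rmul_f (z : Obj R) (C : VariableChange R) : (z.rmul C).f = z.f := rfl
@[simp] lemma rmul_γ (z : Obj R) (C : VariableChange R) : (z.rmul C).γ = z.γ * C := rfl

noncomputable instance : MulAction (G R) (Obj R) where
  one_smul z := by ext1 <;> simp [G.Gam_one]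
  mul_smul g h z := by ext1 <;> simp [mul_smul, G.Gam_mul, mul_assoc]

lemma Over.smul {z : Obj R} {W : WeierstrassCurve R} (h : z.Over W) (g : G R) :
    (g • z).Over W := by
  unfold Over at *
  rw [smul_f, smul_γ, G.jac_smul, h, mul_smul]

lemma over_smul_iff {z : Obj R} {W : WeierstrassCurve R} (g : G R) :
    (g • z).Over W ↔ z.Over W :=
  ⟨fun h => by simpa using h.smul g⁻¹, fun h => h.smul g⟩

lemma Over.map {z : Obj R} {W : WeierstrassCurve R} (h : z.Over W) (φ : R →+* S) :
    (z.map φ).Over (W.map φ) := by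
  unfold Over at *
  rw [map_f, map_γ, Model.jac_map, h, map_variableChange]

lemma Over.rmul {z : Obj R} {W : WeierstrassCurve R} {C : VariableChange R}
    (h : z.Over (C • W)) : (z.rmul C).Over W := by
  unfold Over at *
  rw [rmul_f, rmul_γ, h, mul_smul]

lemma vc_map_mul (φ : R →+* S) (C C' : VariableChange R) :
    (C * C').map φ = C.map φ * C'.map φ := (VariableChange.mapHom φ).map_mul C C'

lemma map_smul (φ : R →+* S) (g : G R) (z : Obj R) : (g • z).map φ = G.map φ g • z.map φ := by
  ext1
  · simp [G.map_smul]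
  · simp only [map_γ, smul_γ, map_f, G.Gam_map, vc_map_mul]

lemma map_map {T : Type*} [CommRing T] (φ : R →+* S) (ψ : S →+* T) (z : Obj R) :
    (z.map φ).map ψ = z.map (ψ.comp φ) := by
  ext1
  · rfl
  · simp only [map_γ, VariableChange.map_map]

lemma map_injective {φ : R →+* S} (h : Function.Injective φ) : Function.Injective (Obj.map φ) := by
  intro z z' hz
  ext1
  · exact Model.map_injective h (congrArg Obj.f hz)
  · exact VariableChange.map_injective h (congrArg Obj.γ hz)

lemma smul_rmul (g : G R) (z : Obj R) (C : VariableChange R) :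
    g • z.rmul C = (g • z).rmul C := by
  ext1 <;> simp [mul_assoc]

lemma rmul_rmul (z : Obj R) (C C' : VariableChange R) :
    (z.rmul C).rmul C' = z.rmul (C * C') := by
  ext1 <;> simp [mul_assoc]

@[simp] lemma rmul_one (z : Obj R) : z.rmul 1 = z := by ext1 <;> simp

lemma map_rmul (φ : R →+* S) (z : Obj R) (C : VariableChange R) :
    (z.rmul C).map φ = (z.map φ).rmul (C.map φ) := by
  ext1
  · rfl
  · simp only [map_γ, rmul_γ, vc_map_mul]

lemma scalar_smul (t : Rˣ) (z : Obj R) : G.scalar t • z = z := by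
  ext1 <;> simp [G.scalar_smul, G.Gam_scalar]

end Obj

/-- A group element with integral matrix and unit `μ` is integral. -/
theorem G_integral {L : Type*} [Field L] [Algebra R L] [IsFractionRing R L]
    {f f' : Model R} {g : G L} (M : GL (Fin 3) R) (μ : Rˣ)
    (hM : g.M = Matrix.GeneralLinearGroup.map (algebraMap R L) M)
    (hμ : (g.μ : L) = algebraMap R L μ)
    (h : g • f.map (algebraMap R L) = f'.map (algebraMap R L)) :
    ∃ g₀ : G R, G.map (algebraMap R L) g₀ = g ∧ g₀ • f = f' := by
  have e : G.map (algebraMap R L) ⟨M, μ⟩ = g := G.ext hM.symm (Units.ext hμ.symm)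
  refine ⟨⟨M, μ⟩, e, Model.map_injective (IsFractionRing.injective R L) ?_⟩
  rw [G.map_smul, e, h]

namespace Model

/-- standard position: the point `(1 : 0 : 0)` lies on the curve and `z = 0` is tangent there -/
structure Std (f : Model R) : Prop where
  a : f.a = 0
  a2 : f.a2 = 0

/-- the degree 2 model obtained from a cubic in standard position by projection from the point -/
def red (f : Model R) : SelAvg.Model R :=
  ⟨f.b1, f.m, f.c1, 0, -(f.a3 * f.b), -(f.a3 * f.b3), -(f.a3 * f.c2), -(f.a3 * f.c)⟩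

/-- the cubic in standard position with `a3 = -1` and given projection -/
def unred (h : SelAvg.Model R) : Model R := ⟨0, h.b, h.e, 0, -1, h.l, h.c, h.n, h.d, h.m⟩

/-- the projection of a point other than the standard one -/
def phi0 (f : Model R) (Q : Pt R) : SelAvg.Pt R :=
  ⟨Q 1, Q 2, -(f.a3 * Q 0 * Q 2) - f.red.q (Q 1) (Q 2)⟩

end Model

/-- the projection of an object in standard position -/
def Obj.red (z : Obj R) : SelAvg.Obj R := ⟨z.f.red, z.γ⟩

/-- the object in standard position with given projection -/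
def Obj.unred (z : SelAvg.Obj R) : Obj R := ⟨Model.unred z.f, z.γ⟩

/-- lower triangular elements: they fix the standard point and the line `z = 0` -/
structure G.Bor (g : G R) : Prop where
  e01 : g.e 0 1 = 0
  e02 : g.e 0 2 = 0
  e12 : g.e 1 2 = 0

section Field

open scoped Classical

variable {L L' : Type*} [Field L] [Field L']

namespace Pt

def Prim (Q : Pt L) : Prop := Q ≠ 0

/-- the same point of the projective plane -/
def Eqv (Q Q' : Pt L) : Prop := ∃ t : L, t ≠ 0 ∧ Q' = Q.sc t

end Pt

namespace Model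

/-- `Q` is a point of the curve -/
structure On (f : Model L) (Q : Pt L) : Prop where
  prim : Q.Prim
  eq : f.F Q = 0

/-- `Q` is a smooth point -/
def Smooth (f : Model L) (Q : Pt L) : Prop := f.Fx Q ≠ 0 ∨ f.Fy Q ≠ 0 ∨ f.Fz Q ≠ 0

/-- `Q` is a smooth point of the curve whose tangent line is not a component -/
def Good (f : Model L) (Q : Pt L) : Prop :=
  ∃ g : G L, g.pt Pt.std = Q ∧ (g • f).Std ∧ (g • f).a3 ≠ 0 ∧ ((g • f).b1 ≠ 0 ∨ (g • f).b ≠ 0)

/-- the curve has a rational point -/
def Soluble (f : Model L) : Prop := ∃ Q, f.On Q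

/-- there is a rational flag on which `x^3`, `x^2 y`, `x y^2` vanish (for a nonsingular curve: a
rational flex) -/
def Triv (f : Model L) : Prop := ∃ g : G L, (g • f).Std ∧ (g • f).b1 = 0

/-- the projection of points, in standard position -/
noncomputable def phi (f : Model L) (Q : Pt L) : SelAvg.Pt L :=
  if Q 1 = 0 ∧ Q 2 = 0 then SelAvg.Pt.std else f.phi0 Q

end Model

/-- a group element moving `(f, Q)` to standard position -/
noncomputable def mover (f : Model L) (Q : Pt L) : G L :=
  if h : ∃ g : G L, g.pt Pt.std = Q ∧ (g • f).a2 = 0 then h.choose else 1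

/-- the difference `Q' - Q` as a point of `W` -/
noncomputable def D (W : WeierstrassCurve L) (z : Obj L) (Q Q' : Pt L) : W.toAffine.Point :=
  SelAvg.D W (mover z.f Q • z).red SelAvg.Pt.std
    ((mover z.f Q • z).f.phi ((mover z.f Q)⁻¹.pt Q'))

/-- the covering map -/
noncomputable def piP (W : WeierstrassCurve L) (z : Obj L) (Q : Pt L) : W.toAffine.Point :=
  SelAvg.piP W (mover z.f Q • z).red SelAvg.Pt.std

/-- no rational point of order 3 -/
def NoThreeTorsion (W : WeierstrassCurve L) : Prop :=
  ∀ P : W.toAffine.Point, 3 • P = 0 → P = 0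

end Field

end SelAvg.FF.T3
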