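import Pool.Agent.H38Sel.AlgC

/-!
Ternary cubics, the Weierstrass equation of the Jacobian (Artin, Rodriguez-Villegas, Tate), the
group `GL₃ × 𝔾ₘ` and the induced change of Weierstrass coordinates.
-/

namespace SelAvg.FF.T3

open WeierstrassCurve Matrix

variable {R S : Type*} [CommRing R] [CommRing S]

/-- The cubic `a x^3 + b y^3 + c z^3 + a2 x^2 y + a3 x^2 z + b1 x y^2 + b3 y^2 z + c1 x z^2
+ c2 y z^2 + m x y z`. -/
@[ext] structure Model (R : Type*) where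
  a : R
  b : R
  c : R
  a2 : R
  a3 : R
  b1 : R
  b3 : R
  c1 : R
  c2 : R
  m : R

/-- homogeneous coordinates (row vectors) -/
abbrev Pt (R : Type*) := Fin 3 → R

namespace Pt

abbrev map {R S : Type*} [CommRing R] [CommRing S] (φ : R →+* S) (Q : Pt R) : Pt S := φ ∘ Q

/-- scaling -/
abbrev sc (t : R) (Q : Pt R) : Pt R := t • Q

/-- the standard point `(1 : 0 : 0)` -/
def std : Pt R := ![1, 0, 0]

@[simp] lemma std_zero : (std : Pt R) 0 = 1 := rfl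
@[simp] lemma std_one : (std : Pt R) 1 = 0 := rfl
@[simp] lemma std_two : (std : Pt R) 2 = 0 := rfl
@[simp] lemma map_std (φ : R →+* S) : (std : Pt R).map φ = std := by
  funext i; fin_cases i <;> simp

end Pt

namespace Model

/-- the defining equation -/
def F (f : Model R) (Q : Pt R) : R :=
  f.a * Q 0 ^ 3 + f.b * Q 1 ^ 3 + f.c * Q 2 ^ 3 + f.a2 * Q 0 ^ 2 * Q 1 + f.a3 * Q 0 ^ 2 * Q 2
    + f.b1 * Q 0 * Q 1 ^ 2 + f.b3 * Q 1 ^ 2 * Q 2 + f.c1 * Q 0 * Q 2 ^ 2 + f.c2 * Q 1 * Q 2 ^ 2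
    + f.m * Q 0 * Q 1 * Q 2

/-- the derivative in `x` -/
def Fx (f : Model R) (Q : Pt R) : R :=
  3 * f.a * Q 0 ^ 2 + 2 * f.a2 * Q 0 * Q 1 + 2 * f.a3 * Q 0 * Q 2 + f.b1 * Q 1 ^ 2
    + f.c1 * Q 2 ^ 2 + f.m * Q 1 * Q 2

/-- the derivative in `y` -/
def Fy (f : Model R) (Q : Pt R) : R :=
  3 * f.b * Q 1 ^ 2 + f.a2 * Q 0 ^ 2 + 2 * f.b1 * Q 0 * Q 1 + 2 * f.b3 * Q 1 * Q 2
    + f.c2 * Q 2 ^ 2 + f.m * Q 0 * Q 2

/-- the derivative in `z` -/
def Fz (f : Model R) (Q : Pt R) : R :=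
  3 * f.c * Q 2 ^ 2 + f.a3 * Q 0 ^ 2 + f.b3 * Q 1 ^ 2 + 2 * f.c1 * Q 0 * Q 2
    + 2 * f.c2 * Q 1 * Q 2 + f.m * Q 0 * Q 1

/-- the derivative at `p` in the direction `q` -/
def pol (f : Model R) (p q : Pt R) : R := q 0 * f.Fx p + q 1 * f.Fy p + q 2 * f.Fz p

/-- the trilinear form -/
def tri (f : Model R) (p q r : Pt R) : R := f.pol (p + r) q - f.pol p q - f.pol r q

/-- the substitution `Q ↦ Q ᵥ* M` -/
def subst (M : Matrix (Fin 3) (Fin 3) R) (f : Model R) : Model R where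
  a := f.F (M 0)
  b := f.F (M 1)
  c := f.F (M 2)
  a2 := f.pol (M 0) (M 1)
  a3 := f.pol (M 0) (M 2)
  b1 := f.pol (M 1) (M 0)
  b3 := f.pol (M 1) (M 2)
  c1 := f.pol (M 2) (M 0)
  c2 := f.pol (M 2) (M 1)
  m := f.tri (M 0) (M 1) (M 2)

def scale (t : R) (f : Model R) : Model R :=
  ⟨t * f.a, t * f.b, t * f.c, t * f.a2, t * f.a3, t * f.b1, t * f.b3, t * f.c1, t * f.c2, t * f.m⟩

def map (φ : R →+* S) (f : Model R) : Model S :=
  ⟨φ f.a, φ f.b, φ f.c, φ f.a2, φ f.a3, φ f.b1, φ f.b3, φ f.c1, φ f.c2, φ f.m⟩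

/-- the Weierstrass equation of the Jacobian -/
def jac (f : Model R) : WeierstrassCurve R where
  a₁ := f.m
  a₂ := -(f.a2 * f.c2 + f.a3 * f.b3 + f.b1 * f.c1)
  a₃ := 9 * f.a * f.b * f.c - (f.a * f.b3 * f.c2 + f.b * f.a3 * f.c1 + f.c * f.a2 * f.b1)
    - (f.a2 * f.b3 * f.c1 + f.a3 * f.b1 * f.c2)
  a₄ := -3 * f.a * f.b * f.c1 * f.c2 - 3 * f.a * f.c * f.b1 * f.b3 + f.a * f.b1 * f.c2 ^ 2
    + f.a * f.b3 ^ 2 * f.c1 - 3 * f.b * f.c * f.a2 * f.a3 + f.b * f.a2 * f.c1 ^ 2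
    + f.b * f.a3 ^ 2 * f.c2 + f.c * f.a2 ^ 2 * f.b3 + f.c * f.a3 * f.b1 ^ 2
    + f.a2 * f.a3 * f.b3 * f.c2 + f.a2 * f.b1 * f.c1 * f.c2 + f.a3 * f.b1 * f.b3 * f.c1
  a₆ := -27 * f.a ^ 2 * f.b ^ 2 * f.c ^ 2 + 9 * f.a ^ 2 * f.b * f.c * f.b3 * f.c2
    - f.a ^ 2 * f.b * f.c2 ^ 3 - f.a ^ 2 * f.c * f.b3 ^ 3
    + 9 * f.a * f.b ^ 2 * f.c * f.a3 * f.c1 - f.a * f.b ^ 2 * f.c1 ^ 3
    + 9 * f.a * f.b * f.c ^ 2 * f.a2 * f.b1 + 3 * f.a * f.b * f.c * f.a2 * f.b3 * f.c1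
    - 3 * f.a * f.b * f.c * f.a2 * f.c2 * f.m + 3 * f.a * f.b * f.c * f.a3 * f.b1 * f.c2
    - 3 * f.a * f.b * f.c * f.a3 * f.b3 * f.m - 3 * f.a * f.b * f.c * f.b1 * f.c1 * f.m
    + f.a * f.b * f.c * f.m ^ 3 + 2 * f.a * f.b * f.a2 * f.c1 * f.c2 ^ 2
    - f.a * f.b * f.a3 * f.b3 * f.c1 * f.c2 + f.a * f.b * f.a3 * f.c2 ^ 2 * f.m
    + 2 * f.a * f.b * f.b1 * f.c1 ^ 2 * f.c2 + f.a * f.b * f.b3 * f.c1 ^ 2 * f.m
    - f.a * f.b * f.c1 * f.c2 * f.m ^ 2 - f.a * f.c ^ 2 * f.b1 ^ 3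
    - f.a * f.c * f.a2 * f.b1 * f.b3 * f.c2 + f.a * f.c * f.a2 * f.b3 ^ 2 * f.m
    + 2 * f.a * f.c * f.a3 * f.b1 * f.b3 ^ 2 + 2 * f.a * f.c * f.b1 ^ 2 * f.b3 * f.c1
    + f.a * f.c * f.b1 ^ 2 * f.c2 * f.m - f.a * f.c * f.b1 * f.b3 * f.m ^ 2
    - f.a * f.a2 * f.b3 ^ 2 * f.c1 * f.c2 - f.a * f.a3 * f.b1 * f.b3 * f.c2 ^ 2
    - f.a * f.b1 ^ 2 * f.c1 * f.c2 ^ 2 - f.a * f.b1 * f.b3 ^ 2 * f.c1 ^ 2
    + f.a * f.b1 * f.b3 * f.c1 * f.c2 * f.m - f.b ^ 2 * f.c * f.a3 ^ 3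
    - f.b * f.c ^ 2 * f.a2 ^ 3 + 2 * f.b * f.c * f.a2 ^ 2 * f.a3 * f.c2
    + f.b * f.c * f.a2 ^ 2 * f.c1 * f.m + 2 * f.b * f.c * f.a2 * f.a3 ^ 2 * f.b3
    - f.b * f.c * f.a2 * f.a3 * f.b1 * f.c1 - f.b * f.c * f.a2 * f.a3 * f.m ^ 2
    + f.b * f.c * f.a3 ^ 2 * f.b1 * f.m - f.b * f.a2 ^ 2 * f.c1 ^ 2 * f.c2
    - f.b * f.a2 * f.a3 ^ 2 * f.c2 ^ 2 - f.b * f.a2 * f.a3 * f.b3 * f.c1 ^ 2
    + f.b * f.a2 * f.a3 * f.c1 * f.c2 * f.m - f.b * f.a3 ^ 2 * f.b1 * f.c1 * f.c2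
    - f.c * f.a2 ^ 2 * f.a3 * f.b3 ^ 2 - f.c * f.a2 ^ 2 * f.b1 * f.b3 * f.c1
    - f.c * f.a2 * f.a3 * f.b1 ^ 2 * f.c2 + f.c * f.a2 * f.a3 * f.b1 * f.b3 * f.m
    - f.c * f.a3 ^ 2 * f.b1 ^ 2 * f.b3 - f.a2 * f.a3 * f.b1 * f.b3 * f.c1 * f.c2

@[simp] lemma map_a (φ : R →+* S) (f : Model R) : (f.map φ).a = φ f.a := rfl
@[simp] lemma map_b (φ : R →+* S) (f : Model R) : (f.map φ).b = φ f.b := rfl
@[simp] lemma map_c (φ : R →+* S) (f : Model R) : (f.map φ).c = φ f.c := rfl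
@[simp] lemma map_a2 (φ : R →+* S) (f : Model R) : (f.map φ).a2 = φ f.a2 := rfl
@[simp] lemma map_a3 (φ : R →+* S) (f : Model R) : (f.map φ).a3 = φ f.a3 := rfl
@[simp] lemma map_b1 (φ : R →+* S) (f : Model R) : (f.map φ).b1 = φ f.b1 := rfl
@[simp] lemma map_b3 (φ : R →+* S) (f : Model R) : (f.map φ).b3 = φ f.b3 := rfl
@[simp] lemma map_c1 (φ : R →+* S) (f : Model R) : (f.map φ).c1 = φ f.c1 := rfl
@[simp] lemma map_c2 (φ : R →+* S) (f : Model R) : (f.map φ).c2 = φ f.c2 := rfl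
@[simp] lemma map_m (φ : R →+* S) (f : Model R) : (f.map φ).m = φ f.m := rfl
@[simp] lemma scale_a (t : R) (f : Model R) : (f.scale t).a = t * f.a := rfl
@[simp] lemma scale_b (t : R) (f : Model R) : (f.scale t).b = t * f.b := rfl
@[simp] lemma scale_c (t : R) (f : Model R) : (f.scale t).c = t * f.c := rfl
@[simp] lemma scale_a2 (t : R) (f : Model R) : (f.scale t).a2 = t * f.a2 := rfl
@[simp] lemma scale_a3 (t : R) (f : Model R) : (f.scale t).a3 = t * f.a3 := rfl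
@[simp] lemma scale_b1 (t : R) (f : Model R) : (f.scale t).b1 = t * f.b1 := rfl
@[simp] lemma scale_b3 (t : R) (f : Model R) : (f.scale t).b3 = t * f.b3 := rfl
@[simp] lemma scale_c1 (t : R) (f : Model R) : (f.scale t).c1 = t * f.c1 := rfl
@[simp] lemma scale_c2 (t : R) (f : Model R) : (f.scale t).c2 = t * f.c2 := rfl
@[simp] lemma scale_m (t : R) (f : Model R) : (f.scale t).m = t * f.m := rfl

lemma subst_a (M : Matrix (Fin 3) (Fin 3) R) (f : Model R) :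
    (f.subst M).a = f.F (M 0) := rfl
lemma subst_b (M : Matrix (Fin 3) (Fin 3) R) (f : Model R) :
    (f.subst M).b = f.F (M 1) := rfl
lemma subst_c (M : Matrix (Fin 3) (Fin 3) R) (f : Model R) :
    (f.subst M).c = f.F (M 2) := rfl
lemma subst_a2 (M : Matrix (Fin 3) (Fin 3) R) (f : Model R) :
    (f.subst M).a2 = f.pol (M 0) (M 1) := rfl
lemma subst_a3 (M : Matrix (Fin 3) (Fin 3) R) (f : Model R) :
    (f.subst M).a3 = f.pol (M 0) (M 2) := rfl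
lemma subst_b1 (M : Matrix (Fin 3) (Fin 3) R) (f : Model R) :
    (f.subst M).b1 = f.pol (M 1) (M 0) := rfl
lemma subst_b3 (M : Matrix (Fin 3) (Fin 3) R) (f : Model R) :
    (f.subst M).b3 = f.pol (M 1) (M 2) := rfl
lemma subst_c1 (M : Matrix (Fin 3) (Fin 3) R) (f : Model R) :
    (f.subst M).c1 = f.pol (M 2) (M 0) := rfl
lemma subst_c2 (M : Matrix (Fin 3) (Fin 3) R) (f : Model R) :
    (f.subst M).c2 = f.pol (M 2) (M 1) := rfl
lemma subst_m (M : Matrix (Fin 3) (Fin 3) R) (f : Model R) :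
    (f.subst M).m = f.tri (M 0) (M 1) (M 2) := rfl

lemma map_map {T : Type*} [CommRing T] (φ : R →+* S) (ψ : S →+* T) (f : Model R) :
    (f.map φ).map ψ = f.map (ψ.comp φ) := rfl

lemma map_injective {φ : R →+* S} (h : Function.Injective φ) :
    Function.Injective (Model.map φ) := by
  intro f f' e
  have e' := Model.ext_iff.1 e
  simp only [map_a, map_b, map_c, map_a2, map_a3, map_b1, map_b3, map_c1, map_c2, map_m,
    h.eq_iff] at e'
  exact Model.ext_iff.2 e'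

lemma map_F (φ : R →+* S) (f : Model R) (Q : Pt R) : (f.map φ).F (Q.map φ) = φ (f.F Q) := by
  simp [F]
lemma map_Fx (φ : R →+* S) (f : Model R) (Q : Pt R) : (f.map φ).Fx (Q.map φ) = φ (f.Fx Q) := by
  simp [Fx, map_ofNat]
lemma map_Fy (φ : R →+* S) (f : Model R) (Q : Pt R) : (f.map φ).Fy (Q.map φ) = φ (f.Fy Q) := by
  simp [Fy, map_ofNat]
lemma map_Fz (φ : R →+* S) (f : Model R) (Q : Pt R) : (f.map φ).Fz (Q.map φ) = φ (f.Fz Q) := by
  simp [Fz, map_ofNat]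
lemma map_pol (φ : R →+* S) (f : Model R) (p q : Pt R) :
    (f.map φ).pol (p.map φ) (q.map φ) = φ (f.pol p q) := by
  simp [pol, Fx, Fy, Fz, map_ofNat]
lemma map_tri (φ : R →+* S) (f : Model R) (p q r : Pt R) :
    (f.map φ).tri (p.map φ) (q.map φ) (r.map φ) = φ (f.tri p q r) := by
  simp [tri, pol, Fx, Fy, Fz, map_ofNat]

lemma jac_map (φ : R →+* S) (f : Model R) : (f.map φ).jac = f.jac.map φ := by
  ext <;> simp [jac, map_ofNat]

lemma F_smul (f : Model R) (t : R) (Q : Pt R) : f.F (t • Q) = t ^ 3 * f.F Q := by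
  simp only [F, Pi.smul_apply, smul_eq_mul]; ring
lemma Fx_smul (f : Model R) (t : R) (Q : Pt R) : f.Fx (t • Q) = t ^ 2 * f.Fx Q := by
  simp only [Fx, Pi.smul_apply, smul_eq_mul]; ring
lemma Fy_smul (f : Model R) (t : R) (Q : Pt R) : f.Fy (t • Q) = t ^ 2 * f.Fy Q := by
  simp only [Fy, Pi.smul_apply, smul_eq_mul]; ring
lemma Fz_smul (f : Model R) (t : R) (Q : Pt R) : f.Fz (t • Q) = t ^ 2 * f.Fz Q := by
  simp only [Fz, Pi.smul_apply, smul_eq_mul]; ring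
lemma pol_smul (f : Model R) (s t : R) (p q : Pt R) :
    f.pol (s • p) (t • q) = s ^ 2 * t * f.pol p q := by
  simp only [pol, Fx, Fy, Fz, Pi.smul_apply, smul_eq_mul]; ring
lemma euler (f : Model R) (Q : Pt R) : f.pol Q Q = 3 * f.F Q := by
  simp only [pol, F, Fx, Fy, Fz]; ring
/-- the restriction to a line -/
lemma F_add (f : Model R) (s t : R) (p q : Pt R) : f.F (s • p + t • q) =
    s ^ 3 * f.F p + s ^ 2 * t * f.pol p q + s * t ^ 2 * f.pol q p + t ^ 3 * f.F q := by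
  simp only [pol, F, Fx, Fy, Fz, Pi.smul_apply, Pi.add_apply, smul_eq_mul]; ring

@[simp] lemma F_std (f : Model R) : f.F Pt.std = f.a := by simp [F]
@[simp] lemma Fx_std (f : Model R) : f.Fx Pt.std = 3 * f.a := by simp [Fx]
@[simp] lemma Fy_std (f : Model R) : f.Fy Pt.std = f.a2 := by simp [Fy]
@[simp] lemma Fz_std (f : Model R) : f.Fz Pt.std = f.a3 := by simp [Fz]

lemma F_scale (t : R) (f : Model R) (Q : Pt R) : (f.scale t).F Q = t * f.F Q := by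
  simp only [F, scale]; ring
lemma pol_scale (t : R) (f : Model R) (p q : Pt R) : (f.scale t).pol p q = t * f.pol p q := by
  simp only [pol, Fx, Fy, Fz, scale]; ring

lemma F_subst (M : Matrix (Fin 3) (Fin 3) R) (f : Model R) (Q : Pt R) :
    (f.subst M).F Q = f.F (Q ᵥ* M) := by
  simp only [subst, F, tri, pol, Fx, Fy, Fz, vecMul, dotProduct, Fin.sum_univ_three, Pi.add_apply]
  ring

lemma pol_subst (M : Matrix (Fin 3) (Fin 3) R) (f : Model R) (p q : Pt R) :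
    (f.subst M).pol p q = f.pol (p ᵥ* M) (q ᵥ* M) := by
  simp only [subst, F, tri, pol, Fx, Fy, Fz, vecMul, dotProduct, Fin.sum_univ_three, Pi.add_apply]
  ring

lemma tri_subst (M : Matrix (Fin 3) (Fin 3) R) (f : Model R) (p q r : Pt R) :
    (f.subst M).tri p q r = f.tri (p ᵥ* M) (q ᵥ* M) (r ᵥ* M) := by
  simp only [tri, pol_subst, add_vecMul]

lemma subst_subst (M N : Matrix (Fin 3) (Fin 3) R) (f : Model R) :
    (f.subst N).subst M = f.subst (M * N) := by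
  have h : ∀ i, (M * N) i = M i ᵥ* N := fun i => by
    funext j; simp [mul_apply, vecMul, dotProduct]
  ext <;> simp only [subst_a, subst_b, subst_c, subst_a2, subst_a3, subst_b1, subst_b3, subst_c1,
    subst_c2, subst_m, h, F_subst, pol_subst, tri_subst]

@[simp] lemma subst_one (f : Model R) : f.subst 1 = f := by
  ext <;> simp [subst, F, tri, pol, Fx, Fy, Fz, one_apply]
  ring

lemma subst_scale (t : R) (M : Matrix (Fin 3) (Fin 3) R) (f : Model R) :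
    (f.scale t).subst M = (f.subst M).scale t := by
  ext <;> simp only [subst, tri, F_scale, pol_scale, scale_a, scale_b, scale_c, scale_a2, scale_a3,
    scale_b1, scale_b3, scale_c1, scale_c2, scale_m]
  ring

lemma scale_scale (t t' : R) (f : Model R) : (f.scale t').scale t = f.scale (t * t') := by
  ext <;> simp [mul_assoc]

@[simp] lemma scale_one (f : Model R) : f.scale 1 = f := by ext <;> simp

lemma subst_smul_one (t : R) (f : Model R) :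
    f.subst (t • (1 : Matrix (Fin 3) (Fin 3) R)) = f.scale (t ^ 3) := by
  ext <;> simp [subst, F, tri, pol, Fx, Fy, Fz, one_apply] <;> ring

lemma map_subst (φ : R →+* S) (M : Matrix (Fin 3) (Fin 3) R) (f : Model R) :
    (f.subst M).map φ = (f.map φ).subst (M.map φ) := by
  have h : ∀ i, (M.map φ) i = Pt.map φ (M i) := fun i => rfl
  ext <;> simp only [subst, h, map_F, map_pol, map_tri, map_a, map_b, map_c, map_a2, map_a3, map_b1,
    map_b3, map_c1, map_c2, map_m]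

lemma map_scale (φ : R →+* S) (t : R) (f : Model R) :
    (f.scale t).map φ = (f.map φ).scale (φ t) := by ext <;> simp

lemma jac_scale (t : R) (f : Model R) : (f.scale t).jac = wsc t f.jac := by
  ext <;> simp only [jac, wsc, scale] <;> ring

/-- the coefficient vector `(a, b, c, a2, a3, b1, b3, c1, c2, m)` -/
def equivVec {R : Type*} : Model R ≃ (Fin 10 → R) where
  toFun f := ![f.a, f.b, f.c, f.a2, f.a3, f.b1, f.b3, f.c1, f.c2, f.m]
  invFun v := ⟨v 0, v 1, v 2, v 3, v 4, v 5, v 6, v 7, v 8, v 9⟩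
  left_inv f := rfl
  right_inv v := by funext i; fin_cases i <;> rfl

lemma equivVec_symm_map (φ : R →+* S) (v : Fin 10 → R) :
    (Model.equivVec.symm v).map φ = Model.equivVec.symm (fun i => φ (v i)) := rfl

lemma jac_diagonal (d : Fin 3 → R) (f : Model R) :
    (f.subst (diagonal d)).jac = wsc (d 0 * d 1 * d 2) f.jac := by
  have e : f.subst (diagonal d) = ⟨f.a * d 0 ^ 3, f.b * d 1 ^ 3, f.c * d 2 ^ 3,
      f.a2 * d 0 ^ 2 * d 1, f.a3 * d 0 ^ 2 * d 2, f.b1 * d 0 * d 1 ^ 2, f.b3 * d 1 ^ 2 * d 2,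
      f.c1 * d 0 * d 2 ^ 2, f.c2 * d 1 * d 2 ^ 2, f.m * d 0 * d 1 * d 2⟩ := by
    ext <;> simp [subst, F, pol, tri, Fx, Fy, Fz] <;> ring
  rw [e]
  ext <;> simp only [jac, wsc] <;> ring

lemma jac_tv01 (l : R) (f : Model R) :
    (f.subst !![1, l, 0; 0, 1, 0; 0, 0, 1]).jac =
      wsh (-2 * l ^ 2 * f.b * f.c2 - l * f.b * f.c1 - l * f.b1 * f.c2)
        (l * f.b3)
        (-4 * l ^ 3 * f.b * f.b3 * f.c2 - 2 * l ^ 2 * f.b * f.b3 * f.c1
        - l ^ 2 * f.b * f.c2 * f.m - 2 * l ^ 2 * f.b1 * f.b3 * f.c2 + 3 * l * f.b * f.c * f.a2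
        - 2 * l * f.b * f.a3 * f.c2 - l * f.c * f.b1 ^ 2 - l * f.a2 * f.b3 * f.c2
        - l * f.b1 * f.b3 * f.c1) • f.jac := by
  have e : f.subst !![1, l, 0; 0, 1, 0; 0, 0, 1] =
      ⟨f.a + f.b * l ^ 3 + f.a2 * l + f.b1 * l ^ 2,
       f.b,
       f.c,
       3 * f.b * l ^ 2 + f.a2 + 2 * f.b1 * l,
       f.a3 + f.b3 * l ^ 2 + f.m * l,
       3 * f.b * l + f.b1,
       f.b3,
       f.c1 + f.c2 * l,
       f.c2,
       2 * f.b3 * l + f.m⟩ := by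
    ext <;> simp [subst, F, pol, tri, Fx, Fy, Fz] <;> ring
  rw [e]
  ext <;> simp only [jac, wsh, variableChange_a₁, variableChange_a₂, variableChange_a₃,
    variableChange_a₄, variableChange_a₆, inv_one, Units.val_one] <;> ring

lemma jac_tv02 (l : R) (f : Model R) :
    (f.subst !![1, 0, l; 0, 1, 0; 0, 0, 1]).jac =
      wsh (-2 * l ^ 2 * f.c * f.b3 - l * f.c * f.b1 - l * f.b3 * f.c1)
        (l * f.c2)
        (-4 * l ^ 3 * f.c * f.b3 * f.c2 - 2 * l ^ 2 * f.c * f.b1 * f.c2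
        - l ^ 2 * f.c * f.b3 * f.m - 2 * l ^ 2 * f.b3 * f.c1 * f.c2 + 3 * l * f.b * f.c * f.a3
        - l * f.b * f.c1 ^ 2 - 2 * l * f.c * f.a2 * f.b3 - l * f.a3 * f.b3 * f.c2
        - l * f.b1 * f.c1 * f.c2) • f.jac := by
  have e : f.subst !![1, 0, l; 0, 1, 0; 0, 0, 1] =
      ⟨f.a + f.c * l ^ 3 + f.a3 * l + f.c1 * l ^ 2,
       f.b,
       f.c,
       f.a2 + f.c2 * l ^ 2 + f.m * l,
       3 * f.c * l ^ 2 + f.a3 + 2 * f.c1 * l,
       f.b1 + f.b3 * l,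
       f.b3,
       3 * f.c * l + f.c1,
       f.c2,
       2 * f.c2 * l + f.m⟩ := by
    ext <;> simp [subst, F, pol, tri, Fx, Fy, Fz] <;> ring
  rw [e]
  ext <;> simp only [jac, wsh, variableChange_a₁, variableChange_a₂, variableChange_a₃,
    variableChange_a₄, variableChange_a₆, inv_one, Units.val_one] <;> ring

lemma jac_tv10 (l : R) (f : Model R) :
    (f.subst !![1, 0, 0; l, 1, 0; 0, 0, 1]).jac =
      wsh (-2 * l ^ 2 * f.a * f.c1 - l * f.a * f.c2 - l * f.a2 * f.c1)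
        (l * f.a3)
        (-4 * l ^ 3 * f.a * f.a3 * f.c1 - 2 * l ^ 2 * f.a * f.a3 * f.c2
        - l ^ 2 * f.a * f.c1 * f.m - 2 * l ^ 2 * f.a2 * f.a3 * f.c1 + 3 * l * f.a * f.c * f.b1
        - 2 * l * f.a * f.b3 * f.c1 - l * f.c * f.a2 ^ 2 - l * f.a2 * f.a3 * f.c2
        - l * f.a3 * f.b1 * f.c1) • f.jac := by
  have e : f.subst !![1, 0, 0; l, 1, 0; 0, 0, 1] =
      ⟨f.a,
       f.a * l ^ 3 + f.b + f.a2 * l ^ 2 + f.b1 * l,
       f.c,
       3 * f.a * l + f.a2,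
       f.a3,
       3 * f.a * l ^ 2 + 2 * f.a2 * l + f.b1,
       f.a3 * l ^ 2 + f.b3 + f.m * l,
       f.c1,
       f.c1 * l + f.c2,
       2 * f.a3 * l + f.m⟩ := by
    ext <;> simp [subst, F, pol, tri, Fx, Fy, Fz] <;> ring
  rw [e]
  ext <;> simp only [jac, wsh, variableChange_a₁, variableChange_a₂, variableChange_a₃,
    variableChange_a₄, variableChange_a₆, inv_one, Units.val_one] <;> ring

lemma jac_tv12 (l : R) (f : Model R) :
    (f.subst !![1, 0, 0; 0, 1, l; 0, 0, 1]).jac =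
      wsh (-2 * l ^ 2 * f.c * f.a3 - l * f.c * f.a2 - l * f.a3 * f.c2)
        (l * f.c1)
        (-4 * l ^ 3 * f.c * f.a3 * f.c1 - 2 * l ^ 2 * f.c * f.a2 * f.c1
        - l ^ 2 * f.c * f.a3 * f.m - 2 * l ^ 2 * f.a3 * f.c1 * f.c2 + 3 * l * f.a * f.c * f.b3
        - l * f.a * f.c2 ^ 2 - 2 * l * f.c * f.a3 * f.b1 - l * f.a2 * f.c1 * f.c2
        - l * f.a3 * f.b3 * f.c1) • f.jac := by
  have e : f.subst !![1, 0, 0; 0, 1, l; 0, 0, 1] =
      ⟨f.a,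
       f.b + f.c * l ^ 3 + f.b3 * l + f.c2 * l ^ 2,
       f.c,
       f.a2 + f.a3 * l,
       f.a3,
       f.b1 + f.c1 * l ^ 2 + f.m * l,
       3 * f.c * l ^ 2 + f.b3 + 2 * f.c2 * l,
       f.c1,
       3 * f.c * l + f.c2,
       2 * f.c1 * l + f.m⟩ := by
    ext <;> simp [subst, F, pol, tri, Fx, Fy, Fz] <;> ring
  rw [e]
  ext <;> simp only [jac, wsh, variableChange_a₁, variableChange_a₂, variableChange_a₃,
    variableChange_a₄, variableChange_a₆, inv_one, Units.val_one] <;> ring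

lemma jac_tv20 (l : R) (f : Model R) :
    (f.subst !![1, 0, 0; 0, 1, 0; l, 0, 1]).jac =
      wsh (-2 * l ^ 2 * f.a * f.b1 - l * f.a * f.b3 - l * f.a3 * f.b1)
        (l * f.a2)
        (-4 * l ^ 3 * f.a * f.a2 * f.b1 - 2 * l ^ 2 * f.a * f.a2 * f.b3
        - l ^ 2 * f.a * f.b1 * f.m - 2 * l ^ 2 * f.a2 * f.a3 * f.b1 + 3 * l * f.a * f.b * f.c1
        - 2 * l * f.a * f.b1 * f.c2 - l * f.b * f.a3 ^ 2 - l * f.a2 * f.a3 * f.b3
        - l * f.a2 * f.b1 * f.c1) • f.jac := by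
  have e : f.subst !![1, 0, 0; 0, 1, 0; l, 0, 1] =
      ⟨f.a,
       f.b,
       f.a * l ^ 3 + f.c + f.a3 * l ^ 2 + f.c1 * l,
       f.a2,
       3 * f.a * l + f.a3,
       f.b1,
       f.b1 * l + f.b3,
       3 * f.a * l ^ 2 + 2 * f.a3 * l + f.c1,
       f.a2 * l ^ 2 + f.c2 + f.m * l,
       2 * f.a2 * l + f.m⟩ := by
    ext <;> simp [subst, F, pol, tri, Fx, Fy, Fz] <;> ring
  rw [e]
  ext <;> simp only [jac, wsh, variableChange_a₁, variableChange_a₂, variableChange_a₃,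
    variableChange_a₄, variableChange_a₆, inv_one, Units.val_one] <;> ring

lemma jac_tv21 (l : R) (f : Model R) :
    (f.subst !![1, 0, 0; 0, 1, 0; 0, l, 1]).jac =
      wsh (-2 * l ^ 2 * f.b * f.a2 - l * f.b * f.a3 - l * f.a2 * f.b3)
        (l * f.b1)
        (-4 * l ^ 3 * f.b * f.a2 * f.b1 - l ^ 2 * f.b * f.a2 * f.m
        - 2 * l ^ 2 * f.b * f.a3 * f.b1 - 2 * l ^ 2 * f.a2 * f.b1 * f.b3
        + 3 * l * f.a * f.b * f.c2 - l * f.a * f.b3 ^ 2 - 2 * l * f.b * f.a2 * f.c1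
        - l * f.a2 * f.b1 * f.c2 - l * f.a3 * f.b1 * f.b3) • f.jac := by
  have e : f.subst !![1, 0, 0; 0, 1, 0; 0, l, 1] =
      ⟨f.a,
       f.b,
       f.b * l ^ 3 + f.c + f.b3 * l ^ 2 + f.c2 * l,
       f.a2,
       f.a2 * l + f.a3,
       f.b1,
       3 * f.b * l + f.b3,
       f.b1 * l ^ 2 + f.c1 + f.m * l,
       3 * f.b * l ^ 2 + 2 * f.b3 * l + f.c2,
       2 * f.b1 * l + f.m⟩ := by
    ext <;> simp [subst, F, pol, tri, Fx, Fy, Fz] <;> ring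
  rw [e]
  ext <;> simp only [jac, wsh, variableChange_a₁, variableChange_a₂, variableChange_a₃,
    variableChange_a₄, variableChange_a₆, inv_one, Units.val_one] <;> ring

end Model

noncomputable instance instFintypeModel {R : Type*} [Fintype R] : Fintype (Model R) :=
  Fintype.ofEquiv _ Model.equivVec.symm

lemma card_model {R : Type*} [Fintype R] : Fintype.card (Model R) = Fintype.card R ^ 10 := by
  rw [Fintype.card_congr Model.equivVec]; simp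

end SelAvg.FF.T3
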