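import Pool.Agent.H5T.Mod

/-!
Projection of a cubic in standard position to a degree 2 model, over any ring.
-/

namespace SelAvg.FF.T3

open WeierstrassCurve Matrix

variable {R S : Type*} [CommRing R] [CommRing S]

namespace Model

@[simp] lemma red_l (f : Model R) : f.red.l = f.b1 := rfl
@[simp] lemma red_m (f : Model R) : f.red.m = f.m := rfl
@[simp] lemma red_n (f : Model R) : f.red.n = f.c1 := rfl
@[simp] lemma red_a (f : Model R) : f.red.a = 0 := rfl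
@[simp] lemma red_b (f : Model R) : f.red.b = -(f.a3 * f.b) := rfl
@[simp] lemma red_c (f : Model R) : f.red.c = -(f.a3 * f.b3) := rfl
@[simp] lemma red_d (f : Model R) : f.red.d = -(f.a3 * f.c2) := rfl
@[simp] lemma red_e (f : Model R) : f.red.e = -(f.a3 * f.c) := rfl
@[simp] lemma unred_a3 (h : SelAvg.Model R) : (unred h).a3 = -1 := rfl
@[simp] lemma unred_b1 (h : SelAvg.Model R) : (unred h).b1 = h.l := rfl
@[simp] lemma unred_b (h : SelAvg.Model R) : (unred h).b = h.b := rfl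

lemma jac_red {f : Model R} (h : f.Std) : f.red.jac = f.jac := by
  have h1 := h.a
  have h2 := h.a2
  ext <;> simp only [SelAvg.Model.jac, jac, red, h1, h2] <;> ring

lemma red_map (φ : R →+* S) (f : Model R) : (f.map φ).red = f.red.map φ := by
  ext <;> simp

lemma unred_map (φ : R →+* S) (h : SelAvg.Model R) : unred (h.map φ) = (unred h).map φ := by
  ext <;> simp [unred]

lemma unred_std (h : SelAvg.Model R) : (unred h).Std := ⟨rfl, rfl⟩

lemma red_unred {h : SelAvg.Model R} (ha : h.a = 0) : (unred h).red = h := by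
  ext <;> simp [unred, ha]

lemma Std.map {f : Model R} (h : f.Std) (φ : R →+* S) : (f.map φ).Std := by
  exact ⟨by rw [map_a, h.a, map_zero], by rw [map_a2, h.a2, map_zero]⟩

lemma Std.of_map {f : Model R} {φ : R →+* S} (hφ : Function.Injective φ) (h : (f.map φ).Std) :
    f.Std := by
  exact ⟨hφ (by rw [map_zero]; exact h.a), hφ (by rw [map_zero]; exact h.a2)⟩

/-- a cubic in standard position is determined by `a3` and its projection -/
lemma eq_of_red_eq {f f' : Model R} (h : f.Std) (h' : f'.Std) (h3 : IsUnit f.a3)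
    (e3 : f.a3 = f'.a3) (e : f.red = f'.red) : f = f' := by
  have e' := SelAvg.Model.ext_iff.1 e
  simp only [red_l, red_m, red_n, red_a, red_b, red_c, red_d, red_e, neg_inj, ← e3,
    h3.mul_right_inj] at e'
  obtain ⟨el, em, en, -, eb, ec, ed, ee⟩ := e'
  exact Model.ext (h.a.trans h'.a.symm) eb ee (h.a2.trans h'.a2.symm) e3 el ec en ed em

lemma phi0_map (φ : R →+* S) (f : Model R) (Q : Pt R) :
    (f.map φ).phi0 (Q.map φ) = (f.phi0 Q).map φ := by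
  ext <;> simp [phi0, SelAvg.Model.q]

lemma phi0_sc (f : Model R) (t : R) (Q : Pt R) : f.phi0 (Q.sc t) = (f.phi0 Q).sc t := by
  ext <;> simp [phi0, SelAvg.Model.q]
  ring

lemma F_phi0 {f : Model R} (h : f.Std) (Q : Pt R) :
    f.red.F (f.phi0 Q) = f.a3 * Q 2 * f.F Q := by
  simp only [SelAvg.Model.F, SelAvg.Model.q, SelAvg.Model.g, phi0, red, F, h.a, h.a2]
  ring

lemma psi_phi0 {f : Model R} (h : f.Std) (Q : Pt R) : f.red.psi (f.phi0 Q) = -f.Fx Q := by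
  simp only [SelAvg.Model.psi, SelAvg.Model.q, phi0, red, Fx, h.a, h.a2]
  ring

/-- if `(1 : 0 : 0)` is singular modulo `c` then `(0, 0)` is singular on the Jacobian -/
lemma dvd_jac_of_sing (f : Model R) {c : R} (h : c ∣ f.a) (h2 : c ∣ f.a2) (h3 : c ∣ f.a3) :
    c ∣ f.jac.a₃ ∧ c ∣ f.jac.a₄ ∧ c ∣ f.jac.a₆ := by
  have e := jac_map (Ideal.Quotient.mk (Ideal.span {c})) f
  have k : ∀ x : R, Ideal.Quotient.mk (Ideal.span {c}) x = 0 ↔ c ∣ x := fun x => by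
    rw [Ideal.Quotient.eq_zero_iff_mem, Ideal.mem_span_singleton]
  have k1 := (k _).2 h
  have k2 := (k _).2 h2
  have k3 := (k _).2 h3
  refine ⟨(k _).1 ?_, (k _).1 ?_, (k _).1 ?_⟩
  · rw [← WeierstrassCurve.map_a₃, ← e]; simp only [jac, map_a, map_a2, map_a3, k1, k2, k3]; ring
  · rw [← WeierstrassCurve.map_a₄, ← e]; simp only [jac, map_a, map_a2, map_a3, k1, k2, k3]; ring
  · rw [← WeierstrassCurve.map_a₆, ← e]; simp only [jac, map_a, map_a2, map_a3, k1, k2, k3]; ring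

lemma jac_Delta_of_sing {f : Model R} (h : f.a = 0) (h2 : f.a2 = 0) (h3 : f.a3 = 0) :
    f.jac.Δ = 0 := by
  obtain ⟨e3, e4, e6⟩ := f.dvd_jac_of_sing (c := 0) (zero_dvd_iff.2 h) (zero_dvd_iff.2 h2)
    (zero_dvd_iff.2 h3)
  rw [zero_dvd_iff] at e3 e4 e6
  simp only [WeierstrassCurve.Δ, b₂, b₄, b₆, b₈, e3, e4, e6]
  ring

/-- if the line `z = 0` is a component modulo the ideal `I` then `Δ ∈ I ^ 2` -/
lemma jac_Delta_mem_sq (f : Model R) {I : Ideal R} (h : f.a ∈ I) (h2 : f.a2 ∈ I) (h1 : f.b1 ∈ I)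
    (hb : f.b ∈ I) : f.jac.Δ ∈ I ^ 2 := by
  have k : ∀ {x y : R}, x ∈ I → y ∈ I → ∀ z : R, x * y * z ∈ I ^ 2 := fun hx hy z => by
    rw [pow_two]; exact Ideal.mul_mem_right _ _ (Ideal.mul_mem_mul hx hy)
  have e3 : f.jac.a₃ = f.a * (9 * f.b * f.c - f.b3 * f.c2) + f.b * (-(f.a3 * f.c1))
      + f.a2 * (-(f.c * f.b1) - f.b3 * f.c1) + f.b1 * (-(f.a3 * f.c2)) := by
    simp only [jac]; ring
  have e4 : f.jac.a₄ = f.a * (-3 * f.b * f.c1 * f.c2 - 3 * f.c * f.b1 * f.b3 + f.b1 * f.c2 ^ 2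
        + f.b3 ^ 2 * f.c1)
      + f.b * (-3 * f.c * f.a2 * f.a3 + f.a2 * f.c1 ^ 2 + f.a3 ^ 2 * f.c2)
      + f.a2 * (f.c * f.a2 * f.b3 + f.a3 * f.b3 * f.c2 + f.b1 * f.c1 * f.c2)
      + f.b1 * (f.c * f.a3 * f.b1 + f.a3 * f.b3 * f.c1) := by
    simp only [jac]; ring
  have e6 : f.jac.a₆ =
      f.a * f.a * (- 27 * f.b * f.b * f.c * f.c + 9 * f.b * f.c * f.b3 * f.c2 - f.b * f.c2 *
        f.c2 * f.c2 - f.c * f.b3 * f.b3 * f.b3)
      + f.a * f.b * (9 * f.b * f.c * f.a3 * f.c1 - f.b * f.c1 * f.c1 * f.c1 + 9 * f.c * f.c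
        * f.a2 * f.b1 + 3 * f.c * f.a2 * f.b3 * f.c1 - 3 * f.c * f.a2 * f.c2 * f.m + 3 * f.c
        * f.a3 * f.b1 * f.c2 - 3 * f.c * f.a3 * f.b3 * f.m - 3 * f.c * f.b1 * f.c1 * f.m +
        f.c * f.m * f.m * f.m + 2 * f.a2 * f.c1 * f.c2 * f.c2 - f.a3 * f.b3 * f.c1 * f.c2 +
        f.a3 * f.c2 * f.c2 * f.m + 2 * f.b1 * f.c1 * f.c1 * f.c2 + f.b3 * f.c1 * f.c1 * f.m
        - f.c1 * f.c2 * f.m * f.m)
      + f.a * f.b1 * (- f.c * f.c * f.b1 * f.b1 + 2 * f.c * f.a3 * f.b3 * f.b3 + 2 * f.c *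
        f.b1 * f.b3 * f.c1 + f.c * f.b1 * f.c2 * f.m - f.c * f.b3 * f.m * f.m - f.a3 * f.b3
        * f.c2 * f.c2 - f.b1 * f.c1 * f.c2 * f.c2 - f.b3 * f.b3 * f.c1 * f.c1 + f.b3 * f.c1
        * f.c2 * f.m)
      + f.a * f.a2 * (- f.c * f.b1 * f.b3 * f.c2 + f.c * f.b3 * f.b3 * f.m - f.b3 * f.b3 *
        f.c1 * f.c2)
      + f.b * f.b * (- f.c * f.a3 * f.a3 * f.a3)
      + f.b * f.a2 * (- f.c * f.c * f.a2 * f.a2 + 2 * f.c * f.a2 * f.a3 * f.c2 + f.c * f.a2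
        * f.c1 * f.m + 2 * f.c * f.a3 * f.a3 * f.b3 - f.c * f.a3 * f.b1 * f.c1 - f.c * f.a3
        * f.m * f.m - f.a2 * f.c1 * f.c1 * f.c2 - f.a3 * f.a3 * f.c2 * f.c2 - f.a3 * f.b3 *
        f.c1 * f.c1 + f.a3 * f.c1 * f.c2 * f.m)
      + f.b * f.b1 * (f.c * f.a3 * f.a3 * f.m - f.a3 * f.a3 * f.c1 * f.c2)
      + f.a2 * f.a2 * (- f.c * f.a3 * f.b3 * f.b3 - f.c * f.b1 * f.b3 * f.c1)
      + f.a2 * f.b1 * (- f.c * f.a3 * f.b1 * f.c2 + f.c * f.a3 * f.b3 * f.m - f.a3 * f.b3 *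
        f.c1 * f.c2)
      + f.b1 * f.b1 * (- f.c * f.a3 * f.a3 * f.b3) := by
    simp only [jac]; ring
  have m3 : f.jac.a₃ ∈ I := by
    rw [e3]
    exact I.add_mem (I.add_mem (I.add_mem (I.mul_mem_right _ h) (I.mul_mem_right _ hb))
      (I.mul_mem_right _ h2)) (I.mul_mem_right _ h1)
  have m4 : f.jac.a₄ ∈ I := by
    rw [e4]
    exact I.add_mem (I.add_mem (I.add_mem (I.mul_mem_right _ h) (I.mul_mem_right _ hb))
      (I.mul_mem_right _ h2)) (I.mul_mem_right _ h1)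
  have m6 : f.jac.a₆ ∈ I ^ 2 := by
    rw [e6]
    exact add_mem (add_mem (add_mem (add_mem (add_mem (add_mem (add_mem (add_mem (add_mem
      (k h h _) (k h hb _)) (k h h1 _)) (k h h2 _)) (k hb hb _)) (k hb h2 _)) (k hb h1 _))
      (k h2 h2 _)) (k h2 h1 _)) (k h1 h1 _)
  generalize f.jac = W at m3 m4 m6
  have m4' : W.b₄ ∈ I := by
    rw [b₄]; exact I.add_mem (I.mul_mem_left _ m4) (I.mul_mem_left _ m3)
  have m6' : W.b₆ ∈ I ^ 2 := by
    have : W.b₆ = W.a₃ * W.a₃ * 1 + 4 * W.a₆ := by rw [b₆]; ring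
    rw [this]; exact add_mem (k m3 m3 _) (Ideal.mul_mem_left _ _ m6)
  have m8 : W.b₈ ∈ I ^ 2 := by
    have : W.b₈ = (W.a₁ ^ 2 + 4 * W.a₂) * W.a₆ + W.a₃ * W.a₄ * (-W.a₁) + W.a₃ * W.a₃ * W.a₂
        + W.a₄ * W.a₄ * (-1) := by rw [b₈]; ring
    rw [this]
    exact add_mem (add_mem (add_mem (Ideal.mul_mem_left _ _ m6) (k m3 m4 _)) (k m3 m3 _))
      (k m4 m4 _)
  have : W.Δ = (-W.b₂ ^ 2) * W.b₈ + W.b₄ * W.b₄ * (-8 * W.b₄)
      + (-27 * W.b₆ + 9 * W.b₂ * W.b₄) * W.b₆ := by rw [WeierstrassCurve.Δ]; ring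
  rw [this]
  exact add_mem (add_mem (Ideal.mul_mem_left _ _ m8) (k m4' m4' _)) (Ideal.mul_mem_left _ _ m6')

end Model

lemma Obj.red_f (z : Obj R) : z.red.f = z.f.red := rfl
lemma Obj.red_γ (z : Obj R) : z.red.γ = z.γ := rfl
lemma Obj.unred_f (z : SelAvg.Obj R) : (Obj.unred z).f = Model.unred z.f := rfl
lemma Obj.unred_γ (z : SelAvg.Obj R) : (Obj.unred z).γ = z.γ := rfl

lemma Obj.over_red {z : Obj R} (h : z.f.Std) {W : WeierstrassCurve R} :
    z.red.Over W ↔ z.Over W := by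
  unfold SelAvg.Obj.Over Obj.Over
  rw [Obj.red_f, Obj.red_γ, Model.jac_red h]

lemma Obj.red_map (φ : R →+* S) (z : Obj R) : (z.map φ).red = z.red.map φ := by
  exact SelAvg.Obj.ext (Model.red_map φ z.f) rfl

lemma Obj.red_rmul (z : Obj R) (C : VariableChange R) : (z.rmul C).red = z.red.rmul C := rfl

lemma Obj.unred_map (φ : R →+* S) (z : SelAvg.Obj R) :
    Obj.unred (z.map φ) = (Obj.unred z).map φ := by
  exact Obj.ext (Model.unred_map φ z.f) rfl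

lemma Obj.red_unred {z : SelAvg.Obj R} (ha : z.f.a = 0) : (Obj.unred z).red = z := by
  exact SelAvg.Obj.ext (Model.red_unred ha) rfl

lemma Obj.over_unred {z : SelAvg.Obj R} (ha : z.f.a = 0) {W : WeierstrassCurve R} :
    (Obj.unred z).Over W ↔ z.Over W := by
  rw [← Obj.over_red (Model.unred_std z.f), Obj.red_unred ha]

namespace G

lemma smul_a (g : G R) (f : Model R) : g.μ * (g • f).a = f.F (g.e 0) := by
  rw [← Model.scale_a, scale_smul, Model.subst_a]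

lemma smul_a2 (g : G R) (f : Model R) : g.μ * (g • f).a2 = f.pol (g.e 0) (g.e 1) := by
  rw [← Model.scale_a2, scale_smul, Model.subst_a2]

lemma smul_a3 (g : G R) (f : Model R) : g.μ * (g • f).a3 = f.pol (g.e 0) (g.e 2) := by
  rw [← Model.scale_a3, scale_smul, Model.subst_a3]

lemma Bor.one : (1 : G R).Bor := by
  refine ⟨?_, ?_, ?_⟩ <;> simp [e]

lemma Bor.mul {g h : G R} (hg : g.Bor) (hh : h.Bor) : (g * h).Bor := by
  have k : (g * h).e = g.e * h.e := rfl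
  refine ⟨?_, ?_, ?_⟩ <;>
    simp [k, mul_apply, Fin.sum_univ_three, hg.e01, hg.e02, hg.e12, hh.e01, hh.e02, hh.e12]

lemma Bor.det {g : G R} (hg : g.Bor) : (g.det : R) = g.e 0 0 * g.e 1 1 * g.e 2 2 := by
  rw [det_val, det_fin_three, hg.e01, hg.e02, hg.e12]; ring

lemma Bor.isUnit {g : G R} (hg : g.Bor) (i : Fin 3) : IsUnit (g.e i i) := by
  have h := g.det.isUnit
  rw [hg.det, IsUnit.mul_iff, IsUnit.mul_iff] at h
  fin_cases i
  exacts [h.1.1, h.1.2, h.2]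

lemma Bor.inv {g : G R} (hg : g.Bor) : g⁻¹.Bor := by
  have k : g.e * g⁻¹.e = 1 := g.M.mul_inv
  have k1 := congrFun (congrFun k 0) 1
  have k2 := congrFun (congrFun k 0) 2
  have k3 := congrFun (congrFun k 1) 2
  simp only [mul_apply, Fin.sum_univ_three, hg.e01, hg.e02, hg.e12, zero_mul, add_zero] at k1 k2 k3
  rw [one_apply_ne (by decide), (hg.isUnit 0).mul_right_eq_zero] at k1 k2
  rw [one_apply_ne (by decide), k2, mul_zero, zero_add, (hg.isUnit 1).mul_right_eq_zero] at k3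
  exact ⟨k1, k2, k3⟩

lemma Bor.map {g : G R} (hg : g.Bor) (φ : R →+* S) : (G.map φ g).Bor := by
  refine ⟨?_, ?_, ?_⟩ <;> simp [map_e, hg.e01, hg.e02, hg.e12]

lemma Bor.scalar (t : Rˣ) : (G.scalar t).Bor := by
  refine ⟨?_, ?_, ?_⟩ <;> simp [e, scM_val]

lemma Bor.pt_std {g : G R} (hg : g.Bor) : g.pt Pt.std = Pt.std.sc (g.e 0 0) := by
  rw [G.pt_std]
  funext j
  fin_cases j <;> simp [hg.e01, hg.e02]

lemma Bor.std {g : G R} (hg : g.Bor) {f : Model R} (h : f.Std) : (g • f).Std := by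
  refine ⟨g.μ.isUnit.mul_right_eq_zero.1 ?_, g.μ.isUnit.mul_right_eq_zero.1 ?_⟩
  · rw [smul_a]; simp [Model.F, hg.e01, hg.e02, h.a]
  · rw [smul_a2]
    simp [Model.pol, Model.Fx, Model.Fy, Model.Fz, hg.e01, hg.e02, hg.e12, h.a, h.a2]

lemma Bor.a3 {g : G R} (hg : g.Bor) {f : Model R} (h : f.Std) :
    g.μ * (g • f).a3 = g.e 0 0 ^ 2 * g.e 2 2 * f.a3 := by
  rw [smul_a3]
  simp only [Model.pol, Model.Fx, Model.Fy, Model.Fz, hg.e01, hg.e02, h.a, h.a2]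
  ring

/-- `k` is the element of the degree 2 group induced by the lower triangular `g` at `f` -/
structure Ind (g : G R) (f : Model R) (k : SelAvg.G R) : Prop where
  m11 : k.m11 = g.e 1 1
  m12 : k.m12 = 0
  m21 : k.m21 = g.e 2 1
  m22 : k.m22 = g.e 2 2
  μ : k.μ * g.e 0 0 = g.μ
  r0 : k.r0 = 0
  r1 : k.r1 = f.a3 * g.e 2 2 * g.e 1 0
  r2 : k.r2 = f.a3 * g.e 2 2 * g.e 2 0

lemma Bor.exists_ind {g : G R} (hg : g.Bor) (f : Model R) : ∃ k, g.Ind f k := by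
  obtain ⟨a, ha⟩ := hg.isUnit 0
  have hd : IsUnit (!![g.e 1 1, 0; g.e 2 1, g.e 2 2] : Matrix (Fin 2) (Fin 2) R).det := by
    rw [Matrix.det_fin_two_of]
    simpa using (hg.isUnit 1).mul (hg.isUnit 2)
  refine ⟨⟨Matrix.GeneralLinearGroup.mk'' _ hd, g.μ * a⁻¹, 0, f.a3 * g.e 2 2 * g.e 1 0,
    f.a3 * g.e 2 2 * g.e 2 0⟩, rfl, rfl, rfl, rfl, ?_, rfl, rfl, rfl⟩
  simp [← ha]

lemma Ind.map {g : G R} {f : Model R} {k : SelAvg.G R} (h : g.Ind f k) (φ : R →+* S) :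
    (G.map φ g).Ind (f.map φ) (SelAvg.G.map φ k) := by
  constructor
  · simp [h.m11, map_e]
  · simp [h.m12]
  · simp [h.m21, map_e]
  · simp [h.m22, map_e]
  · simp [← h.μ, map_e]
  · simp [h.r0]
  · simp [h.r1, map_e]
  · simp [h.r2, map_e]

lemma RED2_red_scale (t : R) (f : Model R) : (f.scale t).red = f.red.scale t := by
  ext <;> simp [Model.red, SelAvg.Model.scale] <;> ring

lemma RED2_red_subst {M : Matrix (Fin 3) (Fin 3) R} (h01 : M 0 1 = 0) (h02 : M 0 2 = 0)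
    (h12 : M 1 2 = 0) {f : Model R} (hf : f.Std) :
    (f.subst M).red = ((f.red.subst (M 1 1) 0 (M 2 1) (M 2 2)).shift 0 (f.a3 * M 2 2 * M 1 0)
      (f.a3 * M 2 2 * M 2 0)).scale (M 0 0) := by
  ext <;> simp only [Model.red, Model.subst, Model.F, Model.pol, Model.tri, Model.Fx, Model.Fy,
    Model.Fz, SelAvg.Model.scale, SelAvg.Model.shift, SelAvg.Model.subst, Pi.add_apply, h01, h02,
    h12, hf.a, hf.a2] <;> ring

lemma RED2_std_subst {M : Matrix (Fin 3) (Fin 3) R} (h01 : M 0 1 = 0) (h02 : M 0 2 = 0)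
    (h12 : M 1 2 = 0) {f : Model R} (hf : f.Std) : (f.subst M).Std := by
  constructor <;> simp only [Model.subst, Model.F, Model.pol, Model.Fx, Model.Fy,
    Model.Fz, h01, h02, h12, hf.a, hf.a2] <;> ring

lemma Ind.smul {g : G R} (hg : g.Bor) {f : Model R} (hf : f.Std) {k : SelAvg.G R}
    (h : g.Ind f k) : k • f.red = (g • f).red := by
  have e : ((k.μ⁻¹ : Rˣ) : R) = ((g.μ⁻¹ : Rˣ) : R) * g.e 0 0 := by
    rw [Units.eq_inv_mul_iff_mul_eq, ← h.μ, mul_right_comm, Units.mul_inv, one_mul]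
  rw [SelAvg.G.smul_def, smul_def, RED2_red_scale, RED2_red_subst hg.e01 hg.e02 hg.e12 hf,
    SelAvg.Model.scale_scale, h.m11, h.m12, h.m21, h.m22, h.r0, h.r1, h.r2, e]

/-- the shift induced by a lower triangular matrix on a standard cubic, before scaling -/
def RED2_w (M : Matrix (Fin 3) (Fin 3) R) (f : Model R) : VariableChange R :=
  wsh ((f.red.subst (M 1 1) 0 (M 2 1) (M 2 2)).shR 0 (f.a3 * M 2 2 * M 2 0))
      (f.a3 * M 2 2 * M 1 0)
      ((f.red.subst (M 1 1) 0 (M 2 1) (M 2 2)).shT 0 (f.a3 * M 2 2 * M 1 0)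
        (f.a3 * M 2 2 * M 2 0)) *
    wsh (f.red.subR (M 1 1) 0 (M 2 1) (M 2 2)) (f.red.subS (M 1 1) 0 (M 2 1) (M 2 2))
      (f.red.subT (M 1 1) 0 (M 2 1) (M 2 2))

lemma RED2_w_eq (M : Matrix (Fin 3) (Fin 3) R) (f : Model R) :
    RED2_w M f = wsh (RED2_w M f).r (RED2_w M f).s (RED2_w M f).t := by
  rw [RED2_w, wsh_mul]; rfl

lemma RED2_w_map (φ : R →+* S) (M : Matrix (Fin 3) (Fin 3) R) (f : Model R) :
    RED2_w (M.map φ) (f.map φ) = (RED2_w M f).map φ := by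
  simp only [RED2_w, wsh_mul]
  ext <;> simp [wsh, VariableChange.map, SelAvg.Model.shR, SelAvg.Model.shT, SelAvg.Model.subR,
    SelAvg.Model.subS, SelAvg.Model.subT, SelAvg.Model.subst, map_ofNat]

lemma RED2_jac_subst {M : Matrix (Fin 3) (Fin 3) R} (h01 : M 0 1 = 0) (h02 : M 0 2 = 0)
    (h12 : M 1 2 = 0) {f : Model R} (hf : f.Std) :
    (f.subst M).jac = wsh (M 0 0 ^ 2 * (RED2_w M f).r) (M 0 0 * (RED2_w M f).s)
      (M 0 0 ^ 3 * (RED2_w M f).t) • wsc M.det f.jac := by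
  have hd : M.det = M 0 0 * (M 1 1 * M 2 2 - 0 * M 2 1) := by
    rw [Matrix.det_fin_three, h01, h02, h12]; ring
  rw [← Model.jac_red (RED2_std_subst h01 h02 h12 hf), RED2_red_subst h01 h02 h12 hf,
    SelAvg.Model.jac_scale, SelAvg.Model.jac_shift, SelAvg.Model.jac_subst, Model.jac_red hf,
    ← mul_smul, hd, ← wsc_wsc, ← wsc_wsh, ← RED2_w_eq]
  rfl

lemma RED2_sh {M : Matrix (Fin 3) (Fin 3) R} (h01 : M 0 1 = 0) (h02 : M 0 2 = 0)
    (h12 : M 1 2 = 0) {f : Model R} (hf : f.Std) :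
    f.sh M = wsh (M 0 0 ^ 2 * (RED2_w M f).r) (M 0 0 * (RED2_w M f).s)
      (M 0 0 ^ 3 * (RED2_w M f).t) := by
  let φ : MvPolynomial R ℤ →+* R := MvPolynomial.eval₂Hom (Int.castRingHom R) id
  have hX : ∀ r : R, φ (MvPolynomial.X r) = r := fun r => by simp [φ]
  let M' : Matrix (Fin 3) (Fin 3) (MvPolynomial R ℤ) :=
    !![.X (M 0 0), 0, 0; .X (M 1 0), .X (M 1 1), 0; .X (M 2 0), .X (M 2 1), .X (M 2 2)]
  let f' : Model (MvPolynomial R ℤ) :=
    ⟨0, .X f.b, .X f.c, 0, .X f.a3, .X f.b1, .X f.b3, .X f.c1, .X f.c2, .X f.m⟩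
  have hM : M'.map φ = M := by
    ext i j; fin_cases i <;> fin_cases j <;> simp [M', hX, h01, h02, h12]
  have hF : f'.map φ = f := by
    ext <;> simp [f', hX, hf.a, hf.a2]
  have hs : f'.Std := ⟨rfl, rfl⟩
  have key := Model.sh_unique (RED2_jac_subst (M := M') rfl rfl rfl hs)
  have h1 := Model.sh_map φ M' f'
  have h2 := RED2_w_map φ M' f'
  rw [hM, hF] at h1 h2
  have h0 : φ (M' 0 0) = M 0 0 := hX _
  rw [h1, key, h2, ← h0]
  ext <;> simp [wsh, VariableChange.map]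

/-- For a lower triangular matrix with rows `(α, 0, 0)`, `(β, δ, 0)`, `(γ, ε, ζ)` and `f` standard,
`(f.subst M).red = ((f.red.subst δ 0 ε ζ).shift 0 (a3 ζ β) (a3 ζ γ)).scale α`; so `sh_unique`
computes `f.sh M` over `MvPolynomial R ℤ`, and `sh_map` over `R`. -/
lemma Ind.Gam {g : G R} (hg : g.Bor) {f : Model R} (hf : f.Std) {k : SelAvg.G R}
    (h : g.Ind f k) : k.Gam f.red = g.Gam f := by
  obtain ⟨a, ha⟩ := hg.isUnit 0
  have hμ : g.μ = k.μ * a := Units.ext (by rw [Units.val_mul, ha, h.μ])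
  have hd : g.det = a * k.det := Units.ext (by
    rw [Units.val_mul, ha, hg.det, SelAvg.G.det_val, h.m11, h.m12, h.m22]; ring)
  have hk : k.Gam f.red = wdiag k.μ * RED2_w g.e f * wdiag k.det⁻¹ := by
    rw [SelAvg.G.Gam, RED2_w, h.m11, h.m12, h.m21, h.m22, h.r0, h.r1, h.r2]
    simp only [mul_assoc]
  rw [hk, G.Gam, RED2_sh hg.e01 hg.e02 hg.e12 hf, ← ha, hμ, ← wdiag_mul,
    mul_assoc (wdiag k.μ) (wdiag a), ← wsh_mul_wdiag, ← RED2_w_eq, hd]
  simp only [mul_assoc, wdiag_mul, mul_inv, mul_inv_cancel_left]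

lemma Ind.smul_obj {g : G R} (hg : g.Bor) {z : Obj R} (hf : z.f.Std) {k : SelAvg.G R}
    (h : g.Ind z.f k) : k • z.red = (g • z).red := by
  refine SelAvg.Obj.ext ?_ ?_
  · exact h.smul hg hf
  · show k.Gam z.f.red * z.γ = g.Gam z.f * z.γ
    rw [h.Gam hg hf]

lemma Ind.pt {g : G R} (hg : g.Bor) {f : Model R} (hf : f.Std) {k : SelAvg.G R}
    (h : g.Ind f k) (Q : Pt R) : k.pt ((g • f).phi0 Q) = f.phi0 (g.pt Q) := by
  obtain ⟨a, ha⟩ := hg.isUnit 0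
  have h3 : k.μ * (g • f).a3 = g.e 0 0 * g.e 2 2 * f.a3 := by
    have := hg.a3 hf
    rw [← h.μ, ← ha] at this
    rw [← ha]
    exact a.mul_right_inj.1 (by linear_combination this)
  have hq := SelAvg.G.q_pt k f.red (Q 1) (Q 2)
  rw [h.smul hg hf, h.m11, h.m12, h.m21, h.m22, h.r0, h.r1, h.r2] at hq
  ext
  · simp [SelAvg.G.pt, Model.phi0, pt_apply, h.m11, h.m21, hg.e01]
  · simp [SelAvg.G.pt, Model.phi0, pt_apply, h.m12, h.m22, hg.e02, hg.e12]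
  · simp only [SelAvg.G.pt, Model.phi0, pt_apply, h.r0, h.r1, h.r2, hg.e01, hg.e02, hg.e12,
      mul_zero, zero_add] at hq ⊢
    linear_combination hq - Q 0 * Q 2 * h3

lemma Ind.pt_std {g : G R} {f : Model R} {k : SelAvg.G R} (h : g.Ind f k) :
    k.pt SelAvg.Pt.std = SelAvg.Pt.std.sc (g.e 1 1) := by
  rw [SelAvg.G.pt_std, h.m11, h.m12, h.r0]
  ext <;> simp

end G

/-- Conversely an element of the degree 2 group fixing the standard point lifts: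
`α = k.μ * a3 / (m22 * a3')`, `β = r1 / (a3' m22)`, `γ = r2 / (a3' m22)`, `μ = k.μ α`. -/
theorem exists_bor_of_red {z z' : Obj R} (h : z.f.Std) (h' : z'.f.Std) (h3 : IsUnit z.f.a3)
    (h3' : IsUnit z'.f.a3) {k : SelAvg.G R} (h12 : k.m12 = 0) (h0 : k.r0 = 0)
    (hk : k • z'.red = z.red) : ∃ g : G R, g.Bor ∧ g.Ind z'.f k ∧ g • z' = z := by
  have hdet : IsUnit (k.m11 * k.m22) := by
    have := k.det.isUnit
    rwa [SelAvg.G.det_val, h12, zero_mul, sub_zero] at this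
  obtain ⟨d, hd⟩ := isUnit_of_mul_isUnit_right hdet
  obtain ⟨u, hu⟩ := id h3
  obtain ⟨u', hu'⟩ := id h3'
  let α : Rˣ := k.μ * u * (u' * d)⁻¹
  let w : Rˣ := (u' * d)⁻¹
  have hw : z'.f.a3 * k.m22 * w = 1 := by
    rw [← hu', ← hd, ← Units.val_mul, Units.mul_inv]
  have hα : (α : R) = k.μ * z.f.a3 * w := by rw [← hu]; rfl
  have hM : IsUnit (!![(α : R), 0, 0; w * k.r1, k.m11, 0; w * k.r2, k.m21, k.m22] :
      Matrix (Fin 3) (Fin 3) R).det := by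
    have := α.isUnit.mul hdet
    rw [Matrix.det_fin_three]
    simpa [mul_assoc] using this
  let g : G R := ⟨Matrix.GeneralLinearGroup.mk'' _ hM, k.μ * α⟩
  have hg : g.Bor := ⟨rfl, rfl, rfl⟩
  have hI : g.Ind z'.f k := by
    refine ⟨rfl, h12, rfl, rfl, rfl, h0, ?_, ?_⟩
    · show k.r1 = z'.f.a3 * k.m22 * (w * k.r1)
      rw [← mul_assoc, hw, one_mul]
    · show k.r2 = z'.f.a3 * k.m22 * (w * k.r2)
      rw [← mul_assoc, hw, one_mul]
  have hr : (g • z').red = z.red := by rw [← hI.smul_obj hg h', hk]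
  have e3 : z.f.a3 = (g • z'.f).a3 := by
    have h1 : ((k.μ * α : Rˣ) : R) * (g • z'.f).a3 = (α : R) ^ 2 * k.m22 * z'.f.a3 := hg.a3 h'
    refine (k.μ * α).mul_right_inj.1 ?_
    rw [h1, Units.val_mul]
    linear_combination (-(α : R) * k.m22 * z'.f.a3) * hα - k.μ * α * z.f.a3 * hw
  refine ⟨g, hg, hI, Obj.ext ?_ (congrArg SelAvg.Obj.γ hr)⟩
  exact (Model.eq_of_red_eq h (hg.std h') h3 e3 (congrArg SelAvg.Obj.f hr).symm).symm

/-- a point with a unit coordinate is the image of the standard point -/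
lemma exists_mover_pt {Q : Pt R} (hQ : ∃ i, IsUnit (Q i)) : ∃ g : G R, g.pt Pt.std = Q := by
  have key : ∀ M : Matrix (Fin 3) (Fin 3) R, IsUnit M.det → M 0 = Q →
      ∃ g : G R, g.pt Pt.std = Q := fun M hM h0 =>
    ⟨⟨Matrix.GeneralLinearGroup.mk'' M hM, 1⟩, by rw [G.pt_std]; exact h0⟩
  obtain ⟨i, hi⟩ := hQ
  fin_cases i
  · refine key !![Q 0, Q 1, Q 2; 0, 1, 0; 0, 0, 1] ?_ ?_
    · rw [Matrix.det_fin_three]; simpa using hi
    · funext j; fin_cases j <;> rfl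
  · refine key !![Q 0, Q 1, Q 2; 0, 0, 1; 1, 0, 0] ?_ ?_
    · rw [Matrix.det_fin_three]; simpa using hi
    · funext j; fin_cases j <;> rfl
  · refine key !![Q 0, Q 1, Q 2; 1, 0, 0; 0, 1, 0] ?_ ?_
    · rw [Matrix.det_fin_three]; simpa using hi
    · funext j; fin_cases j <;> rfl

/-- Move `Q` to the standard point; then `x a2 + y a3 = 1` for some `x`, `y`; use the rows
`(1, 0, 0)`, `(0, a3, -a2)`, `(0, x, y)`. -/
theorem exists_mover_ring {f : Model R} {Q : Pt R} (hQ : ∃ i, IsUnit (Q i)) (hF : f.F Q = 0)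
    (hs : ∃ v, IsUnit (f.pol Q v)) :
    ∃ g : G R, g.pt Pt.std = Q ∧ (g • f).Std ∧ IsUnit (g • f).a3 := by
  obtain ⟨g0, h0⟩ := exists_mover_pt hQ
  obtain ⟨v, hv⟩ := hs
  have ha : (g0 • f).a = 0 := by
    have := g0.F_pt f Pt.std
    rw [h0, hF, Model.F_std] at this
    exact (Units.mul_right_eq_zero _).1 this.symm
  have hu : IsUnit ((g0⁻¹.pt v) 1 * (g0 • f).a2 + (g0⁻¹.pt v) 2 * (g0 • f).a3) := by
    have := g0.pol_pt f Pt.std (g0⁻¹.pt v)
    rw [h0, G.pt_inv_pt] at this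
    rw [this, Model.pol, Model.Fx_std, Model.Fy_std, Model.Fz_std, ha] at hv
    simpa using isUnit_of_mul_isUnit_right hv
  generalize (g0⁻¹.pt v) 1 = x, (g0⁻¹.pt v) 2 = y at hu
  have hM : IsUnit (!![1, 0, 0; 0, (g0 • f).a3, -(g0 • f).a2; 0, x, y] :
      Matrix (Fin 3) (Fin 3) R).det := by
    rw [Matrix.det_fin_three]
    convert hu using 1
    simp; ring
  let g1 : G R := ⟨Matrix.GeneralLinearGroup.mk'' _ hM, 1⟩
  have e0 : g1.e 0 = Pt.std := by funext j; fin_cases j <;> rfl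
  have e1 : g1.e 1 = ![0, (g0 • f).a3, -(g0 • f).a2] := by funext j; fin_cases j <;> rfl
  have e2 : g1.e 2 = ![0, x, y] := by funext j; fin_cases j <;> rfl
  have hμ : ((g1.μ : Rˣ) : R) = 1 := rfl
  have ea := g1.smul_a (g0 • f)
  have ea2 := g1.smul_a2 (g0 • f)
  have ea3 := g1.smul_a3 (g0 • f)
  rw [hμ, one_mul, e0] at ea ea2 ea3
  refine ⟨g1 * g0, ?_, ⟨?_, ?_⟩, ?_⟩
  · rw [G.mul_pt, G.pt_std g1, e0, h0]
  · rw [mul_smul, ea, Model.F_std, ha]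
  · rw [mul_smul, ea2, e1]; simp [Model.pol]; ring
  · rw [mul_smul, ea3, e2]; simpa [Model.pol] using hu

end SelAvg.FF.T3
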