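import Pool.Agent.H5T.Cusp3
import Pool.Agent.H5T.Vcp
import Pool.Agent.H5T.Up
import Pool.Agent.H5T.Low
import Pool.Agent.H5T.Fib
import Pool.Agent.H81Sel.Sum0

/-! Sums over curves in terms of sums over torsors, for ternary cubics. -/

namespace SelAvg.FF.T3

open WeierstrassCurve WithZero Filter Topology Matrix
open scoped Classical ENNReal

variable {F : Type} [Field F] [Cv F]

/-- the Jacobian is nonsingular and minimal at all places -/
def MinM (g : G (A F)) (f : Model F) : Prop :=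
  f.jac.Δ ≠ 0 ∧ ∀ v : Place F, ¬NonMin v.loc.unif (locM v g f).jac

/-- `IntO.jac_loc`, `nonMin_smul` -/
lemma IntO.minW_iff {D : Div F} {z : Obj F} {g : G (A F)} (h : IntO D z g) {W : WeierstrassCurve F}
    (hz : z.Over W) : MinW D W ↔ MinM g z.f := by
  refine and_congr (by rw [show z.f.jac = z.γ • W from hz, sum0_Delta]) (forall_congr' fun v => ?_)
  obtain ⟨C, hC⟩ := h.jac_loc hz v
  rw [hC, nonMin_smul]

/-- the normalised number of nontrivial Selmer elements -/
noncomputable def SD (D : Div F) : ℝ :=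
  avg (WB D) fun W => ind (MinW D W) * aut W * (SelO W).ncard

/-- the weight in the upper bound -/
noncomputable def upF (S : Finset (Place F)) (g : G (A F)) (f : Model F) : ℝ :=
  ind (MinM g f ∧ ¬f.Triv) * aut f.jac * autF f.jac * PhiS S g f

/-- the weight in the lower bound -/
noncomputable def lowF (S : Finset (Place F)) (g : G (A F)) (f : Model F) : ℝ :=
  ind (MinM g f ∧ ¬f.Triv ∧ SqM S g f) * aut f.jac * PhiS S g f

/-- weights that only depend on the isomorphism class of the pair (torsor, model) -/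
structure Adm (h : G (A F) → Model F → ℝ) : Prop where
  nonneg : ∀ g f, 0 ≤ h g f
  le : ∀ g f, IntM g f → h g f ≤ 1728 * ind (f.jac.Δ ≠ 0 ∧ ¬f.Triv)
  K : ∀ k ∈ KG F, ∀ g f, IntM g f → h (k * g) f = h g f
  act : ∀ (γ : G F) g f, h (g * (gA F γ)⁻¹) (γ • f) = h g f

lemma sum0_minM_K {k g : G (A F)} (hk : k ∈ KG F) {f : Model F} (hf : IntM g f) :
    MinM (k * g) f ↔ MinM g f := by
  refine and_congr_right fun _ => forall_congr' fun v => ?_
  obtain ⟨h, hh⟩ := locM_K hk hf v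
  rw [hh, G.jac_smul, nonMin_smul]

lemma sum0_minM_act (γ : G F) (g : G (A F)) (f : Model F) :
    MinM (g * (gA F γ)⁻¹) (γ • f) ↔ MinM g f := by
  refine and_congr (by rw [G.jac_smul, sum0_Delta]) (forall_congr' fun v => ?_)
  rw [locM_act]

theorem adm_upF (S : Finset (Place F)) : Adm (upF S) := by
  refine ⟨fun g f => ?_, fun g f hf => ?_, fun k hk g f hf => ?_, fun γ g f => ?_⟩
  · exact mul_nonneg (mul_nonneg (mul_nonneg (ind_nonneg _) (Nat.cast_nonneg _))
      (Nat.cast_nonneg _)) (PhiS_nonneg S g f)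
  · unfold upF
    by_cases h : MinM g f ∧ ¬f.Triv
    · have h1 : (aut f.jac : ℝ) ≤ 192 := by exact_mod_cast aut_le h.1.1
      have h2 : (autF f.jac : ℝ) ≤ 9 := by exact_mod_cast autF_le f.jac
      have h3 := PhiS_le_one S hf h.1.1
      have h4 := PhiS_nonneg S g f
      rw [ind_pos h, ind_pos (And.intro h.1.1 h.2), one_mul]
      calc _ ≤ (192 : ℝ) * 9 * 1 := by gcongr
        _ = _ := by norm_num
    · rw [ind_neg h, zero_mul, zero_mul, zero_mul]
      exact mul_nonneg (by norm_num) (ind_nonneg _)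
  · unfold upF
    rw [sum0_minM_K hk hf]
    by_cases h : MinM g f ∧ ¬f.Triv
    · rw [PhiS_K S hk hf h.1.1]
    · simp only [ind_neg h, zero_mul]
  · unfold upF
    rw [sum0_minM_act, Model.triv_smul, G.jac_smul, aut_smul, autF_smul, PhiS_act]

theorem adm_lowF (S : Finset (Place F)) : Adm (lowF S) := by
  refine ⟨fun g f => ?_, fun g f hf => ?_, fun k hk g f hf => ?_, fun γ g f => ?_⟩
  · exact mul_nonneg (mul_nonneg (ind_nonneg _) (Nat.cast_nonneg _)) (PhiS_nonneg S g f)
  · unfold lowF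
    by_cases h : MinM g f ∧ ¬f.Triv ∧ SqM S g f
    · have h1 : (aut f.jac : ℝ) ≤ 192 := by exact_mod_cast aut_le h.1.1
      have h3 := PhiS_le_one S hf h.1.1
      have h4 := PhiS_nonneg S g f
      rw [ind_pos h, ind_pos (And.intro h.1.1 h.2.1), one_mul]
      calc _ ≤ (192 : ℝ) * 1 := by gcongr
        _ ≤ _ := by norm_num
    · rw [ind_neg h, zero_mul, zero_mul]
      exact mul_nonneg (by norm_num) (ind_nonneg _)
  · unfold lowF
    rw [sum0_minM_K hk hf, sqM_K S hk hf]
    by_cases h : MinM g f ∧ ¬f.Triv ∧ SqM S g f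
    · rw [PhiS_K S hk hf h.1.1]
    · simp only [ind_neg h, zero_mul]
  · unfold lowF
    rw [sum0_minM_act, Model.triv_smul, sqM_act, G.jac_smul, aut_smul, PhiS_act]

/-- the total weight of a torsor -/
noncomputable def Psi (h : G (A F) → Model F → ℝ) (x : XG F) : ℝ := ∑ f ∈ VB x.out, h x.out f

variable {h : G (A F) → Model F → ℝ}

lemma Adm.Psi_nonneg (hh : Adm h) (x : XG F) : 0 ≤ Psi h x := by
  exact Finset.sum_nonneg fun f _ => hh.nonneg _ f

lemma Adm.Psi_mk (hh : Adm h) (g : G (A F)) : Psi h (RC.mk (KG F) g) = ∑ f ∈ VB g, h g f := by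
  obtain ⟨k, hk, h1⟩ := RC.out_mk (K := KG F) g
  unfold Psi
  rw [h1, VB_K hk]
  exact Finset.sum_congr rfl fun f hf => hh.K k hk g f (mem_VB.1 hf)

lemma Adm.Psi_act (hh : Adm h) (γ : G F) (x : XG F) : Psi h (actG F γ x) = Psi h x := by
  obtain ⟨g, rfl⟩ := x.mk_surj
  rw [actG_mk, hh.Psi_mk, hh.Psi_mk, sum_VB_act]
  exact Finset.sum_congr rfl fun f _ => hh.act γ g f

lemma sum0_Psi_le : ∃ C : ℝ, 0 < C ∧ ∀ h : G (A F) → Model F → ℝ,
    (∀ g f, IntM g f → h g f ≤ 1728 * ind (f.jac.Δ ≠ 0 ∧ ¬f.Triv)) → ∀ D : Div F,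
    0 ≤ deg D → ∀ x ∈ XD D,
      Psi h x ≤ C * wt3 (pM x) * qq F ^ (10 * deg D + 10 * cc F) := by
  obtain ⟨C, h0, hC⟩ := cusp (F := F)
  refine ⟨1728 * C, by positivity, fun h hh D hD x hx => ?_⟩
  obtain ⟨u, hu⟩ := hx
  have h1 : deg (cls x.out) = deg D := by rw [hu, map_add, deg_dv, add_zero]
  have h2 := hC x.out (h1 ▸ hD)
  rw [h1] at h2
  calc Psi h x ≤ ∑ f ∈ VB x.out, 1728 * ind (f.jac.Δ ≠ 0 ∧ ¬f.Triv) :=
        Finset.sum_le_sum fun f hf => hh _ f (mem_VB.1 hf)
    _ = 1728 * (((VB x.out).filter fun f => f.jac.Δ ≠ 0 ∧ ¬f.Triv).card : ℝ) := by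
        rw [← Finset.mul_sum, Finset.card_filter, Nat.cast_sum]
        refine congrArg _ (Finset.sum_congr rfl fun f _ => ?_)
        by_cases hf : f.jac.Δ ≠ 0 ∧ ¬f.Triv
        · rw [ind_pos hf, if_pos hf, Nat.cast_one]
        · rw [ind_neg hf, if_neg hf, Nat.cast_zero]
    _ ≤ _ := by
        rw [mul_assoc, mul_assoc, ← mul_assoc C]
        exact mul_le_mul_of_nonneg_left h2 (by norm_num)

theorem exists_Psi_le : ∃ C : ℝ, 0 < C ∧ ∀ h : G (A F) → Model F → ℝ, Adm h → ∀ D : Div F,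
    0 ≤ deg D → ∀ x ∈ XD D,
      Psi h x ≤ C * wt3 (pM x) * qq F ^ (10 * deg D + 10 * cc F) := by
  obtain ⟨C, h0, hC⟩ := sum0_Psi_le (F := F)
  exact ⟨C, h0, fun h hh => hC h hh.le⟩

/-- `transfer` for every torsor -/
lemma sum0_swap {D : Div F} (hD : (c0 F : ℤ) ≤ deg D) (h0 : ∀ g f, 0 ≤ h g f) (ρ : XG F → ℝ≥0∞)
    (H : XG F → WeierstrassCurve F → Obj F → ℝ≥0∞)
    (hH : ∀ x W z, z.Over W → IntO D z x.out →
      H x W z = if par3 (pM x) then ENNReal.ofReal (h x.out z.f) else 0)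
    (hH0 : ∀ x W z, ¬(z.Over W ∧ IntO D z x.out) → H x W z = 0) :
    ∑ W ∈ WB D, ∑' x, ρ x * ∑' z, H x W z = (GB D).card * ∑' x, ρ x *
      (if x ∈ XD D then (if par3 (pM x) then ENNReal.ofReal (Psi h x) else 0) else 0) := by
  rw [← Summable.tsum_finsetSum fun _ _ => ENNReal.summable, ← ENNReal.tsum_mul_left]
  refine tsum_congr fun x => ?_
  have h1 := transfer hD x.out
    (fun f => if par3 (pM x) then ENNReal.ofReal (h x.out f) else 0) (H x) (hH x)
  have h2 : ∀ W, ∑' z, H x W z = ∑' z : Obj F, (if z.Over W ∧ IntO D z x.out then H x W z else 0) :=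
    fun W => tsum_congr fun z => by
      split_ifs with hz
      · rfl
      · exact hH0 x W z hz
  rw [← Finset.mul_sum, Finset.sum_congr rfl fun W _ => h2 W, h1, mul_left_comm]
  congr 1
  by_cases hx : x ∈ XD D
  · rw [if_pos hx, if_pos (show ∃ u : Fˣ, cls x.out = D + dv (u : F) from hx)]
    congr 1
    by_cases hp : par3 (pM x)
    · simp only [if_pos hp]
      exact (ENNReal.ofReal_sum_of_nonneg fun f _ => h0 _ f).symm
    · simp only [if_neg hp, Finset.sum_const_zero]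
  · rw [if_neg hx, if_neg (show ¬∃ u : Fˣ, cls x.out = D + dv (u : F) from hx), mul_zero]

/-- Take `D` with `W ∈ WB D` (`exists_mem_WB`).  By `up_card` (with `S = ∅`), `transfer`,
`exists_rhoG`, `fibre_le`, `cusp` and the weight the finite subsets have bounded size. -/
theorem finite_SelO {W : WeierstrassCurve F} (hΔ : W.Δ ≠ 0) : (SelO W).Finite := by
  obtain ⟨D, hD, hW⟩ := exists_mem_WB W
  obtain ⟨ρ₂, h₂⟩ := exists_bru (act3 F) finite_stab3
  obtain ⟨ρ, hρ, hfib⟩ := exists_rhoG h₂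
  obtain ⟨C, -, hC⟩ := sum0_Psi_le (F := F)
  let h : G (A F) → Model F → ℝ := fun g f => ind (f.jac.Δ ≠ 0 ∧ ¬f.Triv) * PhiS ∅ g f
  have h0 : ∀ g f, 0 ≤ h g f := fun g f => mul_nonneg (ind_nonneg _) (PhiS_nonneg _ g f)
  have hle : ∀ g f, IntM g f → h g f ≤ 1728 * ind (f.jac.Δ ≠ 0 ∧ ¬f.Triv) := fun g f hf => by
    by_cases hh : f.jac.Δ ≠ 0 ∧ ¬f.Triv
    · have h3 := PhiS_le_one ∅ hf hh.1
      simp only [h, ind_pos hh]
      linarith
    · simp only [h, ind_neg hh, zero_mul, mul_zero, le_refl]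
  have h1 := sum0_swap hD h0 ρ
    (fun x W z => if z.Over W ∧ ¬z.f.Triv then PhiO ∅ D z x else 0)
    (fun x W z hz hi => by
      by_cases hp : par3 (pM x) <;> by_cases ht : z.f.Triv <;> by_cases hd : z.f.jac.Δ = 0 <;>
        simp [h, PhiO, ind, hz, hi, hp, ht, hd])
    (fun x W z hn => by
      by_cases hz : z.Over W
      · have hi : ¬IntO D z x.out := fun hi => hn ⟨hz, hi⟩
        simp [PhiO, hi]
      · simp [hz])
  set B := ENNReal.ofReal (C * qq F ^ (10 * deg D + 10 * cc F)) with hB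
  have h2 := fibre_le (hfib D) (fun x => if par3 (pM x) then ENNReal.ofReal (Psi h x) else 0)
    (fun y => (if par3 y then ENNReal.ofReal (wt3 y) else 0) * B) (fun x hx => by
      by_cases hp : par3 (pM x)
      · simp only [if_pos hp]
        rw [hB, ← ENNReal.ofReal_mul (wt3_pos _).le]
        exact ENNReal.ofReal_le_ofReal
          ((hC h hle D ((Int.natCast_nonneg _).trans hD) x hx).trans_eq (by ring))
      · simp only [if_neg hp, zero_le])
  simp only [← mul_assoc, ENNReal.tsum_mul_right] at h2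
  have h3 := tsum_par_wt3_ne_top h₂
  set M := autF W * ((GB D).card * (ENNReal.ofReal (fibM D) *
    (∑' y, ρ₂ y * if par3 y then ENNReal.ofReal (wt3 y) else 0) * B) : ℝ≥0∞) with hM
  have hM' : M ≠ ⊤ := by
    simp only [hM, hB]
    finiteness
  have h4 : ∀ s : Finset (Orb F), ↑s ⊆ SelO W → kap F * s.card ≤ M := fun s hs => by
    refine (up_card hW hΔ ∅ hρ s hs).trans (mul_le_mul_right ?_ _)
    refine le_trans ?_ (h1.le.trans (mul_le_mul_right h2 _))
    exact Finset.single_le_sum (f := fun W => ∑' x, ρ x *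
      ∑' z : Obj F, (if z.Over W ∧ ¬z.f.Triv then PhiO ∅ D z x else 0)) (fun _ _ => zero_le) hW
  by_contra hinf
  obtain ⟨n, hn⟩ := ENNReal.exists_nat_gt (ENNReal.div_ne_top hM' (kap_ne_zero (F := F)))
  obtain ⟨s, hs, hc⟩ := Set.Infinite.exists_subset_card_eq hinf n
  have h5 := h4 s hs
  rw [hc, mul_comm, ← ENNReal.le_div_iff_mul_le (Or.inl kap_ne_zero) (Or.inl kap_ne_top)] at h5
  exact absurd hn (not_lt.2 h5)

lemma sum0_SD (D : Div F) : kap F * ENNReal.ofReal (SD D * (WB D).card) =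
    ∑ W ∈ WB D, (if MinW D W then aut W else 0 : ℝ≥0∞) * (kap F * (SelO W).ncard) := by
  have h1 : SD D * (WB D).card = ∑ W ∈ WB D, ind (MinW D W) * aut W * (SelO W).ncard := by
    rcases (WB D).eq_empty_or_nonempty with h | h
    · simp [h]
    · exact div_mul_cancel₀ _ (Nat.cast_ne_zero.2 h.card_pos.ne')
  rw [h1, ENNReal.ofReal_sum_of_nonneg fun W _ =>
    mul_nonneg (mul_nonneg (ind_nonneg _) (Nat.cast_nonneg _)) (Nat.cast_nonneg _), Finset.mul_sum]
  refine Finset.sum_congr rfl fun W _ => ?_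
  by_cases hm : MinW D W
  · rw [ind_pos hm, if_pos hm, one_mul, ← Nat.cast_mul, ENNReal.ofReal_natCast, Nat.cast_mul,
      mul_left_comm]
  · simp [ind, hm]

/-- `up_card` for every `W`, then `transfer` for every `x` -/
theorem SD_le_tsum {D : Div F} (hD : (c0 F : ℤ) ≤ deg D) (S : Finset (Place F))
    {ρ : XG F → ℝ≥0∞} (hρ : IsBru (actG F) ρ) :
    kap F * ENNReal.ofReal (SD D * (WB D).card) ≤ (GB D).card * ∑' x, ρ x *
      (if x ∈ XD D then (if par3 (pM x) then ENNReal.ofReal (Psi (upF S) x) else 0) else 0) := by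
  rw [sum0_SD, ← sum0_swap hD (adm_upF S).nonneg ρ (fun x W z =>
    (if MinW D W then aut W * autF W else 0 : ℝ≥0∞) *
      if z.Over W ∧ ¬z.f.Triv then PhiO S D z x else 0) (fun x W z hz hi => ?_) fun x W z hn => ?_]
  · refine Finset.sum_le_sum fun W hW => ?_
    by_cases hm : MinW D W
    · have h1 := up_card hW hm.1 S hρ (finite_SelO hm.1).toFinset (by simp)
      rw [← Set.ncard_eq_toFinset_card _ (finite_SelO hm.1)] at h1
      simp only [if_pos hm, ENNReal.tsum_mul_left, mul_left_comm (ρ _), mul_assoc]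
      exact mul_le_mul_right h1 _
    · simp only [if_neg hm, zero_mul, zero_le]
  · have e1 : aut z.f.jac = aut W := by rw [show z.f.jac = z.γ • W from hz, aut_smul]
    have e2 : autF z.f.jac = autF W := by rw [show z.f.jac = z.γ • W from hz, autF_smul]
    have e3 := PhiS_nonneg S x.out z.f
    simp only [upF, PhiO, hi.minW_iff hz, e1, e2]
    by_cases hm : MinM x.out z.f
    · have hd := hm.1
      by_cases hp : par3 (pM x) <;> by_cases ht : z.f.Triv <;>
        simp [ind, hz, hi, hp, ht, hm, hd, ENNReal.ofReal_mul' e3, ENNReal.ofReal_mul]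
    · simp [ind, hm]
  · by_cases hz : z.Over W
    · have hi : ¬IntO D z x.out := fun hi => hn ⟨hz, hi⟩
      simp [PhiO, hi]
    · simp [hz]

/-- `low_card` for every `W`, then `transfer` for every `x` -/
theorem tsum_le_SD {D : Div F} (hD : (c0 F : ℤ) ≤ deg D) (S : Finset (Place F))
    {ρ : XG F → ℝ≥0∞} (hρ : IsBru (actG F) ρ) :
    (GB D).card * ∑' x, ρ x *
      (if x ∈ XD D then (if par3 (pM x) then ENNReal.ofReal (Psi (lowF S) x) else 0) else 0) ≤
      kap F * ENNReal.ofReal (SD D * (WB D).card) := by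
  rw [sum0_SD, ← sum0_swap hD (adm_lowF S).nonneg ρ (fun x W z =>
    (if MinW D W then aut W else 0 : ℝ≥0∞) *
      if z.Over W ∧ ¬z.f.Triv then PhiL S D z x else 0) (fun x W z hz hi => ?_) fun x W z hn => ?_]
  · refine Finset.sum_le_sum fun W hW => ?_
    by_cases hm : MinW D W
    · have h1 := low_card hW hm.1 S hρ (finite_SelO hm.1)
      simp only [if_pos hm, ENNReal.tsum_mul_left, mul_left_comm (ρ _)]
      exact mul_le_mul_right h1 _
    · simp only [if_neg hm, zero_mul, tsum_zero, mul_zero, le_refl]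
  · have e1 : aut z.f.jac = aut W := by rw [show z.f.jac = z.γ • W from hz, aut_smul]
    have e3 := PhiS_nonneg S x.out z.f
    simp only [lowF, PhiL, PhiO, hi.minW_iff hz, e1]
    by_cases hm : MinM x.out z.f
    · have hd := hm.1
      by_cases hp : par3 (pM x) <;> by_cases ht : z.f.Triv <;> by_cases hs : SqM S x.out z.f <;>
        simp [ind, hz, hi, hp, ht, hm, hd, hs, ENNReal.ofReal_mul' e3]
    · simp [ind, hm]
  · by_cases hz : z.Over W
    · have hi : ¬IntO D z x.out := fun hi => hn ⟨hz, hi⟩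
      simp [PhiL, PhiO, hi]
    · simp [hz]

end SelAvg.FF.T3
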